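import Pool.Agent.P.MP_3aa27f_pr.F.NumBA

/-! Elementary numerical lemmas. -/

open MeasureTheory unitInterval SimpleGraph
open ENNReal (ofReal)
open scoped ENNReal

namespace Pool.Agent.P.MP_3aa27f_pr.F


theorem boot_num {Λ s : ℝ} (h1 : 1 < Λ) (s0 : 0 < s) (h2 : Λ * s ^ 2 < 1) :
    ∃ δ C K : ℝ, 0 < δ ∧ δ < 1 ∧ 1 ≤ C ∧ 1 ≤ K ∧ ∀ Y : ℝ, 1 ≤ Y → ∃ n : ℕ,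
      (n : ℝ) ≤ K * (1 + Real.log Y) ∧ ((n : ℝ) + 1) ^ 2 * (Λ * s) ^ n ≤ C * Y ^ (1 - δ) ∧
      Y ^ 3 / Λ ^ n ≤ C * Y ^ (1 - δ) := numb_boot h1 s0 h2

theorem buf_num {ς ε : ℝ} (s0 : 0 < ς) (s1 : ς < 1) (ε0 : 0 < ε) :
    ∃ κ : ℝ, 1 < κ ∧ ∀ J L c : ℝ, 1 ≤ J → 0 ≤ L → 0 < c → ∃ C : ℝ, 1 ≤ C ∧ ∀ X : ℝ, 1 ≤ X →
      ∃ k : ℕ, ς ^ (k * J) * X ≤ 1 / 2 ∧ k * J ≤ C * X ^ ε ∧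
        (k * L + 2) / c * κ ^ (k * J) ≤ C * X ^ ε := numb_buf s0 s1 ε0

theorem num5 {P : ℝ → ℕ → ℝ → Prop} {Fb : ℝ → ℝ → ℝ → Prop} {Gb : ℝ → ℝ → Prop}
    {A C K c₀ δ Cc : ℝ} {n₀ : ℕ} (A1 : 1 ≤ A) (C1 : 1 ≤ C) (K1 : 1 ≤ K) (c0 : 0 ≤ c₀) (δ0 : 0 < δ)
    (δ1 : δ < 1) (Cc1 : 1 ≤ Cc) (mono : ∀ h R B B', P h R B → B ≤ B' → P h R B')
    (r0 : ∀ h R, P h R (A ^ R)) (rc : ∀ m H, 0 ≤ m → Fb m H (Cc ^ (m + 1)))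
    (r1 : ∀ h R B f, 0 ≤ h → 1 ≤ B → 1 ≤ f → P (h + c₀) (R + n₀) B →
      Fb (h + c₀) (K * (h + 1 + Real.log B)) f → P h R (C * f * B ^ (1 - δ)))
    (r2 : ∀ h B, 0 ≤ h → 1 ≤ B → (∀ R, P (h + 3) R B) → Gb h (C * (h + 3) ^ 2 * B ^ 2))
    (r3 : ∀ ε : ℝ, 0 < ε → ∃ C', 1 ≤ C' ∧ ∀ H Γ m, 1 ≤ Γ → Gb H Γ → Fb m H (C' * Γ ^ ε))
    {ε : ℝ} (ε0 : 0 < ε) : ∃ C', 1 ≤ C' ∧ ∀ h, 0 ≤ h → ∀ R, P h R (C' * (h + 1) ^ ε) :=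
  num5_real A1 C1 K1 c0 δ0 δ1 Cc1 mono r0 rc r1 r2 r3 ε0

end Pool.Agent.P.MP_3aa27f_pr.F
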