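import Pool.Agent.P.MP_3aa27f_pr.F.Trn

/-! Second moment of the number of points in a window. -/

open MeasureTheory unitInterval SimpleGraph
open ENNReal (ofReal)
open scoped ENNReal

namespace Pool.Agent.P.MP_3aa27f_pr.F

variable {V : Type} {G : SimpleGraph V} [G.LocallyFinite] [Countable V] {S : Geo G} {p : I}
variable {ς : ℝ}

theorem sm_num {b CM B d k : ℝ} (s0 : 0 < ς) (b0 : 0 < b) (sb : ς ^ 2 * b ≤ 1) (B0 : 0 ≤ B)
    (C0 : 0 ≤ CM) (d0 : 0 ≤ d) : CM * (B * ς ^ (d - 1) * ς ^ (-((1 + k) / 2))) ≤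
      b ^ (-d) * (CM * ς ^ (-(3 / 2 : ℝ)) * B * ς ^ (-d) * ς ^ (-(k / 2))) := by
  have h1 : (ς ^ 2 * b) ^ d ≤ 1 := Real.rpow_le_one (by positivity) sb d0
  have h2 : (ς ^ 2 * b) ^ d = ς ^ d * ς ^ d * b ^ d := by
    rw [Real.mul_rpow (by positivity) b0.le, sq, Real.mul_rpow s0.le s0.le]
  have h3 : ς ^ d ≤ b ^ (-d) * ς ^ (-d) := by
    rw [Real.rpow_neg b0.le, Real.rpow_neg s0.le, ← mul_inv, ← one_div,
      le_div_iff₀ (by positivity)]
    nlinarith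
  have h4 : ς ^ (d - 1) * ς ^ (-((1 + k) / 2)) = ς ^ d * (ς ^ (-(3 / 2 : ℝ)) * ς ^ (-(k / 2))) := by
    rw [← Real.rpow_add s0, ← Real.rpow_add s0, ← Real.rpow_add s0]; congr 1; ring
  calc CM * (B * ς ^ (d - 1) * ς ^ (-((1 + k) / 2)))
      = ς ^ d * (CM * B * (ς ^ (-(3 / 2 : ℝ)) * ς ^ (-(k / 2)))) := by
        rw [mul_assoc B, h4]; ring
    _ ≤ (b ^ (-d) * ς ^ (-d)) * (CM * B * (ς ^ (-(3 / 2 : ℝ)) * ς ^ (-(k / 2)))) := by
        gcongr
    _ = _ := by ring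

theorem Geo.BB.rev {h B : ℝ} {R : ℕ∞} (s0 : 0 < ς) (sb : ς ^ 2 * S.b ≤ 1) (B0 : 0 ≤ B)
    (hB : S.BB p ς (h + 1) R B) (u : V) {a c e : ℝ} (hc : c - a ≤ h) (he : e ≤ S.l u)
    (hu : S.l u ≤ c + 1) : ∑' y, (S.Win e).indicator (tauL G p (S.E a c) R u) y ≤
      ofReal (S.CM * ς ^ (-(3 / 2 : ℝ)) * B * ς ^ (e - S.l u) * ς ^ (-((c - S.l u) / 2))) := by
  classical
  have b0 : 0 < S.b := lt_trans one_pos S.one_lt_b
  have C0 : 0 ≤ S.CM := le_trans zero_le_one S.one_le_CM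
  set L := S.l u with hL
  let K : Ker V := fun y u' => if e - L ≤ S.l y - S.l u' ∧ S.l y - S.l u' ≤ e + 1 - L then
    tauL G p (S.E (S.l u' + (a - L)) (S.l u' + (c - L))) R y u' else 0
  have hK : ∀ g ∈ S.Γ, ∀ x y, K (g x) (g y) = K x y := by
    intro g hg x y
    simp only [K, S.inv g hg x y, Geo.tauL_rel hg y]
  have hrow : ∀ y, ∑' u', K y u' ≤
      ofReal (B * ς ^ ((L - e) - 1) * ς ^ (-((1 + (c - L)) / 2))) := by
    intro y
    have h1 := hB y (S.l y + L - e - 1 + (a - L)) (S.l y + L - e - 1 + 1 + (c - L))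
      (S.l y + L - e - 1) (by linarith) (by linarith)
    have e1 : S.l y + L - e - 1 - S.l y = L - e - 1 := by ring
    have e2 : S.l y + L - e - 1 + 1 + (c - L) - (S.l y + L - e - 1) = 1 + (c - L) := by ring
    rw [e1, e2] at h1
    refine le_trans (ENNReal.tsum_le_tsum fun u' => ?_) h1
    simp only [K]
    split_ifs with hh
    · have hm : u' ∈ S.Win (S.l y + L - e - 1) := ⟨by linarith [hh.2], by linarith [hh.1]⟩
      rw [Set.indicator_of_mem hm]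
      exact tauL_mono (S.E_mono (by linarith [hh.2]) (by linarith [hh.1])) le_rfl
    · exact zero_le
  have hm := S.mtp K hK _ hrow u
  have hlow : ofReal (S.b ^ (-(L - e))) * ∑' y, (S.Win e).indicator (tauL G p (S.E a c) R u) y ≤
      ∑' y, K y u * ofReal (S.b ^ (S.l y - S.l u)) := by
    rw [← ENNReal.tsum_mul_left]
    refine ENNReal.tsum_le_tsum fun y => ?_
    by_cases hy : y ∈ S.Win e
    · rw [Set.indicator_of_mem hy]
      have hc' : e - L ≤ S.l y - S.l u ∧ S.l y - S.l u ≤ e + 1 - L :=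
        ⟨by linarith [hy.1], by linarith [hy.2]⟩
      have e1 : S.l u + (a - L) = a := by rw [← hL]; ring
      have e2 : S.l u + (c - L) = c := by rw [← hL]; ring
      simp only [K]
      rw [if_pos hc', e1, e2, mul_comm, tauL_comm]
      gcongr
      · exact S.one_lt_b.le
      · linarith [hy.1]
    · rw [Set.indicator_of_notMem hy, mul_zero]; exact zero_le
  have hb : 0 < S.b ^ (-(L - e)) := Real.rpow_pos_of_pos b0 _
  have h5 := (hlow.trans hm)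
  rw [← ENNReal.ofReal_mul C0] at h5
  have h6 := h5.trans (ENNReal.ofReal_le_ofReal
    (sm_num (k := c - L) s0 b0 sb B0 C0 (sub_nonneg.2 he)))
  rw [ENNReal.ofReal_mul hb.le] at h6
  have h7 := (ENNReal.mul_le_mul_iff_right (by simpa using hb) ENNReal.ofReal_ne_top).1 h6
  rwa [neg_sub L e] at h7

omit [G.LocallyFinite] in
theorem sm_tree (F : Set (Sym2 V)) (R : ℕ∞) (x : V) (W : Set V) :
    ∫⁻ ω, cnt (W ∩ {y | ω ∈ CnL G F R x y}) ^ 2 ∂mu V p ≤
      ∑' u, tauL G p F R x u * (∑' y, W.indicator (tauL G p F R u) y) ^ 2 := by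
  classical
  have hm : ∀ y y' : V, MeasurableSet
      {ω | (y ∈ W ∧ y' ∈ W) ∧ ω ∈ CnL G F R x y ∩ CnL G F R x y'} := fun y y' =>
    (MeasurableSet.const _).inter (CnL_FU.measurableSet.inter CnL_FU.measurableSet)
  have h1 : ∀ ω, cnt (W ∩ {y | ω ∈ CnL G F R x y}) ^ 2 = ∑' y, ∑' y',
      {ω | (y ∈ W ∧ y' ∈ W) ∧ ω ∈ CnL G F R x y ∩ CnL G F R x y'}.indicator 1 ω := by
    intro ω
    rw [sq, cnt, ← ENNReal.tsum_mul_right]
    refine tsum_congr fun y => ?_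
    rw [← ENNReal.tsum_mul_left]
    refine tsum_congr fun y' => ?_
    by_cases a1 : y ∈ W <;> by_cases a2 : y' ∈ W <;> by_cases a3 : ω ∈ CnL G F R x y <;>
      by_cases a4 : ω ∈ CnL G F R x y' <;> simp [Set.indicator, a1, a2, a3, a4]
  simp only [h1]
  rw [lintegral_tsum fun y => (Measurable.tsum fun y' =>
    measurable_one.indicator (hm y y')).aemeasurable]
  have h2 : ∀ y, ∫⁻ ω, ∑' y',
      {ω | (y ∈ W ∧ y' ∈ W) ∧ ω ∈ CnL G F R x y ∩ CnL G F R x y'}.indicator 1 ω ∂mu V p ≤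
      ∑' y', ∑' u, tauL G p F R x u *
        (W.indicator (tauL G p F R u) y * W.indicator (tauL G p F R u) y') := by
    intro y
    rw [lintegral_tsum fun y' => (measurable_one.indicator (hm y y')).aemeasurable]
    refine ENNReal.tsum_le_tsum fun y' => ?_
    rw [lintegral_indicator_one (hm y y')]
    by_cases a1 : y ∈ W ∧ y' ∈ W
    · simp only [Set.indicator_of_mem a1.1, Set.indicator_of_mem a1.2]
      exact (measure_mono fun ω hω => hω.2).trans tree_graph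
    · simp [a1]
  refine (ENNReal.tsum_le_tsum h2).trans (le_of_eq ?_)
  have h3 : ∀ y, ∑' y', ∑' u, tauL G p F R x u *
        (W.indicator (tauL G p F R u) y * W.indicator (tauL G p F R u) y') =
      ∑' u, tauL G p F R x u * (W.indicator (tauL G p F R u) y *
        ∑' y', W.indicator (tauL G p F R u) y') := by
    intro y
    rw [ENNReal.tsum_comm]
    refine tsum_congr fun u => ?_
    rw [ENNReal.tsum_mul_left, ENNReal.tsum_mul_left]
  simp only [h3]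
  rw [ENNReal.tsum_comm]
  refine tsum_congr fun u => ?_
  rw [ENNReal.tsum_mul_left, ENNReal.tsum_mul_right, sq]

theorem sm_geo {ρ : ℝ≥0∞} (h : ρ ≤ 1) (k : ℕ) : ∑' j : ℕ, ρ ^ Nat.dist j k ≤ 2 * (1 - ρ)⁻¹ := by
  rw [← Summable.sum_add_tsum_nat_add' (k := k) ENNReal.summable, two_mul, ← ENNReal.tsum_geometric]
  refine add_le_add ?_ (le_of_eq (tsum_congr fun i => ?_))
  · refine le_trans ?_ (ENNReal.sum_le_tsum (Finset.range k))
    rw [← Finset.sum_range_reflect (fun j => ρ ^ j) k]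
    refine Finset.sum_le_sum fun i hi => pow_le_pow_of_le_one zero_le h ?_
    have := Finset.mem_range.1 hi
    unfold Nat.dist; omega
  · congr 1; unfold Nat.dist; omega

theorem sm_dist {d : ℝ} (d0 : 0 ≤ d) (j : ℕ) : (Nat.dist j ⌊d⌋₊ : ℝ) ≤ |j - d| + 1 := by
  have h1 := Nat.floor_le d0
  have h2 := Nat.lt_floor_add_one d
  have h3 := le_abs_self ((j : ℝ) - d)
  have h4 := neg_abs_le ((j : ℝ) - d)
  rcases le_total j ⌊d⌋₊ with h | h
  · rw [Nat.dist_eq_sub_of_le h, Nat.cast_sub h]; linarith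
  · rw [Nat.dist_eq_sub_of_le_right h, Nat.cast_sub h]; linarith

theorem sm_n {h B : ℝ} {R : ℕ∞} (s0 : 0 < ς) (s1 : ς < 1) (sb : ς ^ 2 * S.b ≤ 1) (B0 : 0 ≤ B)
    (hB : S.BB p ς (h + 1) R B) {a c e : ℝ} (hc : c - a ≤ h) (he : e ≤ c) {j : ℕ} {u : V}
    (hu : u ∈ S.Win (c - j)) : ∑' y, (S.Win e).indicator (tauL G p (S.E a c) R u) y ≤
      ofReal (S.CM * ς ^ (-(3 / 2 : ℝ)) * B *
        ς ^ ((-(5 * (c - e) / 2) + 3 * j / 2 + |j - (c - e)| / 2 - 3) / 2)) := by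
  have C1 := S.one_le_CM
  have h1 : 1 ≤ ς ^ (-(3 / 2 : ℝ)) :=
    Real.one_le_rpow_of_pos_of_le_one_of_nonpos s0 s1.le (by norm_num)
  have j0 : (0 : ℝ) ≤ j := Nat.cast_nonneg j
  obtain ⟨u1, u2⟩ := hu
  rcases le_total (S.l u) e with hl | hl
  · refine (hB u a c e (by linarith) he).trans (ENNReal.ofReal_le_ofReal ?_)
    rw [mul_assoc B, ← Real.rpow_add s0]
    have h2 : B ≤ S.CM * ς ^ (-(3 / 2 : ℝ)) * B := le_mul_of_one_le_left B0 (by nlinarith)
    refine mul_le_mul h2 (Real.rpow_le_rpow_of_exponent_ge s0 s1.le ?_) (by positivity)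
      (by positivity)
    rcases abs_cases ((j : ℝ) - (c - e)) with h3 | h3 <;> linarith [h3.1, h3.2]
  · refine (hB.rev s0 sb B0 u hc hl (by linarith)).trans (ENNReal.ofReal_le_ofReal ?_)
    rw [mul_assoc (_ * B), ← Real.rpow_add s0]
    refine mul_le_mul_of_nonneg_left (Real.rpow_le_rpow_of_exponent_ge s0 s1.le ?_) (by positivity)
    rcases abs_cases ((j : ℝ) - (c - e)) with h3 | h3 <;> linarith [h3.1, h3.2]

theorem sm_term {h B : ℝ} {R : ℕ∞} (s0 : 0 < ς) (s1 : ς < 1) (sb : ς ^ 2 * S.b ≤ 1) (B0 : 0 ≤ B)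
    (hB : S.BB p ς (h + 1) R B) (x : V) {a c e : ℝ} (hc : c - a ≤ h) (he : e ≤ c) (j : ℕ) :
    ∑' u, (S.Win (c - j)).indicator (fun u => tauL G p (S.E a c) R x u *
      (∑' y, (S.Win e).indicator (tauL G p (S.E a c) R u) y) ^ 2) u ≤
      ofReal ((S.CM * ς ^ (-(3 / 2 : ℝ))) ^ 2 * ς ^ (-(7 / 2 : ℝ)) * B ^ 3 * ς ^ (e - S.l x) *
        ς ^ (-(3 * (c - e) / 2))) * ofReal (ς ^ (1 / 2 : ℝ)) ^ Nat.dist j ⌊c - e⌋₊ := by
  have C0 : 0 ≤ S.CM := le_trans zero_le_one S.one_le_CM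
  have j0 : (0 : ℝ) ≤ j := Nat.cast_nonneg j
  set N := S.CM * ς ^ (-(3 / 2 : ℝ)) * B *
    ς ^ ((-(5 * (c - e) / 2) + 3 * j / 2 + |j - (c - e)| / 2 - 3) / 2) with hN
  have N0 : 0 ≤ N := by positivity
  have h1 : ∑' u, (S.Win (c - j)).indicator (fun u => tauL G p (S.E a c) R x u *
      (∑' y, (S.Win e).indicator (tauL G p (S.E a c) R u) y) ^ 2) u ≤
      (∑' u, (S.Win (c - j)).indicator (tauL G p (S.E a c) R x) u) * ofReal N ^ 2 := by
    rw [← ENNReal.tsum_mul_right]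
    refine ENNReal.tsum_le_tsum fun u => ?_
    by_cases hu : u ∈ S.Win (c - j)
    · simp only [Set.indicator_of_mem hu]
      gcongr
      exact sm_n s0 s1 sb B0 hB hc he hu
    · simp [hu]
  have h2 := hB x a c (c - j) (by linarith) (by linarith)
  refine h1.trans ((mul_le_mul_left h2 _).trans ?_)
  rw [← ENNReal.ofReal_pow N0, ← ENNReal.ofReal_mul (by positivity),
    ← ENNReal.ofReal_pow (by positivity), ← ENNReal.ofReal_mul (by positivity)]
  refine ENNReal.ofReal_le_ofReal ?_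
  have hd := sm_dist (sub_nonneg.2 he) j
  set t := (-(5 * (c - e) / 2) + 3 * j / 2 + |j - (c - e)| / 2 - 3) / 2 with ht
  set D : ℝ := (Nat.dist j ⌊c - e⌋₊ : ℝ) with hD
  have e1 : B * ς ^ (c - j - S.l x) * ς ^ (-((c - (c - j)) / 2)) * N ^ 2 =
      (S.CM * ς ^ (-(3 / 2 : ℝ))) ^ 2 * B ^ 3 *
        ς ^ (c - j - S.l x + -((c - (c - j)) / 2) + t + t) := by
    rw [Real.rpow_add s0, Real.rpow_add s0, Real.rpow_add s0, hN]; ring
  have e2 : (S.CM * ς ^ (-(3 / 2 : ℝ))) ^ 2 * ς ^ (-(7 / 2 : ℝ)) * B ^ 3 * ς ^ (e - S.l x) *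
      ς ^ (-(3 * (c - e) / 2)) * (ς ^ (1 / 2 : ℝ)) ^ Nat.dist j ⌊c - e⌋₊ =
      (S.CM * ς ^ (-(3 / 2 : ℝ))) ^ 2 * B ^ 3 *
        ς ^ (-(7 / 2 : ℝ) + (e - S.l x) + -(3 * (c - e) / 2) + 1 / 2 * D) := by
    rw [Real.rpow_add s0, Real.rpow_add s0, Real.rpow_add s0, Real.rpow_mul s0.le, hD,
      Real.rpow_natCast]; ring
  rw [e1, e2]
  refine mul_le_mul_of_nonneg_left (Real.rpow_le_rpow_of_exponent_ge s0 s1.le ?_) (by positivity)
  rw [ht]; linarith

theorem Geo.sm (S : Geo G) (s0 : 0 < ς) (s1 : ς < 1) (sb : ς ^ 2 * S.b ≤ 1) :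
    ∃ C : ℝ, 1 ≤ C ∧ ∀ (p : I) (h B : ℝ) (R : ℕ∞), 1 ≤ B → S.BB p ς (h + 1) R B →
      ∀ (x : V) (a c e : ℝ), c - a ≤ h → e ≤ c →
        ∫⁻ ω, cnt (S.Win e ∩ {y | ω ∈ CnL G (S.E a c) R x y}) ^ 2 ∂mu V p ≤
          ofReal (C * B ^ 3 * ς ^ (e - S.l x) * ς ^ (-(3 * (c - e) / 2))) := by
  have r0 : 0 < ς ^ (1 / 2 : ℝ) := Real.rpow_pos_of_pos s0 _
  have r1 : ς ^ (1 / 2 : ℝ) < 1 := Real.rpow_lt_one s0.le s1 (by norm_num)
  set C1 := (S.CM * ς ^ (-(3 / 2 : ℝ))) ^ 2 * ς ^ (-(7 / 2 : ℝ)) with hC1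
  have C10 : 0 ≤ C1 := by positivity
  refine ⟨max 1 (C1 * (2 * (1 - ς ^ (1 / 2 : ℝ))⁻¹)), le_max_left _ _, ?_⟩
  intro p h B R B1 hB x a c e hc he
  have B0 : 0 ≤ B := by linarith
  rcases le_or_gt (c + 1) (S.l x) with hx | hx
  · have h1 : ∀ ω, cnt (S.Win e ∩ {y | ω ∈ CnL G (S.E a c) R x y}) ^ 2 ≤ 1 := by
      intro ω
      refine pow_le_one' ((cnt_mono (B := {x}) fun y hy => ?_).trans (cnt_singleton x).le) 2
      rcases Geo.Cn_Lt (S := S) (t := c) Set.inter_subset_right (CnL_sub hy.2) with h2 | h2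
      · exact h2
      · exact absurd h2.1 (not_lt.2 hx)
    refine (lintegral_mono h1).trans ?_
    rw [lintegral_const, measure_univ, one_mul, ← ENNReal.ofReal_one]
    refine ENNReal.ofReal_le_ofReal ?_
    have a1 : 1 ≤ ς ^ (e - S.l x) :=
      Real.one_le_rpow_of_pos_of_le_one_of_nonpos s0 s1.le (by linarith)
    have a2 : 1 ≤ ς ^ (-(3 * (c - e) / 2)) :=
      Real.one_le_rpow_of_pos_of_le_one_of_nonpos s0 s1.le (by linarith)
    exact one_le_mul_of_one_le_of_one_le (one_le_mul_of_one_le_of_one_le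
      (one_le_mul_of_one_le_of_one_le (le_max_left _ _) (one_le_pow₀ B1)) a1) a2
  · refine (sm_tree _ R x _).trans ?_
    set f : V → ℝ≥0∞ := fun u => tauL G p (S.E a c) R x u *
      (∑' y, (S.Win e).indicator (tauL G p (S.E a c) R u) y) ^ 2 with hf
    have h1 : ∀ u, f u ≤ ∑' j : ℕ, (S.Win (c - j)).indicator f u := by
      intro u
      by_cases h0 : tauL G p (S.E a c) R x u = 0
      · simp only [hf, h0, zero_mul]; exact zero_le
      · obtain ⟨ω, hω⟩ := nonempty_of_measure_ne_zero h0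
        have hl : S.l u < c + 1 := by
          rcases Geo.Cn_Lt (S := S) (t := c) Set.inter_subset_right (CnL_sub hω) with h2 | h2
          · rw [h2]; exact hx
          · exact h2.2
        have hm : u ∈ S.Win (c - (⌈c - S.l u⌉₊ : ℕ)) := by
          refine ⟨by linarith [Nat.le_ceil (c - S.l u)], ?_⟩
          rcases le_total (c - S.l u) 0 with h3 | h3
          · rw [Nat.ceil_eq_zero.2 h3]; simp only [Nat.cast_zero]; linarith
          · linarith [Nat.ceil_lt_add_one h3]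
        refine le_trans ?_ (ENNReal.le_tsum ⌈c - S.l u⌉₊)
        rw [Set.indicator_of_mem hm]
    refine (ENNReal.tsum_le_tsum h1).trans ?_
    rw [ENNReal.tsum_comm]
    refine (ENNReal.tsum_le_tsum fun j => sm_term s0 s1 sb B0 hB x hc he j).trans ?_
    rw [ENNReal.tsum_mul_left]
    refine (mul_le_mul_right (sm_geo (ENNReal.ofReal_le_one.2 r1.le) _) _).trans ?_
    have e1 : 2 * (1 - ofReal (ς ^ (1 / 2 : ℝ)))⁻¹ = ofReal (2 * (1 - ς ^ (1 / 2 : ℝ))⁻¹) := by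
      rw [ENNReal.ofReal_mul zero_le_two, ENNReal.ofReal_inv_of_pos (by linarith),
        ENNReal.ofReal_sub _ r0.le]
      simp
    rw [e1, ← ENNReal.ofReal_mul (by positivity)]
    refine ENNReal.ofReal_le_ofReal ?_
    have := le_max_right 1 (C1 * (2 * (1 - ς ^ (1 / 2 : ℝ))⁻¹))
    calc _ = C1 * (2 * (1 - ς ^ (1 / 2 : ℝ))⁻¹) * B ^ 3 * ς ^ (e - S.l x) *
          ς ^ (-(3 * (c - e) / 2)) := by rw [hC1]; ring
      _ ≤ _ := by gcongr

end Pool.Agent.P.MP_3aa27f_pr.F
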