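import Pool.Agent.P.MP_3aa27f_pr.F.Haz
import Pool.Agent.P.MP_3aa27f_pr.F.Sm
import Pool.Agent.P.MP_3aa27f_pr.F.NumB

/-! The bootstrap inequality. -/

open MeasureTheory unitInterval SimpleGraph
open ENNReal (ofReal)
open scoped ENNReal

namespace Pool.Agent.P.MP_3aa27f_pr.F

variable {V : Type} {G : SimpleGraph V} [G.LocallyFinite] [Countable V] {S : Geo G} {p : I}
variable {ς : ℝ}

omit [Countable V] in
theorem boot2_par (hR : Rate S p ς) : ∃ (C : Chain S p) (Λ : ℝ), 1 ≤ Λ * C.q ∧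
    C.ρ ^ 2 * S.b ^ C.J ≤ Λ ∧ 1 < Λ ∧ Λ * (ς ^ C.J) ^ 2 < 1 := by
  have s0 := hR.s0
  have u0 : 0 < √ς := Real.sqrt_pos.2 s0
  have u1 : √ς < 1 := by rw [Real.sqrt_lt' one_pos]; simpa using hR.s1
  obtain ⟨C, hC⟩ := hR.chain (√ς)⁻¹ ((one_lt_inv₀ u0).2 u1)
  have J0 : 0 < C.J := lt_of_lt_of_le one_pos C.one_le_J
  set t := √ς ^ C.J with ht
  have t0 : 0 < t := Real.rpow_pos_of_pos u0 _
  have t1 : t < 1 := Real.rpow_lt_one u0.le u1 J0
  have hs : ς ^ C.J = t ^ 2 := by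
    rw [sq, ht, ← Real.mul_rpow u0.le u0.le, Real.mul_self_sqrt s0.le]
  rw [div_inv_eq_mul, Real.mul_rpow s0.le u0.le, hs, ← ht] at hC
  have q0 := C.q0
  have b0 : 0 < S.b := lt_trans one_pos S.one_lt_b
  refine ⟨C, max C.q⁻¹ (max (C.ρ ^ 2 * S.b ^ C.J) (t ^ 2)⁻¹), ?_,
    le_max_of_le_right (le_max_left _ _), lt_max_of_lt_right (lt_max_of_lt_right
      ((one_lt_inv₀ (by positivity)).2 (by nlinarith))), ?_⟩
  · rw [← div_le_iff₀ q0, one_div]; exact le_max_left _ _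
  · rw [← lt_div_iff₀ (by positivity), max_lt_iff, max_lt_iff]
    simp only [lt_div_iff₀ (show 0 < (ς ^ C.J) ^ 2 by positivity)]
    refine ⟨?_, ?_, ?_⟩
    · rw [hs, inv_mul_lt_iff₀ q0]
      have : 0 < t ^ 2 * t := by positivity
      nlinarith
    · have : S.b ^ C.J * (ς ^ C.J) ^ 2 ≤ 1 := by
        rw [sq, ← Real.mul_rpow s0.le s0.le, ← Real.mul_rpow b0.le (by positivity)]
        exact Real.rpow_le_one (by positivity) (by nlinarith [hR.sb]) J0.le
      have h2 : C.ρ ^ 2 < 1 := by nlinarith [C.ρ0, C.ρ1]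
      have h3 : 0 ≤ C.ρ ^ 2 := sq_nonneg _
      nlinarith
    · rw [hs, sq (t ^ 2), inv_mul_cancel_left₀ (by positivity)]
      nlinarith

theorem Rate.bootO (hR : Rate S p ς) : ∃ C K δ : ℝ, 1 ≤ C ∧ 1 ≤ K ∧ 0 < δ ∧ δ < 1 ∧
    ∀ (h B f : ℝ) (R : ℕ), 0 ≤ h → 1 ≤ B → 1 ≤ f → S.BB p ς (h + 1) R B →
      S.FB p ς (h + 1) (K * (h + 1 + Real.log B)) f →
      ∀ (x : V) (a c e : ℝ), c - a ≤ h → e ≤ c → a ≤ S.l x → S.l x ≤ c + 1 →
        ∑' y, {y | S.O y ∧ y ∈ S.Win e}.indicator (tauL G p (S.E a c) R x) y ≤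
          ofReal (C * f * B ^ (1 - δ) * ς ^ (e - S.l x) * ς ^ (-((c - e) / 2))) := by
  have s0 := hR.s0
  obtain ⟨Ch, Λ, l1, l2, l3, l4⟩ := boot2_par hR
  obtain ⟨C₁, C1, hC₁⟩ := Ch.trunc hR.p0 l1 l2
  obtain ⟨C₂, C2, hC₂⟩ := S.sm s0 hR.s1 hR.sb
  obtain ⟨δ, C₀, K₀, δ0, δ1, C0, K0, hnum⟩ := boot_num l3 (Real.rpow_pos_of_pos s0 Ch.J) l4
  have J1 := Ch.one_le_J
  have lg : 0 < -Real.log ς := neg_pos.2 (Real.log_neg s0 hR.s1)
  refine ⟨(C₁ + C₂) * C₀, 1 + Ch.J * K₀ * (1 - Real.log ς), δ, by nlinarith,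
    le_add_of_nonneg_right (mul_nonneg (by positivity) (by linarith)), δ0, δ1, ?_⟩
  intro h B f R h0 B1 f1 hB hF x a c e hc he ha hx
  by_cases hea : e + 1 < a
  · refine le_of_eq_of_le (ENNReal.tsum_eq_zero.2 fun y => ?_) zero_le
    refine Set.indicator_apply_eq_zero.2 fun hy => ?_
    rw [tauL, Set.eq_empty_of_forall_notMem (s := CnL _ _ _ _ _) fun ω hω => ?_, measure_empty]
    have := hy.2.2
    rcases Geo.Cn_Ge Set.inter_subset_left (CnL_sub hω) with rfl | h1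
    · linarith
    · linarith [h1.2]
  set t := ς ^ (-((c - e) / 2)) with ht
  have t1 : 1 ≤ t := Real.one_le_rpow_of_pos_of_le_one_of_nonpos s0 hR.s1.le (by linarith)
  obtain ⟨n, n1, n2, n3⟩ := hnum (B * t) (by nlinarith)
  have lB : 0 ≤ Real.log B := Real.log_nonneg B1
  rw [Real.log_mul (by positivity) (by positivity), ht, Real.log_rpow s0] at n1
  have hH : e + n * Ch.J - a ≤ (1 + Ch.J * K₀ * (1 - Real.log ς)) * (h + 1 + Real.log B) := by
    have a1 : 1 + (Real.log B + -((c - e) / 2) * Real.log ς) ≤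
        (1 - Real.log ς) * (h + 1 + Real.log B) := by nlinarith
    have a2 : (n : ℝ) ≤ K₀ * ((1 - Real.log ς) * (h + 1 + Real.log B)) :=
      n1.trans (mul_le_mul_of_nonneg_left a1 (by linarith))
    have a3 := mul_le_mul_of_nonneg_left a2 (show 0 ≤ Ch.J by linarith)
    nlinarith
  have Λn : 0 < Λ ^ n := pow_pos (by linarith) n
  set z := ς ^ (e - S.l x) with hz
  have z0 : 0 < z := Real.rpow_pos_of_pos s0 _
  have p1 := (hC₁ n R x a c e ha).trans
    (mul_le_mul_right (hF x a (e + n * Ch.J) (by linarith) hH) _)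
  have p2 := (lintegral_mono (μ := mu V p) fun ω => pow_le_pow_left' (cnt_mono
    (A := {y | S.O y ∧ y ∈ S.Win e} ∩ {y | ω ∈ CnL G (S.E a c) R x y})
    (Set.inter_subset_inter_left _ fun y hy => hy.2)) 2).trans (hC₂ p h B R B1 hB x a c e hc he)
  rw [← lintegral_cntL]
  refine (lintegral_le_min_add _ (measurable_cntL _) (T := ofReal (Λ ^ n))
    (by simpa using Λn) ENNReal.ofReal_ne_top).trans
    ((add_le_add p1 (ENNReal.div_le_div_right p2 _)).trans ?_)
  rw [← ENNReal.ofReal_div_of_pos Λn, ← ENNReal.ofReal_mul (by positivity),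
    ← ENNReal.ofReal_add (by positivity) (by positivity)]
  refine ENNReal.ofReal_le_ofReal ?_
  have e1 : ς ^ (e + n * Ch.J - S.l x) = z * (ς ^ Ch.J) ^ n := by
    rw [hz, ← Real.rpow_mul_natCast s0.le, ← Real.rpow_add s0]; congr 1; ring
  have e2 : ς ^ (-(3 * (c - e) / 2)) = t ^ 3 := by
    rw [ht, ← Real.rpow_mul_natCast s0.le]; congr 1; push_cast; ring
  have e3 : (B * t) ^ (1 - δ) ≤ B ^ (1 - δ) * t := by
    rw [Real.mul_rpow (by positivity) (by positivity)]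
    refine mul_le_mul_of_nonneg_left ?_ (by positivity)
    simpa using Real.rpow_le_rpow_of_exponent_le t1 (show 1 - δ ≤ 1 by linarith)
  have e4 := mul_le_mul_of_nonneg_left e3 (show 0 ≤ C₀ by linarith)
  have b1 := mul_le_mul_of_nonneg_left (n2.trans e4) (show 0 ≤ C₁ * f * z by positivity)
  have b2 := mul_le_mul (show C₂ * z ≤ C₂ * f * z by nlinarith [mul_pos (show 0 < C₂ by linarith) z0])
    (n3.trans e4) (by positivity) (by positivity)
  rw [e1, e2, ← hz]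
  rw [mul_pow] at b1 b2
  calc _ = C₁ * f * z * (((n : ℝ) + 1) ^ 2 * (Λ ^ n * (ς ^ Ch.J) ^ n)) +
        C₂ * z * (B ^ 3 * t ^ 3 / Λ ^ n) := by ring
    _ ≤ _ := add_le_add b1 b2
    _ = _ := by ring

theorem Rate.boot (hR : Rate S p ς) : ∃ C K δ : ℝ, 1 ≤ C ∧ 1 ≤ K ∧ 0 < δ ∧ δ < 1 ∧
    ∀ (h : ℝ) (R : ℕ) (B f : ℝ), 0 ≤ h → 1 ≤ B → 1 ≤ f →
      S.BB p ς (h + (S.n0 + 2)) (R + S.n0 : ℕ) B →
      S.FB p ς (h + (S.n0 + 2)) (K * (h + 1 + Real.log B)) f →
      S.BB p ς h R (C * f * B ^ (1 - δ)) := by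
  have s0 := hR.s0
  have p0 := hR.p0
  obtain ⟨C, K, δ, C1, K1, δ0, δ1, hb⟩ := hR.bootO
  have n00 : (0 : ℝ) ≤ S.n0 := Nat.cast_nonneg _
  set M := ((S.D : ℝ) + 1) ^ S.n0 * S.n0 * C * ς ^ (-(S.n0 : ℝ)) / (p : ℝ) ^ S.n0 with hM
  have M0 : 0 ≤ M := by positivity
  refine ⟨1 + M, K * (S.n0 + 2), δ, by linarith, by nlinarith, δ0, δ1, ?_⟩
  intro h R B f h0 B1 f1 hB hF x a c e hc he
  have lB : 0 ≤ Real.log B := Real.log_nonneg B1
  have hB1 : 1 ≤ B ^ (1 - δ) := Real.one_le_rpow B1 (by linarith)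
  set t := ς ^ (-((c - e) / 2)) with ht
  have t1 : 1 ≤ t := Real.one_le_rpow_of_pos_of_le_one_of_nonpos s0 hR.s1.le (by linarith)
  set z := ς ^ (e - S.l x) with hz
  have z0 : 0 < z := Real.rpow_pos_of_pos s0 _
  by_cases hx : a ≤ S.l x ∧ S.l x ≤ c + 1
  swap
  · rw [tsum_eq_single x fun y hy => ?_]
    · by_cases hw : x ∈ S.Win e
      · rw [Set.indicator_of_mem hw, tauL_self, ENNReal.one_le_ofReal]
        have : 1 ≤ z :=
          Real.one_le_rpow_of_pos_of_le_one_of_nonpos s0 hR.s1.le (by linarith [hw.1])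
        exact one_le_mul_of_one_le_of_one_le (one_le_mul_of_one_le_of_one_le
          (one_le_mul_of_one_le_of_one_le (one_le_mul_of_one_le_of_one_le (by linarith) f1) hB1)
          this) t1
      · rw [Set.indicator_of_notMem hw]; exact zero_le
    · refine Set.indicator_apply_eq_zero.2 fun _ => ?_
      rw [tauL, Set.eq_empty_of_forall_notMem (s := CnL _ _ _ _ _) fun ω hω => hx ?_,
        measure_empty]
      exact ⟨((Geo.Cn_Ge Set.inter_subset_left (CnL_sub hω)).resolve_left hy).1,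
        ((Geo.Cn_Lt Set.inter_subset_right (CnL_sub hω)).resolve_left hy).1.le⟩
  choose u w hu h1 h2 h3 using S.up'
  set A : Set V := {y | y ∈ S.Win e ∧ a ≤ S.l y ∧ S.l y ≤ c + 1} with hA
  set T : V → ℝ≥0∞ := tauL G p (S.E a (c + S.n0 + 1)) (R + S.n0 : ℕ) x with hT
  have s1 : ∀ y, ofReal ((p : ℝ) ^ S.n0) * (S.Win e).indicator (tauL G p (S.E a c) R x) y ≤
      A.indicator (fun y => T (u y)) y := by
    intro y
    by_cases hy : y ∈ A
    · rw [Set.indicator_of_mem hy, Set.indicator_of_mem hy.1, hT, Nat.cast_add]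
      have : ((w y).length : ℝ) ≤ S.n0 := by exact_mod_cast h2 y
      exact (mul_le_mul_right (tauL_mono (S.E_mono le_rfl (by linarith)) le_rfl) _).trans
        (harris_walk_tauL (w y) (h2 y) (S.tight_edges' (w y) (h3 y) hy.2.1
          (by rw [h3]; linarith [hy.2.2])))
    · refine le_of_eq_of_le (mul_eq_zero_of_right _
        (Set.indicator_apply_eq_zero.2 fun hw => ?_)) zero_le
      rw [tauL, Set.eq_empty_of_forall_notMem (s := CnL _ _ _ _ _) fun ω hω => hy ⟨hw, ?_, ?_⟩,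
        measure_empty]
      · rcases Geo.Cn_Ge Set.inter_subset_left (CnL_sub hω) with rfl | h4
        exacts [hx.1, h4.2]
      · rcases Geo.Cn_Lt Set.inter_subset_right (CnL_sub hω) with rfl | h4
        exacts [hx.2, h4.2.le]
  have s2 := tsum_comp_le (φ := u) A T (c := ofReal (((S.D : ℝ) + 1) ^ S.n0)) fun v =>
    le_trans (cnt_mono (by
      rintro y ⟨-, rfl⟩
      exact (G.dist_comm.le.trans (G.dist_le (w y))).trans (h2 y))) (cnt_ball_le S v S.n0)
  have s3 : ∀ v, (u '' A).indicator T v ≤ ∑ j ∈ Finset.range S.n0,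
      {y | S.O y ∧ y ∈ S.Win (e + (j + 1))}.indicator T v := by
    intro v
    by_cases hv : v ∈ u '' A
    · obtain ⟨y, hy, rfl⟩ := id hv
      obtain ⟨j, hj⟩ : ∃ j, (w y).length = j + 1 := ⟨(w y).length - 1, by have := h1 y; omega⟩
      have h4 := h3 y
      rw [hj] at h4
      push_cast at h4
      refine le_trans (le_of_eq ?_) (Finset.single_le_sum (a := j) (fun _ _ => zero_le)
        (Finset.mem_range.2 (by have := h2 y; omega)))
      rw [Set.indicator_of_mem hv, Set.indicator_of_mem]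
      exact ⟨hu y, by linarith [hy.1.1], by linarith [hy.1.2]⟩
    · rw [Set.indicator_of_notMem hv]; exact zero_le
  have s4 : ∀ j ∈ Finset.range S.n0, ∑' v, {y | S.O y ∧ y ∈ S.Win (e + (j + 1))}.indicator T v ≤
      ofReal (C * f * B ^ (1 - δ) * (ς ^ (-(S.n0 : ℝ)) * z * t)) := by
    intro j hj
    have hj : (j : ℝ) + 1 ≤ S.n0 := by exact_mod_cast Finset.mem_range.1 hj
    have j0 : (0 : ℝ) ≤ j := Nat.cast_nonneg _
    refine (hb (h + S.n0 + 1) B f (R + S.n0) (by linarith) B1 f1 (by rwa [show h + S.n0 + 1 + 1 = h + (S.n0 + 2) by ring])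
      (fun v a' c' g1 g2 => hF v a' c' (by linarith) (g2.trans ?_)) x a (c + S.n0 + 1)
      (e + (j + 1)) (by linarith) (by linarith) hx.1 (by linarith [hx.2])).trans
      (ENNReal.ofReal_le_ofReal ?_)
    · rw [mul_assoc]
      exact mul_le_mul_of_nonneg_left (by nlinarith) (by linarith)
    · rw [mul_assoc (C * f * B ^ (1 - δ)), hz, ht, ← Real.rpow_add s0, ← Real.rpow_add s0,
        ← Real.rpow_add s0]
      exact mul_le_mul_of_nonneg_left
        (Real.rpow_le_rpow_of_exponent_ge s0 hR.s1.le (by linarith)) (by positivity)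
  have s5 := (ENNReal.tsum_le_tsum s1).trans (s2.trans (mul_le_mul_right
    ((ENNReal.tsum_le_tsum s3).trans ((Summable.tsum_finsetSum fun _ _ => ENNReal.summable).le.trans
      (Finset.sum_le_card_nsmul _ _ _ s4))) _))
  have pn : 0 < (p : ℝ) ^ S.n0 := by positivity
  rw [ENNReal.tsum_mul_left, mul_comm, ← ENNReal.le_div_iff_mul_le (Or.inl (by simpa using pn))
    (Or.inl ENNReal.ofReal_ne_top), Finset.card_range, nsmul_eq_mul, ← ENNReal.ofReal_natCast,
    ← ENNReal.ofReal_mul n00, ← ENNReal.ofReal_mul (by positivity),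
    ← ENNReal.ofReal_div_of_pos pn] at s5
  refine s5.trans (ENNReal.ofReal_le_ofReal ?_)
  have : 0 ≤ f * B ^ (1 - δ) * z * t := by positivity
  calc _ = M * (f * B ^ (1 - δ) * z * t) := by rw [hM]; ring
    _ ≤ (1 + M) * (f * B ^ (1 - δ) * z * t) := by nlinarith
    _ = _ := by ring

end Pool.Agent.P.MP_3aa27f_pr.F
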