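import Pool.Agent.P.MP_3aa27f_pr.F.Lev

/-! Transport along automorphisms. -/

open MeasureTheory unitInterval SimpleGraph
open ENNReal (ofReal)
open scoped ENNReal

namespace Pool.Agent.P.MP_3aa27f_pr.F

variable {V : Type} {G : SimpleGraph V} [G.LocallyFinite] [Countable V] {S : Geo G} {p : I}
variable {F : Set (Sym2 V)} {R : ℕ∞} {x y : V} {ω : Cf V} {g : G ≃g G}

section

omit [G.LocallyFinite] [Countable V]

theorem measurable_act (g : G ≃g G) : Measurable (act g) := measurable_reindex (Sym2.map g)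

theorem trn_map_act (g : G ≃g G) : (mu V p).map (act g) = mu V p :=
  PM_map_inj (fun _ => p) (Sym2.map.injective g.injective)

theorem trn_mem_map (g : G ≃g G) {e : Sym2 V} : Sym2.map g e ∈ Sym2.map g '' F ↔ e ∈ F :=
  (Sym2.map.injective g.injective).mem_set_image

theorem trn_surj (g : G ≃g G) (e : Sym2 V) : ∃ e', Sym2.map g e' = e :=
  ⟨Sym2.map g.symm e, by induction e using Sym2.ind with | _ a b => simp⟩

theorem trn_image (g : G ≃g G) {A B : Set (Sym2 V)} (h : ∀ e, Sym2.map g e ∈ B ↔ e ∈ A) :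
    Sym2.map g '' A = B := by
  ext e
  obtain ⟨e, rfl⟩ := trn_surj g e
  rw [trn_mem_map, h]

theorem trn_mem_img (g : G ≃g G) {T : Set V} {v : V} : g v ∈ g '' T ↔ v ∈ T :=
  g.injective.mem_set_image

theorem trn_tsum (g : G ≃g G) (f : V → ℝ≥0∞) : ∑' v, f (g v) = ∑' v, f v :=
  Equiv.tsum_eq g.toEquiv f

theorem mu_act (g : G ≃g G) {A : Set (Cf V)} (hA : MeasurableSet A) :
    mu V p {ω | act g ω ∈ A} = mu V p A := by
  conv_rhs => rw [← trn_map_act g, Measure.map_apply (measurable_act g) hA]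
  rfl

theorem lintegral_act (g : G ≃g G) {f : Cf V → ℝ≥0∞} (hf : Measurable f) :
    ∫⁻ ω, f (act g ω) ∂mu V p = ∫⁻ ω, f ω ∂mu V p := by
  conv_rhs => rw [← trn_map_act g, lintegral_map hf (measurable_act g)]

theorem act_CnL (g : G ≃g G) :
    act g ω ∈ CnL G F R x y ↔ ω ∈ CnL G (Sym2.map g '' F) R (g x) (g y) := by
  constructor
  · rintro ⟨w, hw, h⟩
    refine ⟨w.map g.toHom, by simpa using hw, fun e he => ?_⟩
    rw [SimpleGraph.Walk.edges_map, List.mem_map] at he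
    obtain ⟨e, he, rfl⟩ := he
    exact ⟨⟨e, (h e he).1, rfl⟩, (h e he).2⟩
  · rintro ⟨w, hw, h⟩
    refine ⟨(w.map g.symm.toHom).copy (by simp) (by simp), by simpa using hw, fun e he => ?_⟩
    rw [SimpleGraph.Walk.edges_copy, SimpleGraph.Walk.edges_map, List.mem_map] at he
    obtain ⟨e, he, rfl⟩ := he
    have h1 : Sym2.map g (Sym2.map g.symm.toHom e) = e := by
      induction e using Sym2.ind with | _ a b => simp
    refine ⟨(trn_mem_map g).1 (by rw [h1]; exact (h e he).1), ?_⟩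
    change ω (Sym2.map g (Sym2.map g.symm.toHom e)) = true
    rw [h1]; exact (h e he).2

theorem act_Cn (g : G ≃g G) : act g ω ∈ Cn G F x y ↔ ω ∈ Cn G (Sym2.map g '' F) (g x) (g y) := by
  rw [← CnL_top, ← CnL_top, act_CnL]

theorem act_Rch (g : G ≃g G) {Y : Set V} :
    act g ω ∈ Rch G F x Y ↔ ω ∈ Rch G (Sym2.map g '' F) (g x) (g '' Y) := by
  constructor
  · rintro ⟨z, hz, h⟩
    exact ⟨g z, ⟨z, hz, rfl⟩, (act_Cn g).1 h⟩
  · rintro ⟨_, ⟨z, hz, rfl⟩, h⟩
    exact ⟨z, hz, (act_Cn g).2 h⟩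

theorem act_Kl (g : G ≃g G) : Kl G (Sym2.map g '' F) (g x) ω = g '' Kl G F x (act g ω) := by
  ext v
  obtain ⟨v, rfl⟩ := g.surjective v
  rw [trn_mem_img]
  exact (act_Cn g).symm

theorem map_EIn (g : G ≃g G) (T : Set V) : Sym2.map g '' EIn T = EIn (g '' T) := by
  refine trn_image g fun e => ?_
  induction e using Sym2.ind with
  | _ a b => rw [Sym2.map_mk, mem_EIn, mem_EIn, trn_mem_img, trn_mem_img]

theorem map_ETo (g : G ≃g G) (T : Set V) : Sym2.map g '' ETo T = ETo (g '' T) := by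
  refine trn_image g fun e => ?_
  induction e using Sym2.ind with
  | _ a b =>
    rw [Sym2.map_mk]
    simp only [ETo, Set.mem_ofPred_eq, Sym2.mem_iff, exists_eq_or_imp, exists_eq_left, trn_mem_img]

end

section

omit [G.LocallyFinite]

theorem tauL_map (g : G ≃g G) :
    tauL G p (Sym2.map g '' F) R (g x) (g y) = tauL G p F R x y := by
  unfold tauL
  rw [← mu_act g (CnL_FU (F := F) (R := R) (x := x) (y := y)).measurableSet]
  congr 1
  ext ω
  exact (act_CnL g).symm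

theorem tau_map (g : G ≃g G) : tau G p (Sym2.map g '' F) (g x) (g y) = tau G p F x y := by
  rw [← tauL_top, ← tauL_top, tauL_map]

theorem rch_map (g : G ≃g G) (Y : Set V) :
    rch G p (Sym2.map g '' F) (g x) (g '' Y) = rch G p F x Y := by
  unfold rch
  rw [← mu_act g (Rch_FU (F := F) (x := x) (Y := Y)).measurableSet]
  congr 1
  ext ω
  exact (act_Rch g).symm

open Classical in
theorem psi_map (g : G ≃g G) (T : Finset V) :
    psi G p (Sym2.map g '' F) (g x) (T.image g) = psi G p F x T := by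
  unfold psi
  rw [Finset.sum_image fun a _ b _ h => g.injective h]
  refine Finset.sum_congr rfl fun u _ => ?_
  rw [← trn_tsum g]
  refine tsum_congr fun u' => ?_
  have h1 : g u' ∈ T.image g ↔ u' ∈ T := by
    rw [← Finset.mem_coe, Finset.coe_image, trn_mem_img, Finset.mem_coe]
  have h2 : s(g u, g u') ∈ Sym2.map g '' F ↔ s(u, u') ∈ F := by
    rw [← Sym2.map_mk, trn_mem_map]
  have h3 : Sym2.map g '' F ∩ EIn (T.image g : Finset V) = Sym2.map g '' (F ∩ EIn ↑T) := by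
    rw [Finset.coe_image, ← map_EIn, Set.image_inter (Sym2.map.injective g.injective)]
  rw [h3, tau_map]
  simp only [g.map_adj_iff, h1, h2]

end

section

omit [Countable V]

theorem Geo.exists_shift (hg : g ∈ S.Γ) : ∃ δ : ℝ, ∀ v, S.l (g v) = S.l v + δ :=
  ⟨S.l (g S.o) - S.l S.o, fun v => by have := S.inv g hg v S.o; linarith⟩

theorem Geo.map_Ge {δ : ℝ} (hδ : ∀ v, S.l (g v) = S.l v + δ) (s : ℝ) :
    Sym2.map g '' S.Ge s = S.Ge (s + δ) := by
  refine trn_image g fun e => ?_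
  induction e using Sym2.ind with
  | _ a b => simp [Geo.Ge, hδ]

theorem Geo.map_Lt {δ : ℝ} (hδ : ∀ v, S.l (g v) = S.l v + δ) (t : ℝ) :
    Sym2.map g '' S.Lt t = S.Lt (t + δ) := by
  refine trn_image g fun e => ?_
  induction e using Sym2.ind with
  | _ a b =>
    rw [Sym2.map_mk]
    simp only [Geo.Lt, Set.mem_ofPred_eq, Sym2.mem_iff, exists_eq_or_imp, exists_eq_left, hδ,
      add_lt_add_iff_right]

theorem Geo.map_E {δ : ℝ} (hδ : ∀ v, S.l (g v) = S.l v + δ) (s t : ℝ) :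
    Sym2.map g '' S.E s t = S.E (s + δ) (t + δ) := by
  unfold Geo.E
  rw [Set.image_inter (Sym2.map.injective g.injective), Geo.map_Ge hδ, Geo.map_Lt hδ]

theorem Geo.map_Top {δ : ℝ} (hδ : ∀ v, S.l (g v) = S.l v + δ) (t : ℝ) :
    g '' S.Top t = S.Top (t + δ) := by
  ext v
  obtain ⟨v, rfl⟩ := g.surjective v
  rw [trn_mem_img]
  simp [Geo.Top, hδ]

theorem Geo.act_Cl {δ : ℝ} (hδ : ∀ v, S.l (g v) = S.l v + δ) (a t : ℝ) (x : V) (ω : Cf V) :
    S.Cl (a + δ) (g x) (t + δ) ω = g '' S.Cl a x t (act g ω) := by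
  unfold Geo.Cl
  rw [← Geo.map_E hδ, act_Kl]

theorem Geo.Phi_image {δ : ℝ} (hδ : ∀ v, S.l (g v) = S.l v + δ) (ς t : ℝ) (C : Set V) :
    S.Phi ς (t + δ) (g '' C) = S.Phi ς t C := by
  unfold Geo.Phi
  rw [← trn_tsum g]
  refine tsum_congr fun w => ?_
  by_cases h : w ∈ C
  · rw [Set.indicator_of_mem h, Set.indicator_of_mem ((trn_mem_img g).2 h), hδ]
    congr 2; ring
  · rw [Set.indicator_of_notMem h, Set.indicator_of_notMem (mt (trn_mem_img g).1 h)]

/-- an element of the group that raises all levels -/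
theorem Geo.exists_raise (S : Geo G) (h : ℝ) :
    ∃ g ∈ S.Γ, ∃ δ : ℝ, h ≤ δ ∧ ∀ v, S.l (g v) = S.l v + δ := by
  obtain ⟨g, hg, w, h1, -, h2⟩ := S.up S.o
  obtain ⟨δ, hδ⟩ := Geo.exists_shift hg
  have h3 : 1 ≤ δ := by
    have : (1 : ℝ) ≤ w.length := by exact_mod_cast h1
    have := hδ S.o
    linarith
  have key : ∀ n : ℕ, ∃ g ∈ S.Γ, ∃ δ : ℝ, (n : ℝ) ≤ δ ∧ ∀ v, S.l (g v) = S.l v + δ := by
    intro n
    induction n with
    | zero => exact ⟨1, S.Γ.one_mem, 0, by simp, fun v => by simp⟩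
    | succ n ih =>
      obtain ⟨g', hg', δ', h4, h5⟩ := ih
      refine ⟨g * g', S.Γ.mul_mem hg hg', δ + δ', by push_cast; linarith, fun v => ?_⟩
      change S.l (g (g' v)) = _
      rw [hδ, h5]; ring
  obtain ⟨g', hg', δ', h4, h5⟩ := key ⌈h⌉₊
  exact ⟨g', hg', δ', (Nat.le_ceil h).trans h4, h5⟩

theorem Geo.orbit_infinite (S : Geo G) (x : V) : {y | ∃ g ∈ S.Γ, g x = y}.Infinite := by
  intro hf
  obtain ⟨B, hB⟩ := (hf.image S.l).bddAbove
  obtain ⟨g, hg, δ, h1, h2⟩ := S.exists_raise (B - S.l x + 1)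
  have := hB ⟨g x, ⟨g, hg, rfl⟩, rfl⟩
  rw [h2] at this
  linarith

theorem Geo.Inv.kmul {K L : Ker V} (hK : S.Inv K) (hL : S.Inv L) : S.Inv (kmul K L) := by
  intro g hg x y
  unfold F.kmul
  rw [← trn_tsum g]
  exact tsum_congr fun z => by rw [hK g hg, hL g hg]

theorem Geo.Inv.kpow {K : Ker V} (hK : S.Inv K) (n : ℕ) : S.Inv (kpow K n) := by
  induction n with
  | zero =>
    intro g _ x y
    simp only [F.kpow, kone]
    by_cases h : x = y
    · rw [if_pos h, if_pos (congrArg g h)]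
    · rw [if_neg h, if_neg fun h' => h (g.injective h')]
  | succ n ih => exact hK.kmul ih

theorem Geo.Inv.ktr {K : Ker V} (hK : S.Inv K) : S.Inv (ktr K) := fun g hg x y => hK g hg y x

theorem Geo.Inv.row {K : Ker V} (hK : S.Inv K) (hg : g ∈ S.Γ) (x : V) :
    ∑' y, K (g x) y = ∑' y, K x y := by
  rw [← trn_tsum g]
  exact tsum_congr fun y => hK g hg x y

theorem trn_O (hg : g ∈ S.Γ) : S.O (g x) ↔ S.O x := by
  constructor
  · rintro ⟨g', hg', h⟩
    refine ⟨g⁻¹ * g', S.Γ.mul_mem (S.Γ.inv_mem hg) hg', ?_⟩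
    change g.symm (g' S.o) = x
    rw [h]; simp
  · rintro ⟨g', hg', h⟩
    refine ⟨g * g', S.Γ.mul_mem hg hg', ?_⟩
    change g (g' S.o) = g x
    rw [h]

theorem Geo.sideK_inv (S : Geo G) (n : ℕ) : S.Inv (S.sideK n) := by
  intro g hg x y
  obtain ⟨δ, hδ⟩ := Geo.exists_shift hg
  have h : (S.O (g x) ∧ S.O (g y) ∧ S.l (g x) = S.l (g y) ∧ G.dist (g x) (g y) ≤ n) ↔
      (S.O x ∧ S.O y ∧ S.l x = S.l y ∧ G.dist x y ≤ n) := by
    rw [trn_O hg, trn_O hg, hδ, hδ, add_left_inj, dist_iso S.conn g]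
  unfold Geo.sideK
  by_cases h1 : S.O x ∧ S.O y ∧ S.l x = S.l y ∧ G.dist x y ≤ n
  · rw [if_pos h1, if_pos (h.2 h1)]
  · rw [if_neg h1, if_neg (mt h.1 h1)]

end

/-- slabs placed relative to a vertex `z` -/
theorem Geo.tauL_rel (hg : g ∈ S.Γ) (z : V) (s t : ℝ) :
    tauL G p (S.E (S.l (g z) + s) (S.l (g z) + t)) R (g x) (g y) =
      tauL G p (S.E (S.l z + s) (S.l z + t)) R x y := by
  obtain ⟨δ, hδ⟩ := Geo.exists_shift hg
  rw [← tauL_map g (F := S.E (S.l z + s) (S.l z + t)), Geo.map_E hδ, hδ z, add_right_comm _ δ s,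
    add_right_comm _ δ t]

theorem Geo.tau_rel (hg : g ∈ S.Γ) (z : V) (s t : ℝ) :
    tau G p (S.E (S.l (g z) + s) (S.l (g z) + t)) (g x) (g y) =
      tau G p (S.E (S.l z + s) (S.l z + t)) x y := by
  rw [← tauL_top, ← tauL_top, Geo.tauL_rel hg]

theorem Geo.PiO_eq (hx : S.O x) (m r : ℝ) :
    rch G p (S.E (S.l x - m) (S.l x + r)) x (S.Top (S.l x + r)) = S.PiO p m r := by
  obtain ⟨g, hg, rfl⟩ := hx
  obtain ⟨δ, hδ⟩ := Geo.exists_shift hg
  unfold Geo.PiO
  rw [← rch_map g (F := S.E (S.l S.o - m) (S.l S.o + r)), Geo.map_E hδ, Geo.map_Top hδ, hδ S.o,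
    add_right_comm _ δ r, add_sub_right_comm]

theorem Geo.kap_inv (S : Geo G) (p : I) (m s : ℝ) : S.Inv (S.kap p m s) := by
  intro g hg x y
  have h1 := Geo.tau_rel (p := p) (x := x) (y := y) hg x (-m) s
  simp only [← sub_eq_add_neg] at h1
  have h2 : g y ∈ S.Top (S.l (g x) + s) ↔ y ∈ S.Top (S.l x + s) := by
    have := S.inv g hg x y
    simp only [Geo.Top, Set.mem_ofPred_eq]
    constructor <;> intro h <;> linarith
  unfold Geo.kap
  by_cases h : y ∈ S.Top (S.l x + s)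
  · rw [Set.indicator_of_mem h, Set.indicator_of_mem (h2.2 h), h1]
  · rw [Set.indicator_of_notMem h, Set.indicator_of_notMem (mt h2.1 h)]

theorem Geo.slabK_inv (S : Geo G) (p : I) (m : ℝ) : S.Inv (S.slabK p m) := by
  intro g hg x y
  have h1 := Geo.tau_rel (p := p) (x := x) (y := y) hg x (-m) m
  simp only [← sub_eq_add_neg] at h1
  exact h1

theorem Geo.tailK_inv (S : Geo G) (p : I) (m r : ℝ) : S.Inv (S.tailK p m r) := by
  intro g hg x y
  have h1 := Geo.tau_rel (p := p) (x := x) (y := y) hg x (-m) r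
  simp only [← sub_eq_add_neg] at h1
  unfold Geo.tailK
  rw [h1, S.inv g hg y x]

end Pool.Agent.P.MP_3aa27f_pr.F
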