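import Pool.Agent.P.MP_3aa27f_pr.F.ChN
import Pool.Agent.P.MP_3aa27f_pr.F.NumB
import Pool.Agent.P.MP_3aa27f_pr.F.Trn

/-! Buffers and escape from a forbidden set. -/

open MeasureTheory unitInterval SimpleGraph
open ENNReal (ofReal)
open scoped ENNReal

namespace Pool.Agent.P.MP_3aa27f_pr.F

variable {V : Type} {G : SimpleGraph V} [G.LocallyFinite] [Countable V] {S : Geo G} {p : I}
variable {ς : ℝ}

theorem Rate.buf (hR : Rate S p ς) {ε : ℝ} (ε0 : 0 < ε) : ∃ C : ℝ, 1 ≤ C ∧ ∀ X : ℝ, 1 ≤ X →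
    ∃ K₀ : ℝ, 0 ≤ K₀ ∧ ς ^ K₀ * X ≤ 1 / 2 ∧ K₀ ≤ C * X ^ ε ∧ ∀ v, S.O v →
      ∀ F : Set (Sym2 V), S.E (S.l v) (S.l v + K₀) ⊆ F → ∀ (Y : Set V) (β : ℝ≥0∞),
        (∀ z ∈ S.Lev (S.l v + K₀), β ≤ rch G p F z Y) →
        ofReal (ς ^ K₀ / (C * X ^ ε)) * β ≤ rch G p F v Y := by
  obtain ⟨κ, κ1, h⟩ := buf_num hR.s0 hR.s1 ε0
  obtain ⟨Z, hZ⟩ := hR.chain κ κ1
  obtain ⟨C, C1, h⟩ := h Z.J Z.L p Z.one_le_J (Nat.cast_nonneg _) hR.p0
  refine ⟨C, C1, fun X X1 => ?_⟩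
  obtain ⟨k, h1, h2, h3⟩ := h X X1
  have J0 : 0 ≤ Z.J := zero_le_one.trans Z.one_le_J
  have p0 := hR.p0
  have s0 := hR.s0
  have κ0 : 0 < κ := zero_lt_one.trans κ1
  refine ⟨k * Z.J, by positivity, h1, h2, fun v hv F hF Y β hβ => ?_⟩
  set A : ℝ := (((k * Z.L : ℕ) : ℝ) + 2) / p with hA
  have A0 : 0 < A := by positivity
  have h4 : ofReal (Z.q ^ k) * β ≤ ofReal A * rch G p F v Y := by
    refine le_trans ?_ (Z.decQ p0 k v hF Y)
    rw [← Z.Qn_row k hv, ← ENNReal.tsum_mul_right]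
    refine ENNReal.tsum_le_tsum fun z => ?_
    rcases eq_or_ne (kpow Z.Q k v z) 0 with e | e
    · simp [e]
    · exact mul_le_mul_right (hβ z ⟨(Z.Qn_supp e).1.1 hv, (Z.Qn_supp e).2⟩) _
  have h5 : ς ^ (k * Z.J) / (C * X ^ ε) ≤ A⁻¹ * Z.q ^ k := by
    have e1 : A * κ ^ (k * Z.J) ≤ C * X ^ ε := by rw [hA, Nat.cast_mul]; exact h3
    have e2 : (ς / κ) ^ (k * Z.J) ≤ Z.q ^ k := by
      rw [mul_comm, Real.rpow_mul (by positivity), Real.rpow_natCast]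
      exact pow_le_pow_left₀ (by positivity) hZ k
    calc _ ≤ ς ^ (k * Z.J) / (A * κ ^ (k * Z.J)) := by gcongr
      _ = A⁻¹ * (ς / κ) ^ (k * Z.J) := by
        rw [Real.div_rpow s0.le κ0.le]; field_simp
      _ ≤ _ := by gcongr
  calc _ ≤ ofReal A⁻¹ * (ofReal (Z.q ^ k) * β) := by
        rw [← mul_assoc, ← ENNReal.ofReal_mul (by positivity)]
        exact mul_le_mul_left (ENNReal.ofReal_le_ofReal h5) _
    _ ≤ ofReal A⁻¹ * (ofReal A * rch G p F v Y) := mul_le_mul_right h4 _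
    _ = _ := by
        rw [← mul_assoc, ← ENNReal.ofReal_mul (by positivity), inv_mul_cancel₀ A0.ne',
          ENNReal.ofReal_one, one_mul]

theorem Rate.esc (hR : Rate S p ς) {ε : ℝ} (ε0 : 0 < ε) : ∃ C : ℝ, 1 ≤ C ∧ ∀ X : ℝ, 1 ≤ X →
    ∃ K₀ : ℝ, 0 ≤ K₀ ∧ K₀ ≤ C * X ^ ε ∧ ∀ (a c m f η M : ℝ) (v : V) (W : Set V), S.O v → 0 ≤ m →
      a ≤ S.l v - m → S.l v + K₀ ≤ c → 0 < η → 0 ≤ f → 0 ≤ M → f * M ≤ X * η →
      (∀ w, rch G p (S.E a c) w (S.Top c) ≤ ofReal (f * ς ^ (c - S.l w))) →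
      S.Phi ς (S.l v) W ≤ ofReal M →
      ofReal (η * ς ^ (c - S.l v - K₀)) ≤ S.PiO p m (c - S.l v - K₀) →
      ofReal (η / (C * X ^ ε) * ς ^ (c - S.l v)) ≤
        rch G p (S.E a c \ (ETo W ∩ S.Lt (S.l v))) v (S.Top c) := by
  obtain ⟨C, C1, h⟩ := hR.buf ε0
  refine ⟨2 * C, by linarith, fun X X1 => ?_⟩
  obtain ⟨K₀, K0, h1, h2, h⟩ := h X X1
  have s0 := hR.s0
  have hX : 0 < X ^ ε := Real.rpow_pos_of_pos (by linarith) _
  have C0 : 0 < C := by linarith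
  refine ⟨K₀, K0, h2.trans (by nlinarith), ?_⟩
  intro a c m f η M v W hv m0 ha hc η0 f0 M0 hf hw hW hP
  set r := c - S.l v - K₀ with hr
  have hsr : 0 < ς ^ r := Real.rpow_pos_of_pos s0 _
  have hs : ς ^ (c - S.l v) = ς ^ K₀ * ς ^ r := by
    rw [← Real.rpow_add s0]; congr 1; ring
  refine le_trans (le_of_eq ?_) (h v hv (S.E a c \ (ETo W ∩ S.Lt (S.l v)))
    (fun e he => ⟨S.E_mono (by linarith) hc he, fun h' =>
    Set.disjoint_left.1 (S.disjoint_Lt_Ge le_rfl) h'.2 he.1⟩) (S.Top c)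
    (ofReal (η * ς ^ r / 2)) fun z hz => ?_)
  · rw [← ENNReal.ofReal_mul (by positivity), hs]
    congr 1
    field_simp
  · have e1 : S.l z + r = c := by rw [hz.2]; ring
    have e2 := Geo.PiO_eq (p := p) hz.1 m r
    rw [e1] at e2
    have e3 : ∑' w, W.indicator (fun w => rch G p (S.E a c) w (S.Top c)) w ≤
        ofReal (η * ς ^ r / 2) :=
      calc _ ≤ ofReal f * S.Phi ς c W := by
            rw [Geo.Phi, ← ENNReal.tsum_mul_left]
            refine ENNReal.tsum_le_tsum fun w => ?_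
            by_cases h' : w ∈ W
            · rw [Set.indicator_of_mem h', Set.indicator_of_mem h', ← ENNReal.ofReal_mul f0]
              exact hw w
            · rw [Set.indicator_of_notMem h']
              exact zero_le
        _ ≤ ofReal f * (ofReal (ς ^ (c - S.l v)) * ofReal M) := by
            rw [S.Phi_shift s0 (S.l v) c]
            gcongr
        _ ≤ _ := by
            rw [← ENNReal.ofReal_mul (by positivity), ← ENNReal.ofReal_mul f0, hs]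
            refine ENNReal.ofReal_le_ofReal ?_
            calc f * (ς ^ K₀ * ς ^ r * M) = ς ^ K₀ * (f * M) * ς ^ r := by ring
              _ ≤ ς ^ K₀ * (X * η) * ς ^ r := by gcongr
              _ = ς ^ K₀ * X * (η * ς ^ r) := by ring
              _ ≤ 1 / 2 * (η * ς ^ r) := by gcongr
              _ = _ := by ring
    have e4 := ((hP.trans_eq e2.symm).trans (rch_mono (S.E_mono (s' := a) (t' := c)
      (by rw [hz.2]; linarith) le_rfl) le_rfl)).trans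
      ((rch_coll W (S.Lt (S.l v))).trans (add_le_add le_rfl e3))
    refine (ENNReal.add_le_add_iff_right ENNReal.ofReal_ne_top).1 (le_trans (le_of_eq ?_) e4)
    rw [← ENNReal.ofReal_add (by positivity) (by positivity), add_halves]

end Pool.Agent.P.MP_3aa27f_pr.F
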