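import Pool.Agent.P.MP_3aa27f_pr.F.Trn

/-! Blocks with an exact increment. -/

open MeasureTheory unitInterval SimpleGraph
open ENNReal (ofReal)
open scoped ENNReal

namespace Pool.Agent.P.MP_3aa27f_pr.F

variable {V : Type} {G : SimpleGraph V} [G.LocallyFinite] [Countable V] {S : Geo G} {p : I}

omit [Countable V] in
theorem Geo.vals (S : Geo G) : ∃ d : ℕ, ∀ L : ℕ, ∃ T : Finset ℝ, T.card ≤ (L + 1) ^ d ∧
    ∀ (y : V) (w : G.Walk S.o y), w.length ≤ L → S.l y - S.l S.o ∈ T := by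
  classical
  obtain ⟨R, hR⟩ := S.reps
  set Inc : Finset ℝ := R.biUnion fun a => (G.neighborFinset a).image fun b => S.l b - S.l a
    with hInc
  have h1 : ∀ a b, G.Adj a b → S.l b - S.l a ∈ Inc := by
    intro a b hab
    obtain ⟨g, hg, ha⟩ := hR a
    exact Finset.mem_biUnion.2 ⟨g a, ha, Finset.mem_image.2
      ⟨g b, (G.mem_neighborFinset _ _).2 (g.map_adj_iff.2 hab), S.inv g hg b a⟩⟩
  have h2 : ∀ (x y : V) (w : G.Walk x y), ∃ k : Inc → ℕ, (∀ i, k i ≤ w.length) ∧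
      S.l y - S.l x = ∑ i, (k i : ℝ) * i := by
    intro x y w
    induction w with
    | nil => exact ⟨0, by simp, by simp⟩
    | @cons u v t huv w ih =>
      obtain ⟨k, hk, e⟩ := ih
      refine ⟨fun i => k i + if i = ⟨_, h1 u v huv⟩ then 1 else 0, fun i => ?_, ?_⟩
      · have := hk i
        simp only [Walk.length_cons]
        split_ifs <;> omega
      · simp only [Nat.cast_add, Nat.cast_ite, Nat.cast_one, Nat.cast_zero, add_mul, ite_mul,
          one_mul, zero_mul, Finset.sum_add_distrib, Finset.sum_ite_eq', Finset.mem_univ, if_true]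
        linarith
  refine ⟨Inc.card, fun L => ⟨Finset.univ.image fun k : Inc → Fin (L + 1) =>
    ∑ i, ((k i : ℕ) : ℝ) * i, Finset.card_image_le.trans (by simp), fun y w hw => ?_⟩⟩
  obtain ⟨k, hk, e⟩ := h2 _ _ w
  exact Finset.mem_image.2 ⟨fun i => ⟨k i, by have := hk i; omega⟩, Finset.mem_univ _, e.symm⟩

theorem cha_chain {ι κ : Type*} [Countable κ] (π : ι → I) {A B : κ → Set (ι → Bool)}
    {T T' : Set ι} (mA : ∀ k, MeasurableSet (A k)) (mB : ∀ k, MeasurableSet (B k))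
    (dA : ∀ k, Dep (A k) T) (dB : ∀ k, Dep (B k) T') (hd : Disjoint T T') {b : ℝ≥0∞}
    (hb : ∀ k, b ≤ PM π (B k)) : b * PM π (⋃ k, A k) ≤ PM π (⋃ k, A k ∩ B k) := by
  obtain ⟨f, hf⟩ := exists_injective_nat κ
  set D : κ → Set (ι → Bool) := fun k => A k ∩ (⋃ j : {j // f j < f k}, A j)ᶜ with hD
  have mD : ∀ k, MeasurableSet (D k) := fun k =>
    (mA k).inter (MeasurableSet.iUnion fun j => mA _).compl
  have dD : ∀ k, Dep (D k) T := fun k => (dA k).inter (Dep.iUnion fun j => dA _).compl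
  have dj : Pairwise (Function.onFun Disjoint D) := by
    intro i j hij
    refine Set.disjoint_left.2 fun ω h1 h2 => ?_
    rcases lt_or_gt_of_ne (hf.ne hij) with h | h
    · exact h2.2 (Set.mem_iUnion.2 ⟨⟨i, h⟩, h1.1⟩)
    · exact h1.2 (Set.mem_iUnion.2 ⟨⟨j, h⟩, h2.1⟩)
  have hU : ⋃ k, A k ⊆ ⋃ k, D k := by
    intro ω hω
    obtain ⟨k, hk, hmin⟩ := (InvImage.wf f wellFounded_lt).has_min {k | ω ∈ A k}
      (Set.mem_iUnion.1 hω)
    exact Set.mem_iUnion.2 ⟨k, hk, fun h => let ⟨j, hj⟩ := Set.mem_iUnion.1 h; hmin j hj j.2⟩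
  calc b * PM π (⋃ k, A k) ≤ b * ∑' k, PM π (D k) :=
        mul_le_mul_right ((measure_mono hU).trans (measure_iUnion_le _)) _
    _ ≤ ∑' k, PM π (D k ∩ B k) := by
        rw [← ENNReal.tsum_mul_left]
        refine ENNReal.tsum_le_tsum fun k => ?_
        rw [PM_indep π (mD k) (mB k) (dD k) (dB k) hd, mul_comm]
        exact mul_le_mul_right (hb k) _
    _ = PM π (⋃ k, D k ∩ B k) := (measure_iUnion (fun i j hij => (dj hij).mono
        Set.inter_subset_left Set.inter_subset_left) fun k => (mD k).inter (mB k)).symm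
    _ ≤ _ := measure_mono (Set.iUnion_mono fun k => Set.inter_subset_inter_left _
        Set.inter_subset_left)

/-- crossing of a slab by a walk of bounded length -/
def cha_A (S : Geo G) (r : ℝ) (L : ℕ) (x : V) : Set (Cf V) :=
  {ω | ∃ y, y ∈ S.Top (S.l x + r) ∧ ω ∈ CnL G (S.E (S.l x) (S.l x + r)) L x y}

/-- climbing at least `h` levels to the base orbit -/
def cha_E (S : Geo G) (h : ℝ) (L : ℕ) (x : V) : Set (Cf V) :=
  {ω | ∃ y, (S.O y ∧ S.l x + h ≤ S.l y) ∧ ω ∈ CnL G (S.E (S.l x) (S.l y)) L x y}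

theorem cha_inv (r : ℝ) (L : ℕ) {x : V} (hx : S.O x) :
    mu V p (cha_A S r L x) = mu V p (cha_A S r L S.o) := by
  obtain ⟨g, hg, rfl⟩ := hx
  obtain ⟨δ, hδ⟩ := Geo.exists_shift hg
  rw [← mu_act g (A := cha_A S r L S.o) (FU.exists fun _ _ => CnL_FU).measurableSet]
  congr 1
  ext ω
  simp only [cha_A, Set.mem_ofPred_eq, act_CnL, Geo.map_E hδ, hδ, Geo.Top,
    add_right_comm (S.l S.o) δ r]
  constructor
  · rintro ⟨y, h1, h2⟩
    obtain ⟨y, rfl⟩ := g.surjective y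
    exact ⟨y, by rw [hδ] at h1; linarith, h2⟩
  · rintro ⟨y, h1, h2⟩
    exact ⟨g y, by rw [hδ]; linarith, h2⟩

theorem cha_iter {r : ℝ} (r0 : 0 ≤ r) (L N : ℕ) : ∀ x, S.O x →
    (ofReal ((p : ℝ) ^ S.n0) * mu V p (cha_A S r L S.o)) ^ N ≤
      mu V p (cha_E S (N * r) (N * (L + S.n0)) x) := by
  induction N with
  | zero =>
    intro x hx
    rw [pow_zero, Set.eq_univ_of_forall (s := cha_E _ _ _ _) fun ω =>
      ⟨x, ⟨hx, by simp⟩, CnL_refl _ _ _ _⟩, measure_univ]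
  | succ N ih =>
    intro x hx
    choose u w hu h1 h2 h3 using S.up'
    have hNr : (0 : ℝ) ≤ N * r := by positivity
    have hl : ∀ y, S.l y ≤ S.l (u y) := fun y => by
      rw [h3]; exact le_add_of_nonneg_right (Nat.cast_nonneg _)
    have key := cha_chain (κ := S.Top (S.l x + r)) (fun _ => p)
      (A := fun y => CnL G (S.E (S.l x) (S.l x + r)) L x y)
      (B := fun y => {ω | ∀ e ∈ (w y).edges, ω e = true} ∩
        cha_E S (N * r) (N * (L + S.n0)) (u y))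
      (T := S.Lt (S.l x + r)) (T' := S.Ge (S.l x + r))
      (b := ofReal ((p : ℝ) ^ S.n0) *
        (ofReal ((p : ℝ) ^ S.n0) * mu V p (cha_A S r L S.o)) ^ N)
      (fun y => CnL_FU.measurableSet)
      (fun y => ((FU_list _).inter (FU.exists fun _ _ => CnL_FU)).measurableSet)
      (fun y => CnL_dep.mono Set.inter_subset_right)
      (fun y => Dep.inter (fun ω ω' h hω e he => h e
          (S.Ge_mono y.2 (S.tight_edges (w y) (h3 y) e he).1) ▸ hω e he)
        fun ω ω' h ⟨z, hz, hω⟩ => ⟨z, hz, CnL_dep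
          (fun e he => h e (S.Ge_mono (le_trans y.2 (hl y)) he.1)) hω⟩)
      (S.disjoint_Lt_Ge le_rfl)
      (fun y => le_trans (mul_le_mul' (PM_list_ge p _ (by simpa using h2 y)) (ih _ (hu y)))
        (harrisE _ (FU_list _) (FU.exists fun _ _ => CnL_FU)))
    have e1 : (⋃ y : S.Top (S.l x + r), CnL G (S.E (S.l x) (S.l x + r)) L x y) =
        cha_A S r L x := by
      ext ω; simp [cha_A]
    rw [e1] at key
    refine le_trans (le_of_eq ?_) (key.trans (measure_mono ?_))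
    · change _ = _ * mu V p _
      rw [cha_inv r L hx]; ring
    · intro ω hω
      obtain ⟨⟨y, hy⟩, a1, a2, z, ⟨a3, a4⟩, a5⟩ := Set.mem_iUnion.1 hω
      have hy' : S.l x + r ≤ S.l y := hy
      have := hl y
      simp only at a1 a2 a4 a5
      refine ⟨z, ⟨a3, by push_cast; linarith⟩, ?_⟩
      have b1 := CnL_mono (S.E_mono le_rfl (show S.l x + r ≤ S.l z by linarith)) le_rfl a1
      have b2 : ω ∈ CnL G (S.E (S.l x) (S.l z)) S.n0 y (u y) :=
        ⟨w y, by exact_mod_cast h2 y, fun e he => ⟨S.E_mono (by linarith) (by linarith)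
          (S.tight_edges (w y) (h3 y) e he), a2 e he⟩⟩
      have b3 := CnL_mono (S.E_mono (show S.l x ≤ S.l (u y) by linarith) le_rfl) le_rfl a5
      refine CnL_mono le_rfl (le_of_eq ?_) (CnL_trans (CnL_trans b1 b2) b3)
      push_cast; ring

theorem cha_num {θ η : ℝ} (h1 : 1 < θ) (η0 : 0 < η) (c d : ℕ) :
    ∃ N : ℕ, 1 ≤ N ∧ (((N * c + 1) ^ d : ℕ) : ℝ) < η * θ ^ N := by
  have hc : (0 : ℝ) < ((c : ℝ) + 1) ^ d := by positivity
  obtain ⟨N, h2, h3⟩ := (((tendsto_pow_const_div_const_pow_of_one_lt d h1).eventually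
    (gt_mem_nhds (div_pos η0 hc))).and (Filter.eventually_ge_atTop 1)).exists
  refine ⟨N, h3, ?_⟩
  have h4 : (1 : ℝ) ≤ N := by exact_mod_cast h3
  rw [div_lt_div_iff₀ (by positivity) hc, ← mul_pow] at h2
  refine lt_of_le_of_lt ?_ h2
  push_cast
  exact pow_le_pow_left₀ (by positivity) (by nlinarith) _

theorem Geo.block (S : Geo G) {ξ η : ℝ} (ξ0 : 0 < ξ) (ξ1 : ξ ≤ 1) (η0 : 0 < η) {r : ℕ}
    (r1 : 1 ≤ r) (h : ofReal (ξ ^ r) < ofReal ((p : ℝ) ^ S.n0) * S.PiO p 0 r) :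
    ∃ (J : ℝ) (L : ℕ), 1 ≤ J ∧ ofReal (ξ ^ J) ≤ ofReal η * mu V p {ω | ∃ y ∈ S.Lev (S.l S.o + J),
      ω ∈ CnL G (S.E (S.l S.o) (S.l S.o + J)) L S.o y} := by
  classical
  have e0 : S.PiO p 0 r = ⨆ L : ℕ, mu V p (cha_A S r L S.o) := by
    have mono : Monotone fun L : ℕ => cha_A S r L S.o := fun a b hab ω ⟨y, h1, h2⟩ =>
      ⟨y, h1, CnL_mono le_rfl (by exact_mod_cast hab) h2⟩
    rw [← mono.measure_iUnion, Geo.PiO, rch, sub_zero]
    congr 1
    ext ω
    simp only [Rch, cha_A, Cn_eq_iUnion, Set.mem_ofPred_eq, Set.mem_iUnion]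
    tauto
  rw [e0, ENNReal.mul_iSup, lt_iSup_iff] at h
  obtain ⟨L1, h⟩ := h
  have hit := fun N => cha_iter (S := S) (p := p) (Nat.cast_nonneg r) L1 N S.o S.O_o
  set β := ofReal ((p : ℝ) ^ S.n0) * mu V p (cha_A S r L1 S.o) with hβ
  have βt : β ≠ ⊤ := ENNReal.mul_ne_top ENNReal.ofReal_ne_top (measure_ne_top _ _)
  have hξ : 0 < ξ ^ r := pow_pos ξ0 r
  have hb : ξ ^ r < β.toReal := by
    rwa [ENNReal.ofReal_lt_iff_lt_toReal hξ.le βt] at h
  obtain ⟨d, hd⟩ := S.vals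
  obtain ⟨N, N1, hN⟩ := cha_num ((one_lt_div hξ).2 hb) η0 (L1 + S.n0) d
  obtain ⟨T, hT, hT'⟩ := hd (N * (L1 + S.n0))
  by_contra hcon
  push Not at hcon
  have hNr : (1 : ℝ) ≤ N * r := by exact_mod_cast Nat.mul_pos N1 r1
  have cover : cha_E S (N * r) (N * (L1 + S.n0)) S.o ⊆ ⋃ J ∈ T.filter fun J => (N : ℝ) * r ≤ J,
      {ω | ∃ y ∈ S.Lev (S.l S.o + J),
        ω ∈ CnL G (S.E (S.l S.o) (S.l S.o + J)) (N * (L1 + S.n0) : ℕ) S.o y} := by
    rintro ω ⟨y, ⟨h1, h2⟩, w, h3, h4⟩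
    refine Set.mem_biUnion (x := S.l y - S.l S.o) (Finset.mem_filter.2
      ⟨hT' y w (by exact_mod_cast h3), by linarith⟩) ⟨y, ⟨h1, by ring⟩, w, h3, ?_⟩
    rwa [add_sub_cancel]
  have c1 := mul_le_mul_right
    ((hit N).trans ((measure_mono cover).trans (measure_biUnion_finset_le _ _))) (ofReal η)
  rw [Finset.mul_sum] at c1
  have c2 := c1.trans (Finset.sum_le_card_nsmul _ _ (ofReal ((ξ ^ r) ^ N)) fun J hJ => by
    have hJ := (Finset.mem_filter.1 hJ).2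
    refine (hcon J _ (hNr.trans hJ)).le.trans (ENNReal.ofReal_le_ofReal ?_)
    rw [← pow_mul, ← Real.rpow_natCast]
    exact Real.rpow_le_rpow_of_exponent_ge ξ0 ξ1 (by push_cast; linarith))
  rw [← ENNReal.ofReal_toReal βt, ← ENNReal.ofReal_pow ENNReal.toReal_nonneg,
    ← ENNReal.ofReal_mul η0.le, nsmul_eq_mul, ← ENNReal.ofReal_natCast,
    ← ENNReal.ofReal_mul (Nat.cast_nonneg _), ENNReal.ofReal_le_ofReal_iff (by positivity)] at c2
  have c3 : ((T.filter fun J => (N : ℝ) * r ≤ J).card : ℝ) ≤ ((N * (L1 + S.n0) + 1) ^ d : ℕ) := by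
    exact_mod_cast (Finset.card_filter_le _ _).trans hT
  rw [div_pow, ← mul_div_assoc, lt_div_iff₀ (pow_pos hξ N)] at hN
  have := mul_le_mul_of_nonneg_right c3 (pow_pos hξ N).le
  linarith

end Pool.Agent.P.MP_3aa27f_pr.F
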