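import Pool.Agent.P.MP_3aa27f_pr.F.Defs

/-! More definitions: partial strategies, routes, neck events. -/

open MeasureTheory unitInterval SimpleGraph
open ENNReal (ofReal)
open scoped ENNReal

namespace Pool.Agent.P.MP_3aa27f_pr.F

variable {V : Type} {G : SimpleGraph V} [G.LocallyFinite]

/-- random weights for climbing exactly `J` levels, with an invariant mean kernel -/
structure PreCh (S : Geo G) (p : I) (J : ℝ) (L : ℕ) (w : V → V → Cf V → ℝ≥0∞) : Prop where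
  meas : ∀ x y, Measurable (w x y)
  dep : ∀ x y, DependsOn (w x y) (S.E (S.l x) (S.l x + J) ∩ EIn {z | G.dist x z ≤ L})
  sum_le : ∀ x ω, ∑' y, w x y ω ≤ 1
  supp : ∀ x y ω, w x y ω ≠ 0 → S.O x ∧ S.O y ∧ S.l y = S.l x + J ∧
    ω ∈ CnL G (S.E (S.l x) (S.l x + J)) L x y
  inv : S.Inv fun x y => ∫⁻ ω, w x y ω ∂mu V p

/-- the weight of routes from `T` down `n` blocks in `ω₁` and up `n` blocks to `y` in `ω₂` -/
noncomputable def Chain.X {S : Geo G} {p : I} (C : Chain S p) (n : ℕ) (T : Finset V) (y : V)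
    (ω₁ ω₂ : Cf V) : ℝ≥0∞ :=
  ∑' u, (∑ z ∈ T, C.wN n u z ω₁) * C.wN n u y ω₂

namespace Side

variable {S : Geo G} (Z : Side S) (P : Par)

/-- the first neck is in trial `i`, enters at `v` and exits at `v'` -/
def Ev (x : V) (i : ℕ) (v v' : V) : Set (Cf V) :=
  Z.NoNeck P x i ∩ S.Pre P.ς (S.l x - P.m) x (S.l x + i * P.H + P.k₁) P.M v ∩ Z.PatN P.k v v'

/-- admissible parameters for `n` trials with buffer height `K₀` -/
structure Ok (n : ℕ) (K₀ : ℝ) : Prop where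
  s0 : 0 < P.ς
  s1 : P.ς < 1
  m0 : 0 ≤ P.m
  M0 : 0 ≤ P.M
  k2 : S.n0 + 2 ≤ P.k₁
  K0 : 0 ≤ K₀
  hH : (P.k₁ : ℝ) + S.n0 + P.k * Z.h0 + K₀ ≤ P.H
  hn : n * P.H ≤ P.s

/-- escape to the top from the exit of a neck -/
def EscH (p : I) (K₀ γ : ℝ) : Prop :=
  ∀ (x v : V) (C : Set V), S.O v → S.l x + S.n0 ≤ S.l v → S.l v + K₀ ≤ S.l x + P.s →
    S.Phi P.ς (S.l v) C ≤ ofReal (P.M + P.k * (Z.L0 + 1)) →
    ofReal (γ * P.ς ^ (S.l x + P.s - S.l v)) ≤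
      rch G p (S.E (S.l x - P.m) (S.l x + P.s) \ (ETo C ∩ S.Lt (S.l v))) v (S.Top (S.l x + P.s))

end Side

end Pool.Agent.P.MP_3aa27f_pr.F
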