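import Pool.Agent.P.MP_3aa27f_pr.F.Trn
import Pool.Agent.P.MP_3aa27f_pr.F.Defs2

/-! The two kinds of steps of a block strategy. -/

open MeasureTheory unitInterval SimpleGraph
open ENNReal (ofReal)
open scoped ENNReal

namespace Pool.Agent.P.MP_3aa27f_pr.F

variable {V : Type} {G : SimpleGraph V} [G.LocallyFinite] [Countable V] {S : Geo G} {p : I}

omit [Countable V] [G.LocallyFinite] in
theorem chb_dep (F : Set (Sym2 V)) (L : ℕ) (x y : V) :
    Dep (CnL G F L x y) (F ∩ EIn {z | G.dist x z ≤ L}) := by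
  classical
  rintro ω ω' h ⟨w, hl, hw⟩
  refine ⟨w, hl, fun e he => ⟨(hw e he).1, ?_⟩⟩
  have key : ∀ z ∈ w.support, G.dist x z ≤ L := fun z hz =>
    (G.dist_le (w.takeUntil z hz)).trans ((w.length_takeUntil_le_length hz).trans (by exact_mod_cast hl))
  rw [← h e ⟨(hw e he).1, ?_⟩]
  · exact (hw e he).2
  · induction e using Sym2.ind with
    | _ a b =>
      exact mem_EIn.2 ⟨key a (w.fst_mem_support_of_mem_edges he),
        key b (w.snd_mem_support_of_mem_edges he)⟩

omit [Countable V] [G.LocallyFinite] in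
theorem chb_iff {F : Set (Sym2 V)} {L : ℕ} {x : V} {ω ω' : Cf V}
    (h : ∀ e ∈ F ∩ EIn {z | G.dist x z ≤ L}, ω e = ω' e) (y : V) :
    ω ∈ CnL G F L x y ↔ ω' ∈ CnL G F L x y :=
  ⟨chb_dep F L x y h, chb_dep F L x y fun e he => (h e he).symm⟩

/-- the candidates for the end of a block -/
def chb_U (S : Geo G) (J : ℝ) (L : ℕ) (x : V) (ω : Cf V) : Set V :=
  S.Lev (S.l x + J) ∩ {u | ω ∈ CnL G (S.E (S.l x) (S.l x + J)) L x u}

open Classical in
/-- uniform weights on the candidates -/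
noncomputable def chb_w (S : Geo G) (J : ℝ) (L : ℕ) (x u : V) (ω : Cf V) : ℝ≥0∞ :=
  if S.O x then (chb_U S J L x ω).indicator (fun _ => (cnt (chb_U S J L x ω))⁻¹) u else 0

omit [Countable V] in
theorem chb_row (S : Geo G) (J : ℝ) (L : ℕ) {x : V} (hx : S.O x) (ω : Cf V) :
    ∑' u, chb_w S J L x u ω = {ω | (chb_U S J L x ω).Nonempty}.indicator 1 ω := by
  have e : ∑' u, chb_w S J L x u ω = (cnt (chb_U S J L x ω))⁻¹ * cnt (chb_U S J L x ω) := by
    conv_rhs => rw [mul_comm, cnt, ← ENNReal.tsum_mul_right]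
    refine tsum_congr fun u => ?_
    rw [chb_w, if_pos hx]
    by_cases h : u ∈ chb_U S J L x ω <;> simp [h, cnt]
  rw [e]
  by_cases h : (chb_U S J L x ω).Nonempty
  · rw [Set.indicator_of_mem (show ω ∈ {ω | (chb_U S J L x ω).Nonempty} from h)]
    refine ENNReal.inv_mul_cancel (zero_lt_one.trans_le (one_le_cnt h)).ne' ?_
    exact ne_top_of_le_ne_top ENNReal.ofReal_ne_top
      ((cnt_mono fun u hu => CnL_dist hu.2).trans (cnt_ball_le S x L))
  · rw [Set.indicator_of_notMem (show ω ∉ {ω | (chb_U S J L x ω).Nonempty} from h),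
      Set.not_nonempty_iff_eq_empty.1 h, cnt_empty, mul_zero]

theorem chb_meas (S : Geo G) (J : ℝ) (L : ℕ) (x u : V) : Measurable (chb_w S J L x u) := by
  classical
  unfold chb_w
  split_ifs
  · simp only [Set.indicator_apply]
    refine Measurable.ite ?_ (measurable_cntL _).inv measurable_const
    exact (MeasurableSet.const (u ∈ S.Lev (S.l x + J))).inter CnL_FU.measurableSet
  · exact measurable_const

omit [Countable V] in
theorem chb_image (S : Geo G) (J : ℝ) (L : ℕ) {g : G ≃g G} (hg : g ∈ S.Γ) (x : V) (ω : Cf V) :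
    chb_U S J L (g x) ω = g '' chb_U S J L x (act g ω) := by
  obtain ⟨δ, hδ⟩ := Geo.exists_shift hg
  ext z
  obtain ⟨z, rfl⟩ := g.surjective z
  rw [trn_mem_img]
  simp only [chb_U, Geo.Lev, Set.mem_inter_iff, Set.mem_ofPred_eq]
  rw [act_CnL, Geo.map_E hδ, trn_O hg, hδ, hδ, add_right_comm (S.l x) δ J, add_left_inj]

theorem Geo.preA (S : Geo G) (p : I) (J : ℝ) (L : ℕ) : ∃ w, PreCh S p J L w ∧
    ∑' y, ∫⁻ ω, w S.o y ω ∂mu V p = mu V p {ω | ∃ y ∈ S.Lev (S.l S.o + J),
      ω ∈ CnL G (S.E (S.l S.o) (S.l S.o + J)) L S.o y} := by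
  refine ⟨chb_w S J L, ⟨chb_meas S J L, fun x y ω ω' h => ?_, fun x ω => ?_, fun x y ω h => ?_,
    fun g hg x y => ?_⟩, ?_⟩
  · have : chb_U S J L x ω = chb_U S J L x ω' := by
      ext u
      exact and_congr_right fun _ => chb_iff h u
    rw [chb_w, chb_w, this]
  · by_cases hx : S.O x
    · rw [chb_row S J L hx]
      exact Set.indicator_le_self _ _ ω
    · simp [chb_w, hx]
  · rw [chb_w] at h
    split_ifs at h with hx
    · have := Set.mem_of_indicator_ne_zero h
      exact ⟨hx, this.1.1, this.1.2, this.2⟩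
    · exact absurd rfl h
  · dsimp only
    rw [← lintegral_act g (chb_meas S J L x y)]
    refine lintegral_congr fun ω => ?_
    rw [chb_w, chb_w, chb_image S J L hg, cnt_image g.injective]
    by_cases hx : S.O x
    · rw [if_pos hx, if_pos ((trn_O hg).2 hx), Set.indicator_image g.injective]
      rfl
    · rw [if_neg hx, if_neg (mt (trn_O hg).1 hx)]
  · rw [← lintegral_tsum fun y => (chb_meas S J L _ y).aemeasurable,
      lintegral_congr (chb_row S J L (x := S.o) ⟨1, S.Γ.one_mem, rfl⟩), lintegral_indicator_one]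
    · rfl
    · exact (FU.exists fun y _ => CnL_FU).measurableSet

theorem Side.preB (Z : Side S) (p : I) : ∃ w, PreCh S p Z.h0 Z.L0 w ∧
    ∀ x y, ofReal ((p : ℝ) ^ Z.L0) * Z.K x y ≤ ∫⁻ ω, w x y ω ∂mu V p := by
  have hi : ∀ x y, ∫⁻ ω, Z.K x y * (CnL G (S.E (S.l x) (S.l x + Z.h0)) Z.L0 x y).indicator 1 ω
      ∂mu V p = Z.K x y * tauL G p (S.E (S.l x) (S.l x + Z.h0)) Z.L0 x y := fun x y => by
    rw [lintegral_const_mul _ (measurable_one.indicator CnL_FU.measurableSet),
      lintegral_indicator_one CnL_FU.measurableSet, tauL]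
  refine ⟨fun x y ω => Z.K x y * (CnL G (S.E (S.l x) (S.l x + Z.h0)) Z.L0 x y).indicator 1 ω,
    ⟨fun x y => (measurable_one.indicator CnL_FU.measurableSet).const_mul _,
    fun x y ω ω' h => ?_, fun x ω => ?_, fun x y ω h => ?_, fun g hg x y => ?_⟩, fun x y => ?_⟩
  · congr 1
    by_cases h1 : ω ∈ CnL G (S.E (S.l x) (S.l x + Z.h0)) Z.L0 x y
    · rw [Set.indicator_of_mem h1, Set.indicator_of_mem ((chb_iff h y).1 h1)]
      rfl
    · rw [Set.indicator_of_notMem h1, Set.indicator_of_notMem (mt (chb_iff h y).2 h1)]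
  · by_cases hx : S.O x
    · rw [← Z.row x hx]
      exact ENNReal.tsum_le_tsum fun y => mul_le_of_le_one_right' (Set.indicator_le_self _ _ ω)
    · rw [ENNReal.tsum_eq_zero.2 fun y => ?_]
      · exact zero_le
      · by_contra h
        exact hx (Z.supp x y (left_ne_zero_of_mul h)).1
  · obtain ⟨h1, h2, h3, -⟩ := Z.supp x y (left_ne_zero_of_mul h)
    exact ⟨h1, h2, h3, Set.mem_of_indicator_ne_zero (right_ne_zero_of_mul h)⟩
  · dsimp only
    rw [hi, hi, Z.inv g hg]
    have := Geo.tauL_rel (p := p) (R := Z.L0) (x := x) (y := y) hg x 0 Z.h0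
    rw [add_zero, add_zero] at this
    rw [this]
  · rw [hi, mul_comm]
    by_cases h0 : Z.K x y = 0
    · simp [h0]
    obtain ⟨-, -, h3, w, hl, hw⟩ := Z.supp x y h0
    refine mul_le_mul' le_rfl ((PM_list_ge p w.edges (by rwa [w.length_edges])).trans
      (measure_mono fun ω hω => ⟨w, by exact_mod_cast hl, fun e he => ⟨?_, hω e he⟩⟩))
    induction e using Sym2.ind with
    | _ a b =>
      have ha := hw a (w.fst_mem_support_of_mem_edges he)
      have hb := hw b (w.snd_mem_support_of_mem_edges he)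
      have hab := (w.adj_of_mem_edges he).ne
      refine ⟨fun z hz => ?_, ?_⟩
      · rcases Sym2.mem_iff.1 hz with rfl | rfl
        · rcases ha.1 with rfl | h <;> linarith
        · rcases hb.1 with rfl | h <;> linarith
      · rw [← h3]
        rcases ha.2 with rfl | h
        · exact ⟨b, Sym2.mem_mk_right _ _, hb.2.resolve_left hab.symm⟩
        · exact ⟨a, Sym2.mem_mk_left _ _, h⟩

omit [Countable V] in
theorem CnL_dep_ball (hG : G.Connected) (F : Set (Sym2 V)) (L : ℕ) (x y : V) :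
    Dep (CnL G F L x y) (F ∩ EIn {z | G.dist x z ≤ L}) := chb_dep F L x y

end Pool.Agent.P.MP_3aa27f_pr.F
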