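import Pool.Agent.P.MP_3aa27f_pr.F.NB
import Pool.Agent.P.MP_3aa27f_pr.F.Trn

/-! Schur bounds for invariant kernels. -/

open MeasureTheory unitInterval SimpleGraph
open ENNReal (ofReal)
open scoped ENNReal

namespace Pool.Agent.P.MP_3aa27f_pr.F

variable {V : Type} {G : SimpleGraph V} [G.LocallyFinite] [Countable V] {S : Geo G} {p : I}
variable {K : Ker V}

section

omit [Countable V]

theorem sch_b0 (S : Geo G) : 0 < S.b := lt_trans one_pos S.one_lt_b

theorem sch_sqrt (c : ℝ≥0∞) : (c * c) ^ (1 / 2 : ℝ) = c := by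
  rw [← sq, ← ENNReal.rpow_natCast, ← ENNReal.rpow_mul]
  norm_num

theorem sch_test (S : Geo G) {c c' : ℝ≥0∞}
    (h1 : ∀ x, ∑' y, K x y * ofReal (S.b ^ ((S.l y - S.l x) / 2)) ≤ c)
    (h2 : ∀ y, ∑' x, K x y * ofReal (S.b ^ ((S.l x - S.l y) / 2)) ≤ c') :
    NB K ((c * c') ^ (1 / 2 : ℝ)) := by
  have e : ∀ x y, S.b ^ (S.l y / 2) / S.b ^ (S.l x / 2) = S.b ^ ((S.l y - S.l x) / 2) :=
    fun x y => by rw [← Real.rpow_sub (sch_b0 S), sub_div]
  exact NB_schur (u := fun x => S.b ^ (S.l x / 2)) (fun x => Real.rpow_pos_of_pos (sch_b0 S) _)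
    (by simpa only [e] using h1) (by simpa only [e] using h2)

theorem sch_mul (S : Geo G) (s t : ℝ) :
    ofReal (S.b ^ s) * ofReal (S.b ^ t) = ofReal (S.b ^ (s + t)) := by
  rw [← ENNReal.ofReal_mul (Real.rpow_nonneg (sch_b0 S).le _), ← Real.rpow_add (sch_b0 S)]

theorem Geo.schur (hK : S.Inv K) {a : ℝ≥0∞}
    (h : ∀ x, ∑' y, K x y * ofReal (S.b ^ ((S.l y - S.l x) / 2)) ≤ a) : NB K (ofReal S.CM * a) := by
  have h2 := S.mtp (fun x y => K x y * ofReal (S.b ^ ((S.l y - S.l x) / 2)))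
    (fun g hg x y => by simp only [hK g hg, S.inv g hg]) a h
  refine (sch_test S h (c' := ofReal S.CM * a) fun y => le_trans (le_of_eq ?_) (h2 y)).mono
    (fun _ _ => le_rfl) ?_
  · refine tsum_congr fun x => ?_
    rw [mul_assoc, sch_mul]
    congr 3; ring
  · refine le_trans (ENNReal.rpow_le_rpow (mul_le_mul_left ?_ _) (by norm_num))
      (sch_sqrt _).le
    exact le_mul_of_one_le_left' (ENNReal.one_le_ofReal.2 S.one_le_CM)

theorem Geo.schur_win (hK : S.Inv K) {a : ℝ≥0∞} {r : ℝ}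
    (hs : ∀ x y, K x y ≠ 0 → S.l y ≤ S.l x + r) (h : ∀ x, ∑' y, K x y ≤ a) :
    NB K (ofReal (S.CM * S.b ^ (r / 2)) * a) := by
  rw [ENNReal.ofReal_mul (le_trans zero_le_one S.one_le_CM), mul_assoc]
  refine Geo.schur hK fun x => ?_
  refine le_trans ?_ (mul_le_mul_right (h x) _)
  rw [← ENNReal.tsum_mul_left]
  refine ENNReal.tsum_le_tsum fun y => ?_
  by_cases h0 : K x y = 0
  · simp [h0]
  · rw [mul_comm]
    exact mul_le_mul_left (ENNReal.ofReal_le_ofReal (Real.rpow_le_rpow_of_exponent_le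
      S.one_lt_b.le (by linarith [hs x y h0]))) _

theorem Geo.rowO (hK : S.Inv K) {x : V} (hx : S.O x) : ∑' y, K x y = ∑' y, K S.o y := by
  obtain ⟨g, hg, rfl⟩ := hx
  exact hK.row hg _

theorem Geo.colO (hK : S.Inv K) {h : ℝ}
    (hs : ∀ x y, K x y ≠ 0 → S.O x ∧ S.O y ∧ S.l y = S.l x + h) {y : V} (hy : S.O y) :
    ∑' x, K x y = (∑' y, K S.o y) * ofReal (S.b ^ h) := by
  have e1 : ∑' x, K x y = ∑' x, K x S.o := Geo.rowO hK.ktr hy
  rw [e1, S.mtpO K hK fun x y h0 => ⟨(hs x y h0).1, (hs x y h0).2.1⟩, ← ENNReal.tsum_mul_right]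
  refine tsum_congr fun x => ?_
  by_cases h0 : K x S.o = 0
  · simp [h0]
  · rw [mul_assoc, sch_mul, (hs x _ h0).2.2]
    simp

theorem Geo.schurO (hK : S.Inv K) {h : ℝ}
    (hs : ∀ x y, K x y ≠ 0 → S.O x ∧ S.O y ∧ S.l y = S.l x + h) :
    NB K ((∑' y, K S.o y) * ofReal (S.b ^ (h / 2))) := by
  rw [← sch_sqrt ((∑' y, K S.o y) * ofReal (S.b ^ (h / 2)))]
  refine sch_test S (fun x => ?_) fun y => ?_
  · by_cases hx : S.O x
    · rw [← Geo.rowO hK hx, ← ENNReal.tsum_mul_right]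
      refine ENNReal.tsum_le_tsum fun y => ?_
      by_cases h0 : K x y = 0
      · simp [h0]
      · rw [(hs x y h0).2.2, add_sub_cancel_left]
    · have : ∀ y, K x y = 0 := fun y => by_contra fun h0 => hx (hs x y h0).1
      simp [this]
  · by_cases hy : S.O y
    · have e : S.b ^ (h / 2) = S.b ^ (h + -h / 2) := by congr 1; ring
      rw [e, ← sch_mul, ← mul_assoc, ← Geo.colO hK hs hy, ← ENNReal.tsum_mul_right]
      refine ENNReal.tsum_le_tsum fun x => ?_
      by_cases h0 : K x y = 0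
      · simp [h0]
      · rw [(hs x y h0).2.2, sub_add_cancel_left]
    · have : ∀ x, K x y = 0 := fun x => by_contra fun h0 => hy (hs x y h0).2.1
      simp [this]

/-- a kernel that dominates a multiple of the sideways kernel gains in norm -/
theorem Side.gain (Z : Side S) (hK : S.Inv K)
    (hs : ∀ x y, K x y ≠ 0 → S.O x ∧ S.O y ∧ S.l y = S.l x + Z.h0) {k c : ℝ} (c0 : 0 ≤ c)
    (k0 : 0 ≤ k) (k1 : k ≤ 1) (hr : ∑' y, K S.o y = ofReal k)
    (h : ∀ x y, ofReal c * Z.K x y ≤ K x y) :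
    c ≤ k ∧ NB K (ofReal ((1 - c * (1 - Z.ρ)) * k * S.b ^ ((Z.h0 : ℝ) / 2))) := by
  have e1 : ∑' y, ofReal c * Z.K S.o y = ofReal c := by
    rw [ENNReal.tsum_mul_left, Z.row _ S.O_o, mul_one]
  have ck : c ≤ k := by
    rw [← ENNReal.ofReal_le_ofReal_iff k0, ← e1, ← hr]
    exact ENNReal.tsum_le_tsum fun y => h _ y
  refine ⟨ck, ?_⟩
  have e2 : ∀ x y, K x y = ofReal c * Z.K x y + (K x y - ofReal c * Z.K x y) :=
    fun x y => (add_tsub_cancel_of_le (h x y)).symm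
  have e3 : ∑' y, (K S.o y - ofReal c * Z.K S.o y) = ofReal (k - c) := by
    rw [ENNReal.ofReal_sub _ c0]
    refine ENNReal.eq_sub_of_add_eq ENNReal.ofReal_ne_top ?_
    refine (congrArg _ e1.symm).trans ?_
    rw [← hr, ← ENNReal.tsum_add]
    exact tsum_congr fun y => tsub_add_cancel_of_le (h _ y)
  have n1 := Geo.schurO (K := fun x y => K x y - ofReal c * Z.K x y) (h := Z.h0)
    (fun g hg x y => by simp only [hK g hg, Z.inv g hg])
    fun x y h0 => hs x y fun h1 => h0 (by simp [h1])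
  rw [e3] at n1
  refine ((Z.norm.smul (ofReal c)).add n1).mono (fun x y => (e2 x y).le) ?_
  have b0 := Real.rpow_nonneg (sch_b0 S).le ((Z.h0 : ℝ) / 2)
  have r0 := Z.ρ0
  have r1 := Z.ρ1
  rw [← ENNReal.ofReal_mul c0, ← ENNReal.ofReal_mul (sub_nonneg.2 ck),
    ← ENNReal.ofReal_add (by positivity) (mul_nonneg (sub_nonneg.2 ck) b0)]
  refine ENNReal.ofReal_le_ofReal ?_
  have : 0 ≤ c * (1 - Z.ρ) * (1 - k) * S.b ^ ((Z.h0 : ℝ) / 2) :=
    mul_nonneg (mul_nonneg (mul_nonneg c0 (by linarith)) (by linarith)) b0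
  nlinarith

theorem sch_pow {ς : ℝ} (s0 : 0 < ς) (sb : ς ^ 2 * S.b ≤ 1) {d : ℝ} (hd : 0 ≤ d) :
    S.b ^ (d / 2) ≤ ς ^ (-d) := by
  have h1 : S.b ≤ ς ^ (-2 : ℝ) := by
    rw [Real.rpow_neg s0.le, Real.rpow_two, ← one_div, le_div_iff₀ (by positivity)]
    linarith
  refine (Real.rpow_le_rpow (sch_b0 S).le h1 (by linarith)).trans_eq ?_
  rw [← Real.rpow_mul s0.le]
  congr 1; ring

end

theorem Geo.slabK_norm {ς m B : ℝ} (s0 : 0 < ς) (sb : ς ^ 2 * S.b ≤ 1) (m0 : 0 ≤ m)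
    (hB : S.GB p ς (3 * m) B) : NB (S.slabK p m) (ofReal (2 * S.CM * B)) := by
  classical
  set L : Ker V := fun x y => if S.l x ≤ S.l y then
    tau G p (S.E (S.l x + -m) (S.l x + 2 * m)) x y else 0 with hL
  have i1 : S.Inv L := fun g hg x y => by
    have := S.inv g hg x y
    simp only [hL, Geo.tau_rel hg]
    exact if_congr (by constructor <;> intro h <;> linarith) rfl rfl
  have n1 : NB L (ofReal S.CM * ofReal B) := Geo.schur i1 fun x => by
    refine le_trans (ENNReal.tsum_le_tsum fun y => ?_)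
      (hB x (S.l x + -m) (S.l x + 2 * m) (by linarith))
    simp only [hL]
    split_ifs with h
    · refine mul_le_mul_right (ENNReal.ofReal_le_ofReal ?_) _
      simpa using sch_pow s0 sb (sub_nonneg.2 h)
    · simp
  refine (n1.add n1.tr).mono (fun x y => ?_) (le_of_eq ?_)
  · by_cases h : S.l x ≤ S.l y
    · refine le_trans ?_ le_self_add
      simp only [hL, if_pos h]
      exact tau_mono (S.E_mono (by linarith) (by linarith))
    · refine le_trans ?_ le_add_self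
      simp only [hL, ktr, if_pos (not_le.1 h).le]
      by_cases h2 : S.l x - m ≤ S.l y
      · rw [tau_comm]
        exact tau_mono (S.E_mono (by linarith) (by linarith))
      · have : Cn G (S.E (S.l x - m) (S.l x + m)) x y = ∅ :=
          Set.eq_empty_of_forall_notMem fun ω hω =>
            (Geo.Cn_Ge (S := S) (s := S.l x - m) Set.inter_subset_left hω).elim
              (fun e => h (by rw [e])) fun h3 => h2 h3.2
        simp [Geo.slabK, tau, this]
  · have c0 : 0 ≤ S.CM := le_trans zero_le_one S.one_le_CM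
    rw [mul_assoc, ENNReal.ofReal_mul (by norm_num), ENNReal.ofReal_mul c0, ← two_mul]
    simp

theorem Geo.tailK_norm (S : Geo G) {ς : ℝ} (s0 : 0 < ς) (s1 : ς < 1) : ∃ C : ℝ, 1 ≤ C ∧
    ∀ (p : I) (m r B : ℝ), 0 ≤ B → S.BB p ς (m + r) ⊤ B →
      NB (S.tailK p m r) (ofReal (C * B * ς ^ r * S.b ^ (r / 2))) := by
  have c1 := S.one_le_CM
  have b1 : 1 ≤ S.b ^ (1 / 2 : ℝ) := Real.one_le_rpow S.one_lt_b.le (by norm_num)
  have n1 : (1 : ℝ) ≤ (S.n0 + 1 : ℕ) := by exact_mod_cast Nat.succ_pos _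
  have n0 : (0 : ℝ) ≤ S.n0 := Nat.cast_nonneg _
  have t1 : 1 ≤ ς ^ (-(3 * (S.n0 : ℝ) / 2)) :=
    Real.one_le_rpow_of_pos_of_le_one_of_nonpos s0 s1.le (by linarith)
  refine ⟨S.CM * S.b ^ (1 / 2 : ℝ) * ((S.n0 + 1 : ℕ) * ς ^ (-(3 * (S.n0 : ℝ) / 2))),
    one_le_mul_of_one_le_of_one_le (one_le_mul_of_one_le_of_one_le c1 b1)
      (one_le_mul_of_one_le_of_one_le n1 t1), fun p m r B B0 hB => ?_⟩
  have sr := Real.rpow_nonneg s0.le r
  refine (Geo.schur_win (S.tailK_inv p m r) (r := r + 1)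
    (a := ofReal ((S.n0 + 1 : ℕ) * (B * ς ^ r * ς ^ (-(3 * (S.n0 : ℝ) / 2)))))
    (fun x y h => ?_) fun v => ?_).mono (fun _ _ => le_rfl) (le_of_eq ?_)
  · by_contra h1
    exact h (if_neg fun h2 => h1 (by linarith [h2.2]))
  · have h1 : ∀ y, S.tailK p m r v y ≤ ∑ j ∈ Finset.range (S.n0 + 1),
        (S.Win (S.l v + r - j)).indicator (tauL G p (S.E (S.l v - m) (S.l v + r)) ⊤ v) y := by
      intro y
      unfold Geo.tailK
      split_ifs with h
      · have hj : ⌈S.l v + r - S.l y⌉₊ ∈ Finset.range (S.n0 + 1) :=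
          Finset.mem_range.2 (Nat.lt_succ_of_le (Nat.ceil_le.2 (by linarith [h.1])))
        refine le_trans ?_ (Finset.single_le_sum (f := fun j : ℕ => (S.Win (S.l v + r - j)).indicator
          (tauL G p (S.E (S.l v - m) (S.l v + r)) ⊤ v) y) (fun _ _ => zero_le) hj)
        rw [Set.indicator_of_mem, tauL_top]
        refine ⟨by linarith [Nat.le_ceil (S.l v + r - S.l y)], ?_⟩
        rcases le_total 0 (S.l v + r - S.l y) with h0 | h0
        · linarith [Nat.ceil_lt_add_one h0]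
        · rw [Nat.ceil_eq_zero.2 h0]
          simpa using (by linarith [h.2] : S.l y ≤ S.l v + r + 1)
      · exact zero_le
    refine (ENNReal.tsum_le_tsum h1).trans ?_
    rw [Summable.tsum_finsetSum fun _ _ => ENNReal.summable,
      ENNReal.ofReal_mul (Nat.cast_nonneg _), ENNReal.ofReal_natCast, ← nsmul_eq_mul]
    refine (Finset.sum_le_card_nsmul _ _ _ fun j hj => ?_).trans_eq (by rw [Finset.card_range])
    have j0 : (0 : ℝ) ≤ j := Nat.cast_nonneg _
    have j1 : (j : ℝ) ≤ S.n0 := by exact_mod_cast Nat.lt_succ_iff.1 (Finset.mem_range.1 hj)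
    refine (hB v _ _ _ (by linarith) (by linarith)).trans (ENNReal.ofReal_le_ofReal ?_)
    rw [mul_assoc, mul_assoc, ← Real.rpow_add s0, ← Real.rpow_add s0]
    exact mul_le_mul_of_nonneg_left
      (Real.rpow_le_rpow_of_exponent_ge s0 s1.le (by linarith)) B0
  · have b0 := sch_b0 S
    rw [← ENNReal.ofReal_mul (by positivity), add_div, Real.rpow_add b0]
    congr 1; ring

end Pool.Agent.P.MP_3aa27f_pr.F
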