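import Pool.Agent.P.MP_3aa27f_pr.F.ChA
import Pool.Agent.P.MP_3aa27f_pr.F.ChB
import Pool.Agent.P.MP_3aa27f_pr.F.Sch

/-! Existence of block strategies. -/

open MeasureTheory unitInterval SimpleGraph
open ENNReal (ofReal)
open scoped ENNReal

namespace Pool.Agent.P.MP_3aa27f_pr.F

variable {V : Type} {G : SimpleGraph V} [G.LocallyFinite] [Countable V] {S : Geo G} {p : I}

theorem PreCh.comp {J J' : ℝ} {L L' : ℕ} {w w' : V → V → Cf V → ℝ≥0∞} (h : PreCh S p J L w)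
    (h' : PreCh S p J' L' w') (J0 : 0 ≤ J) (J0' : 0 ≤ J') :
    PreCh S p (J + J') (L + L') (fun x y ω => ∑' u, w x u ω * w' u y ω) ∧
      ∀ x y, ∫⁻ ω, ∑' u, w x u ω * w' u y ω ∂mu V p =
        kmul (fun x y => ∫⁻ ω, w x y ω ∂mu V p) (fun x y => ∫⁻ ω, w' x y ω ∂mu V p) x y := by
  have key : ∀ x u, (∀ ω, w x u ω = 0) ∨ (S.l u = S.l x + J ∧ G.dist x u ≤ L) := by
    intro x u
    by_cases h0 : ∀ ω, w x u ω = 0
    · exact Or.inl h0
    · push Not at h0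
      obtain ⟨ω, hω⟩ := h0
      obtain ⟨_, _, a1, a2⟩ := h.supp x u ω hω
      exact Or.inr ⟨a1, CnL_dist a2⟩
  have mean : ∀ x y, ∫⁻ ω, ∑' u, w x u ω * w' u y ω ∂mu V p =
      kmul (fun x y => ∫⁻ ω, w x y ω ∂mu V p) (fun x y => ∫⁻ ω, w' x y ω ∂mu V p) x y := by
    intro x y
    refine (lintegral_tsum (f := fun u ω => w x u ω * w' u y ω)
      fun u => ((h.meas x u).mul (h'.meas u y)).aemeasurable).trans (tsum_congr fun u => ?_)
    rcases key x u with h0 | ⟨a1, _⟩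
    · simp [h0]
    · refine lintegral_indep _ (h.meas x u) (h'.meas u y) (h.dep x u) (h'.dep u y) ?_
      exact (S.disjoint_Lt_Ge a1.ge).mono (fun e he => he.1.2) (fun e he => he.1.1)
  refine ⟨⟨fun x y => Measurable.tsum fun u => (h.meas x u).mul (h'.meas u y),
    fun x y ω ω' hω => tsum_congr fun u => ?_, fun x ω => ?_, fun x y ω hω => ?_, ?_⟩, mean⟩
  · rcases key x u with h0 | ⟨a1, a2⟩
    · simp [h0]
    · have e1 : w x u ω = w x u ω' := by
        refine h.dep x u fun e he => hω e ⟨S.E_mono le_rfl (by linarith) he.1, ?_⟩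
        exact EIn_mono (fun z (hz : G.dist x z ≤ L) => show G.dist x z ≤ L + L' by omega) he.2
      have e2 : w' u y ω = w' u y ω' := by
        refine h'.dep u y fun e he => hω e ⟨S.E_mono (by linarith) (by linarith) he.1, ?_⟩
        refine EIn_mono (fun z (hz : G.dist u z ≤ L') => show G.dist x z ≤ L + L' from ?_) he.2
        have : G.dist x z ≤ G.dist x u + G.dist u z := S.conn.dist_triangle
        omega
      rw [e1, e2]
  · rw [ENNReal.tsum_comm]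
    refine le_trans (ENNReal.tsum_le_tsum fun u => ?_) (h.sum_le x ω)
    rw [ENNReal.tsum_mul_left]
    exact mul_le_of_le_one_right' (h'.sum_le u ω)
  · have : ∃ u, w x u ω * w' u y ω ≠ 0 := by
      by_contra h0
      push Not at h0
      exact hω (ENNReal.tsum_eq_zero.2 h0)
    obtain ⟨u, hu⟩ := this
    obtain ⟨a1, _, a3, a4⟩ := h.supp x u ω (left_ne_zero_of_mul hu)
    obtain ⟨_, b2, b3, b4⟩ := h'.supp u y ω (right_ne_zero_of_mul hu)
    refine ⟨a1, b2, by linarith, ?_⟩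
    rw [Nat.cast_add]
    exact CnL_trans (CnL_mono (S.E_mono le_rfl (by linarith)) le_rfl a4)
      (CnL_mono (S.E_mono (by linarith) (by linarith)) le_rfl b4)
  · intro g hg x y
    simp only [mean]
    exact h.inv.kmul h'.inv g hg x y

theorem che_row {J : ℝ} {L : ℕ} {w : V → V → Cf V → ℝ≥0∞} (h : PreCh S p J L w) :
    ∃ q : ℝ, 0 ≤ q ∧ q ≤ 1 ∧ ∑' y, ∫⁻ ω, w S.o y ω ∂mu V p = ofReal q := by
  have h1 : ∑' y, ∫⁻ ω, w S.o y ω ∂mu V p ≤ 1 := by
    rw [← lintegral_tsum fun y => (h.meas S.o y).aemeasurable]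
    refine le_trans (lintegral_mono fun ω => h.sum_le S.o ω) ?_
    simp
  have h2 : ∑' y, ∫⁻ ω, w S.o y ω ∂mu V p ≠ ⊤ := ne_top_of_le_ne_top ENNReal.one_ne_top h1
  refine ⟨_, ENNReal.toReal_nonneg, ?_, (ENNReal.ofReal_toReal h2).symm⟩
  simpa using ENNReal.toReal_mono ENNReal.one_ne_top h1

omit [Countable V] in
theorem che_supp {J : ℝ} {L : ℕ} {w : V → V → Cf V → ℝ≥0∞} (h : PreCh S p J L w) (x y : V)
    (h0 : ∫⁻ ω, w x y ω ∂mu V p ≠ 0) : S.O x ∧ S.O y ∧ S.l y = S.l x + J := by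
  have : ∃ ω, w x y ω ≠ 0 := by
    by_contra h1
    push Not at h1
    exact h0 (by simp [h1])
  obtain ⟨ω, hω⟩ := this
  obtain ⟨a1, a2, a3, _⟩ := h.supp x y ω hω
  exact ⟨a1, a2, a3⟩

theorem Side.exists_chain (Z : Side S) (p0 : 0 < (p : ℝ)) {ξ : ℝ} (ξ0 : 0 < ξ) (ξ1 : ξ ≤ 1) {r : ℕ}
    (r1 : 1 ≤ r) (h : ofReal (ξ ^ r) < ofReal ((p : ℝ) ^ S.n0) * S.PiO p 0 r) :
    ∃ C : Chain S p, ξ ^ C.J ≤ C.q := by
  have c0 : 0 < (p : ℝ) ^ Z.L0 := pow_pos p0 _
  have c1 : (p : ℝ) ^ Z.L0 ≤ 1 := pow_le_one₀ p0.le p.2.2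
  obtain ⟨J, L, J1, hJ⟩ := S.block ξ0 ξ1 c0 r1 h
  obtain ⟨wA, hA, rA⟩ := S.preA p J L
  obtain ⟨wB, hB, rB⟩ := Z.preB p
  rw [← rA] at hJ
  obtain ⟨qA, qA0, qA1, eA⟩ := che_row hA
  obtain ⟨qB, qB0, qB1, eB⟩ := che_row hB
  have h00 : (0 : ℝ) ≤ Z.h0 := Nat.cast_nonneg _
  obtain ⟨hC, mean⟩ := hA.comp hB (by linarith) h00
  obtain ⟨g1, g2⟩ := Z.gain hB.inv (che_supp hB) c0.le qB0 qB1 eB rB
  have g3 := Geo.schurO hA.inv (che_supp hA)
  simp only [eA] at g3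
  rw [eA, ← ENNReal.ofReal_mul c0.le,
    ENNReal.ofReal_le_ofReal_iff (mul_nonneg c0.le qA0)] at hJ
  have hq : ξ ^ (J + Z.h0) ≤ qA * qB := by
    refine le_trans (Real.rpow_le_rpow_of_exponent_ge ξ0 ξ1 (by linarith)) (hJ.trans ?_)
    rw [mul_comm]
    exact mul_le_mul_of_nonneg_left g1 qA0
  have row : ∀ x, S.O x → ∑' y, ∫⁻ ω, ∑' u, wA x u ω * wB u y ω ∂mu V p = ofReal (qA * qB) := by
    intro x hx
    simp only [mean]
    unfold kmul
    rw [ENNReal.tsum_comm, ENNReal.ofReal_mul qA0, ← eA, ← Geo.rowO hA.inv hx,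
      ← ENNReal.tsum_mul_right]
    refine tsum_congr fun u => ?_
    rw [ENNReal.tsum_mul_left]
    by_cases h0 : ∫⁻ ω, wA x u ω ∂mu V p = 0
    · simp [h0]
    · rw [← eB, ← Geo.rowO hB.inv (che_supp hA x u h0).2.1]
  have r0 := Z.ρ0
  have r1 := Z.ρ1
  have b0 := sch_b0 S
  have t0 : 0 < (p : ℝ) ^ Z.L0 * (1 - Z.ρ) := mul_pos c0 (by linarith)
  have t1 : (p : ℝ) ^ Z.L0 * (1 - Z.ρ) < 1 := by nlinarith
  refine ⟨{ J := J + Z.h0
            L := L + Z.L0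
            q := qA * qB
            ρ := 1 - (p : ℝ) ^ Z.L0 * (1 - Z.ρ)
            w := fun x y ω => ∑' u, wA x u ω * wB u y ω
            one_le_J := by linarith
            q0 := lt_of_lt_of_le (Real.rpow_pos_of_pos ξ0 _) hq
            q1 := mul_le_one₀ qA1 qB0 qB1
            ρ0 := by linarith
            ρ1 := by linarith
            meas := hC.meas
            dep := hC.dep
            sum_le := hC.sum_le
            supp := hC.supp
            row := row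
            col := fun y hy => ?_
            norm := ?_ }, hq⟩
  · have := Geo.colO hC.inv (che_supp hC) hy
    simp only [row _ S.O_o] at this
    rw [this, ENNReal.ofReal_mul (mul_nonneg qA0 qB0)]
  · refine (g3.mul g2).mono (fun x y => (mean x y).le) (le_of_eq ?_)
    have p1 : 0 ≤ S.b ^ (J / 2) := (Real.rpow_pos_of_pos b0 _).le
    rw [← ENNReal.ofReal_mul qA0, ← ENNReal.ofReal_mul (mul_nonneg qA0 p1), add_div,
      Real.rpow_add b0]
    congr 1
    ring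

end Pool.Agent.P.MP_3aa27f_pr.F
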