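import Pool.Agent.P.MP_3aa27f_pr.F.DecA

/-! The decoupling inequality. -/

open MeasureTheory unitInterval SimpleGraph
open ENNReal (ofReal)
open scoped ENNReal

namespace Pool.Agent.P.MP_3aa27f_pr.F

variable {V : Type} {G : SimpleGraph V} [G.LocallyFinite] [Countable V] {S : Geo G} {p : I}
variable {F : Set (Sym2 V)} {l : ℕ} {X Y : Set V}

/-- the vertices close to `X` -/
def dec_U (G : SimpleGraph V) (F : Set (Sym2 V)) (l : ℕ) (X : Set V) (ω : Cf V) : Set V :=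
  {u | ∃ x ∈ X, ω ∈ CnL G F l x u}

omit [Countable V] in
theorem dec_ball (n : ℕ) : ∀ x : V, {u | ∃ w : G.Walk x u, w.length ≤ n}.Finite := by
  induction n with
  | zero =>
    intro x
    refine (Set.finite_singleton x).subset ?_
    rintro u ⟨w, hw⟩
    exact (Walk.eq_of_length_eq_zero (Nat.le_zero.1 hw)).symm
  | succ n ih =>
    intro x
    refine (((G.neighborSet x).toFinite.biUnion fun v _ => ih v).insert x).subset ?_
    rintro u ⟨w, hw⟩
    cases w with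
    | nil => exact Set.mem_insert _ _
    | @cons _ v _ h w =>
      refine Set.mem_insert_of_mem _ (Set.mem_biUnion (show v ∈ G.neighborSet x from h) ⟨w, ?_⟩)
      rw [Walk.length_cons] at hw
      omega

omit [Countable V] in
theorem dec_U_finite (hX : X.Finite) (ω : Cf V) : (dec_U G F l X ω).Finite := by
  refine (hX.biUnion fun x _ => dec_ball (G := G) l x).subset ?_
  rintro u ⟨x, hx, w, hw, -⟩
  exact Set.mem_biUnion hx ⟨w, by exact_mod_cast hw⟩

section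

omit [G.LocallyFinite] [Countable V]

theorem dec_edge {ω : Cf V} {x a b : V} {k : ℕ} (h : ω ∈ CnL G F k x a) (hab : G.Adj a b)
    (hF : s(a, b) ∈ F) (hω : ω s(a, b) = true) : ω ∈ CnL G F (k + 1 : ℕ) x b := by
  rw [Nat.cast_add]
  exact CnL_trans h ⟨hab.toWalk, by simp, by simpa using ⟨hF, hω⟩⟩

theorem dec_walk {ω ω' : Cf V} (h : ∀ e ∈ G.edgeSet ∩ ETo (dec_U G F l X ω), ω e = ω' e)
    {x : V} (hx : x ∈ X) {a u : V} (w : G.Walk a u) : ∀ k : ℕ, ω ∈ CnL G F k x a →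
      k + w.length ≤ l → (∀ e ∈ w.edges, e ∈ F ∧ ω' e = true) → ω ∈ CnL G F l x u := by
  induction w with
  | nil =>
    intro k hk hl _
    exact CnL_mono le_rfl (by exact_mod_cast hl) hk
  | @cons a b _ hab w ih =>
    intro k hk hl hw
    rw [Walk.length_cons] at hl
    have ha : a ∈ dec_U G F l X ω :=
      ⟨x, hx, CnL_mono le_rfl (by exact_mod_cast (by omega : k ≤ l)) hk⟩
    have h1 := hw s(a, b) (by simp)
    refine ih (k + 1) (dec_edge hk hab h1.1 ?_) (by omega) fun e he => hw e (by simp [he])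
    rw [h s(a, b) ⟨hab, a, by simp, ha⟩]
    exact h1.2

theorem dec_U_eq {ω ω' : Cf V} (h : ∀ e ∈ G.edgeSet ∩ ETo (dec_U G F l X ω), ω e = ω' e) :
    dec_U G F l X ω' = dec_U G F l X ω := by
  classical
  refine Set.Subset.antisymm ?_ ?_
  · rintro u ⟨x, hx, w, hl, hw⟩
    exact ⟨x, hx, dec_walk h hx w 0 (CnL_refl _ _ _ _) (by rw [zero_add]; exact_mod_cast hl) hw⟩
  · rintro u ⟨x, hx, w, hl, hw⟩
    refine ⟨x, hx, w, hl, fun e he => ⟨(hw e he).1, ?_⟩⟩
    rw [← h e ⟨w.edges_subset_edgeSet he, ?_⟩]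
    · exact (hw e he).2
    · induction e using Sym2.ind with
      | _ a b =>
        have ha : a ∈ w.support := Walk.mem_support_of_mem_edges he (by simp)
        refine ⟨a, by simp, x, hx, w.takeUntil a ha, le_trans ?_ hl, fun e he =>
          hw e (w.edges_takeUntil_subset_edges ha he)⟩
        exact_mod_cast w.length_takeUntil_le_length ha

theorem dec_claim {ω ξ : Cf V} (h : ∀ e, e ∉ ETo (dec_U G F l X ξ) → ω e = ξ e) {a u : V}
    (w : G.Walk a u) (hu : u ∈ dec_U G F l X ξ) (ha : ξ ∈ Rch G F a Y)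
    (hw : ∀ e ∈ w.edges, e ∈ F ∧ ω e = true) :
    ξ ∈ XY G F X Y ∪ ⋃ e, Piv G F l X Y e ∩ {ω | ω e = false} := by
  classical
  have key : ∀ {a : V} {ζ : Cf V}, ξ ≤ ζ → a ∈ dec_U G F l X ξ → ζ ∈ Rch G F a Y →
      ζ ∈ XY G F X Y := fun hζ ⟨x, hx, h1⟩ h2 => ⟨x, hx, Rch_trans (Cn_upper hζ (CnL_sub h1)) h2⟩
  induction w with
  | nil => exact Or.inl (key le_rfl hu ha)
  | @cons a b _ hab w ih =>
    have h1 := hw s(a, b) (by simp)
    by_cases hξ : ξ s(a, b) = true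
    · exact ih hu (Rch_trans (Cn_symm (Cn_edge hab h1.1 hξ)) ha) fun e he => hw e (by simp [he])
    by_cases hXY : ξ ∈ XY G F X Y
    · exact Or.inl hXY
    have hb : b ∈ dec_U G F l X ξ := by
      by_contra hb
      refine hξ ((h _ ?_).symm.trans h1.2)
      rintro ⟨z, hz, hzU⟩
      rcases Sym2.mem_iff.1 hz with rfl | rfl
      · exact hXY (key le_rfl hzU ha)
      · exact hb hzU
    have hf : ξ s(a, b) = false := by simpa using hξ
    have e1 : Function.update ξ s(a, b) false = ξ := by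
      rw [← hf, Function.update_eq_self]
    have hle : ξ ≤ Function.update ξ s(a, b) true := fun e => by
      by_cases he : e = s(a, b)
      · rw [he, Function.update_self]; exact le_top
      · rw [Function.update_of_ne he]
    refine Or.inr (Set.mem_iUnion.2 ⟨s(a, b), ⟨?_, ?_, ?_⟩, hf⟩)
    · convert hXY
    · have := key hle hb (Rch_trans (Cn_symm (Cn_edge hab h1.1 (Function.update_self ..)))
        (Rch_upper hle ha))
      convert this
    · obtain ⟨x, hx, h2⟩ := hb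
      refine ⟨x, hx, b, by simp, ?_⟩
      convert h2

end

theorem dec_fin (p0 : 0 < (p : ℝ)) (hX : X.Finite) : ((mu V p).prod (mu V p)) {ζ : Cf V × Cf V |
    ∃ x ∈ X, ∃ u, ζ.1 ∈ CnL G F l x u ∧ ζ.2 ∈ Rch G F u Y} ≤
      ofReal ((l + 2) / p) * mu V p (XY G F X Y) := by
  classical
  let R : Cf V → Finset (Sym2 V) := fun ω =>
    (edges_touch_finite (G := G) (dec_U_finite (G := G) (F := F) (l := l) hX ω)).toFinset
  have mR : ∀ ω e, e ∈ R ω ↔ e ∈ G.edgeSet ∩ ETo (dec_U G F l X ω) := fun ω e =>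
    Set.Finite.mem_toFinset _
  have hR : ∀ ω ω', (∀ i ∈ R ω, ω i = ω' i) → R ω' = R ω := fun ω ω' h => by
    ext e
    rw [mR, mR, dec_U_eq fun e he => h e ((mR ω e).2 he)]
  have hA : MeasurableSet (XY G F X Y ∪ ⋃ e, Piv G F l X Y e ∩ {ω | ω e = false}) :=
    XY_FU.measurableSet.union (MeasurableSet.iUnion fun e => (measurableSet_Piv e).inter
      (measurable_pi_apply (X := fun _ => Bool) e (measurableSet_singleton false)))
  calc _ ≤ ((mu V p).prod (mu V p)) {z | splice (R z.1 : Set (Sym2 V)) z.1 z.2 ∈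
        XY G F X Y ∪ ⋃ e, Piv G F l X Y e ∩ {ω | ω e = false}} := by
        refine measure_mono ?_
        rintro ⟨ω', ω⟩ ⟨x, hx, u, h1, y, hy, h2⟩
        obtain ⟨w, hw⟩ := Cn_symm h2
        have hU : dec_U G F l X (splice (R ω' : Set (Sym2 V)) ω' ω) = dec_U G F l X ω' :=
          dec_U_eq fun e he => by
            rw [splice, if_pos (Finset.mem_coe.2 ((mR ω' e).2 he))]
        refine dec_claim (ω := ω) (fun e he => ?_) w (hU ▸ ⟨x, hx, h1⟩) ⟨y, hy, Cn_refl _ _ _⟩ hw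
        rw [hU] at he
        rw [splice, if_neg fun h => he ((mR ω' e).1 (Finset.mem_coe.1 h)).2]
    _ = mu V p (XY G F X Y ∪ ⋃ e, Piv G F l X Y e ∩ {ω | ω e = false}) := resample _ R hR hA
    _ ≤ mu V p (XY G F X Y) + ofReal ((l + 1) * ((1 - p) / p)) * mu V p (XY G F X Y) :=
        (measure_union_le _ _).trans (add_le_add le_rfl ((measure_iUnion_le _).trans (piv_sum p0)))
    _ = ofReal (1 + (l + 1) * ((1 - p) / p)) * mu V p (XY G F X Y) := by
        have : 0 ≤ 1 - (p : ℝ) := sub_nonneg.2 p.2.2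
        rw [ENNReal.ofReal_add zero_le_one (by positivity), ENNReal.ofReal_one, add_mul (1 : ℝ≥0∞),
          one_mul]
    _ ≤ _ := by
        refine mul_le_mul_left (ENNReal.ofReal_le_ofReal ?_) _
        rw [le_div_iff₀ p0, add_mul, mul_assoc, div_mul_cancel₀ _ p0.ne']
        have := p.2.2
        have : (0 : ℝ) ≤ l * p := by positivity
        nlinarith

theorem dec_prod (p0 : 0 < (p : ℝ)) : ((mu V p).prod (mu V p)) {ζ : Cf V × Cf V |
    ∃ x ∈ X, ∃ u, ζ.1 ∈ CnL G F l x u ∧ ζ.2 ∈ Rch G F u Y} ≤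
      ofReal ((l + 2) / p) * mu V p (XY G F X Y) := by
  obtain ⟨f, hf⟩ := exists_injective_nat V
  have e : {ζ : Cf V × Cf V | ∃ x ∈ X, ∃ u, ζ.1 ∈ CnL G F l x u ∧ ζ.2 ∈ Rch G F u Y} =
      ⋃ n : ℕ, {ζ : Cf V × Cf V | ∃ x ∈ X ∩ f ⁻¹' Set.Iic n, ∃ u,
        ζ.1 ∈ CnL G F l x u ∧ ζ.2 ∈ Rch G F u Y} := by
    ext ζ
    rw [Set.mem_iUnion]
    exact ⟨fun ⟨x, hx, h⟩ => ⟨f x, x, ⟨hx, le_refl (f x)⟩, h⟩, fun ⟨_, x, hx, h⟩ => ⟨x, hx.1, h⟩⟩
  have hm : Monotone fun n : ℕ => {ζ : Cf V × Cf V | ∃ x ∈ X ∩ f ⁻¹' Set.Iic n, ∃ u,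
      ζ.1 ∈ CnL G F l x u ∧ ζ.2 ∈ Rch G F u Y} :=
    fun a b hab ζ ⟨x, hx, h⟩ => ⟨x, ⟨hx.1, le_trans hx.2 hab⟩, h⟩
  rw [e, hm.measure_iUnion]
  refine iSup_le fun n => (dec_fin p0 (((Set.finite_Iic n).preimage hf.injOn).inter_of_right X)).trans
    (mul_le_mul_right (measure_mono ?_) _)
  exact fun ω ⟨x, hx, h⟩ => ⟨x, hx.1, h⟩

theorem dec1 (p0 : 0 < (p : ℝ)) :
    ∫⁻ ω', mu V p {ω | ∃ x ∈ X, ∃ u, ω' ∈ CnL G F l x u ∧ ω ∈ Rch G F u Y} ∂mu V p ≤
      ofReal ((l + 2) / p) * mu V p (XY G F X Y) :=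
  (Measure.prod_apply (measurableSet_two X)).symm.trans_le (dec_prod p0)

theorem dec2 (p0 : 0 < (p : ℝ)) :
    ∫⁻ ω, mu V p {ω' | ∃ x ∈ X, ∃ u, ω' ∈ CnL G F l x u ∧ ω ∈ Rch G F u Y} ∂mu V p ≤
      ofReal ((l + 2) / p) * mu V p (XY G F X Y) :=
  (Measure.prod_apply_symm (measurableSet_two X)).symm.trans_le (dec_prod p0)

end Pool.Agent.P.MP_3aa27f_pr.F
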