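import Pool.Agent.P.MP_3aa27f_pr.F.Cnx0

/-! Levels, tight walks and slabs. -/

open MeasureTheory unitInterval SimpleGraph
open ENNReal (ofReal)
open scoped ENNReal

namespace Pool.Agent.P.MP_3aa27f_pr.F

variable {V : Type} {G : SimpleGraph V} [G.LocallyFinite] [Countable V] {S : Geo G} {p : I}
variable {F : Set (Sym2 V)} {x y z : V} {ω : Cf V}

section

omit [Countable V]

theorem Geo.O_o (S : Geo G) : S.O S.o := ⟨1, S.Γ.one_mem, rfl⟩

theorem Geo.O.map (h : S.O x) {g : G ≃g G} (hg : g ∈ S.Γ) : S.O (g x) := by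
  obtain ⟨g', hg', rfl⟩ := h
  exact ⟨g * g', S.Γ.mul_mem hg hg', rfl⟩

theorem Geo.O_map_iff {g : G ≃g G} (hg : g ∈ S.Γ) : S.O (g x) ↔ S.O x := by
  refine ⟨fun h => ?_, fun h => h.map hg⟩
  have h1 := h.map (S.Γ.inv_mem hg)
  have h2 : (g⁻¹ : G ≃g G) (g x) = x := g.symm_apply_apply x
  rwa [h2] at h1

theorem Geo.O.exists_map (hx : S.O x) (hy : S.O y) : ∃ g ∈ S.Γ, g x = y := by
  obtain ⟨g, hg, rfl⟩ := hx
  obtain ⟨g', hg', rfl⟩ := hy
  refine ⟨g' * g⁻¹, S.Γ.mul_mem hg' (S.Γ.inv_mem hg), ?_⟩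
  have h2 : (g⁻¹ : G ≃g G) (g S.o) = S.o := g.symm_apply_apply S.o
  show g' ((g⁻¹ : G ≃g G) (g S.o)) = g' S.o
  rw [h2]

theorem Geo.one_le_n0 (S : Geo G) : 1 ≤ S.n0 := by
  obtain ⟨_, _, w, h1, h2, _⟩ := S.up S.o
  exact h1.trans h2

theorem Geo.one_le_D (S : Geo G) : 1 ≤ S.D := by
  obtain ⟨g, _, w, h1, _, _⟩ := S.up S.o
  have h : ∃ a, G.Adj S.o a := by
    generalize g S.o = u at w h1
    cases w with
    | nil => simp at h1
    | cons h _ => exact ⟨_, h⟩
  have h2 : 0 < G.degree S.o := (G.degree_pos_iff_exists_adj S.o).2 h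
  exact le_trans h2 (S.deg S.o)

theorem lev0_len (S : Geo G) (w : G.Walk x y) : S.l y ≤ S.l x + w.length := by
  induction w with
  | nil => simp
  | cons h p ih =>
    have := S.lip _ _ h
    rw [Walk.length_cons]
    push_cast
    linarith

theorem lev0_map {g : G ≃g G} (hg : g ∈ S.Γ) (w : G.Walk x y) (ht : S.l y = S.l x + w.length) :
    ∃ w' : G.Walk (g x) (g y), w'.length = w.length ∧ S.l (g y) = S.l (g x) + w'.length := by
  refine ⟨w.map g.toHom, w.length_map _, ?_⟩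
  have h1 := S.inv g hg y x
  have h2 : (w.map g.toHom).length = w.length := w.length_map _
  rw [h2]
  linarith

theorem lev0_take [DecidableEq V] (S : Geo G) (w : G.Walk x y) (ht : S.l y = S.l x + w.length)
    (hz : z ∈ w.support) : S.l z = S.l x + (w.takeUntil z hz).length ∧
      S.l y = S.l z + (w.dropUntil z hz).length := by
  have h1 := lev0_len S (w.takeUntil z hz)
  have h2 := lev0_len S (w.dropUntil z hz)
  have h3 : ((w.takeUntil z hz).append (w.dropUntil z hz)).length = w.length := by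
    rw [w.take_spec hz]
  rw [Walk.length_append] at h3
  have h4 : ((w.takeUntil z hz).length : ℝ) + (w.dropUntil z hz).length = w.length := by
    exact_mod_cast h3
  constructor <;> linarith

theorem Geo.l_support (S : Geo G) (w : G.Walk x y) (hz : z ∈ w.support) :
    |S.l z - S.l x| ≤ w.length := by
  classical
  have h1 := lev0_len S (w.takeUntil z hz)
  have h2 := lev0_len S (w.takeUntil z hz).reverse
  rw [Walk.length_reverse] at h2
  have h3 : ((w.takeUntil z hz).length : ℝ) ≤ w.length := by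
    exact_mod_cast w.length_takeUntil_le_length hz
  rw [abs_le]
  constructor <;> linarith

theorem Geo.l_dist (S : Geo G) (x y : V) : |S.l y - S.l x| ≤ G.dist x y := by
  obtain ⟨w, hw⟩ := S.conn.exists_walk_length_eq_dist x y
  rw [← hw]
  exact S.l_support w w.end_mem_support

theorem Geo.up' (S : Geo G) (v : V) : ∃ u, ∃ w : G.Walk v u, S.O u ∧ 1 ≤ w.length ∧
    w.length ≤ S.n0 ∧ S.l u = S.l v + w.length := by
  obtain ⟨g, hg, w, h1, h2, h3⟩ := S.up v
  exact ⟨g S.o, w, ⟨g, hg, rfl⟩, h1, h2, h3⟩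

theorem Geo.down (hy : S.O y) : ∃ x, ∃ w : G.Walk x y, S.O x ∧ 1 ≤ w.length ∧
    w.length ≤ S.n0 ∧ S.l y = S.l x + w.length := by
  obtain ⟨u, w, hu, h1, h2, h3⟩ := S.up' S.o
  obtain ⟨g, hg, rfl⟩ := hu.exists_map hy
  obtain ⟨w', e1, e2⟩ := lev0_map hg w h3
  exact ⟨g S.o, w', S.O_o.map hg, e1 ▸ h1, e1 ▸ h2, e2⟩

/-- tight cycles -/
theorem Geo.cyc (S : Geo G) : ∃ l₀ : ℕ, 1 ≤ l₀ ∧ ∀ x, S.O x → ∀ k : ℕ, ∃ y, ∃ w : G.Walk x y,
    S.O y ∧ w.length = k * l₀ ∧ S.l y = S.l x + w.length := by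
  obtain ⟨u, w, hu, h1, _, h3⟩ := S.up' S.o
  refine ⟨w.length, h1, fun x hx k => ?_⟩
  induction k with
  | zero => exact ⟨x, .nil, hx, by simp, by simp⟩
  | succ k ih =>
    obtain ⟨y, w₁, hy, e1, e2⟩ := ih
    obtain ⟨g, hg, rfl⟩ := hy
    obtain ⟨w', e3, e4⟩ := lev0_map hg w h3
    refine ⟨g u, w₁.append w', hu.map hg, ?_, ?_⟩
    · rw [Walk.length_append, e1, e3]; ring
    · rw [Walk.length_append]; push_cast; linarith

/-- descend below a given level -/
theorem Geo.descend (hy : S.O y) {t : ℝ} (ht : t ≤ S.l y) : ∃ x, ∃ w : G.Walk x y, S.O x ∧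
    S.l x ≤ t ∧ t - S.n0 ≤ S.l x ∧ S.l y = S.l x + w.length := by
  have key : ∀ n : ℕ, ∀ y, S.O y → t - S.n0 ≤ S.l y → S.l y - t ≤ n → ∃ x, ∃ w : G.Walk x y,
      S.O x ∧ S.l x ≤ t ∧ t - S.n0 ≤ S.l x ∧ S.l y = S.l x + w.length := by
    intro n
    induction n with
    | zero =>
      intro y hy h1 h2
      exact ⟨y, .nil, hy, by simpa using h2, h1, by simp⟩
    | succ n ih =>
      intro y hy h1 h2
      by_cases h : S.l y ≤ t
      · exact ⟨y, .nil, hy, h, h1, by simp⟩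
      · obtain ⟨u, w, hu, a1, a2, a3⟩ := Geo.down hy
        have b1 : (1 : ℝ) ≤ w.length := by exact_mod_cast a1
        have b2 : (w.length : ℝ) ≤ S.n0 := by exact_mod_cast a2
        push_cast at h2
        obtain ⟨x, w', hx, c1, c2, c3⟩ := ih u hu (by linarith) (by linarith)
        refine ⟨x, w'.append w, hx, c1, c2, ?_⟩
        rw [Walk.length_append]; push_cast; linarith
  obtain ⟨n, hn⟩ := exists_nat_ge (S.l y - t)
  have h0 : (0 : ℝ) ≤ S.n0 := Nat.cast_nonneg _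
  exact key n y hy (by linarith) hn

/-- climb to the first vertex of the base orbit above a given level -/
theorem Geo.route (S : Geo G) (v : V) {τ : ℝ} (h : S.l v < τ) : ∃ u, ∃ w : G.Walk v u, S.O u ∧
    τ ≤ S.l u ∧ S.l u < τ + S.n0 ∧ S.l u = S.l v + w.length ∧
    ∀ z ∈ w.support, S.O z → τ ≤ S.l z → z = u := by
  classical
  have key : ∀ n : ℕ, ∀ v, S.l v < τ → τ - S.l v ≤ n → ∃ u, ∃ w : G.Walk v u, S.O u ∧
      τ ≤ S.l u ∧ S.l u < τ + S.n0 ∧ S.l u = S.l v + w.length := by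
    intro n
    induction n with
    | zero =>
      intro v h1 h2
      exfalso
      push_cast at h2
      linarith
    | succ n ih =>
      intro v h1 h2
      obtain ⟨u, w, hu, a1, a2, a3⟩ := S.up' v
      have b1 : (1 : ℝ) ≤ w.length := by exact_mod_cast a1
      have b2 : (w.length : ℝ) ≤ S.n0 := by exact_mod_cast a2
      by_cases h : τ ≤ S.l u
      · exact ⟨u, w, hu, h, by linarith, a3⟩
      · push_cast at h2
        obtain ⟨x, w', hx, c1, c2, c3⟩ := ih u (by linarith) (by linarith)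
        refine ⟨x, w.append w', hx, c1, c2, ?_⟩
        rw [Walk.length_append]; push_cast; linarith
  have key2 : ∀ n : ℕ, ∀ u, ∀ w : G.Walk v u, w.length = n → S.O u → τ ≤ S.l u →
      S.l u < τ + S.n0 → S.l u = S.l v + w.length → ∃ u, ∃ w : G.Walk v u, S.O u ∧
      τ ≤ S.l u ∧ S.l u < τ + S.n0 ∧ S.l u = S.l v + w.length ∧
      ∀ z ∈ w.support, S.O z → τ ≤ S.l z → z = u := by
    intro n
    induction n using Nat.strong_induction_on with
    | _ n ih =>
      intro u w hn hu a1 a2 a3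
      by_cases hh : ∀ z ∈ w.support, S.O z → τ ≤ S.l z → z = u
      · exact ⟨u, w, hu, a1, a2, a3, hh⟩
      · push Not at hh
        obtain ⟨z, hz, b1, b2, b3⟩ := hh
        obtain ⟨c1, c2⟩ := lev0_take S w a3 hz
        have c3 : 1 ≤ (w.dropUntil z hz).length := by
          rcases Nat.eq_zero_or_pos (w.dropUntil z hz).length with h0 | h0
          · exact absurd (Walk.eq_of_length_eq_zero h0) b3
          · exact h0
        have c4 : (1 : ℝ) ≤ (w.dropUntil z hz).length := by exact_mod_cast c3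
        have c5 : ((w.takeUntil z hz).length : ℝ) < w.length := by linarith
        have c6 : (w.takeUntil z hz).length < n := by rw [← hn]; exact_mod_cast c5
        exact ih _ c6 z (w.takeUntil z hz) rfl b1 b2 (by linarith) c1
  obtain ⟨n, hn⟩ := exists_nat_ge (τ - S.l v)
  obtain ⟨u, w, hu, a1, a2, a3⟩ := key n v h hn
  exact key2 _ u w rfl hu a1 a2 a3

theorem Geo.tight_support (S : Geo G) (w : G.Walk x y) (ht : S.l y = S.l x + w.length)
    (hz : z ∈ w.support) : (z = x ∨ S.l x + 1 ≤ S.l z) ∧ (z = y ∨ S.l z + 1 ≤ S.l y) := by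
  classical
  obtain ⟨c1, c2⟩ := lev0_take S w ht hz
  constructor
  · rcases Nat.eq_zero_or_pos (w.takeUntil z hz).length with h0 | h0
    · exact Or.inl (Walk.eq_of_length_eq_zero h0).symm
    · have : (1 : ℝ) ≤ (w.takeUntil z hz).length := by exact_mod_cast h0
      exact Or.inr (by linarith)
  · rcases Nat.eq_zero_or_pos (w.dropUntil z hz).length with h0 | h0
    · exact Or.inl (Walk.eq_of_length_eq_zero h0)
    · have : (1 : ℝ) ≤ (w.dropUntil z hz).length := by exact_mod_cast h0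
      exact Or.inr (by linarith)

theorem lev0_edges (S : Geo G) (w : G.Walk x y) (ht : S.l y = S.l x + w.length) {a c : ℝ}
    (ha : a ≤ S.l x) (hc : S.l y < c + 1) : ∀ e ∈ w.edges, e ∈ S.E a c := by
  intro e he
  induction e using Sym2.ind with
  | h u v =>
    have hu := w.fst_mem_support_of_mem_edges he
    have hv := w.snd_mem_support_of_mem_edges he
    have huv : G.Adj u v := w.adj_of_mem_edges he
    obtain ⟨u1, u2⟩ := S.tight_support w ht hu
    obtain ⟨v1, v2⟩ := S.tight_support w ht hv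
    refine ⟨fun z hz => ?_, ?_⟩
    · rcases Sym2.mem_iff.1 hz with rfl | rfl
      · rcases u1 with rfl | u1
        · exact ha
        · linarith
      · rcases v1 with rfl | v1
        · exact ha
        · linarith
    · rcases u2 with rfl | u2
      · rcases v2 with rfl | v2
        · exact absurd huv (G.irrefl)
        · exact ⟨v, by simp, by linarith⟩
      · exact ⟨u, by simp, by linarith⟩

theorem Geo.tight_edges (S : Geo G) (w : G.Walk x y) (ht : S.l y = S.l x + w.length) :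
    ∀ e ∈ w.edges, e ∈ S.E (S.l x) (S.l y) := lev0_edges S w ht le_rfl (by linarith)

theorem Geo.tight_edges' (S : Geo G) (w : G.Walk x y) (ht : S.l y = S.l x + w.length) {a c : ℝ}
    (ha : a ≤ S.l x) (hc : S.l y < c + 1) : ∀ e ∈ w.edges, e ∈ S.E a c := lev0_edges S w ht ha hc

theorem Geo.mem_Ge {s : ℝ} : s(x, y) ∈ S.Ge s ↔ s ≤ S.l x ∧ s ≤ S.l y := by simp [Geo.Ge]

theorem Geo.mem_Lt {t : ℝ} : s(x, y) ∈ S.Lt t ↔ S.l x < t ∨ S.l y < t := by simp [Geo.Lt]

theorem Geo.compl_Lt (S : Geo G) (t : ℝ) : (S.Lt t)ᶜ = S.Ge t := by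
  ext e
  simp [Geo.Lt, Geo.Ge]

theorem Geo.Ge_mono (S : Geo G) {s s' : ℝ} (h : s' ≤ s) : S.Ge s ⊆ S.Ge s' := fun _ he z hz => h.trans (he z hz)

theorem Geo.Lt_mono (S : Geo G) {t t' : ℝ} (h : t ≤ t') : S.Lt t ⊆ S.Lt t' := fun _ ⟨z, hz, h1⟩ => ⟨z, hz, h1.trans_le h⟩

theorem Geo.E_mono (S : Geo G) {s s' t t' : ℝ} (hs : s' ≤ s) (ht : t ≤ t') :
    S.E s t ⊆ S.E s' t' := Set.inter_subset_inter (S.Ge_mono hs) (S.Lt_mono ht)

theorem Geo.disjoint_Lt_Ge (S : Geo G) {t s : ℝ} (h : t ≤ s) : Disjoint (S.Lt t) (S.Ge s) := by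
  rw [Set.disjoint_left]
  rintro e ⟨z, hz, h1⟩ h2
  have := h2 z hz
  linarith

theorem Geo.Top_mono (S : Geo G) {t t' : ℝ} (h : t ≤ t') : S.Top t' ⊆ S.Top t := fun _ hv => h.trans hv

theorem Geo.adj_Lt {t : ℝ} (h : G.Adj x y) (he : s(x, y) ∈ S.Lt t) :
    S.l x < t + 1 ∧ S.l y < t + 1 := by
  have h1 := S.lip _ _ h
  have h2 := S.lip _ _ h.symm
  rcases Geo.mem_Lt.1 he with h3 | h3
  · constructor <;> linarith
  · constructor <;> linarith

omit [G.LocallyFinite] in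
theorem lev0_fst (h : ω ∈ Cn G F x y) : y = x ∨ ∃ a, G.Adj x a ∧ s(x, a) ∈ F := by
  obtain ⟨w, hw⟩ := h
  cases w with
  | nil => exact Or.inl rfl
  | cons h p => exact Or.inr ⟨_, h, (hw _ (by simp)).1⟩

theorem Geo.Cn_Ge {s : ℝ} (hF : F ⊆ S.Ge s) (h : ω ∈ Cn G F x y) :
    y = x ∨ (s ≤ S.l x ∧ s ≤ S.l y) := by
  rcases lev0_fst h with h1 | ⟨a, _, h1⟩
  · exact Or.inl h1
  · rcases lev0_fst (Cn_symm h) with h2 | ⟨b, _, h2⟩
    · exact Or.inl h2.symm
    · exact Or.inr ⟨(Geo.mem_Ge.1 (hF h1)).1, (Geo.mem_Ge.1 (hF h2)).1⟩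

theorem Geo.Cn_Lt {t : ℝ} (hF : F ⊆ S.Lt t) (h : ω ∈ Cn G F x y) :
    y = x ∨ (S.l x < t + 1 ∧ S.l y < t + 1) := by
  rcases lev0_fst h with h1 | ⟨a, ha, h1⟩
  · exact Or.inl h1
  · rcases lev0_fst (Cn_symm h) with h2 | ⟨b, hb, h2⟩
    · exact Or.inl h2.symm
    · exact Or.inr ⟨(Geo.adj_Lt ha (hF h1)).1, (Geo.adj_Lt hb (hF h2)).1⟩

theorem lev0_first (S : Geo G) {c : ℝ} (w : G.Walk x y) (hw : ∀ e ∈ w.edges, e ∈ F ∧ ω e = true)
    (hy : c ≤ S.l y) : ∃ u, c ≤ S.l u ∧ (u = x ∨ S.l u < c + 1) ∧ ∃ w' : G.Walk x u,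
      w'.length ≤ w.length ∧ ∀ e ∈ w'.edges, e ∈ F ∩ S.Lt c ∧ ω e = true := by
  induction w with
  | nil => exact ⟨_, hy, Or.inl rfl, .nil, le_rfl, by simp⟩
  | @cons x v y h p ih =>
    by_cases hx : c ≤ S.l x
    · exact ⟨x, hx, Or.inl rfl, .nil, by simp, by simp⟩
    · push Not at hx
      obtain ⟨u, a1, a2, w', a3, a4⟩ := ih (fun e he => hw e (by simp [he])) hy
      have h1 := S.lip _ _ h
      refine ⟨u, a1, Or.inr ?_, .cons h w', by simpa using a3, fun e he => ?_⟩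
      · rcases a2 with rfl | a2
        · linarith
        · exact a2
      · rw [Walk.edges_cons, List.mem_cons] at he
        rcases he with rfl | he
        · have h2 := hw s(x, v) (by simp)
          exact ⟨⟨h2.1, Geo.mem_Lt.2 (Or.inl hx)⟩, h2.2⟩
        · exact a4 e he

/-- first passage through a level -/
theorem Geo.first_pass (S : Geo G) {c : ℝ} {R : ℕ∞} (h : ω ∈ CnL G F R x y) (hy : c ≤ S.l y) :
    ∃ u, c ≤ S.l u ∧ (u = x ∨ S.l u < c + 1) ∧ ω ∈ CnL G (F ∩ S.Lt c) R x u := by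
  obtain ⟨w, h1, hw⟩ := h
  obtain ⟨u, a1, a2, w', a3, a4⟩ := lev0_first S w hw hy
  exact ⟨u, a1, a2, w', le_trans (by exact_mod_cast a3) h1, a4⟩

theorem Geo.Rch_first (S : Geo G) {c c' : ℝ} (h : c' ≤ c) :
    Rch G F x (S.Top c) ⊆ Rch G (F ∩ S.Lt c') x (S.Top c') := by
  rintro ω ⟨z, hz, w, hw⟩
  obtain ⟨u, a1, _, w', _, a4⟩ := lev0_first S w hw (h.trans hz)
  exact ⟨u, a1, w', a4⟩

end

end Pool.Agent.P.MP_3aa27f_pr.F
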