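import Pool.Agent.P.MP_3aa27f_pr.F.Cnx
import Pool.Agent.P.MP_3aa27f_pr.F.Lev0

/-! Potentials and window bounds. -/

open MeasureTheory unitInterval SimpleGraph
open ENNReal (ofReal)
open scoped ENNReal

namespace Pool.Agent.P.MP_3aa27f_pr.F

variable {V : Type} {G : SimpleGraph V} [G.LocallyFinite] [Countable V] {S : Geo G} {p : I}
variable {F : Set (Sym2 V)} {x y z : V} {ω : Cf V}

section

omit [Countable V]

theorem Geo.Phi_mono (S : Geo G) (ς t : ℝ) {C C' : Set V} (h : C ⊆ C') :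
    S.Phi ς t C ≤ S.Phi ς t C' :=
  ENNReal.tsum_le_tsum fun w => Set.indicator_le_indicator_of_subset h (fun _ => zero_le) w

theorem Geo.Phi_union_le (S : Geo G) (ς t : ℝ) (C C' : Set V) :
    S.Phi ς t (C ∪ C') ≤ S.Phi ς t C + S.Phi ς t C' := by
  unfold Geo.Phi
  rw [← ENNReal.tsum_add]
  refine ENNReal.tsum_le_tsum fun w => ?_
  by_cases h : w ∈ C
  · rw [Set.indicator_of_mem (Set.mem_union_left _ h), Set.indicator_of_mem h]
    exact le_self_add
  · by_cases h' : w ∈ C'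
    · rw [Set.indicator_of_mem (Set.mem_union_right _ h'), Set.indicator_of_mem h']
      exact le_add_self
    · rw [Set.indicator_of_notMem (by simp [h, h'])]
      exact zero_le

theorem Geo.Phi_shift (S : Geo G) {ς : ℝ} (h0 : 0 < ς) (t t' : ℝ) (C : Set V) :
    S.Phi ς t' C = ofReal (ς ^ (t' - t)) * S.Phi ς t C := by
  unfold Geo.Phi
  rw [← ENNReal.tsum_mul_left]
  refine tsum_congr fun w => ?_
  by_cases h : w ∈ C
  · rw [Set.indicator_of_mem h, Set.indicator_of_mem h,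
      ← ENNReal.ofReal_mul (Real.rpow_nonneg h0.le _), ← Real.rpow_add h0]
    congr 2; ring
  · rw [Set.indicator_of_notMem h, Set.indicator_of_notMem h, mul_zero]

theorem Geo.Phi_anti (S : Geo G) {ς : ℝ} (h0 : 0 < ς) (h1 : ς ≤ 1) {t t' : ℝ} (h : t ≤ t')
    (C : Set V) : S.Phi ς t' C ≤ S.Phi ς t C :=
  ENNReal.tsum_le_tsum fun w => Set.indicator_le_indicator (ENNReal.ofReal_le_ofReal
    (Real.rpow_le_rpow_of_exponent_ge h0 h1 (by linarith)))

theorem Geo.Phi_le_cnt (S : Geo G) {ς : ℝ} (h0 : 0 < ς) (h1 : ς ≤ 1) {t : ℝ} {C : Set V}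
    (h : ∀ w ∈ C, S.l w ≤ t) : S.Phi ς t C ≤ cnt C := by
  refine (tsum_indicator_le (c := 1) C fun w hw => ?_).trans_eq (one_mul _)
  rw [ENNReal.ofReal_le_one]
  exact Real.rpow_le_one h0.le h1 (by linarith [h w hw])

theorem Geo.finite_of_Phi (S : Geo G) {ς : ℝ} (h0 : 0 < ς) (h1 : ς ≤ 1) {a t : ℝ} {C : Set V}
    (h : ∀ w ∈ C, a ≤ S.l w) (hC : S.Phi ς t C ≠ ⊤) : C.Finite := by
  refine finite_of_cnt_ne_top fun hc => hC (top_le_iff.1 ?_)
  have h2 : ofReal (ς ^ (t - a)) * cnt C ≤ S.Phi ς t C := by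
    unfold cnt Geo.Phi
    rw [← ENNReal.tsum_mul_left]
    refine ENNReal.tsum_le_tsum fun w => ?_
    by_cases hw : w ∈ C
    · rw [Set.indicator_of_mem hw, Set.indicator_of_mem hw, Pi.one_apply, mul_one]
      exact ENNReal.ofReal_le_ofReal
        (Real.rpow_le_rpow_of_exponent_ge h0 h1 (by linarith [h w hw]))
    · rw [Set.indicator_of_notMem hw, mul_zero]
      exact zero_le
  rwa [hc, ENNReal.mul_top (ENNReal.ofReal_pos.2 (Real.rpow_pos_of_pos h0 _)).ne'] at h2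

theorem Geo.Cl_finite_of_Phi (S : Geo G) {ς : ℝ} (h0 : 0 < ς) (h1 : ς ≤ 1) {a t t' : ℝ}
    (hC : S.Phi ς t' (S.Cl a x t ω) ≠ ⊤) : (S.Cl a x t ω).Finite := by
  refine S.finite_of_Phi h0 h1 (a := min a (S.l x)) (fun w hw => ?_) hC
  rcases Geo.Cn_Ge (S := S) (s := a) Set.inter_subset_left hw with h | h
  · rw [h]; exact min_le_right _ _
  · exact (min_le_left _ _).trans h.2

theorem Geo.BB.mono {ς h h' B B' : ℝ} {R R' : ℕ∞} (h0 : 0 < ς) (hB : S.BB p ς h R B)
    (hh : h' ≤ h) (hR : R' ≤ R) (hB' : B ≤ B') : S.BB p ς h' R' B' := by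
  intro x a c e h1 h2
  refine le_trans (ENNReal.tsum_le_tsum fun y =>
    Set.indicator_le_indicator (tauL_mono le_rfl hR)) ((hB x a c e (h1.trans hh) h2).trans ?_)
  refine ENNReal.ofReal_le_ofReal ?_
  have := Real.rpow_nonneg h0.le (e - S.l x)
  have := Real.rpow_nonneg h0.le (-((c - e) / 2))
  gcongr

theorem Geo.GB.mono {ς h h' B B' : ℝ} (hB : S.GB p ς h B) (hh : h' ≤ h) (hB' : B ≤ B') :
    S.GB p ς h' B' := fun x a c h1 =>
  (hB x a c (h1.trans hh)).trans (ENNReal.ofReal_le_ofReal hB')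

theorem Geo.BB_top {ς h B : ℝ} (hB : ∀ n : ℕ, S.BB p ς h n B) : S.BB p ς h ⊤ B := by
  intro x a c e h1 h2
  rw [ENNReal.tsum_eq_iSup_sum]
  refine iSup_le fun s => ?_
  have e1 : ∀ y, (S.Win e).indicator (tauL G p (S.E a c) ⊤ x) y =
      ⨆ n : ℕ, (S.Win e).indicator (tauL G p (S.E a c) n x) y := fun y => by
    by_cases hy : y ∈ S.Win e
    · simp only [Set.indicator_of_mem hy, tauL_top, tau_eq_iSup]
    · simp only [Set.indicator_of_notMem hy, ciSup_const]
  simp only [e1]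
  rw [ENNReal.finsetSum_iSup_of_monotone
    (f := fun y (n : ℕ) => (S.Win e).indicator (tauL G p (S.E a c) n x) y) fun y m n hmn =>
    Set.indicator_le_indicator (tauL_mono le_rfl (by exact_mod_cast hmn))]
  exact iSup_le fun n => (ENNReal.sum_le_tsum s).trans (hB n x a c e h1 h2)

theorem Geo.BB_apriori (S : Geo G) (p : I) {ς : ℝ} (h0 : 0 < ς) (h1 : ς ≤ 1) (h : ℝ) (n : ℕ) :
    S.BB p ς h n ((((S.D : ℝ) + 1) / ς) ^ n) := by
  intro x a c e _ h2
  by_cases hw : ∃ y ∈ S.Win e, G.dist x y ≤ n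
  · obtain ⟨y, hy, hd⟩ := hw
    have h3 : e - S.l x ≤ n := by
      have a1 := (abs_le.1 (S.l_dist x y)).2
      have a2 : (G.dist x y : ℝ) ≤ n := by exact_mod_cast hd
      linarith [hy.1]
    refine le_trans (ENNReal.tsum_le_tsum fun z => ?_) ((cnt_ball_le S x n).trans ?_)
    · by_cases hz : G.dist x z ≤ n
      · rw [Set.indicator_of_mem (s := {z | G.dist x z ≤ n}) hz]
        exact Set.indicator_apply_le' (fun _ => tauL_le_one) fun _ => zero_le
      · refine le_trans (Set.indicator_apply_le' (fun _ => ?_) fun _ => le_rfl) zero_le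
        have : CnL G (S.E a c) n x z = ∅ :=
          Set.eq_empty_of_forall_notMem fun ω hω => hz (CnL_dist hω)
        rw [tauL, this, measure_empty]
    · refine ENNReal.ofReal_le_ofReal ?_
      have a1 : ς ^ n ≤ ς ^ (e - S.l x) := by
        rw [← Real.rpow_natCast]
        exact Real.rpow_le_rpow_of_exponent_ge h0 h1 h3
      have a2 : 1 ≤ ς ^ (-((c - e) / 2)) :=
        Real.one_le_rpow_of_pos_of_le_one_of_nonpos h0 h1 (by linarith)
      calc ((S.D : ℝ) + 1) ^ n = (((S.D : ℝ) + 1) / ς) ^ n * ς ^ n * 1 := by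
            rw [div_pow]; field_simp
        _ ≤ _ := by
            have := Real.rpow_nonneg h0.le (e - S.l x)
            gcongr
  · refine le_trans (le_of_eq (ENNReal.tsum_eq_zero.2 fun z => ?_)) zero_le
    by_cases hz : z ∈ S.Win e
    · have : CnL G (S.E a c) n x z = ∅ :=
        Set.eq_empty_of_forall_notMem fun ω hω => hw ⟨z, hz, CnL_dist hω⟩
      rw [Set.indicator_of_mem hz, tauL, this, measure_empty]
    · exact Set.indicator_of_notMem hz _

end

/-- the expected number of points in the top window -/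
theorem Geo.BB.top {ς h B : ℝ} (h0 : 0 < ς) (h1 : ς ≤ 1) (hB : S.BB p ς h ⊤ B) (B1 : 1 ≤ B)
    (x : V) {a c : ℝ} (hc : c - a ≤ h) :
    ∑' y, (S.Top c).indicator (tau G p (S.E a c) x) y ≤ ofReal (B * ς ^ (c - S.l x)) := by
  have key : ∀ y, y ≠ x → ¬ (S.l x < c + 1 ∧ S.l y < c + 1) → tau G p (S.E a c) x y = 0 := by
    intro y h2 h3
    have : Cn G (S.E a c) x y = ∅ := Set.eq_empty_of_forall_notMem fun ω hω =>
      (Geo.Cn_Lt (S := S) (t := c) Set.inter_subset_right hω).elim h2 h3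
    rw [tau, this, measure_empty]
  by_cases hx : S.l x < c + 1
  · have h2 := hB x a c c hc le_rfl
    simp only [sub_self, zero_div, neg_zero, Real.rpow_zero, mul_one] at h2
    refine le_trans (ENNReal.tsum_le_tsum fun y => ?_) h2
    refine Set.indicator_apply_le' (fun hy => ?_) fun _ => zero_le
    by_cases hy' : S.l y < c + 1
    · rw [Set.indicator_of_mem (s := S.Win c) ⟨hy, hy'.le⟩, tauL_top]
    · rw [key y (by rintro rfl; exact hy' hx) fun h => hy' h.2]
      exact zero_le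
  · rw [tsum_eq_single x fun y hy => ?_]
    · refine le_trans (Set.indicator_apply_le' (fun _ => tau_le_one) fun _ => zero_le) ?_
      rw [ENNReal.one_le_ofReal]
      exact one_le_mul_of_one_le_of_one_le B1
        (Real.one_le_rpow_of_pos_of_le_one_of_nonpos h0 h1 (by linarith))
    · exact Set.indicator_apply_eq_zero.2 fun _ => key y hy fun h => hx h.1

theorem Geo.BB.fb {ς h B : ℝ} (h0 : 0 < ς) (h1 : ς ≤ 1) (hB : S.BB p ς h ⊤ B) (B1 : 1 ≤ B)
    (m : ℝ) : S.FB p ς m h B := fun w _ _ _ hc =>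
  rch_le_tsum.trans (hB.top h0 h1 B1 w hc)

omit [Countable V] in
theorem lev_tilt {ς h B : ℝ} (h0 : 0 < ς) (hB : S.GB p ς h B) (x : V) {a c : ℝ}
    (hc : c - a ≤ h) (t : ℝ) : ∑' y, tau G p (S.E a c) x y * ofReal (ς ^ (t - S.l y)) ≤
      ofReal (B * ς ^ (t - S.l x)) := by
  rw [ENNReal.ofReal_mul' (Real.rpow_nonneg h0.le _)]
  refine le_trans (le_of_eq ?_) (mul_le_mul_left (hB x a c hc) _)
  rw [← ENNReal.tsum_mul_right]
  refine tsum_congr fun y => ?_
  rw [mul_assoc, ← ENNReal.ofReal_mul (Real.rpow_nonneg h0.le _), ← Real.rpow_add h0]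
  congr 3; ring

theorem Geo.GB.top {ς h B : ℝ} (h0 : 0 < ς) (h1 : ς ≤ 1) (hB : S.GB p ς h B) (x : V) {a c : ℝ}
    (hc : c - a ≤ h) :
    ∑' y, (S.Top c).indicator (tau G p (S.E a c) x) y ≤ ofReal (B * ς ^ (c - S.l x)) := by
  refine le_trans (ENNReal.tsum_le_tsum fun y => ?_) (lev_tilt h0 hB x hc c)
  refine Set.indicator_apply_le' (fun hy => ?_) fun _ => zero_le
  refine le_mul_of_one_le_right' ?_
  rw [ENNReal.one_le_ofReal]
  exact Real.one_le_rpow_of_pos_of_le_one_of_nonpos h0 h1 (sub_nonpos.2 hy)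

theorem Geo.GB.fb {ς h B : ℝ} (h0 : 0 < ς) (h1 : ς ≤ 1) (hB : S.GB p ς h B) (m : ℝ) :
    S.FB p ς m h B := fun w _ _ _ hc => rch_le_tsum.trans (hB.top h0 h1 w hc)

/-- the expected potential of a cluster -/
theorem Geo.GB.phi {ς h B : ℝ} (h0 : 0 < ς) (hB : S.GB p ς h B) (x : V) {a c : ℝ}
    (hc : c - a ≤ h) (t : ℝ) :
    ∫⁻ ω, S.Phi ς t (S.Cl a x c ω) ∂mu V p ≤ ofReal (B * ς ^ (t - S.l x)) := by
  have := lintegral_tsum_Kl (G := G) (p := p) (F := S.E a c) (x := x) Set.univ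
    fun w => ofReal (ς ^ (t - S.l w))
  simp only [Set.inter_univ, Set.indicator_univ] at this
  exact this.trans_le (lev_tilt h0 hB x hc t)

theorem lev_meas (S : Geo G) (ς t : ℝ) (F : Set (Sym2 V)) (x : V) :
    Measurable fun ω => S.Phi ς t (Kl G F x ω) := by
  have := measurable_tsum_Kl (G := G) (F := F) (x := x) Set.univ fun w => ofReal (ς ^ (t - S.l w))
  simp only [Set.inter_univ] at this
  exact this

theorem Geo.GB.ae_finite {ς h B : ℝ} (h0 : 0 < ς) (h1 : ς ≤ 1) (hB : S.GB p ς h B) (x : V)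
    {a c : ℝ} (hc : c - a ≤ h) : ∀ᵐ ω ∂mu V p, (S.Cl a x c ω).Finite := by
  have := ae_lt_top (lev_meas S ς 0 (S.E a c) x)
    ((hB.phi h0 x hc 0).trans_lt ENNReal.ofReal_lt_top).ne
  filter_upwards [this] with ω hω using S.Cl_finite_of_Phi h0 h1 hω.ne

theorem Geo.measurable_Phi (S : Geo G) (ς t : ℝ) (F : Set (Sym2 V)) (x : V) :
    Measurable fun ω => S.Phi ς t (Kl G F x ω) := lev_meas S ς t F x

end Pool.Agent.P.MP_3aa27f_pr.F
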