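import Pool.Agent.P.MP_3aa27f_pr.F.NB
import Pool.Agent.P.MP_3aa27f_pr.F.Dec
import Pool.Agent.P.MP_3aa27f_pr.F.Lev

/-! Iterated block strategies. -/

open MeasureTheory unitInterval SimpleGraph
open ENNReal (ofReal)
open scoped ENNReal

namespace Pool.Agent.P.MP_3aa27f_pr.F

variable {V : Type} {G : SimpleGraph V} [G.LocallyFinite] [Countable V] {S : Geo G} {p : I}
variable (C : Chain S p)

theorem Chain.wN_meas (n : ℕ) (x y : V) : Measurable (C.wN n x y) := by
  induction n generalizing x with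
  | zero => exact measurable_const
  | succ n ih => exact Measurable.tsum fun u => (C.meas x u).mul (ih u)

omit [Countable V] in
theorem Chain.wN_sum_le (n : ℕ) (x : V) (ω : Cf V) : ∑' y, C.wN n x y ω ≤ 1 := by
  induction n generalizing x with
  | zero => simpa [Chain.wN] using (tsum_kone_mul x fun _ => 1).le
  | succ n ih =>
    simp only [Chain.wN]
    rw [ENNReal.tsum_comm]
    refine le_trans (ENNReal.tsum_le_tsum fun u => ?_) (C.sum_le x ω)
    rw [ENNReal.tsum_mul_left]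
    exact mul_le_of_le_one_right' (ih u)

omit [Countable V] in
theorem Chain.wN_supp {n : ℕ} {x y : V} {ω : Cf V} (h : C.wN n x y ω ≠ 0) :
    (S.O x ↔ S.O y) ∧ S.l y = S.l x + n * C.J ∧
      ω ∈ CnL G (S.E (S.l x) (S.l x + n * C.J)) (n * C.L : ℕ) x y := by
  induction n generalizing x with
  | zero =>
    have : x = y := by_contra fun h1 => h (kone_ne h1)
    subst this
    exact ⟨Iff.rfl, by simp, CnL_refl _ _ _ _⟩
  | succ n ih =>
    obtain ⟨u, hu⟩ : ∃ u, C.w x u ω * C.wN n u y ω ≠ 0 := by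
      by_contra h1
      exact h (ENNReal.tsum_eq_zero.2 fun u => by_contra fun h2 => h1 ⟨u, h2⟩)
    obtain ⟨a1, a2, a3, a4⟩ := C.supp x u ω (left_ne_zero_of_mul hu)
    obtain ⟨b1, b2, b3⟩ := ih (right_ne_zero_of_mul hu)
    have J0 : 0 ≤ C.J := le_trans zero_le_one C.one_le_J
    have nJ : 0 ≤ n * C.J := mul_nonneg (Nat.cast_nonneg _) J0
    refine ⟨iff_of_true a1 (b1.1 a2), by rw [b2, a3]; push_cast; ring, ?_⟩
    have := CnL_trans (F := S.E (S.l x) (S.l x + (n + 1 : ℕ) * C.J))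
      (CnL_mono (S.E_mono le_rfl (by push_cast; linarith)) le_rfl a4)
      (CnL_mono (S.E_mono (by linarith) (by push_cast; linarith)) le_rfl b3)
    refine CnL_mono le_rfl (le_of_eq ?_) this
    push_cast; ring

omit [Countable V] in
theorem chn_step {n : ℕ} {y : V} (ih : ∀ u, DependsOn (C.wN n u y) (S.Ge (S.l u))) (x : V) :
    DependsOn (C.wN (n + 1) x y)
      (S.E (S.l x) (S.l x + C.J) ∩ EIn {z | G.dist x z ≤ C.L} ∪ S.Ge (S.l x + C.J)) := by
  intro ω ω' h
  refine tsum_congr fun u => ?_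
  rw [← C.dep x u fun e he => h e (Or.inl he)]
  by_cases h0 : C.w x u ω = 0
  · rw [h0, zero_mul, zero_mul]
  · rw [ih u fun e he => h e (Or.inr ((C.supp x u ω h0).2.2.1 ▸ he))]

omit [Countable V] in
theorem Chain.wN_dep (n : ℕ) (x y : V) : DependsOn (C.wN n x y) (S.Ge (S.l x)) := by
  induction n generalizing x with
  | zero => exact fun _ _ _ => rfl
  | succ n ih =>
    exact (chn_step C ih x).mono (Set.union_subset (fun e he => he.1.1)
      (S.Ge_mono (by linarith [C.one_le_J])))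

omit [Countable V] in
theorem Chain.wN_dep' (n : ℕ) (x y : V) : DependsOn (C.wN n x y)
    (S.E (S.l x) (S.l x + C.J) ∩ EIn {z | G.dist x z ≤ C.L} ∪ S.Ge (S.l x + C.J)) := by
  cases n with
  | zero => exact fun _ _ _ => rfl
  | succ n => exact chn_step C (fun u => C.wN_dep n u y) x

theorem Chain.lintegral_wN (n : ℕ) (x y : V) :
    ∫⁻ ω, C.wN n x y ω ∂mu V p = kpow C.Q n x y := by
  induction n generalizing x with
  | zero => simp [Chain.wN, kpow]
  | succ n ih =>
    simp only [Chain.wN, kpow, kmul]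
    rw [lintegral_tsum fun u => ((C.meas x u).fun_mul (C.wN_meas n u y)).aemeasurable]
    refine tsum_congr fun u => ?_
    by_cases h0 : ∀ ω, C.w x u ω = 0
    · simp [Chain.Q, h0]
    · obtain ⟨ω, hω⟩ := not_forall.1 h0
      rw [← ih u]
      exact lintegral_indep _ (C.meas x u) (C.wN_meas n u y) (C.dep x u) (C.wN_dep n u y)
        ((S.disjoint_Lt_Ge (C.supp x u ω hω).2.2.1.ge).mono_left fun e he => he.1.2)

omit [Countable V] in
theorem Chain.Q_supp {x y : V} (h : C.Q x y ≠ 0) : S.O x ∧ S.O y ∧ S.l y = S.l x + C.J := by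
  obtain ⟨ω, hω⟩ : ∃ ω, C.w x y ω ≠ 0 := by
    by_contra h1
    have : ∀ ω, C.w x y ω = 0 := fun ω => by_contra fun h2 => h1 ⟨ω, h2⟩
    exact h (by simp [Chain.Q, this])
  have := C.supp x y ω hω
  exact ⟨this.1, this.2.1, this.2.2.1⟩

omit [Countable V] in
theorem Chain.Qn_supp {n : ℕ} {x y : V} (h : kpow C.Q n x y ≠ 0) :
    (S.O x ↔ S.O y) ∧ S.l y = S.l x + n * C.J :=
  kpow_supp (K := C.Q) (A := S.O) (φ := S.l) (fun _ _ => C.Q_supp) n h

omit [Countable V] in
theorem Chain.Qn_row (n : ℕ) {x : V} (hx : S.O x) : ∑' y, kpow C.Q n x y = ofReal (C.q ^ n) := by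
  rw [ENNReal.ofReal_pow C.q0.le]
  exact kpow_row_eq (K := C.Q) (A := S.O) (fun _ _ h => (C.Q_supp h).2.1) C.row n hx

omit [Countable V] in
theorem Chain.Qn_row_le (n : ℕ) (x : V) : ∑' y, kpow C.Q n x y ≤ ofReal (C.q ^ n) := by
  rw [ENNReal.ofReal_pow C.q0.le]
  refine kpow_row_le (fun x => ?_) n x
  by_cases hx : S.O x
  · exact (C.row x hx).le
  · exact (ENNReal.tsum_eq_zero.2 fun y => by_contra fun h => hx (C.Q_supp h).1).trans_le zero_le

omit [Countable V] in
theorem chn_pos (t : ℝ) : 0 ≤ S.b ^ t := Real.rpow_nonneg (le_trans zero_le_one S.one_lt_b.le) _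

omit [Countable V] in
theorem Chain.Qn_col (n : ℕ) {y : V} (hy : S.O y) :
    ∑' x, kpow C.Q n x y = ofReal ((C.q * S.b ^ C.J) ^ n) := by
  rw [ENNReal.ofReal_pow (mul_nonneg C.q0.le (chn_pos _))]
  exact kpow_col_eq (K := C.Q) (A := S.O) (fun _ _ h => (C.Q_supp h).1) C.col n hy

omit [Countable V] in
theorem Chain.Qn_col_le (n : ℕ) (y : V) :
    ∑' x, kpow C.Q n x y ≤ ofReal ((C.q * S.b ^ C.J) ^ n) := by
  rw [ENNReal.ofReal_pow (mul_nonneg C.q0.le (chn_pos _))]
  refine kpow_col_le (fun y => ?_) n y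
  by_cases hy : S.O y
  · exact (C.col y hy).le
  · exact (ENNReal.tsum_eq_zero.2 fun x => by_contra fun h => hy (C.Q_supp h).2.1).trans_le zero_le

omit [Countable V] in
theorem Chain.Qn_norm (n : ℕ) : NB (kpow C.Q n) (ofReal ((C.ρ * C.q * S.b ^ (C.J / 2)) ^ n)) := by
  rw [ENNReal.ofReal_pow (mul_nonneg (mul_nonneg C.ρ0.le C.q0.le) (chn_pos _))]
  exact C.norm.pow n

omit [Countable V] in
theorem Chain.coll_comm (x y : V) : C.coll x y = C.coll y x := by
  simp only [Chain.coll, SimpleGraph.dist_comm (u := x), abs_sub_comm (S.l x)]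

omit [Countable V] in
theorem Chain.coll_self (x : V) : C.coll x x = 1 :=
  if_pos ⟨by simp, by simpa using lt_of_lt_of_le one_pos C.one_le_J⟩

omit [Countable V] in
theorem Chain.coll_le_one (x y : V) : C.coll x y ≤ 1 := by
  unfold Chain.coll
  split_ifs <;> simp

omit [Countable V] in
theorem Chain.coll_lev {x y : V} (h : C.coll x y ≠ 0) : |S.l x - S.l y| < C.J :=
  by_contra fun h1 => h (if_neg fun h2 => h1 h2.2)

omit [Countable V] in
theorem Chain.coll_row (x : V) : ∑' y, C.coll x y ≤ ofReal (((S.D : ℝ) + 1) ^ (2 * C.L)) := by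
  refine le_trans (ENNReal.tsum_le_tsum fun y => ?_) (cnt_ball_le S x (2 * C.L))
  unfold Chain.coll
  split_ifs with h
  · rw [Set.indicator_of_mem (s := {z | G.dist x z ≤ 2 * C.L}) h.1]; rfl
  · exact zero_le

omit [Countable V] in
theorem Chain.coll_norm : NB C.coll (ofReal (((S.D : ℝ) + 1) ^ (2 * C.L))) :=
  NB_rows_cols C.coll_row fun y => by simpa only [C.coll_comm y] using C.coll_row y

/-- decoupling along a chain -/
theorem Chain.decQ (p0 : 0 < (p : ℝ)) (n : ℕ) (v : V) {F : Set (Sym2 V)}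
    (hF : S.E (S.l v) (S.l v + n * C.J) ⊆ F) (Y : Set V) :
    ∑' z, kpow C.Q n v z * rch G p F z Y ≤
      ofReal (((n * C.L : ℕ) + 2) / p) * rch G p F v Y := by
  have h := dec1 (G := G) (F := F) (l := n * C.L) (X := {v}) (Y := Y) p0
  rw [XY_singleton] at h
  refine le_trans ?_ h
  simp only [← C.lintegral_wN, ← lintegral_mul_const _ (C.wN_meas n v _)]
  rw [← lintegral_tsum fun z => ((C.wN_meas n v z).mul_const _).aemeasurable]
  refine lintegral_mono fun ω' => ?_
  refine le_trans ?_ (mul_le_of_le_one_left' (C.wN_sum_le n v ω'))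
  rw [← ENNReal.tsum_mul_right]
  refine ENNReal.tsum_le_tsum fun z => ?_
  by_cases h0 : C.wN n v z ω' = 0
  · rw [h0, zero_mul, zero_mul]
  · refine mul_le_mul_right (measure_mono fun ω hω => ?_) _
    exact ⟨v, rfl, z, CnL_mono hF le_rfl (C.wN_supp h0).2.2, hω⟩

end Pool.Agent.P.MP_3aa27f_pr.F
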