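import Pool.Agent.P.MP_3aa27f_pr.F.NB

/-! Cheeger inequality. -/

open MeasureTheory unitInterval SimpleGraph
open ENNReal (ofReal)
open scoped ENNReal

namespace Pool.Agent.P.MP_3aa27f_pr.F

variable {V : Type}

theorem chee_layer {k : V → V → ℝ} {a : ℝ}
    (hi : ∀ T : Finset V, ∑ x ∈ T, ∑ y ∈ T, k x y ≤ a * T.card) (T : Finset V) :
    ∀ g : V → ℝ, (∀ x ∈ T, 0 ≤ g x) →
      ∑ x ∈ T, ∑ y ∈ T, k x y * min (g x) (g y) ≤ a * ∑ x ∈ T, g x := by
  classical
  induction T using Finset.strongInduction with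
  | H T ih =>
    intro g hg
    rcases T.eq_empty_or_nonempty with rfl | hT
    · simp
    obtain ⟨z, hz, hmin⟩ := T.exists_min_image g hT
    have h1 := ih (T.erase z) (Finset.erase_ssubset hz) (fun x => g x - g z)
      fun x hx => sub_nonneg.2 (hmin x (Finset.mem_of_mem_erase hx))
    have h2 : ∑ x ∈ T.erase z, ∑ y ∈ T.erase z, k x y * min (g x - g z) (g y - g z) =
        ∑ x ∈ T, ∑ y ∈ T, k x y * min (g x - g z) (g y - g z) := by
      rw [← Finset.add_sum_erase T _ hz, Finset.sum_eq_zero (s := T) fun y hy => by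
        rw [sub_self, min_eq_left (sub_nonneg.2 (hmin y hy)), mul_zero], zero_add]
      refine Finset.sum_congr rfl fun x hx => ?_
      rw [← Finset.add_sum_erase T _ hz, sub_self,
        min_eq_right (sub_nonneg.2 (hmin x (Finset.mem_of_mem_erase hx))), mul_zero, zero_add]
    have h3 : ∑ x ∈ T.erase z, (g x - g z) = ∑ x ∈ T, g x - T.card * g z := by
      rw [Finset.sum_erase _ (sub_self _), Finset.sum_sub_distrib, Finset.sum_const, nsmul_eq_mul]
    have h4 : ∑ x ∈ T, ∑ y ∈ T, k x y * min (g x - g z) (g y - g z) =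
        ∑ x ∈ T, ∑ y ∈ T, k x y * min (g x) (g y) - (∑ x ∈ T, ∑ y ∈ T, k x y) * g z := by
      simp only [min_sub_sub_right, mul_sub, Finset.sum_sub_distrib, Finset.sum_mul]
    rw [h2, h3, h4] at h1
    have h5 := mul_le_mul_of_nonneg_right (hi T) (hg z hz)
    linarith

theorem chee_quad {k : V → V → ℝ} (hk : ∀ x y, 0 ≤ k x y) (hs : ∀ x y, k x y = k y x) {d h : ℝ}
    (h0 : 0 < h) (W : Finset V) (hr : ∀ x, ∑ y ∈ W, k x y ≤ d)
    (hi : ∀ T : Finset V, ∑ x ∈ T, ∑ y ∈ T, k x y ≤ (d - h) * T.card) (f : V → ℝ) :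
    |∑ x ∈ W, ∑ y ∈ W, k x y * (f x * f y)| ≤ √(d ^ 2 - h ^ 2) * ∑ x ∈ W, f x ^ 2 := by
  set A := ∑ x ∈ W, ∑ y ∈ W, k x y * (f x * f y) with hA
  set N := ∑ x ∈ W, f x ^ 2 with hN
  set S := ∑ x ∈ W, ∑ y ∈ W, k x y * f x ^ 2 with hS
  have hN0 : 0 ≤ N := Finset.sum_nonneg fun _ _ => sq_nonneg _
  have hS' : ∑ x ∈ W, ∑ y ∈ W, k x y * f y ^ 2 = S := by
    rw [Finset.sum_comm]
    exact Finset.sum_congr rfl fun x _ => Finset.sum_congr rfl fun y _ => by rw [hs]
  have hSN : S ≤ d * N := by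
    rw [hS, hN, Finset.mul_sum]
    exact Finset.sum_le_sum fun x _ => by
      rw [← Finset.sum_mul]; exact mul_le_mul_of_nonneg_right (hr x) (sq_nonneg _)
  have h1 := chee_layer hi W (fun x => f x ^ 2) fun _ _ => sq_nonneg _
  rw [← hN] at h1
  set M := ∑ x ∈ W, ∑ y ∈ W, k x y * min (f x ^ 2) (f y ^ 2) with hM
  have key : ∀ t : ℝ, 2 * |t| * (S - M) ≤ t * t * (S - A) + (S + A) := fun t => by
    have : ∑ x ∈ W, ∑ y ∈ W, (|t| * (2 * (k x y * f x ^ 2) + 2 * (k x y * f y ^ 2) -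
        4 * (k x y * min (f x ^ 2) (f y ^ 2)))) ≤ ∑ x ∈ W, ∑ y ∈ W,
        (t * t * (k x y * f x ^ 2 + k x y * f y ^ 2 - 2 * (k x y * (f x * f y))) +
          (k x y * f x ^ 2 + k x y * f y ^ 2 + 2 * (k x y * (f x * f y)))) := by
      refine Finset.sum_le_sum fun x _ => Finset.sum_le_sum fun y _ => ?_
      have e : t * t = |t| * |t| := (abs_mul_abs_self t).symm
      rw [e]
      rcases le_total (f x ^ 2) (f y ^ 2) with h2 | h2
      · rw [min_eq_left h2]
        nlinarith [mul_nonneg (hk x y) (sq_nonneg (|t| * (f x - f y) + (f x + f y)))]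
      · rw [min_eq_right h2]
        nlinarith [mul_nonneg (hk x y) (sq_nonneg (|t| * (f x - f y) - (f x + f y)))]
    simp only [Finset.sum_add_distrib, Finset.sum_sub_distrib, ← Finset.mul_sum] at this
    rw [hS', ← hS, ← hA, ← hM] at this
    linarith
  have h2 := discrim_le_zero (a := d * N - A) (b := -(2 * h * N)) (c := d * N + A) fun t => by
    have e1 := key t
    have e2 : t * (h * N) ≤ |t| * (h * N) :=
      mul_le_mul_of_nonneg_right (le_abs_self t) (by positivity)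
    have e3 : |t| * (h * N) ≤ |t| * (d * N - M) :=
      mul_le_mul_of_nonneg_left (by linarith) (abs_nonneg t)
    have e4 := mul_nonneg (sq_nonneg (|t| - 1)) (sub_nonneg.2 hSN)
    have e : |t| * |t| = t * t := abs_mul_abs_self t
    nlinarith
  rw [discrim] at h2
  rw [← Real.sqrt_sq hN0, ← Real.sqrt_mul' _ (sq_nonneg N)]
  exact Real.abs_le_sqrt (by nlinarith)

theorem chee_bil {k : V → V → ℝ} (hs : ∀ x y, k x y = k y x) {r : ℝ} (hr : 0 ≤ r) (W : Finset V)
    (hq : ∀ f : V → ℝ, |∑ x ∈ W, ∑ y ∈ W, k x y * (f x * f y)| ≤ r * ∑ x ∈ W, f x ^ 2)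
    (f g : V → ℝ) : ∑ x ∈ W, ∑ y ∈ W, f x * k x y * g y ≤
      r * √(∑ x ∈ W, f x ^ 2) * √(∑ x ∈ W, g x ^ 2) := by
  set B := ∑ x ∈ W, ∑ y ∈ W, f x * k x y * g y with hB
  have hB' : ∑ x ∈ W, ∑ y ∈ W, f y * k x y * g x = B := by
    rw [Finset.sum_comm]
    exact Finset.sum_congr rfl fun x _ => Finset.sum_congr rfl fun y _ => by rw [hs]
  have h2 := discrim_le_zero (a := r * ∑ x ∈ W, f x ^ 2) (b := -(2 * B))
    (c := r * ∑ x ∈ W, g x ^ 2) fun t => by
      have e1 := (abs_le.1 (hq fun x => t * f x + g x)).2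
      have e2 := (abs_le.1 (hq fun x => t * f x - g x)).1
      have e3 : ∑ x ∈ W, ∑ y ∈ W, k x y * ((t * f x + g x) * (t * f y + g y)) -
          ∑ x ∈ W, ∑ y ∈ W, k x y * ((t * f x - g x) * (t * f y - g y)) = 2 * t * (B + B) := by
        nth_rewrite 2 [← hB']
        simp only [hB, ← Finset.sum_add_distrib, ← Finset.sum_sub_distrib, Finset.mul_sum]
        exact Finset.sum_congr rfl fun x _ => Finset.sum_congr rfl fun y _ => by ring
      have e4 : ∑ x ∈ W, (t * f x + g x) ^ 2 + ∑ x ∈ W, (t * f x - g x) ^ 2 =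
          2 * (t * t) * ∑ x ∈ W, f x ^ 2 + 2 * ∑ x ∈ W, g x ^ 2 := by
        simp only [← Finset.sum_add_distrib, Finset.mul_sum]
        exact Finset.sum_congr rfl fun x _ => by ring
      have e5 := congrArg (r * ·) e4
      simp only [mul_add] at e5
      linarith
  rw [discrim] at h2
  have h3 : 0 ≤ ∑ x ∈ W, f x ^ 2 := Finset.sum_nonneg fun _ _ => sq_nonneg _
  rw [← Real.sqrt_sq hr, ← Real.sqrt_mul (sq_nonneg r), ← Real.sqrt_mul (by positivity)]
  exact (le_abs_self B).trans (Real.abs_le_sqrt (by nlinarith))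

theorem chee_n2 {f : V → ℝ≥0∞} (hf : ∀ x, f x ≠ ⊤) (W : Finset V) :
    ofReal √(∑ x ∈ W, (f x).toReal ^ 2) ≤ n2 f := by
  rw [Real.sqrt_eq_rpow, ← ENNReal.ofReal_rpow_of_nonneg
    (Finset.sum_nonneg fun _ _ => sq_nonneg _) (by norm_num),
    ENNReal.ofReal_sum_of_nonneg fun _ _ => sq_nonneg _]
  refine ENNReal.rpow_le_rpow (le_trans (le_of_eq ?_) (ENNReal.sum_le_tsum W)) (by norm_num)
  exact Finset.sum_congr rfl fun x _ => by
    rw [ENNReal.ofReal_pow ENNReal.toReal_nonneg, ENNReal.ofReal_toReal (hf x)]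

theorem chee_le (f : V → ℝ≥0∞) (x : V) : f x ≤ n2 f := by
  have := ENNReal.rpow_le_rpow (ENNReal.le_tsum (f := fun x => f x ^ 2) x)
    (by norm_num : (0 : ℝ) ≤ 1 / 2)
  rwa [← ENNReal.rpow_natCast, ← ENNReal.rpow_mul, show ((2 : ℕ) : ℝ) * (1 / 2) = 1 by norm_num,
    ENNReal.rpow_one] at this

theorem cheeger {K : Ker V} (hs : ∀ x y, K x y = K y x) {d h : ℝ} (h0 : 0 < h) (hd : h ≤ d)
    (hr : ∀ x, ∑' y, K x y ≤ ofReal d)
    (hi : ∀ W : Finset V, ∑ x ∈ W, ∑ y ∈ W, K x y ≤ ofReal ((d - h) * W.card)) :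
    NB K (ofReal (√(d ^ 2 - h ^ 2))) := by
  classical
  refine NB_of_forall_gt fun c hc f g => ?_
  rcases eq_or_ne (n2 f) 0 with hf0 | hf0
  · have : ∀ x, f x = 0 := fun x => le_zero_iff.1 (hf0 ▸ chee_le f x)
    simp [this]
  rcases eq_or_ne (n2 g) 0 with hg0 | hg0
  · have : ∀ x, g x = 0 := fun x => le_zero_iff.1 (hg0 ▸ chee_le g x)
    simp [this]
  have hc0 : c ≠ 0 := (pos_of_gt hc).ne'
  rcases eq_or_ne (n2 f) ⊤ with hf | hf
  · rw [hf, ENNReal.mul_top hc0, ENNReal.top_mul hg0]; exact le_top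
  rcases eq_or_ne (n2 g) ⊤ with hg | hg
  · rw [hg, ENNReal.mul_top (mul_ne_zero hc0 hf0)]; exact le_top
  have hf' : ∀ x, f x ≠ ⊤ := fun x => ne_top_of_le_ne_top hf (chee_le f x)
  have hg' : ∀ x, g x ≠ ⊤ := fun x => ne_top_of_le_ne_top hg (chee_le g x)
  have hK : ∀ x y, K x y ≠ ⊤ := fun x y =>
    ne_top_of_le_ne_top ENNReal.ofReal_ne_top ((ENNReal.le_tsum y).trans (hr x))
  rw [← ENNReal.tsum_prod (f := fun x y => f x * K x y * g y), ENNReal.tsum_eq_iSup_sum]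
  refine iSup_le fun s => ?_
  let W := s.image Prod.fst ∪ s.image Prod.snd
  have hs' : ∀ x y, (K x y).toReal = (K y x).toReal := fun x y => by rw [hs]
  have h1 := chee_bil hs' (Real.sqrt_nonneg _) W (chee_quad (fun _ _ => ENNReal.toReal_nonneg) hs'
    h0 W (fun x => by
      rw [← ENNReal.toReal_sum fun y _ => hK x y]
      exact ENNReal.toReal_le_of_le_ofReal (h0.le.trans hd) ((ENNReal.sum_le_tsum W).trans (hr x)))
    fun T => by
      rw [Finset.sum_congr rfl fun x _ => (ENNReal.toReal_sum fun y _ => hK x y).symm,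
        ← ENNReal.toReal_sum fun x _ => ENNReal.sum_ne_top.2 fun y _ => hK x y]
      exact ENNReal.toReal_le_of_le_ofReal (mul_nonneg (sub_nonneg.2 hd) (Nat.cast_nonneg _))
        (hi T)) (fun x => (f x).toReal) fun x => (g x).toReal
  calc ∑ p ∈ s, f p.1 * K p.1 p.2 * g p.2 ≤ ∑ p ∈ W ×ˢ W, f p.1 * K p.1 p.2 * g p.2 :=
        Finset.sum_le_sum_of_subset fun p hp => Finset.mem_product.2
          ⟨Finset.mem_union_left _ (Finset.mem_image_of_mem _ hp),
            Finset.mem_union_right _ (Finset.mem_image_of_mem _ hp)⟩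
    _ = ofReal (∑ x ∈ W, ∑ y ∈ W, (f x).toReal * (K x y).toReal * (g y).toReal) := by
        rw [Finset.sum_product, ENNReal.ofReal_sum_of_nonneg fun _ _ =>
          Finset.sum_nonneg fun _ _ => by positivity]
        refine Finset.sum_congr rfl fun x _ => ?_
        rw [ENNReal.ofReal_sum_of_nonneg fun _ _ => by positivity]
        refine Finset.sum_congr rfl fun y _ => ?_
        rw [← ENNReal.toReal_mul, ← ENNReal.toReal_mul, ENNReal.ofReal_toReal
          (ENNReal.mul_ne_top (ENNReal.mul_ne_top (hf' x) (hK x y)) (hg' y))]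
    _ ≤ _ := ENNReal.ofReal_le_ofReal h1
    _ ≤ _ := by
        rw [ENNReal.ofReal_mul (by positivity), ENNReal.ofReal_mul (by positivity)]
        exact mul_le_mul' (mul_le_mul' hc.le (chee_n2 hf' W)) (chee_n2 hg' W)

end Pool.Agent.P.MP_3aa27f_pr.F
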