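import Pool.Agent.P.MP_3aa27f_pr.F.NB
import Pool.Agent.P.MP_3aa27f_pr.F.Trn
import Pool.Agent.P.MP_3aa27f_pr.Main

/-! Bounded two-point operators: openness in `p` and non-uniqueness. -/

open MeasureTheory unitInterval SimpleGraph
open ENNReal (ofReal)
open scoped ENNReal

namespace Pool.Agent.P.MP_3aa27f_pr.F

variable {V : Type} {G : SimpleGraph V} [G.LocallyFinite] [Countable V] {S : Geo G} {p : I}

omit [G.LocallyFinite] in
theorem open_norm_zero : NB (tau G 0 Set.univ) 1 := by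
  refine NB_one.mono (fun x y => ?_) le_rfl
  by_cases h : x = y
  · subst h; rw [kone_self]; exact prob_le_one
  · rw [tau, PM_eq_ofReal, Pr_Cn_zero h]; simp

theorem norm_zero : NB (tau G 0 Set.univ) 1 := open_norm_zero

omit [Countable V] in
theorem open_adj_row (S : Geo G) (x : V) : ∑' y, adjK G x y ≤ S.D := by
  have e : ∀ y, adjK G x y = ((G.neighborFinset x : Finset V) : Set V).indicator 1 y := by
    intro y
    by_cases h : G.Adj x y <;> simp [adjK, h]
  simp only [e]
  change cnt _ ≤ _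
  rw [cnt_finset, card_neighborFinset_eq_degree]
  exact_mod_cast S.deg x

omit [Countable V] in
theorem open_adj_norm (S : Geo G) : NB (adjK G) S.D := by
  refine NB_rows_cols (open_adj_row S) fun y => le_trans (le_of_eq ?_) (open_adj_row S y)
  refine tsum_congr fun x => ?_
  unfold adjK
  by_cases h : G.Adj x y
  · rw [if_pos h, if_pos h.symm]
  · rw [if_neg h, if_neg fun h' => h h'.symm]

omit [G.LocallyFinite] [Countable V] in
theorem open_first (ω : Sym2 V × Bool → Bool) {x y : V} (w : G.Walk x y)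
    (hw : ∀ e ∈ w.edges, orMap ω e = true) : (∀ e ∈ w.edges, ω (e, false) = true) ∨
      ∃ u v, G.Adj u v ∧ ∃ (w₁ : G.Walk x u) (w₂ : G.Walk v y),
        w.edges = w₁.edges ++ s(u, v) :: w₂.edges ∧ (∀ e ∈ w₁.edges, ω (e, false) = true) ∧
          ω (s(u, v), true) = true := by
  induction w with
  | nil => exact Or.inl (by simp)
  | @cons a b c h w ih =>
    by_cases h0 : ω (s(a, b), false) = true
    · rcases ih fun e he => hw e (by simp [he]) with h1 | ⟨u, v, huv, w₁, w₂, e, h1, h2⟩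
      · refine Or.inl fun e he => ?_
        rw [Walk.edges_cons, List.mem_cons] at he
        rcases he with rfl | he
        · exact h0
        · exact h1 e he
      · refine Or.inr ⟨u, v, huv, .cons h w₁, w₂, by simp [e], fun e he => ?_, h2⟩
        rw [Walk.edges_cons, List.mem_cons] at he
        rcases he with rfl | he
        · exact h0
        · exact h1 e he
    · refine Or.inr ⟨a, b, h, .nil, w, by simp, by simp, ?_⟩
      obtain ⟨l, hl⟩ := orMap_eq_true.1 (hw s(a, b) (by simp))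
      cases l
      · exact (h0 hl).elim
      · exact hl

omit [G.LocallyFinite] [Countable V] in
theorem open_split (n : ℕ∞) {x y : V} (ω : Sym2 V × Bool → Bool) (w : G.Walk x y)
    (hp : w.IsPath) (hl : (w.length : ℕ∞) ≤ n) (hw : ∀ e ∈ w.edges, orMap ω e = true) :
    (fun e => ω (e, false)) ∈ Cn G Set.univ x y ∨ ∃ v u, G.Adj u v ∧
      ω ∈ DO (DO {ω | (fun e => ω (e, false)) ∈ Cn G Set.univ x u} {ω | ω (s(u, v), true) = true})
        {ω | orMap ω ∈ CnL G Set.univ n v y} := by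
  classical
  rcases open_first ω w hw with h1 | ⟨u, v, huv, w₁, w₂, e, h1, h2⟩
  · exact Or.inl ⟨w, fun e he => ⟨trivial, h1 e he⟩⟩
  have nd := hp.isTrail.edges_nodup
  rw [e] at nd
  have d1 : ∀ e ∈ w₁.edges, e ∉ w₂.edges := fun e he he' =>
    List.disjoint_of_nodup_append nd he (List.mem_cons_of_mem _ he')
  have d2 : s(u, v) ∉ w₂.edges := (List.nodup_cons.1 nd.of_append_right).1
  have l2 : (w₂.length : ℕ∞) ≤ n := by
    have := congrArg List.length e
    simp only [Walk.length_edges, List.length_append, List.length_cons] at this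
    exact le_trans (by exact_mod_cast (by omega)) hl
  refine Or.inr ⟨v, u, huv, fun i => ω i && decide (i.1 ∉ w₂.edges),
    fun i => ω i && decide (i.1 ∈ w₂.edges), fun i => by simp [Bool.and_le_left],
    fun i => by simp [Bool.and_le_left], fun i a b => ?_,
    ⟨fun i => (ω i && decide (i.1 ∉ w₂.edges)) && !i.2,
      fun i => (ω i && decide (i.1 ∉ w₂.edges)) && i.2, fun i => Bool.and_le_left _ _,
      fun i => Bool.and_le_left _ _, fun i a b => ?_, ⟨w₁, fun e he => ⟨trivial, ?_⟩⟩, ?_⟩,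
    ⟨w₂, l2, fun e' he => ⟨trivial, ?_⟩⟩⟩
  · simp only [Bool.and_eq_true, decide_eq_true_eq] at a b
    exact a.2 b.2
  · simp only [Bool.and_eq_true, Bool.not_eq_eq_eq_not, Bool.not_true] at a b
    rw [a.2] at b
    exact Bool.false_ne_true b.2
  · simp [h1 e he, d1 e he]
  · simp [h2, d2]
  · obtain ⟨l, hl⟩ := orMap_eq_true.1 (hw e' (by simp [e, he]))
    exact orMap_eq_true.2 ⟨l, by simp [hl, he]⟩

omit [G.LocallyFinite] in
theorem open_step {q d : I} (h : 1 - (q : ℝ) = (1 - p) * (1 - d)) (n : ℕ∞) (x y : V)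
    (hC : ∀ x y, FU (Cn G Set.univ x y)) (hL : ∀ x y, FU (CnL G Set.univ n x y))
    (hP : ∀ ω ∈ CnL G Set.univ n x y, ∃ w : G.Walk x y, w.IsPath ∧ (w.length : ℕ∞) ≤ n ∧
      ∀ e ∈ w.edges, e ∈ Set.univ ∧ ω e = true) :
    tauL G q Set.univ n x y ≤ tau G p Set.univ x y +
      kmul (fun a b => ofReal d * kmul (tau G p Set.univ) (adjK G) a b)
        (tauL G q Set.univ n) x y := by
  set π : Sym2 V × Bool → I := fun i => if i.2 = true then d else p with hπ
  have m1 : ∀ A : Set (Cf V), FU A → PM π {ω | orMap ω ∈ A} = mu V q A := fun A hA => by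
    rw [mu, ← PM_map_orMap π (fun _ => q) fun i => by simp [hπ, h, mul_comm],
      Measure.map_apply measurable_orMap hA.measurableSet]
    rfl
  have m2 : ∀ A : Set (Cf V), FU A → PM π {ω | (fun e => ω (e, false)) ∈ A} = mu V p A :=
    fun A hA => by
      have := PM_map_inj π (φ := fun e : Sym2 V => (e, false)) fun a b hab => congrArg Prod.fst hab
      simp only [hπ, Bool.false_eq_true, if_false] at this
      rw [mu, ← this, Measure.map_apply (measurable_reindex _) hA.measurableSet]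
      rfl
  have m3 : ∀ e : Sym2 V, PM π {ω | ω (e, true) = true} = ofReal d := fun e => by
    rw [PM_eq_ofReal, Pr_eval]; simp [hπ]
  rw [tauL, ← m1 _ (hL x y)]
  have hs : {ω : Sym2 V × Bool → Bool | orMap ω ∈ CnL G Set.univ n x y} ⊆
      {ω | (fun e => ω (e, false)) ∈ Cn G Set.univ x y} ∪ {ω | ∃ v u, G.Adj u v ∧
      ω ∈ DO (DO {ω | (fun e => ω (e, false)) ∈ Cn G Set.univ x u} {ω | ω (s(u, v), true) = true})
        {ω | orMap ω ∈ CnL G Set.univ n v y}} := fun ω hω => by
    obtain ⟨w, hp, hl, hw⟩ := hP _ hω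
    exact open_split n ω w hp hl fun e he => (hw e he).2
  refine ((measure_mono hs).trans (measure_union_le _ _)).trans
    (add_le_add (m2 _ (hC x y)).le ?_)
  refine cnx_union _ (fun v => {ω | ∃ u, G.Adj u v ∧
      ω ∈ DO (DO {ω | (fun e => ω (e, false)) ∈ Cn G Set.univ x u} {ω | ω (s(u, v), true) = true})
        {ω | orMap ω ∈ CnL G Set.univ n v y}}) (fun _ h => h) fun v => ?_
  simp only [kmul, ← ENNReal.tsum_mul_left, ← ENNReal.tsum_mul_right]
  refine cnx_union' _ _ _ (fun _ h => h) fun u huv => ?_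
  have f1 := (hC x u).comp fun e : Sym2 V => (e, false)
  have f2 := FU_eval (s(u, v), true)
  refine (BKE π (f1.DO f2) (hL v y).orMap).trans ?_
  rw [m1 _ (hL v y)]
  refine mul_le_mul_left ((BKE π f1 f2).trans (le_of_eq ?_)) _
  rw [m2 _ (hC x u), m3, adjK, if_pos huv, mul_one, mul_comm]
  rfl

theorem open_tauL (S : Geo G) (F : Set (Sym2 V)) (n : ℕ) :
    NB (tauL G p F n) (ofReal (((S.D : ℝ) + 1) ^ n)) := by
  have h : ∀ x, ∑' y, tauL G p F n x y ≤ ofReal (((S.D : ℝ) + 1) ^ n) := fun x => by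
    refine le_trans (ENNReal.tsum_le_tsum fun y => ?_) (cnt_ball_le S x n)
    by_cases hy : G.dist x y ≤ n
    · rw [Set.indicator_of_mem (s := {z | G.dist x z ≤ n}) hy]; exact tauL_le_one
    · have : CnL G F n x y = ∅ := Set.eq_empty_of_forall_notMem fun ω hω => hy (CnL_dist hω)
      simp [tauL, this]
  refine NB_rows_cols h fun y => le_trans (le_of_eq (tsum_congr fun x => tauL_comm)) (h y)

theorem open_norm (S : Geo G) (p1 : (p : ℝ) < 1) {c : ℝ≥0∞} (hc : c ≠ ⊤)
    (h : NB (tau G p Set.univ) c) :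
    ∃ ε : ℝ, 0 < ε ∧ ∀ q : I, (q : ℝ) ≤ p + ε → NB (tau G q Set.univ) (2 * c) := by
  have p1' : (0 : ℝ) < 1 - p := sub_pos.2 p1
  have k0 : 0 ≤ c.toReal * S.D := by positivity
  refine ⟨(1 - p) / (2 * (c.toReal * S.D + 1)), by positivity, fun q hq => ?_⟩
  rcases le_total q p with hqp | hpq
  · refine h.mono (fun x y => PM_mono_p hqp Cn_FU) ?_
    rw [two_mul]; exact le_self_add
  have hpq' : (p : ℝ) ≤ q := hpq
  have d0 : 0 ≤ ((q : ℝ) - p) / (1 - p) := div_nonneg (sub_nonneg.2 hpq') p1'.le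
  have d1 : ((q : ℝ) - p) / (1 - p) ≤ 1 := (div_le_one p1').2 (by linarith [q.2.2])
  set d : I := ⟨((q : ℝ) - p) / (1 - p), d0, d1⟩ with hd
  have e : 1 - (q : ℝ) = (1 - p) * (1 - d) := by
    rw [hd]; field_simp; ring
  have hE := (h.mul (open_adj_norm S)).smul (ofReal d)
  have he : ofReal d * (c * S.D) ≤ 1 / 2 := by
    have h2 : (d : ℝ) ≤ 1 / (2 * (c.toReal * S.D + 1)) := by
      rw [hd]
      change ((q : ℝ) - p) / (1 - p) ≤ _
      rw [div_le_iff₀ p1', one_div_mul_eq_div]
      linarith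
    have h3 : (d : ℝ) * (c.toReal * S.D) ≤ 1 / 2 := by
      refine (mul_le_mul_of_nonneg_right h2 k0).trans ?_
      rw [one_div_mul_eq_div, div_le_div_iff₀ (by positivity) (by positivity)]
      linarith
    have h4 : ofReal d * (c * S.D) = ofReal (d * (c.toReal * S.D)) := by
      rw [ENNReal.ofReal_mul d.2.1, ENNReal.ofReal_mul ENNReal.toReal_nonneg,
        ENNReal.ofReal_toReal hc, ENNReal.ofReal_natCast]
    rw [h4]
    refine (ENNReal.ofReal_le_ofReal h3).trans (le_of_eq ?_)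
    rw [ENNReal.ofReal_div_of_pos two_pos]; simp
  have hn : ∀ n : ℕ, NB (tauL G q Set.univ n) (2 * c) := fun n =>
    NB_fix (open_tauL S _ n) ENNReal.ofReal_ne_top h hE he fun x y =>
      open_step e n x y (fun _ _ => Cn_FU) (fun _ _ => CnL_FU) fun _ hω => CnL_path hω
  exact (NB_iSup (K := fun n => tauL G q Set.univ n)
    (fun x y m n hmn => tauL_mono le_rfl (by exact_mod_cast hmn)) hn).mono
      (fun x y => tau_eq_iSup.le) le_rfl

theorem tauL_norm (S : Geo G) (F : Set (Sym2 V)) (n : ℕ) :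
    NB (tauL G p F n) (ofReal (((S.D : ℝ) + 1) ^ n)) := open_tauL S F n

theorem not_unique (S : Geo G) {c : ℝ≥0∞} (hc : c ≠ ⊤) (h : NB (tau G p Set.univ) c) :
    ¬ ∀ᵐ ω ∂percMeasure V p, ∃! C : (openGraph G ω).ConnectedComponent, C.supp.Infinite := by
  refine not_unique_of_decay S.conn p fun ε ε0 x => ?_
  have hf : {y | ofReal ε ^ 2 ≤ tau G p Set.univ x y ^ 2}.Finite :=
    ENNReal.finite_const_le_of_tsum_ne_top
      (ne_top_of_le_ne_top (ENNReal.pow_ne_top hc) (h.row_sq x))
      (pow_ne_zero _ (ENNReal.ofReal_pos.2 ε0).ne')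
  obtain ⟨y, ⟨g, -, rfl⟩, hy⟩ := (S.orbit_infinite x).exists_notMem_finite hf
  refine ⟨g, fun Λ => ?_⟩
  have h1 : tau G p Set.univ x (g x) ≤ ofReal ε := by
    by_contra h2
    exact hy (pow_le_pow_left' (not_le.1 h2).le 2)
  have h2 : tau G p (EIn Λ) x (g x) ≤ ofReal ε := (tau_mono (Set.subset_univ _)).trans h1
  rw [tau, PM_eq_ofReal] at h2
  exact (ENNReal.ofReal_le_ofReal_iff ε0.le).1 h2

end Pool.Agent.P.MP_3aa27f_pr.F
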