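import Pool.Agent.P.MP_3aa27f_pr.F.NB
import Pool.Agent.P.MP_3aa27f_pr.F.Open
import Pool.Agent.P.MP_3aa27f_pr.F.Lev

/-! A Simon-Lieb inequality for operator norms. -/

open MeasureTheory unitInterval SimpleGraph
open ENNReal (ofReal)
open scoped ENNReal

namespace Pool.Agent.P.MP_3aa27f_pr.F

variable {V : Type} {G : SimpleGraph V} [G.LocallyFinite] [Countable V] {S : Geo G} {p : I}

open Classical in
theorem Geo.climb (S : Geo G) {m s a : ℝ} (s0 : 0 < s) {F : Set (Sym2 V)} (hF : F ⊆ S.Ge a)
    (N : ℕ) (u y : V) (hy : S.l u + N * (s + 1) ≤ S.l y) (ha : S.l u + N * (s + 1) - m ≤ a) :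
    tau G p F u y ≤ ∑' z, kpow (S.kap p m s) N u z *
      if S.l u ≤ S.l z ∧ S.l z ≤ S.l u + N * (s + 1) then tau G p F z y else 0 := by
  induction N generalizing u with
  | zero =>
    rw [kpow, tsum_kone_mul, if_pos (by simp)]
  | succ N ih =>
    have hN : (0 : ℝ) ≤ N * (s + 1) := by positivity
    have e : ((N + 1 : ℕ) : ℝ) * (s + 1) = N * (s + 1) + (s + 1) := by push_cast; ring
    rw [e] at hy ha ⊢
    have h := exit_le (G := G) (p := p) (F := F) (R := ⊤) (x := u) (y := y)
      {z | S.l z < S.l u + s}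
    rw [Set.indicator_of_notMem (by rw [Set.mem_ofPred_eq]; linarith), zero_add, tauL_top] at h
    refine h.trans ?_
    simp only [kpow, kmul, ← ENNReal.tsum_mul_right]
    rw [ENNReal.tsum_comm]
    refine ENNReal.tsum_le_tsum fun z => ?_
    split_ifs with hz
    · obtain ⟨h1, h2⟩ := hz
      rw [Set.mem_ofPred_eq, not_lt] at h1
      have h3 : S.l z ≤ S.l u + (s + 1) := by
        rcases h2 with rfl | ⟨b, hb, hbz⟩
        · linarith
        · have := S.lip b z hbz
          rw [Set.mem_ofPred_eq] at hb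
          linarith
      simp only [mul_assoc, ENNReal.tsum_mul_left]
      refine mul_le_mul' ?_ ?_
      · rw [Geo.kap, Set.indicator_of_mem (show z ∈ S.Top (S.l u + s) from h1)]
        exact tau_mono fun e he => ⟨S.Ge_mono (by linarith) (hF he.1), he.2⟩
      · rw [tauL_top]
        refine (ih z (by linarith) (by linarith)).trans (ENNReal.tsum_le_tsum fun w =>
          mul_le_mul_right ?_ _)
        by_cases hw : S.l z ≤ S.l w ∧ S.l w ≤ S.l z + N * (s + 1)
        · rw [if_pos hw, if_pos ⟨by linarith [hw.1], by linarith [hw.2]⟩]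
        · rw [if_neg hw]; exact zero_le
    · exact zero_le

theorem climb_slab (S : Geo G) {m s a c : ℝ} (s0 : 0 < s) {N : ℕ} (hN : N * (s + 1) ≤ m) {u y : V}
    (hy : S.l u + m ≤ S.l y) (ha : S.l u - m - 1 ≤ a) (hc : c ≤ S.l u + (2 * m + 1)) :
    tau G p (S.E a c) u y ≤
      kmul (kpow (S.kap p (2 * m + 1) s) N) (S.slabK p (2 * m + 1)) u y := by
  refine (S.climb (m := 2 * m + 1) s0 Set.inter_subset_left N u y (by linarith)
    (by linarith)).trans (ENNReal.tsum_le_tsum fun w => mul_le_mul_right ?_ _)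
  split_ifs with hw
  · exact tau_mono (S.E_mono (by linarith [hw.2]) (by linarith [hw.1]))
  · exact zero_le

theorem Geo.norm_of_kap (S : Geo G) {m s : ℝ} (s0 : 0 < s) (m0 : 0 < m) {N : ℕ}
    (hN : N * (s + 1) ≤ m) {e a : ℝ≥0∞} (he : NB (S.kap p (2 * m + 1) s) e)
    (ha : NB (S.slabK p (2 * m + 1)) a) (h : 2 * e ^ N * a ≤ 1 / 2) :
    NB (tau G p Set.univ) (2 * a) := by
  have hB := (he.pow N).mul ha
  have hE := hB.add hB.tr
  rw [← two_mul, ← mul_assoc] at hE
  have key : ∀ n : ℕ, NB (tauL G p Set.univ n) (2 * a) := fun n => by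
    refine NB_fix (tauL_norm S Set.univ n) ENNReal.ofReal_ne_top ha hE h fun x y => ?_
    refine (exit_le {z | S.l x - m < S.l z ∧ S.l z < S.l x + m}).trans (add_le_add ?_ ?_)
    · refine (Set.indicator_le_self _ _ y).trans (tau_mono fun e he => ?_)
      induction e using Sym2.ind with
      | _ b c =>
        obtain ⟨h1, h2⟩ := mem_EIn.1 he.2
        exact ⟨Geo.mem_Ge.2 ⟨by linarith [h1.1], by linarith [h2.1]⟩,
          Geo.mem_Lt.2 (Or.inl (by linarith [h1.2]))⟩
    · refine ENNReal.tsum_le_tsum fun z => ?_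
      split_ifs with hz
      · refine mul_le_mul_left ?_ _
        obtain ⟨h1, h2⟩ := hz
        have h3 : S.l x - m - 1 ≤ S.l z := by
          rcases h2 with rfl | ⟨b, hb, hbz⟩
          · linarith
          · linarith [S.lip z b hbz.symm, hb.1]
        have h4 : tau G p (Set.univ ∩ ETo {z | S.l x - m < S.l z ∧ S.l z < S.l x + m}) x z ≤
            tau G p (S.E (S.l x - m - 1) (S.l x + m)) x z := by
          refine measure_mono (Cn_mono' fun b c hbc he => ?_)
          obtain ⟨-, d, hd, h5, h6⟩ := he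
          refine ⟨Geo.mem_Ge.2 ?_, d, hd, h6⟩
          have := S.lip b c hbc
          have := S.lip c b hbc.symm
          rcases Sym2.mem_iff.1 hd with rfl | rfl
          · exact ⟨by linarith, by linarith⟩
          · exact ⟨by linarith, by linarith⟩
        refine h4.trans ?_
        rw [Set.mem_ofPred_eq, not_and_or, not_lt, not_lt] at h1
        rcases h1 with h1 | h1
        · rw [tau_comm]
          exact (climb_slab S s0 hN (by linarith) (by linarith) (by linarith)).trans le_add_self
        · exact (climb_slab S s0 hN h1 le_rfl (by linarith)).trans le_self_add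
      · exact zero_le
  exact (NB_iSup (K := fun n : ℕ => tauL G p Set.univ n)
    (fun x y b c hbc => tauL_mono le_rfl (by exact_mod_cast hbc)) key).mono
    (fun x y => tau_eq_iSup.le) le_rfl

end Pool.Agent.P.MP_3aa27f_pr.F
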