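import Pool.Agent.P.MP_3aa27f_pr.F.Cnx0

/-! Connection events: inequalities and measurability. -/

open MeasureTheory unitInterval SimpleGraph
open ENNReal (ofReal)
open scoped ENNReal

namespace Pool.Agent.P.MP_3aa27f_pr.F

variable {V : Type} {G : SimpleGraph V} [G.LocallyFinite] [Countable V] {S : Geo G} {p : I}
variable {F F' : Set (Sym2 V)} {R R' : ℕ∞} {x y z : V} {Y : Set V} {ω : Cf V}

section

omit [G.LocallyFinite]

theorem cnx_union {α : Type*} [MeasurableSpace α] (μ : Measure α) {A : Set α} (B : V → Set α)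
    (h : ∀ a ∈ A, ∃ y, a ∈ B y) {f : V → ℝ≥0∞} (hf : ∀ y, μ (B y) ≤ f y) : μ A ≤ ∑' y, f y :=
  ((measure_mono fun a ha => Set.mem_iUnion.2 (h a ha)).trans (measure_iUnion_le B)).trans
    (ENNReal.tsum_le_tsum hf)

theorem cnx_union' {α : Type*} [MeasurableSpace α] (μ : Measure α) {A : Set α} (B : V → Set α)
    (P : V → Prop) (h : ∀ a ∈ A, ∃ y, P y ∧ a ∈ B y) {f : V → ℝ≥0∞}
    (hf : ∀ y, P y → μ (B y) ≤ f y) : μ A ≤ ∑' y, f y := by
  refine cnx_union μ (fun y => {a | P y ∧ a ∈ B y}) h fun y => ?_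
  by_cases hy : P y
  · exact (measure_mono fun a ha => ha.2).trans (hf y hy)
  · simp [hy]

theorem rch_le_tsum : rch G p F x Y ≤ ∑' y, Y.indicator (tau G p F x) y :=
  cnx_union' _ (fun y => Cn G F x y) (fun y => y ∈ Y) (fun _ h => h) fun y hy => by
    rw [Set.indicator_of_mem hy]; rfl

theorem harris_walk_rch {n : ℕ} (w : G.Walk x y) (hw : w.length ≤ n) (hF : ∀ e ∈ w.edges, e ∈ F) :
    ofReal ((p : ℝ) ^ n) * rch G p F y Y ≤ rch G p F x Y := by
  refine le_trans (mul_le_mul_left (PM_list_ge p w.edges (by rwa [Walk.length_edges])) _) ?_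
  refine (harrisE _ (FU_list w.edges) Rch_FU).trans (measure_mono ?_)
  rintro ω ⟨h1, h2⟩
  exact Rch_trans ⟨w, fun e he => ⟨hF e he, h1 e he⟩⟩ h2

theorem harris_walk_tauL {n : ℕ} (w : G.Walk x y) (hw : w.length ≤ n)
    (hF : ∀ e ∈ w.edges, e ∈ F) :
    ofReal ((p : ℝ) ^ n) * tauL G p F R z x ≤ tauL G p F (R + n) z y := by
  refine le_trans (mul_le_mul_left (PM_list_ge p w.edges (by rwa [Walk.length_edges])) _) ?_
  refine (harrisE _ (FU_list w.edges) CnL_FU).trans (measure_mono ?_)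
  rintro ω ⟨h1, h2⟩
  exact CnL_trans h2 ⟨w, by exact_mod_cast hw, fun e he => ⟨hF e he, h1 e he⟩⟩

omit [Countable V] in
theorem cnx_len {a b c d a' b' : V} {w : G.Walk a b} {u : G.Walk c d} {u' : G.Walk a' b'}
    (e : w.edges = u.edges ++ u'.edges) (h : (w.length : ℕ∞) ≤ R) :
    (u.length : ℕ∞) ≤ R ∧ (u'.length : ℕ∞) ≤ R := by
  have := congrArg List.length e
  simp only [Walk.length_edges, List.length_append] at this
  exact ⟨le_trans (by exact_mod_cast (by omega)) h, le_trans (by exact_mod_cast (by omega)) h⟩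

omit [Countable V] in
theorem cnx_tree {y' : V} (h : ω ∈ CnL G F R x y) (h' : ω ∈ CnL G F R x y') :
    ∃ z, ω ∈ DO (CnL G F R x z) (DO (CnL G F R z y) (CnL G F R z y')) := by
  classical
  obtain ⟨w, hp, hl, hw⟩ := CnL_path h
  rw [CnL_comm] at h'
  obtain ⟨w', hl', hw'⟩ := h'
  rcases walk_exit {z | z ∉ w.support} w' with h1 | ⟨z, hz, w₁, w₂, e, h1, -⟩
  · exact (h1 x w'.end_mem_support w.start_mem_support).elim
  · have hz' : z ∈ w.support := by simpa using hz
    have nd := hp.isTrail.edges_nodup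
    have e' : w.edges = (w.takeUntil z hz').edges ++ (w.dropUntil z hz').edges := by
      rw [← SimpleGraph.Walk.edges_append, SimpleGraph.Walk.take_spec]
    have dj : ∀ e ∈ w₁.edges, e ∉ w.edges := fun e he he' => by
      obtain ⟨a, ha, ha'⟩ := h1 e he
      exact ha' (SimpleGraph.Walk.mem_support_of_mem_edges he' ha)
    have b1 : ∀ e ∈ w₁.edges, e ∈ F ∧ ω e = true := fun e' he => hw' e' (by simp [e, he])
    have l1 := (cnx_len e hl').1
    obtain ⟨l2, l3⟩ := cnx_len e' hl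
    rw [e'] at hw nd dj
    generalize w.takeUntil z hz' = u₁ at hw nd dj l2
    generalize w.dropUntil z hz' = u₂ at hw nd dj l3
    have a1 : ∀ e ∈ u₁.edges, e ∈ F ∧ ω e = true := fun e he => hw e (by simp [he])
    have a2 : ∀ e ∈ u₂.edges, e ∈ F ∧ ω e = true := fun e he => hw e (by simp [he])
    refine ⟨z, DO_of_lists (l := u₁.edges) (l' := u₂.edges ++ w₁.edges) ?_
      (fun e he => (a1 e he).2)
      (fun e he => (List.mem_append.1 he).elim (fun h => (a2 e h).2) fun h => (b1 e h).2)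
      ⟨u₁, l2, fun e he => ⟨(a1 e he).1, ind_true.2 he⟩⟩ (DO_of_lists (l := u₂.edges)
        (l' := w₁.edges)
        (fun e h1 h2 => dj e h2 (by simp [h1])) (fun e he => ind_true.2 (by simp [he]))
        (fun e he => ind_true.2 (by simp [he])) ⟨u₂, l3, fun e he => ⟨(a2 e he).1, ind_true.2 he⟩⟩
        (by rw [CnL_comm]; exact ⟨w₁, l1, fun e he => ⟨(b1 e he).1, ind_true.2 he⟩⟩))⟩
    intro e h1 h2
    rcases List.mem_append.1 h2 with h2 | h2
    · exact List.disjoint_of_nodup_append nd h1 h2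
    · exact dj e h2 (by simp [h1])

omit [Countable V] in
theorem cnx_exit (T : Set V) (h : ω ∈ CnL G F R x y) : (y ∈ T ∧ ω ∈ Cn G (F ∩ EIn T) x y) ∨
    ∃ z, (z ∉ T ∧ (z = x ∨ ∃ a ∈ T, G.Adj a z)) ∧
      ω ∈ DO (Cn G (F ∩ ETo T) x z) (CnL G F R z y) := by
  obtain ⟨w, hp, hl, hw⟩ := CnL_path h
  rcases walk_exit T w with h1 | ⟨z, hz, w₁, w₂, e, h1, h2⟩
  · refine Or.inl ⟨h1 y w.end_mem_support, w, fun e he => ⟨⟨(hw e he).1, fun z hz => h1 z ?_⟩,
      (hw e he).2⟩⟩
    exact SimpleGraph.Walk.mem_support_of_mem_edges he hz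
  · have nd := hp.isTrail.edges_nodup
    have l2 := (cnx_len e hl).2
    rw [e] at hw nd
    have a1 : ∀ e ∈ w₁.edges, e ∈ F ∧ ω e = true := fun e he => hw e (by simp [he])
    have a2 : ∀ e ∈ w₂.edges, e ∈ F ∧ ω e = true := fun e he => hw e (by simp [he])
    exact Or.inr ⟨z, ⟨hz, h2⟩,
      DO_of_lists (List.disjoint_of_nodup_append nd) (fun e he => (a1 e he).2)
        (fun e he => (a2 e he).2) ⟨w₁, fun e he => ⟨⟨(a1 e he).1, h1 e he⟩, ind_true.2 he⟩⟩
        ⟨w₂, l2, fun e he => ⟨(a2 e he).1, ind_true.2 he⟩⟩⟩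

/-- tree-graph inequality -/
theorem tree_graph {y' : V} : mu V p (CnL G F R x y ∩ CnL G F R x y') ≤
    ∑' z, tauL G p F R x z * (tauL G p F R z y * tauL G p F R z y') :=
  cnx_union _ (fun z => DO (CnL G F R x z) (DO (CnL G F R z y) (CnL G F R z y')))
    (fun _ h => cnx_tree h.1 h.2) fun _ =>
      (BKE _ CnL_FU (CnL_FU.DO CnL_FU)).trans (mul_le_mul_right (BKE _ CnL_FU CnL_FU) _)

open Classical in
/-- stay inside `T` or exit -/
theorem exit_le (T : Set V) : tauL G p F R x y ≤ T.indicator (tau G p (F ∩ EIn T) x) y +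
    ∑' z, if z ∉ T ∧ (z = x ∨ ∃ a ∈ T, G.Adj a z) then
      tau G p (F ∩ ETo T) x z * tauL G p F R z y else 0 := by
  have h : CnL G F R x y ⊆ {ω | y ∈ T ∧ ω ∈ Cn G (F ∩ EIn T) x y} ∪
      {ω | ∃ z, (z ∉ T ∧ (z = x ∨ ∃ a ∈ T, G.Adj a z)) ∧
        ω ∈ DO (Cn G (F ∩ ETo T) x z) (CnL G F R z y)} := fun ω hω => cnx_exit T hω
  refine ((measure_mono h).trans (measure_union_le _ _)).trans (add_le_add ?_ ?_)
  · by_cases hy : y ∈ T
    · rw [Set.indicator_of_mem hy]
      exact measure_mono fun ω hω => hω.2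
    · simp [hy]
  · refine cnx_union' _ _ _ (fun _ h => h) fun z hz => ?_
    rw [if_pos hz]
    exact BKE _ Cn_FU CnL_FU

/-- collisions with a forbidden set -/
theorem rch_coll (C : Set V) (U : Set (Sym2 V)) : rch G p F z Y ≤ rch G p (F \ (ETo C ∩ U)) z Y +
    ∑' w, C.indicator (fun w => rch G p F w Y) w := by
  classical
  have h : Rch G F z Y ⊆ Rch G (F \ (ETo C ∩ U)) z Y ∪ {ω | ∃ w, w ∈ C ∧ ω ∈ Rch G F w Y} := by
    rintro ω ⟨y, hy, w, hw⟩
    by_cases h1 : ∃ a ∈ w.support, a ∈ C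
    · obtain ⟨a, ha, haC⟩ := h1
      exact Or.inr ⟨a, haC, y, hy, w.dropUntil a ha, fun e he =>
        hw e (w.edges_dropUntil_subset_edges ha he)⟩
    · refine Or.inl ⟨y, hy, w, fun e he => ⟨⟨(hw e he).1, ?_⟩, (hw e he).2⟩⟩
      rintro ⟨⟨a, ha, haC⟩, -⟩
      exact h1 ⟨a, SimpleGraph.Walk.mem_support_of_mem_edges he ha, haC⟩
  refine ((measure_mono h).trans (measure_union_le _ _)).trans (add_le_add le_rfl ?_)
  refine cnx_union' _ _ _ (fun _ h => h) fun w hw => ?_
  rw [Set.indicator_of_mem hw]; rfl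

omit [Countable V] in
theorem cnx_ind {α : Type*} (A : V → Set α) (φ : V → ℝ≥0∞) (a : α) (y : V) :
    {y | a ∈ A y}.indicator φ y = (A y).indicator (fun _ => φ y) a := by
  by_cases h : a ∈ A y
  · rw [Set.indicator_of_mem h, Set.indicator_of_mem (s := {y | a ∈ A y}) h]
  · rw [Set.indicator_of_notMem h, Set.indicator_of_notMem (s := {y | a ∈ A y}) h]

theorem measurable_tsum_ind {α : Type*} [MeasurableSpace α] {A : V → Set α}
    (hA : ∀ y, MeasurableSet (A y)) (φ : V → ℝ≥0∞) :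
    Measurable fun a => ∑' y, {y | a ∈ A y}.indicator φ y := by
  simp only [cnx_ind]
  exact Measurable.tsum fun y => measurable_const.indicator (hA y)

theorem lintegral_tsum_ind {α : Type*} [MeasurableSpace α] (μ : Measure α) {A : V → Set α}
    (hA : ∀ y, MeasurableSet (A y)) (φ : V → ℝ≥0∞) :
    ∫⁻ a, ∑' y, {y | a ∈ A y}.indicator φ y ∂μ = ∑' y, μ (A y) * φ y := by
  simp only [cnx_ind]
  rw [lintegral_tsum fun y => (measurable_const.indicator (hA y)).aemeasurable]
  refine tsum_congr fun y => ?_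
  rw [lintegral_indicator_const (hA y), mul_comm]

omit [Countable V] in
theorem cnx_meas {A : V → Set (Cf V)} (hA : ∀ y, MeasurableSet (A y)) (B : Set V) (y : V) :
    MeasurableSet {ω | ω ∈ A y ∧ y ∈ B} := (hA y).inter (MeasurableSet.const _)

omit [Countable V] in
theorem cnx_mu (μ : Measure (Cf V)) (A : V → Set (Cf V)) (B : Set V) (φ : V → ℝ≥0∞) (y : V) :
    μ {ω | ω ∈ A y ∧ y ∈ B} * φ y = B.indicator (fun y => μ (A y) * φ y) y := by
  by_cases hy : y ∈ B <;> simp [hy]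

theorem measurable_tsum_Kl (B : Set V) (φ : V → ℝ≥0∞) :
    Measurable fun ω => ∑' y, (Kl G F x ω ∩ B).indicator φ y :=
  measurable_tsum_ind (cnx_meas (fun _ => (Cn_FU (G := G) (F := F) (x := x)).measurableSet) B) φ

theorem lintegral_tsum_Kl (B : Set V) (φ : V → ℝ≥0∞) :
    ∫⁻ ω, ∑' y, (Kl G F x ω ∩ B).indicator φ y ∂mu V p =
      ∑' y, B.indicator (fun y => tau G p F x y * φ y) y :=
  (lintegral_tsum_ind _ (cnx_meas (fun _ => (Cn_FU (G := G) (F := F) (x := x)).measurableSet) B)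
    φ).trans (tsum_congr fun y => cnx_mu _ _ B φ y)

theorem measurable_cntL (B : Set V) :
    Measurable fun ω => cnt (B ∩ {y | ω ∈ CnL G F R x y}) := by
  simp only [Set.inter_comm B]
  exact measurable_tsum_ind
    (cnx_meas (fun _ => (CnL_FU (G := G) (F := F) (x := x) (R := R)).measurableSet) B) 1

theorem lintegral_cntL (B : Set V) : ∫⁻ ω, cnt (B ∩ {y | ω ∈ CnL G F R x y}) ∂mu V p =
    ∑' y, B.indicator (tauL G p F R x) y := by
  simp only [Set.inter_comm B]
  refine (lintegral_tsum_ind _ (cnx_meas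
    (fun _ => (CnL_FU (G := G) (F := F) (x := x) (R := R)).measurableSet) B) 1).trans
    (tsum_congr fun y => (cnx_mu _ _ B 1 y).trans ?_)
  simp only [Pi.one_apply, mul_one]; rfl

theorem measurableSet_Kl_eq (C : Set V) : MeasurableSet {ω | Kl G F x ω = C} := by
  have : {ω | Kl G F x ω = C} = ⋂ y, {ω | ω ∈ Cn G F x y ↔ y ∈ C} := by
    ext ω; simp only [Set.mem_ofPred_eq, Set.mem_iInter, Set.ext_iff]; rfl
  rw [this]
  refine MeasurableSet.iInter fun y => ?_
  have h := (Cn_FU (G := G) (F := F) (x := x) (y := y)).measurableSet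
  by_cases hy : y ∈ C
  · convert h using 1; ext; simp [hy]
  · convert h.compl using 1; ext; simp [hy]

theorem measurableSet_Kl_finite : MeasurableSet {ω | (Kl G F x ω).Finite} := by
  have : {ω | (Kl G F x ω).Finite} = ⋃ C : Finset V, {ω | Kl G F x ω = (C : Set V)} := by
    ext ω
    simp only [Set.mem_ofPred_eq, Set.mem_iUnion]
    exact ⟨fun h => ⟨h.toFinset, by simp⟩, fun ⟨C, h⟩ => h ▸ C.finite_toSet⟩
  rw [this]
  exact MeasurableSet.iUnion fun C => measurableSet_Kl_eq _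

theorem measurableSet_two (X : Set V) : MeasurableSet {ζ : Cf V × Cf V |
    ∃ x ∈ X, ∃ u, ζ.1 ∈ CnL G F R x u ∧ ζ.2 ∈ Rch G F' u Y} := by
  have : {ζ : Cf V × Cf V | ∃ x ∈ X, ∃ u, ζ.1 ∈ CnL G F R x u ∧ ζ.2 ∈ Rch G F' u Y} =
      ⋃ x ∈ X, ⋃ u, CnL G F R x u ×ˢ Rch G F' u Y := by
    ext ζ; simp
  rw [this]
  exact MeasurableSet.biUnion X.to_countable fun x _ => MeasurableSet.iUnion fun u =>
    CnL_FU.measurableSet.prod Rch_FU.measurableSet

end

omit [Countable V] in
theorem card_bl_le (hG : G.Connected) {D : ℕ} (hD : ∀ v, G.degree v ≤ D) (x : V) (n : ℕ) :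
    (bl hG x n).card ≤ (D + 1) ^ n := by
  classical
  induction n with
  | zero =>
    rw [pow_zero]
    refine Finset.card_le_one.2 fun a ha b hb => ?_
    rw [mem_bl, Nat.le_zero, hG.dist_eq_zero_iff] at ha hb
    rw [← ha, ← hb]
  | succ n ih =>
    have h : bl hG x (n + 1) ⊆ (bl hG x n).biUnion fun u => insert u (G.neighborFinset u) := by
      intro w hw
      rw [mem_bl] at hw
      rw [Finset.mem_biUnion]
      by_cases h : w = x
      · exact ⟨x, by simp [mem_bl], by simp [h]⟩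
      · obtain ⟨u, h1, h2⟩ := par_exists hG h
        exact ⟨u, by rw [mem_bl]; omega, by simp [h1.symm]⟩
    refine (Finset.card_le_card h).trans ((Finset.card_biUnion_le_card_mul _ _ (D + 1)
      fun u _ => ?_).trans ?_)
    · exact (Finset.card_insert_le _ _).trans (Nat.succ_le_succ (hD u))
    · rw [pow_succ]; exact Nat.mul_le_mul_right _ ih

omit [Countable V] in
theorem cnt_ball_le (S : Geo G) (x : V) (n : ℕ) :
    cnt {z | G.dist x z ≤ n} ≤ ofReal (((S.D : ℝ) + 1) ^ n) := by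
  have h : {z | G.dist x z ≤ n} = (bl S.conn x n : Set V) := by ext z; simp [mem_bl]
  have h2 := card_bl_le S.conn S.deg x n
  rw [h, cnt_finset, ← ENNReal.ofReal_natCast]
  exact ENNReal.ofReal_le_ofReal (by exact_mod_cast h2)

omit [Countable V] in
theorem edges_touch_finite {C : Set V} (hC : C.Finite) : (G.edgeSet ∩ ETo C).Finite := by
  classical
  refine (hC.biUnion fun v _ => (G.incidenceFinset v).finite_toSet).subset ?_
  rintro e ⟨he, z, hz, hzC⟩
  exact Set.mem_biUnion hzC (by simpa [incidenceSet] using ⟨he, hz⟩)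

omit [Countable V] in
theorem edges_touch_card (S : Geo G) (C : Finset V) :
    (G.edgeSet ∩ ETo (C : Set V)).ncard ≤ S.D * C.card := by
  classical
  have h : G.edgeSet ∩ ETo (C : Set V) ⊆ (C.biUnion fun v => G.incidenceFinset v : Finset _) := by
    rintro e ⟨he, z, hz, hzC⟩
    exact Finset.mem_coe.2 (Finset.mem_biUnion.2 ⟨z, hzC, by simpa [incidenceSet] using ⟨he, hz⟩⟩)
  refine (Set.ncard_le_ncard h (Finset.finite_toSet _)).trans ?_
  rw [Set.ncard_coe_finset, mul_comm]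
  exact Finset.card_biUnion_le_card_mul _ _ _ fun v _ => by
    rw [card_incidenceFinset_eq_degree]; exact S.deg v

end Pool.Agent.P.MP_3aa27f_pr.F
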