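import Pool.Agent.P.MP_3aa27f_pr.F.Defs

/-! Algebra of kernels and counting. -/

open MeasureTheory unitInterval SimpleGraph
open ENNReal (ofReal)
open scoped ENNReal

namespace Pool.Agent.P.MP_3aa27f_pr.F

variable {V : Type} {K K' : Ker V} {c c' : ℝ≥0∞}

theorem kone_self (x : V) : kone x x = 1 := by simp [kone]

theorem kone_ne {x y : V} (h : x ≠ y) : kone x y = 0 := by simp [kone, h]

theorem tsum_kone_mul (x : V) (f : V → ℝ≥0∞) : ∑' y, kone x y * f y = f x := by
  rw [tsum_eq_single x fun y hy => by rw [kone_ne hy.symm, zero_mul], kone_self, one_mul]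

theorem tsum_mul_kone (y : V) (f : V → ℝ≥0∞) : ∑' x, f x * kone x y = f y := by
  rw [tsum_eq_single y fun x hx => by rw [kone_ne hx, mul_zero], kone_self, mul_one]

theorem kmul_assoc (K L M : Ker V) : kmul (kmul K L) M = kmul K (kmul L M) := by
  funext x y
  simp only [kmul, ← ENNReal.tsum_mul_left, ← ENNReal.tsum_mul_right, mul_assoc]
  exact ENNReal.tsum_comm

theorem kone_kmul (K : Ker V) : kmul kone K = K := by
  funext x y
  exact tsum_kone_mul x fun z => K z y

theorem kmul_kone (K : Ker V) : kmul K kone = K := by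
  funext x y
  exact tsum_mul_kone y fun z => K x z

theorem kpow_succ' (K : Ker V) (n : ℕ) : kpow K (n + 1) = kmul (kpow K n) K := by
  induction n with
  | zero => exact (kmul_kone K).trans (kone_kmul K).symm
  | succ n ih =>
    rw [kpow, ih, ← kmul_assoc, ← ih]
    rfl

theorem kpow_add (K : Ker V) (m n : ℕ) : kpow K (m + n) = kmul (kpow K m) (kpow K n) := by
  induction m with
  | zero => rw [zero_add, kpow, kone_kmul]
  | succ m ih => rw [add_right_comm, kpow, ih, kpow, kmul_assoc]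

theorem ktr_kmul (K L : Ker V) : ktr (kmul K L) = kmul (ktr L) (ktr K) := by
  funext x y
  simp only [ktr, kmul, mul_comm]

theorem ktr_kpow (K : Ker V) (n : ℕ) : ktr (kpow K n) = kpow (ktr K) n := by
  induction n with
  | zero =>
    funext x y
    by_cases h : x = y
    · subst h
      rfl
    · exact (kone_ne (Ne.symm h)).trans (kone_ne h).symm
  | succ n ih => rw [kpow, ktr_kmul, ih, kpow_succ']

theorem kmul_mono {K K' L L' : Ker V} (h : ∀ x y, K x y ≤ K' x y) (h' : ∀ x y, L x y ≤ L' x y)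
    (x y : V) : kmul K L x y ≤ kmul K' L' x y :=
  ENNReal.tsum_le_tsum fun z => mul_le_mul' (h x z) (h' z y)

theorem kmul_ne_zero {L : Ker V} {x y : V} (h : kmul K L x y ≠ 0) :
    ∃ z, K x z ≠ 0 ∧ L z y ≠ 0 := by
  by_contra hc
  refine h (ENNReal.tsum_eq_zero.2 fun z => ?_)
  by_contra h0
  exact hc ⟨z, mul_ne_zero_iff.1 h0⟩

theorem kmul_row_le (h : ∀ x, ∑' y, K x y ≤ c) (h' : ∀ x, ∑' y, K' x y ≤ c') (x : V) :
    ∑' y, kmul K K' x y ≤ c * c' := by
  simp only [kmul]
  rw [ENNReal.tsum_comm]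
  simp only [ENNReal.tsum_mul_left]
  calc _ ≤ ∑' z, K x z * c' := ENNReal.tsum_le_tsum fun z => mul_le_mul' le_rfl (h' z)
    _ ≤ _ := by
      rw [ENNReal.tsum_mul_right]
      exact mul_le_mul' (h x) le_rfl

theorem kmul_col_le (h : ∀ y, ∑' x, K x y ≤ c) (h' : ∀ y, ∑' x, K' x y ≤ c') (y : V) :
    ∑' x, kmul K K' x y ≤ c * c' := by
  simp only [kmul]
  rw [ENNReal.tsum_comm]
  simp only [ENNReal.tsum_mul_right]
  calc _ ≤ ∑' z, c * K' z y := ENNReal.tsum_le_tsum fun z => mul_le_mul' (h z) le_rfl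
    _ ≤ _ := by
      rw [ENNReal.tsum_mul_left]
      exact mul_le_mul' le_rfl (h' y)

theorem kpow_row_le (h : ∀ x, ∑' y, K x y ≤ c) (n : ℕ) (x : V) : ∑' y, kpow K n x y ≤ c ^ n := by
  induction n generalizing x with
  | zero => simpa [kpow] using (tsum_kone_mul x fun _ => 1).le
  | succ n ih =>
    rw [pow_succ']
    exact kmul_row_le h ih x

theorem kpow_col_le (h : ∀ y, ∑' x, K x y ≤ c) (n : ℕ) (y : V) : ∑' x, kpow K n x y ≤ c ^ n := by
  induction n generalizing y with
  | zero => simpa [kpow] using (tsum_mul_kone y fun _ => 1).le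
  | succ n ih =>
    rw [pow_succ']
    exact kmul_col_le h ih y

theorem kpow_row_eq {A : V → Prop} (hs : ∀ x y, K x y ≠ 0 → A y)
    (h : ∀ x, A x → ∑' y, K x y = c) (n : ℕ) {x : V} (hx : A x) :
    ∑' y, kpow K n x y = c ^ n := by
  induction n generalizing x with
  | zero => simpa [kpow] using tsum_kone_mul x fun _ => 1
  | succ n ih =>
    simp only [kpow, kmul]
    rw [ENNReal.tsum_comm]
    simp only [ENNReal.tsum_mul_left]
    have : ∀ z, K x z * ∑' y, kpow K n z y = K x z * c ^ n := fun z => by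
      by_cases h0 : K x z = 0
      · rw [h0, zero_mul, zero_mul]
      · rw [ih (hs x z h0)]
    rw [tsum_congr this, ENNReal.tsum_mul_right, h x hx, pow_succ']

theorem kpow_col_eq {A : V → Prop} (hs : ∀ x y, K x y ≠ 0 → A x)
    (h : ∀ y, A y → ∑' x, K x y = c) (n : ℕ) {y : V} (hy : A y) :
    ∑' x, kpow K n x y = c ^ n := by
  have := kpow_row_eq (K := ktr K) (A := A) (fun x y h0 => hs y x h0) h n hy
  rw [← ktr_kpow] at this
  exact this

theorem kpow_supp {A : V → Prop} {φ : V → ℝ} {J : ℝ}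
    (hs : ∀ x y, K x y ≠ 0 → A x ∧ A y ∧ φ y = φ x + J) (n : ℕ) {x y : V}
    (h : kpow K n x y ≠ 0) : (A x ↔ A y) ∧ φ y = φ x + n * J := by
  induction n generalizing x with
  | zero =>
    by_cases e : x = y
    · simp [e]
    · exact absurd (kone_ne e) h
  | succ n ih =>
    obtain ⟨z, h1, h2⟩ := kmul_ne_zero h
    obtain ⟨a1, a2, a3⟩ := hs x z h1
    obtain ⟨b1, b2⟩ := ih h2
    refine ⟨⟨fun _ => b1.1 a2, fun _ => a1⟩, ?_⟩
    rw [b2, a3]
    push_cast
    ring

theorem cnt_finset (s : Finset V) : cnt (s : Set V) = s.card := by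
  rw [cnt, tsum_eq_sum (s := s) fun x hx => Set.indicator_of_notMem (by simpa using hx) _,
    Finset.sum_congr rfl fun x hx => Set.indicator_of_mem (Finset.mem_coe.2 hx) _]
  simp

theorem cnt_mono {A B : Set V} (h : A ⊆ B) : cnt A ≤ cnt B :=
  ENNReal.tsum_le_tsum fun x => Set.indicator_le_indicator_of_subset h (fun _ => zero_le) x

theorem cnt_empty : cnt (∅ : Set V) = 0 := by simp [cnt]

theorem cnt_singleton (x : V) : cnt ({x} : Set V) = 1 := by
  simpa using cnt_finset {x}

theorem cnt_union_le (A B : Set V) : cnt (A ∪ B) ≤ cnt A + cnt B := by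
  rw [cnt, cnt, cnt, ← ENNReal.tsum_add]
  refine ENNReal.tsum_le_tsum fun x => ?_
  by_cases ha : x ∈ A <;> by_cases hb : x ∈ B <;> simp [ha, hb]

theorem one_le_cnt {A : Set V} (h : A.Nonempty) : 1 ≤ cnt A := by
  obtain ⟨x, hx⟩ := h
  rw [← cnt_singleton x]
  exact cnt_mono (Set.singleton_subset_iff.2 hx)

theorem finite_of_cnt_ne_top {A : Set V} (h : cnt A ≠ ⊤) : A.Finite := by
  refine (ENNReal.finite_const_le_of_tsum_ne_top h one_ne_zero).subset fun x hx => ?_
  simp [hx]

theorem cnt_image {W : Type} {φ : V → W} (hφ : Function.Injective φ) (A : Set V) :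
    cnt (φ '' A) = cnt A := by
  rw [cnt, cnt, ← hφ.tsum_eq (f := (φ '' A).indicator 1) fun y hy =>
    Set.image_subset_range φ A (Set.support_indicator_subset hy)]
  refine tsum_congr fun x => ?_
  by_cases hx : x ∈ A <;> simp [hx, hφ.mem_set_image]

theorem tsum_indicator_le (A : Set V) {f : V → ℝ≥0∞} (h : ∀ x ∈ A, f x ≤ c) :
    ∑' x, A.indicator f x ≤ c * cnt A := by
  rw [cnt, ← ENNReal.tsum_mul_left]
  refine ENNReal.tsum_le_tsum fun x => ?_
  by_cases hx : x ∈ A
  · simpa [hx] using h x hx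
  · simp [hx]

theorem tsum_indicator_image {W : Type} {φ : V → W} (hφ : Function.Injective φ) (A : Set V)
    (f : W → ℝ≥0∞) : ∑' y, (φ '' A).indicator f y = ∑' x, A.indicator (fun x => f (φ x)) x := by
  rw [← hφ.tsum_eq (f := (φ '' A).indicator f) fun y hy =>
    Set.image_subset_range φ A (Set.support_indicator_subset hy)]
  refine tsum_congr fun x => ?_
  by_cases hx : x ∈ A
  · rw [Set.indicator_of_mem hx, Set.indicator_of_mem (Set.mem_image_of_mem φ hx)]
  · rw [Set.indicator_of_notMem hx, Set.indicator_of_notMem (mt hφ.mem_set_image.1 hx)]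

/-- a map with bounded fibres -/
theorem tsum_comp_le {φ : V → V} (A : Set V) (f : V → ℝ≥0∞)
    (h : ∀ z, cnt {x | x ∈ A ∧ φ x = z} ≤ c) :
    ∑' x, A.indicator (fun x => f (φ x)) x ≤ c * ∑' z, (φ '' A).indicator f z := by
  have e : ∀ x, A.indicator (fun x => f (φ x)) x =
      ∑' z, {x | x ∈ A ∧ φ x = z}.indicator (fun _ => f z) x := fun x => by
    rw [tsum_eq_single (φ x) fun z hz => Set.indicator_of_notMem (fun e => hz e.2.symm) _]
    by_cases hx : x ∈ A <;> simp [hx]
  rw [tsum_congr e, ENNReal.tsum_comm, ← ENNReal.tsum_mul_left]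
  refine ENNReal.tsum_le_tsum fun z => ?_
  by_cases hz : z ∈ φ '' A
  · rw [Set.indicator_of_mem hz, mul_comm]
    exact (tsum_indicator_le _ fun _ _ => le_rfl).trans (mul_le_mul' le_rfl (h z))
  · rw [ENNReal.tsum_eq_zero.2 fun x => Set.indicator_of_notMem (fun e => hz ⟨x, e.1, e.2⟩) _]
    exact zero_le

end Pool.Agent.P.MP_3aa27f_pr.F
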