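import Pool.Agent.P.MP_3aa27f_pr.F.Defs

/-! Independence, resampling, cylinders and moment inequalities. -/

open MeasureTheory unitInterval SimpleGraph
open ENNReal (ofReal)
open scoped ENNReal

namespace Pool.Agent.P.MP_3aa27f_pr.F

variable {ι : Type*} {A B : Set (ι → Bool)}

theorem measurable_splice (T : Set ι) :
    Measurable fun z : (ι → Bool) × (ι → Bool) => splice T z.1 z.2 := by
  refine measurable_pi_lambda _ fun i => ?_
  unfold splice
  split_ifs
  · exact (measurable_pi_apply i).comp measurable_fst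
  · exact (measurable_pi_apply i).comp measurable_snd

theorem splice_map (π : ι → I) (T : Set ι) :
    ((PM π).prod (PM π)).map (fun z => splice T z.1 z.2) = PM π := by
  classical
  refine Measure.eq_infinitePi _ fun s t ht => ?_
  have e : (fun z : (ι → Bool) × (ι → Bool) => splice T z.1 z.2) ⁻¹' Set.pi s t =
      Set.pi (s.filter (· ∈ T) : Finset ι) t ×ˢ Set.pi (s.filter (· ∉ T) : Finset ι) t := by
    ext z
    simp only [Set.mem_preimage, Set.mem_pi, Finset.mem_coe, Set.mem_prod, Finset.mem_filter,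
      splice]
    refine ⟨fun h => ⟨fun i hi => ?_, fun i hi => ?_⟩, fun h i hi => ?_⟩
    · simpa only [if_pos hi.2] using h i hi.1
    · simpa only [if_neg hi.2] using h i hi.1
    · split_ifs with hT
      · exact h.1 i ⟨hi, hT⟩
      · exact h.2 i ⟨hi, hT⟩
  rw [Measure.map_apply (measurable_splice T) (.pi s.countable_toSet fun i _ => ht i), e,
    Measure.prod_prod, PM, Measure.infinitePi_pi _ fun i _ => ht i,
    Measure.infinitePi_pi _ fun i _ => ht i, Finset.prod_filter_mul_prod_filter_not]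

theorem lintegral_indep (π : ι → I) {f g : (ι → Bool) → ℝ≥0∞} {T T' : Set ι} (hf : Measurable f)
    (hg : Measurable g) (df : DependsOn f T) (dg : DependsOn g T') (hd : Disjoint T T') :
    ∫⁻ ω, f ω * g ω ∂PM π = (∫⁻ ω, f ω ∂PM π) * ∫⁻ ω, g ω ∂PM π := by
  have e : ∀ z : (ι → Bool) × (ι → Bool),
      f (splice T z.1 z.2) * g (splice T z.1 z.2) = f z.1 * g z.2 := by
    intro z
    rw [df (y := z.1) fun i hi => by simp only [splice, if_pos hi],
      dg (y := z.2) fun i hi => by simp only [splice, if_neg (Set.disjoint_right.1 hd hi)]]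
  calc ∫⁻ ω, f ω * g ω ∂PM π
      = ∫⁻ ω, f ω * g ω ∂((PM π).prod (PM π)).map (fun z => splice T z.1 z.2) := by
        rw [splice_map]
    _ = ∫⁻ z, f z.1 * g z.2 ∂(PM π).prod (PM π) :=
        (lintegral_map (hf.mul hg) (measurable_splice T)).trans (lintegral_congr e)
    _ = _ := lintegral_prod_mul hf.aemeasurable hg.aemeasurable

theorem PM_indep (π : ι → I) {T T' : Set ι} (hA : MeasurableSet A) (hB : MeasurableSet B)
    (dA : Dep A T) (dB : Dep B T') (hd : Disjoint T T') : PM π (A ∩ B) = PM π A * PM π B := by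
  have e : (fun z : (ι → Bool) × (ι → Bool) => splice T z.1 z.2) ⁻¹' (A ∩ B) = A ×ˢ B := by
    ext z
    exact and_congr (dA.iff fun i hi => by simp only [splice, if_pos hi])
      (dB.iff fun i hi => by simp only [splice, if_neg (Set.disjoint_right.1 hd hi)])
  rw [← Measure.prod_prod, ← e, ← Measure.map_apply (measurable_splice T) (hA.inter hB),
    splice_map]

/-- resampling outside a finite stopping set -/
theorem resample [Countable ι] (π : ι → I) (R : (ι → Bool) → Finset ι)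
    (hR : ∀ ω ω', (∀ i ∈ R ω, ω i = ω' i) → R ω' = R ω) (hA : MeasurableSet A) :
    (PM π).prod (PM π) {z | splice (R z.1 : Set ι) z.1 z.2 ∈ A} = PM π A := by
  have hC : ∀ R0 : Finset ι, MeasurableSet {ω | R ω = R0} := fun R0 =>
    (Dep.loc (S := (R0 : Set ι)) (fun ω ω' h (e : R ω = R0) =>
      (hR ω ω' fun i hi => h i (e ▸ hi)).trans e) R0.finite_toSet).measurableSet
  have key : ∀ (R0 : Finset ι) (z : (ι → Bool) × (ι → Bool)),
      R (splice (R0 : Set ι) z.1 z.2) = R0 ↔ R z.1 = R0 := by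
    intro R0 z
    have h : ∀ i ∈ R0, splice (R0 : Set ι) z.1 z.2 i = z.1 i := fun i hi => by
      simp only [splice, if_pos (Finset.mem_coe.2 hi)]
    exact ⟨fun e => (hR _ _ fun i hi => h i (e ▸ hi)).trans e,
      fun e => (hR _ _ fun i hi => (h i (e ▸ hi)).symm).trans e⟩
  have e1 : {z : (ι → Bool) × (ι → Bool) | splice (R z.1 : Set ι) z.1 z.2 ∈ A} =
      ⋃ R0 : Finset ι, (fun z => splice (R0 : Set ι) z.1 z.2) ⁻¹' (A ∩ {ω | R ω = R0}) := by
    ext z
    refine ⟨fun h => Set.mem_iUnion.2 ⟨R z.1, h, (key _ z).2 rfl⟩, fun h => ?_⟩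
    obtain ⟨R0, h1, h2⟩ := Set.mem_iUnion.1 h
    obtain rfl := (key R0 z).1 h2
    exact h1
  have e2 : A = ⋃ R0 : Finset ι, A ∩ {ω | R ω = R0} := by
    ext ω
    simp
  rw [e1, measure_iUnion (fun a b hab => Set.disjoint_left.2 fun z h1 h2 =>
      hab (((key a z).1 h1.2).symm.trans ((key b z).1 h2.2)))
    fun R0 => measurable_splice _ (hA.inter (hC R0))]
  conv_rhs => rw [e2, measure_iUnion (fun a b hab => Set.disjoint_left.2 fun z h1 h2 =>
      hab (Eq.trans (Eq.symm h1.2) h2.2)) fun R0 => hA.inter (hC R0)]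
  refine tsum_congr fun R0 => ?_
  rw [← Measure.map_apply (measurable_splice _) (hA.inter (hC R0)), splice_map]

theorem PM_list_ge (p : I) (l : List ι) {n : ℕ} (hl : l.length ≤ n) :
    ofReal ((p : ℝ) ^ n) ≤ PM (fun _ => p) {ω : ι → Bool | ∀ i ∈ l, ω i = true} := by
  classical
  have e : {ω : ι → Bool | ∀ i ∈ l, ω i = true} = {ω | ∀ i ∈ l.toFinset, ω i = (fun _ => true) i} := by
    simp only [List.mem_toFinset]
  rw [e, ← ofReal_measureReal]
  refine ENNReal.ofReal_le_ofReal ?_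
  refine le_of_le_of_eq ?_ (Pr_cyl (fun _ => p) l.toFinset fun _ => true).symm
  rw [wt_true, Finset.prod_const]
  exact pow_le_pow_of_le_one p.2.1 p.2.2 ((List.toFinset_card_le l).trans hl)

theorem PM_cyl_ge (p : I) (J : Finset ι) (η : ι → Bool) {n : ℕ} (hJ : J.card ≤ n) :
    ofReal (min (p : ℝ) (1 - p) ^ n) ≤ PM (fun _ => p) {ω | ∀ i ∈ J, ω i = η i} := by
  rw [← ofReal_measureReal]
  refine ENNReal.ofReal_le_ofReal ?_
  refine le_of_le_of_eq ?_ (Pr_cyl (fun _ => p) J η).symm
  have h0 : 0 ≤ min (p : ℝ) (1 - p) := le_min p.2.1 (sub_nonneg.2 p.2.2)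
  refine (pow_le_pow_of_le_one h0 ((min_le_left _ _).trans p.2.2) hJ).trans ?_
  rw [← Finset.prod_const]
  refine Finset.prod_le_prod (fun _ _ => h0) fun i _ => ?_
  cases η i
  · exact min_le_right _ _
  · exact min_le_left _ _

theorem PM_eval (π : ι → I) (i : ι) (b : Bool) :
    PM π {ω | ω i = b} = ofReal (wt (π i) b) := by
  rw [← Pr_eval, Pr, ofReal_measureReal]

open Classical in
theorem measurable_update' (i : ι) (b : Bool) :
    Measurable fun ω : ι → Bool => Function.update ω i b :=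
  measurable_update_left

/-- a countable product of independent events of positive probability -/
theorem ae_exists_of_indep [Countable ι] (π : ι → I) {A : ℕ → Set (ι → Bool)} {T : ℕ → Set ι}
    (hA : ∀ n, MeasurableSet (A n)) (hd : ∀ n, Dep (A n) (T n))
    (hT : Pairwise fun m n => Disjoint (T m) (T n)) {β : ℝ≥0∞} (h0 : 0 < β)
    (hβ : ∀ n, β ≤ PM π (A n)) : ∀ᵐ ω ∂PM π, ∃ n, ω ∈ A n := by
  have key : ∀ N, PM π (⋂ n < N, (A n)ᶜ) ≤ (1 - β) ^ N := by
    intro N
    induction N with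
    | zero => rw [pow_zero]; exact prob_le_one
    | succ N ih =>
      have hB : Dep (⋂ n < N, (A n)ᶜ) (⋃ n < N, T n) :=
        Dep.iInter fun n => Dep.iInter fun hn =>
          (hd n).compl.mono (Set.subset_biUnion_of_mem (u := T) hn)
      rw [Set.biInter_lt_succ, PM_indep π
        (MeasurableSet.iInter fun n => MeasurableSet.iInter fun _ => (hA n).compl) (hA N).compl hB
        (hd N).compl (Set.disjoint_iUnion₂_left.2 fun n hn => hT hn.ne), pow_succ,
        prob_compl_eq_one_sub (hA N)]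
      exact mul_le_mul' ih (tsub_le_tsub_left (hβ N) 1)
  rw [ae_iff]
  refine le_antisymm (ge_of_tendsto' (ENNReal.tendsto_pow_atTop_nhds_zero_of_lt_one
    (ENNReal.sub_lt_self ENNReal.one_ne_top one_ne_zero h0.ne')) fun N => ?_) zero_le
  refine (measure_mono fun ω hω => ?_).trans (key N)
  exact Set.mem_iInter₂.2 fun n _ h => hω ⟨n, h⟩

/-- second moment method -/
theorem sq_le_meas_mul {α : Type*} [MeasurableSpace α] (μ : Measure α) {Z : α → ℝ≥0∞}
    (hZ : Measurable Z) : (∫⁻ a, Z a ∂μ) ^ 2 ≤ μ {a | Z a ≠ 0} * ∫⁻ a, Z a ^ 2 ∂μ := by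
  have hm : MeasurableSet {a | Z a ≠ 0} := (hZ (measurableSet_singleton 0)).compl
  have h := ENNReal.lintegral_mul_le_Lp_mul_Lq μ Real.HolderConjugate.two_two
    (f := {a | Z a ≠ 0}.indicator 1) (g := Z) (measurable_one.indicator hm).aemeasurable
    hZ.aemeasurable
  have e1 : ∀ a, ({a | Z a ≠ 0}.indicator (1 : α → ℝ≥0∞) * Z) a = Z a := by
    intro a
    by_cases h : Z a = 0 <;> simp [h]
  have e2 : ∀ a, {a | Z a ≠ 0}.indicator (1 : α → ℝ≥0∞) a ^ (2 : ℝ) =
      {a | Z a ≠ 0}.indicator 1 a := by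
    intro a
    by_cases h : Z a = 0 <;> simp [h]
  have e3 : ∀ x : ℝ≥0∞, (x ^ (1 / 2 : ℝ)) ^ 2 = x := by
    intro x
    rw [← ENNReal.rpow_two, ← ENNReal.rpow_mul]
    norm_num
  simp only [e1, e2, lintegral_indicator_one hm] at h
  simp only [ENNReal.rpow_two] at h
  refine (pow_le_pow_left' h 2).trans_eq ?_
  rw [mul_pow, e3, e3]

theorem lintegral_le_min_add {α : Type*} [MeasurableSpace α] (μ : Measure α) {Z : α → ℝ≥0∞}
    (hZ : Measurable Z) {T : ℝ≥0∞} (h0 : T ≠ 0) (hT : T ≠ ⊤) :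
    ∫⁻ a, Z a ∂μ ≤ ∫⁻ a, min (Z a) T ∂μ + (∫⁻ a, Z a ^ 2 ∂μ) / T := by
  rw [div_eq_mul_inv, ← lintegral_mul_const _ (hZ.pow_const 2),
    ← lintegral_add_left (hZ.min measurable_const)]
  refine lintegral_mono fun a => ?_
  rcases le_total (Z a) T with h | h
  · rw [min_eq_left h]; exact le_self_add
  · refine le_trans ?_ le_add_self
    rw [← div_eq_mul_inv, ENNReal.le_div_iff_mul_le (.inl h0) (.inl hT), pow_two]
    exact mul_le_mul' le_rfl h

end Pool.Agent.P.MP_3aa27f_pr.F
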