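import Pool.Agent.P.MP_3aa27f_pr.F.PrA
import Pool.Agent.P.MP_3aa27f_pr.F.PrB
import Pool.Agent.P.MP_3aa27f_pr.F.KA

/-! Connection events: basic properties. -/

open MeasureTheory unitInterval SimpleGraph
open ENNReal (ofReal)
open scoped ENNReal

namespace Pool.Agent.P.MP_3aa27f_pr.F

variable {V : Type} {G : SimpleGraph V} [G.LocallyFinite] [Countable V] {S : Geo G} {p : I}
variable {F F' : Set (Sym2 V)} {R R' : ℕ∞} {x y z : V} {Y : Set V} {ω : Cf V}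

section

omit [G.LocallyFinite] [Countable V]

theorem CnL_top : CnL G F ⊤ x y = Cn G F x y :=
  Set.ext fun _ => ⟨fun ⟨w, _, hw⟩ => ⟨w, hw⟩, fun ⟨w, hw⟩ => ⟨w, le_top, hw⟩⟩

theorem CnL_sub : CnL G F R x y ⊆ Cn G F x y := fun _ ⟨w, _, hw⟩ => ⟨w, hw⟩

theorem CnL_mono (hF : F ⊆ F') (hR : R ≤ R') : CnL G F R x y ⊆ CnL G F' R' x y :=
  fun _ ⟨w, h, hw⟩ => ⟨w, h.trans hR, fun e he => ⟨hF (hw e he).1, (hw e he).2⟩⟩

theorem CnL_mono' (h : ∀ a b, G.Adj a b → s(a, b) ∈ F → s(a, b) ∈ F') :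
    CnL G F R x y ⊆ CnL G F' R x y := by
  rintro ω ⟨w, hl, hw⟩
  refine ⟨w, hl, fun e he => ⟨?_, (hw e he).2⟩⟩
  have h1 := w.edges_subset_edgeSet he
  have h2 := (hw e he).1
  induction e using Sym2.ind with
  | _ a b => exact h a b h1 h2

theorem CnL_refl (F : Set (Sym2 V)) (R : ℕ∞) (x : V) (ω : Cf V) : ω ∈ CnL G F R x x :=
  ⟨.nil, by simp, by simp⟩

theorem cnx0_symm (h : ω ∈ CnL G F R x y) : ω ∈ CnL G F R y x :=
  let ⟨w, hl, hw⟩ := h; ⟨w.reverse, by simpa using hl, by simpa using hw⟩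

theorem CnL_comm : CnL G F R x y = CnL G F R y x := Set.ext fun _ => ⟨cnx0_symm, cnx0_symm⟩

theorem CnL_trans (h : ω ∈ CnL G F R x y) (h' : ω ∈ CnL G F R' y z) :
    ω ∈ CnL G F (R + R') x z := by
  obtain ⟨w, hl, hw⟩ := h
  obtain ⟨w', hl', hw'⟩ := h'
  refine ⟨w.append w', ?_, fun e he => ?_⟩
  · rw [Walk.length_append, Nat.cast_add]
    exact add_le_add hl hl'
  · rw [Walk.edges_append, List.mem_append] at he
    exact he.elim (hw e) (hw' e)

theorem CnL_dep : Dep (CnL G F R x y) F := fun _ _ h ⟨w, hl, hw⟩ =>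
  ⟨w, hl, fun e he => ⟨(hw e he).1, h e (hw e he).1 ▸ (hw e he).2⟩⟩

theorem CnL_path (h : ω ∈ CnL G F R x y) : ∃ w : G.Walk x y, w.IsPath ∧ (w.length : ℕ∞) ≤ R ∧
    ∀ e ∈ w.edges, e ∈ F ∧ ω e = true := by
  classical
  obtain ⟨w, hl, hw⟩ := h
  exact ⟨w.bypass, w.bypass_isPath, le_trans (by exact_mod_cast w.length_bypass_le_length) hl,
    fun e he => hw e (w.edges_bypass_subset_edges he)⟩

theorem CnL_dist {n : ℕ} (h : ω ∈ CnL G F n x y) : G.dist x y ≤ n := by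
  obtain ⟨w, hl, -⟩ := h
  exact (G.dist_le w).trans (by exact_mod_cast hl)

theorem Cn_eq_iUnion : Cn G F x y = ⋃ n : ℕ, CnL G F n x y :=
  Set.Subset.antisymm (fun _ ⟨w, hw⟩ => Set.mem_iUnion.2 ⟨w.length, w, le_rfl, hw⟩)
    (Set.iUnion_subset fun _ => CnL_sub)

theorem CnL_FU : FU (CnL G F R x y) := by
  classical
  refine ⟨fun ω ω' h ⟨w, hl, hw⟩ => ⟨w, hl, fun e he => ⟨(hw e he).1, ?_⟩⟩,
    fun ω ⟨w, hl, hw⟩ => ⟨w.edges.toFinset, w, hl, fun e he => ⟨(hw e he).1, ?_⟩⟩⟩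
  · have := h e
    rw [(hw e he).2] at this
    exact top_le_iff.1 this
  · simp [he, (hw e he).2]

theorem Cn_FU : FU (Cn G F x y) := CnL_top (G := G) (F := F) (x := x) (y := y) ▸ CnL_FU

theorem Rch_FU : FU (Rch G F x Y) :=
  ⟨Rch_upper, fun ω ⟨z, hz, h⟩ => let ⟨T, hT⟩ := Cn_FU.2 ω h; ⟨T, z, hz, hT⟩⟩

theorem XY_FU {X : Set V} : FU (XY G F X Y) :=
  ⟨fun _ _ h ⟨z, hz, h1⟩ => ⟨z, hz, Rch_upper h h1⟩,
    fun ω ⟨z, hz, h⟩ => let ⟨T, hT⟩ := Rch_FU.2 ω h; ⟨T, z, hz, hT⟩⟩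

theorem XY_singleton : XY G F {x} Y = Rch G F x Y := by ext; simp [XY]

theorem tauL_top : tauL G p F ⊤ x y = tau G p F x y := by rw [tauL, tau, CnL_top]

theorem tauL_mono (hF : F ⊆ F') (hR : R ≤ R') : tauL G p F R x y ≤ tauL G p F' R' x y :=
  measure_mono (CnL_mono hF hR)

theorem tau_mono (hF : F ⊆ F') : tau G p F x y ≤ tau G p F' x y := measure_mono (Cn_mono hF)

theorem tauL_comm : tauL G p F R x y = tauL G p F R y x := by rw [tauL, tauL, CnL_comm]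

theorem tau_comm : tau G p F x y = tau G p F y x := by rw [tau, tau, Cn_comm]

theorem tauL_self : tauL G p F R x x = 1 := by
  rw [tauL, Set.eq_univ_of_forall (CnL_refl F R x), measure_univ]

theorem tau_self : tau G p F x x = 1 := by rw [← tauL_top, tauL_self]

theorem tauL_le_one : tauL G p F R x y ≤ 1 := prob_le_one

theorem tau_le_one : tau G p F x y ≤ 1 := prob_le_one

theorem rch_le_one : rch G p F x Y ≤ 1 := prob_le_one

theorem rch_mono {Y' : Set V} (hF : F ⊆ F') (hY : Y ⊆ Y') : rch G p F x Y ≤ rch G p F' x Y' :=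
  measure_mono (Rch_mono hF hY)

theorem rch_singleton : rch G p F x {y} = tau G p F x y := by rw [rch, tau, Rch_single]

theorem tau_eq_iSup : tau G p F x y = ⨆ n : ℕ, tauL G p F n x y := by
  rw [tau, Cn_eq_iUnion]
  exact Monotone.measure_iUnion fun a b hab => CnL_mono le_rfl (by exact_mod_cast hab)

theorem mem_Kl_self : x ∈ Kl G F x ω := Cn_refl F x ω

theorem Kl_mono (hF : F ⊆ F') : Kl G F x ω ⊆ Kl G F' x ω := fun _ h => Cn_mono hF h

/-- a set closed under open edges of `F` contains the cluster -/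
theorem Kl_sub_of_closed {C : Set V} (hx : x ∈ C)
    (h : ∀ a ∈ C, ∀ b, G.Adj a b → s(a, b) ∈ F → ω s(a, b) = true → b ∈ C) : Kl G F x ω ⊆ C := by
  rintro y ⟨w, hw⟩
  induction w with
  | nil => exact hx
  | @cons u v _ huv p ih =>
    exact ih (h u hx v huv (hw s(u, v) (by simp)).1 (hw s(u, v) (by simp)).2)
      fun e he => hw e (by simp [he])

theorem Kl_step {a b : V} (ha : a ∈ Kl G F x ω) (hab : G.Adj a b) (hF : s(a, b) ∈ F)
    (hω : ω s(a, b) = true) : b ∈ Kl G F x ω := Cn_trans ha (Cn_edge hab hF hω)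

end

end Pool.Agent.P.MP_3aa27f_pr.F
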