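import Pool.Agent.P.MP_3aa27f_pr.F.Cnx

/-! The differential inequality of Duminil-Copin and Tassion. -/

open MeasureTheory unitInterval SimpleGraph
open ENNReal (ofReal)
open scoped ENNReal

namespace Pool.Agent.P.MP_3aa27f_pr.F

section Russo

variable {ι : Type*}

theorem dct_sec_comm (A : Set (ι → Bool)) {i j : ι} (h : i ≠ j) (b c : Bool) :
    sec (sec A i b) j c = sec (sec A j c) i b := by
  classical
  ext ω
  simp only [sec, Set.mem_ofPred_eq]
  rw [Function.update_comm h]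

/-- the formula of Russo -/
theorem dct_russo (J : Finset ι) : ∀ {A : Set (ι → Bool)}, Dep A J →
    ∃ f f' : ℝ → ℝ, (∀ t, HasDerivAt f (f' t) t) ∧ ∀ t : I, f t = Pr (fun _ => t) A ∧
      f' t = ∑ e ∈ J, (Pr (fun _ => t) (sec A e true) - Pr (fun _ => t) (sec A e false)) := by
  classical
  induction J using Finset.induction_on with
  | empty =>
    intro A h
    rcases Dep.empty_cases (by simpa using h) with rfl | rfl
    · exact ⟨fun _ => 0, fun _ => 0, fun t => hasDerivAt_const t _, fun t => by simp⟩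
    · exact ⟨fun _ => 1, fun _ => 0, fun t => hasDerivAt_const t _, fun t => by simp⟩
  | insert i S hi ih =>
    intro A h
    have hL := h.loc (Finset.finite_toSet _)
    rw [Finset.coe_insert] at h
    obtain ⟨f0, g0, d0, e0⟩ := ih (h.sec false)
    obtain ⟨f1, g1, d1, e1⟩ := ih (h.sec true)
    refine ⟨fun t => (1 - t) * f0 t + t * f1 t,
      fun t => (-1 * f0 t + (1 - t) * g0 t) + (1 * f1 t + t * g1 t), fun t => ?_, fun t => ?_⟩
    · exact (((hasDerivAt_id t).const_sub 1).mul (d0 t)).add ((hasDerivAt_id t).mul (d1 t))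
    · obtain ⟨a0, b0⟩ := e0 t
      obtain ⟨a1, b1⟩ := e1 t
      refine ⟨?_, ?_⟩
      · simp only [a0, a1]; exact (Pr_sec (fun _ => t) hL i).symm
      · simp only [a0, a1, b0, b1]
        rw [Finset.sum_insert hi, Finset.mul_sum, Finset.mul_sum]
        have : ∑ e ∈ S, (Pr (fun _ => t) (sec A e true) - Pr (fun _ => t) (sec A e false)) =
            ∑ e ∈ S, ((1 - (t : ℝ)) * (Pr (fun _ => t) (sec (sec A i false) e true) -
              Pr (fun _ => t) (sec (sec A i false) e false)) +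
              (t : ℝ) * (Pr (fun _ => t) (sec (sec A i true) e true) -
              Pr (fun _ => t) (sec (sec A i true) e false))) := by
          refine Finset.sum_congr rfl fun e he => ?_
          have hne : e ≠ i := fun h => hi (h ▸ he)
          rw [Pr_sec _ (hL.sec e true) i, Pr_sec _ (hL.sec e false) i]
          simp only [dct_sec_comm A hne]
          ring
        rw [this, Finset.sum_add_distrib]
        ring

theorem dct_piv (π : ι → I) {A : Set (ι → Bool)} (hA : Loc A) (hU : IsUpperSet A) (e : ι) :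
    Pr π (sec A e true \ A) ≤ Pr π (sec A e true) - Pr π (sec A e false) := by
  classical
  have h1 : sec A e false ⊆ A := fun ω hω => hU (fun j => by
    by_cases hj : j = e
    · subst hj; simp
    · rw [Function.update_of_ne hj]) hω
  have h2 : Pr π (sec A e true ∩ sec A e false) + Pr π (sec A e true \ sec A e false) =
      Pr π (sec A e true) := measureReal_inter_add_sdiff (hA.sec e false).measurableSet
  rw [Set.inter_eq_right.2 (sec_sub hU e)] at h2
  have h3 : Pr π (sec A e true \ A) ≤ Pr π (sec A e true \ sec A e false) :=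
    Pr_mono (Set.sdiff_subset_sdiff_right h1)
  linarith

end Russo

variable {V : Type} {G : SimpleGraph V} [G.LocallyFinite] [Countable V] {S : Geo G} {p : I}

section

omit [G.LocallyFinite] [Countable V]

/-- the set of points of `Λ` that are not joined to `Z` equals `T` -/
def dct_E (G : SimpleGraph V) (J : Set (Sym2 V)) (Λ : Finset V) (T : Finset V) : Set (Cf V) :=
  {ω | ∀ u ∈ Λ, (u ∈ T ↔ ω ∉ Rch G J u (↑Λ : Set V)ᶜ)}

theorem dct_E_dep (J : Set (Sym2 V)) (Λ T : Finset V) : Dep (dct_E G J Λ T) J :=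
  fun _ _ hω h u hu => (h u hu).trans (not_congr (Rch_dep.iff hω))

theorem dct_walk {J : Set (Sym2 V)} {Z T : Set V} {ω ω' : Cf V}
    (hT : ∀ x, ω ∈ Rch G J x Z → x ∉ T) (ha : ∀ e ∈ (EIn T)ᶜ, ω e = ω' e) {x z : V}
    (w : G.Walk x z) (hz : z ∈ Z) (hw : ∀ e ∈ w.edges, e ∈ J ∧ (ω e = true ∨ ω' e = true)) :
    ω ∈ Rch G J x Z ∧ ω' ∈ Rch G J x Z := by
  induction w with
  | nil => exact ⟨⟨_, hz, Cn_refl _ _ _⟩, ⟨_, hz, Cn_refl _ _ _⟩⟩
  | @cons a b c hab w ih =>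
    obtain ⟨h1, h2⟩ := ih hz fun e he => hw e (by simp [he])
    obtain ⟨h3, h4⟩ := hw s(a, b) (by simp)
    have h5 : ω s(a, b) = ω' s(a, b) := ha _ fun h => hT b h1 (mem_EIn.1 h).2
    have h6 : ω s(a, b) = true := h4.elim id fun h => h5.trans h
    exact ⟨Rch_trans (Cn_edge hab h3 h6) h1, Rch_trans (Cn_edge hab h3 (h5 ▸ h6)) h2⟩

theorem dct_E_dep' (J : Set (Sym2 V)) {Λ T : Finset V} (hT : T ⊆ Λ) :
    Dep (dct_E G J Λ T) (EIn (↑T : Set V))ᶜ := by
  intro ω ω' ha h u hu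
  have h1 : ∀ x, ω ∈ Rch G J x (↑Λ : Set V)ᶜ → x ∉ (↑T : Set V) := fun x hx hxT =>
    (h x (hT hxT)).1 hxT hx
  refine (h u hu).trans (not_congr ⟨?_, ?_⟩)
  · rintro ⟨z, hz, w, hw⟩
    exact (dct_walk h1 ha w hz fun e he => ⟨(hw e he).1, Or.inl (hw e he).2⟩).2
  · rintro ⟨z, hz, w, hw⟩
    exact (dct_walk h1 ha w hz fun e he => ⟨(hw e he).1, Or.inr (hw e he).2⟩).1

theorem dct_E_disj (J : Set (Sym2 V)) {Λ T T' : Finset V} (hT : T ⊆ Λ) (hT' : T' ⊆ Λ)
    {ω : Cf V} (h : ω ∈ dct_E G J Λ T) (h' : ω ∈ dct_E G J Λ T') : T = T' := by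
  ext u
  exact ⟨fun hu => (h' u (hT hu)).2 ((h u (hT hu)).1 hu),
    fun hu => (h u (hT' hu)).2 ((h' u (hT' hu)).1 hu)⟩

theorem dct_sub {F J : Set (Sym2 V)} {Λ T : Finset V} (hT : T ⊆ Λ) {v u u' : V} (hv : v ∈ T)
    (hJ : ∀ a b, G.Adj a b → a ∈ Λ → s(a, b) ∈ F → s(a, b) ∈ J) (hu : u ∈ T) (hu' : u' ∉ T)
    (ha : G.Adj u u') (hF : s(u, u') ∈ F) :
    dct_E G J Λ T ∩ Cn G (F ∩ EIn ↑T) v u ⊆
      sec (Rch G J v (↑Λ : Set V)ᶜ) s(u, u') true \ Rch G J v (↑Λ : Set V)ᶜ := by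
  classical
  rintro ω ⟨h1, h2⟩
  refine ⟨?_, (h1 v (hT hv)).1 hv⟩
  have hle : ω ≤ Function.update ω s(u, u') true := fun j => by
    by_cases hj : j = s(u, u')
    · subst hj; simp
    · rw [Function.update_of_ne hj]
  have h3 : ω ∈ Cn G J v u :=
    Cn_mono' (fun a b hab he => hJ a b hab (hT (mem_EIn.1 he.2).1) he.1) h2
  have h4 : ω ∈ Rch G J u' (↑Λ : Set V)ᶜ := by
    by_cases h : u' ∈ Λ
    · by_contra h5
      exact hu' ((h1 u' h).2 h5)
    · exact ⟨u', h, Cn_refl _ _ _⟩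
  have h5 : Function.update ω s(u, u') true ∈ Rch G J v (↑Λ : Set V)ᶜ :=
    Rch_trans (Cn_upper hle h3) (Rch_trans (Cn_edge ha (hJ u u' ha (hT hu) hF) (by simp))
      (Rch_upper hle h4))
  simp only [sec, Set.mem_ofPred_eq]
  refine Rch_upper (fun j => ?_) h5
  by_cases hj : j = s(u, u')
  · subst hj; simp
  · simp [hj]

end

open Classical in
/-- boundary pairs -/
noncomputable def dct_B (G : SimpleGraph V) [G.LocallyFinite] (F : Set (Sym2 V)) (T : Finset V) :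
    Finset (Σ _ : V, V) :=
  T.sigma fun u => (G.neighborFinset u).filter fun u' => u' ∉ T ∧ s(u, u') ∈ F

omit [Countable V] in
theorem dct_mem_B {F : Set (Sym2 V)} {T : Finset V} {x : Σ _ : V, V} :
    x ∈ dct_B G F T ↔ x.1 ∈ T ∧ G.Adj x.1 x.2 ∧ x.2 ∉ T ∧ s(x.1, x.2) ∈ F := by
  simp [dct_B]

omit [Countable V] in
theorem dct_psi (p : I) (F : Set (Sym2 V)) (v : V) (T : Finset V) : psi G p F v T =
    ofReal (∑ x ∈ dct_B G F T, Pr (fun _ => p) (Cn G (F ∩ EIn ↑T) v x.1)) := by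
  classical
  rw [ENNReal.ofReal_sum_of_nonneg fun _ _ => Pr_nonneg _ _, dct_B, Finset.sum_sigma, psi]
  refine Finset.sum_congr rfl fun u _ => ?_
  rw [tsum_eq_sum (s := G.neighborFinset u) fun b hb => if_neg fun h =>
    hb ((G.mem_neighborFinset u b).2 h.1), Finset.sum_filter]
  refine Finset.sum_congr rfl fun b hb => ?_
  have hab := (G.mem_neighborFinset u b).1 hb
  simp only [hab, true_and]
  split_ifs
  · exact (ofReal_measureReal (measure_ne_top _ _)).symm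
  · rfl

omit [Countable V] in
theorem dct_main {F : Set (Sym2 V)} {v : V} {Λ : Finset V} {J : Finset (Sym2 V)} (hv : v ∈ Λ)
    (hJ : ∀ a b, G.Adj a b → a ∈ Λ → s(a, b) ∈ F → s(a, b) ∈ J) (t : I)
    (h : ∀ T : Finset V, v ∈ T →
      1 / 2 ≤ ∑ x ∈ dct_B G F T, Pr (fun _ => t) (Cn G (F ∩ EIn ↑T) v x.1)) :
    (1 - Pr (fun _ => t) (Rch G J v (↑Λ : Set V)ᶜ)) / 2 ≤
      ∑ e ∈ J, Pr (fun _ => t) (sec (Rch G J v (↑Λ : Set V)ᶜ) e true \ Rch G J v (↑Λ : Set V)ᶜ) := by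
  classical
  set A := Rch G J v (↑Λ : Set V)ᶜ with hA
  set P := Λ.powerset.filter fun T => v ∈ T with hP
  have mP : ∀ T ∈ P, T ⊆ Λ ∧ v ∈ T := fun T hT => by simpa [hP] using hT
  have lE : ∀ T, Loc (dct_E G (J : Set (Sym2 V)) Λ T) := fun T =>
    (dct_E_dep _ Λ T).loc J.finite_toSet
  have lC : ∀ (T : Finset V) u, Loc (Cn G (F ∩ EIn ↑T) v u) := fun T u =>
    Cn_loc ((EIn_finite T.finite_toSet).inter_of_right _)
  have h1 : 1 - Pr (fun _ => t) A ≤ ∑ T ∈ P, Pr (fun _ => t) (dct_E G J Λ T) := by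
    rw [← Pr_compl _ (Rch_loc J.finite_toSet)]
    refine le_trans (Pr_mono fun ω hω => ?_) (Pr_exists_le _ P _)
    refine ⟨Λ.filter fun u => ω ∉ Rch G J u (↑Λ : Set V)ᶜ, ?_, fun u hu => by simp [hu]⟩
    simp only [hP, Finset.mem_filter, Finset.mem_powerset, Finset.filter_subset, true_and]
    exact ⟨hv, hω⟩
  have h2 : ∀ T ∈ P, Pr (fun _ => t) (dct_E G J Λ T) / 2 ≤
      ∑ x ∈ dct_B G F T, Pr (fun _ => t) (dct_E G J Λ T ∩ Cn G (F ∩ EIn ↑T) v x.1) := by
    intro T hT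
    have : ∑ x ∈ dct_B G F T, Pr (fun _ => t) (dct_E G J Λ T ∩ Cn G (F ∩ EIn ↑T) v x.1) =
        Pr (fun _ => t) (dct_E G J Λ T) *
          ∑ x ∈ dct_B G F T, Pr (fun _ => t) (Cn G (F ∩ EIn ↑T) v x.1) := by
      rw [Finset.mul_sum]
      exact Finset.sum_congr rfl fun x _ => Pr_inter_indep _ (lE T) (lC T _)
        (dct_E_dep' _ (mP T hT).1) (Cn_dep.mono Set.inter_subset_right) disjoint_compl_left
    rw [this]
    have := mul_le_mul_of_nonneg_left (h T (mP T hT).2)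
      (Pr_nonneg (fun _ => t) (dct_E G J Λ T))
    linarith
  set Q := P.sigma fun T => dct_B G F T with hQ
  have mQ : ∀ y ∈ Q, y.1 ∈ P ∧ y.2 ∈ dct_B G F y.1 := fun y hy => Finset.mem_sigma.1 hy
  have h3 : ∑ y ∈ Q, Pr (fun _ => t) (dct_E G J Λ y.1 ∩ Cn G (F ∩ EIn ↑y.1) v y.2.1) ≤
      ∑ e ∈ J, Pr (fun _ => t) (sec A e true \ A) := by
    rw [← Finset.sum_fiberwise_of_maps_to (s := Q) (t := J) (g := fun y => s(y.2.1, y.2.2))
      fun y hy => by
        obtain ⟨a, b⟩ := mQ y hy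
        obtain ⟨b1, b2, -, b4⟩ := dct_mem_B.1 b
        exact hJ _ _ b2 ((mP _ a).1 b1) b4]
    refine Finset.sum_le_sum fun e _ => sum_Pr_le _ _ ?_ (fun y _ => (lE _).inter (lC _ _)) ?_
    · intro y hy y' hy' hne
      obtain ⟨hy, he⟩ := Finset.mem_filter.1 hy
      obtain ⟨hy', he'⟩ := Finset.mem_filter.1 hy'
      refine Set.disjoint_left.2 fun ω h4 h5 => hne ?_
      obtain ⟨T, u, w⟩ := y
      obtain ⟨T', u', w'⟩ := y'
      obtain ⟨a, b⟩ := mQ _ hy
      obtain ⟨a', b'⟩ := mQ _ hy'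
      obtain rfl : T = T' := dct_E_disj _ (mP _ a).1 (mP _ a').1 h4.1 h5.1
      obtain ⟨b1, -, b3, -⟩ := dct_mem_B.1 b
      obtain ⟨b1', -, b3', -⟩ := dct_mem_B.1 b'
      rcases Sym2.eq_iff.1 (he.trans he'.symm) with ⟨rfl, rfl⟩ | ⟨rfl, rfl⟩
      · rfl
      · exact (b3' b1).elim
    · intro y hy
      obtain ⟨hy', he⟩ := Finset.mem_filter.1 hy
      obtain ⟨a, b⟩ := mQ _ hy'
      obtain ⟨b1, b2, b3, b4⟩ := dct_mem_B.1 b
      rw [← he]
      exact dct_sub (mP _ a).1 (mP _ a).2 hJ b1 b3 b2 b4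
  rw [hQ, Finset.sum_sigma] at h3
  have h4 := Finset.sum_le_sum h2
  rw [← Finset.sum_div] at h4
  linarith

omit [Countable V] in
theorem dct_fin {F : Set (Sym2 V)} {v : V} {q : I} (hpq : p < q)
    (h : ∀ T : Finset V, v ∈ T → 1 / 2 ≤ psi G p F v T) {Λ : Finset V} (hv : v ∈ Λ) :
    ofReal (1 - Real.exp (((p : ℝ) - q) / 2)) ≤ mu V q (Rch G F v (↑Λ : Set V)ᶜ) := by
  classical
  have hfin : (F ∩ (G.edgeSet ∩ ETo (↑Λ : Set V))).Finite :=
    (edges_touch_finite Λ.finite_toSet).inter_of_right _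
  set J := hfin.toFinset with hJd
  have hJ : ∀ a b, G.Adj a b → a ∈ Λ → s(a, b) ∈ F → s(a, b) ∈ J := fun a b hab ha hF =>
    hfin.mem_toFinset.2 ⟨hF, hab, a, by simp, ha⟩
  have hJF : (J : Set (Sym2 V)) ⊆ F := fun e he => (hfin.mem_toFinset.1 he).1
  set A := Rch G J v (↑Λ : Set V)ᶜ with hA
  obtain ⟨f, f', hd, hf⟩ := dct_russo J (A := A) Rch_dep
  have key : ∀ t ∈ Set.Icc (p : ℝ) q, (1 - f t) / 2 ≤ f' t := by
    intro t ht
    obtain ⟨e1, e2⟩ := hf ⟨t, p.2.1.trans ht.1, ht.2.trans q.2.2⟩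
    simp only at e1 e2
    rw [e1, e2]
    refine (dct_main hv hJ _ fun T hT => ?_).trans
      (Finset.sum_le_sum fun e _ => dct_piv _ (Rch_loc J.finite_toSet) Rch_upper e)
    have h1 := h T hT
    rw [dct_psi] at h1
    have h2 : (1 / 2 : ℝ≥0∞) = ofReal (1 / 2) := by
      rw [ENNReal.ofReal_div_of_pos (by norm_num)]; simp
    rw [h2, ENNReal.ofReal_le_ofReal_iff (Finset.sum_nonneg fun _ _ => Pr_nonneg _ _)] at h1
    exact h1.trans (Finset.sum_le_sum fun x _ => Pr_mono_p _ _ ht.1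
      (Cn_loc ((EIn_finite T.finite_toSet).inter_of_right _)) Cn_upper)
  have hg : ∀ t, HasDerivAt (fun t => Real.exp (t / 2) * (1 - f t))
      (Real.exp (t / 2) * (1 / 2) * (1 - f t) + Real.exp (t / 2) * -f' t) t := fun t =>
    (((hasDerivAt_id t).div_const 2).exp).mul ((hd t).const_sub 1)
  have anti : AntitoneOn (fun t => Real.exp (t / 2) * (1 - f t)) (Set.Icc (p : ℝ) q) := by
    refine antitoneOn_of_deriv_nonpos (convex_Icc _ _)
      (fun t _ => (hg t).continuousAt.continuousWithinAt)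
      (fun t _ => (hg t).differentiableAt.differentiableWithinAt) fun t ht => ?_
    rw [(hg t).deriv]
    have := key t (interior_subset ht)
    nlinarith [Real.exp_pos (t / 2)]
  have hpq' : (p : ℝ) ≤ q := le_of_lt hpq
  have h1 := anti ⟨le_rfl, hpq'⟩ ⟨hpq', le_rfl⟩ hpq'
  simp only [(hf p).1, (hf q).1] at h1
  have h2 : Real.exp (((p : ℝ) - q) / 2) * Real.exp (q / 2) = Real.exp (p / 2) := by
    rw [← Real.exp_add]; congr 1; ring
  have h3 : 1 - Real.exp (((p : ℝ) - q) / 2) ≤ Pr (fun _ => q) A := by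
    have a := Pr_nonneg (fun _ : Sym2 V => p) A
    have b := Real.exp_pos ((q : ℝ) / 2)
    have c := Real.exp_pos ((p : ℝ) / 2)
    by_contra hc
    push Not at hc
    nlinarith
  refine (ENNReal.ofReal_le_ofReal h3).trans ?_
  rw [Pr, ofReal_measureReal (measure_ne_top _ _)]
  exact measure_mono (Rch_mono hJF subset_rfl)

theorem dct (hG : G.Connected) {F : Set (Sym2 V)} {v : V} {q : I} (hpq : p < q)
    (h : ∀ T : Finset V, v ∈ T → 1 / 2 ≤ psi G p F v T) :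
    0 < mu V q {ω | (Kl G F v ω).Infinite} := by
  have hpq' : (p : ℝ) < q := hpq
  have h0 : 0 < ofReal (1 - Real.exp (((p : ℝ) - q) / 2)) :=
    ENNReal.ofReal_pos.2 (sub_pos.2 (Real.exp_lt_one_iff.2 (by linarith)))
  have anti : Antitone fun n : ℕ => Rch G F v (↑(bl hG v n) : Set V)ᶜ := fun n m hnm =>
    Rch_mono subset_rfl (Set.compl_subset_compl.2 fun z hz =>
      (mem_bl hG).2 (((mem_bl hG).1 hz).trans hnm))
  have h1 := tendsto_measure_iInter_atTop (μ := mu V q)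
    (fun n => (Rch_FU (G := G) (F := F) (x := v)
      (Y := (↑(bl hG v n) : Set V)ᶜ)).measurableSet.nullMeasurableSet) anti ⟨0, measure_ne_top _ _⟩
  have h2 := ge_of_tendsto' h1 fun n => dct_fin hpq h (Λ := bl hG v n) ((mem_bl hG).2 (by simp))
  refine (h0.trans_le h2).trans_le (measure_mono fun ω hω hfin => ?_)
  obtain ⟨n, hn⟩ := (hfin.image fun z => G.dist v z).bddAbove
  obtain ⟨z, hz, hc⟩ := Set.mem_iInter.1 hω n
  exact hz ((mem_bl hG).2 (hn ⟨z, hc, rfl⟩))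

end Pool.Agent.P.MP_3aa27f_pr.F
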