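import Pool.Agent.P.MP_3aa27f_pr.F.Cnx

/-! Counting pivotal edges near the source. -/

open MeasureTheory unitInterval SimpleGraph
open ENNReal (ofReal)
open scoped ENNReal

namespace Pool.Agent.P.MP_3aa27f_pr.F

variable {V : Type} {G : SimpleGraph V} [G.LocallyFinite] [Countable V] {S : Geo G} {p : I}
variable {F : Set (Sym2 V)} {l : ℕ} {X Y : Set V}

section

omit [G.LocallyFinite]

omit [Countable V] in
theorem deca_last {x y : V} (w : G.Walk x y) (e : Sym2 V) : ∀ n : ℕ, e ∈ w.edges.drop n →
    ∃ u v, G.Adj u v ∧ ∃ b : G.Walk v y, e = s(u, v) ∧ e ∉ b.edges ∧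
      (∀ e' ∈ b.edges, e' ∈ w.edges) ∧ n + b.length + 1 ≤ w.length := by
  induction w with
  | nil => simp
  | @cons u v t h q ih =>
    intro n hn
    cases n with
    | zero =>
      by_cases he : e ∈ q.edges
      · obtain ⟨u', v', h', b, h1, h2, h3, h4⟩ := ih 0 (by simpa using he)
        exact ⟨u', v', h', b, h1, h2, fun e' he' => by simp [h3 e' he'], by simp; omega⟩
      · exact ⟨u, v, h, q, by simpa [he] using hn, he, fun e' he' => by simp [he'], by simp⟩
    | succ m =>
      obtain ⟨u', v', h', b, h1, h2, h3, h4⟩ := ih m (by simpa using hn)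
      exact ⟨u', v', h', b, h1, h2, fun e' he' => by simp [h3 e' he'], by simp; omega⟩

open Classical in
omit [Countable V] in
theorem deca_XY {ω : Cf V} {e : Sym2 V} (h : ω e = true) (h' : ω ∈ Piv G F l X Y e) :
    ω ∈ XY G F X Y := by
  have := h'.2.1
  rwa [← h, Function.update_eq_self] at this

omit [Countable V] in
theorem piv_count (ω : Cf V) (T : Finset (Sym2 V))
    (hT : ∀ e ∈ T, ω e = true ∧ ω ∈ Piv G F l X Y e) : T.card ≤ l + 1 := by
  classical
  rcases T.eq_empty_or_nonempty with rfl | ⟨e₀, he₀⟩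
  · simp
  have ex : ∃ k, ∃ x ∈ X, ∃ y ∈ Y, ∃ w : G.Walk x y, w.length = k ∧
      ∀ e ∈ w.edges, e ∈ F ∧ ω e = true := by
    obtain ⟨x, hx, y, hy, w, hw⟩ := deca_XY (hT e₀ he₀).1 (hT e₀ he₀).2
    exact ⟨_, x, hx, y, hy, w, rfl, hw⟩
  obtain ⟨x, hx, y, hy, w, hk, hw⟩ := Nat.find_spec ex
  have hmin : ∀ x' ∈ X, ∀ w' : G.Walk x' y, (∀ e ∈ w'.edges, e ∈ F ∧ ω e = true) →
      w.length ≤ w'.length := fun x' hx' w' hw' =>
    hk ▸ Nat.find_min' ex ⟨x', hx', y, hy, w', rfl, hw'⟩
  have sub : T ⊆ (w.edges.take (l + 1)).toFinset := by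
    intro e he
    obtain ⟨ho, hn, -, x', hx', z, hz, a, la, ha⟩ := hT e he
    have up : ∀ e', e' ≠ e → ∀ b, (Function.update ω e false e' = b ↔ ω e' = b) :=
      fun e' h b => by rw [Function.update_of_ne h]
    have hew : e ∈ w.edges := by
      by_contra h
      refine hn ⟨x, hx, y, hy, w, fun e' he' => ⟨(hw e' he').1, ?_⟩⟩
      convert (up e' (fun h' => h (h' ▸ he')) true).2 (hw e' he').2
    rw [← List.take_append_drop (l + 1) w.edges, List.mem_append] at hew
    rcases hew with h | h
    · exact List.mem_toFinset.2 h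
    exfalso
    obtain ⟨u, v, huv, b, h1, h2, h3, h4⟩ := deca_last w e _ h
    have la' : a.length ≤ l := by exact_mod_cast la
    rw [h1, Sym2.mem_iff] at hz
    rcases hz with rfl | rfl
    · have := hmin x' hx' (a.append (.cons huv b)) fun e' he' => by
        simp only [Walk.edges_append, Walk.edges_cons, List.mem_append, List.mem_cons] at he'
        rcases he' with h' | h' | h'
        · refine ⟨(ha e' h').1, ?_⟩
          by_cases hh : e' = e
          · rw [hh]; exact ho
          · refine (up e' hh true).1 ?_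
            convert (ha e' h').2
        · rw [h', ← h1]; exact hw e (List.mem_of_mem_drop h)
        · exact hw e' (h3 e' h')
      simp only [Walk.length_append, Walk.length_cons] at this
      omega
    · refine hn ⟨x', hx', y, hy, a.append b, fun e' he' => ?_⟩
      simp only [Walk.edges_append, List.mem_append] at he'
      rcases he' with h' | h'
      · exact ha e' h'
      · refine ⟨(hw e' (h3 e' h')).1, ?_⟩
        convert (up e' (fun hh => h2 (hh ▸ h')) true).2 (hw e' (h3 e' h')).2
  refine (Finset.card_le_card sub).trans ((List.toFinset_card_le _).trans ?_)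
  exact List.length_take_le _ _

theorem measurableSet_Piv (e : Sym2 V) : MeasurableSet (Piv G F l X Y e) := by
  classical
  have h1 := (XY_FU (G := G) (F := F) (X := X) (Y := Y)).measurableSet
  have h2 : MeasurableSet {ω : Cf V | ∃ x, x ∈ X ∧ ω ∈ {ω | ∃ z, z ∈ e ∧ ω ∈ CnL G F l x z}} :=
    (FU.exists fun _ _ => FU.exists fun _ _ => CnL_FU).measurableSet
  exact (measurable_update_left h1).compl.inter
    ((measurable_update_left h1).inter (measurable_update_left h2))

omit [Countable V] in
theorem deca_ev (e : Sym2 V) (b : Bool) : MeasurableSet {ω : Cf V | ω e = b} :=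
  measurableSet_eq_fun (measurable_pi_apply e) measurable_const

omit [Countable V] in
theorem deca_dep (e : Sym2 V) : Dep (Piv G F l X Y e) {e}ᶜ := by
  classical
  intro ω ω' h hω
  have : ∀ b, Function.update ω e b = Function.update ω' e b := fun b => funext fun i => by
    by_cases hi : i = e
    · simp [hi]
    · simp [hi, h i hi]
  unfold Piv at hω ⊢
  rw [Set.mem_ofPred_eq] at hω ⊢
  convert hω using 2 <;> simp only [this]

theorem deca_eval (e : Sym2 V) (b : Bool) : mu V p (Piv G F l X Y e ∩ {ω | ω e = b}) =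
    mu V p (Piv G F l X Y e) * ofReal (wt p b) := by
  rw [← PM_eval (fun _ => p) e b]
  exact PM_indep _ (measurableSet_Piv e) (deca_ev e b)
    (deca_dep e) (T' := {e}) (fun ω ω' h hω => (h e rfl).symm.trans hω) disjoint_compl_left

theorem piv_sum (p0 : 0 < (p : ℝ)) : ∑' e, mu V p (Piv G F l X Y e ∩ {ω | ω e = false}) ≤
    ofReal ((l + 1) * ((1 - p) / p)) * mu V p (XY G F X Y) := by
  classical
  have q0 : 0 ≤ (1 - p : ℝ) / p := div_nonneg (sub_nonneg.2 p.2.2) p0.le
  have e1 : ∀ e, mu V p (Piv G F l X Y e ∩ {ω | ω e = false}) =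
      ofReal ((1 - p) / p) * (mu V p (Piv G F l X Y e ∩ {ω | ω e = true}) * 1) := fun e => by
    rw [deca_eval, deca_eval, mul_one, mul_left_comm, ← ENNReal.ofReal_mul q0, wt_true, wt_false,
      div_mul_cancel₀ _ p0.ne']
  have e2 := lintegral_tsum_ind (mu V p) (A := fun e => Piv G F l X Y e ∩ {ω | ω e = true})
    (fun e => (measurableSet_Piv e).inter (deca_ev e true))
    fun _ => 1
  simp only [e1]
  rw [ENNReal.tsum_mul_left, ← e2, mul_comm ((l : ℝ) + 1), ENNReal.ofReal_mul q0, mul_assoc,
    ← lintegral_indicator_const XY_FU.measurableSet]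
  refine mul_le_mul_right (lintegral_mono fun ω => ?_) _
  by_cases hω : ω ∈ XY G F X Y
  · rw [Set.indicator_of_mem hω, ENNReal.tsum_eq_iSup_sum]
    refine iSup_le fun s => ?_
    simp only [Set.indicator_apply]
    rw [← Finset.sum_filter, Finset.sum_const, nsmul_eq_mul, mul_one, ← ENNReal.ofReal_natCast]
    refine ENNReal.ofReal_le_ofReal ?_
    norm_cast
    refine piv_count (G := G) (F := F) (X := X) (Y := Y) ω _ fun e he => ?_
    exact ⟨(Finset.mem_filter.1 he).2.2, (Finset.mem_filter.1 he).2.1⟩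
  · refine le_trans (le_of_eq (ENNReal.tsum_eq_zero.2 fun e => ?_)) zero_le
    exact Set.indicator_of_notMem (fun h => hω (deca_XY h.2 h.1)) _

end

end Pool.Agent.P.MP_3aa27f_pr.F
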