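import Pool.Agent.P.MP_3aa27f_pr.Conn
import Pool.Agent.P.MP_3aa27f_pr.Tree
import Pool.Agent.P.MP_3aa27f_pr.Defs

/-! Definitions for the proof of `p_h < p_u`: kernels and operator norm bounds, level geometry,
slab connection events, chains, patterns. -/

open MeasureTheory unitInterval SimpleGraph
open ENNReal (ofReal)
open scoped ENNReal

namespace Pool.Agent.P.MP_3aa27f_pr.F

variable {V : Type}

/-- configurations -/
abbrev Cf (V : Type) := Sym2 V → Bool

/-- nonnegative kernels -/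
abbrev Ker (V : Type) := V → V → ℝ≥0∞

/-- Bernoulli percolation -/
noncomputable abbrev mu (V : Type) (p : I) : Measure (Cf V) := PM fun _ => p

/-- the `ℓ²` norm -/
noncomputable def n2 (f : V → ℝ≥0∞) : ℝ≥0∞ := (∑' x, f x ^ 2) ^ (1 / 2 : ℝ)

/-- the operator norm of `K` on `ℓ²` is at most `c` -/
def NB (K : Ker V) (c : ℝ≥0∞) : Prop :=
  ∀ f g : V → ℝ≥0∞, ∑' x, ∑' y, f x * K x y * g y ≤ c * n2 f * n2 g

/-- composition of kernels -/
noncomputable def kmul (K L : Ker V) : Ker V := fun x y => ∑' z, K x z * L z y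

open Classical in
/-- the identity kernel -/
noncomputable def kone : Ker V := fun x y => if x = y then 1 else 0

/-- powers of a kernel -/
noncomputable def kpow (K : Ker V) : ℕ → Ker V
  | 0 => kone
  | n + 1 => kmul K (kpow K n)

/-- transpose -/
def ktr (K : Ker V) : Ker V := fun x y => K y x

/-- number of elements -/
noncomputable def cnt (A : Set V) : ℝ≥0∞ := ∑' x, A.indicator 1 x

open Classical in
/-- increasing events that are witnessed by finitely many open coordinates -/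
def FU {ι : Type*} (A : Set (ι → Bool)) : Prop :=
  IsUpperSet A ∧ ∀ ω ∈ A, ∃ S : Finset ι, (fun i => if i ∈ S then ω i else false) ∈ A

open Classical in
/-- `ω` on `S` and `ω'` elsewhere -/
noncomputable def splice {ι : Type*} (S : Set ι) (ω ω' : ι → Bool) : ι → Bool :=
  fun i => if i ∈ S then ω i else ω' i

/-- connection by an open walk of length at most `R` using only edges in `F` -/
def CnL (G : SimpleGraph V) (F : Set (Sym2 V)) (R : ℕ∞) (x y : V) : Set (Cf V) :=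
  {ω | ∃ w : G.Walk x y, (w.length : ℕ∞) ≤ R ∧ ∀ e ∈ w.edges, e ∈ F ∧ ω e = true}

/-- the cluster of `x` using only edges in `F` -/
def Kl (G : SimpleGraph V) (F : Set (Sym2 V)) (x : V) (ω : Cf V) : Set V := {y | ω ∈ Cn G F x y}

/-- two-point function -/
noncomputable def tau (G : SimpleGraph V) (p : I) (F : Set (Sym2 V)) (x y : V) : ℝ≥0∞ :=
  mu V p (Cn G F x y)

/-- two-point function with bounded length -/
noncomputable def tauL (G : SimpleGraph V) (p : I) (F : Set (Sym2 V)) (R : ℕ∞) (x y : V) : ℝ≥0∞ :=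
  mu V p (CnL G F R x y)

/-- point-to-set connection probability -/
noncomputable def rch (G : SimpleGraph V) (p : I) (F : Set (Sym2 V)) (x : V) (Y : Set V) : ℝ≥0∞ :=
  mu V p (Rch G F x Y)

/-- the event is decided by exploring the cluster of `x` through `F` -/
def Adp (G : SimpleGraph V) (F : Set (Sym2 V)) (x : V) (A : Set (Cf V)) : Prop :=
  ∀ ω ∈ A, ∀ ω' : Cf V, (∀ e ∈ F, e ∈ ETo (Kl G F x ω) → ω e = ω' e) → ω' ∈ A

/-- `X` is joined to `Y` -/
def XY (G : SimpleGraph V) (F : Set (Sym2 V)) (X Y : Set V) : Set (Cf V) :=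
  {ω | ∃ x ∈ X, ω ∈ Rch G F x Y}

open Classical in
/-- `e` is pivotal for joining `X` to `Y` and has an endpoint close to `X` -/
def Piv (G : SimpleGraph V) (F : Set (Sym2 V)) (l : ℕ) (X Y : Set V) (e : Sym2 V) : Set (Cf V) :=
  {ω | Function.update ω e false ∉ XY G F X Y ∧ Function.update ω e true ∈ XY G F X Y ∧
    ∃ x ∈ X, ∃ z ∈ e, Function.update ω e false ∈ CnL G F l x z}

open Classical in
/-- the adjacency kernel -/
noncomputable def adjK (G : SimpleGraph V) : Ker V := fun x y => if G.Adj x y then 1 else 0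

open Classical in
/-- the boundary sum of Duminil-Copin and Tassion (without the factor `p`) -/
noncomputable def psi (G : SimpleGraph V) (p : I) (F : Set (Sym2 V)) (v : V) (T : Finset V) :
    ℝ≥0∞ :=
  ∑ u ∈ T, ∑' u', if G.Adj u u' ∧ u' ∉ T ∧ s(u, u') ∈ F then tau G p (F ∩ EIn ↑T) v u else 0

variable {G : SimpleGraph V}

/-- pull back of a configuration by an automorphism -/
def act (g : G ≃g G) (ω : Cf V) : Cf V := fun e => ω (Sym2.map g e)

/-- A quasi-transitive group with a level function `l` (a normalised logarithm of the Haar weight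
of stabilisers, corrected by a potential), a base vertex `o` and mass-transport principles. -/
structure Geo (G : SimpleGraph V) [G.LocallyFinite] where
  Γ : Subgroup (G ≃g G)
  l : V → ℝ
  b : ℝ
  o : V
  n0 : ℕ
  D : ℕ
  CM : ℝ
  conn : G.Connected
  one_lt_b : 1 < b
  one_le_CM : 1 ≤ CM
  deg : ∀ v, G.degree v ≤ D
  inv : ∀ g ∈ Γ, ∀ x y, l (g x) - l (g y) = l x - l y
  lip : ∀ x y, G.Adj x y → l y ≤ l x + 1
  up : ∀ v, ∃ g ∈ Γ, ∃ w : G.Walk v (g o), 1 ≤ w.length ∧ w.length ≤ n0 ∧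
    l (g o) = l v + w.length
  reps : ∃ R : Finset V, ∀ v, ∃ g ∈ Γ, g v ∈ R
  mtp : ∀ K : Ker V, (∀ g ∈ Γ, ∀ x y, K (g x) (g y) = K x y) → ∀ A : ℝ≥0∞,
    (∀ x, ∑' y, K x y ≤ A) → ∀ y, ∑' x, K x y * ofReal (b ^ (l x - l y)) ≤ ofReal CM * A
  mtpO : ∀ K : Ker V, (∀ g ∈ Γ, ∀ x y, K (g x) (g y) = K x y) →
    (∀ x y, K x y ≠ 0 → (∃ g ∈ Γ, g o = x) ∧ ∃ g ∈ Γ, g o = y) →
    ∑' y, K o y = ∑' x, K x o * ofReal (b ^ (l x - l o))

variable [G.LocallyFinite]

namespace Geo

variable (S : Geo G)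

/-- the orbit of the base vertex -/
def O (x : V) : Prop := ∃ g ∈ S.Γ, g S.o = x

/-- invariant kernels -/
def Inv (K : Ker V) : Prop := ∀ g ∈ S.Γ, ∀ x y, K (g x) (g y) = K x y

/-- pairs whose lower endpoint has level at least `s` -/
def Ge (s : ℝ) : Set (Sym2 V) := {e | ∀ z ∈ e, s ≤ S.l z}

/-- pairs whose lower endpoint has level less than `t` -/
def Lt (t : ℝ) : Set (Sym2 V) := {e | ∃ z ∈ e, S.l z < t}

/-- pairs whose lower endpoint has level in `[s, t)` -/
def E (s t : ℝ) : Set (Sym2 V) := S.Ge s ∩ S.Lt t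

/-- vertices of level at least `t` -/
def Top (t : ℝ) : Set V := {v | t ≤ S.l v}

/-- vertices of level in `[e, e + 1]` -/
def Win (e : ℝ) : Set V := {v | e ≤ S.l v ∧ S.l v ≤ e + 1}

/-- vertices of the base orbit of level exactly `t` -/
def Lev (t : ℝ) : Set V := {v | S.O v ∧ S.l v = t}

/-- crossing probability from the base vertex with floor depth `m` and height `r` -/
noncomputable def PiO (p : I) (m r : ℝ) : ℝ≥0∞ :=
  rch G p (S.E (S.l S.o - m) (S.l S.o + r)) S.o (S.Top (S.l S.o + r))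

/-- crossings decay at rate at least `b ^ (-1/2)` -/
def InP (p : I) : Prop :=
  ∀ r : ℕ, 1 ≤ r → ofReal ((p : ℝ) ^ S.n0) * S.PiO p 0 r ≤ ofReal (S.b ^ (-((r : ℝ) / 2)))

/-- the potential of a set seen from level `t` -/
noncomputable def Phi (ς t : ℝ) (C : Set V) : ℝ≥0∞ :=
  ∑' w, C.indicator (fun w => ofReal (ς ^ (t - S.l w))) w

/-- bound for the expected number of points in a window -/
def BB (p : I) (ς h : ℝ) (R : ℕ∞) (B : ℝ) : Prop :=
  ∀ (x : V) (a c e : ℝ), c - a ≤ h → e ≤ c →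
    ∑' y, (S.Win e).indicator (tauL G p (S.E a c) R x) y ≤
      ofReal (B * ς ^ (e - S.l x) * ς ^ (-((c - e) / 2)))

/-- bound for the tilted slab susceptibility -/
def GB (p : I) (ς h Γc : ℝ) : Prop :=
  ∀ (x : V) (a c : ℝ), c - a ≤ h →
    ∑' y, tau G p (S.E a c) x y * ofReal (ς ^ (S.l x - S.l y)) ≤ ofReal Γc

/-- bound for crossing probabilities -/
def FB (p : I) (ς m H f : ℝ) : Prop :=
  ∀ (w : V) (a c : ℝ), S.l w - a ≤ m → c - a ≤ H →
    rch G p (S.E a c) w (S.Top c) ≤ ofReal (f * ς ^ (c - S.l w))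

/-- the crossing kernel of height `s` with floor depth `m` -/
noncomputable def kap (p : I) (m s : ℝ) : Ker V :=
  fun x y => (S.Top (S.l x + s)).indicator (tau G p (S.E (S.l x - m) (S.l x + s)) x) y

/-- the symmetric slab kernel -/
noncomputable def slabK (p : I) (m : ℝ) : Ker V :=
  fun x y => tau G p (S.E (S.l x - m) (S.l x + m)) x y

open Classical in
/-- the last part of a crossing, seen from the exit of a neck -/
noncomputable def tailK (p : I) (m r : ℝ) : Ker V := fun v y =>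
  if r - S.n0 ≤ S.l y - S.l v ∧ S.l y - S.l v ≤ r + 1 then
    tau G p (S.E (S.l v - m) (S.l v + r)) v y else 0

open Classical in
/-- nearby vertices of the base orbit on the same level -/
noncomputable def sideK (R : ℕ) : Ker V :=
  fun x y => if S.O x ∧ S.O y ∧ S.l x = S.l y ∧ G.dist x y ≤ R then 1 else 0

end Geo

/-- A stochastic invariant kernel on the base orbit that climbs exactly `h0` levels along good
walks and has a strict gain `ρ < 1` in operator norm. -/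
structure Side (S : Geo G) where
  h0 : ℕ
  L0 : ℕ
  ρ : ℝ
  K : Ker V
  one_le_h0 : 1 ≤ h0
  ρ0 : 0 < ρ
  ρ1 : ρ < 1
  inv : S.Inv K
  row : ∀ x, S.O x → ∑' y, K x y = 1
  supp : ∀ x y, K x y ≠ 0 → S.O x ∧ S.O y ∧ S.l y = S.l x + h0 ∧ ∃ w : G.Walk x y,
    w.length ≤ L0 ∧ ∀ z ∈ w.support, (z = x ∨ S.l x + 1 ≤ S.l z) ∧ (z = y ∨ S.l z < S.l y)
  norm : NB K (ofReal (ρ * S.b ^ ((h0 : ℝ) / 2)))

/-- A block strategy: random weights for climbing exactly `J` levels. -/
structure Chain (S : Geo G) (p : I) where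
  J : ℝ
  L : ℕ
  q : ℝ
  ρ : ℝ
  w : V → V → Cf V → ℝ≥0∞
  one_le_J : 1 ≤ J
  q0 : 0 < q
  q1 : q ≤ 1
  ρ0 : 0 < ρ
  ρ1 : ρ < 1
  meas : ∀ x y, Measurable (w x y)
  dep : ∀ x y, DependsOn (w x y) (S.E (S.l x) (S.l x + J) ∩ EIn {z | G.dist x z ≤ L})
  sum_le : ∀ x ω, ∑' y, w x y ω ≤ 1
  supp : ∀ x y ω, w x y ω ≠ 0 → S.O x ∧ S.O y ∧ S.l y = S.l x + J ∧
    ω ∈ CnL G (S.E (S.l x) (S.l x + J)) L x y
  row : ∀ x, S.O x → ∑' y, ∫⁻ ω, w x y ω ∂mu V p = ofReal q
  col : ∀ y, S.O y → ∑' x, ∫⁻ ω, w x y ω ∂mu V p = ofReal (q * S.b ^ J)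
  norm : NB (fun x y => ∫⁻ ω, w x y ω ∂mu V p) (ofReal (ρ * q * S.b ^ (J / 2)))

namespace Chain

variable {S : Geo G} {p : I} (C : Chain S p)

/-- the mean kernel -/
noncomputable def Q : Ker V := fun x y => ∫⁻ ω, C.w x y ω ∂mu V p

/-- the weights of `n` blocks -/
noncomputable def wN : ℕ → V → V → Cf V → ℝ≥0∞
  | 0 => fun x y _ => kone x y
  | n + 1 => fun x y ω => ∑' u, C.w x u ω * wN n u y ω

open Classical in
/-- possible collisions of two blocks -/
noncomputable def coll : Ker V :=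
  fun x y => if G.dist x y ≤ 2 * C.L ∧ |S.l x - S.l y| < C.J then 1 else 0

end Chain

/-- `ς` is the exponential rate of slab crossings at `p`, and `ς ≤ b ^ (-1/2)` -/
structure Rate (S : Geo G) (p : I) (ς : ℝ) : Prop where
  p0 : 0 < (p : ℝ)
  p1 : (p : ℝ) < 1
  s0 : 0 < ς
  s1 : ς < 1
  sb : ς ^ 2 * S.b ≤ 1
  crude : ∃ Cc : ℝ, 1 ≤ Cc ∧ ∀ m H : ℝ, 0 ≤ m → S.FB p ς m H (Cc ^ (m + 1))
  chain : ∀ κ : ℝ, 1 < κ → ∃ C : Chain S p, (ς / κ) ^ C.J ≤ C.q

namespace Geo

variable (S : Geo G)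

/-- the cluster of `x` with floor `a` explored up to level `t` -/
def Cl (a : ℝ) (x : V) (t : ℝ) (ω : Cf V) : Set V := Kl G (S.E a t) x ω

/-- `v` is the only vertex of level at least `l v` in the cluster explored up to level `l v`,
whose potential is at most `M` -/
def Sing (ς a : ℝ) (x v : V) (M : ℝ) : Set (Cf V) :=
  {ω | v ∈ S.Cl a x (S.l v) ω ∧ (∀ u ∈ S.Cl a x (S.l v) ω, S.l v ≤ S.l u → u = v) ∧
    S.Phi ς (S.l v) (S.Cl a x (S.l v) ω) ≤ ofReal M}

/-- the entrance of a neck above level `τ` -/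
def Pre (ς a : ℝ) (x : V) (τ M : ℝ) (v : V) : Set (Cf V) :=
  {ω | S.O v ∧ τ ≤ S.l v ∧ S.l v < τ + S.n0 ∧ ω ∈ S.Sing ς a x v M ∧
    ∀ u ∈ S.Cl a x (S.l v) ω, S.O u → τ ≤ S.l u → u = v}

/-- good states of the exploration at level `t` -/
def Good (ς a : ℝ) (x : V) (t M₁ M : ℝ) : Set (Cf V) :=
  {ω | (S.Cl a x t ω ∩ S.Top t).Nonempty ∧ cnt (S.Cl a x t ω ∩ S.Top t) ≤ ofReal M₁ ∧
    S.Phi ς t (S.Cl a x t ω) ≤ ofReal M}

end Geo

namespace Side

variable {S : Geo G} (Z : Side S)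

/-- a pattern: the cluster of `v` in the slab of height `h0` above `v` is a thin tube to `v'` -/
def Pat (v v' : V) : Set (Cf V) :=
  {ω | S.O v ∧ S.O v' ∧ S.l v' = S.l v + Z.h0 ∧ v' ∈ S.Cl (S.l v) v (S.l v + Z.h0) ω ∧
    (∀ u ∈ S.Cl (S.l v) v (S.l v + Z.h0) ω,
      (u = v ∨ S.l v + 1 ≤ S.l u) ∧ (S.l v' ≤ S.l u → u = v')) ∧
    cnt (S.Cl (S.l v) v (S.l v + Z.h0) ω) ≤ ofReal (Z.L0 + 1)}

/-- `k` patterns in a row -/
def PatN : ℕ → V → V → Set (Cf V)
  | 0 => fun v v' => {_ω | v = v'}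
  | k + 1 => fun v v' => {ω | ∃ u, ω ∈ PatN k v u ∧ ω ∈ Z.Pat u v'}

/-- the pattern kernel -/
noncomputable def W (p : I) : Ker V := fun v v' => mu V p (Z.Pat v v')

end Side

/-- parameters of the neck construction -/
structure Par where
  ς : ℝ
  m : ℝ
  s : ℝ
  H : ℝ
  M : ℝ
  k₁ : ℕ
  k : ℕ

namespace Side

variable {S : Geo G} (Z : Side S) (P : Par)

/-- a neck in the `i`-th trial -/
def Neck (x : V) (i : ℕ) : Set (Cf V) :=
  {ω | ∃ v v', ω ∈ S.Pre P.ς (S.l x - P.m) x (S.l x + i * P.H + P.k₁) P.M v ∧ ω ∈ Z.PatN P.k v v'}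

/-- no neck in the trials before the `i`-th -/
def NoNeck (x : V) (i : ℕ) : Set (Cf V) := {ω | ∀ j < i, ω ∉ Z.Neck P x j}

/-- the first neck is possibly in trial `i` with entrance `v` -/
noncomputable def entK (p : I) (i : ℕ) : Ker V := fun x v =>
  mu V p (Z.NoNeck P x i ∩ S.Pre P.ς (S.l x - P.m) x (S.l x + i * P.H + P.k₁) P.M v)

/-- crossings without a neck in the first `n` trials -/
noncomputable def nnK (p : I) (n : ℕ) : Ker V := fun x y =>
  (S.Top (S.l x + P.s)).indicator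
    (fun y => mu V p (Z.NoNeck P x n ∩ Cn G (S.E (S.l x - P.m) (S.l x + P.s)) x y)) y

end Side

end Pool.Agent.P.MP_3aa27f_pr.F
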