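import Pool.Agent.P.MP_3aa27f_pr.F.Cnx

/-! Exploration of a cluster: the spatial Markov property. -/

open MeasureTheory unitInterval SimpleGraph
open ENNReal (ofReal)
open scoped ENNReal

namespace Pool.Agent.P.MP_3aa27f_pr.F

variable {V : Type} {G : SimpleGraph V} [G.LocallyFinite] [Countable V] {S : Geo G} {p : I}
variable {F F' : Set (Sym2 V)} {x : V} {A B : Set (Cf V)}

section

omit [G.LocallyFinite] [Countable V]

theorem Kl_congr' {ω ω' : Cf V} (hF : F' ⊆ F) {z : V} (hz : z ∈ Kl G F x ω)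
    (h : ∀ e ∈ F, e ∈ ETo (Kl G F x ω) → ω e = ω' e) : Kl G F' z ω' = Kl G F' z ω := by
  apply Set.Subset.antisymm
  · have h1 : Kl G F' z ω ⊆ Kl G F x ω :=
      Kl_sub_of_closed hz fun a ha b hab hb hω => Kl_step ha hab (hF hb) hω
    refine Kl_sub_of_closed mem_Kl_self fun a ha b hab hb hω => Kl_step ha hab hb ?_
    rw [h _ (hF hb) ⟨a, by simp, h1 ha⟩]
    exact hω
  · have h1 : Kl G F' z ω ⊆ Kl G F' z ω' ∩ Kl G F x ω := by
      refine Kl_sub_of_closed ⟨mem_Kl_self, hz⟩ fun a ha b hab hb hω =>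
        ⟨Kl_step ha.1 hab hb ?_, Kl_step ha.2 hab (hF hb) hω⟩
      rw [← h _ (hF hb) ⟨a, by simp, ha.2⟩]
      exact hω
    exact h1.trans Set.inter_subset_left

theorem Kl_congr {ω ω' : Cf V} (h : ∀ e ∈ F, e ∈ ETo (Kl G F x ω) → ω e = ω' e) :
    Kl G F x ω' = Kl G F x ω := Kl_congr' subset_rfl mem_Kl_self h

theorem Adp.compl (h : Adp G F x A) : Adp G F x Aᶜ := by
  intro ω hω ω' hh h2
  refine hω (h ω' h2 ω fun e he h3 => ?_)
  rw [Kl_congr hh] at h3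
  exact (hh e he h3).symm

theorem Adp.inter (h : Adp G F x A) (h' : Adp G F x B) : Adp G F x (A ∩ B) := fun ω hω ω' hh => ⟨h ω hω.1 ω' hh, h' ω hω.2 ω' hh⟩

theorem Adp.iUnion {κ : Sort*} {A : κ → Set (Cf V)} (h : ∀ k, Adp G F x (A k)) :
    Adp G F x (⋃ k, A k) := fun ω hω ω' hh => by
  obtain ⟨k, hk⟩ := Set.mem_iUnion.1 hω
  exact Set.mem_iUnion.2 ⟨k, h k ω hk ω' hh⟩

theorem Adp.iInter {κ : Sort*} {A : κ → Set (Cf V)} (h : ∀ k, Adp G F x (A k)) :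
    Adp G F x (⋂ k, A k) := fun ω hω ω' hh =>
  Set.mem_iInter.2 fun k => h k ω (Set.mem_iInter.1 hω k) ω' hh

theorem Adp.mono (h : Adp G F' x A) (hF : F' ⊆ F) : Adp G F x A := fun ω hω ω' hh =>
  h ω hω ω' fun e he ⟨z, hz, h1⟩ => hh e (hF he) ⟨z, hz, Kl_mono hF h1⟩

theorem Adp_Kl (P : Set V → Prop) : Adp G F x {ω | P (Kl G F x ω)} := fun ω hω ω' hh => by
  show P (Kl G F x ω')
  rw [Kl_congr hh]
  exact hω

theorem Adp.dep (h : Adp G F x A) : Dep A F := fun ω ω' hh hω => h ω hω ω' fun e he _ => hh e he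

theorem Adp.dep_eq (h : Adp G F x A) (C : Set V) :
    Dep (A ∩ {ω | Kl G F x ω = C}) (F ∩ ETo C) := by
  rintro ω ω' hh ⟨hω, h1⟩
  have h2 : Kl G F x ω = C := h1
  have h3 : ∀ e ∈ F, e ∈ ETo (Kl G F x ω) → ω e = ω' e := fun e he h4 => hh e ⟨he, h2 ▸ h4⟩
  exact ⟨h ω hω ω' h3, (Kl_congr h3).trans h2⟩

theorem expl_walk {ω : Cf V} {u y : V} (w : G.Walk u y)
    (hw : ∀ e ∈ w.edges, e ∈ F' ∧ ω e = true) :
    (∃ v ∈ Kl G F x ω, (v = y ∨ ∃ u, G.Adj v u ∧ s(v, u) ∈ F' ∧ s(v, u) ∉ F) ∧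
      ω ∈ Cn G (F' ∩ (F ∩ ETo (Kl G F x ω))ᶜ) v y) ∨
    (u ∉ Kl G F x ω ∧ ω ∈ Cn G (F' ∩ (F ∩ ETo (Kl G F x ω))ᶜ) u y) := by
  induction w with
  | @nil u =>
    by_cases h : u ∈ Kl G F x ω
    · exact Or.inl ⟨u, h, Or.inl rfl, Cn_refl _ _ _⟩
    · exact Or.inr ⟨h, Cn_refl _ _ _⟩
  | @cons u u' y huv q ih =>
    rcases ih (fun e he => hw e (by simp [he])) with ih | ⟨h1, h2⟩
    · exact Or.inl ih
    · obtain ⟨a1, a2⟩ := hw s(u, u') (by simp)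
      by_cases h : u ∈ Kl G F x ω
      · have a3 : s(u, u') ∉ F := fun a3 => h1 (Kl_step h huv a3 a2)
        exact Or.inl ⟨u, h, Or.inr ⟨u', huv, a1, a3⟩,
          Cn_trans (Cn_edge huv ⟨a1, fun a4 => a3 a4.1⟩ a2) h2⟩
      · refine Or.inr ⟨h, Cn_trans (Cn_edge huv ⟨a1, ?_⟩ a2) h2⟩
        rintro ⟨_, z, hz, a4⟩
        rcases Sym2.mem_iff.1 hz with rfl | rfl
        · exact h a4
        · exact h1 a4

theorem expl_disj (E : Finset V → Set (Cf V)) (hE : ∀ C, E C ⊆ {ω | Kl G F x ω = ↑C}) :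
    Pairwise (Function.onFun Disjoint E) := by
  intro C C' hC
  rw [Function.onFun, Set.disjoint_left]
  intro ω h1 h2
  have a1 : Kl G F x ω = ↑C := hE C h1
  have a2 : Kl G F x ω = ↑C' := hE C' h2
  exact hC (Finset.coe_injective (a1.symm.trans a2))

end

omit [G.LocallyFinite]

theorem expl (hA : MeasurableSet A) (h : Adp G F x A) {D : Finset V → Set (Cf V)}
    (hD : ∀ C, MeasurableSet (D C)) (dD : ∀ C, Dep (D C) (F ∩ ETo (C : Set V))ᶜ) :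
    mu V p (⋃ C : Finset V, A ∩ {ω | Kl G F x ω = ↑C} ∩ D C) =
      ∑' C : Finset V, mu V p (A ∩ {ω | Kl G F x ω = ↑C}) * mu V p (D C) := by
  rw [measure_iUnion (expl_disj _ fun C ω hω => hω.1.2)
    fun C => (hA.inter (measurableSet_Kl_eq _)).inter (hD C)]
  exact tsum_congr fun C => PM_indep _ (hA.inter (measurableSet_Kl_eq _)) (hD C) (h.dep_eq _)
    (dD C) disjoint_compl_right

theorem expl_sum (hA : MeasurableSet A) :
    ∑' C : Finset V, mu V p (A ∩ {ω | Kl G F x ω = ↑C}) =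
      mu V p (⋃ C : Finset V, A ∩ {ω | Kl G F x ω = ↑C}) :=
  (measure_iUnion (expl_disj _ fun C ω hω => hω.2)
    fun C => hA.inter (measurableSet_Kl_eq _)).symm

/-- lower bound for the future of an exploration -/
theorem expl_ge (hA : MeasurableSet A) (h : Adp G F x A) (hfin : ∀ ω ∈ A, (Kl G F x ω).Finite)
    {β : ℝ≥0∞} (hD : ∀ ω ∈ A, ∃ D : Set (Cf V), MeasurableSet D ∧
      Dep D (F ∩ ETo (Kl G F x ω))ᶜ ∧ β ≤ mu V p D ∧
      ∀ ω' ∈ A, Kl G F x ω' = Kl G F x ω → ω' ∈ D → ω' ∈ B) : mu V p A * β ≤ mu V p (A ∩ B) := by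
  have key : ∀ C : Finset V, ∃ D : Set (Cf V), MeasurableSet D ∧ Dep D (F ∩ ETo (C : Set V))ᶜ ∧
      mu V p (A ∩ {ω | Kl G F x ω = ↑C}) * β ≤ mu V p (A ∩ {ω | Kl G F x ω = ↑C}) * mu V p D ∧
      ∀ ω' ∈ A, Kl G F x ω' = ↑C → ω' ∈ D → ω' ∈ B := by
    intro C
    rcases (A ∩ {ω | Kl G F x ω = ↑C}).eq_empty_or_nonempty with h0 | ⟨ω, h1, h2⟩
    · refine ⟨∅, MeasurableSet.empty, dep_empty _, by simp [h0], fun _ _ _ h => h.elim⟩
    · have h3 : Kl G F x ω = ↑C := h2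
      obtain ⟨D, a1, a2, a3, a4⟩ := hD ω h1
      rw [h3] at a2 a4
      exact ⟨D, a1, a2, mul_le_mul_right a3 _, a4⟩
  choose D a1 a2 a3 a4 using key
  have e1 : A = ⋃ C : Finset V, A ∩ {ω | Kl G F x ω = ↑C} := by
    refine Set.Subset.antisymm (fun ω hω => ?_) (Set.iUnion_subset fun _ => Set.inter_subset_left)
    exact Set.mem_iUnion.2 ⟨(hfin ω hω).toFinset, hω, (Set.Finite.coe_toFinset _).symm⟩
  calc mu V p A * β = ∑' C : Finset V, mu V p (A ∩ {ω | Kl G F x ω = ↑C}) * β := by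
        rw [ENNReal.tsum_mul_right, expl_sum hA, ← e1]
    _ ≤ ∑' C : Finset V, mu V p (A ∩ {ω | Kl G F x ω = ↑C}) * mu V p (D C) :=
        ENNReal.tsum_le_tsum a3
    _ = mu V p (⋃ C : Finset V, A ∩ {ω | Kl G F x ω = ↑C} ∩ D C) := (expl hA h a1 a2).symm
    _ ≤ mu V p (A ∩ B) := measure_mono (Set.iUnion_subset fun C ω hω =>
        ⟨hω.1.1, a4 C ω hω.1.1 hω.1.2 hω.2⟩)

/-- upper bound for the future of an exploration -/
theorem expl_up (hA : MeasurableSet A) (h : Adp G F x A)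
    (hfin : ∀ᵐ ω ∂mu V p, ω ∈ A → (Kl G F x ω).Finite) (hF : F ⊆ F') (y : V) :
    mu V p (A ∩ Cn G F' x y) ≤ ∑' v, mu V p (A ∩ {ω | v ∈ Kl G F x ω ∧
      (v = y ∨ ∃ u, G.Adj v u ∧ s(v, u) ∈ F' ∧ s(v, u) ∉ F)}) * tau G p F' v y := by
  classical
  set P : V → Prop := fun v => v = y ∨ ∃ u, G.Adj v u ∧ s(v, u) ∈ F' ∧ s(v, u) ∉ F with hP
  set D : Finset V → Set (Cf V) := fun C => ⋃ v, {_ω | v ∈ C ∧ P v} ∩
    Cn G (F' ∩ (F ∩ ETo (C : Set V))ᶜ) v y with hD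
  have mD : ∀ C, MeasurableSet (D C) := fun C => MeasurableSet.iUnion fun v =>
    (MeasurableSet.const _).inter Cn_FU.measurableSet
  have dD : ∀ C, Dep (D C) (F ∩ ETo (C : Set V))ᶜ := fun C => Dep.iUnion fun v =>
    (dep_const _ _).inter (Cn_dep.mono Set.inter_subset_right)
  have mE : ∀ v, MeasurableSet (A ∩ {ω | v ∈ Kl G F x ω ∧ P v}) := fun v =>
    hA.inter ((Cn_FU (G := G) (F := F) (x := x) (y := v)).measurableSet.inter
      (MeasurableSet.const (P v)))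
  have b1 : ∀ C : Finset V, mu V p (A ∩ {ω | Kl G F x ω = ↑C}) * mu V p (D C) ≤
      ∑' v, mu V p (A ∩ {ω | v ∈ Kl G F x ω ∧ P v} ∩ {ω | Kl G F x ω = ↑C}) * tau G p F' v y := by
    intro C
    refine (mul_le_mul_right (measure_iUnion_le _) _).trans ?_
    rw [← ENNReal.tsum_mul_left]
    refine ENNReal.tsum_le_tsum fun v => ?_
    by_cases hv : v ∈ C ∧ P v
    · refine mul_le_mul' (measure_mono fun ω hω => ⟨⟨hω.1, ?_, hv.2⟩, hω.2⟩)
        (measure_mono fun ω hω => Cn_mono Set.inter_subset_left hω.2)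
      have h3 : Kl G F x ω = ↑C := hω.2
      rw [h3]
      exact hv.1
    · have : ({_ω | v ∈ C ∧ P v} ∩ Cn G (F' ∩ (F ∩ ETo (C : Set V))ᶜ) v y : Set (Cf V)) = ∅ :=
        Set.eq_empty_of_forall_notMem fun ω hω => hv hω.1
      rw [this]
      simp
  calc mu V p (A ∩ Cn G F' x y)
      ≤ mu V p (⋃ C : Finset V, A ∩ {ω | Kl G F x ω = ↑C} ∩ D C) := by
        refine measure_mono_ae ?_
        filter_upwards [hfin] with ω hω h1
        obtain ⟨h1, w, hw⟩ := h1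
        have h2 : Kl G F x ω = ↑(hω h1).toFinset := (Set.Finite.coe_toFinset _).symm
        refine Set.mem_iUnion.2 ⟨(hω h1).toFinset, ⟨h1, h2⟩, ?_⟩
        rcases expl_walk (F := F) (x := x) w hw with ⟨v, c1, c2, c3⟩ | ⟨c1, _⟩
        · refine Set.mem_iUnion.2 ⟨v, ⟨(Set.Finite.mem_toFinset _).2 c1, c2⟩, ?_⟩
          rw [← h2]
          exact c3
        · exact (c1 mem_Kl_self).elim
    _ = ∑' C : Finset V, mu V p (A ∩ {ω | Kl G F x ω = ↑C}) * mu V p (D C) := expl hA h mD dD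
    _ ≤ ∑' C : Finset V, ∑' v, mu V p (A ∩ {ω | v ∈ Kl G F x ω ∧ P v} ∩
          {ω | Kl G F x ω = ↑C}) * tau G p F' v y := ENNReal.tsum_le_tsum b1
    _ = ∑' v, ∑' C : Finset V, mu V p (A ∩ {ω | v ∈ Kl G F x ω ∧ P v} ∩
          {ω | Kl G F x ω = ↑C}) * tau G p F' v y := ENNReal.tsum_comm
    _ ≤ _ := by
        refine ENNReal.tsum_le_tsum fun v => ?_
        rw [ENNReal.tsum_mul_right, expl_sum (mE v)]
        exact mul_le_mul_left (measure_mono (Set.iUnion_subset fun _ => Set.inter_subset_left)) _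

end Pool.Agent.P.MP_3aa27f_pr.F
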