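import Pool.Agent.P.MP_3aa27f_pr.F.Final

/-! The critical parameter of slab crossings: heavy clusters above it, a bounded two-point
operator slightly above it. -/

open MeasureTheory unitInterval SimpleGraph
open ENNReal (ofReal)
open scoped ENNReal

namespace Pool.Agent.P.MP_3aa27f_pr.F

variable {V : Type} {G : SimpleGraph V} [G.LocallyFinite]

theorem ext_heavy (S : Geo G) (Z : Side S) {m : V → ℝ} {C : ℝ} (C0 : 0 < C)
    (hC : ∀ x y, S.b ^ (S.l y - S.l x) ≤ C * (m y / m x)) {p₁ : I}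
    (h3 : ∀ q : I, p₁ < q → ¬ S.InP q) {q : I} (hq : p₁ < q) :
    ∀ᵐ ω ∂percMeasure V q, ∃ K : (openGraph G ω).ConnectedComponent, ∃ x : V,
      ∑' y : K.supp, ofReal (m y / m x) = ∞ := by
  have := countable_vert S.conn
  have b0 : 0 < S.b := one_pos.trans S.one_lt_b
  obtain ⟨r, r1, r2⟩ := exists_between (show (p₁ : ℝ) < q from hq)
  have a5 : r ∈ I := ⟨p₁.2.1.trans r1.le, r2.le.trans q.2.2⟩
  obtain ⟨r0, Ch, hM⟩ := Z.exists_super (h3 ⟨r, a5⟩ r1)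
  obtain ⟨a, h, hx⟩ := Ch.expand r0 hM
  filter_upwards [sharp S (q := q) r2 hx] with ω ⟨x, hx⟩
  refine ⟨(openGraph _ ω).connectedComponentMk x, x, by_contra fun hne => hx ?_⟩
  have := (ENNReal.finite_const_le_of_tsum_ne_top hne (ε := ofReal (S.b ^ (-(h + 1)) / C))
    (ENNReal.ofReal_pos.2 (by positivity)).ne').image fun y => y.1
  refine this.subset fun w hw => ⟨⟨w, ?_⟩, ENNReal.ofReal_le_ofReal ?_, rfl⟩
  · rw [ConnectedComponent.mem_supp_iff, ConnectedComponent.eq]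
    exact (reachable_iff.2 hw.2).symm
  · rw [div_le_iff₀' C0]
    exact le_trans (Real.rpow_le_rpow_of_exponent_le S.one_lt_b.le (by linarith [hw.1])) (hC x w)

theorem ext_pH_le (S : Geo G) (Z : Side S) {m : V → ℝ} {C : ℝ} (C0 : 0 < C)
    (hC : ∀ x y, S.b ^ (S.l y - S.l x) ≤ C * (m y / m x)) {p₁ : I} (h2 : (p₁ : ℝ) < 1)
    (h3 : ∀ q : I, p₁ < q → ¬ S.InP q) : pH G (fun u v => m v / m u) ≤ p₁ := by
  refine le_of_forall_gt_imp_ge_of_dense fun q hq => le_trans ?_ (min_le_left q 1)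
  have a3 : (p₁ : ℝ) < min q 1 := lt_min hq h2
  have a4 : min q 1 ∈ I := ⟨p₁.2.1.trans a3.le, min_le_right _ _⟩
  exact csInf_le ⟨0, fun p ⟨hp, _⟩ => hp.1⟩ ⟨a4, ext_heavy S Z C0 hC h3 (q := ⟨_, a4⟩) a3⟩

theorem ext_norm (S : Geo G) (Z : Side S) {p₁ : I} (h1 : S.InP p₁) (h2 : (p₁ : ℝ) < 1) :
    ∃ q : I, p₁ < q ∧ ∃ c : ℝ≥0∞, c ≠ ⊤ ∧ NB (tau G q Set.univ) c := by
  have := countable_vert S.conn
  obtain ⟨c, hc, hN⟩ : ∃ c : ℝ≥0∞, c ≠ ⊤ ∧ NB (tau G p₁ Set.univ) c := by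
    rcases p₁.2.1.eq_or_lt with e | e
    · obtain rfl : p₁ = 0 := Subtype.ext e.symm
      exact ⟨1, ENNReal.one_ne_top, norm_zero⟩
    · obtain ⟨ς, hR⟩ := Z.exists_rate e h2 h1
      exact hR.bounded Z
  obtain ⟨ε, ε0, hε⟩ := open_norm S h2 hc hN
  have a3 : (p₁ : ℝ) < min (p₁ + ε) 1 := lt_min (by linarith) h2
  have a4 : min ((p₁ : ℝ) + ε) 1 ∈ I := ⟨p₁.2.1.trans a3.le, min_le_right _ _⟩
  exact ⟨⟨_, a4⟩, a3, 2 * c, ENNReal.mul_ne_top (by simp) hc, hε _ (min_le_left _ _)⟩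

theorem ext_side (hG : G.Connected) {Γ : Subgroup (G ≃g G)} {m : V → ℝ} (hm : Wt Γ m)
    (hq : ∃ R : Finset V, ∀ v, ∃ g ∈ Γ, g v ∈ R) (hn : ∃ g ∈ Γ, ∃ u, m (g u) ≠ m u) (u : V)
    (t : Finset ℝ) (hne : {v | m v / m u ∈ t}.Nonempty)
    (hna : ¬ Amenable (G.induce {v | m v / m u ∈ t})) :
    ∃ S : Geo G, Nonempty (Side S) ∧ ∃ C : ℝ, 0 < C ∧
      ∀ x y, S.b ^ (S.l y - S.l x) ≤ C * (m y / m x) := by
  classical
  obtain ⟨S, rfl, ⟨C, C0, hC⟩, hb⟩ := exists_geo hG hm hq hn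
  have b0 : 0 < S.b := one_pos.trans S.one_lt_b
  have k1 : ∀ g ∈ S.Γ, S.l (g S.o) = S.l S.o → ∀ y, m (g y) = m y := fun g hg h y => by
    have h1 := hb g hg y
    have h2 := S.inv g hg y S.o
    rw [show S.l (g y) - S.l y = 0 by linarith, Real.rpow_zero, div_eq_one_iff_eq (hm.pos y).ne']
      at h1
    exact h1
  have k2 : ∀ g ∈ S.Γ, ∀ y, m (g y) = m y → S.l (g S.o) = S.l S.o := fun g hg y h => by
    have h1 := hb g hg y
    have h2 := S.inv g hg y S.o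
    rw [h, div_self (hm.pos y).ne', ← Real.rpow_zero S.b,
      Real.rpow_right_inj b0 S.one_lt_b.ne'] at h1
    linarith
  have k3 : ∀ a : V × ℝ, ∃ y₀, ∀ y, (∃ g ∈ S.Γ, g y = a.1) → m y / m u = a.2 →
      (∃ g ∈ S.Γ, g y₀ = a.1) ∧ m y₀ / m u = a.2 := fun a => by
    by_cases h : ∃ y, (∃ g ∈ S.Γ, g y = a.1) ∧ m y / m u = a.2
    · obtain ⟨y, hy⟩ := h
      exact ⟨y, fun _ _ _ => hy⟩
    · exact ⟨u, fun y h1 h2 => absurd ⟨y, h1, h2⟩ h⟩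
  choose f hf using k3
  obtain ⟨R, hR⟩ := hq
  obtain ⟨L, ρ, ρ0, ρ1, h⟩ := side_gap S hne
    (fun g hg h y hy => by rw [Set.mem_ofPred_eq, k1 g hg h y]; exact hy)
    ⟨(R ×ˢ t).image f, fun y hy => by
      obtain ⟨g, hg, h1⟩ := hR y
      obtain ⟨⟨g', hg', h2⟩, h3⟩ := hf (g y, m y / m u) y ⟨g, hg, rfl⟩ rfl
      have h4 : (g'⁻¹ * g) y = f (g y, m y / m u) := by
        change g'⁻¹ (g y) = _
        dsimp only at h2
        conv_lhs => rw [← h2]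
        exact inv_app _ _
      have h5 := S.Γ.mul_mem (S.Γ.inv_mem hg') hg
      refine ⟨_, h5, k2 _ h5 y ?_, ?_⟩
      · rw [h4]
        exact (div_left_inj' (hm.pos u).ne').1 h3
      · rw [h4]
        exact Finset.mem_image_of_mem _ (Finset.mem_product.2 ⟨h1, hy⟩)⟩ hna
  exact ⟨S, exists_side S ρ0 ρ1 h, C, C0, hC⟩

/-- the level geometry attached to a nonunimodular group with a nonamenable union of levels -/
theorem ext_haar (hG : G.Connected) (Γ : Subgroup (G ≃g G)) (hΓ : QuasiTransitive Γ)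
    (hn : ¬ ∀ u v : V, (∃ g ∈ Γ, g u = v) →
      {z | ∃ k ∈ Stab Γ v, k.1 u = z}.encard = {z | ∃ k ∈ Stab Γ u, k.1 v = z}.encard)
    [MeasurableSpace Γ.topologicalClosure] [BorelSpace Γ.topologicalClosure]
    (μ : Measure Γ.topologicalClosure) [μ.IsHaarMeasure] (u : V) (t : Finset ℝ)
    (hne : {v | modular Γ μ u v ∈ t}.Nonempty)
    (hna : ¬ Amenable (G.induce {v | modular Γ μ u v ∈ t})) :
    (∀ v, 0 < μ.real (Stab Γ v)) ∧ ∃ S : Geo G, Nonempty (Side S) ∧ ∃ C : ℝ, 0 < C ∧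
      ∀ x y, S.b ^ (S.l y - S.l x) ≤ C * (μ.real (Stab Γ y) / μ.real (Stab Γ x)) := by
  have hm := wt_haar hG Γ μ
  obtain ⟨S, hS, hq⟩ := hΓ
  refine ⟨hm.pos, ext_side hG hm ⟨hS.toFinset, fun v => (hq v).imp fun g hg =>
    ⟨Γ.le_topologicalClosure hg.1, hS.mem_toFinset.2 hg.2⟩⟩ (by_contra fun h => hn ?_) u t hne hna⟩
  rintro x _ ⟨g, hg, rfl⟩
  have e : ∀ x y, {z | ∃ k ∈ Stab Γ x, k.1 y = z} = orb Γ.topologicalClosure x y := fun x y =>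
    Set.ext fun z => ⟨fun ⟨k, h1, h2⟩ => ⟨k.1, k.2, h1, h2⟩, fun ⟨k, h0, h1, h2⟩ => ⟨⟨k, h0⟩, h1, h2⟩⟩
  have h1 := hm.rel x (g x)
  rw [not_not.1 fun h' => h ⟨g, Γ.le_topologicalClosure hg, x, h'⟩, mul_right_inj' (hm.pos x).ne',
    Nat.cast_inj] at h1
  rw [e, e, ← (orb_finite hG _ _ _).cast_ncard_eq, ← (orb_finite hG _ _ _).cast_ncard_eq, h1]

omit [G.LocallyFinite] in
theorem ext_tau (p : I) (x y : V) :
    percMeasure V p {ω | (openGraph G ω).Reachable x y} = tau G p Set.univ x y := by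
  simp only [reachable_iff]
  rfl

end Pool.Agent.P.MP_3aa27f_pr.F
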