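import Pool.Agent.P.MP_3aa27f_pr.F.Chee
import Pool.Agent.P.MP_3aa27f_pr.F.Trn
import Pool.Agent.P.MP_3aa27f_pr.F.Lev0

/-! Nonamenability of a union of levels gives a spectral gap for sideways steps. -/

open MeasureTheory unitInterval SimpleGraph
open ENNReal (ofReal)
open scoped ENNReal

namespace Pool.Agent.P.MP_3aa27f_pr.F

variable {V : Type} {G : SimpleGraph V} [G.LocallyFinite] [Countable V] {S : Geo G} {p : I}

section

omit [Countable V]

/-- sideways neighbours -/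
def folnRel (S : Geo G) (R : ℕ) (x y : V) : Prop :=
  S.O x ∧ S.O y ∧ S.l x = S.l y ∧ G.dist x y ≤ R

open Classical in
theorem foln_base (S : Geo G) {Y : Set V} (hY : Y.Nonempty)
    (hinv : ∀ g ∈ S.Γ, S.l (g S.o) = S.l S.o → ∀ y ∈ Y, g y ∈ Y)
    (hfin : ∃ Y₀ : Finset V, ∀ y ∈ Y, ∃ g ∈ S.Γ, S.l (g S.o) = S.l S.o ∧ g y ∈ Y₀)
    (hna : ¬ Amenable (G.induce Y)) : ∃ (R : ℕ) (h : ℝ), 0 < h ∧ ∀ T : Finset V,
      (∀ x ∈ T, S.O x ∧ S.l x = S.l S.o) →
        h * T.card ≤ (T.filter fun x => ∃ y ∉ T, folnRel S R x y).card := by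
  obtain ⟨y₀, hy₀⟩ := hY
  obtain ⟨Y₀, hY₀⟩ := hfin
  set r := (insert y₀ Y₀).sup (G.dist S.o) with hr
  have hr0 : G.dist S.o y₀ ≤ r := Finset.le_sup (Finset.mem_insert_self _ _)
  have hr1 : ∀ y ∈ Y, ∃ k, S.O k ∧ S.l k = S.l S.o ∧ G.dist k y ≤ r := fun y hy => by
    obtain ⟨g, hg, h1, h2⟩ := hY₀ y hy
    obtain ⟨δ, hδ⟩ := Geo.exists_shift hg
    have e : g (g.symm S.o) = S.o := g.apply_symm_apply _
    refine ⟨g.symm S.o, (Geo.O_map_iff hg).1 (by rw [e]; exact S.O_o), ?_, ?_⟩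
    · have h3 := hδ (g.symm S.o)
      have h4 := hδ S.o
      rw [e] at h3
      linarith
    · rw [← dist_iso S.conn g, e]
      exact Finset.le_sup (f := G.dist S.o) (Finset.mem_insert_of_mem h2)
  simp only [Amenable, not_forall, not_exists, not_and, not_lt] at hna
  obtain ⟨ε, hε, hna⟩ := hna
  set c : ℕ := (S.D + 1) ^ r with hc
  have hc0 : (0 : ℝ) < c := by positivity
  have hD : (0 : ℝ) < S.D := by exact_mod_cast S.one_le_D
  refine ⟨2 * r + 1, ε / (c * (S.D * c)), by positivity, fun T hT => ?_⟩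
  rcases T.eq_empty_or_nonempty with rfl | hne
  · simp
  set B := T.filter fun x => ∃ y ∉ T, folnRel S (2 * r + 1) x y with hB
  let W : Finset Y := (T.biUnion fun k => bl S.conn k r).subtype (· ∈ Y)
  have hW : ∀ w : Y, w ∈ W ↔ ∃ k ∈ T, G.dist k w ≤ r := fun w => by
    simp [W, mem_bl]
  have h1 : ∀ k ∈ T, ∃ w ∈ W, G.dist (w : V) k ≤ r := fun k hk => by
    obtain ⟨⟨g, hg, rfl⟩, h2⟩ := hT k hk
    have h3 : G.dist (g S.o) (g y₀) ≤ r := by rwa [dist_iso S.conn g]
    exact ⟨⟨g y₀, hinv g hg h2 _ hy₀⟩, (hW _).2 ⟨_, hk, h3⟩, by rwa [dist_comm]⟩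
  have h2 : T.card ≤ W.card * c :=
    (Finset.card_le_card fun k hk => by
      obtain ⟨w, hw, h⟩ := h1 k hk
      exact Finset.mem_biUnion.2 ⟨w, hw, (mem_bl _).2 h⟩).trans
      (Finset.card_biUnion_le_card_mul W (fun w => bl S.conn w r) c
        fun w _ => card_bl_le S.conn S.deg _ _)
  have hWne : W.Nonempty := by
    obtain ⟨k, hk⟩ := hne
    obtain ⟨w, hw, -⟩ := h1 k hk
    exact ⟨w, hw⟩
  have h3 := hna W hWne
  rw [le_div_iff₀ (by exact_mod_cast hWne.card_pos)] at h3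
  have h4 : (edgeBoundary (G.induce Y) W).ncard ≤ S.D * (B.card * c) := by
    rw [← Set.ncard_image_of_injective _ (Sym2.map.injective Subtype.val_injective)]
    refine (Set.ncard_le_ncard ?_ (edges_touch_finite (Finset.finite_toSet _))).trans
      ((edges_touch_card S (B.biUnion fun k => bl S.conn k r)).trans (Nat.mul_le_mul_left _
        (Finset.card_biUnion_le_card_mul _ _ _ fun w _ => card_bl_le S.conn S.deg _ _)))
    rintro _ ⟨_, ⟨he, a, ha, b, hb, rfl⟩, rfl⟩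
    have hab : G.Adj a b := he
    obtain ⟨k, hk, h5⟩ := (hW a).1 ha
    obtain ⟨k', h6, h7, h8⟩ := hr1 b b.2
    refine ⟨hab, a, by simp, Finset.mem_coe.2 (Finset.mem_biUnion.2 ⟨k, Finset.mem_filter.2
      ⟨hk, k', fun h => hb ((hW b).2 ⟨k', h, h8⟩), (hT k hk).1, h6, (hT k hk).2.trans h7.symm, ?_⟩,
      (mem_bl _).2 h5⟩)⟩
    have e1 := S.conn.dist_triangle (u := k) (v := (a : V)) (w := k')
    have e2 := S.conn.dist_triangle (u := (a : V)) (v := (b : V)) (w := k')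
    have e3 := dist_eq_one_iff_adj.2 hab
    rw [dist_comm] at h8
    omega
  rw [div_mul_eq_mul_div, div_le_iff₀ (by positivity)]
  have h2' : (T.card : ℝ) ≤ W.card * c := by exact_mod_cast h2
  have h4' : ((edgeBoundary (G.induce Y) W).ncard : ℝ) ≤ S.D * (B.card * c) := by exact_mod_cast h4
  calc ε * T.card ≤ ε * W.card * c := by rw [mul_assoc]; gcongr
    _ ≤ S.D * (B.card * c) * c := mul_le_mul_of_nonneg_right (h3.trans h4') hc0.le
    _ = _ := by ring

open Classical in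
theorem foln_level {R : ℕ} {h : ℝ} (hb : ∀ T : Finset V, (∀ x ∈ T, S.O x ∧ S.l x = S.l S.o) →
      h * T.card ≤ (T.filter fun x => ∃ y ∉ T, folnRel S R x y).card) (t : ℝ) (T : Finset V)
    (hT : ∀ x ∈ T, S.O x ∧ S.l x = t) :
    h * T.card ≤ (T.filter fun x => ∃ y ∉ T, folnRel S R x y).card := by
  rcases T.eq_empty_or_nonempty with rfl | ⟨x₀, hx₀⟩
  · simp
  obtain ⟨g, hg, e⟩ := (hT x₀ hx₀).1.exists_map S.O_o
  obtain ⟨δ, hδ⟩ := Geo.exists_shift hg
  have h1 := hb (T.image g) fun x hx => by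
    obtain ⟨z, hz, rfl⟩ := Finset.mem_image.1 hx
    refine ⟨(hT z hz).1.map hg, ?_⟩
    rw [← e, hδ, hδ, (hT z hz).2, (hT x₀ hx₀).2]
  rw [Finset.card_image_of_injective _ g.injective] at h1
  refine h1.trans (Nat.cast_le.2 ((Finset.card_le_card fun x hx => ?_).trans
    (Finset.card_image_le (f := g))))
  obtain ⟨hx', y, hy, h2, h3, h4, h5⟩ := Finset.mem_filter.1 hx
  obtain ⟨z, hz, rfl⟩ := Finset.mem_image.1 hx'
  obtain ⟨y, rfl⟩ := g.surjective y
  refine Finset.mem_image_of_mem _ (Finset.mem_filter.2 ⟨hz, y,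
    fun h => hy (Finset.mem_image_of_mem _ h), (hT z hz).1, (Geo.O_map_iff hg).1 h3, ?_, ?_⟩)
  · rwa [hδ, hδ, add_left_inj] at h4
  · rwa [dist_iso S.conn g] at h5

open Classical in
theorem foln_all {R : ℕ} {h : ℝ} (hb : ∀ T : Finset V, (∀ x ∈ T, S.O x ∧ S.l x = S.l S.o) →
      h * T.card ≤ (T.filter fun x => ∃ y ∉ T, folnRel S R x y).card) (W : Finset V) :
    h * (W.filter S.O).card ≤ (W.filter fun x => ∃ y ∉ W, folnRel S R x y).card := by
  rw [Finset.card_eq_sum_card_fiberwise (f := S.l) (t := W.image S.l) fun x hx =>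
      Finset.mem_image_of_mem _ (Finset.mem_filter.1 hx).1,
    Finset.card_eq_sum_card_fiberwise (f := S.l) (t := W.image S.l) (s := W.filter _) fun x hx =>
      Finset.mem_image_of_mem _ (Finset.mem_filter.1 hx).1, Nat.cast_sum, Nat.cast_sum,
    Finset.mul_sum]
  refine Finset.sum_le_sum fun t _ => (foln_level hb t _ fun x hx => ?_).trans
    (Nat.cast_le.2 (Finset.card_le_card fun x hx => ?_))
  · simp only [Finset.mem_filter] at hx
    exact ⟨hx.1.2, hx.2⟩
  · simp only [Finset.mem_filter] at hx ⊢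
    obtain ⟨⟨⟨h1, h2⟩, h3⟩, y, h4, h5⟩ := hx
    exact ⟨⟨h1, y, fun h => h4 ⟨⟨h, h5.2.1⟩, h5.2.2.1.symm.trans h3⟩, h5⟩, h3⟩

open Classical in
theorem foln_row (S : Geo G) (R : ℕ) (x : V) :
    ∑' y, S.sideK R x y = ((bl S.conn x R).filter (folnRel S R x)).card := by
  rw [tsum_eq_sum (f := S.sideK R x) (s := (bl S.conn x R).filter (folnRel S R x)) fun y hy => if_neg fun h =>
    hy (Finset.mem_filter.2 ⟨(mem_bl _).2 h.2.2.2, h⟩), Finset.card_eq_sum_ones, Nat.cast_sum]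
  exact Finset.sum_congr rfl fun y hy => by
    rw [Nat.cast_one]; exact if_pos (Finset.mem_filter.1 hy).2

end

omit [Countable V] in
theorem side_gap (S : Geo G) {Y : Set V} (hY : Y.Nonempty)
    (hinv : ∀ g ∈ S.Γ, S.l (g S.o) = S.l S.o → ∀ y ∈ Y, g y ∈ Y)
    (hfin : ∃ Y₀ : Finset V, ∀ y ∈ Y, ∃ g ∈ S.Γ, S.l (g S.o) = S.l S.o ∧ g y ∈ Y₀)
    (hna : ¬ Amenable (G.induce Y)) :
    ∃ (R : ℕ) (ρ : ℝ), 0 < ρ ∧ ρ < 1 ∧ NB (S.sideK R) (ofReal ρ * ∑' y, S.sideK R S.o y) := by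
  classical
  obtain ⟨R, h₀, h0, hb⟩ := foln_base S hY hinv hfin hna
  set h := min h₀ (1 / 2) with hh
  have h1 : 0 < h := lt_min h0 (by norm_num)
  have h2 : h ≤ 1 / 2 := min_le_right _ _
  set N : V → Finset V := fun x => (bl S.conn x R).filter (folnRel S R x) with hN
  have hmem : ∀ x y, y ∈ N x ↔ folnRel S R x y := fun x y =>
    ⟨fun h => (Finset.mem_filter.1 h).2, fun h => Finset.mem_filter.2 ⟨(mem_bl _).2 h.2.2.2, h⟩⟩
  have hrow : ∀ x, ∑' y, S.sideK R x y = (N x).card := fun x => by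
    rw [foln_row]
  have hO : ∀ x, S.O x → (N x).card = (N S.o).card := by
    rintro _ ⟨g, hg, rfl⟩
    have := (S.sideK_inv R).row hg S.o
    rw [hrow, hrow] at this
    exact_mod_cast this
  have hO' : ∀ x, ¬S.O x → N x = ∅ := fun x hx =>
    Finset.eq_empty_of_forall_notMem fun y hy => hx ((hmem x y).1 hy).1
  set d : ℝ := ((N S.o).card : ℝ) with hd
  have hd1 : 1 ≤ d := by
    rw [hd]
    exact_mod_cast Finset.card_pos.2 ⟨S.o, (hmem _ _).2 ⟨S.O_o, S.O_o, rfl, by simp⟩⟩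
  have hle : ∀ x, ((N x).card : ℝ) ≤ d := fun x => by
    by_cases hx : S.O x
    · rw [hO x hx]
    · rw [hO' x hx]; simp only [Finset.card_empty, Nat.cast_zero]; linarith
  have hs : 0 < √(d ^ 2 - h ^ 2) := Real.sqrt_pos.2 (by nlinarith)
  refine ⟨R, √(d ^ 2 - h ^ 2) / d, by positivity, ?_, ?_⟩
  · rw [div_lt_one (by linarith), Real.sqrt_lt' (by linarith)]
    nlinarith
  rw [hrow, ← ENNReal.ofReal_natCast, ← ENNReal.ofReal_mul (by positivity), ← hd,
    div_mul_cancel₀ _ (by linarith)]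
  refine cheeger (fun x y => ?_) h1 (by linarith) (fun x => ?_) fun W => ?_
  · unfold Geo.sideK
    refine if_congr ⟨?_, ?_⟩ rfl rfl <;> rintro ⟨a, b, c, e⟩ <;>
      exact ⟨b, a, c.symm, by rwa [dist_comm]⟩
  · rw [hrow, ← ENNReal.ofReal_natCast]
    exact ENNReal.ofReal_le_ofReal (hle x)
  · have e1 : ∀ x, ∑ y ∈ W, S.sideK R x y = ofReal (W.filter (folnRel S R x)).card := fun x => by
      rw [ENNReal.ofReal_natCast, Finset.card_filter, Nat.cast_sum]
      refine Finset.sum_congr rfl fun y _ => ?_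
      rw [Nat.cast_ite, Nat.cast_one, Nat.cast_zero]
      exact if_congr Iff.rfl rfl rfl
    simp only [e1]
    rw [← ENNReal.ofReal_sum_of_nonneg fun _ _ => Nat.cast_nonneg _]
    refine ENNReal.ofReal_le_ofReal ?_
    have e2 : ∀ x ∈ W, ((W.filter (folnRel S R x)).card : ℝ) ≤ d - h +
        (h * (if S.O x then 1 else 0) - if ∃ y ∉ W, folnRel S R x y then 1 else 0) := by
      intro x _
      have hsub : W.filter (folnRel S R x) ⊆ N x := fun y hy =>
        (hmem x y).2 (Finset.mem_filter.1 hy).2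
      split_ifs with a b b
      · obtain ⟨y, hy, b⟩ := b
        have : (W.filter (folnRel S R x)).card + 1 ≤ (N x).card :=
          Finset.card_lt_card ⟨hsub, fun h => hy (Finset.mem_filter.1 (h ((hmem x y).2 b))).1⟩
        have : ((W.filter (folnRel S R x)).card : ℝ) + 1 ≤ (N x).card := by exact_mod_cast this
        linarith [hle x]
      · have : ((W.filter (folnRel S R x)).card : ℝ) ≤ (N x).card := by
          exact_mod_cast Finset.card_le_card hsub
        linarith [hle x]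
      · exact absurd b.choose_spec.2.1 a
      · rw [hO' x a, Finset.subset_empty] at hsub
        rw [hsub]
        simp only [Finset.card_empty, Nat.cast_zero]
        linarith
    refine (Finset.sum_le_sum e2).trans ?_
    rw [Finset.sum_add_distrib, Finset.sum_const, Finset.sum_sub_distrib, ← Finset.mul_sum,
      Finset.sum_boole, Finset.sum_boole, nsmul_eq_mul, mul_comm]
    have e3 := foln_all hb W
    have e4 : h * (W.filter S.O).card ≤ h₀ * (W.filter S.O).card :=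
      mul_le_mul_of_nonneg_right (min_le_left _ _) (Nat.cast_nonneg _)
    linarith

end Pool.Agent.P.MP_3aa27f_pr.F
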