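import Pool.Agent.P.MP_3aa27f_pr.F.Defs

/-! Max-plus potentials. -/

open MeasureTheory unitInterval SimpleGraph
open ENNReal (ofReal)
open scoped ENNReal

namespace Pool.Agent.P.MP_3aa27f_pr.F

variable {V : Type} {G : SimpleGraph V} [G.LocallyFinite]

section

omit [G.LocallyFinite]

/-- there is a walk of length `k` -/
def pot_Wk (G : SimpleGraph V) (k : ℕ) (x y : V) : Prop := ∃ w : G.Walk x y, w.length = k

theorem pot_refl (x : V) : pot_Wk G 0 x x := ⟨.nil, rfl⟩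

theorem pot_zero {x y : V} (h : pot_Wk G 0 x y) : x = y :=
  let ⟨w, hw⟩ := h; w.eq_of_length_eq_zero hw

theorem pot_trans {i j : ℕ} {x y z : V} (h : pot_Wk G i x y) (h' : pot_Wk G j y z) :
    pot_Wk G (i + j) x z := by
  obtain ⟨w, rfl⟩ := h
  obtain ⟨w', rfl⟩ := h'
  exact ⟨w.append w', by simp⟩

theorem pot_adj {x y : V} (h : G.Adj x y) : pot_Wk G 1 x y := ⟨h.toWalk, rfl⟩

theorem pot_map (g : G ≃g G) {k : ℕ} {x y : V} (h : pot_Wk G k x y) : pot_Wk G k (g x) (g y) :=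
  let ⟨w, hw⟩ := h; ⟨w.map g.toHom, by simpa using hw⟩

theorem pot_seg {x y : V} (w : G.Walk x y) (i j : ℕ) (h : i + j ≤ w.length) :
    pot_Wk G j (w.getVert i) (w.getVert (i + j)) := by
  induction j with
  | zero => exact pot_refl _
  | succ j ih => exact pot_trans (ih (by omega)) (pot_adj (w.adj_getVert_succ (by omega)))

theorem pot_cut {Γ : Subgroup (G ≃g G)} (R : Finset V) (hR : ∀ v, ∃ g ∈ Γ, g v ∈ R) {k : ℕ}
    {x y : V} (h : pot_Wk G k x y) (hk : R.card ≤ k) :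
    ∃ (j : ℕ) (u u' : V), ∃ g ∈ Γ, 1 ≤ j ∧ j ≤ R.card ∧ j ≤ k ∧ pot_Wk G j u u' ∧ g u' = u ∧
      pot_Wk G (k - j) x (g y) := by
  obtain ⟨w, rfl⟩ := h
  choose γ hγ hγR using hR
  have key : ∀ i i' : ℕ, i < i' → i' ≤ R.card →
      γ (w.getVert i) (w.getVert i) = γ (w.getVert i') (w.getVert i') →
      ∃ (j : ℕ) (u u' : V), ∃ g ∈ Γ, 1 ≤ j ∧ j ≤ R.card ∧ j ≤ w.length ∧ pot_Wk G j u u' ∧
        g u' = u ∧ pot_Wk G (w.length - j) x (g y) := by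
    intro i i' h1 h2 h3
    obtain ⟨j, rfl⟩ : ∃ j, i' = i + j := ⟨i' - i, by omega⟩
    have e : ((γ (w.getVert i))⁻¹ * γ (w.getVert (i + j))) (w.getVert (i + j)) = w.getVert i := by
      rw [RelIso.mul_apply, ← h3, RelIso.inv_apply_self]
    refine ⟨j, _, _, _, Γ.mul_mem (Γ.inv_mem (hγ _)) (hγ _), by omega, by omega, by omega,
      pot_seg w i j (by omega), e, ?_⟩
    have a1 := pot_seg w 0 i (by omega)
    have a2 := pot_map ((γ (w.getVert i))⁻¹ * γ (w.getVert (i + j)))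
      (pot_seg w (i + j) (w.length - (i + j)) (by omega))
    rw [e, show i + j + (w.length - (i + j)) = w.length by omega, w.getVert_length] at a2
    rw [w.getVert_zero, zero_add] at a1
    have := pot_trans a1 a2
    rwa [show i + (w.length - (i + j)) = w.length - j by omega] at this
  obtain ⟨i, hi, i', hi', hne, he⟩ := Finset.exists_ne_map_eq_of_card_lt_of_maps_to
    (s := Finset.range (R.card + 1)) (t := R) (by simp)
    (f := fun i => γ (w.getVert i) (w.getVert i)) fun i _ => hγR _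
  rw [Finset.mem_range] at hi hi'
  rcases lt_or_gt_of_ne hne with h | h
  · exact key i i' h (by omega) he
  · exact key i' i h (by omega) he.symm

theorem pot_red {Γ : Subgroup (G ≃g G)} (R : Finset V) (hR : ∀ v, ∃ g ∈ Γ, g v ∈ R) {a : V → ℝ}
    (ha : ∀ g ∈ Γ, ∀ x y, a (g x) - a (g y) = a x - a y) {lam : ℝ}
    (hl : ∀ (j : ℕ) (u u' : V), 1 ≤ j → j ≤ R.card → pot_Wk G j u u' → (∃ g ∈ Γ, g u' = u) →
      a u' - a u ≤ lam * j) (k : ℕ) : ∀ x y : V, pot_Wk G k x y →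
      ∃ k' < R.card, ∃ g ∈ Γ, pot_Wk G k' x (g y) ∧ a y - lam * k ≤ a (g y) - lam * k' := by
  induction k using Nat.strong_induction_on with
  | _ k ih =>
    intro x y h
    by_cases hk : k < R.card
    · exact ⟨k, hk, 1, Γ.one_mem, h, le_rfl⟩
    obtain ⟨j, u, u', g, hg, h1, h2, h3, h4, h5, h6⟩ := pot_cut R hR h (by omega)
    obtain ⟨k', h7, g', hg', h8, h9⟩ := ih (k - j) (by omega) x (g y) h6
    refine ⟨k', h7, g' * g, Γ.mul_mem hg' hg, h8, ?_⟩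
    have b1 := hl j u u' h1 h2 h4 ⟨g, hg, h5⟩
    have b2 := ha g hg y u'
    rw [h5] at b2
    rw [Nat.cast_sub h3] at h9
    rw [RelIso.mul_apply]
    linarith

theorem pot_closed {Γ : Subgroup (G ≃g G)} (R : Finset V) (hR : ∀ v, ∃ g ∈ Γ, g v ∈ R)
    {a : V → ℝ} (ha : ∀ g ∈ Γ, ∀ x y, a (g x) - a (g y) = a x - a y) {lam : ℝ}
    (hl : ∀ (j : ℕ) (u u' : V), 1 ≤ j → j ≤ R.card → pot_Wk G j u u' → (∃ g ∈ Γ, g u' = u) →
      a u' - a u ≤ lam * j) {k : ℕ} {x y : V} (h : pot_Wk G k x y) (hxy : ∃ g ∈ Γ, g y = x) :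
    a y - a x ≤ lam * k := by
  obtain ⟨k', h1, g, hg, h2, h3⟩ := pot_red R hR ha hl k x y h
  obtain ⟨g', hg', e⟩ := hxy
  rcases Nat.eq_zero_or_pos k' with rfl | h0
  · rw [← pot_zero h2] at h3
    simp only [Nat.cast_zero, mul_zero] at h3
    linarith
  · have := hl k' x (g y) h0 h1.le h2 ⟨g' * g⁻¹, Γ.mul_mem hg' (Γ.inv_mem hg), by
      rw [RelIso.mul_apply, RelIso.inv_apply_self, e]⟩
    linarith

end

theorem pot_fin (k : ℕ) (x : V) : {y | pot_Wk G k x y}.Finite := by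
  induction k with
  | zero => exact (Set.finite_singleton x).subset fun y h => (pot_zero h).symm
  | succ k ih =>
    refine (ih.biUnion fun z _ => (G.neighborSet z).toFinite).subset ?_
    rintro y ⟨w, hw⟩
    refine Set.mem_biUnion (x := w.getVert k) ?_ ?_
    · simpa using pot_seg w 0 k (by omega)
    · have := w.adj_getVert_succ (i := k) (by omega)
      rwa [← hw, w.getVert_length] at this

theorem pot_fin' (n : ℕ) (x : V) : {q : ℕ × V | q.1 ≤ n ∧ pot_Wk G q.1 x q.2}.Finite := by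
  refine ((Set.finite_Iic n).biUnion fun k _ =>
    (Set.finite_singleton k).prod (pot_fin (G := G) k x)).subset ?_
  rintro ⟨k, y⟩ ⟨h1, h2⟩
  exact Set.mem_biUnion (x := k) h1 ⟨rfl, h2⟩

theorem exists_potential (hG : G.Connected) {Γ : Subgroup (G ≃g G)} (R : Finset V)
    (hR : ∀ v, ∃ g ∈ Γ, g v ∈ R) {a : V → ℝ}
    (ha : ∀ g ∈ Γ, ∀ x y, a (g x) - a (g y) = a x - a y) (hn : ∃ g ∈ Γ, ∃ u, a (g u) ≠ a u) :
    ∃ (lam : ℝ) (c : V → ℝ) (o : V) (n0 : ℕ), 0 < lam ∧ (∀ g ∈ Γ, ∀ x, c (g x) = c x) ∧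
      (∀ x y, G.Adj x y → a y + c y ≤ a x + c x + lam) ∧
      ∀ v, ∃ g ∈ Γ, ∃ w : G.Walk v (g o), 1 ≤ w.length ∧ w.length ≤ n0 ∧
        a (g o) + c (g o) = a v + c v + lam * w.length := by
  have conn : ∀ x y, ∃ k, pot_Wk G k x y := fun x y =>
    let ⟨w⟩ := hG.preconnected x y; ⟨_, w, rfl⟩
  obtain ⟨u, u', huu, hlt⟩ : ∃ u u', (∃ g ∈ Γ, g u' = u) ∧ a u < a u' := by
    obtain ⟨g, hg, u, hu⟩ := hn
    rcases lt_or_gt_of_ne hu with h | h
    · exact ⟨g u, u, ⟨g, hg, rfl⟩, h⟩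
    · exact ⟨u, g u, ⟨g⁻¹, Γ.inv_mem hg, RelIso.inv_apply_self g u⟩, h⟩
  obtain ⟨ku, hku⟩ := conn u u'
  set T : Set (V × ℕ × V) := {q | q.1 ∈ R ∧ 1 ≤ q.2.1 ∧ q.2.1 ≤ R.card ∧
    pot_Wk G q.2.1 q.1 q.2.2 ∧ ∃ g ∈ Γ, g q.2.2 = q.1} with hT
  have hTf : T.Finite := by
    refine (R.finite_toSet.biUnion fun x _ =>
      (Set.finite_singleton x).prod (pot_fin' (G := G) R.card x)).subset ?_
    rintro ⟨x, k, y⟩ ⟨h1, -, h2, h3, -⟩
    exact Set.mem_biUnion (x := x) h1 ⟨rfl, h2, h3⟩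
  have move : ∀ (j : ℕ) (x y : V), 1 ≤ j → j ≤ R.card → pot_Wk G j x y → (∃ g ∈ Γ, g y = x) →
      ∃ x' y', (x', j, y') ∈ T ∧ a y' - a x' = a y - a x := by
    rintro j x y h1 h2 h3 ⟨g, hg, e⟩
    obtain ⟨γ, hγ, h4⟩ := hR x
    exact ⟨γ x, γ y, ⟨h4, h1, h2, pot_map γ h3, γ * g * γ⁻¹,
      Γ.mul_mem (Γ.mul_mem hγ hg) (Γ.inv_mem hγ), by
        simp only [RelIso.mul_apply, RelIso.inv_apply_self, e]⟩, ha γ hγ y x⟩
  have hTn : T.Nonempty := by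
    by_contra h
    have := pot_closed R hR ha (lam := 0) (fun j x y h1 h2 h3 h4 =>
      let ⟨_, _, h5, _⟩ := move j x y h1 h2 h3 h4; (h ⟨_, h5⟩).elim) hku huu
    linarith
  obtain ⟨⟨o, k0, o'⟩, ⟨-, h01, h02, h03, g0, hg0, e0⟩, hmax⟩ :=
    Set.exists_max_image T (fun q => (a q.2.2 - a q.1) / q.2.1) hTf hTn
  simp only at h01 h02 h03 e0 hmax
  set lam := (a o' - a o) / k0 with hlam
  have hk0 : (0 : ℝ) < k0 := by exact_mod_cast h01
  have crit : a o' - a o = lam * k0 := by rw [hlam]; field_simp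
  have hl : ∀ (j : ℕ) (x y : V), 1 ≤ j → j ≤ R.card → pot_Wk G j x y → (∃ g ∈ Γ, g y = x) →
      a y - a x ≤ lam * j := by
    intro j x y h1 h2 h3 h4
    obtain ⟨x', y', h5, h6⟩ := move j x y h1 h2 h3 h4
    have := hmax _ h5
    simp only at this
    rwa [h6, div_le_iff₀ (by exact_mod_cast h1)] at this
  have hpos : 0 < lam := by
    have := pot_closed R hR ha hl hku huu
    by_contra h
    have : lam * ku ≤ 0 := mul_nonpos_of_nonpos_of_nonneg (not_lt.1 h) (Nat.cast_nonneg _)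
    linarith
  have hc : ∀ x, ∃ t : ℝ, (∃ k ≤ R.card, ∃ g ∈ Γ, pot_Wk G k x (g o) ∧
      t = a (g o) - a x - lam * k) ∧
      ∀ k, ∀ g ∈ Γ, pot_Wk G k x (g o) → a (g o) - a x - lam * k ≤ t := by
    intro x
    obtain ⟨k1, hk1⟩ := conn x o
    obtain ⟨k2, h1, g1, hg1, h2, -⟩ := pot_red R hR ha hl k1 x o hk1
    obtain ⟨⟨k, y⟩, ⟨⟨h3, h4⟩, g, hg, rfl⟩, h5⟩ := Set.exists_max_image
      ({q : ℕ × V | q.1 ≤ R.card ∧ pot_Wk G q.1 x q.2} ∩ {q | ∃ g ∈ Γ, g o = q.2})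
      (fun q => a q.2 - lam * q.1) ((pot_fin' R.card x).inter_of_left _)
      ⟨(k2, g1 o), ⟨h1.le, h2⟩, g1, hg1, rfl⟩
    refine ⟨_, ⟨k, h3, g, hg, h4, rfl⟩, fun k' g' hg' h6 => ?_⟩
    obtain ⟨k'', h7, g'', hg'', h8, h9⟩ := pot_red R hR ha hl k' x _ h6
    have := h5 (k'', g'' (g' o)) ⟨⟨h7.le, h8⟩, g'' * g', Γ.mul_mem hg'' hg', rfl⟩
    simp only at this
    linarith
  choose c hc1 hc2 using hc
  have inv : ∀ g ∈ Γ, ∀ x, c x ≤ c (g x) := by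
    intro g hg x
    obtain ⟨k, -, g', hg', h1, h2⟩ := hc1 x
    have h3 := hc2 (g x) k (g * g') (Γ.mul_mem hg hg') (pot_map g h1)
    rw [RelIso.mul_apply, ha g hg] at h3
    rwa [h2]
  have zero : ∀ g ∈ Γ, c (g o) = 0 := by
    intro g hg
    refine le_antisymm ?_ (by simpa using hc2 (g o) 0 g hg (pot_refl _))
    obtain ⟨k, -, g', hg', h1, h2⟩ := hc1 (g o)
    have := pot_closed R hR ha hl h1 ⟨g * g'⁻¹, Γ.mul_mem hg (Γ.inv_mem hg'), by
      rw [RelIso.mul_apply, RelIso.inv_apply_self]⟩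
    linarith
  refine ⟨lam, c, o, 2 * R.card, hpos, fun g hg x => le_antisymm ?_ (inv g hg x),
    fun x y hxy => ?_, fun v => ?_⟩
  · simpa only [RelIso.inv_apply_self] using inv g⁻¹ (Γ.inv_mem hg) (g x)
  · obtain ⟨k, -, g, hg, h1, h2⟩ := hc1 y
    have := hc2 x _ g hg (pot_trans (pot_adj hxy) h1)
    push_cast at this
    linarith
  · obtain ⟨k, hk, g, hg, h1, h2⟩ := hc1 v
    have e1 : (g * g0⁻¹) o = g o' := by rw [RelIso.mul_apply, ← e0, RelIso.inv_apply_self]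
    obtain ⟨w, hw⟩ : pot_Wk G (k + k0) v ((g * g0⁻¹) o) := e1 ▸ pot_trans h1 (pot_map g h03)
    refine ⟨g * g0⁻¹, Γ.mul_mem hg (Γ.inv_mem hg0), w, by omega, by omega, ?_⟩
    rw [zero _ (Γ.mul_mem hg (Γ.inv_mem hg0)), hw, e1]
    have := ha g hg o' o
    push_cast
    linarith

end Pool.Agent.P.MP_3aa27f_pr.F
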