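import Pool.Agent.P.MP_3aa27f_pr.F.Mtp
import Pool.Agent.P.MP_3aa27f_pr.F.Pot

/-! Existence of the level geometry. -/

open MeasureTheory unitInterval SimpleGraph
open ENNReal (ofReal)
open scoped ENNReal

namespace Pool.Agent.P.MP_3aa27f_pr.F

variable {V : Type} {G : SimpleGraph V} [G.LocallyFinite]

theorem exists_geo (hG : G.Connected) {Γ : Subgroup (G ≃g G)} {m : V → ℝ} (hm : Wt Γ m)
    (hq : ∃ R : Finset V, ∀ v, ∃ g ∈ Γ, g v ∈ R) (hn : ∃ g ∈ Γ, ∃ u, m (g u) ≠ m u) :
    ∃ S : Geo G, S.Γ = Γ ∧ (∃ C : ℝ, 0 < C ∧ ∀ x y, S.b ^ (S.l y - S.l x) ≤ C * (m y / m x)) ∧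
      ∀ g ∈ Γ, ∀ x, m (g x) / m x = S.b ^ (S.l (g x) - S.l x) := by
  classical
  obtain ⟨R, hR⟩ := hq
  have ha : ∀ g ∈ Γ, ∀ x y, Real.log (m (g x)) - Real.log (m (g y)) =
      Real.log (m x) - Real.log (m y) := fun g hg x y => by
    have := congrArg Real.log (hm.inv hg x y)
    rw [Real.log_mul (hm.pos _).ne' (hm.pos _).ne', Real.log_mul (hm.pos _).ne' (hm.pos _).ne']
      at this
    linarith
  obtain ⟨lam, c, o, n0, hlam, hc, hlip, hup⟩ := exists_potential hG R hR
    (a := fun x => Real.log (m x)) ha (by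
      obtain ⟨g, hg, u, hu⟩ := hn
      exact ⟨g, hg, u, fun e => hu (Real.log_injOn_pos (hm.pos _) (hm.pos _) e)⟩)
  let l : V → ℝ := fun x => (Real.log (m x) + c x) / lam
  have hb : ∀ x y, Real.exp lam ^ (l y - l x) = Real.exp (c y - c x) * (m y / m x) := fun x y => by
    rw [← Real.exp_mul, ← Real.exp_log (div_pos (hm.pos y) (hm.pos x)), ← Real.exp_add,
      Real.log_div (hm.pos _).ne' (hm.pos _).ne']
    congr 1
    simp only [l]
    field_simp
    ring
  let c0 : ℝ := ∑ r ∈ R, |c r|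
  have hc0 : ∀ x, |c x| ≤ c0 := fun x => by
    obtain ⟨g, hg, h⟩ := hR x
    rw [← hc g hg x]
    exact Finset.single_le_sum (f := fun r => |c r|) (fun _ _ => abs_nonneg _) h
  have hle : ∀ x y, Real.exp lam ^ (l y - l x) ≤ Real.exp (2 * c0) * (m y / m x) := fun x y => by
    rw [hb]
    refine mul_le_mul_of_nonneg_right (Real.exp_le_exp.2 ?_) (div_pos (hm.pos y) (hm.pos x)).le
    have h1 := abs_le.1 (hc0 x)
    have h2 := abs_le.1 (hc0 y)
    linarith
  have hc1 : 1 ≤ Real.exp (2 * c0) :=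
    Real.one_le_exp (mul_nonneg zero_le_two ((abs_nonneg _).trans (hc0 o)))
  refine ⟨⟨Γ, l, Real.exp lam, o, n0, R.sup fun r => G.degree r, Real.exp (2 * c0) * (R.card + 1),
    hG, Real.one_lt_exp_iff.2 hlam, ?_, fun v => ?_, fun g hg x y => ?_, fun x y h => ?_,
    fun v => ?_, ⟨R, hR⟩, fun K hK A hA y => ?_, fun K hK hs => ?_⟩, rfl,
    ⟨Real.exp (2 * c0), by positivity, hle⟩, fun g hg x => ?_⟩
  · have : (0 : ℝ) ≤ R.card := by positivity
    nlinarith
  · obtain ⟨g, hg, h⟩ := hR v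
    rw [← g.degree_eq v]
    exact Finset.le_sup (f := fun r => G.degree r) h
  · simp only [l, hc g hg]
    rw [← sub_div, ← sub_div]
    congr 1
    linarith [ha g hg x y]
  · simp only [l]
    rw [div_add_one hlam.ne']
    exact div_le_div_of_nonneg_right (hlip x y h) hlam.le
  · obtain ⟨g, hg, w, h1, h2, h3⟩ := hup v
    refine ⟨g, hg, w, h1, h2, ?_⟩
    simp only [l]
    rw [h3]
    field_simp
  · have e1 : ∀ x, K x y * ofReal (Real.exp lam ^ (l x - l y)) ≤ ofReal (Real.exp (2 * c0)) *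
        ∑ r ∈ R, {z | ∃ g ∈ Γ, g r = z}.indicator (fun z => K z y * ofReal (m z / m y)) x := by
      intro x
      obtain ⟨g, hg, h⟩ := hR x
      refine le_trans ?_ (mul_le_mul' le_rfl (Finset.single_le_sum (f := fun r =>
        {z | ∃ g ∈ Γ, g r = z}.indicator (fun z => K z y * ofReal (m z / m y)) x)
        (fun _ _ => zero_le) h))
      rw [Set.indicator_of_mem (show x ∈ {z | ∃ g' ∈ Γ, g' (g x) = z} from
        ⟨g⁻¹, Γ.inv_mem hg, g.symm_apply_apply x⟩), mul_left_comm,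
        ← ENNReal.ofReal_mul (by positivity)]
      exact mul_le_mul' le_rfl (ENNReal.ofReal_le_ofReal (hle y x))
    refine (ENNReal.tsum_le_tsum e1).trans ?_
    rw [ENNReal.tsum_mul_left, Summable.tsum_finsetSum fun _ _ => ENNReal.summable,
      ENNReal.ofReal_mul (by positivity), mul_assoc]
    refine mul_le_mul' le_rfl ?_
    calc _ ≤ ∑ _r ∈ R, A := Finset.sum_le_sum fun r _ => by
          rw [← mtp_orb hG hm hK r y]
          exact (ENNReal.tsum_le_tsum fun z => Set.indicator_le_self _ _ z).trans (hA r)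
      _ ≤ _ := by
          rw [Finset.sum_const, nsmul_eq_mul]
          refine mul_le_mul' ?_ le_rfl
          rw [← ENNReal.ofReal_natCast]
          exact ENNReal.ofReal_le_ofReal (by linarith)
  · refine (tsum_congr fun z => ?_).trans ((mtp_orb hG hm hK o o).trans (tsum_congr fun z => ?_))
    · by_cases h0 : K o z = 0
      · rw [h0, Set.indicator_apply_eq_zero.2 fun _ => h0]
      · exact (Set.indicator_of_mem (s := {z | ∃ g ∈ Γ, g o = z}) (hs o z h0).2 _).symm
    · by_cases h0 : K z o = 0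
      · rw [h0, zero_mul, Set.indicator_apply_eq_zero.2 fun _ => by rw [h0, zero_mul]]
      · obtain ⟨g, hg, e⟩ := (hs z o h0).1
        rw [Set.indicator_of_mem (s := {z | ∃ g ∈ Γ, g o = z}) (hs z o h0).1, hb, ← e, hc g hg,
          sub_self, Real.exp_zero, one_mul]
  · change _ = Real.exp lam ^ (l (g x) - l x)
    rw [hb, hc g hg, sub_self, Real.exp_zero, one_mul]

end Pool.Agent.P.MP_3aa27f_pr.F
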