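import Pool.Agent.P.MP_3aa27f_pr.F.ChE

/-! The critical parameter and the rate of crossings. -/

open MeasureTheory unitInterval SimpleGraph
open ENNReal (ofReal)
open scoped ENNReal

namespace Pool.Agent.P.MP_3aa27f_pr.F

variable {V : Type} {G : SimpleGraph V} [G.LocallyFinite] [Countable V] {S : Geo G} {p : I}
variable {ς : ℝ}

omit [Countable V] in
theorem ratee_ne_top (S : Geo G) (p : I) (r : ℝ) : S.PiO p 0 r ≠ ⊤ :=
  ne_top_of_le_ne_top ENNReal.one_ne_top rch_le_one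

omit [Countable V] in
theorem ratee_eq (S : Geo G) (p : I) (r : ℝ) : ofReal ((p : ℝ) ^ S.n0) * S.PiO p 0 r =
    ofReal ((p : ℝ) ^ S.n0 * (S.PiO p 0 r).toReal) := by
  rw [ENNReal.ofReal_mul (pow_nonneg p.2.1 _), ENNReal.ofReal_toReal (ratee_ne_top S p r)]

theorem ratee_first {x : V} (hx : S.O x) {c r : ℝ} (h : S.l x + r ≤ c) :
    rch G p (S.Ge (S.l x)) x (S.Top c) ≤ S.PiO p 0 r := by
  rw [← Geo.PiO_eq hx, sub_zero]
  exact measure_mono (S.Rch_first h)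

theorem ratee_low (S : Geo G) (p : I) : ofReal ((p : ℝ) ^ S.n0) ≤ S.PiO p 0 ((1 : ℕ) : ℝ) := by
  obtain ⟨u, w, _, a1, a2, a3⟩ := S.up' S.o
  have b1 : (1 : ℝ) ≤ w.length := by exact_mod_cast a1
  refine le_trans ?_ (ratee_first (c := S.l u) S.O_o (by push_cast; linarith))
  refine le_trans ?_ (harris_walk_rch w a2 fun e he => (S.tight_edges w a3 e he).1)
  have : Rch G (S.Ge (S.l S.o)) u (S.Top (S.l u)) = Set.univ :=
    Set.eq_univ_of_forall fun ω => ⟨u, le_refl (S.l u), Cn_refl _ _ _⟩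
  unfold rch
  rw [this, measure_univ, mul_one]

omit [Countable V] in
theorem ratee_pow (S : Geo G) (r : ℕ) : (S.b ^ (-(1 / 2) : ℝ)) ^ r = S.b ^ (-((r : ℝ) / 2)) := by
  rw [← Real.rpow_mul_natCast (sch_b0 S).le]
  congr 1; ring

omit [Countable V] in
theorem ratee_sq (S : Geo G) : (S.b ^ (-(1 / 2) : ℝ)) ^ 2 * S.b = 1 := by
  rw [ratee_pow, ← Real.rpow_add_one (sch_b0 S).ne']
  norm_num

theorem Geo.exists_p1 (S : Geo G) :
    ∃ p₁ : I, S.InP p₁ ∧ (p₁ : ℝ) < 1 ∧ ∀ q : I, p₁ < q → ¬ S.InP q := by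
  set A : Set ℝ := {t | ∃ q : I, (q : ℝ) = t ∧ S.InP q} with hA
  have A0 : (0 : ℝ) ∈ A := by
    refine ⟨0, rfl, fun r _ => ?_⟩
    have : S.n0 ≠ 0 := by have := S.one_le_n0; omega
    simp [this]
  have A1 : ∀ t ∈ A, t ≤ 1 := by
    rintro t ⟨q, rfl, _⟩
    exact q.2.2
  have bdd : BddAbove A := ⟨1, A1⟩
  let p₁ : I := ⟨sSup A, le_csSup bdd A0, csSup_le ⟨0, A0⟩ A1⟩
  have h1 : S.InP p₁ := by
    intro r hr
    by_contra hlt
    have t0 : 0 < S.b ^ (-((r : ℝ) / 2)) := Real.rpow_pos_of_pos (sch_b0 S) _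
    rw [ratee_eq, ENNReal.ofReal_le_ofReal_iff t0.le, not_le] at hlt
    set π := (S.PiO p₁ 0 r).toReal with hπ
    have π0 : 0 ≤ π := ENNReal.toReal_nonneg
    have pp : 0 < (p₁ : ℝ) ^ S.n0 * π := t0.trans hlt
    have π1 : 0 < π := lt_of_le_of_ne π0 fun h0 => by rw [← h0] at pp; simp at pp
    have p0 : 0 < (p₁ : ℝ) := lt_of_le_of_ne p₁.2.1 fun h0 => by
      have : S.n0 ≠ 0 := by have := S.one_le_n0; omega
      rw [← h0] at pp; simp [this] at pp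
    have c1 : Continuous fun δ : ℝ => ((p₁ : ℝ) - δ) ^ S.n0 * (π - δ) := by fun_prop
    have e1 : ∀ᶠ δ in nhds (0 : ℝ), S.b ^ (-((r : ℝ) / 2)) < ((p₁ : ℝ) - δ) ^ S.n0 * (π - δ) :=
      c1.continuousAt.eventually_const_lt (by simpa using hlt)
    have e2 : ∀ᶠ δ in nhds (0 : ℝ), δ < (p₁ : ℝ) := eventually_lt_nhds p0
    have e3 : ∀ᶠ δ in nhdsWithin (0 : ℝ) (Set.Ioi 0), 0 < δ := self_mem_nhdsWithin
    obtain ⟨δ, ⟨d1, d2⟩, d3⟩ := (((e1.and e2).filter_mono nhdsWithin_le_nhds).and e3).exists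
    have d4 : ofReal (π - δ) < S.PiO p₁ 0 r := by
      rw [← ENNReal.ofReal_toReal (ratee_ne_top S p₁ r)]
      exact (ENNReal.ofReal_lt_ofReal_iff π1).2 (by linarith)
    obtain ⟨ε, ε0, hε⟩ := PM_lsc Rch_FU d4
    have d5 : (p₁ : ℝ) - min δ ε < sSup A := by
      have : 0 < min δ ε := lt_min d3 ε0
      show sSup A - min δ ε < sSup A
      linarith
    obtain ⟨t, ⟨q, rfl, hq⟩, d6⟩ := exists_lt_of_lt_csSup ⟨0, A0⟩ d5
    have d7 : ofReal (π - δ) ≤ S.PiO q 0 r := (hε q (by linarith [min_le_right δ ε])).le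
    have d8 : ((p₁ : ℝ) - δ) ^ S.n0 ≤ (q : ℝ) ^ S.n0 :=
      pow_le_pow_left₀ (by linarith) (by linarith [min_le_left δ ε]) _
    have d9 := (mul_le_mul' (ENNReal.ofReal_le_ofReal d8) d7).trans (hq r hr)
    rw [← ENNReal.ofReal_mul (pow_nonneg (by linarith) _),
      ENNReal.ofReal_le_ofReal_iff t0.le] at d9
    linarith
  refine ⟨p₁, h1, lt_of_le_of_ne p₁.2.2 fun h0 => ?_, fun q hq hq' => ?_⟩
  · have a1 := (mul_le_mul_right (ratee_low S p₁) _).trans (h1 1 le_rfl)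
    rw [h0, one_pow, ENNReal.ofReal_one, one_mul, ENNReal.one_le_ofReal] at a1
    have : S.b ^ (-(((1 : ℕ) : ℝ) / 2)) < 1 :=
      Real.rpow_lt_one_of_one_lt_of_neg S.one_lt_b (by norm_num)
    linarith
  · have a1 : (q : ℝ) ≤ sSup A := le_csSup bdd ⟨q, rfl, hq'⟩
    have a2 : sSup A < q := hq
    linarith

theorem Geo.crude (S : Geo G) (p0 : 0 < (p : ℝ)) (s0 : 0 < ς) (s1 : ς ≤ 1)
    (h : ∀ r : ℕ, 1 ≤ r → ofReal ((p : ℝ) ^ S.n0) * S.PiO p 0 r ≤ ofReal (ς ^ r)) :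
    ∃ Cc : ℝ, 1 ≤ Cc ∧ ∀ m H : ℝ, 0 ≤ m → S.FB p ς m H (Cc ^ (m + 1)) := by
  have i1 : 1 ≤ (p : ℝ)⁻¹ := (one_le_inv₀ p0).2 p.2.2
  have i2 : 1 ≤ ς⁻¹ := (one_le_inv₀ s0).2 s1
  have i3 : 1 ≤ ((p : ℝ)⁻¹) ^ (4 * S.n0 + 1) := one_le_pow₀ i1
  refine ⟨((p : ℝ)⁻¹) ^ (4 * S.n0 + 1) * ς⁻¹, one_le_mul_of_one_le_of_one_le i3 i2,
    fun m H m0 w a c hm _ => ?_⟩
  have key : ∃ N : ℕ, (N : ℝ) ≤ 4 * S.n0 + m ∧ ofReal ((p : ℝ) ^ N) *
      rch G p (S.E a c) w (S.Top c) ≤ ofReal (ς ^ (c - S.l w - 1)) := by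
    obtain ⟨y, w₁, hy, a1, a2, a3⟩ := S.up' w
    have b1 : (1 : ℝ) ≤ w₁.length := by exact_mod_cast a1
    have b2 : (w₁.length : ℝ) ≤ S.n0 := by exact_mod_cast a2
    have t1 := min_le_left a (S.l w)
    have t2 := min_le_right a (S.l w)
    have t3 : S.l w - m ≤ min a (S.l w) := le_min (by linarith) (by linarith)
    obtain ⟨x, w₂, hx, c1, c2, c3⟩ := Geo.descend hy (t := min a (S.l w)) (by linarith)
    by_cases hr : 1 ≤ c - S.l x
    · have r1 : 1 ≤ ⌊c - S.l x⌋₊ := Nat.le_floor (by simpa using hr)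
      have r2 : (⌊c - S.l x⌋₊ : ℝ) ≤ c - S.l x := Nat.floor_le (by linarith)
      have r3 := Nat.lt_floor_add_one (c - S.l x)
      refine ⟨S.n0 + (w₂.append w₁.reverse).length, ?_, ?_⟩
      · rw [Walk.length_append, Walk.length_reverse]
        push_cast
        linarith
      · have d1 : rch G p (S.E a c) w (S.Top c) ≤ rch G p (S.Ge (S.l x)) w (S.Top c) :=
          rch_mono (Set.inter_subset_left.trans (S.Ge_mono (by linarith))) subset_rfl
        have d2 := harris_walk_rch (p := p) (F := S.Ge (S.l x)) (Y := S.Top c)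
          (w₂.append w₁.reverse) le_rfl fun e he => by
            rw [Walk.edges_append, List.mem_append, Walk.edges_reverse, List.mem_reverse] at he
            rcases he with he | he
            · exact (S.tight_edges w₂ c3 e he).1
            · exact S.Ge_mono (by linarith) (S.tight_edges w₁ a3 e he).1
        have d3 := ratee_first (p := p) hx (c := c) (r := ⌊c - S.l x⌋₊) (by linarith)
        rw [pow_add, ENNReal.ofReal_mul (pow_nonneg p0.le _), mul_assoc]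
        refine (mul_le_mul_right (((mul_le_mul_right d1 _).trans d2).trans d3) _).trans
          ((h _ r1).trans (ENNReal.ofReal_le_ofReal ?_))
        rw [← Real.rpow_natCast]
        exact Real.rpow_le_rpow_of_exponent_ge s0 s1 (by linarith)
    · refine ⟨0, by rw [Nat.cast_zero]; positivity, ?_⟩
      rw [pow_zero, ENNReal.ofReal_one, one_mul]
      refine rch_le_one.trans (ENNReal.one_le_ofReal.2 ?_)
      exact Real.one_le_rpow_of_pos_of_le_one_of_nonpos s0 s1 (by linarith)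
  obtain ⟨N, hN, key⟩ := key
  have pN : 0 < (p : ℝ) ^ N := pow_pos p0 _
  have e1 : rch G p (S.E a c) w (S.Top c) = ofReal (((p : ℝ)⁻¹) ^ N) *
      (ofReal ((p : ℝ) ^ N) * rch G p (S.E a c) w (S.Top c)) := by
    rw [← mul_assoc, ← ENNReal.ofReal_mul (by positivity), ← mul_pow, inv_mul_cancel₀ p0.ne',
      one_pow, ENNReal.ofReal_one, one_mul]
  rw [e1]
  refine (mul_le_mul_right key _).trans ?_
  rw [← ENNReal.ofReal_mul (by positivity)]
  refine ENNReal.ofReal_le_ofReal ?_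
  have e2 : ς ^ (c - S.l w - 1) = ς⁻¹ * ς ^ (c - S.l w) := by
    rw [Real.rpow_sub_one s0.ne']; ring
  rw [e2, ← mul_assoc, Real.mul_rpow (by positivity) (by positivity)]
  refine mul_le_mul_of_nonneg_right (mul_le_mul ?_ ?_ (by positivity) (by positivity))
    (Real.rpow_pos_of_pos s0 _).le
  · rw [← Real.rpow_natCast, ← Real.rpow_natCast_mul (by positivity)]
    refine Real.rpow_le_rpow_of_exponent_le i1 ?_
    push_cast
    have : (0 : ℝ) ≤ S.n0 * m := mul_nonneg (Nat.cast_nonneg _) m0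
    nlinarith
  · exact Real.self_le_rpow_of_one_le i2 (by linarith)

theorem Side.exists_rate (Z : Side S) (p0 : 0 < (p : ℝ)) (p1 : (p : ℝ) < 1) (h : S.InP p) :
    ∃ ς : ℝ, Rate S p ς := by
  set g : ℕ → ℝ := fun r => (p : ℝ) ^ S.n0 * (S.PiO p 0 r).toReal with hg
  set T : Set ℝ := {t | 0 ≤ t ∧ ∀ r : ℕ, 1 ≤ r → g r ≤ t ^ r} with hT
  have β0 : 0 < S.b ^ (-(1 / 2) : ℝ) := Real.rpow_pos_of_pos (sch_b0 S) _
  have β1 : S.b ^ (-(1 / 2) : ℝ) < 1 := Real.rpow_lt_one_of_one_lt_of_neg S.one_lt_b (by norm_num)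
  have T1 : S.b ^ (-(1 / 2) : ℝ) ∈ T := by
    refine ⟨β0.le, fun r hr => ?_⟩
    have := h r hr
    rw [ratee_eq, ENNReal.ofReal_le_ofReal_iff (Real.rpow_pos_of_pos (sch_b0 S) _).le] at this
    rw [ratee_pow]
    exact this
  have bdd : BddBelow T := ⟨0, fun t ht => ht.1⟩
  have cl : IsClosed T := by
    have : T = Set.Ici 0 ∩ ⋂ r : ℕ, ⋂ _ : 1 ≤ r, {t | g r ≤ t ^ r} := by
      ext t; simp [hT]
    rw [this]
    exact isClosed_Ici.inter (isClosed_iInter fun r => isClosed_iInter fun _ =>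
      isClosed_le continuous_const (continuous_pow r))
  have T2 : sInf T ∈ T := cl.csInf_mem ⟨_, T1⟩ bdd
  have T3 : sInf T ≤ S.b ^ (-(1 / 2) : ℝ) := csInf_le bdd T1
  have g1 : 0 < g 1 := by
    have a1 := ratee_low S p
    have a2 : 0 < (p : ℝ) ^ S.n0 := pow_pos p0 _
    refine mul_pos a2 (ENNReal.toReal_pos (fun h0 => ?_) (ratee_ne_top S p _))
    rw [h0, nonpos_iff_eq_zero, ENNReal.ofReal_eq_zero] at a1
    linarith
  have s0 : 0 < sInf T := by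
    have := T2.2 1 le_rfl
    rw [pow_one] at this
    linarith
  refine ⟨sInf T, p0, p1, s0, T3.trans_lt β1, ?_, S.crude p0 s0 (T3.trans β1.le) fun r hr => ?_,
    fun κ hκ => ?_⟩
  · rw [← ratee_sq S]
    exact mul_le_mul_of_nonneg_right (pow_le_pow_left₀ s0.le T3 _) (sch_b0 S).le
  · rw [ratee_eq]
    exact ENNReal.ofReal_le_ofReal (T2.2 r hr)
  · have k0 : 0 < sInf T / κ := div_pos s0 (by linarith)
    have k1 : sInf T / κ < sInf T := div_lt_self s0 hκ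
    have k2 : sInf T / κ ∉ T := fun h0 => absurd (csInf_le bdd h0) (not_le.2 k1)
    have k3 : ∃ r : ℕ, 1 ≤ r ∧ (sInf T / κ) ^ r < g r := by
      by_contra h0
      push Not at h0
      exact k2 ⟨k0.le, h0⟩
    obtain ⟨r, hr, k3⟩ := k3
    refine Z.exists_chain p0 k0 (by linarith) hr ?_
    rw [ratee_eq]
    exact (ENNReal.ofReal_lt_ofReal_iff ((pow_pos k0 r).trans k3)).2 k3

theorem Side.exists_super (Z : Side S) (h : ¬ S.InP p) :
    0 < (p : ℝ) ∧ ∃ C : Chain S p, 1 < C.q ^ 2 * S.b ^ C.J := by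
  unfold Geo.InP at h
  push Not at h
  obtain ⟨r, hr, h⟩ := h
  have β0 : 0 < S.b ^ (-(1 / 2) : ℝ) := Real.rpow_pos_of_pos (sch_b0 S) _
  have β1 : S.b ^ (-(1 / 2) : ℝ) < 1 := Real.rpow_lt_one_of_one_lt_of_neg S.one_lt_b (by norm_num)
  have p0 : 0 < (p : ℝ) := lt_of_le_of_ne p.2.1 fun h0 => by
    have : S.n0 ≠ 0 := by have := S.one_le_n0; omega
    rw [← h0] at h
    simp [this] at h
  refine ⟨p0, ?_⟩
  rw [ratee_eq, ← ratee_pow, ENNReal.ofReal_lt_ofReal_iff_of_nonneg (pow_pos β0 r).le] at h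
  have e1 : ∀ᶠ ξ in nhds (S.b ^ (-(1 / 2) : ℝ)),
      ξ ^ r < (p : ℝ) ^ S.n0 * (S.PiO p 0 r).toReal :=
    (continuous_pow r).continuousAt.eventually_lt_const h
  have e2 : ∀ᶠ ξ in nhds (S.b ^ (-(1 / 2) : ℝ)), ξ < 1 := eventually_lt_nhds β1
  have e3 : ∀ᶠ ξ in nhdsWithin (S.b ^ (-(1 / 2) : ℝ)) (Set.Ioi (S.b ^ (-(1 / 2) : ℝ))),
      S.b ^ (-(1 / 2) : ℝ) < ξ := self_mem_nhdsWithin
  obtain ⟨ξ, ⟨d1, d2⟩, d3⟩ := (((e1.and e2).filter_mono nhdsWithin_le_nhds).and e3).exists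
  have ξ0 : 0 < ξ := β0.trans d3
  obtain ⟨C, hC⟩ := Z.exists_chain p0 ξ0 d2.le hr (by
    rw [ratee_eq]
    exact (ENNReal.ofReal_lt_ofReal_iff ((pow_pos ξ0 r).trans d1)).2 d1)
  refine ⟨C, ?_⟩
  have b0 := sch_b0 S
  have a1 : 1 < ξ ^ 2 * S.b := by
    rw [← ratee_sq S]
    exact mul_lt_mul_of_pos_right (pow_lt_pow_left₀ d3 β0.le (by norm_num)) b0
  have a2 : 1 < (ξ ^ 2 * S.b) ^ C.J := Real.one_lt_rpow a1 (by linarith [C.one_le_J])
  rw [Real.mul_rpow (by positivity) b0.le, sq, Real.mul_rpow ξ0.le ξ0.le, ← sq] at a2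
  exact a2.trans_le (mul_le_mul_of_nonneg_right
    (pow_le_pow_left₀ (Real.rpow_pos_of_pos ξ0 _).le hC 2) (Real.rpow_pos_of_pos b0 _).le)

end Pool.Agent.P.MP_3aa27f_pr.F
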