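import Pool.Agent.P.MP_3aa27f_pr.F.RouteA

/-! Routes expand every set; infinite susceptibility in a slab. -/

open MeasureTheory unitInterval SimpleGraph
open ENNReal (ofReal)
open scoped ENNReal

namespace Pool.Agent.P.MP_3aa27f_pr.F

variable {V : Type} {G : SimpleGraph V} [G.LocallyFinite] [Countable V] {S : Geo G} {p : I}
variable (C : Chain S p)

theorem route_meas (n : ℕ) (T : Finset V) (y : V) :
    Measurable fun ζ : Cf V × Cf V => C.X n T y ζ.1 ζ.2 :=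
  Measurable.tsum fun u =>
    (Finset.measurable_sum _ fun z _ => (C.wN_meas n u z).comp measurable_fst).mul
      ((C.wN_meas n u y).comp measurable_snd)

theorem route_mean (n : ℕ) (T : Finset V) (y : V) :
    ∫⁻ ζ, C.X n T y ζ.1 ζ.2 ∂(mu V p).prod (mu V p) =
      ∑' u, (∑ z ∈ T, kpow C.Q n u z) * kpow C.Q n u y := by
  unfold Chain.X
  refine (lintegral_tsum fun u => ((Finset.measurable_sum _ fun z _ =>
    (C.wN_meas n u z).comp measurable_fst).mul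
      ((C.wN_meas n u y).comp measurable_snd)).aemeasurable).trans (tsum_congr fun u => ?_)
  rw [← C.lintegral_wN]
  simp only [← C.lintegral_wN]
  rw [← lintegral_finsetSum _ fun z _ => C.wN_meas n u z]
  exact lintegral_prod_mul (f := fun ω => ∑ z ∈ T, C.wN n u z ω) (g := C.wN n u y)
    (Finset.measurable_sum _ fun z _ => C.wN_meas n u z).aemeasurable
    (C.wN_meas n u y).aemeasurable

theorem route_total (n : ℕ) {T : Finset V} (hT : ∀ z ∈ T, S.O z) :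
    ∑' y, ∫⁻ ζ, C.X n T y ζ.1 ζ.2 ∂(mu V p).prod (mu V p) =
      T.card * ofReal ((C.q ^ 2 * S.b ^ C.J) ^ n) := by
  simp only [route_mean]
  rw [ENNReal.tsum_comm]
  simp only [ENNReal.tsum_mul_left]
  simp only [Finset.sum_mul]
  rw [Summable.tsum_finsetSum fun _ _ => ENNReal.summable, ← nsmul_eq_mul, ← Finset.sum_const]
  refine Finset.sum_congr rfl fun z hz => ?_
  have e : ∀ u, kpow C.Q n u z * ∑' y, kpow C.Q n u y = kpow C.Q n u z * ofReal (C.q ^ n) := by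
    intro u
    by_cases h : kpow C.Q n u z = 0
    · simp [h]
    · rw [C.Qn_row n ((C.Qn_supp h).1.2 (hT z hz))]
  simp only [e]
  rw [ENNReal.tsum_mul_right, C.Qn_col n (hT z hz), ← ENNReal.ofReal_mul
    (pow_nonneg (mul_nonneg C.q0.le (chn_pos _)) _), ← mul_pow]
  congr 2
  ring

omit [Countable V] in
theorem route_cs {m P s : V → ℝ≥0∞} (h : ∀ y, m y ^ 2 ≤ P y * s y) :
    (∑' y, m y) ^ 2 ≤ (∑' y, P y) * ∑' y, s y := by
  have e : ∀ x : ℝ≥0∞, (x ^ (1 / 2 : ℝ)) ^ 2 = x := fun x => by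
    rw [← ENNReal.rpow_natCast, ← ENNReal.rpow_mul]; norm_num
  have h1 : ∑' y, m y ≤ ∑' y, P y ^ (1 / 2 : ℝ) * s y ^ (1 / 2 : ℝ) :=
    ENNReal.tsum_le_tsum fun y => by
      rw [← ENNReal.pow_le_pow_left_iff (n := 2) two_ne_zero, mul_pow, e, e]; exact h y
  refine (pow_le_pow_left' (h1.trans (tsum_mul_le_n2 _ _)) 2).trans_eq ?_
  rw [mul_pow, n2_sq, n2_sq]
  simp only [e]

omit [Countable V] in
theorem route_supp (n : ℕ) {t : ℝ} {T : Finset V} (hT : ∀ z ∈ T, z ∈ S.Lev t) {y : V}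
    {ω₁ ω₂ : Cf V} (h : C.X n T y ω₁ ω₂ ≠ 0) : y ∈ S.Lev t ∧ ∃ z ∈ T, ∃ u,
      ω₁ ∈ CnL G (S.E (t - n * C.J) t) (n * C.L : ℕ) u z ∧
      ω₂ ∈ CnL G (S.E (t - n * C.J) t) (n * C.L : ℕ) u y := by
  unfold Chain.X at h
  rw [Ne, ENNReal.tsum_eq_zero, not_forall] at h
  obtain ⟨u, h⟩ := h
  obtain ⟨h1, h2⟩ := mul_ne_zero_iff.1 h
  obtain ⟨z, hz, h1⟩ := Finset.exists_ne_zero_of_sum_ne_zero h1
  obtain ⟨a1, a2, a3⟩ := C.wN_supp h1
  obtain ⟨b1, b2, b3⟩ := C.wN_supp h2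
  have e1 : S.l u + n * C.J = t := a2.symm.trans (hT z hz).2
  have e2 : S.l u = t - n * C.J := by linarith
  rw [e1, e2] at a3 b3
  exact ⟨⟨b1.1 (a1.2 (hT z hz).1), b2.trans e1⟩, z, hz, u, a3, b3⟩

theorem Chain.route (hM : 1 < C.q ^ 2 * S.b ^ C.J) : ∃ C₁ θ : ℝ, 1 ≤ C₁ ∧ 0 < θ ∧ θ < 1 ∧
    ∀ (n : ℕ) (t : ℝ) (T : Finset V), (∀ z ∈ T, z ∈ S.Lev t) →
      (T.card : ℝ≥0∞) ≤ ofReal (C₁ * (n + 1) ^ 2 * θ ^ n) * ∑' y, (S.Lev t).indicator
        (fun y => ∫⁻ ω₂, mu V p {ω₁ | ∃ z ∈ T, ∃ u,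
          ω₁ ∈ CnL G (S.E (t - n * C.J) t) (n * C.L : ℕ) u z ∧
          ω₂ ∈ CnL G (S.E (t - n * C.J) t) (n * C.L : ℕ) u y} ∂mu V p) y := by
  obtain ⟨C₁, θ, h1, h2, h3, h⟩ := C.route_sq hM
  refine ⟨C₁, θ, h1, h2, h3, fun n t T hT => ?_⟩
  have h4 := route_cs fun y => sq_le_meas_mul ((mu V p).prod (mu V p)) (route_meas C n T y)
  have h5 : ∀ y, ∫⁻ ζ, C.X n T y ζ.1 ζ.2 ^ 2 ∂(mu V p).prod (mu V p) =
      ∫⁻ ω₁, ∫⁻ ω₂, C.X n T y ω₁ ω₂ ^ 2 ∂mu V p ∂mu V p := fun y =>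
    lintegral_prod _ ((route_meas C n T y).pow_const 2).aemeasurable
  simp only [h5] at h4
  rw [route_total C n fun z hz => (hT z hz).1] at h4
  replace h4 := h4.trans (mul_le_mul' (ENNReal.tsum_le_tsum (g := fun y => (S.Lev t).indicator
        (fun y => ∫⁻ ω₂, mu V p {ω₁ | ∃ z ∈ T, ∃ u,
          ω₁ ∈ CnL G (S.E (t - n * C.J) t) (n * C.L : ℕ) u z ∧
          ω₂ ∈ CnL G (S.E (t - n * C.J) t) (n * C.L : ℕ) u y} ∂mu V p) y) fun y => ?_)
    (h n t T hT))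
  · have M0 : 0 < (C.q ^ 2 * S.b ^ C.J) ^ n := pow_pos (one_pos.trans hM) n
    rw [pow_mul', ENNReal.ofReal_mul (by positivity), ENNReal.ofReal_pow M0.le] at h4
    by_cases h0 : (T.card : ℝ≥0∞) = 0
    · rw [h0]; exact zero_le
    have a0 : ofReal ((C.q ^ 2 * S.b ^ C.J) ^ n) ^ 2 * T.card ≠ 0 :=
      mul_ne_zero (pow_ne_zero _ (ENNReal.ofReal_pos.2 M0).ne') h0
    have a1 : ofReal ((C.q ^ 2 * S.b ^ C.J) ^ n) ^ 2 * T.card ≠ ⊤ :=
      ENNReal.mul_ne_top (ENNReal.pow_ne_top ENNReal.ofReal_ne_top) (ENNReal.natCast_ne_top _)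
    rw [← ENNReal.mul_le_mul_iff_left a0 a1]
    refine le_of_eq_of_le (by ring) (h4.trans_eq (by ring))
  · by_cases hy : y ∈ S.Lev t
    · rw [Set.indicator_of_mem hy]
      refine (measure_mono (t := {ζ : Cf V × Cf V | ∃ z ∈ T, ∃ u,
          ζ.1 ∈ CnL G (S.E (t - n * C.J) t) (n * C.L : ℕ) u z ∧
          ζ.2 ∈ CnL G (S.E (t - n * C.J) t) (n * C.L : ℕ) u y})
        fun ζ hζ => (route_supp C n hT hζ).2).trans_eq ?_
      exact Measure.prod_apply_symm (Measurable.exists fun z => measurable_const.and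
        (Measurable.exists fun u => (measurable_fst CnL_FU.measurableSet).mem.and
          (measurable_snd CnL_FU.measurableSet).mem)).setOf
    · rw [Set.eq_empty_of_forall_notMem (s := {ζ : Cf V × Cf V | C.X n T y ζ.1 ζ.2 ≠ 0})
        fun ζ hζ => hy (route_supp C n hT hζ).1, measure_empty]
      exact zero_le

omit [G.LocallyFinite] in
theorem route_gm (F : Set (Sym2 V)) (l : ℕ) (o y : V) : Measurable fun ζ : Cf V × Cf V =>
    mu V p {ω₁ | ∃ x ∈ {x | ζ.2 ∈ CnL G F l y x}, ∃ u,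
      ω₁ ∈ CnL G F l x u ∧ ζ.1 ∈ Rch G F u {o}} :=
  measurable_measure_prodMk_left (s := {ξ : (Cf V × Cf V) × Cf V |
    ∃ x, ξ.1.2 ∈ CnL G F l y x ∧ ∃ u, ξ.2 ∈ CnL G F l x u ∧ ξ.1.1 ∈ Rch G F u {o}})
    (Measurable.exists fun _ => (measurable_fst.snd CnL_FU.measurableSet).mem.and
      (Measurable.exists fun _ => (measurable_snd CnL_FU.measurableSet).mem.and
        (measurable_fst.fst Rch_FU.measurableSet).mem)).setOf

theorem route_key (p0 : 0 < (p : ℝ)) (F : Set (Sym2 V)) (l : ℕ) (o y : V) :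
    ∫⁻ ω, ∫⁻ ω₂, mu V p {ω₁ | ∃ x ∈ {x | ω₂ ∈ CnL G F l y x}, ∃ u,
      ω₁ ∈ CnL G F l x u ∧ ω ∈ Rch G F u {o}} ∂mu V p ∂mu V p ≤
        ofReal ((l + 2) / p) * (ofReal ((l + 2) / p) * tau G p F o y) := by
  rw [lintegral_lintegral_swap (route_gm F l o y).aemeasurable]
  refine (lintegral_mono fun ω₂ => dec2 p0).trans ?_
  rw [lintegral_const_mul' _ _ ENNReal.ofReal_ne_top]
  refine mul_le_mul' le_rfl ?_
  rw [tau_comm, ← rch_singleton, rch, ← XY_singleton]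
  refine le_trans (lintegral_mono fun ω₂ => measure_mono ?_) (dec1 p0)
  rintro ω ⟨x, hx, h⟩
  exact ⟨y, rfl, x, hx, h⟩

theorem route_n {C₁ θ : ℝ} (h1 : 1 ≤ C₁) (h2 : 0 < θ) (h3 : θ < 1) (L : ℕ) {r : ℝ} (r0 : 0 < r) :
    ∃ n : ℕ, C₁ * (n + 1) ^ 2 * θ ^ n * ((((n * L : ℕ) + 2) / r) * (((n * L : ℕ) + 2) / r)) ≤
      1 / 2 := by
  have h := (tendsto_pow_const_mul_const_pow_of_abs_lt_one 4 (r := θ)
    (by rwa [abs_of_pos h2])).const_mul (C₁ * ((L + 2) / r) ^ 2 / θ)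
  rw [mul_zero] at h
  obtain ⟨N, hN⟩ := Filter.eventually_atTop.1 (h.eventually (ge_mem_nhds one_half_pos))
  refine ⟨N, le_trans ?_ (hN (N + 1) N.le_succ)⟩
  have e : ((N * L : ℕ) + 2) / r ≤ (L + 2) / r * (N + 1) := by
    rw [div_mul_eq_mul_div]
    refine div_le_div_of_nonneg_right ?_ r0.le
    push_cast
    nlinarith [Nat.cast_nonneg (α := ℝ) N, Nat.cast_nonneg (α := ℝ) L]
  refine (mul_le_mul_of_nonneg_left (mul_self_le_mul_self (by positivity) e)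
    (by positivity)).trans_eq ?_
  push_cast
  rw [pow_succ θ]
  field_simp

theorem Chain.expand (p0 : 0 < (p : ℝ)) (hM : 1 < C.q ^ 2 * S.b ^ C.J) :
    ∃ a h : ℝ, ∑' y, tau G p (S.E a (a + h)) S.o y = ⊤ := by
  obtain ⟨C₁, θ, h1, h2, h3, h⟩ := C.route hM
  obtain ⟨n, hn⟩ := route_n h1 h2 h3 C.L p0
  refine ⟨S.l S.o - n * C.J, n * C.J, ?_⟩
  rw [sub_add_cancel]
  by_contra hne
  replace h := h n (S.l S.o)
  generalize S.E (S.l S.o - n * C.J) (S.l S.o) = F at h hne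
  generalize n * C.L = l at h hn
  have ho : S.o ∈ S.Lev (S.l S.o) := ⟨S.O_o, rfl⟩
  generalize S.Lev (S.l S.o) = B at h ho
  have hχ := lintegral_tsum_Kl (G := G) (p := p) (F := F) (x := S.o) B 1
  simp only [Pi.one_apply, mul_one] at hχ
  have χ1 : ∑' y, B.indicator (fun y => tau G p F S.o y) y ≠ ⊤ :=
    ne_top_of_le_ne_top hne (ENNReal.tsum_le_tsum fun y => Set.indicator_le_self _ _ y)
  have χ0 : ∑' y, B.indicator (fun y => tau G p F S.o y) y ≠ 0 := by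
    refine (lt_of_lt_of_le ?_ (ENNReal.le_tsum S.o)).ne'
    rw [Set.indicator_of_mem ho, tau_self]
    exact one_pos
  have fin := ae_lt_top (measurable_tsum_Kl (G := G) (F := F) (x := S.o) B 1) (hχ ▸ χ1)
  have gm : ∀ y, Measurable fun ω => B.indicator (fun y => ∫⁻ ω₂, mu V p
      {ω₁ | ∃ x ∈ {x | ω₂ ∈ CnL G F l y x}, ∃ u,
        ω₁ ∈ CnL G F l x u ∧ ω ∈ Rch G F u {S.o}} ∂mu V p) y := fun y => by
    by_cases hy : y ∈ B
    · simp only [Set.indicator_of_mem hy]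
      exact (route_gm F l S.o y).lintegral_prod_right'
    · simp only [Set.indicator_of_notMem hy]
      exact measurable_const
  refine (ENNReal.half_lt_self χ0 χ1).not_ge ?_
  calc _ = _ := hχ.symm
    _ ≤ ∫⁻ ω, ofReal (C₁ * (n + 1) ^ 2 * θ ^ n) * ∑' y, B.indicator (fun y => ∫⁻ ω₂, mu V p
        {ω₁ | ∃ x ∈ {x | ω₂ ∈ CnL G F l y x}, ∃ u,
          ω₁ ∈ CnL G F l x u ∧ ω ∈ Rch G F u {S.o}} ∂mu V p) y ∂mu V p := by
      refine lintegral_mono_ae (fin.mono fun ω hω => ?_)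
      have hf := finite_of_cnt_ne_top (A := Kl G F S.o ω ∩ B) hω.ne
      have h4 := h hf.toFinset fun z hz => (hf.mem_toFinset.1 hz).2
      rw [← cnt_finset, hf.coe_toFinset] at h4
      refine h4.trans (mul_le_mul' le_rfl (ENNReal.tsum_le_tsum fun y =>
        Set.indicator_le_indicator (lintegral_mono fun ω₂ => measure_mono ?_)))
      rintro ω₁ ⟨z, hz, u, a1, a2⟩
      exact ⟨u, cnx0_symm a2, z, a1, S.o, rfl, Cn_symm (hf.mem_toFinset.1 hz).1⟩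
    _ ≤ ofReal (C₁ * (n + 1) ^ 2 * θ ^ n) * ∑' y, ofReal ((l + 2) / p) * (ofReal ((l + 2) / p) *
        B.indicator (fun y => tau G p F S.o y) y) := by
      rw [lintegral_const_mul' _ _ ENNReal.ofReal_ne_top,
        lintegral_tsum fun y => (gm y).aemeasurable]
      refine mul_le_mul' le_rfl (ENNReal.tsum_le_tsum fun y => ?_)
      by_cases hy : y ∈ B
      · simp only [Set.indicator_of_mem hy]
        exact route_key p0 F l S.o y
      · simp [Set.indicator_of_notMem hy]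
    _ ≤ _ := by
      rw [ENNReal.tsum_mul_left, ENNReal.tsum_mul_left, ← mul_assoc, ← mul_assoc,
        mul_assoc (ofReal _), ← ENNReal.ofReal_mul (by positivity),
        ← ENNReal.ofReal_mul (by positivity), ENNReal.div_eq_inv_mul]
      refine mul_le_mul' ((ENNReal.ofReal_le_ofReal hn).trans_eq ?_) le_rfl
      rw [one_div, ENNReal.ofReal_inv_of_pos two_pos, ENNReal.ofReal_ofNat]

end Pool.Agent.P.MP_3aa27f_pr.F
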