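import Pool.Agent.P.MP_3aa27f_pr.F.Dct
import Pool.Agent.P.MP_3aa27f_pr.F.Trn

/-! Sharpness in slabs. -/

open MeasureTheory unitInterval SimpleGraph
open ENNReal (ofReal)
open scoped ENNReal

namespace Pool.Agent.P.MP_3aa27f_pr.F

variable {V : Type} {G : SimpleGraph V} [G.LocallyFinite] [Countable V] {S : Geo G} {p : I}

section

omit [G.LocallyFinite] [Countable V]

theorem sharp_walk (T : Set V) {x y : V} (w : G.Walk x y) (hx : x ∈ T) : y ∈ T ∨
    ∃ u u', G.Adj u u' ∧ u' ∉ T ∧ ∃ (w₁ : G.Walk x u) (w₂ : G.Walk u' y),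
      w.edges = w₁.edges ++ s(u, u') :: w₂.edges ∧ ∀ z ∈ w₁.support, z ∈ T := by
  induction w with
  | nil => exact Or.inl hx
  | @cons a b c hab w ih =>
    by_cases hb : b ∈ T
    · rcases ih hb with h | ⟨u, u', h1, h2, w₁, w₂, e, h3⟩
      · exact Or.inl h
      · refine Or.inr ⟨u, u', h1, h2, .cons hab w₁, w₂, by simp [e], fun z hz => ?_⟩
        rcases List.mem_cons.1 (Walk.support_cons hab w₁ ▸ hz) with rfl | hz
        · exact hx
        · exact h3 z hz
    · exact Or.inr ⟨a, b, hab, hb, .nil, w, by simp, by simpa using hx⟩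

theorem sharp_exit {F : Set (Sym2 V)} (T : Set V) {x y : V} {n : ℕ} {ω : Cf V} (hx : x ∈ T)
    (h : ω ∈ CnL G F (n + 1 : ℕ) x y) : y ∈ T ∨ ∃ u ∈ T, ∃ u', (G.Adj u u' ∧ u' ∉ T ∧ s(u, u') ∈ F) ∧
      ω ∈ DO (Cn G (F ∩ EIn T) x u) (CnL G F n u' y) := by
  obtain ⟨w, hp, hl, hw⟩ := CnL_path h
  rcases sharp_walk T w hx with h1 | ⟨u, u', h1, h2, w₁, w₂, e, h3⟩
  · exact Or.inl h1
  have nd := hp.isTrail.edges_nodup
  have l2 : w₂.length ≤ n := by
    have := congrArg List.length e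
    simp only [Walk.length_edges, List.length_append, List.length_cons] at this
    have h4 : w.length ≤ n + 1 := by exact_mod_cast hl
    omega
  rw [e] at hw nd
  have a1 : ∀ e ∈ w₁.edges, e ∈ F ∧ ω e = true := fun e he => hw e (by simp [he])
  have a2 : ∀ e ∈ w₂.edges, e ∈ F ∧ ω e = true := fun e he => hw e (by simp [he])
  have dj : w₁.edges.Disjoint w₂.edges := fun e h1 h2 =>
    List.disjoint_of_nodup_append nd h1 (List.mem_cons_of_mem _ h2)
  exact Or.inr ⟨u, h3 u w₁.end_mem_support, u', ⟨h1, h2, (hw _ (by simp)).1⟩,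
    DO_of_lists dj (fun e he => (a1 e he).2) (fun e he => (a2 e he).2)
      ⟨w₁, fun e he => ⟨⟨(a1 e he).1, fun z hz => h3 z (Walk.mem_support_of_mem_edges he hz)⟩,
        ind_true.2 he⟩⟩
      ⟨w₂, by exact_mod_cast l2, fun e he => ⟨(a2 e he).1, ind_true.2 he⟩⟩⟩

theorem sharp_dep (F : Set (Sym2 V)) (x : V) : Dep {ω | (Kl G F x ω).Infinite} F := by
  intro ω ω' h h1
  have : Kl G F x ω' = Kl G F x ω := Set.ext fun y => (Cn_dep.iff h).symm
  simpa only [Set.mem_ofPred_eq, this] using h1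

theorem sharp_psi_mono {F F' : Set (Sym2 V)} (h : F ⊆ F') (v : V) (T : Finset V) :
    psi G p F v T ≤ psi G p F' v T := by
  refine Finset.sum_le_sum fun u _ => ENNReal.tsum_le_tsum fun u' => ?_
  split_ifs with h1 h2
  · exact tau_mono (Set.inter_subset_inter_left _ h)
  · exact (h2 ⟨h1.1, h1.2.1, h h1.2.2⟩).elim
  · exact zero_le
  · exact le_rfl

end

section

omit [G.LocallyFinite]

open Classical in
theorem sharp_step {F : Set (Sym2 V)} (T : Finset V) {x : V} (hx : x ∈ T) (n : ℕ) (y : V) :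
    tauL G p F (n + 1 : ℕ) x y ≤ (T : Set V).indicator 1 y + ∑ u ∈ T, ∑' u',
      (if G.Adj u u' ∧ u' ∉ T ∧ s(u, u') ∈ F then tau G p (F ∩ EIn ↑T) x u else 0) *
        tauL G p F n u' y := by
  by_cases hy : y ∈ T
  · rw [Set.indicator_of_mem (Finset.mem_coe.2 hy)]
    exact tauL_le_one.trans le_self_add
  refine le_trans ?_ le_add_self
  have h : CnL G F (n + 1 : ℕ) x y ⊆ ⋃ u ∈ T, {ω | ∃ u', (G.Adj u u' ∧ u' ∉ T ∧ s(u, u') ∈ F) ∧
      ω ∈ DO (Cn G (F ∩ EIn ↑T) x u) (CnL G F n u' y)} := fun ω hω => by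
    obtain ⟨u, hu, h⟩ := (sharp_exit (T : Set V) hx hω).resolve_left hy
    exact Set.mem_biUnion hu h
  refine ((measure_mono h).trans (measure_biUnion_finset_le _ _)).trans
    (Finset.sum_le_sum fun u _ => ?_)
  refine cnx_union' _ _ _ (fun _ h => h) fun z hz => ?_
  rw [if_pos hz]
  exact BKE _ Cn_FU CnL_FU

theorem sharp_fin {F : Set (Sym2 V)} {N : ℕ}
    (h : ∀ x, ∃ T : Finset V, x ∈ T ∧ T.card ≤ N ∧ psi G p F x T ≤ 1 / 2) (n : ℕ) :
    ∀ x, ∑' y, tauL G p F n x y ≤ 2 * N := by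
  classical
  induction n with
  | zero =>
    intro x
    obtain ⟨T, hx, hN, -⟩ := h x
    have h1 : ∀ y, tauL G p F (0 : ℕ) x y ≤ (T : Set V).indicator 1 y := fun y => by
      by_cases hy : y ∈ T
      · rw [Set.indicator_of_mem (Finset.mem_coe.2 hy)]; exact tauL_le_one
      · have : CnL G F (0 : ℕ) x y = ∅ := Set.eq_empty_of_forall_notMem fun ω ⟨w, hw, _⟩ => by
          have h0 : w.length = 0 := by simpa using hw
          exact hy (w.eq_of_length_eq_zero h0 ▸ hx)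
        rw [tauL, this, measure_empty]; exact zero_le
    refine (ENNReal.tsum_le_tsum h1).trans ?_
    have h2 : cnt (T : Set V) ≤ N := by rw [cnt_finset]; exact_mod_cast hN
    exact h2.trans (by rw [two_mul]; exact le_self_add)
  | succ n ih =>
    intro x
    obtain ⟨T, hx, hN, hψ⟩ := h x
    refine (ENNReal.tsum_le_tsum (sharp_step T hx n)).trans ?_
    rw [ENNReal.tsum_add, two_mul]
    refine add_le_add ?_ ?_
    · have h2 : cnt (T : Set V) ≤ N := by rw [cnt_finset]; exact_mod_cast hN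
      exact h2
    · rw [Summable.tsum_finsetSum fun _ _ => ENNReal.summable]
      have h3 : psi G p F x T * (2 * N) ≤ N := by
        refine (mul_le_mul_left hψ _).trans (le_of_eq ?_)
        rw [← mul_assoc, one_div, ENNReal.inv_mul_cancel (by norm_num) (by norm_num), one_mul]
      refine le_trans ?_ h3
      rw [psi, Finset.sum_mul]
      refine Finset.sum_le_sum fun u _ => ?_
      rw [ENNReal.tsum_comm, ← ENNReal.tsum_mul_right]
      refine ENNReal.tsum_le_tsum fun u' => ?_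
      rw [ENNReal.tsum_mul_left]
      convert mul_le_mul_right (ih u') _

end

omit [G.LocallyFinite] in
theorem sl2 {F : Set (Sym2 V)} {N : ℕ}
    (h : ∀ x, ∃ T : Finset V, x ∈ T ∧ T.card ≤ N ∧ psi G p F x T ≤ 1 / 2) (x : V) :
    ∑' y, tau G p F x y ≤ 2 * N := by
  rw [ENNReal.tsum_eq_iSup_sum]
  refine iSup_le fun s => ?_
  simp only [tau_eq_iSup]
  rw [ENNReal.finsetSum_iSup_of_monotone (f := fun y (n : ℕ) => tauL G p F n x y) fun y m n hmn =>
    tauL_mono le_rfl (by exact_mod_cast hmn)]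
  exact iSup_le fun n => (ENNReal.sum_le_tsum s).trans (sharp_fin h n x)

theorem sharp_one (S : Geo G) {q : I} {h : ℝ} {v : V}
    (hv : 0 < mu V q {ω | (Kl G (S.E (S.l v - (h + 1)) (S.l v + (h + 1))) v ω).Infinite}) :
    ∀ᵐ ω ∂mu V q, ∃ x, {y | S.l x - (h + 1) ≤ S.l y ∧ ω ∈ Cn G Set.univ x y}.Infinite := by
  obtain ⟨g, -, δ, hδ, hg⟩ := S.exists_raise |2 * h + 2|
  have δ0 : 0 ≤ δ := (abs_nonneg _).trans hδ
  have δ1 : 2 * h + 2 ≤ δ := (le_abs_self _).trans hδ
  have hn : ∀ (n : ℕ) u, S.l ((g ^ n) u) = S.l u + n * δ := by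
    intro n
    induction n with
    | zero => intro u; simp
    | succ n ih =>
      intro u
      rw [pow_succ, RelIso.mul_apply, ih, hg]; push_cast; ring
  have hm : ∀ (F : Set (Sym2 V)) (x : V), MeasurableSet {ω | (Kl G F x ω).Infinite} := fun F x =>
    measurableSet_Kl_finite.compl
  have key := ae_exists_of_indep (fun _ : Sym2 V => q)
    (A := fun n : ℕ => {ω | (Kl G (S.E (S.l v - (h + 1) + n * δ) (S.l v + (h + 1) + n * δ))
      ((g ^ n) v) ω).Infinite})
    (T := fun n : ℕ => S.E (S.l v - (h + 1) + n * δ) (S.l v + (h + 1) + n * δ))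
    (fun n => hm _ _) (fun n => sharp_dep _ _) ?_ hv ?_
  · filter_upwards [key] with ω ⟨n, hω⟩
    refine ⟨(g ^ n) v, (Set.Infinite.sdiff hω (Set.finite_singleton ((g ^ n) v))).mono ?_⟩
    rintro y ⟨hy, hy'⟩
    refine ⟨?_, Cn_mono (Set.subset_univ _) hy⟩
    have := ((Geo.Cn_Ge Set.inter_subset_left hy).resolve_left hy').2
    rw [hn]; linarith
  · have : ∀ m n : ℕ, m < n → Disjoint (S.E (S.l v - (h + 1) + m * δ) (S.l v + (h + 1) + m * δ))
        (S.E (S.l v - (h + 1) + n * δ) (S.l v + (h + 1) + n * δ)) := fun m n hmn => by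
      have h1 : (m : ℝ) + 1 ≤ n := by exact_mod_cast hmn
      refine (S.disjoint_Lt_Ge ?_).mono Set.inter_subset_right Set.inter_subset_left
      nlinarith
    intro m n hmn
    rcases lt_or_gt_of_ne hmn with h1 | h1
    · exact this m n h1
    · exact (this n m h1).symm
  · intro n
    refine ((mu_act (g ^ n) (hm _ v)).symm.trans ?_).le
    congr 1
    ext ω
    simp only [Set.mem_ofPred_eq]
    rw [← Geo.map_E (hn n), act_Kl, Set.infinite_image_iff (g ^ n).injective.injOn]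

theorem sharp (S : Geo G) {q : I} (hpq : p < q) {a h : ℝ} {x : V}
    (hx : ∑' y, tau G p (S.E a (a + h)) x y = ⊤) :
    ∀ᵐ ω ∂mu V q, ∃ x, {y | S.l x - (h + 1) ≤ S.l y ∧ ω ∈ Cn G Set.univ x y}.Infinite := by
  classical
  by_cases hc : ∃ v, ∀ T : Finset V, v ∈ T →
      1 / 2 ≤ psi G p (S.E (S.l v - (h + 1)) (S.l v + (h + 1))) v T
  · obtain ⟨v, hv⟩ := hc
    exact sharp_one S (dct S.conn hpq hv)
  exfalso
  push Not at hc
  choose T hT hψ using hc
  obtain ⟨R, hR⟩ := S.reps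
  have h1 := sl2 (G := G) (p := p) (F := S.E a (a + h)) (N := (R.sup fun r => (T r).card) + 1)
    (fun z => ?_) x
  · rw [hx, top_le_iff] at h1
    exact ENNReal.mul_ne_top (by norm_num) (ENNReal.natCast_ne_top _) h1
  by_cases hz : ∃ u, G.Adj z u ∧ s(z, u) ∈ S.E a (a + h)
  · obtain ⟨u, hu, hu1, hu2⟩ := hz
    have a1 := (Geo.mem_Ge.1 hu1).1
    have a2 := (Geo.adj_Lt hu hu2).1
    obtain ⟨g, hg, hgz⟩ := hR z
    obtain ⟨δ, hδ⟩ := Geo.exists_shift (S.Γ.inv_mem hg)
    have e : g⁻¹ (g z) = z := g.symm_apply_apply z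
    have h2 := psi_map (p := p) (F := S.E (S.l (g z) - (h + 1)) (S.l (g z) + (h + 1))) (x := g z)
      g⁻¹ (T (g z))
    have h3 := hδ (g z)
    rw [e] at h2 h3
    rw [Geo.map_E hδ] at h2
    refine ⟨_, ?_, ?_, (sharp_psi_mono (S.E_mono (by linarith) (by linarith)) _ _).trans
      (h2.trans_le (hψ _).le)⟩
    · exact Finset.mem_image.2 ⟨g z, hT _, e⟩
    · exact (Finset.card_image_le.trans
        (Finset.le_sup (f := fun r => (T r).card) hgz)).trans (Nat.le_succ _)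
  · refine ⟨{z}, Finset.mem_singleton_self z, by simp, ?_⟩
    rw [psi, Finset.sum_singleton, ENNReal.tsum_eq_zero.2 fun u => if_neg fun h =>
      hz ⟨u, h.1, h.2.2⟩]
    exact zero_le

end Pool.Agent.P.MP_3aa27f_pr.F
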