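import Pool.Agent.P.MP_3aa27f_pr.F.Sch

/-! Existence of the sideways kernel. -/

open MeasureTheory unitInterval SimpleGraph
open ENNReal (ofReal)
open scoped ENNReal

namespace Pool.Agent.P.MP_3aa27f_pr.F

variable {V : Type} {G : SimpleGraph V} [G.LocallyFinite] [Countable V] {S : Geo G} {p : I}

omit [Countable V] in
theorem sidee_fin (S : Geo G) {f : V → ℝ≥0∞} {n : ℕ} (h1 : ∀ y, f y ≤ 1)
    (h2 : ∀ y, f y ≠ 0 → G.dist S.o y ≤ n) : ∑' y, f y ≠ ⊤ := by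
  refine ne_top_of_le_ne_top ENNReal.ofReal_ne_top (le_trans ?_ (cnt_ball_le S S.o n))
  refine ENNReal.tsum_le_tsum fun y => ?_
  by_cases h : f y = 0
  · rw [h]; exact zero_le
  · rw [Set.indicator_of_mem (show y ∈ {z | G.dist S.o z ≤ n} from h2 y h)]
    exact h1 y

omit [Countable V] in
theorem sidee_unit {U : Ker V} (hU : S.Inv U) (h0 : ∑' y, U S.o y ≠ 0) (h1 : ∑' y, U S.o y ≠ ⊤) :
    ∃ W : Ker V, S.Inv W ∧ (∀ x, S.O x → ∑' y, W x y = 1) ∧ (∀ x y, W x y ≠ 0 → U x y ≠ 0) ∧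
      ∀ c, NB U (c * ∑' y, U S.o y) → NB W c := by
  refine ⟨fun x y => (∑' y, U S.o y)⁻¹ * U x y, fun g hg x y => by simp only [hU g hg],
    fun x hx => ?_, fun x y h => right_ne_zero_of_mul h, fun c hc => ?_⟩
  · rw [ENNReal.tsum_mul_left, Geo.rowO hU hx, ENNReal.inv_mul_cancel h0 h1]
  · refine (hc.smul _).mono (fun _ _ => le_rfl) (le_of_eq ?_)
    rw [mul_comm c, ← mul_assoc, ENNReal.inv_mul_cancel h0 h1, one_mul]

omit [Countable V] in
theorem sidee_row {K L : Ker V} (hK : ∀ x, S.O x → ∑' y, K x y = 1)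
    (sK : ∀ x y, K x y ≠ 0 → S.O y) (hL : ∀ x, S.O x → ∑' y, L x y = 1) :
    ∀ x, S.O x → ∑' y, kmul K L x y = 1 := by
  intro x hx
  unfold kmul
  rw [ENNReal.tsum_comm, ← hK x hx]
  refine tsum_congr fun z => ?_
  rw [ENNReal.tsum_mul_left]
  by_cases h : K x z = 0
  · rw [h, zero_mul]
  · rw [hL z (sK x z h), mul_one]

omit [Countable V] in
theorem exists_side (S : Geo G) {R : ℕ} {ρ : ℝ} (ρ0 : 0 < ρ) (ρ1 : ρ < 1)
    (h : NB (S.sideK R) (ofReal ρ * ∑' y, S.sideK R S.o y)) : Nonempty (Side S) := by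
  classical
  obtain ⟨l₀, hl₀, hc⟩ := S.cyc
  obtain ⟨h₁, hR, hc⟩ : ∃ h₁ : ℕ, R + 1 ≤ h₁ ∧ ∃ y, ∃ w : G.Walk S.o y,
      S.O y ∧ w.length = h₁ ∧ S.l y = S.l S.o + w.length :=
    ⟨(R + 1) * l₀, Nat.le_mul_of_pos_right _ hl₀, hc _ S.O_o _⟩
  let T : V → V → Prop := fun x y => S.O x ∧ S.O y ∧
    ∃ w : G.Walk x y, w.length = h₁ ∧ S.l y = S.l x + w.length
  have hT : ∀ g ∈ S.Γ, ∀ x y, T x y → T (g x) (g y) := by
    rintro g hg x y ⟨a1, a2, w, a3, a4⟩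
    obtain ⟨w', b1, b2⟩ := lev0_map hg w a4
    exact ⟨a1.map hg, a2.map hg, w', b1.trans a3, b2⟩
  let U : Ker V := fun x y => if T x y then 1 else 0
  have hU : S.Inv U := by
    intro g hg x y
    have : T (g x) (g y) ↔ T x y := by
      refine ⟨fun h1 => ?_, hT g hg x y⟩
      have h2 := hT _ (S.Γ.inv_mem hg) _ _ h1
      have e1 : (g⁻¹ : G ≃g G) (g x) = x := g.symm_apply_apply x
      have e2 : (g⁻¹ : G ≃g G) (g y) = y := g.symm_apply_apply y
      rwa [e1, e2] at h2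
    simp only [U, this]
  have sU : ∀ x y, U x y ≠ 0 → T x y := fun x y h1 => by
    by_contra h2
    exact h1 (if_neg h2)
  have U0 : ∑' y, U S.o y ≠ 0 := by
    obtain ⟨y, w, a1, a2, a3⟩ := hc
    have : U S.o y = 1 := if_pos ⟨S.O_o, a1, w, a2, a3⟩
    intro h0
    rw [ENNReal.tsum_eq_zero.1 h0 y] at this
    exact zero_ne_one this
  have U1 : ∑' y, U S.o y ≠ ⊤ := by
    refine sidee_fin S (n := h₁) (fun y => ?_) fun y hy => ?_
    · simp only [U]; split_ifs <;> simp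
    · obtain ⟨_, _, w, a1, _⟩ := sU _ _ hy
      exact a1 ▸ G.dist_le w
  have sP : ∀ x y, S.sideK R x y ≠ 0 → S.O x ∧ S.O y ∧ S.l x = S.l y ∧ G.dist x y ≤ R :=
    fun x y h1 => by
      by_contra h2
      exact h1 (if_neg h2)
  have P0 : ∑' y, S.sideK R S.o y ≠ 0 := by
    have : S.sideK R S.o S.o = 1 := if_pos ⟨S.O_o, S.O_o, rfl, by simp⟩
    intro h0
    rw [ENNReal.tsum_eq_zero.1 h0 S.o] at this
    exact zero_ne_one this
  have P1 : ∑' y, S.sideK R S.o y ≠ ⊤ := by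
    refine sidee_fin S (n := R) (fun y => ?_) fun y hy => (sP _ _ hy).2.2.2
    simp only [Geo.sideK]; split_ifs <;> simp
  obtain ⟨W, W1, W2, W3, -⟩ := sidee_unit hU U0 U1
  obtain ⟨P, Q1, Q2, Q3, Q4⟩ := sidee_unit (S.sideK_inv R) P0 P1
  have sW : ∀ x y, W x y ≠ 0 → S.O x ∧ S.O y ∧ S.l y = S.l x + (h₁ : ℝ) := fun x y h1 => by
    obtain ⟨a1, a2, w, a3, a4⟩ := sU _ _ (W3 _ _ h1)
    exact ⟨a1, a2, a3 ▸ a4⟩
  have nW : NB W (ofReal (S.b ^ ((h₁ : ℝ) / 2))) := by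
    have := Geo.schurO W1 sW
    rwa [W2 _ S.O_o, one_mul] at this
  have hb : 0 < S.b := lt_trans one_pos S.one_lt_b
  have hR' : (R : ℝ) + 1 ≤ h₁ := by exact_mod_cast hR
  have hR0 : (0 : ℝ) ≤ R := Nat.cast_nonneg _
  refine ⟨{ h0 := 2 * h₁
            L0 := 2 * h₁ + R
            ρ := ρ
            K := kmul W (kmul P W)
            one_le_h0 := by omega
            ρ0 := ρ0
            ρ1 := ρ1
            inv := W1.kmul (Q1.kmul W1)
            row := sidee_row W2 (fun x y h1 => (sW x y h1).2.1)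
              (sidee_row Q2 (fun x y h1 => (sP x y (Q3 x y h1)).2.1) W2)
            supp := fun x y hxy => ?_
            norm := ?_ }⟩
  · obtain ⟨u, c1, c2⟩ := kmul_ne_zero hxy
    obtain ⟨v, c2, c3⟩ := kmul_ne_zero c2
    obtain ⟨a1, -, w₁, a3, a4⟩ := sU _ _ (W3 _ _ c1)
    obtain ⟨-, -, b3, b4⟩ := sP _ _ (Q3 _ _ c2)
    obtain ⟨-, d2, w₃, d3, d4⟩ := sU _ _ (W3 _ _ c3)
    obtain ⟨w₂, e1⟩ := S.conn.exists_walk_length_eq_dist u v
    have a5 : S.l u = S.l x + h₁ := a3 ▸ a4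
    have d5 : S.l y = S.l v + h₁ := d3 ▸ d4
    refine ⟨a1, d2, by push_cast; linarith, w₁.append (w₂.append w₃), ?_, fun z hz => ?_⟩
    · rw [Walk.length_append, Walk.length_append]; omega
    · rw [Walk.mem_support_append_iff, Walk.mem_support_append_iff] at hz
      rcases hz with hz | hz | hz
      · obtain ⟨f1, f2⟩ := S.tight_support w₁ a4 hz
        refine ⟨f1, Or.inr ?_⟩
        rcases f2 with rfl | f2 <;> linarith
      · have f1 := S.l_support w₂ hz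
        have f2 : (w₂.length : ℝ) ≤ R := by exact_mod_cast e1.le.trans b4
        rw [abs_le] at f1
        exact ⟨Or.inr (by linarith [f1.1]), Or.inr (by linarith [f1.2])⟩
      · obtain ⟨f1, f2⟩ := S.tight_support w₃ d4 hz
        refine ⟨Or.inr ?_, f2.imp id fun f2 => by linarith⟩
        rcases f1 with rfl | f1 <;> linarith
  · have := nW.mul ((Q4 _ h).mul nW)
    refine this.mono (fun _ _ => le_rfl) (le_of_eq ?_)
    have p1 : 0 ≤ S.b ^ ((h₁ : ℝ) / 2) := (Real.rpow_pos_of_pos hb _).le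
    rw [← ENNReal.ofReal_mul ρ0.le, ← ENNReal.ofReal_mul p1]
    congr 1
    have : (((2 * h₁ : ℕ) : ℝ) / 2) = (h₁ : ℝ) / 2 + (h₁ : ℝ) / 2 := by push_cast; ring
    rw [this, Real.rpow_add hb]
    ring

end Pool.Agent.P.MP_3aa27f_pr.F
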