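import Pool.Agent.P.MP_3aa27f_pr.F.Kap
import Pool.Agent.P.MP_3aa27f_pr.F.RateE
import Pool.Agent.P.MP_3aa27f_pr.F.Route
import Pool.Agent.P.MP_3aa27f_pr.F.Sharp
import Pool.Agent.P.MP_3aa27f_pr.F.SideE
import Pool.Agent.P.MP_3aa27f_pr.F.Foln
import Pool.Agent.P.MP_3aa27f_pr.F.GeoE

/-! The strict inequality `p_h < p_u`. -/

open MeasureTheory unitInterval SimpleGraph
open ENNReal (ofReal)
open scoped ENNReal

namespace Pool.Agent.P.MP_3aa27f_pr.F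

variable {V : Type} {G : SimpleGraph V} [G.LocallyFinite]

theorem main_geo (S : Geo G) (Z : Side S) {m : V → ℝ} {C : ℝ} (C0 : 0 < C)
    (hC : ∀ x y, S.b ^ (S.l y - S.l x) ≤ C * (m y / m x)) :
    pH G (fun u v => m v / m u) < pU G := by
  have := countable_vert S.conn
  obtain ⟨p₁, h1, h2, h3⟩ := S.exists_p1
  obtain ⟨c, hc, hN⟩ : ∃ c : ℝ≥0∞, c ≠ ⊤ ∧ NB (tau G p₁ Set.univ) c := by
    rcases p₁.2.1.eq_or_lt with e | e
    · obtain rfl : p₁ = 0 := Subtype.ext e.symm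
      exact ⟨1, ENNReal.one_ne_top, norm_zero⟩
    · obtain ⟨ς, hR⟩ := Z.exists_rate e h2 h1
      exact hR.bounded Z
  obtain ⟨ε, ε0, hε⟩ := open_norm S h2 hc hN
  have : Infinite V := Set.infinite_univ_iff.1 ((S.orbit_infinite S.o).mono (Set.subset_univ _))
  have a2 : (p₁ : ℝ) + ε ≤ pU G :=
    le_csInf ⟨1, one_mem, unique_one S.conn⟩ fun q ⟨hq, h⟩ => le_of_not_ge fun h' =>
      not_unique S (ENNReal.mul_ne_top (by simp) hc) (hε ⟨q, hq⟩ h') h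
  have b0 : 0 < S.b := one_pos.trans S.one_lt_b
  have a1 : pH G (fun u v => m v / m u) ≤ p₁ := by
    refine le_of_forall_gt_imp_ge_of_dense fun q hq => le_trans ?_ (min_le_left q 1)
    have a3 : (p₁ : ℝ) < min q 1 := lt_min hq h2
    have a4 : min q 1 ∈ I := ⟨p₁.2.1.trans a3.le, min_le_right _ _⟩
    obtain ⟨r, r1, r2⟩ := exists_between a3
    have a5 : r ∈ I := ⟨p₁.2.1.trans r1.le, r2.le.trans a4.2⟩
    obtain ⟨r0, Ch, hM⟩ := Z.exists_super (h3 ⟨r, a5⟩ r1)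
    obtain ⟨a, h, hx⟩ := Ch.expand r0 hM
    refine csInf_le ⟨0, fun p ⟨hp, _⟩ => hp.1⟩ ⟨a4, ?_⟩
    filter_upwards [sharp S (q := ⟨_, a4⟩) r2 hx] with ω ⟨x, hx⟩
    refine ⟨(openGraph _ ω).connectedComponentMk x, x, by_contra fun hne => hx ?_⟩
    have := (ENNReal.finite_const_le_of_tsum_ne_top hne (ε := ofReal (S.b ^ (-(h + 1)) / C))
      (ENNReal.ofReal_pos.2 (by positivity)).ne').image fun y => y.1
    refine this.subset fun w hw => ⟨⟨w, ?_⟩, ENNReal.ofReal_le_ofReal ?_, rfl⟩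
    · rw [ConnectedComponent.mem_supp_iff, ConnectedComponent.eq]
      exact (reachable_iff.2 hw.2).symm
    · rw [div_le_iff₀' C0]
      exact le_trans (Real.rpow_le_rpow_of_exponent_le S.one_lt_b.le (by linarith [hw.1])) (hC x w)
  linarith

theorem main_wt (hG : G.Connected) {Γ : Subgroup (G ≃g G)} {m : V → ℝ} (hm : Wt Γ m)
    (hq : ∃ R : Finset V, ∀ v, ∃ g ∈ Γ, g v ∈ R) (hn : ∃ g ∈ Γ, ∃ u, m (g u) ≠ m u) (u : V)
    (t : Finset ℝ) (hne : {v | m v / m u ∈ t}.Nonempty)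
    (hna : ¬ Amenable (G.induce {v | m v / m u ∈ t})) :
    pH G (fun u v => m v / m u) < pU G := by
  classical
  obtain ⟨S, rfl, ⟨C, C0, hC⟩, hb⟩ := exists_geo hG hm hq hn
  have b0 : 0 < S.b := one_pos.trans S.one_lt_b
  have k1 : ∀ g ∈ S.Γ, S.l (g S.o) = S.l S.o → ∀ y, m (g y) = m y := fun g hg h y => by
    have h1 := hb g hg y
    have h2 := S.inv g hg y S.o
    rw [show S.l (g y) - S.l y = 0 by linarith, Real.rpow_zero, div_eq_one_iff_eq (hm.pos y).ne']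
      at h1
    exact h1
  have k2 : ∀ g ∈ S.Γ, ∀ y, m (g y) = m y → S.l (g S.o) = S.l S.o := fun g hg y h => by
    have h1 := hb g hg y
    have h2 := S.inv g hg y S.o
    rw [h, div_self (hm.pos y).ne', ← Real.rpow_zero S.b,
      Real.rpow_right_inj b0 S.one_lt_b.ne'] at h1
    linarith
  have k3 : ∀ a : V × ℝ, ∃ y₀, ∀ y, (∃ g ∈ S.Γ, g y = a.1) → m y / m u = a.2 →
      (∃ g ∈ S.Γ, g y₀ = a.1) ∧ m y₀ / m u = a.2 := fun a => by
    by_cases h : ∃ y, (∃ g ∈ S.Γ, g y = a.1) ∧ m y / m u = a.2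
    · obtain ⟨y, hy⟩ := h
      exact ⟨y, fun _ _ _ => hy⟩
    · exact ⟨u, fun y h1 h2 => absurd ⟨y, h1, h2⟩ h⟩
  choose f hf using k3
  obtain ⟨R, hR⟩ := hq
  obtain ⟨L, ρ, ρ0, ρ1, h⟩ := side_gap S hne
    (fun g hg h y hy => by rw [Set.mem_ofPred_eq, k1 g hg h y]; exact hy)
    ⟨(R ×ˢ t).image f, fun y hy => by
      obtain ⟨g, hg, h1⟩ := hR y
      obtain ⟨⟨g', hg', h2⟩, h3⟩ := hf (g y, m y / m u) y ⟨g, hg, rfl⟩ rfl
      have h4 : (g'⁻¹ * g) y = f (g y, m y / m u) := by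
        change g'⁻¹ (g y) = _
        dsimp only at h2
        conv_lhs => rw [← h2]
        exact inv_app _ _
      have h5 := S.Γ.mul_mem (S.Γ.inv_mem hg') hg
      refine ⟨_, h5, k2 _ h5 y ?_, ?_⟩
      · rw [h4]
        exact (div_left_inj' (hm.pos u).ne').1 h3
      · rw [h4]
        exact Finset.mem_image_of_mem _ (Finset.mem_product.2 ⟨h1, hy⟩)⟩ hna
  obtain ⟨Z⟩ := exists_side S ρ0 ρ1 h
  exact main_geo S Z C0 hC

end Pool.Agent.P.MP_3aa27f_pr.F
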