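import Pool.Agent.P.MP_3aa27f_pr.F.Trn

/-! Tilted slab susceptibility and the potential of a crossing cluster. -/

open MeasureTheory unitInterval SimpleGraph
open ENNReal (ofReal)
open scoped ENNReal

namespace Pool.Agent.P.MP_3aa27f_pr.F

variable {V : Type} {G : SimpleGraph V} [G.LocallyFinite] [Countable V] {S : Geo G} {p : I}
variable {ς : ℝ}

open Classical in
/-- connection to the highest vertex of a path -/
noncomputable def gob_L (S : Geo G) (p : I) (h : ℝ) : Ker V := fun x u =>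
  if S.l x ≤ S.l u ∧ S.l u ≤ S.l x + (h + 1) then
    tau G p (S.E (S.l u + -(h + 1)) (S.l u + 1)) x u else 0

omit [Countable V] in
theorem gob_split (S : Geo G) {h a c : ℝ} (h0 : 0 ≤ h) (hc : c - a ≤ h) {x y : V} {ω : Cf V}
    (hω : ω ∈ Cn G (S.E a c) x y) : ∃ u, ((S.l x ≤ S.l u ∧ S.l u ≤ S.l x + (h + 1)) ∧
      (S.l y ≤ S.l u ∧ S.l u ≤ S.l y + (h + 1))) ∧
      ω ∈ DO (Cn G (S.E (S.l u + -(h + 1)) (S.l u + 1)) x u)
        (Cn G (S.E (S.l u + -(h + 1)) (S.l u + 1)) u y) := by
  classical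
  by_cases hxy : y = x
  · subst hxy
    refine ⟨y, ⟨⟨le_rfl, by linarith⟩, le_rfl, by linarith⟩, ?_⟩
    exact DO_of_lists (l := []) (l' := []) (by simp) (by simp) (by simp) (Cn_refl _ _ _)
      (Cn_refl _ _ _)
  obtain ⟨ax, ay⟩ := (S.Cn_Ge Set.inter_subset_left hω).resolve_left hxy
  have cx := ((S.Cn_Lt Set.inter_subset_right hω).resolve_left hxy).1
  obtain ⟨w, hp, hw⟩ := Cn_path hω
  obtain ⟨u, hu, hmax⟩ := Finset.exists_max_image w.support.toFinset S.l
    ⟨x, List.mem_toFinset.2 w.start_mem_support⟩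
  simp only [List.mem_toFinset] at hu hmax
  have nd := hp.isTrail.edges_nodup
  have e' : w.edges = (w.takeUntil u hu).edges ++ (w.dropUntil u hu).edges := by
    rw [← SimpleGraph.Walk.edges_append, SimpleGraph.Walk.take_spec]
  have cu : S.l u < c + 1 := by
    have : ω ∈ Cn G (S.E a c) x u := ⟨w.takeUntil u hu, fun e he => hw e (by simp [e', he])⟩
    rcases S.Cn_Lt Set.inter_subset_right this with rfl | h1
    · exact cx
    · exact h1.2
  have hE : ∀ e ∈ w.edges, e ∈ S.E (S.l u + -(h + 1)) (S.l u + 1) ∧ ω e = true := by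
    intro e he
    refine ⟨⟨S.Ge_mono (by linarith) (hw e he).1.1, ?_⟩, (hw e he).2⟩
    obtain ⟨z, hz, -⟩ := (hw e he).1.2
    exact ⟨z, hz, by linarith [hmax z (SimpleGraph.Walk.mem_support_of_mem_edges he hz)]⟩
  refine ⟨u, ⟨⟨hmax x w.start_mem_support, by linarith⟩, hmax y w.end_mem_support,
    by linarith⟩, ?_⟩
  rw [e'] at hE nd
  generalize w.takeUntil u hu = u₁ at hE nd
  generalize w.dropUntil u hu = u₂ at hE nd
  have a1 : ∀ e ∈ u₁.edges, _ := fun e he => hE e (List.mem_append_left _ he)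
  have a2 : ∀ e ∈ u₂.edges, _ := fun e he => hE e (List.mem_append_right _ he)
  exact DO_of_lists (List.disjoint_of_nodup_append nd) (fun e he => (a1 e he).2)
    (fun e he => (a2 e he).2) ⟨u₁, fun e he => ⟨(a1 e he).1, ind_true.2 he⟩⟩
    ⟨u₂, fun e he => ⟨(a2 e he).1, ind_true.2 he⟩⟩

theorem gob_tau (S : Geo G) {h a c : ℝ} (h0 : 0 ≤ h) (hc : c - a ≤ h) (x y : V) :
    tau G p (S.E a c) x y ≤ ∑' u, gob_L S p h x u * gob_L S p h y u := by
  refine cnx_union' (mu V p) _ _ (fun ω hω => gob_split S h0 hc hω) fun u hu => ?_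
  rw [gob_L, gob_L, if_pos hu.1, if_pos hu.2, tau_comm (x := y)]
  exact BKE _ Cn_FU Cn_FU

omit [Countable V] in
theorem gob_row (s0 : 0 < ς) (s1 : ς ≤ 1) {h B : ℝ} (h0 : 0 ≤ h) (B0 : 0 ≤ B)
    (hB : S.BB p ς (h + 3) ⊤ B) (x : V) :
    ∑' u, gob_L S p h x u * ofReal (ς ^ (S.l x - S.l u)) ≤
      ofReal ((h + 3) * (B * ς ^ (-2 : ℝ))) := by
  classical
  have hw : ∀ j : ℕ, ∑' u, (S.Win (S.l x + j)).indicator
      (tauL G p (S.E (S.l x + j - (h + 1)) (S.l x + j + 2)) ⊤ x) u *
        ofReal (ς ^ (-((j : ℝ) + 1))) ≤ ofReal (B * ς ^ (-2 : ℝ)) := by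
    intro j
    rw [ENNReal.tsum_mul_right]
    refine (mul_le_mul_left (hB x _ _ _ (by linarith) (by linarith)) _).trans (le_of_eq ?_)
    rw [← ENNReal.ofReal_mul (by positivity), mul_assoc, mul_assoc, ← Real.rpow_add s0,
      ← Real.rpow_add s0]
    congr 3
    ring
  have hle : ∀ u, gob_L S p h x u * ofReal (ς ^ (S.l x - S.l u)) ≤
      ∑ j ∈ Finset.range (⌊h + 1⌋₊ + 1), (S.Win (S.l x + j)).indicator
        (tauL G p (S.E (S.l x + j - (h + 1)) (S.l x + j + 2)) ⊤ x) u *
          ofReal (ς ^ (-((j : ℝ) + 1))) := by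
    intro u
    rw [gob_L]
    split_ifs with hu
    · have d0 : 0 ≤ S.l u - S.l x := by linarith [hu.1]
      have f1 := Nat.floor_le d0
      have f2 := Nat.lt_floor_add_one (S.l u - S.l x)
      have f3 : ⌊S.l u - S.l x⌋₊ ∈ Finset.range (⌊h + 1⌋₊ + 1) :=
        Finset.mem_range.2 (Nat.lt_succ_of_le (Nat.floor_mono (by linarith [hu.2])))
      refine le_trans ?_ (Finset.single_le_sum (f := fun j : ℕ => (S.Win (S.l x + j)).indicator
        (tauL G p (S.E (S.l x + j - (h + 1)) (S.l x + j + 2)) ⊤ x) u *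
          ofReal (ς ^ (-((j : ℝ) + 1)))) (fun _ _ => zero_le) f3)
      rw [Set.indicator_of_mem (show u ∈ S.Win _ from ⟨by linarith, by linarith⟩), tauL_top]
      refine mul_le_mul' (tau_mono (S.E_mono (by linarith) (by linarith)))
        (ENNReal.ofReal_le_ofReal (Real.rpow_le_rpow_of_exponent_ge s0 s1 (by linarith)))
    · simp
  refine (ENNReal.tsum_le_tsum hle).trans ?_
  rw [Summable.tsum_finsetSum fun _ _ => ENNReal.summable]
  refine (Finset.sum_le_sum fun j _ => hw j).trans ?_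
  rw [Finset.sum_const, Finset.card_range, nsmul_eq_mul, ENNReal.ofReal_mul (p := h + 3) (by linarith),
    ← ENNReal.ofReal_natCast]
  refine mul_le_mul_left (ENNReal.ofReal_le_ofReal ?_) _
  have := Nat.floor_le (show 0 ≤ h + 1 by linarith)
  push_cast
  linarith

theorem gob_col (s0 : 0 < ς) (sb : ς ^ 2 * S.b ≤ 1) {h : ℝ} {A : ℝ≥0∞}
    (hA : ∀ x, ∑' u, gob_L S p h x u * ofReal (ς ^ (S.l x - S.l u)) ≤ A) (u : V) :
    ∑' y, gob_L S p h y u * ofReal (ς ^ (S.l u - S.l y)) ≤ ofReal S.CM * A := by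
  classical
  have b0 : 0 < S.b := lt_trans one_pos S.one_lt_b
  refine le_trans (ENNReal.tsum_le_tsum fun y => ?_) (S.mtp
    (fun x u => gob_L S p h x u * ofReal (ς ^ (S.l x - S.l u))) (fun g hg x u => ?_) A hA u)
  · by_cases hy : S.l y ≤ S.l u
    · rw [mul_assoc, ← ENNReal.ofReal_mul (by positivity)]
      refine mul_le_mul_right (ENNReal.ofReal_le_ofReal ?_) _
      have e1 : (ς ^ 2 * S.b) ^ (S.l u - S.l y) ≤ 1 :=
        Real.rpow_le_one (by positivity) sb (by linarith)
      have e2 : ς ^ (S.l u - S.l y) =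
          (ς ^ 2 * S.b) ^ (S.l u - S.l y) * (ς ^ (S.l y - S.l u) * S.b ^ (S.l y - S.l u)) := by
        rw [Real.mul_rpow (by positivity) b0.le, mul_mul_mul_comm, ← Real.rpow_add b0,
          ← Real.rpow_natCast, ← Real.rpow_mul s0.le, ← Real.rpow_add s0]
        have : S.l u - S.l y + (S.l y - S.l u) = 0 := by ring
        rw [this, Real.rpow_zero, mul_one]
        congr 1
        push_cast
        ring
      rw [e2]
      exact mul_le_of_le_one_left (by positivity) e1
    · rw [gob_L, if_neg fun h => hy h.1, zero_mul]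
      exact zero_le
  · have i1 := S.inv g hg x u
    have i2 : (S.l (g x) ≤ S.l (g u) ∧ S.l (g u) ≤ S.l (g x) + (h + 1)) ↔
        (S.l x ≤ S.l u ∧ S.l u ≤ S.l x + (h + 1)) :=
      ⟨fun h => ⟨by linarith [h.1], by linarith [h.2]⟩,
        fun h => ⟨by linarith [h.1], by linarith [h.2]⟩⟩
    simp only [gob_L, i1, i2, Geo.tau_rel hg]

theorem Geo.gob (S : Geo G) (s0 : 0 < ς) (s1 : ς < 1) (sb : ς ^ 2 * S.b ≤ 1) :
    ∃ C : ℝ, 1 ≤ C ∧ ∀ (p : I) (h B : ℝ), 0 ≤ h → 1 ≤ B → S.BB p ς (h + 3) ⊤ B →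
      S.GB p ς h (C * (h + 3) ^ 2 * B ^ 2) := by
  have c1 := S.one_le_CM
  have c2 : 1 ≤ ς ^ (-2 : ℝ) := Real.one_le_rpow_of_pos_of_le_one_of_nonpos s0 s1.le (by norm_num)
  refine ⟨S.CM * (ς ^ (-2 : ℝ)) ^ 2, one_le_mul_of_one_le_of_one_le c1 (one_le_pow₀ c2),
    fun p h B h0 B1 hB x a c hc => ?_⟩
  have hr := gob_row s0 s1.le h0 (by linarith) hB
  have hcol := gob_col s0 sb hr
  calc ∑' y, tau G p (S.E a c) x y * ofReal (ς ^ (S.l x - S.l y))
      ≤ ∑' y, ∑' u, gob_L S p h x u * ofReal (ς ^ (S.l x - S.l u)) *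
          (gob_L S p h y u * ofReal (ς ^ (S.l u - S.l y))) := by
        refine ENNReal.tsum_le_tsum fun y => ?_
        refine (mul_le_mul_left (gob_tau S h0 hc x y) _).trans (le_of_eq ?_)
        rw [← ENNReal.tsum_mul_right]
        refine tsum_congr fun u => ?_
        rw [mul_mul_mul_comm, ← ENNReal.ofReal_mul (by positivity), ← Real.rpow_add s0]
        congr 3
        ring
    _ ≤ ∑' u, gob_L S p h x u * ofReal (ς ^ (S.l x - S.l u)) *
          (ofReal S.CM * ofReal ((h + 3) * (B * ς ^ (-2 : ℝ)))) := by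
        rw [ENNReal.tsum_comm]
        refine ENNReal.tsum_le_tsum fun u => ?_
        rw [ENNReal.tsum_mul_left]
        exact mul_le_mul_right (hcol u) _
    _ ≤ _ := by
        rw [ENNReal.tsum_mul_right]
        refine (mul_le_mul_left (hr x) _).trans (le_of_eq ?_)
        rw [← ENNReal.ofReal_mul (by linarith), ← ENNReal.ofReal_mul (by positivity)]
        congr 1
        ring

omit [G.LocallyFinite] in
theorem gob_expand (F : Set (Sym2 V)) (x : V) (T : Set V) (φ : V → ℝ≥0∞) :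
    ∫⁻ ω, cnt (Kl G F x ω ∩ T) * ∑' w, (Kl G F x ω).indicator φ w ∂mu V p ≤
      ∑' z, tau G p F x z *
        ((∑' y, T.indicator (tau G p F z) y) * ∑' w, tau G p F z w * φ w) := by
  have hm : ∀ y w, MeasurableSet (Cn G F x y ∩ Cn G F x w) := fun y w =>
    Cn_FU.measurableSet.inter Cn_FU.measurableSet
  have e1 : ∀ ω, cnt (Kl G F x ω ∩ T) * ∑' w, (Kl G F x ω).indicator φ w =
      ∑' y, ∑' w, (Cn G F x y ∩ Cn G F x w).indicator (fun _ => T.indicator 1 y * φ w) ω := by
    intro ω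
    rw [cnt, ← ENNReal.tsum_mul_right]
    refine tsum_congr fun y => ?_
    rw [← ENNReal.tsum_mul_left]
    refine tsum_congr fun w => ?_
    by_cases h1 : ω ∈ Cn G F x y <;> by_cases h2 : ω ∈ Cn G F x w <;> by_cases h3 : y ∈ T <;>
      simp [Set.indicator, Kl, h1, h2, h3]
  simp only [e1]
  rw [lintegral_tsum fun y => (Measurable.tsum fun w =>
    measurable_const.indicator (hm y w)).aemeasurable]
  calc _ ≤ ∑' y, ∑' w, ∑' z, tau G p F x z *
        (T.indicator (tau G p F z) y * (tau G p F z w * φ w)) := by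
        refine ENNReal.tsum_le_tsum fun y => ?_
        rw [lintegral_tsum fun w => (measurable_const.indicator (hm y w)).aemeasurable]
        refine ENNReal.tsum_le_tsum fun w => ?_
        rw [lintegral_indicator_const (hm y w)]
        have ht := tree_graph (G := G) (p := p) (F := F) (R := ⊤) (x := x) (y := y) (y' := w)
        simp only [CnL_top, tauL_top] at ht
        refine (mul_le_mul_right ht _).trans (le_of_eq ?_)
        rw [← ENNReal.tsum_mul_left]
        refine tsum_congr fun z => ?_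
        by_cases h3 : y ∈ T
        · simp only [Set.indicator_of_mem h3, Pi.one_apply]
          ring
        · simp [h3]
    _ = _ := by
        simp only [← ENNReal.tsum_mul_left, ← ENNReal.tsum_mul_right]
        rw [ENNReal.tsum_comm]
        conv_rhs => rw [ENNReal.tsum_comm]
        refine tsum_congr fun w => ?_
        exact ENNReal.tsum_comm

theorem Geo.GB.phi2 {h B : ℝ} (s0 : 0 < ς) (s1 : ς ≤ 1) (hB : S.GB p ς h B) (x : V) {a c : ℝ}
    (hc : c - a ≤ h) (hx : S.l x ≤ c) :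
    ∫⁻ ω, cnt (S.Cl a x c ω ∩ S.Top c) * S.Phi ς c (S.Cl a x c ω) ∂mu V p ≤
      ofReal (B ^ 3 * ς ^ (c - S.l x) / ς) := by
  have B0 : 0 < B := by
    have := (ENNReal.le_tsum x).trans (hB x a c hc)
    rw [tau_self, sub_self, Real.rpow_zero, ENNReal.ofReal_one, one_mul] at this
    exact ENNReal.ofReal_pos.1 (lt_of_lt_of_le one_pos this)
  refine (gob_expand (S.E a c) x (S.Top c) fun w => ofReal (ς ^ (c - S.l w))).trans ?_
  calc _ ≤ ∑' z, tau G p (S.E a c) x z * ofReal (ς ^ (c - S.l z)) * ofReal (B ^ 2 / ς) := by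
        refine ENNReal.tsum_le_tsum fun z => ?_
        by_cases hz : S.l z ≤ c + 1
        · rw [mul_assoc]
          refine mul_le_mul_right ((mul_le_mul' (hB.top s0 s1 z hc)
            (lev_tilt s0 hB z hc c)).trans ?_) _
          rw [← ENNReal.ofReal_mul (by positivity), ← ENNReal.ofReal_mul (by positivity)]
          refine ENNReal.ofReal_le_ofReal ?_
          have e1 : ς ^ (c - S.l z) ≤ ς⁻¹ := by
            rw [← Real.rpow_neg_one]
            exact Real.rpow_le_rpow_of_exponent_ge s0 s1 (by linarith)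
          have e2 : 0 < ς ^ (c - S.l z) := by positivity
          calc _ = ς ^ (c - S.l z) * (B ^ 2 * ς ^ (c - S.l z)) := by ring
            _ ≤ _ := by
              rw [div_eq_mul_inv]
              gcongr
        · have : tau G p (S.E a c) x z = 0 := by
            have e : Cn G (S.E a c) x z = ∅ := Set.eq_empty_of_forall_notMem fun ω hω => by
              rcases S.Cn_Lt Set.inter_subset_right hω with rfl | h1
              · exact hz (by linarith)
              · exact hz h1.2.le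
            rw [tau, e, measure_empty]
          simp [this]
    _ ≤ _ := by
        rw [ENNReal.tsum_mul_right]
        refine (mul_le_mul_left (lev_tilt s0 hB x hc c) _).trans (le_of_eq ?_)
        rw [← ENNReal.ofReal_mul (by positivity)]
        congr 1
        ring

end Pool.Agent.P.MP_3aa27f_pr.F
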