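import Pool.Agent.P.MP_3aa27f_pr.F.Pair

/-! Large sets survive many blocks. -/

open MeasureTheory unitInterval SimpleGraph
open ENNReal (ofReal)
open scoped ENNReal

namespace Pool.Agent.P.MP_3aa27f_pr.F

variable {V : Type} {G : SimpleGraph V} [G.LocallyFinite] [Countable V] {S : Geo G} {p : I}
variable (C : Chain S p)

omit [G.LocallyFinite] [Countable V] in
theorem haz_form {K : Ker V} {c : ℝ≥0∞} (h : NB K c) (T : Finset V) :
    ∑ s ∈ T, ∑ s' ∈ T, K s s' ≤ c * T.card := by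
  rw [← cnt_finset]
  refine le_trans ?_ (h.ind_self T)
  refine le_trans (Finset.sum_le_sum fun s hs => ?_) (ENNReal.sum_le_tsum T)
  refine le_trans (Finset.sum_le_sum fun s' hs' => ?_) (ENNReal.sum_le_tsum T)
  rw [Set.indicator_of_mem (Finset.mem_coe.2 hs), Set.indicator_of_mem (Finset.mem_coe.2 hs')]
  simp

omit [Countable V] in
theorem haz_A (i j : ℕ) (T : Finset V) :
    ∑ s ∈ T, ∑ s' ∈ T, ∑' u, ∑' u', kpow C.Q i s u * kpow C.Q j s' u' * C.coll u u' ≤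
      ofReal ((C.ρ * C.q * S.b ^ (C.J / 2)) ^ i) * (ofReal (((S.D : ℝ) + 1) ^ (2 * C.L)) *
        ofReal ((C.ρ * C.q * S.b ^ (C.J / 2)) ^ j)) * T.card := by
  refine le_trans (le_of_eq ?_)
    (haz_form ((C.Qn_norm i).mul (C.coll_norm.mul (C.Qn_norm j).tr)) T)
  refine Finset.sum_congr rfl fun s _ => Finset.sum_congr rfl fun s' _ => tsum_congr fun u => ?_
  rw [kmul, ← ENNReal.tsum_mul_left]
  exact tsum_congr fun u' => by rw [ktr]; ring

omit [Countable V] in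
theorem haz_near {i j : ℕ} {e : ℝ} {s s' u u' : V} (hs : s ∈ S.Win e) (hs' : s' ∈ S.Win e)
    (h : kpow C.Q i s u * kpow C.Q j s' u' * C.coll u u' ≠ 0) : i ≤ j + 1 ∧ j ≤ i + 1 := by
  have a1 := (C.Qn_supp (left_ne_zero_of_mul (left_ne_zero_of_mul h))).2
  have a2 := (C.Qn_supp (right_ne_zero_of_mul (left_ne_zero_of_mul h))).2
  have a3 := abs_lt.1 (C.coll_lev (right_ne_zero_of_mul h))
  have J1 := C.one_le_J
  obtain ⟨b1, b2⟩ := hs
  obtain ⟨b3, b4⟩ := hs'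
  constructor
  · by_contra h1
    have : (j : ℝ) + 2 ≤ i := by exact_mod_cast (by omega : j + 2 ≤ i)
    nlinarith [a3.2]
  · by_contra h1
    have : (i : ℝ) + 2 ≤ j := by exact_mod_cast (by omega : i + 2 ≤ j)
    nlinarith [a3.1]

theorem haz_real {q ν Λ r : ℝ} (q0 : 0 < q) (ν0 : 0 < ν) (r0 : 0 ≤ r) (hν : ν ^ 2 = q ^ 2 * r)
    (h1 : 1 ≤ Λ * q) (h2 : r ≤ Λ) {n i j : ℕ} (hi : i ≤ n) (a : i ≤ j + 1) (b : j ≤ i + 1) :
    ν ^ i * ν ^ j * q ^ (n - i) ≤ (ν + 1 + 1 / ν) * (q ^ n) ^ 2 * Λ ^ n := by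
  have e1 : ν ^ j ≤ (ν + 1 + 1 / ν) * ν ^ i := by
    have := pow_pos ν0 i
    have := one_div_pos.2 ν0
    rcases (by omega : j = i + 1 ∨ j = i ∨ i = j + 1) with rfl | rfl | rfl
    · rw [pow_succ']; gcongr; linarith
    · nlinarith
    · calc ν ^ j = 1 / ν * ν ^ (j + 1) := by rw [pow_succ]; field_simp
        _ ≤ _ := by gcongr; linarith
  obtain ⟨k, rfl⟩ := Nat.exists_eq_add_of_le hi
  have L0 : 0 ≤ Λ := r0.trans h2
  rw [Nat.add_sub_cancel_left]
  calc ν ^ i * ν ^ j * q ^ k ≤ ν ^ i * ((ν + 1 + 1 / ν) * ν ^ i) * q ^ k := by gcongr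
    _ = (ν + 1 + 1 / ν) * ((ν ^ 2) ^ i * q ^ k * 1) := by ring
    _ = (ν + 1 + 1 / ν) * ((q ^ 2) ^ i * r ^ i * q ^ k * 1) := by rw [hν, mul_pow]
    _ ≤ (ν + 1 + 1 / ν) * ((q ^ 2) ^ i * Λ ^ i * q ^ k * (Λ * q) ^ k) := by
        gcongr
        exact one_le_pow₀ h1
    _ = _ := by ring

theorem haz_second {Λ : ℝ} (h1 : 1 ≤ Λ * C.q) (h2 : C.ρ ^ 2 * S.b ^ C.J ≤ Λ) :
    ∃ C₁ : ℝ, 1 ≤ C₁ ∧ ∀ (n : ℕ) (e : ℝ) (T : Finset V), (∀ s ∈ T, s ∈ S.Win e) →
      ∫⁻ ω, (∑ s ∈ T, ∑' y, C.wN n s y ω) ^ 2 ∂mu V p ≤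
        T.card * ofReal (C.q ^ n) ^ 2 * ofReal (T.card + C₁ * (n + 1) * Λ ^ n) := by
  classical
  have b0 : 0 < S.b := lt_trans one_pos S.one_lt_b
  have q0 := C.q0
  have ρ0 := C.ρ0
  set ν := C.ρ * C.q * S.b ^ (C.J / 2) with hν
  have ν0 : 0 < ν := by positivity
  set D' : ℝ := ((S.D : ℝ) + 1) ^ (2 * C.L) with hD'
  have D1 : 1 ≤ D' := one_le_pow₀ (by linarith [Nat.cast_nonneg (α := ℝ) S.D])
  have κ1 : 1 ≤ ν + 1 + 1 / ν := by linarith [one_div_pos.2 ν0]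
  have hν2 : ν ^ 2 = C.q ^ 2 * (C.ρ ^ 2 * S.b ^ C.J) := by
    have : (S.b ^ (C.J / 2)) ^ 2 = S.b ^ C.J := by
      rw [sq, ← Real.rpow_add b0, add_halves]
    rw [hν, mul_pow, this]; ring
  have L0 : 0 ≤ Λ := le_trans (by positivity) h2
  refine ⟨3 * ((ν + 1 + 1 / ν) * D'), by nlinarith, fun n e T hT => ?_⟩
  have e1 : ∀ ω, (∑ s ∈ T, ∑' y, C.wN n s y ω) ^ 2 =
      ∑ s ∈ T, ∑ s' ∈ T, ∑' y, ∑' y', C.wN n s y ω * C.wN n s' y' ω * 1 := fun ω => by
    rw [sq, Finset.sum_mul_sum]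
    simp only [mul_one, ENNReal.tsum_mul_left, ENNReal.tsum_mul_right]
  have m1 : ∀ s s', Measurable fun ω => ∑' y, ∑' y', C.wN n s y ω * C.wN n s' y' ω * 1 :=
    fun s s' => Measurable.tsum fun y => Measurable.tsum fun y' =>
      ((C.wN_meas n s y).fun_mul (C.wN_meas n s' y')).mul_const _
  simp only [e1]
  rw [lintegral_finsetSum _ fun s _ => Finset.measurable_fun_sum _ fun s' _ => m1 s s']
  simp only [lintegral_finsetSum _ fun s' _ => m1 _ s']
  refine le_trans (Finset.sum_le_sum fun s _ => Finset.sum_le_sum fun s' _ =>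
    C.pair n n s s' (g := fun _ _ => 1) (g₁ := fun _ => 1) fun _ _ => le_rfl) ?_
  simp only [Finset.sum_add_distrib, mul_one]
  rw [ENNReal.ofReal_add (Nat.cast_nonneg _) (by positivity), mul_add, ENNReal.ofReal_natCast]
  refine add_le_add ?_ ?_
  · refine le_trans (Finset.sum_le_card_nsmul _ _ (T.card • ofReal (C.q ^ n) ^ 2) fun s _ =>
      Finset.sum_le_card_nsmul _ _ _ fun s' _ => ?_) (le_of_eq ?_)
    · simp only [ENNReal.tsum_mul_left, ENNReal.tsum_mul_right]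
      rw [sq]
      exact mul_le_mul' (C.Qn_row_le n s) (C.Qn_row_le n s')
    · simp only [nsmul_eq_mul]; ring
  · simp only [Finset.sum_comm (s := T) (t := Finset.range n)]
    set c := T.card * ofReal ((ν + 1 + 1 / ν) * D' * (C.q ^ n) ^ 2 * Λ ^ n) with hc
    refine le_trans (Finset.sum_le_card_nsmul _ _ (3 * c) fun i hi => ?_) ?_
    · refine le_trans (Finset.sum_le_sum (g := fun j => if j ∈ Finset.Icc (i - 1) (i + 1) then c
        else 0) fun j _ => ?_) ?_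
      · split_ifs with hj
        · rw [Finset.mem_Icc] at hj
          refine le_trans (Finset.sum_le_sum fun s _ => Finset.sum_le_sum fun s' _ =>
            ENNReal.tsum_le_tsum fun u => ENNReal.tsum_le_tsum fun u' =>
              mul_le_mul_right (C.Qn_row_le (n - i) u) _) ?_
          simp only [ENNReal.tsum_mul_right, ← Finset.sum_mul]
          refine (mul_le_mul_left (haz_A C i j T) _).trans ?_
          rw [← hν, ← hD', mul_right_comm, mul_comm _ (T.card : ℝ≥0∞),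
            ← ENNReal.ofReal_mul (by positivity), ← ENNReal.ofReal_mul (by positivity),
            ← ENNReal.ofReal_mul (by positivity)]
          refine mul_le_mul_right (ENNReal.ofReal_le_ofReal ?_) _
          have := haz_real q0 ν0 (by positivity) hν2 h1 h2 (Finset.mem_range.1 hi).le
            (j := j) (by omega) hj.2
          nlinarith
        · refine le_of_eq (Finset.sum_eq_zero fun s hs => Finset.sum_eq_zero fun s' hs' =>
            ENNReal.tsum_eq_zero.2 fun u => ENNReal.tsum_eq_zero.2 fun u' => ?_)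
          refine mul_eq_zero_of_left (by_contra fun h => hj (Finset.mem_Icc.2 ?_)) _
          have := haz_near C (hT s hs) (hT s' hs') h
          omega
      · rw [← Finset.sum_filter, Finset.sum_const, nsmul_eq_mul]
        refine mul_le_mul_left ?_ _
        have : ((Finset.range n).filter (· ∈ Finset.Icc (i - 1) (i + 1))).card ≤ 3 :=
          (Finset.card_le_card fun j hj => (Finset.mem_filter.1 hj).2).trans
            (by rw [Nat.card_Icc]; omega)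
        exact_mod_cast this
    · rw [Finset.card_range, nsmul_eq_mul, hc, mul_left_comm 3, mul_left_comm (n : ℝ≥0∞),
        mul_assoc (T.card : ℝ≥0∞)]
      refine mul_le_mul_right ?_ _
      rw [← ENNReal.ofReal_natCast n, ← ENNReal.ofReal_ofNat 3, ← ENNReal.ofReal_pow (by positivity),
        ← ENNReal.ofReal_mul (by positivity), ← ENNReal.ofReal_mul (by positivity),
        ← ENNReal.ofReal_mul (by positivity)]
      refine ENNReal.ofReal_le_ofReal ?_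
      have : 0 ≤ (ν + 1 + 1 / ν) * D' * (C.q ^ n) ^ 2 * Λ ^ n := by positivity
      nlinarith

theorem Chain.hazard {Λ : ℝ} (h1 : 1 ≤ Λ * C.q) (h2 : C.ρ ^ 2 * S.b ^ C.J ≤ Λ) :
    ∃ C₁ : ℝ, 1 ≤ C₁ ∧ ∀ (n : ℕ) (e : ℝ) (T : Finset V), (∀ s ∈ T, S.O s ∧ s ∈ S.Win e) →
      (T.card : ℝ≥0∞) ≤ ofReal (T.card + C₁ * (n + 1) * Λ ^ n) * mu V p {ω | ∃ s ∈ T, ∃ y,
        e + n * C.J ≤ S.l y ∧ ω ∈ CnL G (S.Ge (S.l s)) (n * C.L : ℕ) s y} := by
  obtain ⟨C₁, c1, h⟩ := haz_second C h1 h2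
  refine ⟨C₁, c1, fun n e T hT => ?_⟩
  rcases T.eq_empty_or_nonempty with rfl | hne
  · simp
  have m1 : ∀ s, Measurable fun ω => ∑' y, C.wN n s y ω :=
    fun s => Measurable.tsum fun y => C.wN_meas n s y
  have h3 := sq_le_meas_mul (mu V p) (Finset.measurable_fun_sum T fun s _ => m1 s)
  have e1 : ∫⁻ ω, ∑ s ∈ T, ∑' y, C.wN n s y ω ∂mu V p = T.card * ofReal (C.q ^ n) := by
    rw [lintegral_finsetSum _ fun s _ => m1 s, ← nsmul_eq_mul, ← Finset.sum_const]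
    refine Finset.sum_congr rfl fun s hs => ?_
    rw [lintegral_tsum fun y => (C.wN_meas n s y).aemeasurable, ← C.Qn_row n (hT s hs).1]
    exact tsum_congr fun y => C.lintegral_wN n s y
  have h4 : {ω | ∑ s ∈ T, ∑' y, C.wN n s y ω ≠ 0} ⊆ {ω | ∃ s ∈ T, ∃ y,
      e + n * C.J ≤ S.l y ∧ ω ∈ CnL G (S.Ge (S.l s)) (n * C.L : ℕ) s y} := by
    intro ω hω
    obtain ⟨s, hs, h5⟩ := Finset.exists_ne_zero_of_sum_ne_zero hω
    obtain ⟨y, hy⟩ : ∃ y, C.wN n s y ω ≠ 0 := by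
      by_contra h6
      exact h5 (ENNReal.tsum_eq_zero.2 fun y => by_contra fun h7 => h6 ⟨y, h7⟩)
    obtain ⟨-, a2, a3⟩ := C.wN_supp hy
    exact ⟨s, hs, y, by linarith [(hT s hs).2.1], CnL_mono Set.inter_subset_left le_rfl a3⟩
  rw [e1] at h3
  have h5 := h3.trans (mul_le_mul' (measure_mono h4) (h n e T fun s hs => (hT s hs).2))
  have q0 : ofReal (C.q ^ n) ≠ 0 := (ENNReal.ofReal_pos.2 (pow_pos C.q0 n)).ne'
  refine (ENNReal.mul_le_mul_iff_right (a := T.card * ofReal (C.q ^ n) ^ 2)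
    (mul_ne_zero (Nat.cast_ne_zero.2 hne.card_pos.ne') (pow_ne_zero _ q0))
    (ENNReal.mul_ne_top (ENNReal.natCast_ne_top _) (ENNReal.pow_ne_top ENNReal.ofReal_ne_top))).1 ?_
  refine le_trans (le_of_eq ?_) (h5.trans (le_of_eq ?_)) <;> ring

theorem haz_min {N : ℕ} {Θ t : ℝ} {m : ℝ≥0∞} (t0 : 0 < t) (ht : t ≤ Θ)
    (h : (N : ℝ≥0∞) ≤ ofReal (N + Θ) * m) : min (N : ℝ≥0∞) (ofReal t) ≤ ofReal (2 * Θ) * m := by
  have N0 : (0 : ℝ) ≤ N := Nat.cast_nonneg _
  rcases le_total (N : ℝ) Θ with h1 | h1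
  · exact (min_le_left _ _).trans (h.trans
      (mul_le_mul_left (ENNReal.ofReal_le_ofReal (by linarith)) _))
  · have h2 : (N : ℝ≥0∞) * 1 ≤ N * (2 * m) := by
      refine (mul_one _).trans_le (h.trans ?_)
      rw [← mul_assoc]
      refine mul_le_mul_left ?_ _
      rw [← ENNReal.ofReal_natCast N, ← ENNReal.ofReal_ofNat 2, ← ENNReal.ofReal_mul N0]
      exact ENNReal.ofReal_le_ofReal (by linarith)
    have N1 : (N : ℝ≥0∞) ≠ 0 := by
      have : (0 : ℝ) < N := by linarith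
      exact_mod_cast this.ne'
    have h3 := (ENNReal.mul_le_mul_iff_right N1 (ENNReal.natCast_ne_top _)).1 h2
    refine (min_le_right _ _).trans ((ENNReal.ofReal_le_ofReal ht).trans ?_)
    rw [mul_comm 2, ENNReal.ofReal_mul (by linarith), ENNReal.ofReal_ofNat, mul_assoc]
    exact le_mul_of_one_le_right' h3

theorem Chain.trunc (p0 : 0 < (p : ℝ)) {Λ : ℝ} (h1 : 1 ≤ Λ * C.q)
    (h2 : C.ρ ^ 2 * S.b ^ C.J ≤ Λ) : ∃ C₁ : ℝ, 1 ≤ C₁ ∧ ∀ (n R : ℕ) (x : V) (a c e : ℝ),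
      a ≤ S.l x → ∫⁻ ω, min (cnt ({y | S.O y ∧ y ∈ S.Win e} ∩ {y | ω ∈ CnL G (S.E a c) R x y}))
        (ofReal (Λ ^ n)) ∂mu V p ≤ ofReal (C₁ * (n + 1) ^ 2 * Λ ^ n) *
          rch G p (S.E a (e + n * C.J)) x (S.Top (e + n * C.J)) := by
  obtain ⟨C₁, c1, h⟩ := C.hazard h1 h2
  have p1 := p.2.2
  have L0 : (0 : ℝ) ≤ C.L := Nat.cast_nonneg _
  have Λ1 : 1 ≤ Λ := by
    have := C.q0
    have := C.q1
    by_contra h3
    nlinarith
  refine ⟨2 * C₁ * ((C.L + 2) / p), ?_, fun n R x a c e ha => ?_⟩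
  · have : 1 ≤ ((C.L : ℝ) + 2) / p := by rw [le_div_iff₀ p0]; linarith
    nlinarith
  have n0 : (0 : ℝ) ≤ n := Nat.cast_nonneg _
  have t0 : 0 < Λ ^ n := by positivity
  have hd := dec2 (G := G) (F := S.Ge a) (l := n * C.L) (X := S.Top (e + n * C.J)) (Y := {x}) p0
  calc _ ≤ ∫⁻ ω, ofReal (2 * (C₁ * (n + 1) * Λ ^ n)) * mu V p {ω' | ∃ y ∈ S.Top (e + n * C.J),
        ∃ u, ω' ∈ CnL G (S.Ge a) (n * C.L : ℕ) y u ∧ ω ∈ Rch G (S.Ge a) u {x}} ∂mu V p := by
        refine lintegral_mono fun ω => ?_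
        have hf : ({y | S.O y ∧ y ∈ S.Win e} ∩ {y | ω ∈ CnL G (S.E a c) R x y}).Finite :=
          (ball_finite S.conn x R).subset fun y hy => CnL_dist hy.2
        have h3 := h n e hf.toFinset fun s hs => (hf.mem_toFinset.1 hs).1
        rw [← hf.coe_toFinset, cnt_finset]
        refine (haz_min t0 (le_mul_of_one_le_left t0.le (by nlinarith)) h3).trans
          (mul_le_mul_right (measure_mono ?_) _)
        rintro ω' ⟨s, hs, y, hy, h4⟩
        have h5 : ω ∈ Cn G (S.E a c) x s := CnL_sub (hf.mem_toFinset.1 hs).2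
        have h6 : a ≤ S.l s := (Geo.Cn_Ge (S := S) (s := a) Set.inter_subset_left h5).elim
          (fun h7 => h7 ▸ ha) fun h7 => h7.2
        refine ⟨y, hy, s, ?_, x, rfl, Cn_symm (Cn_mono Set.inter_subset_left h5)⟩
        rw [CnL_comm]
        exact CnL_mono (S.Ge_mono h6) le_rfl h4
    _ ≤ ofReal (2 * (C₁ * (n + 1) * Λ ^ n)) * (ofReal (((n * C.L : ℕ) + 2) / p) *
        rch G p (S.E a (e + n * C.J)) x (S.Top (e + n * C.J))) := by
        rw [lintegral_const_mul' _ _ ENNReal.ofReal_ne_top]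
        refine mul_le_mul_right (hd.trans (mul_le_mul_right (measure_mono ?_) _)) _
        rintro ω ⟨y, hy, z, rfl, h3⟩
        exact S.Rch_first le_rfl ⟨y, hy, Cn_symm h3⟩
    _ ≤ _ := by
        rw [← mul_assoc, ← ENNReal.ofReal_mul (by positivity)]
        refine mul_le_mul_left (ENNReal.ofReal_le_ofReal ?_) _
        have : (((n * C.L : ℕ) : ℝ) + 2) / p ≤ (n + 1) * ((C.L + 2) / p) := by
          rw [← mul_div_assoc]
          refine div_le_div_of_nonneg_right ?_ p0.le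
          push_cast
          nlinarith
        calc _ ≤ 2 * (C₁ * (n + 1) * Λ ^ n) * ((n + 1) * ((C.L + 2) / p)) := by gcongr
          _ = _ := by ring

end Pool.Agent.P.MP_3aa27f_pr.F
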