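import Pool.Agent.P.MP_3aa27f_pr.F.IterA
import Pool.Agent.P.MP_3aa27f_pr.F.Buf

/-! Deep floors cost only a small power of the susceptibility. -/

open MeasureTheory unitInterval SimpleGraph
open ENNReal (ofReal)
open scoped ENNReal

namespace Pool.Agent.P.MP_3aa27f_pr.F

variable {V : Type} {G : SimpleGraph V} [G.LocallyFinite] [Countable V] {S : Geo G} {p : I}
variable {ς : ℝ}

theorem iter_pow {g : ℝ≥0∞} {A y : ℝ} (A0 : 0 ≤ A) (y0 : 0 < y)
    (h : ∀ n : ℕ, g ^ n ≤ ofReal (A * y ^ n)) : g ≤ ofReal y := by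
  have hg : g ≠ ⊤ := ne_top_of_le_ne_top ENNReal.ofReal_ne_top (by simpa using h 1)
  rw [← ENNReal.ofReal_toReal hg]
  refine ENNReal.ofReal_le_ofReal (not_lt.1 fun hc => ?_)
  obtain ⟨n, hn⟩ := pow_unbounded_of_one_lt A ((one_lt_div y0).2 hc)
  have h1 := ENNReal.toReal_le_of_le_ofReal (by positivity) (h n)
  rw [ENNReal.toReal_pow] at h1
  rw [div_pow, lt_div_iff₀ (by positivity)] at hn
  exact hn.not_ge h1

theorem iter_base (hR : Rate S p ς) (ε : ℝ) (ε0 : 0 < ε) : ∃ C : ℝ, 1 ≤ C ∧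
    ∀ H B m j : ℝ, 1 ≤ B → S.GB p ς H B → 0 ≤ m → 0 ≤ j → m + j ≤ H →
      S.PiO p m j ≤ ofReal (C * B ^ ε * ς ^ j) := by
  obtain ⟨C, C1, h⟩ := hR.buf (ε := ε / 4) (by positivity)
  obtain ⟨Cc, Cc1, hc⟩ := hR.crude
  have s0 := hR.s0
  have s1 := hR.s1
  have p0 := hR.p0
  have hp : (p : ℝ) ^ S.n0 ≤ 1 := pow_le_one₀ p0.le hR.p1.le
  have h16 : 1 ≤ 16 / ς := by rw [le_div_iff₀ s0]; linarith
  have h16' : 1 ≤ (16 / ς) ^ (ε / 4) := Real.one_le_rpow h16 (by positivity)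
  have hC : 1 ≤ 2 * C * (16 / ς) ^ (ε / 4) / p ^ S.n0 := by
    rw [le_div_iff₀ (by positivity)]
    nlinarith
  refine ⟨_, hC, fun H B m j B1 hB m0 j0 hH => ?_⟩
  have B0 : 0 < B := by linarith
  have hj : 0 < ς ^ j := Real.rpow_pos_of_pos s0 j
  have hBε : 1 ≤ B ^ ε := Real.one_le_rpow B1 ε0.le
  rcases le_total (S.PiO p m j) (ofReal (ς ^ j)) with h3 | h3
  · refine h3.trans (ENNReal.ofReal_le_ofReal ?_)
    exact le_mul_of_one_le_left hj.le (one_le_mul_of_one_le_of_one_le hC hBε)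
  have X1 : 1 ≤ 16 / ς * B ^ 4 := one_le_mul_of_one_le_of_one_le h16 (one_le_pow₀ B1)
  obtain ⟨K₀, K0, h1, -, h2⟩ := h _ X1
  have hK : 0 < ς ^ K₀ := Real.rpow_pos_of_pos s0 K₀
  have hX : (16 / ς * B ^ 4) ^ (ε / 4) = (16 / ς) ^ (ε / 4) * B ^ ε := by
    rw [Real.mul_rpow (by positivity) (by positivity), ← Real.rpow_natCast B 4,
      ← Real.rpow_mul B0.le]
    congr 2
    push_cast
    ring
  have key := iter_pow (A := Cc ^ (m + 1)) (y := ς ^ (K₀ + j)) (by positivity) (by positivity)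
    fun n => (S.iter_step s0 s1 m0 j0 K0 (M := 8 * B ^ 3 / ς) (by positivity) (by nlinarith) h2
      (fun z hz W hW => S.iter_first s0 s1 j0 B1 hB hH (by
        have : B * (8 * B ^ 3 / ς) * ς ^ K₀ = ς ^ K₀ * (16 / ς * B ^ 4) / 2 := by ring
        linarith) le_rfl h3 hz W hW) n S.o S.O_o ∅ (by simp [Geo.Phi])).trans (by
      refine (measure_mono ((S.Rch_first le_rfl).trans (Rch_mono
        (Set.inter_subset_inter_left _ Set.sdiff_subset) le_rfl))).trans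
        ((hc m _ m0 S.o _ _ (by simp) le_rfl).trans (le_of_eq ?_))
      rw [add_sub_cancel_left, mul_comm (n : ℝ), Real.rpow_mul s0.le, Real.rpow_natCast])
  rw [hX, Real.rpow_add s0] at key
  set t : ℝ := ς ^ K₀ / (C * ((16 / ς) ^ (ε / 4) * B ^ ε)) * (2⁻¹ * p ^ S.n0) with ht
  have t0 : 0 < t := by positivity
  have e : ofReal t * S.PiO p m j ≤ ofReal (ς ^ K₀ * ς ^ j) := by
    refine le_trans (le_of_eq ?_) key
    rw [ht, ENNReal.ofReal_mul (by positivity), ENNReal.ofReal_mul (by positivity),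
      ENNReal.ofReal_inv_of_pos two_pos, ENNReal.ofReal_ofNat, div_eq_mul_inv (S.PiO p m j)]
    ring
  calc _ = ofReal t⁻¹ * (ofReal t * S.PiO p m j) := by
        rw [← mul_assoc, ← ENNReal.ofReal_mul (by positivity), inv_mul_cancel₀ t0.ne',
          ENNReal.ofReal_one, one_mul]
    _ ≤ ofReal t⁻¹ * ofReal (ς ^ K₀ * ς ^ j) := mul_le_mul_right e _
    _ = _ := by
        rw [← ENNReal.ofReal_mul (by positivity), ht]
        congr 1
        field_simp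

theorem Rate.iter (hR : Rate S p ς) (ε : ℝ) (ε0 : 0 < ε) : ∃ C : ℝ, 1 ≤ C ∧
    ∀ H B m : ℝ, 1 ≤ B → S.GB p ς H B → S.FB p ς m H (C * B ^ ε) := by
  obtain ⟨C, C1, h⟩ := iter_base hR ε ε0
  have s0 := hR.s0
  have s1 := hR.s1
  have p0 := hR.p0
  have hp : (p : ℝ) ^ S.n0 ≤ 1 := pow_le_one₀ p0.le hR.p1.le
  have hs : ς ^ (S.n0 : ℝ) ≤ 1 := Real.rpow_le_one s0.le s1.le (Nat.cast_nonneg _)
  have hs0 : 0 < ς ^ (S.n0 : ℝ) := Real.rpow_pos_of_pos s0 _
  have hp0 : 0 < (p : ℝ) ^ S.n0 := by positivity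
  refine ⟨C / (p ^ S.n0 * ς ^ (S.n0 : ℝ)), ?_, fun H B m B1 hB w a c _ hc => ?_⟩
  · rw [le_div_iff₀ (by positivity)]
    nlinarith [mul_le_one₀ hp hs0.le hs]
  have hBε : 1 ≤ B ^ ε := Real.one_le_rpow B1 ε0.le
  rcases le_or_gt c (S.l w + S.n0) with h1 | h1
  · refine rch_le_one.trans (ENNReal.one_le_ofReal.2 ?_)
    have e : ς ^ (S.n0 : ℝ) ≤ ς ^ (c - S.l w) :=
      Real.rpow_le_rpow_of_exponent_ge s0 s1.le (by linarith)
    calc (1 : ℝ) ≤ C / p ^ S.n0 * B ^ ε := one_le_mul_of_one_le_of_one_le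
          ((le_div_iff₀ hp0).2 (by linarith)) hBε
      _ = C / (p ^ S.n0 * ς ^ (S.n0 : ℝ)) * B ^ ε * ς ^ (S.n0 : ℝ) := by field_simp
      _ ≤ _ := by gcongr
  rcases lt_or_ge (S.l w) a with h2 | h2
  · have : Rch G (S.E a c) w (S.Top c) = ∅ := Set.eq_empty_of_forall_notMem fun ω ⟨y, hy, h3⟩ => by
      rcases Geo.Cn_Ge (S := S) (s := a) Set.inter_subset_left h3 with rfl | h4
      · have : c ≤ S.l y := hy
        linarith [(Nat.cast_nonneg S.n0 : (0 : ℝ) ≤ _)]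
      · linarith [h4.1]
    rw [rch, this, measure_empty]
    exact zero_le
  obtain ⟨u, q, hu, -, h3, h4⟩ := S.up' w
  have h3' : (q.length : ℝ) ≤ S.n0 := by exact_mod_cast h3
  have h5 : (0 : ℝ) ≤ q.length := Nat.cast_nonneg _
  have e1 := harris_walk_rch (p := p) (F := S.E a c) (Y := S.Top c) (n := S.n0) q.reverse
    (by rwa [Walk.length_reverse]) fun e he =>
      S.tight_edges' q h4 h2 (by linarith) e (by simpa using he)
  have e2 := Geo.PiO_eq (p := p) hu (S.l u - a) (c - S.l u)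
  rw [sub_sub_cancel, add_sub_cancel] at e2
  have e3 := (e1.trans_eq e2).trans (h H B _ _ B1 hB (by linarith) (by linarith) (by linarith))
  have e4 : ς ^ (c - S.l u) * ς ^ (S.n0 : ℝ) ≤ ς ^ (c - S.l w) := by
    rw [← Real.rpow_add s0]
    exact Real.rpow_le_rpow_of_exponent_ge s0 s1.le (by linarith)
  calc _ = ofReal ((p : ℝ) ^ S.n0)⁻¹ * (ofReal ((p : ℝ) ^ S.n0) * rch G p (S.E a c) w (S.Top c)) := by
        rw [← mul_assoc, ← ENNReal.ofReal_mul (by positivity), inv_mul_cancel₀ hp0.ne',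
          ENNReal.ofReal_one, one_mul]
    _ ≤ ofReal ((p : ℝ) ^ S.n0)⁻¹ * ofReal (C * B ^ ε * ς ^ (c - S.l u)) := mul_le_mul_right e3 _
    _ ≤ _ := by
        rw [← ENNReal.ofReal_mul (by positivity)]
        refine ENNReal.ofReal_le_ofReal ?_
        calc _ = C / (p ^ S.n0 * ς ^ (S.n0 : ℝ)) * B ^ ε * (ς ^ (c - S.l u) * ς ^ (S.n0 : ℝ)) := by
              field_simp
          _ ≤ _ := by gcongr

end Pool.Agent.P.MP_3aa27f_pr.F
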