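import Pool.Agent.P.MP_3aa27f_pr.F.Expl
import Pool.Agent.P.MP_3aa27f_pr.F.Gob

/-! Repeated crossings in one configuration. -/

open MeasureTheory unitInterval SimpleGraph
open ENNReal (ofReal)
open scoped ENNReal

namespace Pool.Agent.P.MP_3aa27f_pr.F

variable {V : Type} {G : SimpleGraph V} [G.LocallyFinite] [Countable V] {S : Geo G} {p : I}
variable {ς : ℝ}

theorem itera_meas (S : Geo G) (F : Set (Sym2 V)) (z : V) (t : ℝ) (c : ℝ≥0∞) :
    MeasurableSet {ω | (Kl G F z ω ∩ S.Top t).Nonempty ∧ S.Phi ς t (Kl G F z ω) ≤ c} := by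
  have e : {ω | (Kl G F z ω ∩ S.Top t).Nonempty ∧ S.Phi ς t (Kl G F z ω) ≤ c} =
      Rch G F z (S.Top t) ∩ {ω | S.Phi ς t (Kl G F z ω) ≤ c} :=
    Set.ext fun ω => and_congr_left' ⟨fun ⟨y, h1, h2⟩ => ⟨y, h2, h1⟩, fun ⟨y, h1, h2⟩ => ⟨y, h2, h1⟩⟩
  rw [e]
  exact Rch_FU.measurableSet.inter (measurableSet_le (S.measurable_Phi ς t F z) measurable_const)

theorem Geo.iter_step (S : Geo G) (s0 : 0 < ς) (s1 : ς < 1) {m j K₀ M : ℝ} (m0 : 0 ≤ m)
    (j0 : 0 ≤ j) (K0 : 0 ≤ K₀) (M0 : 0 ≤ M) (hK : ς ^ K₀ ≤ 1 / 2) {c₀ γ : ℝ≥0∞}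
    (hbuf : ∀ v, S.O v → ∀ F : Set (Sym2 V), S.E (S.l v) (S.l v + K₀) ⊆ F →
      ∀ (Y : Set V) (β : ℝ≥0∞), (∀ z ∈ S.Lev (S.l v + K₀), β ≤ rch G p F z Y) →
        c₀ * β ≤ rch G p F v Y)
    (hA : ∀ z, S.O z → ∀ W : Set V, S.Phi ς (S.l z - K₀) W ≤ ofReal M → γ ≤ mu V p {ω |
      (Kl G (S.E (S.l z - m) (S.l z + j) \ (ETo W ∩ S.Lt (S.l z - K₀))) z ω ∩
        S.Top (S.l z + j)).Nonempty ∧ S.Phi ς (S.l z + j)
          (Kl G (S.E (S.l z - m) (S.l z + j) \ (ETo W ∩ S.Lt (S.l z - K₀))) z ω) ≤ ofReal (M / 2)})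
    (n : ℕ) : ∀ v, S.O v → ∀ W : Set V, S.Phi ς (S.l v) W ≤ ofReal M →
      (c₀ * γ * ofReal ((p : ℝ) ^ S.n0)) ^ n ≤ rch G p (S.Ge (S.l v - m) \ (ETo W ∩ S.Lt (S.l v)))
        v (S.Top (S.l v + n * (K₀ + j))) := by
  induction n with
  | zero =>
    intro v _ W _
    rw [pow_zero, rch, Set.eq_univ_of_forall (s := Rch _ _ _ _) fun ω =>
      ⟨v, by simp [Geo.Top], Cn_refl _ _ _⟩, measure_univ]
  | succ n ih =>
    intro v hv W hW
    have nL : ∀ {e : Sym2 V} {a b : ℝ}, b ≤ a → e ∈ S.Ge a → e ∉ S.Lt b := fun h h1 h2 =>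
      Set.disjoint_left.1 (S.disjoint_Lt_Ge h) h2 h1
    rw [pow_succ', mul_assoc, mul_assoc]
    refine hbuf v hv (S.Ge (S.l v - m) \ (ETo W ∩ S.Lt (S.l v)))
      (fun e he => ⟨S.Ge_mono (by linarith) he.1, fun h => nL le_rfl he.1 h.2⟩) _ _ ?_
    rintro z ⟨hz, lz⟩
    have e1 : S.l z - K₀ = S.l v := by linarith
    have h1 := hA z hz W (by rwa [e1])
    rw [e1] at h1
    obtain ⟨F', hF'⟩ : ∃ F', F' = S.E (S.l z - m) (S.l z + j) \ (ETo W ∩ S.Lt (S.l v)) := ⟨_, rfl⟩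
    rw [← hF'] at h1
    have f1 : F' ⊆ S.Ge (S.l z - m) := hF' ▸ fun e he => he.1.1
    have f2 : F' ⊆ S.Lt (S.l z + j) := hF' ▸ fun e he => he.1.2
    have f3 : F' ⊆ S.Ge (S.l v - m) \ (ETo W ∩ S.Lt (S.l v)) :=
      hF' ▸ fun e he => ⟨S.Ge_mono (by linarith) he.1.1, he.2⟩
    refine (mul_le_mul_left h1 _).trans ((expl_ge (itera_meas S F' z _ _)
      (Adp_Kl fun C => (C ∩ S.Top (S.l z + j)).Nonempty ∧ S.Phi ς (S.l z + j) C ≤ ofReal (M / 2))
      (fun ω hω => S.finite_of_Phi s0 s1.le (a := S.l z - m) (fun y hy => ?_)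
        (ne_top_of_le_ne_top ENNReal.ofReal_ne_top hω.2)) ?_).trans
      (measure_mono Set.inter_subset_right))
    · rcases Geo.Cn_Ge f1 hy with rfl | h
      · linarith
      · exact h.2
    rintro ω ⟨⟨y, y1, y2⟩, hω⟩
    obtain ⟨u, w, u1, -, u2, u3⟩ := S.up' y
    have y3 : S.l z + j ≤ S.l y := y2
    have u4 : S.l y ≤ S.l u := by rw [u3]; exact le_add_of_nonneg_right (Nat.cast_nonneg _)
    refine ⟨Rch G ((S.Ge (S.l v - m) \ (ETo W ∩ S.Lt (S.l v))) \ (F' ∩ ETo (Kl G F' z ω))) y _,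
      Rch_FU.measurableSet, fun a b h => Rch_dep fun e he => h e he.2, ?_,
      fun ω' _ h2 h3 => Rch_trans (Cn_mono f3 (show y ∈ Kl G F' z ω' from h2 ▸ y1))
        (Rch_mono Set.sdiff_subset subset_rfl h3)⟩
    refine le_trans (mul_le_mul_right ((ih u u1 (W ∪ Kl G F' z ω) ?_).trans (rch_mono ?_
      (S.Top_mono (by push_cast; linarith)))) _) (harris_walk_rch w u2 fun e he => ?_)
    · refine (S.Phi_union_le _ _ _ _).trans ((add_le_add (b := ofReal (M / 2)) ?_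
        ((S.Phi_anti s0 s1.le (by linarith) _).trans hω)).trans_eq ?_)
      · refine (S.Phi_anti s0 s1.le (t := S.l v + K₀) (by linarith) _).trans ?_
        rw [S.Phi_shift s0 (S.l v), add_sub_cancel_left]
        refine (mul_le_mul' (ENNReal.ofReal_le_ofReal hK) hW).trans_eq ?_
        rw [← ENNReal.ofReal_mul (by norm_num)]
        congr 1
        ring
      · rw [← ENNReal.ofReal_add (by linarith) (by linarith), add_halves]
    · rintro e ⟨e2, e3⟩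
      refine ⟨⟨S.Ge_mono (by linarith) e2, ?_⟩, ?_⟩
      · rintro ⟨⟨x, x1, x2⟩, h⟩
        exact e3 ⟨⟨x, x1, .inl x2⟩, S.Lt_mono (by linarith) h⟩
      · rintro ⟨h, x, x1, x2⟩
        exact e3 ⟨⟨x, x1, .inr x2⟩, S.Lt_mono (by linarith) (f2 h)⟩
    · have h := (S.tight_edges w u3 e he).1
      exact ⟨⟨S.Ge_mono (by linarith) h, fun h' => nL (by linarith) h h'.2⟩,
        fun h' => nL y3 h (f2 h'.1)⟩

theorem Geo.iter_first (S : Geo G) (s0 : 0 < ς) (s1 : ς < 1) {m j K₀ M H B : ℝ} (j0 : 0 ≤ j)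
    (B1 : 1 ≤ B) (hB : S.GB p ς H B) (hH : m + j ≤ H) (h1 : B * M * ς ^ K₀ ≤ 1 / 4)
    (h2 : 8 * B ^ 3 / ς ≤ M) (h3 : ofReal (ς ^ j) ≤ S.PiO p m j) {z : V} (hz : S.O z) (W : Set V)
    (hW : S.Phi ς (S.l z - K₀) W ≤ ofReal M) : S.PiO p m j / 2 ≤ mu V p {ω |
      (Kl G (S.E (S.l z - m) (S.l z + j) \ (ETo W ∩ S.Lt (S.l z - K₀))) z ω ∩
        S.Top (S.l z + j)).Nonempty ∧ S.Phi ς (S.l z + j)
          (Kl G (S.E (S.l z - m) (S.l z + j) \ (ETo W ∩ S.Lt (S.l z - K₀))) z ω) ≤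
            ofReal (M / 2)} := by
  have hs := Real.rpow_pos_of_pos s0 j
  have M0 : 0 < M := lt_of_lt_of_le (by positivity) h2
  have a1 := rch_coll (G := G) (p := p) (F := S.E (S.l z - m) (S.l z + j)) (z := z)
    (Y := S.Top (S.l z + j)) W (S.Lt (S.l z - K₀))
  rw [S.PiO_eq hz] at a1
  have a2 : ∑' w, W.indicator (fun w => rch G p (S.E (S.l z - m) (S.l z + j)) w
      (S.Top (S.l z + j))) w ≤ ofReal (ς ^ j / 4) := by
    calc _ ≤ ∑' w, ofReal B * W.indicator (fun w => ofReal (ς ^ (S.l z + j - S.l w))) w := by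
          refine ENNReal.tsum_le_tsum fun w => ?_
          by_cases hw : w ∈ W
          · rw [Set.indicator_of_mem hw, Set.indicator_of_mem hw,
              ← ENNReal.ofReal_mul (by linarith)]
            exact hB.fb s0 s1.le _ w _ _ le_rfl (by linarith)
          · simp [hw]
      _ = ofReal B * (ofReal (ς ^ (K₀ + j)) * S.Phi ς (S.l z - K₀) W) := by
          rw [ENNReal.tsum_mul_left, show K₀ + j = S.l z + j - (S.l z - K₀) by ring,
            ← S.Phi_shift s0]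
          rfl
      _ ≤ ofReal B * (ofReal (ς ^ (K₀ + j)) * ofReal M) := by gcongr
      _ ≤ _ := by
          rw [← ENNReal.ofReal_mul (by positivity), ← ENNReal.ofReal_mul (by linarith),
            Real.rpow_add s0]
          refine ENNReal.ofReal_le_ofReal ?_
          nlinarith
  have a3 : mu V p {ω | ofReal (M / 2) ≤ cnt (S.Cl (S.l z - m) z (S.l z + j) ω ∩
      S.Top (S.l z + j)) * S.Phi ς (S.l z + j) (S.Cl (S.l z - m) z (S.l z + j) ω)} ≤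
      ofReal (ς ^ j / 4) := by
    have b1 := (mul_meas_ge_le_lintegral (μ := mu V p) ((measurable_tsum_Kl (G := G)
      (F := S.E (S.l z - m) (S.l z + j)) (x := z) (S.Top (S.l z + j)) 1).mul
      (S.measurable_Phi ς (S.l z + j) _ z)) (ofReal (M / 2))).trans
      (hB.phi2 s0 s1.le z (by linarith) (by linarith))
    refine (ENNReal.mul_le_mul_iff_right (ENNReal.ofReal_pos.2 (half_pos M0)).ne'
      ENNReal.ofReal_ne_top).1 (b1.trans ?_)
    rw [← ENNReal.ofReal_mul (by linarith), add_sub_cancel_left]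
    refine ENNReal.ofReal_le_ofReal ?_
    rw [mul_div_right_comm]
    rw [mul_div_assoc] at h2
    nlinarith
  obtain ⟨F', hF'⟩ : ∃ F', F' = S.E (S.l z - m) (S.l z + j) \ (ETo W ∩ S.Lt (S.l z - K₀)) :=
    ⟨_, rfl⟩
  have f1 : F' ⊆ S.E (S.l z - m) (S.l z + j) := hF' ▸ Set.sdiff_subset
  rw [← hF'] at a1 ⊢
  have a4 : rch G p F' z (S.Top (S.l z + j)) ≤ mu V p {ω | (Kl G F' z ω ∩
      S.Top (S.l z + j)).Nonempty ∧ S.Phi ς (S.l z + j) (Kl G F' z ω) ≤ ofReal (M / 2)} +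
      ofReal (ς ^ j / 4) := by
    refine le_trans (measure_mono ?_) ((measure_union_le _ _).trans (add_le_add le_rfl a3))
    rintro ω ⟨y, y1, y2⟩
    rcases le_total (S.Phi ς (S.l z + j) (Kl G F' z ω)) (ofReal (M / 2)) with h | h
    · exact .inl ⟨⟨y, y2, y1⟩, h⟩
    · exact .inr ((h.trans (S.Phi_mono _ _ (Kl_mono f1))).trans
        (le_mul_of_one_le_left' (one_le_cnt ⟨y, Cn_mono f1 y2, y1⟩)))
  have a5 : ofReal (ς ^ j / 4) + ofReal (ς ^ j / 4) ≤ S.PiO p m j / 2 := by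
    rw [← ENNReal.ofReal_add (by positivity) (by positivity),
      show ς ^ j / 4 + ς ^ j / 4 = ς ^ j / 2 by ring, ENNReal.ofReal_div_of_pos two_pos,
      ENNReal.ofReal_ofNat]
    exact ENNReal.div_le_div_right h3 _
  have a6 : S.PiO p m j / 2 ≠ ⊤ :=
    ENNReal.div_ne_top (ne_top_of_le_ne_top ENNReal.one_ne_top rch_le_one) two_ne_zero
  refine (ENNReal.add_le_add_iff_right a6).1 ?_
  rw [ENNReal.add_halves]
  refine a1.trans ((add_le_add a4 a2).trans ?_)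
  rw [add_assoc]
  exact add_le_add le_rfl a5

end Pool.Agent.P.MP_3aa27f_pr.F
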