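import Pool.Agent.P.MP_3aa27f_pr.F.NeckI
import Pool.Agent.P.MP_3aa27f_pr.F.Sch

/-! The pattern kernel. -/

open MeasureTheory unitInterval SimpleGraph
open ENNReal (ofReal)
open scoped ENNReal

namespace Pool.Agent.P.MP_3aa27f_pr.F

variable {V : Type} {G : SimpleGraph V} [G.LocallyFinite] [Countable V] {S : Geo G} {p : I}

omit [Countable V] in
theorem Side.W_supp (Z : Side S) {v v' : V} (h : Z.W p v v' ≠ 0) :
    S.O v ∧ S.O v' ∧ S.l v' = S.l v + Z.h0 := by
  obtain ⟨ω, hω⟩ := nonempty_of_measure_ne_zero h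
  exact ⟨hω.1, hω.2.1, hω.2.2.1⟩

omit [Countable V] in
theorem Side.W_ge (Z : Side S) (v v' : V) :
    ofReal (min (p : ℝ) (1 - p) ^ (S.D * (Z.L0 + 1))) * Z.K v v' ≤ Z.W p v v' := by
  classical
  by_cases h0 : Z.K v v' = 0
  · rw [h0, mul_zero]; exact zero_le
  obtain ⟨a1, a2, a3, w, a4, a5⟩ := Z.supp v v' h0
  have k1 : Z.K v v' ≤ 1 := by
    rw [← Z.row v a1]
    exact ENNReal.le_tsum v'
  refine (mul_le_of_le_one_right' k1).trans ?_
  have c1 : w.support.toFinset.card ≤ Z.L0 + 1 := by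
    refine (List.toFinset_card_le _).trans ?_
    rw [Walk.length_support]
    omega
  have fin : (G.edgeSet ∩ ETo (w.support.toFinset : Set V)).Finite :=
    edges_touch_finite (Finset.finite_toSet _)
  have c2 : fin.toFinset.card ≤ S.D * (Z.L0 + 1) := by
    rw [← Set.ncard_eq_toFinset_card _ fin]
    exact (edges_touch_card S _).trans (Nat.mul_le_mul_left _ c1)
  refine (PM_cyl_ge p fin.toFinset (ind w.edges) c2).trans (measure_mono fun ω hω => ?_)
  have hω' : ∀ a b, G.Adj a b → a ∈ w.support → ω s(a, b) = ind w.edges s(a, b) :=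
    fun a b hab ha => hω _ ((Set.Finite.mem_toFinset _).2 ⟨hab, a, by simp, by simpa using ha⟩)
  have sub : S.Cl (S.l v) v (S.l v + Z.h0) ω ⊆ (w.support.toFinset : Set V) := by
    refine Kl_sub_of_closed (by simp) fun a ha b hab _ h1 => ?_
    rw [hω' a b hab (by simpa using ha), ind_true] at h1
    simpa using w.snd_mem_support_of_mem_edges h1
  have low : ∀ z ∈ w.support, S.l v ≤ S.l z := fun z hz => by
    rcases (a5 z hz).1 with rfl | h1
    · exact le_rfl
    · linarith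
  refine ⟨a1, a2, a3, ⟨w, fun e he => ?_⟩, fun u hu => ?_, ?_⟩
  · induction e using Sym2.ind with
    | h a b =>
      have ha := w.fst_mem_support_of_mem_edges he
      have hb := w.snd_mem_support_of_mem_edges he
      have hab : G.Adj a b := w.adj_of_mem_edges he
      refine ⟨⟨Geo.mem_Ge.2 ⟨low a ha, low b hb⟩, Geo.mem_Lt.2 ?_⟩, ?_⟩
      · rcases (a5 a ha).2 with rfl | h1
        · rcases (a5 b hb).2 with rfl | h2
          · exact absurd hab G.irrefl
          · exact Or.inr (a3 ▸ h2)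
        · exact Or.inl (a3 ▸ h1)
      · rw [hω' a b hab ha, ind_true]
        exact he
  · have hu' : u ∈ w.support := by simpa using sub hu
    refine ⟨(a5 u hu').1, fun h1 => ?_⟩
    rcases (a5 u hu').2 with h2 | h2
    · exact h2
    · linarith
  · refine (cnt_mono sub).trans ?_
    rw [cnt_finset, ← Nat.cast_succ, ENNReal.ofReal_natCast]
    exact_mod_cast c1

theorem Side.W_facts (Z : Side S) (p0 : 0 < (p : ℝ)) (p1 : (p : ℝ) < 1) :
    ∃ w₀ c : ℝ, 0 < c ∧ c < 1 ∧ c ≤ w₀ ∧ w₀ ≤ 1 ∧ (∀ v, S.O v → ∑' v', Z.W p v v' = ofReal w₀) ∧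
      NB (Z.W p) (ofReal ((1 - c) * w₀ * S.b ^ ((Z.h0 : ℝ) / 2))) := by
  have h1 : ∑' v', Z.W p S.o v' ≤ 1 := by
    unfold Side.W
    rw [← measure_iUnion (fun u u' hu => Set.disjoint_left.2 fun ω a b => hu (Z.Pat_unique a b))
      fun u => Z.measurableSet_Pat S.o u]
    exact prob_le_one
  have h2 : ∑' v', Z.W p S.o v' ≠ ⊤ := ne_top_of_le_ne_top ENNReal.one_ne_top h1
  have h3 : (∑' v', Z.W p S.o v').toReal ≤ 1 := by
    simpa using ENNReal.toReal_mono ENNReal.one_ne_top h1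
  have m0 : 0 < min (p : ℝ) (1 - p) := lt_min p0 (by linarith)
  have c0 : 0 < min (p : ℝ) (1 - p) ^ (S.D * (Z.L0 + 1)) := pow_pos m0 _
  obtain ⟨g1, g2⟩ := Z.gain (Z.W_inv p) (fun x y h => Z.W_supp h) c0.le ENNReal.toReal_nonneg h3
    (ENNReal.ofReal_toReal h2).symm Z.W_ge
  have r0 := Z.ρ0
  have r1 := Z.ρ1
  refine ⟨_, _, mul_pos c0 (by linarith : 0 < 1 - Z.ρ), by nlinarith, by nlinarith, h3,
    fun v hv => ?_, g2⟩
  rw [Geo.rowO (Z.W_inv p) hv, ENNReal.ofReal_toReal h2]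

end Pool.Agent.P.MP_3aa27f_pr.F
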