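import Pool.Agent.P.MP_3aa27f_pr.F.NeckB
import Pool.Agent.P.MP_3aa27f_pr.F.PatW

/-! The norm of the crossing kernel. -/

open MeasureTheory unitInterval SimpleGraph
open ENNReal (ofReal)
open scoped ENNReal

namespace Pool.Agent.P.MP_3aa27f_pr.F

variable {V : Type} {G : SimpleGraph V} [G.LocallyFinite] [Countable V] {S : Geo G} {p : I}
variable (Z : Side S)

theorem necke_avg {n : ℕ} (n1 : 1 ≤ n) {a : ℝ≥0∞} {e : ℕ → ℝ≥0∞} {u l Q : ℝ} {t q : ℕ → ℝ}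
    (u0 : 0 ≤ u) (l0 : 0 ≤ l) (Q0 : 0 ≤ Q) (h : ∀ i < n, a ≤ ofReal u + ofReal (t i) * e i)
    (ht : ∀ i < n, t i ≤ l * q i) (hQ : ∑ i ∈ Finset.range n, e i * ofReal (q i) ≤ ofReal Q) :
    a ≤ ofReal (u + l * Q / n) := by
  have n0 : (0 : ℝ) < n := by exact_mod_cast n1
  have n0' : (n : ℝ≥0∞) ≠ 0 := by exact_mod_cast (by omega : n ≠ 0)
  refine (ENNReal.mul_le_mul_iff_right n0' (ENNReal.natCast_ne_top n)).1 ?_
  have h1 : (n : ℝ≥0∞) * a ≤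
      ∑ i ∈ Finset.range n, (ofReal u + ofReal l * (e i * ofReal (q i))) := by
    have : (n : ℝ≥0∞) * a = ∑ _i ∈ Finset.range n, a := by simp
    rw [this]
    refine Finset.sum_le_sum fun i hi => (h i (Finset.mem_range.1 hi)).trans
      (add_le_add le_rfl ?_)
    rw [mul_comm (e i), ← mul_assoc, ← ENNReal.ofReal_mul l0]
    exact mul_le_mul_left (ENNReal.ofReal_le_ofReal (ht i (Finset.mem_range.1 hi))) _
  refine h1.trans ?_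
  rw [Finset.sum_add_distrib, ← Finset.mul_sum, Finset.sum_const, Finset.card_range, nsmul_eq_mul,
    ENNReal.ofReal_add u0 (by positivity), mul_add]
  refine add_le_add le_rfl ((mul_le_mul_right hQ _).trans (le_of_eq ?_))
  rw [← ENNReal.ofReal_mul l0, ← ENNReal.ofReal_natCast, ← ENNReal.ofReal_mul n0.le]
  congr 1
  field_simp

omit [Countable V] in
theorem necke_r {P : Par} {n : ℕ} {K₀ : ℝ} (ok : Z.Ok P n K₀) :
    0 ≤ P.s ∧ ∀ i < n, P.s - i * P.H - P.k₁ - P.k * Z.h0 ≤ P.s - i * P.H - 1 ∧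
      P.s - i * P.H - P.k₁ - P.k * Z.h0 ≤ P.s := by
  have a : (0 : ℝ) ≤ P.k * Z.h0 := by positivity
  have b : (2 : ℝ) ≤ P.k₁ := by exact_mod_cast le_trans (Nat.le_add_left 2 _) ok.k2
  have c : (0 : ℝ) ≤ S.n0 := by positivity
  have H0 : 0 ≤ P.H := by linarith [ok.hH, ok.K0]
  refine ⟨le_trans (by positivity) ok.hn, fun i _ => ⟨by linarith, ?_⟩⟩
  have : (0 : ℝ) ≤ i * P.H := by positivity
  linarith

omit [Countable V] in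
theorem necke_bs {ς : ℝ} (s0 : 0 < ς) (sb : ς ^ 2 * S.b ≤ 1) {s : ℝ} (hs : 0 ≤ s) :
    S.b ^ (s / 2) * ς ^ s ≤ 1 := by
  refine (mul_le_mul_of_nonneg_right (sch_pow s0 sb hs) (Real.rpow_nonneg s0.le _)).trans ?_
  rw [← Real.rpow_add s0]; simp

theorem necke_nn {P : Par} {n : ℕ} {K₀ : ℝ} (ok : Z.Ok P n K₀) {ς : ℝ} (s0 : 0 < ς)
    (sb : ς ^ 2 * S.b ≤ 1) {u : ℝ} (u0 : 0 ≤ u)
    (h : ∀ x, ∑' y, Z.nnK P p n x y ≤ ofReal (u * ς ^ P.s)) :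
    NB (Z.nnK P p n) (ofReal (S.CM * S.b ^ (1 / 2 : ℝ) * u)) := by
  have s0' := (necke_r Z ok).1
  have b0 := sch_b0 S
  have C0 : 0 ≤ S.CM := zero_le_one.trans S.one_le_CM
  refine (Geo.schur_win (Z.nnK_inv P p n) (r := P.s + 1) (fun x y hxy => ?_) h).mono
    (fun _ _ => le_rfl) ?_
  · have h1 : mu V p (Z.NoNeck P x n ∩ Cn G (S.E (S.l x - P.m) (S.l x + P.s)) x y) ≠ 0 :=
      fun h0 => hxy (Set.indicator_apply_eq_zero.2 fun _ => h0)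
    obtain ⟨ω, -, hω⟩ := nonempty_of_measure_ne_zero h1
    rcases Geo.Cn_Lt Set.inter_subset_right hω with rfl | h2
    · linarith
    · linarith [h2.2]
  · rw [← ENNReal.ofReal_mul (by positivity)]
    refine ENNReal.ofReal_le_ofReal ?_
    have e : S.CM * S.b ^ ((P.s + 1) / 2) * (u * ς ^ P.s) =
        S.CM * S.b ^ (1 / 2 : ℝ) * u * (S.b ^ (P.s / 2) * ς ^ P.s) := by
      rw [add_div, Real.rpow_add b0]; ring
    rw [e]
    exact mul_le_of_le_one_right (by positivity) (necke_bs s0 sb s0')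

theorem necke_ent (P : Par) {R : Finset V} (hR : ∀ v, ∃ g ∈ S.Γ, g v ∈ R) (i : ℕ) :
    NB (Z.entK P p i) (ofReal (S.CM * S.b ^ ((i * P.H + P.k₁ + S.n0) / 2)) *
      ∑ x ∈ R, ∑' v, Z.entK P p i x v) := by
  refine Geo.schur_win (Z.entK_inv P p i) (fun x v h => ?_) fun x => ?_
  · obtain ⟨ω, -, hω⟩ := nonempty_of_measure_ne_zero h
    linarith [hω.2.2.1]
  · obtain ⟨g, hg, hx⟩ := hR x
    rw [← (Z.entK_inv P p i).row hg x]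
    exact Finset.single_le_sum (f := fun x => ∑' v, Z.entK P p i x v) (fun _ _ => zero_le) hx

theorem necke_neck {P : Par} {n : ℕ} {K₀ : ℝ} (ok : Z.Ok P n K₀) {ς : ℝ} (s0 : 0 < ς)
    (sb : ς ^ 2 * S.b ≤ 1) {R : Finset V} (hR : ∀ v, ∃ g ∈ S.Γ, g v ∈ R) {w c γ B T : ℝ}
    (w0 : 0 ≤ w) (c1 : c ≤ 1) (γ0 : 0 < γ) (B0 : 0 ≤ B) (T0 : 0 ≤ T)
    (hW : NB (Z.W p) (ofReal ((1 - c) * w * S.b ^ ((Z.h0 : ℝ) / 2))))
    (hT : ∀ r ≤ P.s, NB (S.tailK p (P.m + P.s) r) (ofReal (T * B * ς ^ r * S.b ^ (r / 2))))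
    (hA : ∀ x, ∑ i ∈ Finset.range n, (∑' v, Z.entK P p i x v) *
      ofReal (w ^ P.k * γ * ς ^ (P.s - i * P.H - P.k₁ - P.k * Z.h0)) ≤ ofReal (B * ς ^ P.s)) :
    NB (fun x y => ∑ i ∈ Finset.range n, kmul (Z.entK P p i) (kmul (kpow (Z.W p) P.k)
      (S.tailK p (P.m + P.s) (P.s - i * P.H - P.k₁ - P.k * Z.h0))) x y)
      (ofReal (R.card * S.CM * T * S.b ^ ((S.n0 : ℝ) / 2) * ((1 - c) ^ P.k * B ^ 2 / γ))) := by
  obtain ⟨s0', hr⟩ := necke_r Z ok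
  have b0 := sch_b0 S
  have C0 : 0 ≤ S.CM := zero_le_one.trans S.one_le_CM
  have c0 : 0 ≤ 1 - c := sub_nonneg.2 c1
  refine (NB.sum (Finset.range n) fun i hi => (necke_ent Z P hR i).mul ((hW.pow P.k).mul
    (hT _ (hr i (Finset.mem_range.1 hi)).2))).mono (fun _ _ => le_rfl) ?_
  set L : ℝ := S.CM * T * B * (1 - c) ^ P.k * S.b ^ ((P.s + S.n0) / 2) / γ with hL
  have L0 : 0 ≤ L := by positivity
  have e : ∀ i : ℕ, ofReal (S.CM * S.b ^ ((i * P.H + P.k₁ + S.n0) / 2)) *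
      (∑ x ∈ R, ∑' v, Z.entK P p i x v) *
        (ofReal ((1 - c) * w * S.b ^ ((Z.h0 : ℝ) / 2)) ^ P.k *
          ofReal (T * B * ς ^ (P.s - i * P.H - P.k₁ - P.k * Z.h0) *
            S.b ^ ((P.s - i * P.H - P.k₁ - P.k * Z.h0) / 2))) =
      ofReal L * ∑ x ∈ R, (∑' v, Z.entK P p i x v) *
        ofReal (w ^ P.k * γ * ς ^ (P.s - i * P.H - P.k₁ - P.k * Z.h0)) := fun i => by
    rw [← Finset.sum_mul, mul_right_comm, mul_comm (∑ x ∈ R, _), ← mul_assoc (ofReal L),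
      ← ENNReal.ofReal_pow (by positivity), ← ENNReal.ofReal_mul (by positivity),
      ← ENNReal.ofReal_mul (by positivity), ← ENNReal.ofReal_mul L0]
    congr 2
    have e1 : S.b ^ ((P.s + S.n0) / 2) = S.b ^ ((i * P.H + P.k₁ + S.n0) / 2) *
        (S.b ^ ((Z.h0 : ℝ) / 2)) ^ P.k * S.b ^ ((P.s - i * P.H - P.k₁ - P.k * Z.h0) / 2) := by
      rw [← Real.rpow_natCast, ← Real.rpow_mul b0.le, ← Real.rpow_add b0, ← Real.rpow_add b0]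
      congr 1; ring
    rw [hL, e1, mul_pow, mul_pow]
    field_simp
  simp only [e]
  rw [← Finset.mul_sum, Finset.sum_comm]
  refine (mul_le_mul_right (Finset.sum_le_sum fun x _ => hA x) _).trans ?_
  rw [Finset.sum_const, nsmul_eq_mul, ← ENNReal.ofReal_natCast,
    ← ENNReal.ofReal_mul (by positivity), ← ENNReal.ofReal_mul L0]
  refine ENNReal.ofReal_le_ofReal ?_
  have e2 : L * (R.card * (B * ς ^ P.s)) = R.card * S.CM * T * S.b ^ ((S.n0 : ℝ) / 2) *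
      ((1 - c) ^ P.k * B ^ 2 / γ) * (S.b ^ (P.s / 2) * ς ^ P.s) := by
    rw [hL, add_div, Real.rpow_add b0]; ring
  rw [e2]
  exact mul_le_of_le_one_right (by positivity) (necke_bs s0 sb s0')

theorem necke_num {a₁ a₂ a₃ X₁ X₂ X₃ X₄ Y₁ Y₄ : ℝ} (h₁ : 0 ≤ a₁) (h₂ : 0 ≤ a₂) (h₃ : 0 ≤ a₃)
    (x₁ : 0 ≤ X₁) (x₂ : 0 ≤ X₂) (x₃ : 0 ≤ X₃) (x₄ : 0 ≤ X₄) (y₁ : Y₁ ≤ X₁) (y₄ : Y₄ ≤ a₃ * X₄) :
    a₂ * (X₂ + X₃) + Y₄ + a₁ * Y₁ ≤ (1 + a₁ + a₂ + a₃) * (X₁ + X₂ + X₃ + X₄) := by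
  have := mul_le_mul_of_nonneg_left y₁ h₁
  nlinarith [mul_nonneg h₁ x₂, mul_nonneg h₁ x₃, mul_nonneg h₁ x₄, mul_nonneg h₂ x₁,
    mul_nonneg h₂ x₄, mul_nonneg h₃ x₁, mul_nonneg h₃ x₂, mul_nonneg h₃ x₃]

theorem Side.neckE {ς : ℝ} (p0 : 0 < (p : ℝ)) (p1 : (p : ℝ) < 1) (s0 : 0 < ς) (s1 : ς < 1)
    (sb : ς ^ 2 * S.b ≤ 1) : ∃ c C : ℝ, 0 < c ∧ c < 1 ∧ 1 ≤ C ∧
      ∀ (P : Par) (n : ℕ) (K₀ B Γ M₁ M₀ γ : ℝ), P.ς = ς → Z.Ok P n K₀ → 1 ≤ n → 1 ≤ B → 1 ≤ Γ →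
        1 ≤ M₁ → 1 ≤ M₀ → 0 < γ → S.BB p ς (P.m + 2 * P.s + 1) ⊤ B → S.GB p ς (P.m + P.s) Γ →
        M₁ * B * ς ^ ((P.k₁ : ℝ) - 1) ≤ 1 / 4 → P.M = M₀ + P.k₁ + S.n0 + 1 + 4 * M₁ * Γ →
        Z.EscH P p K₀ γ → NB (S.kap p P.m P.s) (ofReal (C * ((1 - c) ^ P.k * B ^ 2 / γ +
          B ^ 4 / M₁ + Γ ^ 3 * B / M₀ + M₁ * B ^ 2 / (n * γ * c ^ (P.k + P.k₁))))) := by
  obtain ⟨w, cW, c0, c1, cw, -, hw, hW⟩ := Z.W_facts p0 p1
  obtain ⟨CB, CB1, hB⟩ := Z.neckB s0 s1 sb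
  obtain ⟨T, T1, hT⟩ := S.tailK_norm s0 s1
  obtain ⟨R, hR⟩ := S.reps
  have b0 := sch_b0 S
  have C0 : 0 ≤ S.CM := zero_le_one.trans S.one_le_CM
  have w0 : 0 < w := c0.trans_le cw
  have μ0 : 0 < min (p : ℝ) (1 - p) ^ S.D := pow_pos (lt_min p0 (sub_pos.2 p1)) _
  generalize hμ : min (p : ℝ) (1 - p) ^ S.D = μ at μ0
  have k0 : 0 < min cW μ := lt_min c0 μ0
  have a1 : 0 ≤ R.card * S.CM * T * S.b ^ ((S.n0 : ℝ) / 2) := by positivity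
  have a2 : 0 ≤ S.CM * S.b ^ (1 / 2 : ℝ) * CB := by positivity
  have a3 : 0 ≤ S.CM * S.b ^ (1 / 2 : ℝ) * (2 / μ ^ (S.n0 + 1)) := by positivity
  refine ⟨min cW μ, 1 + R.card * S.CM * T * S.b ^ ((S.n0 : ℝ) / 2) +
    S.CM * S.b ^ (1 / 2 : ℝ) * CB + S.CM * S.b ^ (1 / 2 : ℝ) * (2 / μ ^ (S.n0 + 1)), k0,
    (min_le_left _ _).trans_lt c1, by linarith, ?_⟩
  intro P n K₀ B Γ M₁ M₀ γ hς ok n1 B1 Γ1 M1 M0 γ0 bb gb hk hM esc
  obtain ⟨s0', hr⟩ := necke_r Z ok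
  have n0 : (0 : ℝ) < n := by exact_mod_cast n1
  have hA : ∀ x, ∑ i ∈ Finset.range n, (∑' v, Z.entK P p i x v) *
      ofReal (w ^ P.k * γ * ς ^ (P.s - i * P.H - P.k₁ - P.k * Z.h0)) ≤ ofReal (B * ς ^ P.s) :=
    fun x => by
      have h1 := Z.neckA ok w0.le γ0.le hw esc x
      have h2 := bb.fb s0 s1.le B1 P.m x (S.l x - P.m) (S.l x + P.s) (by linarith) (by linarith)
      rw [hς] at h1
      rw [add_sub_cancel_left] at h2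
      exact h1.trans h2
  have h2 := necke_neck Z ok s0 sb hR w0.le c1.le γ0 (by linarith) (by linarith) hW
    (fun r hr => hT p _ r B (by linarith) (bb.mono s0 (by linarith) le_rfl le_rfl)) hA
  have h1 := necke_nn Z (p := p) ok s0 sb (u := CB * (B ^ 4 / M₁ + Γ ^ 3 * B / M₀) +
      2 * M₁ * B / (μ ^ (P.k₁ + S.n0 + 1) * (w ^ P.k * γ)) * B / n) (by positivity) fun x => by
    refine (necke_avg n1 (by positivity) (l := 2 * M₁ * B / (μ ^ (P.k₁ + S.n0 + 1) * (w ^ P.k * γ)))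
      (by positivity) (by positivity) (fun i hi => hB p P n K₀ B Γ M₁ M₀ p0 p1 hς ok B1 Γ1 M1 M0
        (bb.mono s0 (by linarith) le_rfl le_rfl) gb hk hM i hi x) (fun i hi => ?_)
          (hA x)).trans (le_of_eq ?_)
    · rw [pow_mul, hμ]
      have e : 2 * M₁ * B / (μ ^ (P.k₁ + S.n0 + 1) * (w ^ P.k * γ)) *
          (w ^ P.k * γ * ς ^ (P.s - i * P.H - P.k₁ - P.k * Z.h0)) =
          2 * M₁ * B * ς ^ (P.s - i * P.H - P.k₁ - P.k * Z.h0) / μ ^ (P.k₁ + S.n0 + 1) := by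
        field_simp
      rw [e]
      gcongr 2 * M₁ * B * ?_ / _
      exact Real.rpow_le_rpow_of_exponent_ge s0 s1.le (hr i hi).1
    · congr 1; ring
  refine (h1.add h2).mono (Z.neckC ok) ?_
  rw [← ENNReal.ofReal_add (by positivity) (by have := sub_nonneg.2 c1.le; positivity)]
  refine ENNReal.ofReal_le_ofReal ?_
  have k1 : 0 ≤ 1 - min cW μ := sub_nonneg.2 ((min_le_left _ _).trans c1.le)
  rw [mul_add, ← mul_assoc]
  refine necke_num a1 a2 a3 (by positivity) (by positivity) (by positivity) (by positivity) ?_ ?_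
  · have := sub_nonneg.2 c1.le
    gcongr
    exact min_le_left _ _
  · rw [mul_assoc (S.CM * S.b ^ (1 / 2 : ℝ))]
    refine mul_le_mul_of_nonneg_left ?_ (by positivity)
    have e : 2 * M₁ * B / (μ ^ (P.k₁ + S.n0 + 1) * (w ^ P.k * γ)) * B / n =
        2 / μ ^ (S.n0 + 1) * (M₁ * B ^ 2 / (n * γ * (w ^ P.k * μ ^ P.k₁))) := by
      rw [add_assoc, pow_add]; field_simp
    rw [e, pow_add (min cW μ)]
    gcongr
    · exact (min_le_left _ _).trans cw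
    · exact min_le_right _ _

end Pool.Agent.P.MP_3aa27f_pr.F
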