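import Pool.Agent.P.MP_3aa27f_pr.F.Num7A

/-! Choice of the parameters. -/

open MeasureTheory unitInterval SimpleGraph
open ENNReal (ofReal)
open scoped ENNReal

namespace Pool.Agent.P.MP_3aa27f_pr.F


theorem num7 {C c ς : ℝ} (n₀ h₀ L₀ : ℕ) (C1 : 1 ≤ C) (c0 : 0 < c) (c1 : c < 1) (s0 : 0 < ς)
    (s1 : ς < 1) {Bd : ℝ → ℝ → Prop} {Es : ℝ → ℝ → ℝ → Prop}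
    (hB : ∀ ε : ℝ, 0 < ε → ∃ C', 1 ≤ C' ∧ ∀ h, 0 ≤ h → Bd h (C' * (h + 1) ^ ε))
    (hE : ∀ ε : ℝ, 0 < ε → ∃ C', 1 ≤ C' ∧ ∀ X, 1 ≤ X →
      ∃ K₀, 0 ≤ K₀ ∧ K₀ ≤ C' * X ^ ε ∧ Es X K₀ (C' * X ^ ε)) :
    ∃ (s B Γ η M₁ M₀ X K₀ Y H : ℝ) (k k₁ n N : ℕ), 1 ≤ s ∧ 1 ≤ B ∧ Bd (20 * (s + n₀ + 1) ^ 2) B ∧
      Γ = C * (20 * (s + n₀ + 1) ^ 2) ^ 2 * B ^ 2 ∧ η = 1 / (16 * C ^ 2 * B ^ 3) ∧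
      M₁ = 16 * C * B ^ 4 ∧ M₀ = 16 * C * Γ ^ 3 * B ∧ n₀ + 2 ≤ k₁ ∧
      M₁ * B * ς ^ ((k₁ : ℝ) - 1) ≤ 1 / 4 ∧
      B * (M₀ + k₁ + n₀ + 1 + 4 * M₁ * Γ + k * (L₀ + 1)) ≤ X * η ∧ 0 ≤ K₀ ∧ 0 < Y ∧ Es X K₀ Y ∧
      C * ((1 - c) ^ k * B ^ 2 / (η / Y)) ≤ 1 / 16 ∧ (k₁ : ℝ) + n₀ + k * h₀ + K₀ ≤ H ∧ 1 ≤ n ∧
      n * H ≤ s ∧ C * (M₁ * B ^ 2 / (n * (η / Y) * c ^ (k + k₁))) ≤ 1 / 16 ∧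
      N * (s + n₀ + 1) ≤ s ^ 2 ∧ 8 * C * Γ ≤ 4 ^ N :=
  num7_real n₀ h₀ L₀ C1 c0 c1 s0 s1 hB hE

end Pool.Agent.P.MP_3aa27f_pr.F
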