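import Pool.Agent.P.MP_3aa27f_pr.F.Sm
import Pool.Agent.P.MP_3aa27f_pr.F.Sch

/-! Small crossing probability gives a small norm. -/

open MeasureTheory unitInterval SimpleGraph
open ENNReal (ofReal)
open scoped ENNReal

namespace Pool.Agent.P.MP_3aa27f_pr.F

variable {V : Type} {G : SimpleGraph V} [G.LocallyFinite] [Countable V] {S : Geo G} {p : I}
variable {ς : ℝ}

omit [Countable V] in
theorem small_supp {m s : ℝ} (s0 : 0 ≤ s) {x y : V} (h : S.kap p m s x y ≠ 0) :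
    y ∈ S.Win (S.l x + s) := by
  have h1 : y ∈ S.Top (S.l x + s) := by
    by_contra hy
    exact h (Set.indicator_of_notMem hy _)
  have h2 : tau G p (S.E (S.l x - m) (S.l x + s)) x y ≠ 0 := by
    simpa only [Geo.kap, Set.indicator_of_mem h1] using h
  obtain ⟨ω, hω⟩ := nonempty_of_measure_ne_zero h2
  refine ⟨h1, ?_⟩
  rcases Geo.Cn_Lt (S := S) (t := S.l x + s) Set.inter_subset_right hω with h3 | h3
  · rw [h3]; linarith
  · exact h3.2.le

theorem small_rch (m : ℝ) {r : ℝ} (m0 : 0 ≤ m) (r0 : 0 ≤ r) (x : V) :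
    ofReal ((p : ℝ) ^ S.n0) * rch G p (S.E (S.l x - m) (S.l x + (r + S.n0))) x
      (S.Top (S.l x + (r + S.n0))) ≤ S.PiO p (m + S.n0) r := by
  obtain ⟨u, w, hu, -, h2, h3⟩ := S.up' x
  have h4 : (w.length : ℝ) ≤ S.n0 := by exact_mod_cast h2
  have h5 := S.tight_edges' w h3 (a := S.l x - m) (c := S.l x + (r + S.n0)) (by linarith)
    (by linarith)
  refine (harris_walk_rch w.reverse (by simpa using h2) (by simpa using h5)).trans ?_
  rw [← Geo.PiO_eq hu]
  refine (measure_mono (S.Rch_first (c' := S.l u + r) (by linarith))).trans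
    (rch_mono (fun e he => ⟨S.Ge_mono (by linarith) he.1.1, he.2⟩) le_rfl)

theorem Geo.small (S : Geo G) (p0 : 0 < (p : ℝ)) (s0 : 0 < ς) (s1 : ς < 1)
    (sb : ς ^ 2 * S.b ≤ 1) : ∃ C : ℝ, 1 ≤ C ∧ ∀ m r B η : ℝ, 0 ≤ m → 0 ≤ r → 1 ≤ B → 0 ≤ η →
      S.BB p ς (m + r + S.n0 + 1) ⊤ B → S.PiO p (m + S.n0) r ≤ ofReal (η * ς ^ r) →
      NB (S.kap p m (r + S.n0)) (ofReal (C * √(η * B ^ 3))) := by
  obtain ⟨C0, C1, hC⟩ := S.sm s0 s1 sb
  have b0 : 0 < S.b := lt_trans one_pos S.one_lt_b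
  have CM0 : 0 ≤ S.CM := le_trans zero_le_one S.one_le_CM
  set q : ℝ := (p : ℝ) ^ S.n0 with hq
  have q0 : 0 < q := by positivity
  set A := C0 / (q * ς ^ (S.n0 : ℝ)) with hA
  have A0 : 0 ≤ A := by positivity
  refine ⟨max 1 (S.CM * S.b ^ (1 / 2 : ℝ) * √A), le_max_left _ _, ?_⟩
  intro m r B η m0 r0 B1 η0 hB hP
  have B0 : 0 ≤ B := by linarith
  have n0 : (0 : ℝ) ≤ S.n0 := Nat.cast_nonneg _
  set s := r + S.n0 with hs
  have hs0 : 0 ≤ s := by linarith
  have hrow : ∀ x, ∑' y, S.kap p m s x y ≤ ofReal (ς ^ s * (√A * √(η * B ^ 3))) := by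
    intro x
    set F := S.E (S.l x - m) (S.l x + s) with hF
    set W := S.Win (S.l x + s) with hW
    have h1 : ∑' y, S.kap p m s x y ≤ ∫⁻ ω, cnt (W ∩ {y | ω ∈ CnL G F ⊤ x y}) ∂mu V p := by
      rw [lintegral_cntL]
      refine ENNReal.tsum_le_tsum fun y => ?_
      by_cases hy : S.kap p m s x y = 0
      · rw [hy]; exact zero_le
      · rw [Set.indicator_of_mem (small_supp hs0 hy), tauL_top]
        exact Set.indicator_le_self _ _ y
    have h2 := sq_le_meas_mul (mu V p) (measurable_cntL (G := G) (F := F) (R := ⊤) (x := x) W)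
    have h3 : mu V p {ω | cnt (W ∩ {y | ω ∈ CnL G F ⊤ x y}) ≠ 0} ≤
        rch G p F x (S.Top (S.l x + s)) := by
      refine measure_mono fun ω hω => ?_
      obtain ⟨y, hy⟩ : (W ∩ {y | ω ∈ CnL G F ⊤ x y}).Nonempty := by
        rw [Set.nonempty_iff_ne_empty]
        intro h0
        exact hω (by rw [h0, cnt_empty])
      exact ⟨y, hy.1.1, CnL_sub hy.2⟩
    have h4 : rch G p F x (S.Top (S.l x + s)) ≤ ofReal (η * ς ^ r / q) := by
      have h5 := (small_rch (p := p) (S := S) m m0 r0 x).trans hP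
      have e1 : η * ς ^ r = q * (η * ς ^ r / q) := by field_simp
      rw [e1, ENNReal.ofReal_mul q0.le] at h5
      exact (ENNReal.mul_le_mul_iff_right (by simpa using q0) ENNReal.ofReal_ne_top).1 h5
    have h6 := hC p (m + r + S.n0) B ⊤ B1 hB x (S.l x - m) (S.l x + s) (S.l x + s)
      (by rw [hs]; linarith) le_rfl
    have h7 := h2.trans (mul_le_mul' (h3.trans h4) h6)
    rw [← ENNReal.ofReal_mul (by positivity)] at h7
    have e2 : η * ς ^ r / q * (C0 * B ^ 3 * ς ^ (S.l x + s - S.l x) *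
        ς ^ (-(3 * (S.l x + s - (S.l x + s)) / 2))) = (ς ^ s * (√A * √(η * B ^ 3))) ^ 2 := by
      have e3 : ς ^ s = ς ^ r * ς ^ (S.n0 : ℝ) := by rw [hs, Real.rpow_add s0]
      have e4 : 0 < ς ^ (S.n0 : ℝ) := by positivity
      rw [sub_self, add_sub_cancel_left, mul_zero, zero_div, neg_zero, Real.rpow_zero, mul_pow,
        mul_pow, Real.sq_sqrt A0, Real.sq_sqrt (by positivity), hA, e3]
      field_simp
    rw [e2, ENNReal.ofReal_pow (by positivity)] at h7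
    exact h1.trans ((ENNReal.pow_le_pow_left_iff two_ne_zero).1 h7)
  refine (Geo.schur_win (S.kap_inv p m s) (r := s + 1)
    (fun x y h => by linarith [(small_supp hs0 h).2]) hrow).mono (fun _ _ => le_rfl) ?_
  rw [← ENNReal.ofReal_mul (by positivity)]
  refine ENNReal.ofReal_le_ofReal ?_
  have h8 : S.b ^ (s / 2) * ς ^ s ≤ 1 := by
    have h9 : (ς ^ 2 * S.b) ^ (s / 2) ≤ 1 := Real.rpow_le_one (by positivity) sb (by linarith)
    have e5 : (ς ^ 2) ^ (s / 2) = ς ^ s := by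
      rw [← Real.rpow_natCast, ← Real.rpow_mul s0.le]; congr 1; push_cast; ring
    rwa [Real.mul_rpow (by positivity) b0.le, e5, mul_comm] at h9
  have e6 : S.b ^ ((s + 1) / 2) = S.b ^ (s / 2) * S.b ^ (1 / 2 : ℝ) := by
    rw [← Real.rpow_add b0]; congr 1; ring
  have := le_max_right 1 (S.CM * S.b ^ (1 / 2 : ℝ) * √A)
  calc S.CM * S.b ^ ((s + 1) / 2) * (ς ^ s * (√A * √(η * B ^ 3)))
      = (S.b ^ (s / 2) * ς ^ s) * (S.CM * S.b ^ (1 / 2 : ℝ) * √A * √(η * B ^ 3)) := by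
        rw [e6]; ring
    _ ≤ 1 * (max 1 (S.CM * S.b ^ (1 / 2 : ℝ) * √A) * √(η * B ^ 3)) := by gcongr
    _ = _ := one_mul _

end Pool.Agent.P.MP_3aa27f_pr.F
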