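import Pool.Agent.P.MP_3aa27f_pr.F.Boot2
import Pool.Agent.P.MP_3aa27f_pr.F.Gob
import Pool.Agent.P.MP_3aa27f_pr.F.Iter
import Pool.Agent.P.MP_3aa27f_pr.F.NeckE
import Pool.Agent.P.MP_3aa27f_pr.F.Small
import Pool.Agent.P.MP_3aa27f_pr.F.Climb
import Pool.Agent.P.MP_3aa27f_pr.F.Num7

/-! The two-point operator is bounded when crossings decay at rate at least `b ^ (-1/2)`. -/

open MeasureTheory unitInterval SimpleGraph
open ENNReal (ofReal)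
open scoped ENNReal

namespace Pool.Agent.P.MP_3aa27f_pr.F

variable {V : Type} {G : SimpleGraph V} [G.LocallyFinite] [Countable V] {S : Geo G} {p : I}
variable {ς : ℝ}

theorem Rate.subpoly (hR : Rate S p ς) (ε : ℝ) (ε0 : 0 < ε) :
    ∃ C : ℝ, 1 ≤ C ∧ ∀ h : ℝ, 0 ≤ h → S.BB p ς h ⊤ (C * (h + 1) ^ ε) := by
  obtain ⟨C₁, K, δ, C1, K1, δ0, δ1, hb⟩ := hR.boot
  obtain ⟨C₂, C2, hg⟩ := S.gob hR.s0 hR.s1 hR.sb
  obtain ⟨Cc, Cc1, hc⟩ := hR.crude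
  have D0 : (0 : ℝ) ≤ S.D := Nat.cast_nonneg _
  have s0 := hR.s0
  have s1 := hR.s1
  obtain ⟨C, hC, h⟩ := num5 (P := fun h R B => S.BB p ς h (R : ℕ) B) (Fb := S.FB p ς)
    (Gb := S.GB p ς) (A := ((S.D : ℝ) + 1) / ς) (C := max C₁ C₂) (c₀ := (S.n0 : ℝ) + 2)
    (n₀ := S.n0) ((one_le_div s0).2 (by linarith)) (le_max_of_le_left C1) K1 (by positivity) δ0 δ1
    Cc1 (fun h R B B' h1 h2 => h1.mono s0 le_rfl le_rfl h2)
    (fun h R => S.BB_apriori p s0 s1.le h R) hc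
    (fun h R B f h0 B1 f1 h1 h2 => (hb h R B f h0 B1 f1 h1 h2).mono s0 le_rfl le_rfl (by
      have := le_max_left C₁ C₂
      gcongr))
    (fun h B h0 B1 h1 => (hg p h B h0 B1 (Geo.BB_top h1)).mono le_rfl (by
      have := le_max_right C₁ C₂
      gcongr))
    (fun ε ε0 => hR.iter ε ε0) ε0
  exact ⟨C, hC, fun h' h0 => Geo.BB_top (h h' h0)⟩

theorem Rate.bounded (Z : Side S) (hR : Rate S p ς) :
    ∃ c : ℝ≥0∞, c ≠ ⊤ ∧ NB (tau G p Set.univ) c := by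
  obtain ⟨c, C₁, c0, c1, hC₁, hn⟩ := Z.neckE hR.p0 hR.p1 hR.s0 hR.s1 hR.sb
  obtain ⟨C₂, hC₂, hs⟩ := S.small hR.p0 hR.s0 hR.s1 hR.sb
  obtain ⟨C₃, hC₃, hg⟩ := S.gob hR.s0 hR.s1 hR.sb
  have hC₄ := S.one_le_CM
  obtain ⟨C, e1, e2, e3, e4⟩ : ∃ C, C₁ ≤ C ∧ C₂ ≤ C ∧ C₃ ≤ C ∧ S.CM ≤ C :=
    ⟨C₁ + C₂ + C₃ + S.CM, by linarith, by linarith, by linarith, by linarith⟩
  have C1 : 1 ≤ C := hC₁.trans e1
  have s0 := hR.s0
  obtain ⟨s, B, Γ, η, M₁, M₀, X, K₀, Y, H, k, k₁, n, N, s1, B1, hB, hΓ, hη, hM₁, hM₀, hk₁, hM₁B,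
    hX, K0, Y0, hE, t1, hH, n1, hnH, t4, hN, hN'⟩ := num7 (C := C) (c := c) (ς := ς) S.n0 Z.h0
    Z.L0 C1 c0 c1 hR.s0 hR.s1 (Bd := fun h B => S.BB p ς h ⊤ B)
    (Es := fun X K₀ Y => ∀ (a c m f η M : ℝ) (v : V) (W : Set V), S.O v → 0 ≤ m →
      a ≤ S.l v - m → S.l v + K₀ ≤ c → 0 < η → 0 ≤ f → 0 ≤ M → f * M ≤ X * η →
      (∀ w, rch G p (S.E a c) w (S.Top c) ≤ ofReal (f * ς ^ (c - S.l w))) →
      S.Phi ς (S.l v) W ≤ ofReal M →
      ofReal (η * ς ^ (c - S.l v - K₀)) ≤ S.PiO p m (c - S.l v - K₀) →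
      ofReal (η / Y * ς ^ (c - S.l v)) ≤
        rch G p (S.E a c \ (ETo W ∩ S.Lt (S.l v))) v (S.Top c))
    hR.subpoly (fun ε ε0 => hR.esc ε0)
  have n0 : (1 : ℝ) ≤ S.n0 := by exact_mod_cast S.one_le_n0
  obtain ⟨hh, hhh⟩ : ∃ hh, hh = 20 * (s + S.n0 + 1) ^ 2 := ⟨_, rfl⟩
  rw [← hhh] at hB hΓ
  have g1 : 6 * s ^ 2 + 2 * s + S.n0 + 9 ≤ hh := by rw [hhh]; nlinarith
  have g2 : 0 ≤ s ^ 2 := sq_nonneg s
  have hh1 : 1 ≤ hh := by linarith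
  have Γ1 : 1 ≤ Γ := by
    rw [hΓ]
    exact one_le_mul_of_one_le_of_one_le (one_le_mul_of_one_le_of_one_le C1 (one_le_pow₀ hh1))
      (one_le_pow₀ B1)
  have hG : S.GB p ς (hh - 3) Γ := by
    refine (hg p (hh - 3) B (by linarith) B1 (by rwa [sub_add_cancel])).mono le_rfl ?_
    rw [sub_add_cancel, hΓ]
    gcongr
  have η0 : 0 < η := by rw [hη]; positivity
  have M11 : 1 ≤ M₁ := by
    rw [hM₁]
    exact one_le_mul_of_one_le_of_one_le (by linarith) (one_le_pow₀ B1)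
  have M01 : 1 ≤ M₀ := by
    rw [hM₀]
    exact one_le_mul_of_one_le_of_one_le
      (one_le_mul_of_one_le_of_one_le (by linarith) (one_le_pow₀ Γ1)) B1
  obtain ⟨s', s'0, s'1, hk⟩ : ∃ s', 0 < s' ∧ s' ≤ s + S.n0 ∧
      NB (S.kap p (2 * s ^ 2 + 1) s') (ofReal (1 / 4)) := by
    by_cases hc : ∃ r, 0 ≤ r ∧ r ≤ s ∧ S.PiO p (2 * s ^ 2 + 1 + S.n0) r ≤ ofReal (η * ς ^ r)
    · obtain ⟨r, r0, r1, hr⟩ := hc
      refine ⟨r + S.n0, by linarith, by linarith, (hs _ r B η (by linarith) r0 B1 η0.le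
        (hB.mono s0 (by linarith) le_rfl le_rfl) hr).mono (fun _ _ => le_rfl)
        (ENNReal.ofReal_le_ofReal ?_)⟩
      have : η * B ^ 3 = (1 / (4 * C)) ^ 2 := by rw [hη]; field_simp; norm_num
      rw [this, Real.sqrt_sq (by positivity), mul_one_div, div_le_div_iff₀ (by positivity)
        (by norm_num)]
      linarith
    · push Not at hc
      refine ⟨s, by linarith, by linarith, (hn ⟨ς, 2 * s ^ 2 + 1, s, H,
        M₀ + k₁ + S.n0 + 1 + 4 * M₁ * Γ, k₁, k⟩ n K₀ B Γ M₁ M₀ (η / Y) rfl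
        ⟨s0, hR.s1, by dsimp only; linarith, by dsimp only; positivity, hk₁, K0, hH, hnH⟩ n1 B1 Γ1
        M11 M01 (by positivity) (hB.mono s0 (by dsimp only; linarith) le_rfl le_rfl)
        (hG.mono (by dsimp only; linarith) le_rfl) hM₁B rfl ?_).mono (fun _ _ => le_rfl)
        (ENNReal.ofReal_le_ofReal ?_)⟩
      · intro x v W hv h1 h2 h3
        dsimp only at h2 h3 ⊢
        refine hE _ _ (2 * s ^ 2 + 1 + S.n0) B η _ v W hv (by linarith) (by linarith) h2 η0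
          (by linarith) (by positivity) hX (fun w => ?_) h3 (hc _ (by linarith) (by linarith)).le
        exact hB.fb s0 hR.s1.le B1 _ w _ _ le_rfl (by linarith)
      · dsimp only
        have t2 : C * (B ^ 4 / M₁) = 1 / 16 := by rw [hM₁]; field_simp
        have t3 : C * (Γ ^ 3 * B / M₀) = 1 / 16 := by rw [hM₀]; field_simp
        have : 0 ≤ 1 - c := by linarith
        refine le_trans (mul_le_mul_of_nonneg_right e1 (by positivity)) ?_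
        rw [mul_add, mul_add, mul_add]
        linarith
  refine ⟨_, ENNReal.mul_ne_top (by simp) ENNReal.ofReal_ne_top,
    S.norm_of_kap (m := s ^ 2) (N := N) s'0 (by positivity) (le_trans (by gcongr) hN) hk
      (Geo.slabK_norm s0 hR.sb (by linarith) (hG.mono (by linarith) le_rfl)) ?_⟩
  rw [← ENNReal.ofReal_pow (by norm_num), ← ENNReal.ofReal_ofNat 2, ← ENNReal.ofReal_mul (by norm_num),
    ← ENNReal.ofReal_mul (by positivity), ← ENNReal.ofReal_one,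
    ← ENNReal.ofReal_div_of_pos (by norm_num)]
  refine ENNReal.ofReal_le_ofReal ?_
  have h4 : (0 : ℝ) < 4 ^ N := by positivity
  have h5 : S.CM * Γ ≤ C * Γ := by gcongr
  rw [one_div_pow, mul_one_div, div_mul_eq_mul_div, div_le_div_iff₀ h4 (by norm_num)]
  linarith

end Pool.Agent.P.MP_3aa27f_pr.F
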