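import Pool.Agent.P.MP_3aa27f_pr.F.Expl
import Pool.Agent.P.MP_3aa27f_pr.F.Lev
import Pool.Agent.P.MP_3aa27f_pr.F.Defs2

/-! Measurability and adaptedness of the neck events. -/

open MeasureTheory unitInterval SimpleGraph
open ENNReal (ofReal)
open scoped ENNReal

namespace Pool.Agent.P.MP_3aa27f_pr.F

variable {V : Type} {G : SimpleGraph V} [G.LocallyFinite] [Countable V] {S : Geo G} {p : I}

theorem meas_mem (S : Geo G) (a : ℝ) (x : V) (t : ℝ) (u : V) :
    Measurable fun ω => u ∈ S.Cl a x t ω :=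
  measurableSet_setOfPred.1 (Cn_FU (G := G) (F := S.E a t) (x := x) (y := u)).measurableSet

theorem meas_cnt (S : Geo G) (a : ℝ) (x : V) (t : ℝ) :
    Measurable fun ω => cnt (S.Cl a x t ω) := by
  have := measurable_tsum_Kl (G := G) (F := S.E a t) (x := x) Set.univ 1
  simp only [Set.inter_univ] at this
  exact this

theorem Geo.measurable_cntTop (S : Geo G) (a : ℝ) (x : V) (t : ℝ) :
    Measurable fun ω => cnt (S.Cl a x t ω ∩ S.Top t) :=
  measurable_tsum_Kl (S.Top t) 1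

theorem Geo.measurableSet_Sing (S : Geo G) (ς a : ℝ) (x v : V) (M : ℝ) :
    MeasurableSet (S.Sing ς a x v M) :=
  measurableSet_setOfPred.2 ((meas_mem S a x _ v).and ((Measurable.forall fun u =>
    (meas_mem S a x _ u).imp measurable_const).and
      (measurableSet_setOfPred.1 (measurableSet_le (S.measurable_Phi ς _ _ x) measurable_const))))

theorem Geo.measurableSet_Pre (S : Geo G) (ς a : ℝ) (x : V) (τ M : ℝ) (v : V) :
    MeasurableSet (S.Pre ς a x τ M v) :=
  measurableSet_setOfPred.2 (measurable_const.and (measurable_const.and (measurable_const.and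
    ((measurableSet_setOfPred.1 (S.measurableSet_Sing ς a x v M)).and
      (Measurable.forall fun u => (meas_mem S a x _ u).imp measurable_const)))))

theorem Geo.measurableSet_Good (S : Geo G) (ς a : ℝ) (x : V) (t M₁ M : ℝ) :
    MeasurableSet (S.Good ς a x t M₁ M) :=
  measurableSet_setOfPred.2 ((Measurable.exists fun u =>
    (meas_mem S a x t u).and measurable_const).and
      ((measurableSet_setOfPred.1 (measurableSet_le (S.measurable_cntTop a x t) measurable_const)).and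
        (measurableSet_setOfPred.1 (measurableSet_le (S.measurable_Phi ς _ _ x) measurable_const))))

theorem Side.measurableSet_Pat (Z : Side S) (v v' : V) : MeasurableSet (Z.Pat v v') :=
  measurableSet_setOfPred.2 (measurable_const.and (measurable_const.and (measurable_const.and
    ((meas_mem S _ v _ v').and ((Measurable.forall fun u =>
      (meas_mem S _ v _ u).imp measurable_const).and
        (measurableSet_setOfPred.1 (measurableSet_le (meas_cnt S _ v _) measurable_const)))))))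

theorem Side.measurableSet_PatN (Z : Side S) (k : ℕ) (v v' : V) :
    MeasurableSet (Z.PatN k v v') := by
  induction k generalizing v' with
  | zero => exact MeasurableSet.const _
  | succ k ih =>
    exact measurableSet_setOfPred.2 (Measurable.exists fun u =>
      (measurableSet_setOfPred.1 (ih u)).and (measurableSet_setOfPred.1 (Z.measurableSet_Pat u v')))

theorem Side.measurableSet_Neck (Z : Side S) (P : Par) (x : V) (i : ℕ) :
    MeasurableSet (Z.Neck P x i) :=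
  measurableSet_setOfPred.2 (Measurable.exists fun v => Measurable.exists fun v' =>
    (measurableSet_setOfPred.1 (S.measurableSet_Pre _ _ x _ _ v)).and
      (measurableSet_setOfPred.1 (Z.measurableSet_PatN _ v v')))

theorem Side.measurableSet_NoNeck (Z : Side S) (P : Par) (x : V) (i : ℕ) :
    MeasurableSet (Z.NoNeck P x i) :=
  measurableSet_setOfPred.2 (Measurable.forall fun j => measurable_const.imp
    (measurableSet_setOfPred.1 (Z.measurableSet_Neck P x j).compl))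

section

omit [Countable V]

theorem Geo.Sing_adp (S : Geo G) (ς a : ℝ) (x v : V) (M : ℝ) :
    Adp G (S.E a (S.l v)) x (S.Sing ς a x v M) :=
  Adp_Kl fun K => v ∈ K ∧ (∀ u ∈ K, S.l v ≤ S.l u → u = v) ∧ S.Phi ς (S.l v) K ≤ ofReal M

theorem Geo.Pre_adp (S : Geo G) (ς a : ℝ) (x : V) (τ M : ℝ) (v : V) :
    Adp G (S.E a (S.l v)) x (S.Pre ς a x τ M v) :=
  Adp_Kl fun K => S.O v ∧ τ ≤ S.l v ∧ S.l v < τ + S.n0 ∧
    (v ∈ K ∧ (∀ u ∈ K, S.l v ≤ S.l u → u = v) ∧ S.Phi ς (S.l v) K ≤ ofReal M) ∧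
    ∀ u ∈ K, S.O u → τ ≤ S.l u → u = v

theorem Geo.Good_adp (S : Geo G) (ς a : ℝ) (x : V) (t M₁ M : ℝ) :
    Adp G (S.E a t) x (S.Good ς a x t M₁ M) :=
  Adp_Kl fun K => (K ∩ S.Top t).Nonempty ∧ cnt (K ∩ S.Top t) ≤ ofReal M₁ ∧
    S.Phi ς t K ≤ ofReal M

theorem Side.Pat_dep (Z : Side S) (v v' : V) :
    Dep (Z.Pat v v') (S.E (S.l v) (S.l v + Z.h0)) :=
  (Adp_Kl (G := G) (x := v) fun K => S.O v ∧ S.O v' ∧ S.l v' = S.l v + Z.h0 ∧ v' ∈ K ∧
    (∀ u ∈ K, (u = v ∨ S.l v + 1 ≤ S.l u) ∧ (S.l v' ≤ S.l u → u = v')) ∧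
    cnt K ≤ ofReal (Z.L0 + 1)).dep

theorem Side.Pat_unique (Z : Side S) {v u u' : V} {ω : Cf V} (h : ω ∈ Z.Pat v u)
    (h' : ω ∈ Z.Pat v u') : u = u' :=
  (h'.2.2.2.2.1 u h.2.2.2.1).2 (by rw [h.2.2.1, h'.2.2.1])

theorem Side.PatN_unique (Z : Side S) {k : ℕ} {v u u' : V} {ω : Cf V} (h : ω ∈ Z.PatN k v u)
    (h' : ω ∈ Z.PatN k v u') : u = u' := by
  induction k generalizing u u' with
  | zero => exact Eq.trans (Eq.symm h) h'
  | succ k ih =>
    obtain ⟨w, h1, h2⟩ := h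
    obtain ⟨w', h3, h4⟩ := h'
    obtain rfl := ih h1 h3
    exact Z.Pat_unique h2 h4

theorem Side.PatN_lev (Z : Side S) {k : ℕ} {v u : V} {ω : Cf V} (h : ω ∈ Z.PatN k v u) :
    S.l u = S.l v + k * Z.h0 ∧ (S.O v → S.O u) := by
  induction k generalizing u with
  | zero =>
    obtain rfl : v = u := h
    simp
  | succ k ih =>
    obtain ⟨w, h1, h2⟩ := h
    refine ⟨?_, fun _ => h2.2.1⟩
    rw [h2.2.2.1, (ih h1).1]
    push_cast
    ring

theorem Geo.Pre_unique (S : Geo G) {ς a τ M : ℝ} {x v v' : V} {ω : Cf V}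
    (h : ω ∈ S.Pre ς a x τ M v) (h' : ω ∈ S.Pre ς a x τ M v') : v = v' := by
  rcases le_total (S.l v) (S.l v') with hl | hl
  · exact h'.2.2.2.2 v (Kl_mono (S.E_mono le_rfl hl) h.2.2.2.1.1) h.1 h.2.1
  · exact (h.2.2.2.2 v' (Kl_mono (S.E_mono le_rfl hl) h'.2.2.2.1.1) h'.1 h'.2.1).symm

theorem Side.step_det (Z : Side S) {ς a M : ℝ} (s0 : 0 < ς) (s1 : ς ≤ 1) (M0 : 0 ≤ M) {x v v' : V}
    (ha : a ≤ S.l v) {ω : Cf V} (h : ω ∈ S.Sing ς a x v M) (h' : ω ∈ Z.Pat v v') :
    ω ∈ S.Sing ς a x v' (M + (Z.L0 + 1)) ∧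
      S.Cl a x (S.l v') ω = S.Cl a x (S.l v) ω ∪ S.Cl (S.l v) v (S.l v + Z.h0) ω := by
  obtain ⟨h1, h2, h3⟩ := h
  obtain ⟨-, -, hl, h4, h5, h6⟩ := h'
  have h0 : (1 : ℝ) ≤ Z.h0 := by exact_mod_cast Z.one_le_h0
  have hv : S.l v ≤ S.l v' := by linarith
  have key : S.Cl a x (S.l v') ω =
      S.Cl a x (S.l v) ω ∪ S.Cl (S.l v) v (S.l v + Z.h0) ω := by
    apply Set.Subset.antisymm
    · refine Kl_sub_of_closed (Or.inl mem_Kl_self) fun c hc b hab hF hω => ?_
      by_cases he : s(c, b) ∈ S.Lt (S.l v)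
      · refine Or.inl (Kl_step ?_ hab ⟨hF.1, he⟩ hω)
        rcases hc with hc | hc
        · exact hc
        · rcases (h5 c hc).1 with rfl | h7
          · exact h1
          · linarith [(Geo.adj_Lt hab he).1]
      · have he' : s(c, b) ∈ S.Ge (S.l v) := by rw [← S.compl_Lt]; exact he
        refine Or.inr (Kl_step ?_ hab ⟨he', hl ▸ hF.2⟩ hω)
        rcases hc with hc | hc
        · rw [h2 c hc (Geo.mem_Ge.1 he').1]
          exact mem_Kl_self
        · exact hc
    · rintro u (hu | hu)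
      · exact Kl_mono (S.E_mono le_rfl hv) hu
      · exact Cn_trans (Kl_mono (S.E_mono le_rfl hv) h1) (Kl_mono (S.E_mono ha hl.ge) hu)
  refine ⟨⟨?_, ?_, ?_⟩, key⟩
  · rw [key]
    exact Or.inr h4
  · rw [key]
    rintro u (hu | hu) h7
    · have := h2 u hu (hv.trans h7)
      subst this
      linarith
    · exact (h5 u hu).2 h7
  · rw [key, ENNReal.ofReal_add M0 (by positivity)]
    refine (S.Phi_union_le _ _ _ _).trans (add_le_add ((S.Phi_anti s0 s1 hv _).trans h3)
      ((S.Phi_le_cnt s0 s1 fun w hw => ?_).trans h6))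
    by_contra h7
    rw [(h5 w hw).2 (not_le.1 h7).le] at h7
    exact h7 le_rfl

theorem Side.steps (Z : Side S) {ς a M : ℝ} (s0 : 0 < ς) (s1 : ς ≤ 1) (M0 : 0 ≤ M) {x v : V}
    (ha : a ≤ S.l v) {A : Set (Cf V)} (hA : Adp G (S.E a (S.l v)) x A)
    (hs : A ⊆ S.Sing ς a x v M) (k : ℕ) (v' : V) :
    Adp G (S.E a (S.l v')) x (A ∩ Z.PatN k v v') ∧
      A ∩ Z.PatN k v v' ⊆ S.Sing ς a x v' (M + k * (Z.L0 + 1)) := by
  induction k generalizing v' with
  | zero =>
    refine ⟨fun ω hω ω' hh => ?_, fun ω hω => ?_⟩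
    · obtain rfl : v = v' := hω.2
      exact ⟨hA ω hω.1 ω' hh, rfl⟩
    · obtain rfl : v = v' := hω.2
      simpa using hs hω.1
  | succ k ih =>
    have h0 : (0 : ℝ) ≤ Z.h0 := Nat.cast_nonneg _
    have hu : ∀ {u ω}, ω ∈ Z.PatN k v u → a ≤ S.l u := fun h => by
      rw [(Z.PatN_lev h).1]
      exact ha.trans (le_add_of_nonneg_right (by positivity))
    refine ⟨fun ω ⟨h1, u, h2, h3⟩ ω' hh => ?_, fun ω ⟨h1, u, h2, h3⟩ => ?_⟩
    · have hl : S.l v' = S.l u + Z.h0 := h3.2.2.1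
      have hE : S.E a (S.l u) ⊆ S.E a (S.l v') := S.E_mono le_rfl (by linarith)
      have h4 := (ih u).1.mono hE ω ⟨h1, h2⟩ ω' hh
      refine ⟨h4.1, u, h4.2, ?_⟩
      have h5 : S.Cl (S.l u) u (S.l u + Z.h0) ω' = S.Cl (S.l u) u (S.l u + Z.h0) ω :=
        Kl_congr' (S.E_mono (hu h2) hl.ge) (Kl_mono hE ((ih u).2 ⟨h1, h2⟩).1) hh
      unfold Side.Pat at h3 ⊢
      simp only [Set.mem_ofPred_eq, h5] at h3 ⊢
      exact h3
    · have := (Z.step_det s0 s1 (by positivity) (hu h2) ((ih u).2 ⟨h1, h2⟩) h3).1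
      convert this using 2
      push_cast
      ring

theorem Side.meas_PatN_dep (Z : Side S) (k : ℕ) (v u : V) :
    Dep (Z.PatN k v u) (S.Lt (S.l u)) := by
  induction k generalizing u with
  | zero => exact fun _ _ _ h => h
  | succ k ih =>
    rintro ω ω' hh ⟨w, h1, h2⟩
    have h0 : (0 : ℝ) ≤ Z.h0 := Nat.cast_nonneg _
    have hl : S.l u = S.l w + Z.h0 := h2.2.2.1
    exact ⟨w, ih w (fun e he => hh e (S.Lt_mono (by linarith) he)) h1,
      Z.Pat_dep w u (fun e he => hh e (hl ▸ he.2)) h2⟩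

end

theorem Side.steps_mu (Z : Side S) {v : V} {A : Set (Cf V)} (hA : MeasurableSet A)
    (dA : Dep A (S.Lt (S.l v))) (k : ℕ) (v' : V) :
    mu V p (A ∩ Z.PatN k v v') = mu V p A * kpow (Z.W p) k v v' := by
  induction k generalizing v' with
  | zero =>
    by_cases h : v = v'
    · simp [Side.PatN, kpow, kone, h]
    · simp [Side.PatN, kpow, kone, h]
  | succ k ih =>
    have e : A ∩ Z.PatN (k + 1) v v' = ⋃ u, A ∩ Z.PatN k v u ∩ Z.Pat u v' := by
      ext ω
      simp only [Side.PatN, Set.mem_inter_iff, Set.mem_ofPred_eq, Set.mem_iUnion, and_assoc,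
        exists_and_left]
    rw [e, measure_iUnion, kpow_succ', kmul, ← ENNReal.tsum_mul_left]
    · refine tsum_congr fun u => ?_
      rw [← mul_assoc, ← ih]
      refine PM_indep _ (hA.inter (Z.measurableSet_PatN k v u)) (Z.measurableSet_Pat u v')
        (T := S.Lt (S.l u)) ?_ (Z.Pat_dep u v')
        ((S.disjoint_Lt_Ge le_rfl).mono_right Set.inter_subset_left)
      rintro ω ω' hh ⟨h1, h2⟩
      refine ⟨dA (fun e he => hh e (S.Lt_mono ?_ he)) h1, Z.meas_PatN_dep k v u hh h2⟩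
      rw [(Z.PatN_lev h2).1]
      exact le_add_of_nonneg_right (by positivity)
    · intro u u' h
      rw [Function.onFun, Set.disjoint_left]
      exact fun ω h1 h2 => h (Z.PatN_unique h1.1.2 h2.1.2)
    · exact fun u => (hA.inter (Z.measurableSet_PatN k v u)).inter (Z.measurableSet_Pat u v')

end Pool.Agent.P.MP_3aa27f_pr.F
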