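import Pool.Agent.P.MP_3aa27f_pr.F.KA
import Pool.Agent.P.MP_3aa27f_pr.Haar

/-! The mass-transport principle. -/

open MeasureTheory unitInterval SimpleGraph
open ENNReal (ofReal)
open scoped ENNReal

namespace Pool.Agent.P.MP_3aa27f_pr.F

variable {V : Type} {G : SimpleGraph V} [G.LocallyFinite]

omit [G.LocallyFinite] in
theorem mtp_const {A : Set V} (hA : A.Finite) (c : ℝ≥0∞) :
    ∑' z, A.indicator (fun _ => c) z = A.ncard * c := by
  rw [tsum_eq_sum (s := hA.toFinset) fun z hz => Set.indicator_of_notMem (by simpa using hz) _,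
    Set.ncard_eq_toFinset_card _ hA, ← nsmul_eq_mul, ← Finset.sum_const]
  exact Finset.sum_congr rfl fun z hz => Set.indicator_of_mem (by simpa using hz) _

theorem mtp_orb (hG : G.Connected) {Γ : Subgroup (G ≃g G)} {m : V → ℝ} (hm : Wt Γ m) {K : Ker V}
    (hK : ∀ g ∈ Γ, ∀ x y, K (g x) (g y) = K x y) (x y : V) :
    ∑' z, {z | ∃ g ∈ Γ, g y = z}.indicator (K x) z =
      ∑' z, {z | ∃ g ∈ Γ, g x = z}.indicator (fun z => K z y * ofReal (m z / m y)) z := by
  let R : V → V → Prop := fun z z' => ∃ g ∈ Γ, g x = z' ∧ g z = y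
  let c : V → ℝ≥0∞ := fun z' => K z' y * ((orb Γ y z').ncard : ℝ≥0∞)⁻¹
  have h1 : ∀ z, {z | ∃ g ∈ Γ, g y = z}.indicator (K x) z =
      ∑' z', {z' | R z z'}.indicator c z' := fun z => by
    by_cases hz : z ∈ {z | ∃ g ∈ Γ, g y = z}
    · rw [Set.indicator_of_mem hz]
      obtain ⟨g0, hg0, rfl⟩ := hz
      have e : {z' | R (g0 y) z'} = orb Γ y (g0⁻¹ x) := by
        ext z'
        constructor
        · rintro ⟨g, hg, rfl, h⟩
          exact ⟨g * g0, Γ.mul_mem hg hg0, h, by simp⟩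
        · rintro ⟨k, hk, h, rfl⟩
          exact ⟨k * g0⁻¹, Γ.mul_mem hk (Γ.inv_mem hg0), rfl, by simp [h]⟩
      have e2 : ∀ z', {z' | R (g0 y) z'}.indicator c z' = {z' | R (g0 y) z'}.indicator
          (fun _ => K x (g0 y) * ((orb Γ (g0 y) x).ncard : ℝ≥0∞)⁻¹) z' := fun z' => by
        by_cases h : z' ∈ {z' | R (g0 y) z'}
        · rw [Set.indicator_of_mem h, Set.indicator_of_mem h]
          obtain ⟨g, hg, rfl, h⟩ := h
          simp only [c]
          rw [← hK g hg x (g0 y), ← ncard_orb_map hg (g0 y) x, h]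
        · rw [Set.indicator_of_notMem h, Set.indicator_of_notMem h]
      rw [tsum_congr e2, e, mtp_const (orb_finite hG Γ _ _), ← ncard_orb_map hg0 y, app_inv,
        mul_comm, mul_assoc, ENNReal.inv_mul_cancel (by exact_mod_cast (hm.npos _ _).ne')
          (ENNReal.natCast_ne_top _), mul_one]
    · rw [Set.indicator_of_notMem hz]
      refine (ENNReal.tsum_eq_zero.2 fun z' => Set.indicator_of_notMem ?_ _).symm
      rintro ⟨g, hg, -, h⟩
      exact hz ⟨g⁻¹, Γ.inv_mem hg, by rw [← h, inv_app]⟩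
  have h2 : ∀ z', {z | ∃ g ∈ Γ, g x = z}.indicator (fun z => K z y * ofReal (m z / m y)) z' =
      ∑' z, {z | R z z'}.indicator (fun _ => c z') z := fun z' => by
    by_cases hz : z' ∈ {z | ∃ g ∈ Γ, g x = z}
    · rw [Set.indicator_of_mem hz]
      obtain ⟨g1, hg1, rfl⟩ := hz
      have e : {z | R z (g1 x)} = orb Γ x (g1⁻¹ y) := by
        ext z
        constructor
        · rintro ⟨g, hg, h, h'⟩
          exact ⟨g⁻¹ * g1, Γ.mul_mem (Γ.inv_mem hg) hg1, by simp [← h], by simp [← h']⟩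
        · rintro ⟨k, hk, h, rfl⟩
          refine ⟨g1 * k⁻¹, Γ.mul_mem hg1 (Γ.inv_mem hk), ?_, by simp⟩
          have : k⁻¹ x = x := by rw [← h, inv_app, h]
          show g1 (k⁻¹ x) = g1 x
          rw [this]
      rw [e, mtp_const (orb_finite hG Γ _ _), ← ncard_orb_map hg1 x, app_inv]
      have p1 : (0 : ℝ) < (orb Γ y (g1 x)).ncard := by exact_mod_cast hm.npos _ _
      have e3 : m (g1 x) / m y = (orb Γ (g1 x) y).ncard / (orb Γ y (g1 x)).ncard := by
        rw [div_eq_div_iff (hm.pos y).ne' p1.ne', ← hm.rel (g1 x) y, mul_comm]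
      simp only [c]
      rw [e3, ENNReal.ofReal_div_of_pos p1, ENNReal.ofReal_natCast, ENNReal.ofReal_natCast,
        div_eq_mul_inv, mul_left_comm]
    · rw [Set.indicator_of_notMem hz]
      refine (ENNReal.tsum_eq_zero.2 fun z => Set.indicator_of_notMem ?_ _).symm
      rintro ⟨g, hg, h, -⟩
      exact hz ⟨g, hg, h⟩
  rw [tsum_congr h1, tsum_congr h2, ENNReal.tsum_comm]
  rfl

end Pool.Agent.P.MP_3aa27f_pr.F
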