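import Pool.Agent.P.MP_3aa27f_pr.F.KA

/-! Calculus of operator norm bounds. -/

open MeasureTheory unitInterval SimpleGraph
open ENNReal (ofReal)
open scoped ENNReal

namespace Pool.Agent.P.MP_3aa27f_pr.F

variable {V : Type} {K K' : Ker V} {c c' : ℝ≥0∞}

theorem nb_sqrt_sq (a : ℝ≥0∞) : (a ^ (1 / 2 : ℝ)) ^ 2 = a := by
  rw [← ENNReal.rpow_natCast, ← ENNReal.rpow_mul]
  norm_num

theorem nb_sq_sqrt (a : ℝ≥0∞) : (a ^ 2) ^ (1 / 2 : ℝ) = a := by
  rw [← ENNReal.rpow_natCast, ← ENNReal.rpow_mul]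
  norm_num

theorem nb_sqrt_le {a B : ℝ≥0∞} (h : a ≤ B ^ 2) : a ^ (1 / 2 : ℝ) ≤ B :=
  (ENNReal.rpow_le_rpow h (by norm_num)).trans (nb_sq_sqrt B).le

theorem n2_sq (f : V → ℝ≥0∞) : n2 f ^ 2 = ∑' x, f x ^ 2 := nb_sqrt_sq _

theorem n2_mono {f g : V → ℝ≥0∞} (h : ∀ x, f x ≤ g x) : n2 f ≤ n2 g :=
  ENNReal.rpow_le_rpow (ENNReal.tsum_le_tsum fun x => pow_le_pow_left' (h x) 2) (by norm_num)

theorem tsum_mul_le_n2 (f g : V → ℝ≥0∞) : ∑' x, f x * g x ≤ n2 f * n2 g := by
  rw [ENNReal.tsum_eq_iSup_sum]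
  refine iSup_le fun s => ?_
  have h := ENNReal.inner_le_Lp_mul_Lq s f g Real.HolderConjugate.two_two
  simp only [ENNReal.rpow_two] at h
  exact h.trans (mul_le_mul' (ENNReal.rpow_le_rpow (ENNReal.sum_le_tsum s) (by norm_num))
    (ENNReal.rpow_le_rpow (ENNReal.sum_le_tsum s) (by norm_num)))

theorem n2_indicator (A : Set V) : n2 (A.indicator 1) = cnt A ^ (1 / 2 : ℝ) := by
  unfold n2 cnt
  congr 1
  refine tsum_congr fun x => ?_
  by_cases hx : x ∈ A <;> simp [hx]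

theorem nb_n2_eq_zero {f : V → ℝ≥0∞} (h : n2 f = 0) (x : V) : f x = 0 := by
  have h1 := n2_sq f
  rw [h, zero_pow two_ne_zero] at h1
  exact pow_eq_zero_iff two_ne_zero |>.1 (ENNReal.tsum_eq_zero.1 h1.symm x)

theorem nb_n2_kone (x : V) : n2 (kone x) = 1 := by
  have : ∑' y, kone x y ^ 2 = 1 := by
    simp only [pow_two]
    rw [tsum_kone_mul x (kone x), kone_self]
  rw [n2, this, ENNReal.one_rpow]

theorem nb_dual {h : V → ℝ≥0∞} {B : ℝ≥0∞} (H : ∀ f : V → ℝ≥0∞, ∑' x, f x * h x ≤ B * n2 f) :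
    n2 h ≤ B := by
  classical
  refine nb_sqrt_le ?_
  rw [ENNReal.tsum_eq_iSup_sum]
  refine iSup_le fun s => ?_
  have key : ∀ N : ℕ, ∑ x ∈ s, min (h x) N ^ 2 ≤ B ^ 2 := fun N => by
    set f : V → ℝ≥0∞ := fun x => if x ∈ s then min (h x) N else 0 with hf
    have e1 : n2 f ^ 2 = ∑ x ∈ s, min (h x) N ^ 2 := by
      rw [n2_sq, tsum_eq_sum (s := s) fun x hx => by simp [hf, hx]]
      exact Finset.sum_congr rfl fun x hx => by simp [hf, hx]
    have e2 : n2 f ≠ ⊤ := by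
      intro e
      rw [e, ENNReal.top_pow two_ne_zero] at e1
      exact ENNReal.sum_ne_top.2 (fun x _ => ENNReal.pow_ne_top
        (ne_top_of_le_ne_top (ENNReal.natCast_ne_top N) (min_le_right _ _))) e1.symm
    have e3 : n2 f * n2 f ≤ B * n2 f := by
      refine le_trans ?_ (H f)
      rw [← pow_two, n2_sq]
      refine ENNReal.tsum_le_tsum fun x => ?_
      rw [pow_two]
      refine mul_le_mul' le_rfl ?_
      by_cases hx : x ∈ s <;> simp [hf, hx]
    rw [← e1]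
    refine pow_le_pow_left' ?_ 2
    by_cases e0 : n2 f = 0
    · simp [e0]
    · exact (ENNReal.mul_le_mul_iff_left e0 e2).1 e3
  have lim : Filter.Tendsto (fun N : ℕ => ∑ x ∈ s, min (h x) N ^ 2) Filter.atTop
      (nhds (∑ x ∈ s, min (h x) ⊤ ^ 2)) :=
    tendsto_finsetSum s fun x _ =>
      ENNReal.Tendsto.pow (tendsto_const_nhds.min ENNReal.tendsto_nat_nhds_top)
  simpa using le_of_tendsto' lim key

theorem NB.mono (h : NB K c) (hK : ∀ x y, K' x y ≤ K x y) (hc : c ≤ c') : NB K' c' :=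
  fun f g => ((ENNReal.tsum_le_tsum fun x => ENNReal.tsum_le_tsum fun y =>
    mul_le_mul' (mul_le_mul' le_rfl (hK x y)) le_rfl).trans (h f g)).trans
      (mul_le_mul' (mul_le_mul' hc le_rfl) le_rfl)

theorem NB.add (h : NB K c) (h' : NB K' c') : NB (fun x y => K x y + K' x y) (c + c') := by
  intro f g
  simp only [mul_add, add_mul, ENNReal.tsum_add]
  exact add_le_add (h f g) (h' f g)

theorem NB.sum {κ : Type*} (s : Finset κ) {K : κ → Ker V} {c : κ → ℝ≥0∞}
    (h : ∀ i ∈ s, NB (K i) (c i)) : NB (fun x y => ∑ i ∈ s, K i x y) (∑ i ∈ s, c i) := by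
  classical
  induction s using Finset.induction_on with
  | empty => intro f g; simp
  | insert i s hi ih =>
    simp only [Finset.sum_insert hi]
    exact (h i (Finset.mem_insert_self _ _)).add (ih fun j hj => h j (Finset.mem_insert_of_mem hj))

theorem NB.smul (h : NB K c) (a : ℝ≥0∞) : NB (fun x y => a * K x y) (a * c) := by
  intro f g
  have e : ∀ x y, f x * (a * K x y) * g y = a * (f x * K x y * g y) := fun x y => by ring
  simp only [e, ENNReal.tsum_mul_left, mul_assoc a]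
  exact mul_le_mul' le_rfl (h f g)

theorem NB.tr (h : NB K c) : NB (ktr K) c := by
  intro f g
  rw [ENNReal.tsum_comm, mul_right_comm]
  refine le_trans (le_of_eq ?_) (h g f)
  refine tsum_congr fun x => tsum_congr fun y => ?_
  simp only [ktr]
  ring

theorem NB.le (h : NB K c) (x y : V) : K x y ≤ c := by
  have := h (kone x) (kone y)
  rw [nb_n2_kone, nb_n2_kone, mul_one, mul_one] at this
  refine le_trans ?_ this
  refine le_trans ?_ (ENNReal.le_tsum x)
  refine le_trans ?_ (ENNReal.le_tsum y)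
  rw [kone_self, kone_self, one_mul, mul_one]

theorem NB.apply_n2 (h : NB K c) (g : V → ℝ≥0∞) : n2 (fun x => ∑' y, K x y * g y) ≤ c * n2 g :=
  nb_dual fun f => by
    rw [mul_right_comm]
    refine le_trans (le_of_eq ?_) (h f g)
    simp only [← ENNReal.tsum_mul_left, mul_assoc]

theorem NB.mul (h : NB K c) (h' : NB K' c') : NB (kmul K K') (c * c') := by
  intro f g
  calc _ = ∑' x, ∑' z, f x * K x z * ∑' y, K' z y * g y := by
        refine tsum_congr fun x => ?_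
        simp only [kmul, ← ENNReal.tsum_mul_left, ← ENNReal.tsum_mul_right, mul_assoc]
        exact ENNReal.tsum_comm
    _ ≤ c * n2 f * (c' * n2 g) := (h f _).trans (mul_le_mul' le_rfl (h'.apply_n2 g))
    _ = _ := by ring

theorem NB_one : NB (kone : Ker V) 1 := by
  intro f g
  simp only [mul_assoc, ENNReal.tsum_mul_left, tsum_kone_mul, one_mul]
  exact tsum_mul_le_n2 f g

theorem NB.pow (h : NB K c) (n : ℕ) : NB (kpow K n) (c ^ n) := by
  induction n with
  | zero => simpa [kpow] using NB_one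
  | succ n ih =>
    rw [pow_succ']
    exact h.mul ih

theorem NB.row_sq (h : NB K c) (x : V) : ∑' y, K x y ^ 2 ≤ c ^ 2 := by
  rw [← n2_sq]
  refine pow_le_pow_left' (nb_dual fun f => ?_) 2
  have := h (kone x) f
  rw [nb_n2_kone, mul_one] at this
  refine le_trans ?_ this
  refine le_trans (le_of_eq ?_) (ENNReal.le_tsum x)
  rw [kone_self]
  exact tsum_congr fun y => by ring

theorem NB.ind_self (h : NB K c) (A : Set V) :
    ∑' x, ∑' y, A.indicator 1 x * K x y * A.indicator 1 y ≤ c * cnt A := by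
  refine (h _ _).trans (le_of_eq ?_)
  rw [mul_assoc, ← pow_two, n2_indicator, nb_sqrt_sq]

theorem NB_of_forall_gt (h : ∀ c', c < c' → NB K c') : NB K c := by
  intro f g
  by_cases hf : n2 f = 0
  · simp [nb_n2_eq_zero hf]
  by_cases hg : n2 g = 0
  · simp [nb_n2_eq_zero hg]
  by_cases hc : c = 0
  · have : ∀ x y, K x y = 0 := fun x y =>
      le_antisymm (le_of_forall_gt_imp_ge_of_dense fun a ha => (h a (hc ▸ ha)).le x y) zero_le
    simp [this]
  by_cases ht : c = ⊤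
  · rw [ht, mul_assoc, ENNReal.top_mul (mul_ne_zero hf hg)]
    exact le_top
  rw [mul_assoc]
  have lim : Filter.Tendsto (fun a => a * (n2 f * n2 g)) (nhdsWithin c (Set.Ioi c))
      (nhds (c * (n2 f * n2 g))) :=
    ENNReal.Tendsto.mul_const (Filter.tendsto_id.mono_left nhdsWithin_le_nhds) (Or.inl hc)
  have : (nhdsWithin c (Set.Ioi c)).NeBot := nhdsGT_neBot_of_exists_gt ⟨⊤, lt_top_iff_ne_top.2 ht⟩
  refine ge_of_tendsto lim ?_
  filter_upwards [self_mem_nhdsWithin] with a ha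
  rw [← mul_assoc]
  exact h a ha f g

/-- Schur test -/
theorem NB_schur {u : V → ℝ} (hu : ∀ x, 0 < u x)
    (h1 : ∀ x, ∑' y, K x y * ofReal (u y / u x) ≤ c)
    (h2 : ∀ y, ∑' x, K x y * ofReal (u x / u y) ≤ c') : NB K ((c * c') ^ (1 / 2 : ℝ)) := by
  intro f g
  have half : (0 : ℝ) ≤ 1 / 2 := by norm_num
  set F : V × V → ℝ≥0∞ := fun p => f p.1 * (K p.1 p.2 * ofReal (u p.2 / u p.1)) ^ (1 / 2 : ℝ)
    with hF
  set G : V × V → ℝ≥0∞ := fun p => g p.2 * (K p.1 p.2 * ofReal (u p.1 / u p.2)) ^ (1 / 2 : ℝ)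
    with hG
  have e1 : ∑' x, ∑' y, f x * K x y * g y = ∑' p, F p * G p := by
    rw [ENNReal.tsum_prod']
    refine tsum_congr fun x => tsum_congr fun y => ?_
    have e : K x y * ofReal (u y / u x) * (K x y * ofReal (u x / u y)) = K x y ^ 2 := by
      rw [mul_mul_mul_comm, ← ENNReal.ofReal_mul (div_pos (hu y) (hu x)).le,
        div_mul_div_cancel₀ (hu x).ne', div_self (hu y).ne', ENNReal.ofReal_one, mul_one, pow_two]
    simp only [hF, hG]
    rw [mul_mul_mul_comm, ← ENNReal.mul_rpow_of_nonneg _ _ half, e, nb_sq_sqrt]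
    ring
  have e2 : n2 F ≤ c ^ (1 / 2 : ℝ) * n2 f := by
    refine nb_sqrt_le ?_
    rw [mul_pow, nb_sqrt_sq, n2_sq, ENNReal.tsum_prod', ← ENNReal.tsum_mul_left]
    refine ENNReal.tsum_le_tsum fun x => ?_
    simp only [hF, mul_pow, nb_sqrt_sq, ENNReal.tsum_mul_left]
    rw [mul_comm c]
    exact mul_le_mul' le_rfl (h1 x)
  have e3 : n2 G ≤ c' ^ (1 / 2 : ℝ) * n2 g := by
    refine nb_sqrt_le ?_
    rw [mul_pow, nb_sqrt_sq, n2_sq, ENNReal.tsum_prod', ENNReal.tsum_comm, ← ENNReal.tsum_mul_left]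
    refine ENNReal.tsum_le_tsum fun y => ?_
    simp only [hG, mul_pow, nb_sqrt_sq, ENNReal.tsum_mul_left]
    rw [mul_comm c']
    exact mul_le_mul' le_rfl (h2 y)
  rw [e1, ENNReal.mul_rpow_of_nonneg _ _ half]
  refine (tsum_mul_le_n2 F G).trans ((mul_le_mul' e2 e3).trans (le_of_eq ?_))
  ring

theorem NB_rows_cols (h1 : ∀ x, ∑' y, K x y ≤ c) (h2 : ∀ y, ∑' x, K x y ≤ c) : NB K c := by
  have := NB_schur (K := K) (c := c) (c' := c) (u := fun _ => 1) (fun _ => one_pos)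
    (by simpa using h1) (by simpa using h2)
  rwa [← pow_two, nb_sq_sqrt] at this

theorem NB_iSup {K : ℕ → Ker V} (hm : ∀ x y, Monotone fun n => K n x y) (h : ∀ n, NB (K n) c) :
    NB (fun x y => ⨆ n, K n x y) c := by
  intro f g
  rw [← ENNReal.tsum_prod' (f := fun p : V × V => f p.1 * (⨆ n, K n p.1 p.2) * g p.2),
    ENNReal.tsum_eq_iSup_sum]
  refine iSup_le fun s => ?_
  simp only [ENNReal.mul_iSup, ENNReal.iSup_mul]
  rw [ENNReal.finsetSum_iSup_of_monotone (f := fun (p : V × V) n => f p.1 * K n p.1 p.2 * g p.2)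
    fun p a b hab => mul_le_mul' (mul_le_mul' le_rfl (hm p.1 p.2 hab)) le_rfl]
  refine iSup_le fun n => (ENNReal.sum_le_tsum s).trans ?_
  rw [ENNReal.tsum_prod']
  exact h n f g

theorem NB_fix {T A E : Ker V} {c₀ a e : ℝ≥0∞} (hT : NB T c₀) (h0 : c₀ ≠ ⊤) (hA : NB A a)
    (hE : NB E e) (he : e ≤ 1 / 2) (h : ∀ x y, T x y ≤ A x y + kmul E T x y) : NB T (2 * a) := by
  have e2 : (1 / 2 : ℝ≥0∞) * 2 = 1 := by
    rw [one_div, ENNReal.inv_mul_cancel two_ne_zero ENNReal.ofNat_ne_top]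
  have key : ∀ n : ℕ, NB T (2 * a + c₀ * (1 / 2) ^ n) := fun n => by
    induction n with
    | zero => exact hT.mono (fun _ _ => le_rfl) (by simp)
    | succ n ih =>
      refine (hA.add (hE.mul ih)).mono h ?_
      calc _ ≤ a + 1 / 2 * (2 * a + c₀ * (1 / 2) ^ n) := add_le_add le_rfl (mul_le_mul' he le_rfl)
        _ = _ := by
          rw [mul_add, ← mul_assoc, e2, pow_succ]
          ring
  have lim : Filter.Tendsto (fun n : ℕ => 2 * a + c₀ * (1 / 2) ^ n) Filter.atTop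
      (nhds (2 * a + c₀ * 0)) :=
    tendsto_const_nhds.add (ENNReal.Tendsto.const_mul
      (ENNReal.tendsto_pow_atTop_nhds_zero_of_lt_one (by simp)) (Or.inr h0))
  rw [mul_zero, add_zero] at lim
  refine NB_of_forall_gt fun c' hc => ?_
  obtain ⟨n, hn⟩ := (lim.eventually_lt_const hc).exists
  exact (key n).mono (fun _ _ => le_rfl) hn.le

end Pool.Agent.P.MP_3aa27f_pr.F
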