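import Pool.Agent.P.MP_3aa27f_pr.F.Up0

/-! First necks are disjoint: the mass inequality and the decomposition of crossings. -/

open MeasureTheory unitInterval SimpleGraph
open ENNReal (ofReal)
open scoped ENNReal

namespace Pool.Agent.P.MP_3aa27f_pr.F

variable {V : Type} {G : SimpleGraph V} [G.LocallyFinite] [Countable V] {S : Geo G} {p : I}
variable (Z : Side S) {P : Par} {n : ℕ} {K₀ : ℝ}

omit [Countable V] in
theorem Side.necka_H (ok : Z.Ok P n K₀) : 0 ≤ P.H :=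
  le_trans (add_nonneg (by positivity) ok.K0) ok.hH

omit [Countable V] in
theorem Side.necka_adp (ok : Z.Ok P n K₀) (x : V) (j : ℕ) {c : ℝ}
    (hc : S.l x + (j + 1) * P.H ≤ c) : Adp G (S.E (S.l x - P.m) c) x (Z.Neck P x j) := by
  rintro ω ⟨v, v', h1, h2⟩ ω' hh
  have a1 : (0 : ℝ) ≤ P.k₁ := Nat.cast_nonneg _
  have a2 : 0 ≤ j * P.H := mul_nonneg (Nat.cast_nonneg _) (Z.necka_H ok)
  have a3 := (Z.PatN_lev h2).1
  have a4 := (Z.steps ok.s0 ok.s1.le ok.M0 (by linarith [h1.2.1, ok.m0])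
    (S.Pre_adp P.ς (S.l x - P.m) x (S.l x + j * P.H + P.k₁) P.M v) (fun _ h => h.2.2.2.1)
    P.k v').1.mono (S.E_mono le_rfl (t' := c) (by linarith [h1.2.2.1, ok.hH, ok.K0]))
    ω ⟨h1, h2⟩ ω' hh
  exact ⟨v, v', a4.1, a4.2⟩

omit [Countable V] in
theorem Side.NoNeck_adp (ok : Z.Ok P n K₀) (x : V) (i : ℕ) :
    Adp G (S.E (S.l x - P.m) (S.l x + i * P.H)) x (Z.NoNeck P x i) :=
  fun ω hω ω' hh j hj => (Z.necka_adp ok x j (c := S.l x + i * P.H) (by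
    have h1 : (j : ℝ) + 1 ≤ i := by exact_mod_cast hj
    have h2 := mul_le_mul_of_nonneg_right h1 (Z.necka_H ok)
    linarith)).compl ω (hω j hj) ω' hh

omit [Countable V] in
theorem Side.necka_ent (ok : Z.Ok P n K₀) (x : V) (i : ℕ) {v : V}
    (h : S.l x + i * P.H + P.k₁ ≤ S.l v) :
    S.l x - P.m ≤ S.l v ∧ Adp G (S.E (S.l x - P.m) (S.l v)) x
      (Z.NoNeck P x i ∩ S.Pre P.ς (S.l x - P.m) x (S.l x + i * P.H + P.k₁) P.M v) := by
  have h1 : (0 : ℝ) ≤ P.k₁ := Nat.cast_nonneg _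
  have h2 : 0 ≤ i * P.H := mul_nonneg (Nat.cast_nonneg _) (Z.necka_H ok)
  exact ⟨by linarith [ok.m0], ((Z.NoNeck_adp ok x i).mono (S.E_mono le_rfl (by linarith))).inter
    (S.Pre_adp _ _ x _ _ v)⟩

omit [Countable V] in
theorem Side.Ev_facts (ok : Z.Ok P n K₀) (x : V) (i : ℕ) (v v' : V) :
    Adp G (S.E (S.l x - P.m) (S.l v')) x (Z.Ev P x i v v') ∧
      Z.Ev P x i v v' ⊆ S.Sing P.ς (S.l x - P.m) x v' (P.M + P.k * (Z.L0 + 1)) ∧
      ∀ ω ∈ Z.Ev P x i v v', S.O v' ∧ S.l x + i * P.H + P.k₁ + P.k * Z.h0 ≤ S.l v' ∧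
        S.l v' < S.l x + i * P.H + P.k₁ + P.k * Z.h0 + S.n0 := by
  by_cases h : S.l x + i * P.H + P.k₁ ≤ S.l v
  · obtain ⟨h1, h2⟩ := Z.necka_ent ok x i h
    obtain ⟨h3, h4⟩ := Z.steps ok.s0 ok.s1.le ok.M0 h1 h2 (fun _ h => h.2.2.2.2.1) P.k v'
    refine ⟨h3, h4, fun ω hω => ?_⟩
    obtain ⟨h5, h6⟩ := Z.PatN_lev hω.2
    exact ⟨h6 hω.1.2.1, by linarith, by linarith [hω.1.2.2.2.1]⟩
  · exact ⟨fun ω hω => absurd hω.1.2.2.1 h, fun ω hω => absurd hω.1.2.2.1 h,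
      fun ω hω => absurd hω.1.2.2.1 h⟩

theorem Side.necka_meas (x : V) (i : ℕ) (v v' : V) : MeasurableSet (Z.Ev P x i v v') :=
  ((Z.measurableSet_NoNeck P x i).inter (S.measurableSet_Pre _ _ x _ _ v)).inter
    (Z.measurableSet_PatN _ v v')

omit [Countable V] in
theorem Side.necka_lev (ok : Z.Ok P n K₀) {x : V} {i : ℕ} (hi : i < n) {v v' : V} {ω : Cf V}
    (h : ω ∈ Z.Ev P x i v v') : S.l x + S.n0 ≤ S.l v' ∧ S.l v' + K₀ ≤ S.l x + P.s := by
  obtain ⟨-, h1, h2⟩ := (Z.Ev_facts ok x i v v').2.2 ω h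
  have a1 : (S.n0 : ℝ) + 2 ≤ P.k₁ := by exact_mod_cast ok.k2
  have a2 : 0 ≤ i * P.H := mul_nonneg (Nat.cast_nonneg _) (Z.necka_H ok)
  have a3 : (0 : ℝ) ≤ P.k * Z.h0 := by positivity
  have a4 : (i : ℝ) + 1 ≤ n := by exact_mod_cast hi
  have a5 := mul_le_mul_of_nonneg_right a4 (Z.necka_H ok)
  exact ⟨by linarith, by linarith [ok.hH, ok.hn]⟩

theorem Side.Ev_mu (ok : Z.Ok P n K₀) (x : V) (i : ℕ) (v v' : V) :
    mu V p (Z.Ev P x i v v') = Z.entK P p i x v * kpow (Z.W p) P.k v v' := by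
  by_cases h : S.l x + i * P.H + P.k₁ ≤ S.l v
  · exact Z.steps_mu ((Z.measurableSet_NoNeck P x i).inter (S.measurableSet_Pre _ _ x _ _ v))
      ((Z.necka_ent ok x i h).2.dep.mono Set.inter_subset_right) P.k v'
  · have e : Z.NoNeck P x i ∩ S.Pre P.ς (S.l x - P.m) x (S.l x + i * P.H + P.k₁) P.M v = ∅ :=
      Set.eq_empty_of_forall_notMem fun ω hω => h hω.2.2.1
    simp only [Side.Ev, Side.entK, e, Set.empty_inter, measure_empty, zero_mul]

theorem Side.necka_sum (x : V) (i : ℕ) {R : Set (Cf V)} (hR : MeasurableSet R) :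
    ∑' v, ∑' v', mu V p (Z.Ev P x i v v' ∩ R) ≤
      mu V p (Z.NoNeck P x i ∩ Z.Neck P x i ∩ R) := by
  rw [← ENNReal.tsum_prod, ← measure_iUnion]
  · refine measure_mono (Set.iUnion_subset fun z ω hω => ?_)
    exact ⟨⟨hω.1.1.1, z.1, z.2, hω.1.1.2, hω.1.2⟩, hω.2⟩
  · rintro ⟨v, v'⟩ ⟨u, u'⟩ h
    rw [Function.onFun, Set.disjoint_left]
    intro ω h1 h2
    obtain rfl : v = u := S.Pre_unique h1.1.1.2 h2.1.1.2
    exact h (Prod.ext rfl (Z.PatN_unique h1.1.2 h2.1.2))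
  · exact fun z => (Z.necka_meas x i z.1 z.2).inter hR

theorem Side.neckA (ok : Z.Ok P n K₀) {w₀ γ : ℝ} (w0 : 0 ≤ w₀) (γ0 : 0 ≤ γ)
    (hw : ∀ v, S.O v → ∑' v', Z.W p v v' = ofReal w₀) (he : Z.EscH P p K₀ γ) (x : V) :
    ∑ i ∈ Finset.range n, (∑' v, Z.entK P p i x v) *
        ofReal (w₀ ^ P.k * γ * P.ς ^ (P.s - i * P.H - P.k₁ - P.k * Z.h0)) ≤
      rch G p (S.E (S.l x - P.m) (S.l x + P.s)) x (S.Top (S.l x + P.s)) := by
  have hR : MeasurableSet (Rch G (S.E (S.l x - P.m) (S.l x + P.s)) x (S.Top (S.l x + P.s))) :=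
    Rch_FU.measurableSet
  refine le_trans (Finset.sum_le_sum fun i hi =>
    le_trans ?_ (Z.necka_sum (P := P) (p := p) x i hR)) ?_
  · rw [← ENNReal.tsum_mul_right]
    refine ENNReal.tsum_le_tsum fun v => ?_
    by_cases h0 : Z.entK P p i x v = 0
    · rw [h0, zero_mul]
      exact zero_le
    obtain ⟨ω₀, h1⟩ := nonempty_of_measure_ne_zero h0
    rw [mul_assoc, ENNReal.ofReal_mul (pow_nonneg w0 _), ENNReal.ofReal_pow w0,
      ← kpow_row_eq (K := Z.W p) (A := S.O)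
        (fun a b h => (nonempty_of_measure_ne_zero h).choose_spec.2.1) hw P.k h1.2.1,
      ← ENNReal.tsum_mul_right, ← ENNReal.tsum_mul_left]
    refine ENNReal.tsum_le_tsum fun v' => ?_
    rw [← mul_assoc, ← Z.Ev_mu ok]
    rcases (Z.Ev P x i v v').eq_empty_or_nonempty with h2 | ⟨ω, h2⟩
    · rw [h2, measure_empty, zero_mul]
      exact zero_le
    obtain ⟨a1, a2, a3⟩ := Z.Ev_facts ok x i v v'
    obtain ⟨a4, a5⟩ := Z.necka_lev ok (Finset.mem_range.1 hi) h2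
    refine S.low_sing ok.s0 ok.s1.le (Z.necka_meas x i v v') a1 a2 (by linarith [ok.K0])
      fun W hW => le_trans (ENNReal.ofReal_le_ofReal ?_) (he x v' W (a3 ω h2).1 a4 a5 hW)
    exact mul_le_mul_of_nonneg_left
      (Real.rpow_le_rpow_of_exponent_ge ok.s0 ok.s1.le (by linarith [(a3 ω h2).2.1])) γ0
  · rw [← measure_biUnion_finset]
    · exact measure_mono (Set.iUnion₂_subset fun i _ => Set.inter_subset_right)
    · intro i _ j _ h
      rw [Function.onFun, Set.disjoint_left]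
      intro ω h1 h2
      rcases lt_or_gt_of_ne h with h | h
      · exact h2.1.1 i h h1.1.2
      · exact h1.1.1 j h h2.1.2
    · exact fun i _ =>
        ((Z.measurableSet_NoNeck P x i).inter (Z.measurableSet_Neck P x i)).inter hR

theorem Side.neckC (ok : Z.Ok P n K₀) (x y : V) : S.kap p P.m P.s x y ≤ Z.nnK P p n x y +
    ∑ i ∈ Finset.range n, kmul (Z.entK P p i) (kmul (kpow (Z.W p) P.k)
      (S.tailK p (P.m + P.s) (P.s - i * P.H - P.k₁ - P.k * Z.h0))) x y := by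
  classical
  by_cases hy : y ∈ S.Top (S.l x + P.s)
  swap
  · rw [Geo.kap, Set.indicator_of_notMem hy]
    exact zero_le
  rw [Geo.kap, Side.nnK, Set.indicator_of_mem hy, Set.indicator_of_mem hy]
  have hsub : Cn G (S.E (S.l x - P.m) (S.l x + P.s)) x y ⊆
      Z.NoNeck P x n ∩ Cn G (S.E (S.l x - P.m) (S.l x + P.s)) x y ∪ ⋃ i ∈ Finset.range n, ⋃ v, ⋃ v',
        Z.Ev P x i v v' ∩ Cn G (S.E (S.l x - P.m) (S.l x + P.s)) x y := fun ω hω => by
    by_cases h : ∃ j, j < n ∧ ω ∈ Z.Neck P x j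
    · obtain ⟨h1, v, v', h2, h3⟩ := Nat.find_spec h
      refine Or.inr (Set.mem_iUnion₂.2 ⟨_, Finset.mem_range.2 h1, Set.mem_iUnion₂.2
        ⟨v, v', ⟨⟨fun j hj h4 => ?_, h2⟩, h3⟩, hω⟩⟩)
      exact Nat.find_min h hj ⟨hj.trans h1, h4⟩
    · exact Or.inl ⟨fun j hj h4 => h ⟨j, hj, h4⟩, hω⟩
  refine (measure_mono hsub).trans ((measure_union_le _ _).trans (add_le_add le_rfl
    ((measure_biUnion_finset_le _ _).trans (Finset.sum_le_sum fun i hi => ?_))))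
  refine (measure_iUnion_le _).trans (ENNReal.tsum_le_tsum fun v => ?_)
  rw [kmul, ← ENNReal.tsum_mul_left]
  refine (measure_iUnion_le _).trans (ENNReal.tsum_le_tsum fun v' => ?_)
  rw [← mul_assoc, ← Z.Ev_mu ok]
  rcases (Z.Ev P x i v v' ∩ Cn G (S.E (S.l x - P.m) (S.l x + P.s)) x y).eq_empty_or_nonempty
    with h2 | ⟨ω, h2, h3⟩
  · rw [h2, measure_empty]
    exact zero_le
  obtain ⟨a1, a2, a3⟩ := Z.Ev_facts ok x i v v'
  obtain ⟨a4, a5⟩ := Z.necka_lev ok (Finset.mem_range.1 hi) h2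
  obtain ⟨-, a6, a7⟩ := a3 ω h2
  have a8 : S.l x + P.s ≤ S.l y := hy
  have a9 : S.l y ≤ S.l x + P.s + 1 := by
    have : (0 : ℝ) ≤ S.n0 := Nat.cast_nonneg _
    rcases Geo.Cn_Lt (S := S) Set.inter_subset_right h3 with h | h
    · rw [h]
      linarith [ok.K0]
    · exact h.2.le
  refine (S.up_sing ok.s0 ok.s1.le (Z.necka_meas x i v v') a1 a2 (by linarith [ok.K0])
    (by linarith [ok.K0])).trans (mul_le_mul_right ?_ _)
  rw [Geo.tailK, if_pos ⟨by linarith, by linarith⟩]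
  exact tau_mono (S.E_mono (by linarith [ok.K0]) (by linarith))

end Pool.Agent.P.MP_3aa27f_pr.F
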