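import Pool.Agent.P.MP_3aa27f_pr.F.ThinA
import Pool.Agent.P.MP_3aa27f_pr.F.Meas

/-! Thinning: from a good state to the entrance of a neck. -/

open MeasureTheory unitInterval SimpleGraph
open ENNReal (ofReal)
open scoped ENNReal

namespace Pool.Agent.P.MP_3aa27f_pr.F

variable {V : Type} {G : SimpleGraph V} [G.LocallyFinite] [Countable V] {S : Geo G} {p : I}
variable {ς : ℝ}

omit [Countable V] in
theorem thin_union (S : Geo G) (t : ℝ) (N : Finset V) (K : V → Set V) :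
    S.Phi ς t (⋃ u ∈ N, K u) ≤ ∑ u ∈ N, S.Phi ς t (K u) := by
  classical
  induction N using Finset.induction_on with
  | empty => simp [Geo.Phi]
  | insert a N ha ih =>
    rw [Finset.set_biUnion_insert, Finset.sum_insert ha]
    exact (S.Phi_union_le _ _ _ _).trans (add_le_add le_rfl ih)

/-- the other points of the top window stay low and have small potential -/
def thin_B (S : Geo G) (ς : ℝ) (F : Set (Sym2 V)) (N : Finset V) (τ c M : ℝ) : Set (Cf V) :=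
  {ω | ∀ u ∈ N, ω ∉ Rch G F u (S.Top τ)} ∩ {ω | ∑ u ∈ N, S.Phi ς c (Kl G F u ω) ≤ ofReal M}

omit [Countable V] in
theorem thin_dep (S : Geo G) (F : Set (Sym2 V)) (N : Finset V) (τ c M : ℝ) :
    Dep (thin_B S ς F N τ c M) F := by
  rintro ω ω' h ⟨h1, h2⟩
  refine ⟨fun u hu h3 => h1 u hu (Rch_dep (fun e he => (h e he).symm) h3), ?_⟩
  have e : ∀ u, Kl G F u ω' = Kl G F u ω := fun u => Kl_congr fun e he _ => h e he
  simpa only [Set.mem_ofPred_eq, e] using h2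

theorem thin_meas (S : Geo G) (F : Set (Sym2 V)) (N : Finset V) (τ c M : ℝ) :
    MeasurableSet (thin_B S ς F N τ c M) := by
  refine MeasurableSet.inter ?_ (measurableSet_le
    (Finset.measurable_sum _ fun u _ => S.measurable_Phi ς c F u) measurable_const)
  have : {ω | ∀ u ∈ N, ω ∉ Rch G F u (S.Top τ)} = ⋂ u ∈ N, (Rch G F u (S.Top τ))ᶜ := by
    ext; simp
  rw [this]
  exact N.measurableSet_biInter fun u _ => Rch_FU.measurableSet.compl

theorem thin_half (S : Geo G) {F : Set (Sym2 V)} {N : Finset V} {τ c M₁ B α : ℝ} (M1 : 1 ≤ M₁)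
    (B1 : 1 ≤ B) (hN : (N.card : ℝ≥0∞) ≤ ofReal M₁) (hα : M₁ * α ≤ 1 / 4)
    (h1 : ∀ u ∈ N, rch G p F u (S.Top τ) ≤ ofReal α)
    (h2 : ∀ u ∈ N, ∫⁻ ω, S.Phi ς c (Kl G F u ω) ∂mu V p ≤ ofReal B) :
    ofReal (1 / 2) ≤ mu V p (thin_B S ς F N τ c (4 * M₁ * B)) := by
  have hs : (thin_B S ς F N τ c (4 * M₁ * B))ᶜ ⊆ (⋃ u ∈ N, Rch G F u (S.Top τ)) ∪
      {ω | ofReal (4 * M₁ * B) ≤ ∑ u ∈ N, S.Phi ς c (Kl G F u ω)} := fun ω hω => by
    by_cases h : ∀ u ∈ N, ω ∉ Rch G F u (S.Top τ)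
    · have h' : ¬ ∑ u ∈ N, S.Phi ς c (Kl G F u ω) ≤ ofReal (4 * M₁ * B) := fun h' => hω ⟨h, h'⟩
      exact Or.inr (not_le.1 h').le
    · left
      push Not at h
      simpa using h
  have a1 : mu V p (⋃ u ∈ N, Rch G F u (S.Top τ)) ≤ ofReal (1 / 4) := by
    refine (measure_biUnion_finset_le _ _).trans ((Finset.sum_le_sum h1).trans ?_)
    rw [Finset.sum_const, nsmul_eq_mul]
    refine (mul_le_mul_left hN _).trans ?_
    rw [← ENNReal.ofReal_mul (by linarith)]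
    exact ENNReal.ofReal_le_ofReal hα
  have q0 : 0 < 4 * M₁ * B := by positivity
  have a2 : mu V p {ω | ofReal (4 * M₁ * B) ≤ ∑ u ∈ N, S.Phi ς c (Kl G F u ω)} ≤
      ofReal (1 / 4) := by
    refine (meas_ge_le_lintegral_div
      (Finset.measurable_sum _ fun u _ => S.measurable_Phi ς c F u).aemeasurable
      (ENNReal.ofReal_pos.2 q0).ne' ENNReal.ofReal_ne_top).trans ?_
    rw [lintegral_finsetSum _ fun u _ => S.measurable_Phi ς c F u]
    refine ENNReal.div_le_of_le_mul ((Finset.sum_le_sum h2).trans ?_)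
    rw [Finset.sum_const, nsmul_eq_mul]
    refine (mul_le_mul_left hN _).trans (le_of_eq ?_)
    rw [← ENNReal.ofReal_mul (by linarith), ← ENNReal.ofReal_mul (by norm_num)]
    congr 1; ring
  have a3 : mu V p (thin_B S ς F N τ c (4 * M₁ * B))ᶜ ≤ ofReal (1 / 2) := by
    refine ((measure_mono hs).trans (measure_union_le _ _)).trans ((add_le_add a1 a2).trans ?_)
    rw [← ENNReal.ofReal_add (by norm_num) (by norm_num)]
    exact ENNReal.ofReal_le_ofReal (by norm_num)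
  have a4 := measure_add_measure_compl (μ := mu V p) (thin_meas (ς := ς) S F N τ c (4 * M₁ * B))
  rw [measure_univ] at a4
  refine (ENNReal.add_le_add_iff_right (a := ofReal (1 / 2)) ENNReal.ofReal_ne_top).1 ?_
  rw [← ENNReal.ofReal_add (by norm_num) (by norm_num)]
  refine le_trans (le_of_eq ?_) (a4.ge.trans (add_le_add le_rfl a3))
  norm_num

theorem Geo.thin (S : Geo G) (s0 : 0 < ς) (s1 : ς < 1) {a t h M₁ M f B : ℝ} {x : V} {k₁ : ℕ}
    (k2 : 2 ≤ k₁) (hx : S.l x ≤ t) (ha : a ≤ t) (M1 : 1 ≤ M₁) (M0 : 0 ≤ M) (B1 : 1 ≤ B)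
    (f0 : 0 ≤ f)
    (hf : ∀ w, rch G p (S.E a (t + k₁)) w (S.Top (t + k₁)) ≤ ofReal (f * ς ^ (t + k₁ - S.l w)))
    (hB : S.GB p ς h B) (hh : t + k₁ + S.n0 - a ≤ h) (hk : M₁ * f * ς ^ ((k₁ : ℝ) - 1) ≤ 1 / 4)
    {A : Set (Cf V)} (hA : MeasurableSet A) (dA : Adp G (S.E a t) x A) :
    ofReal (min (p : ℝ) (1 - p) ^ (S.D * (k₁ + S.n0 + 1)) / 2) *
        mu V p (A ∩ S.Good ς a x t M₁ M) ≤
      ∑' v, mu V p (A ∩ S.Pre ς a x (t + k₁) (M + k₁ + S.n0 + 1 + 4 * M₁ * B) v) := by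
  classical
  have k2' : (2 : ℝ) ≤ k₁ := by exact_mod_cast k2
  have fin : ∀ ω ∈ A ∩ S.Good ς a x t M₁ M, (Kl G (S.E a t) x ω).Finite := fun ω hω =>
    S.Cl_finite_of_Phi s0 s1.le (ne_top_of_le_ne_top ENNReal.ofReal_ne_top hω.2.2.2)
  rw [mul_comm]
  refine (expl_ge (B := ⋃ v, S.Pre ς a x (t + k₁) (M + k₁ + S.n0 + 1 + 4 * M₁ * B) v)
    (hA.inter (S.measurableSet_Good ς a x t M₁ M)) (dA.inter (S.Good_adp ς a x t M₁ M)) fin
    fun ω hω => ?_).trans (cnx_union _ _ (fun ω hω => ?_) fun v => le_rfl)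
  swap
  · obtain ⟨v, hv⟩ := Set.mem_iUnion.1 hω.2
    exact ⟨v, hω.1.1, hv⟩
  have lt : ∀ u ∈ S.Cl a x t ω, S.l u < t + 1 := fun u hu => by
    rcases Geo.Cn_Lt Set.inter_subset_right hu with rfl | h
    · linarith
    · exact h.2
  obtain ⟨⟨v₀, h0⟩, hN, -⟩ := hω.2
  obtain ⟨v, w, hO, h1, h2, ht, hfirst⟩ := S.route v₀ (τ := t + k₁) (by linarith [lt v₀ h0.1])
  have t0 : t ≤ S.l v₀ := h0.2
  have hl : w.length + 1 ≤ k₁ + S.n0 + 1 := by
    have : (w.length : ℝ) ≤ k₁ + S.n0 := by linarith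
    exact Nat.succ_le_succ (by exact_mod_cast this)
  have es : ((w.support.toFinset : Finset V) : Set V) = {z | z ∈ w.support} := by ext; simp
  have fJ : (G.edgeSet ∩ ETo {z | z ∈ w.support}).Finite :=
    edges_touch_finite (List.finite_toSet _)
  have fJ' : (G.edgeSet ∩ ETo {z | z ∈ w.support} ∩ S.E t (S.l v)).Finite := fJ.inter_of_left _
  have cJ : fJ'.toFinset.card ≤ S.D * (k₁ + S.n0 + 1) := by
    rw [← Set.ncard_eq_toFinset_card _ fJ']
    refine (Set.ncard_le_ncard Set.inter_subset_left fJ).trans ?_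
    rw [← es]
    refine (edges_touch_card S _).trans (Nat.mul_le_mul_left _ ?_)
    exact (List.toFinset_card_le _).trans (by rwa [Walk.length_support])
  have mJ : ∀ e, e ∈ fJ'.toFinset ↔
      (e ∈ G.edgeSet ∧ e ∈ ETo {z | z ∈ w.support}) ∧ e ∈ S.E t (S.l v) := fun e =>
    fJ'.mem_toFinset
  generalize fJ'.toFinset = J at cJ mJ
  have fN : ((S.Cl a x t ω ∩ S.Top t) \ {v₀}).Finite :=
    (fin ω hω).subset fun u hu => hu.1.1
  have cN : (fN.toFinset.card : ℝ≥0∞) ≤ ofReal M₁ := by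
    rw [← cnt_finset, fN.coe_toFinset]
    exact (cnt_mono Set.sdiff_subset).trans hN
  have mN : ∀ u, u ∈ fN.toFinset ↔ u ∈ (S.Cl a x t ω ∩ S.Top t) \ {v₀} := fun u => fN.mem_toFinset
  generalize fN.toFinset = N at cN mN
  set F : Set (Sym2 V) := (S.E a (S.l v) \ (S.E a t ∩ ETo (S.Cl a x t ω))) \ J with hF
  have FE : F ⊆ S.E a (S.l v) := fun e he => he.1.1
  have d1 : Dep {ω' : Cf V | ∀ e ∈ J, ω' e = ind w.edges e} J := dep_cyl (J : Set (Sym2 V)) _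
  have m1 : MeasurableSet {ω' : Cf V | ∀ e ∈ J, ω' e = ind w.edges e} :=
    (d1.loc J.finite_toSet).measurableSet
  have d2 := thin_dep (ς := ς) S F N (t + k₁) (S.l v) (4 * M₁ * B)
  have m2 := thin_meas (ς := ς) S F N (t + k₁) (S.l v) (4 * M₁ * B)
  refine ⟨{ω' : Cf V | ∀ e ∈ J, ω' e = ind w.edges e} ∩
    thin_B S ς F N (t + k₁) (S.l v) (4 * M₁ * B), m1.inter m2,
    (d1.mono ?_).inter (d2.mono fun e he => he.1.2), ?_, fun ω' hω' e hD => ?_⟩
  · intro e he h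
    exact Set.disjoint_left.1 (S.disjoint_Lt_Ge le_rfl) h.1.2 ((mJ e).1 he).2.1
  · rw [mu, PM_indep _ m1 m2 d1 d2 Set.disjoint_sdiff_right, div_eq_mul_one_div,
      ENNReal.ofReal_mul (pow_nonneg (le_min p.2.1 (sub_nonneg.2 p.2.2)) _)]
    refine mul_le_mul' (PM_cyl_ge p J _ cJ) (thin_half S (α := f * ς ^ ((k₁ : ℝ) - 1)) M1 B1 cN
      (by rwa [← mul_assoc]) (fun u hu => ?_) fun u hu => ?_)
    · have := lt u ((mN u).1 hu).1.1
      have sub : F ∩ S.Lt (t + k₁) ⊆ S.E a (t + k₁) := fun e he => ⟨he.1.1.1.1, he.2⟩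
      refine le_trans (measure_mono ((S.Rch_first le_rfl).trans (Rch_mono sub le_rfl)))
        ((hf u).trans ?_)
      refine ENNReal.ofReal_le_ofReal (mul_le_mul_of_nonneg_left ?_ f0)
      exact Real.rpow_le_rpow_of_exponent_ge s0 s1.le (by linarith)
    · have := lt u ((mN u).1 hu).1.1
      refine le_trans (lintegral_mono fun ω' => S.Phi_mono ς _ (Kl_mono FE))
        ((hB.phi s0 u (a := a) (c := S.l v) (by linarith) (S.l v)).trans ?_)
      refine ENNReal.ofReal_le_ofReal (mul_le_of_le_one_right (by linarith) ?_)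
      exact Real.rpow_le_one s0.le s1.le (by linarith)
  · have e' : S.Cl a x t ω' = S.Cl a x t ω := e
    have key := S.thin_geo s0 s1.le (τ := t + k₁) (M₂ := 4 * M₁ * B) (ω := ω') M0 (by positivity)
      hx ha (by linarith) (e' ▸ h0) w hO h1 h2 ht hfirst (fun e he => ?_) (fun e a1 a2 a3 a4 => ?_)
      (F := F) (fun e a1 a2 a3 a4 => ⟨⟨a2, e' ▸ a3⟩, fun h => a4 ⟨((mJ e).1 h).1.2, ((mJ e).1 h).2⟩⟩)
      (fun u hu hu' => hD.2.1 u ((mN u).2 ⟨e' ▸ hu, hu'⟩)) hω'.2.2.2 ?_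
    · obtain ⟨b1, b2, b3, ⟨b4, b5, b6⟩, b7⟩ := key
      refine Set.mem_iUnion.2 ⟨v, b1, b2, b3, ⟨b4, b5, b6.trans (ENNReal.ofReal_le_ofReal ?_)⟩, b7⟩
      have : ((w.length + 1 : ℕ) : ℝ) ≤ (k₁ + S.n0 + 1 : ℕ) := by exact_mod_cast hl
      push_cast at this
      linarith
    · rw [hD.1 e ((mJ e).2 ⟨⟨w.edges_subset_edgeSet he, e.out.1, e.out_fst_mem,
        Walk.mem_support_of_mem_edges he e.out_fst_mem⟩,
        S.tight_edges' w ht t0 (by linarith) e he⟩)]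
      exact ind_true.2 he
    · rw [hD.1 e ((mJ e).2 ⟨⟨a1, a2⟩, a3⟩)]
      exact Bool.eq_false_iff.2 fun h => a4 (ind_true.1 h)
    · refine le_trans (S.Phi_mono ς _ ?_) ((thin_union S _ N fun u => Kl G F u ω').trans hD.2.2)
      rw [e']
      exact Set.iUnion₂_subset fun u hu => Set.subset_biUnion_of_mem (u := fun u => Kl G F u ω')
        ((mN u).2 hu)

end Pool.Agent.P.MP_3aa27f_pr.F
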