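import Pool.Agent.P.MP_3aa27f_pr.F.NeckA
import Pool.Agent.P.MP_3aa27f_pr.F.Thin
import Pool.Agent.P.MP_3aa27f_pr.F.Sm
import Pool.Agent.P.MP_3aa27f_pr.F.Gob

/-! Crossings without a neck are controlled by the entrances of necks. -/

open MeasureTheory unitInterval SimpleGraph
open ENNReal (ofReal)
open scoped ENNReal

namespace Pool.Agent.P.MP_3aa27f_pr.F

variable {V : Type} {G : SimpleGraph V} [G.LocallyFinite] [Countable V] {S : Geo G} {p : I}
variable (Z : Side S)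

theorem Side.neckB {ς : ℝ} (s0 : 0 < ς) (s1 : ς < 1) (sb : ς ^ 2 * S.b ≤ 1) :
    ∃ C : ℝ, 1 ≤ C ∧ ∀ (p : I) (P : Par) (n : ℕ) (K₀ B Γ M₁ M₀ : ℝ), 0 < (p : ℝ) → (p : ℝ) < 1 →
      P.ς = ς → Z.Ok P n K₀ → 1 ≤ B → 1 ≤ Γ → 1 ≤ M₁ → 1 ≤ M₀ →
      S.BB p ς (P.m + P.s + 1) ⊤ B → S.GB p ς (P.m + P.s) Γ →
      M₁ * B * ς ^ ((P.k₁ : ℝ) - 1) ≤ 1 / 4 → P.M = M₀ + P.k₁ + S.n0 + 1 + 4 * M₁ * Γ →
      ∀ i < n, ∀ x, ∑' y, Z.nnK P p n x y ≤
        ofReal (C * (B ^ 4 / M₁ + Γ ^ 3 * B / M₀) * ς ^ P.s) +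
          ofReal (2 * M₁ * B * ς ^ (P.s - i * P.H - 1) /
            min (p : ℝ) (1 - p) ^ (S.D * (P.k₁ + S.n0 + 1))) * ∑' v, Z.entK P p i x v := by
  obtain ⟨C, C1, hC⟩ := S.sm s0 s1 sb
  have s2 : ς ^ 2 ≤ 1 := pow_le_one₀ s0.le s1.le
  refine ⟨C / ς ^ 2, by rw [le_div_iff₀ (by positivity)]; linarith, ?_⟩
  intro p P n K₀ B Γ M₁ M₀ p0 p1 hς ok B1 Γ1 M1 M0 hB hΓ hk hM i hi x
  have k0 : (0 : ℝ) ≤ P.k₁ := Nat.cast_nonneg _
  have n0 : (0 : ℝ) ≤ S.n0 := Nat.cast_nonneg _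
  have kh : (0 : ℝ) ≤ P.k * Z.h0 := by positivity
  have i0 : (0 : ℝ) ≤ i := Nat.cast_nonneg _
  have hH := ok.hH
  have K0 := ok.K0
  have m0 := ok.m0
  have H0 : 0 ≤ P.H := by linarith
  have iH : 0 ≤ i * P.H := mul_nonneg i0 H0
  have hs : i * P.H + P.H ≤ P.s := by
    have : (i : ℝ) + 1 ≤ n := by exact_mod_cast hi
    nlinarith [ok.hn]
  have mA := Z.measurableSet_NoNeck P x i
  have dA := Z.NoNeck_adp ok x i
  have h1 := S.up_top s0 s1.le (c := S.l x + P.s) mA dA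
    ((hΓ.ae_finite s0 s1.le x (by linarith)).mono fun ω h _ => h) (by linarith) (by linarith) hB B1
    (by linarith)
  have h2 := S.up_good (p := p) s0 s1.le (a := S.l x - P.m) (t := S.l x + i * P.H) (x := x)
    (lt_of_lt_of_le one_pos M1) (lt_of_lt_of_le one_pos M0) mA
  have h3 : ∫⁻ ω, cnt (S.Cl (S.l x - P.m) x (S.l x + i * P.H) ω ∩ S.Top (S.l x + i * P.H)) ^ 2
      ∂mu V p ≤ ofReal (C * B ^ 3 * ς ^ (i * P.H)) := by
    have := hC p (P.m + P.s) B ⊤ B1 hB x (S.l x - P.m) (S.l x + i * P.H) (S.l x + i * P.H)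
      (by linarith) le_rfl
    simp only [sub_self, mul_zero, zero_div, neg_zero, Real.rpow_zero, mul_one,
      add_sub_cancel_left] at this
    refine le_trans (lintegral_mono fun ω => pow_le_pow_left' (cnt_mono ?_) 2) this
    rintro y ⟨a1, a2⟩
    refine ⟨⟨a2, ?_⟩, by rw [Set.mem_ofPred_eq, CnL_top]; exact a1⟩
    rcases Geo.Cn_Lt (S := S) (t := S.l x + i * P.H) Set.inter_subset_right a1 with h | h
    · rw [h]; linarith
    · exact h.2.le
  have h4 := hΓ.phi2 s0 s1.le x (a := S.l x - P.m) (c := S.l x + i * P.H) (by linarith)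
    (by linarith)
  have h5 := S.thin s0 s1 (a := S.l x - P.m) (t := S.l x + i * P.H) (x := x) (k₁ := P.k₁)
    (le_trans (Nat.le_add_left _ _) ok.k2) (by linarith) (by linarith) M1
    (le_trans zero_le_one M0) Γ1 (le_trans zero_le_one B1)
    (fun w => hB.fb s0 s1.le B1 _ w _ _ le_rfl (by linarith)) hΓ (by linarith) hk mA dA
  rw [← hM, ← hς] at h5
  change _ ≤ ∑' v, Z.entK P p i x v at h5
  rw [hς] at h5
  set μ := min (p : ℝ) (1 - p) ^ (S.D * (P.k₁ + S.n0 + 1)) with hμ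
  have μ0 : 0 < μ := pow_pos (lt_min p0 (by linarith)) _
  have h6 : mu V p (Z.NoNeck P x i ∩ S.Good ς (S.l x - P.m) x (S.l x + i * P.H) M₁ M₀) ≤
      ofReal (2 / μ) * ∑' v, Z.entK P p i x v := by
    refine le_trans (le_of_eq ?_) (mul_le_mul_right h5 _)
    rw [← mul_assoc, ← ENNReal.ofReal_mul (by positivity)]
    have : 2 / μ * (μ / 2) = 1 := by field_simp
    rw [this, ENNReal.ofReal_one, one_mul]
  rw [add_sub_cancel_left] at h4
  have e1 : S.l x + P.s - (S.l x + i * P.H) - 1 = P.s - i * P.H - 1 := by ring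
  rw [e1] at h1
  have e2 : ς ^ (P.s - i * P.H - 1) * ς ^ (i * P.H) = ς ^ P.s / ς := by
    rw [← Real.rpow_add s0, ← Real.rpow_sub_one s0.ne']
    congr 1; ring
  have t0 := Real.rpow_pos_of_pos s0 (P.s - i * P.H - 1)
  have t1 := Real.rpow_pos_of_pos s0 (i * P.H)
  have t2 := Real.rpow_pos_of_pos s0 P.s
  have h7 : Z.NoNeck P x n ⊆ Z.NoNeck P x i := fun ω hω j hj => hω j (hj.trans hi)
  refine le_trans (ENNReal.tsum_le_tsum fun y => Set.indicator_le_indicator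
    (measure_mono (Set.inter_subset_inter_left _ h7))) (h1.trans ?_)
  calc _ ≤ ofReal (B * ς ^ (P.s - i * P.H - 1)) *
        (ofReal M₁ * (ofReal (2 / μ) * ∑' v, Z.entK P p i x v) +
          ofReal (C * B ^ 3 * ς ^ (i * P.H)) / ofReal M₁ +
          ofReal (Γ ^ 3 * ς ^ (i * P.H) / ς) / ofReal M₀) :=
        mul_le_mul_right (h2.trans (add_le_add (add_le_add (mul_le_mul_right h6 _)
          (ENNReal.div_le_div_right h3 _)) (ENNReal.div_le_div_right h4 _))) _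
    _ ≤ _ := by
        rw [add_assoc, mul_add, add_comm, ← ENNReal.ofReal_div_of_pos (by linarith),
          ← ENNReal.ofReal_div_of_pos (by linarith),
          ← ENNReal.ofReal_add (by positivity) (by positivity),
          ← ENNReal.ofReal_mul (by positivity), ← mul_assoc, ← mul_assoc,
          ← ENNReal.ofReal_mul (by positivity), ← ENNReal.ofReal_mul (by positivity)]
        refine add_le_add (ENNReal.ofReal_le_ofReal ?_) (le_of_eq ?_)
        · calc _ = (C / ς * (B ^ 4 / M₁) + 1 / ς ^ 2 * (Γ ^ 3 * B / M₀)) * ς ^ P.s := by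
                have e3 : ς ^ P.s = ς ^ (P.s - i * P.H - 1) * ς ^ (i * P.H) * ς := by
                  rw [e2]; field_simp
                rw [e3]; field_simp
            _ ≤ (C / ς ^ 2 * (B ^ 4 / M₁) + C / ς ^ 2 * (Γ ^ 3 * B / M₀)) * ς ^ P.s := by
                gcongr
                nlinarith
            _ = _ := by ring
        · congr 2; ring

end Pool.Agent.P.MP_3aa27f_pr.F
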