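import Pool.Agent.P.MP_3aa27f_pr.F.Trn
import Pool.Agent.P.MP_3aa27f_pr.F.Meas

/-! Invariance of the neck kernels. -/

open MeasureTheory unitInterval SimpleGraph
open ENNReal (ofReal)
open scoped ENNReal

namespace Pool.Agent.P.MP_3aa27f_pr.F

variable {V : Type} {G : SimpleGraph V} [G.LocallyFinite] [Countable V] {S : Geo G} {p : I}

section

omit [Countable V]

variable {g : G ≃g G} {δ : ℝ} {ω : Cf V}

omit [G.LocallyFinite] in
theorem necki_cnt (g : G ≃g G) (C : Set V) : cnt (g '' C) = cnt C := by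
  unfold cnt
  rw [← trn_tsum g]
  refine tsum_congr fun w => ?_
  by_cases h : w ∈ C
  · rw [Set.indicator_of_mem h, Set.indicator_of_mem ((trn_mem_img g).2 h)]
    rfl
  · rw [Set.indicator_of_notMem h, Set.indicator_of_notMem (mt (trn_mem_img g).1 h)]

theorem necki_Pat (Z : Side S) (hg : g ∈ S.Γ) (hδ : ∀ v, S.l (g v) = S.l v + δ) (v v' : V) :
    ω ∈ Z.Pat (g v) (g v') ↔ act g ω ∈ Z.Pat v v' := by
  have e : S.Cl (S.l (g v)) (g v) (S.l (g v) + Z.h0) ω =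
      g '' S.Cl (S.l v) v (S.l v + Z.h0) (act g ω) := by
    rw [← Geo.act_Cl hδ, hδ, add_right_comm _ δ]
  unfold Side.Pat
  simp only [Set.mem_ofPred_eq]
  rw [e, necki_cnt, trn_mem_img, Set.forall_mem_image, Geo.O_map_iff hg, Geo.O_map_iff hg]
  simp only [hδ, g.injective.eq_iff, add_right_comm _ δ, add_left_inj, add_le_add_iff_right]

theorem necki_PatN (Z : Side S) (hg : g ∈ S.Γ) (hδ : ∀ v, S.l (g v) = S.l v + δ) (k : ℕ)
    (v v' : V) : ω ∈ Z.PatN k (g v) (g v') ↔ act g ω ∈ Z.PatN k v v' := by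
  induction k generalizing v' with
  | zero => exact g.injective.eq_iff
  | succ k ih =>
    change (∃ u, ω ∈ Z.PatN k (g v) u ∧ ω ∈ Z.Pat u (g v')) ↔
      ∃ u, act g ω ∈ Z.PatN k v u ∧ act g ω ∈ Z.Pat u v'
    rw [g.surjective.exists]
    exact exists_congr fun u => and_congr (ih u) (necki_Pat Z hg hδ u v')

theorem necki_Sing (hδ : ∀ v, S.l (g v) = S.l v + δ) (ς a : ℝ) (x v : V) (M : ℝ) :
    ω ∈ S.Sing ς (a + δ) (g x) (g v) M ↔ act g ω ∈ S.Sing ς a x v M := by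
  unfold Geo.Sing
  simp only [Set.mem_ofPred_eq]
  rw [hδ v, Geo.act_Cl hδ, Geo.Phi_image hδ, trn_mem_img, Set.forall_mem_image]
  simp only [hδ, g.injective.eq_iff, add_le_add_iff_right]

theorem necki_Pre (hg : g ∈ S.Γ) (hδ : ∀ v, S.l (g v) = S.l v + δ) (ς a : ℝ) (x : V) (τ M : ℝ)
    (v : V) : ω ∈ S.Pre ς (a + δ) (g x) (τ + δ) M (g v) ↔ act g ω ∈ S.Pre ς a x τ M v := by
  unfold Geo.Pre
  simp only [Set.mem_ofPred_eq]
  rw [necki_Sing hδ, hδ v, Geo.act_Cl hδ, Set.forall_mem_image]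
  simp only [hδ, g.injective.eq_iff, Geo.O_map_iff hg, add_right_comm _ δ, add_le_add_iff_right,
    add_lt_add_iff_right]

theorem necki_Pre' (P : Par) (hg : g ∈ S.Γ) (hδ : ∀ v, S.l (g v) = S.l v + δ) (x : V) (i : ℕ)
    (v : V) : ω ∈ S.Pre P.ς (S.l (g x) - P.m) (g x) (S.l (g x) + i * P.H + P.k₁) P.M (g v) ↔
      act g ω ∈ S.Pre P.ς (S.l x - P.m) x (S.l x + i * P.H + P.k₁) P.M v := by
  rw [← necki_Pre hg hδ, hδ x, add_sub_right_comm, add_right_comm _ δ, add_right_comm _ δ]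

theorem necki_Neck (Z : Side S) (P : Par) (hg : g ∈ S.Γ) (hδ : ∀ v, S.l (g v) = S.l v + δ)
    (x : V) (i : ℕ) : ω ∈ Z.Neck P (g x) i ↔ act g ω ∈ Z.Neck P x i := by
  unfold Side.Neck
  simp only [Set.mem_ofPred_eq]
  rw [g.surjective.exists]
  refine exists_congr fun v => ?_
  rw [g.surjective.exists]
  exact exists_congr fun v' => and_congr (necki_Pre' P hg hδ x i v) (necki_PatN Z hg hδ _ v v')

theorem necki_NoNeck (Z : Side S) (P : Par) (hg : g ∈ S.Γ) (hδ : ∀ v, S.l (g v) = S.l v + δ)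
    (x : V) (i : ℕ) : ω ∈ Z.NoNeck P (g x) i ↔ act g ω ∈ Z.NoNeck P x i :=
  forall_congr' fun j => imp_congr_right fun _ => not_congr (necki_Neck Z P hg hδ x j)

end

theorem Side.W_inv (Z : Side S) (p : I) : S.Inv (Z.W p) := by
  intro g hg x y
  obtain ⟨δ, hδ⟩ := Geo.exists_shift hg
  unfold Side.W
  rw [← mu_act g (Z.measurableSet_Pat x y)]
  congr 1
  ext ω
  exact necki_Pat Z hg hδ x y

theorem Side.entK_inv (Z : Side S) (P : Par) (p : I) (i : ℕ) : S.Inv (Z.entK P p i) := by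
  intro g hg x y
  obtain ⟨δ, hδ⟩ := Geo.exists_shift hg
  unfold Side.entK
  rw [← mu_act g ((Z.measurableSet_NoNeck P x i).inter (S.measurableSet_Pre _ _ x _ _ y))]
  congr 1
  ext ω
  exact and_congr (necki_NoNeck Z P hg hδ x i) (necki_Pre' P hg hδ x i y)

theorem Side.nnK_inv (Z : Side S) (P : Par) (p : I) (n : ℕ) : S.Inv (Z.nnK P p n) := by
  intro g hg x y
  obtain ⟨δ, hδ⟩ := Geo.exists_shift hg
  have h2 : g y ∈ S.Top (S.l (g x) + P.s) ↔ y ∈ S.Top (S.l x + P.s) := by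
    simp only [Geo.Top, Set.mem_ofPred_eq, hδ, add_right_comm _ δ, add_le_add_iff_right]
  unfold Side.nnK
  by_cases h : y ∈ S.Top (S.l x + P.s)
  · rw [Set.indicator_of_mem h, Set.indicator_of_mem (h2.2 h),
      ← mu_act g ((Z.measurableSet_NoNeck P x n).inter (Cn_FU (x := x) (y := y)).measurableSet)]
    congr 1
    ext ω
    refine and_congr (necki_NoNeck Z P hg hδ x n) ?_
    rw [act_Cn, Geo.map_E hδ, hδ x, add_sub_right_comm, add_right_comm _ δ]
  · rw [Set.indicator_of_notMem h, Set.indicator_of_notMem (mt h2.1 h)]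

end Pool.Agent.P.MP_3aa27f_pr.F
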