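import Pool.Agent.P.MP_3aa27f_pr.F.Defs

/-! Choice of the parameters. -/

open MeasureTheory unitInterval SimpleGraph
open ENNReal (ofReal)
open scoped ENNReal

namespace Pool.Agent.P.MP_3aa27f_pr.F

theorem num7_root {T C' : ℝ} (T1 : 1 ≤ T) (h : C' ^ 2 ≤ T) {Z : ℝ} (Z0 : 0 ≤ Z)
    {g : ℕ} (g0 : 0 < g) (hZ : Z ≤ T ^ g) : C' * Z ^ (1 / (2 * g) : ℝ) ≤ T := by
  have g1 : (0 : ℝ) < g := by exact_mod_cast g0
  have h1 : Z ^ (1 / (2 * g) : ℝ) ≤ Real.sqrt T := by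
    refine (Real.rpow_le_rpow Z0 hZ (by positivity)).trans (le_of_eq ?_)
    rw [← Real.rpow_natCast, ← Real.rpow_mul (by linarith), Real.sqrt_eq_rpow]
    congr 1; field_simp
  have h2 : C' ≤ Real.sqrt T := Real.le_sqrt_of_sq_le h
  calc C' * Z ^ (1 / (2 * g) : ℝ) ≤ Real.sqrt T * Real.sqrt T :=
        mul_le_mul h2 h1 (by positivity) (Real.sqrt_nonneg _)
    _ = T := Real.mul_self_sqrt (by linarith)

theorem num7_half {x : ℝ} (x0 : 0 ≤ x) {m : ℕ} (h : x ^ m ≤ 1 / 2) (j t : ℕ) :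
    x ^ (j * m * t) * ((2 : ℝ) ^ t) ^ j ≤ 1 := by
  have : x ^ (j * m * t) * ((2 : ℝ) ^ t) ^ j = (x ^ m * 2) ^ (j * t) := by
    rw [mul_pow, ← pow_mul, ← pow_mul]; congr 1 <;> congr 1 <;> ring
  rw [this]
  exact pow_le_one₀ (by positivity) (by linarith)

theorem num7_real {C c ς : ℝ} (n₀ h₀ L₀ : ℕ) (C1 : 1 ≤ C) (c0 : 0 < c) (c1 : c < 1) (s0 : 0 < ς)
    (s1 : ς < 1) {Bd : ℝ → ℝ → Prop} {Es : ℝ → ℝ → ℝ → Prop}
    (hB : ∀ ε : ℝ, 0 < ε → ∃ C', 1 ≤ C' ∧ ∀ h, 0 ≤ h → Bd h (C' * (h + 1) ^ ε))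
    (hE : ∀ ε : ℝ, 0 < ε → ∃ C', 1 ≤ C' ∧ ∀ X, 1 ≤ X →
      ∃ K₀, 0 ≤ K₀ ∧ K₀ ≤ C' * X ^ ε ∧ Es X K₀ (C' * X ^ ε)) :
    ∃ (s B Γ η M₁ M₀ X K₀ Y H : ℝ) (k k₁ n N : ℕ), 1 ≤ s ∧ 1 ≤ B ∧ Bd (20 * (s + n₀ + 1) ^ 2) B ∧
      Γ = C * (20 * (s + n₀ + 1) ^ 2) ^ 2 * B ^ 2 ∧ η = 1 / (16 * C ^ 2 * B ^ 3) ∧
      M₁ = 16 * C * B ^ 4 ∧ M₀ = 16 * C * Γ ^ 3 * B ∧ n₀ + 2 ≤ k₁ ∧
      M₁ * B * ς ^ ((k₁ : ℝ) - 1) ≤ 1 / 4 ∧
      B * (M₀ + k₁ + n₀ + 1 + 4 * M₁ * Γ + k * (L₀ + 1)) ≤ X * η ∧ 0 ≤ K₀ ∧ 0 < Y ∧ Es X K₀ Y ∧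
      C * ((1 - c) ^ k * B ^ 2 / (η / Y)) ≤ 1 / 16 ∧ (k₁ : ℝ) + n₀ + k * h₀ + K₀ ≤ H ∧ 1 ≤ n ∧
      n * H ≤ s ∧ C * (M₁ * B ^ 2 / (n * (η / Y) * c ^ (k + k₁))) ≤ 1 / 16 ∧
      N * (s + n₀ + 1) ≤ s ^ 2 ∧ 8 * C * Γ ≤ 4 ^ N := by
  obtain ⟨m, hm⟩ := exists_pow_lt_of_lt_one (x := (1 / 2 : ℝ)) (y := max ς (1 - c)) (by norm_num)
    (max_lt s1 (by linarith))
  have m1 : ς ^ m ≤ 1 / 2 := (pow_le_pow_left₀ s0.le (le_max_left _ _) m).trans hm.le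
  have m2 : (1 - c) ^ m ≤ 1 / 2 := (pow_le_pow_left₀ (by linarith) (le_max_right _ _) m).trans hm.le
  obtain ⟨r, hr⟩ := pow_unbounded_of_one_lt (1 / c) (one_lt_two (α := ℝ))
  have r1 : 1 ≤ c * 2 ^ r := by rw [div_lt_iff₀ c0] at hr; linarith
  obtain ⟨E, hE'⟩ : ∃ E : ℕ, E = 12 + r * (13 * m + 1) := ⟨_, rfl⟩
  obtain ⟨g, hg⟩ : ∃ g : ℕ, g = E + 2 := ⟨_, rfl⟩
  obtain ⟨C', C'1, hC'⟩ := hB (1 / (2 * (2 * g + 1 : ℕ))) (by positivity)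
  obtain ⟨C'', C''1, hC''⟩ := hE (1 / (2 * (12 * g + 23 : ℕ))) (by positivity)
  obtain ⟨t, ht⟩ := exists_nat_ge (256 * C ^ 3 + C' ^ 2 + C'' ^ 2 + 81 +
    (2 * n₀ + 4 + 6 * m + 7 * m * h₀) + 7 * m * (L₀ + 1) + 2 * (2 * g + 3))
  obtain ⟨T, hT⟩ : ∃ T : ℝ, T = 2 ^ t := ⟨_, rfl⟩
  have tT : (t : ℝ) ≤ T := by rw [hT]; exact_mod_cast (Nat.lt_two_pow_self (n := t)).le
  have p1 : 0 ≤ 256 * C ^ 3 := by positivity
  have p2 : 0 ≤ C' ^ 2 := by positivity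
  have p3 : 0 ≤ C'' ^ 2 := by positivity
  have p4 : (0 : ℝ) ≤ 6 * m + 7 * m * h₀ := by positivity
  have p5 : (0 : ℝ) ≤ 7 * m * (L₀ + 1) := by positivity
  have p6 : (0 : ℝ) ≤ 2 * (2 * g + 3) := by positivity
  have p7 : (0 : ℝ) ≤ n₀ := by positivity
  have t0 : (0 : ℝ) ≤ t := by positivity
  have a1 : 256 * C ^ 3 ≤ T := by linarith
  have a2 : C' ^ 2 ≤ T := by linarith
  have a3 : C'' ^ 2 ≤ T := by linarith
  have a4 : 81 ≤ T := by linarith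
  have a5 : 2 * n₀ + 4 + 6 * m + 7 * m * h₀ ≤ T := by linarith
  have a6 : 7 * m * (L₀ + 1) ≤ T := by linarith
  have a7 : 2 * (2 * g + 3) ≤ T := by linarith
  have a8 : n₀ + 3 ≤ t := by
    have : (n₀ : ℝ) + 3 ≤ t := by linarith
    exact_mod_cast this
  clear ht
  have T1 : 1 ≤ T := by linarith
  have T0 : 0 < T := by linarith
  have C0 : 0 < C := by linarith
  have C2 : C ≤ C ^ 2 := le_self_pow₀ C1 (by norm_num)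
  have C3 : C ^ 2 ≤ C ^ 3 := pow_le_pow_right₀ C1 (by norm_num)
  have b1 : 64 * C ≤ T := by linarith
  have b2 : 16 * C ^ 2 ≤ T := by linarith
  have mono : ∀ {i j : ℕ}, i ≤ j → T ^ i ≤ T ^ j := fun h => pow_le_pow_right₀ T1 h
  obtain ⟨s, hs⟩ : ∃ s : ℝ, s = T ^ g := ⟨_, rfl⟩
  have sT : T ^ 2 ≤ s := hs ▸ mono (by omega)
  have TT : T ≤ T ^ 2 := le_self_pow₀ T1 (by norm_num)
  have s2 : s + n₀ + 1 ≤ 2 * s := by linarith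
  obtain ⟨u, hu⟩ : ∃ u : ℝ, u = 20 * (s + n₀ + 1) ^ 2 := ⟨_, rfl⟩
  have u0 : 0 ≤ u := by rw [hu]; positivity
  have u1 : u + 1 ≤ T ^ (2 * g + 1) := by
    have h1 : (s + n₀ + 1) ^ 2 ≤ (2 * s) ^ 2 := pow_le_pow_left₀ (by linarith) s2 2
    have h2 : T ^ (2 * g + 1) = s ^ 2 * T := by rw [hs]; ring
    have h3 : 1 ≤ s ^ 2 := one_le_pow₀ (by linarith)
    have h4 : s ^ 2 * 81 ≤ s ^ 2 * T := by gcongr
    rw [h2, hu]; linarith only [h1, h3, h4]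
  obtain ⟨B, hBd⟩ : ∃ B : ℝ, B = C' * (u + 1) ^ (1 / (2 * (2 * g + 1 : ℕ)) : ℝ) := ⟨_, rfl⟩
  have B1 : 1 ≤ B := hBd ▸ one_le_mul_of_one_le_of_one_le C'1
    (Real.one_le_rpow (by linarith) (by positivity))
  have BT : B ≤ T := hBd ▸ num7_root T1 a2 (by linarith) (by omega) u1
  have B0 : 0 < B := by linarith
  have Bp : ∀ j : ℕ, B ^ j ≤ T ^ j := fun j => pow_le_pow_left₀ B0.le BT j
  have X1 : 1 ≤ T ^ (12 * g + 23) := one_le_pow₀ T1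
  obtain ⟨K₀, K0, KY, hEs⟩ := hC'' _ X1
  obtain ⟨Y, hY⟩ : ∃ Y : ℝ, Y = C'' * (T ^ (12 * g + 23)) ^ (1 / (2 * (12 * g + 23 : ℕ)) : ℝ) :=
    ⟨_, rfl⟩
  rw [← hY] at KY hEs
  have Y0 : 0 < Y := by rw [hY]; positivity
  have YT : Y ≤ T := hY ▸ num7_root T1 a3 (by positivity) (by omega) le_rfl
  obtain ⟨Γ, hΓ⟩ : ∃ Γ : ℝ, Γ = C * u ^ 2 * B ^ 2 := ⟨_, rfl⟩
  have Γ0 : 0 ≤ Γ := by rw [hΓ]; positivity
  have Γ1 : Γ ≤ T ^ (4 * g + 5) := by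
    have h1 : u ^ 2 ≤ (T ^ (2 * g + 1)) ^ 2 := pow_le_pow_left₀ u0 (by linarith) 2
    calc Γ ≤ T * (T ^ (2 * g + 1)) ^ 2 * T ^ 2 := by
          rw [hΓ]; gcongr; linarith
      _ = _ := by ring
  have hH : ((n₀ + 3 + 6 * m * t : ℕ) : ℝ) + n₀ + (7 * m * t : ℕ) * h₀ + T ≤ T ^ 2 := by
    push_cast
    have h1 : (6 * m + 7 * m * h₀ : ℝ) * t ≤ (6 * m + 7 * m * h₀) * T := by gcongr
    have h2 : (2 * n₀ + 3 : ℝ) * 1 ≤ (2 * n₀ + 3) * T := by gcongr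
    have h3 : (2 * n₀ + 4 + 6 * m + 7 * m * h₀ : ℝ) * T ≤ T * T := by gcongr
    linarith only [h1, h2, h3]
  refine ⟨s, B, Γ, 1 / (16 * C ^ 2 * B ^ 3), 16 * C * B ^ 4, 16 * C * Γ ^ 3 * B,
    T ^ (12 * g + 23), K₀, Y, T ^ 2, 7 * m * t, n₀ + 3 + 6 * m * t, (2 ^ t) ^ E, t * (2 * g + 3),
    by linarith, B1, ?_, by rw [hΓ, hu], rfl, rfl, rfl, by omega, ?_, ?_, K0, Y0, hEs, ?_,
    by linarith, Nat.one_le_iff_ne_zero.2 (by positivity), ?_, ?_, ?_, ?_⟩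
  · rw [← hu, hBd]; exact hC' u u0
  · have e : ((n₀ + 3 + 6 * m * t : ℕ) : ℝ) - 1 = ((n₀ + 2 + 6 * m * t : ℕ) : ℝ) := by
      push_cast; ring
    rw [e, Real.rpow_natCast]
    have h1 : ς ^ (n₀ + 2 + 6 * m * t) ≤ ς ^ (6 * m * t) :=
      pow_le_pow_of_le_one s0.le s1.le (by omega)
    have h2 := num7_half s0.le m1 6 t
    rw [← hT] at h2
    calc 16 * C * B ^ 4 * B * ς ^ (n₀ + 2 + 6 * m * t)
        = (64 * C) * B ^ 5 * ς ^ (n₀ + 2 + 6 * m * t) / 4 := by ring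
      _ ≤ T * T ^ 5 * ς ^ (6 * m * t) / 4 := by gcongr
      _ = ς ^ (6 * m * t) * T ^ 6 / 4 := by ring
      _ ≤ 1 / 4 := by gcongr
  · rw [mul_one_div, le_div_iff₀ (by positivity)]
    have h1 : 16 * C * Γ ^ 3 * B ≤ T ^ (12 * g + 17) :=
      calc 16 * C * Γ ^ 3 * B ≤ T * (T ^ (4 * g + 5)) ^ 3 * T := by gcongr; linarith
        _ = _ := by ring
    have h2 : 4 * (16 * C * B ^ 4) * Γ ≤ T ^ (12 * g + 17) :=
      calc 4 * (16 * C * B ^ 4) * Γ = 64 * C * B ^ 4 * Γ := by ring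
        _ ≤ T * T ^ 4 * T ^ (4 * g + 5) := by gcongr
        _ = T ^ (4 * g + 10) := by ring
        _ ≤ _ := mono (by omega)
    have h3 : ((7 * m * t : ℕ) : ℝ) * (L₀ + 1) ≤ T ^ (12 * g + 17) :=
      calc ((7 * m * t : ℕ) : ℝ) * (L₀ + 1) = 7 * m * (L₀ + 1) * t := by push_cast; ring
        _ ≤ T * T := by gcongr
        _ = T ^ 2 := by ring
        _ ≤ _ := mono (by omega)
    have h4 : ((n₀ + 3 + 6 * m * t : ℕ) : ℝ) + n₀ + 1 ≤ T ^ (12 * g + 17) := by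
      have h5 : (0 : ℝ) ≤ (7 * m * t : ℕ) * h₀ := by positivity
      have h6 : T ^ 2 ≤ T ^ (12 * g + 17) := mono (by omega)
      linarith
    have h5 : 0 ≤ T ^ (12 * g + 17) := by positivity
    have h6 : 16 * C * Γ ^ 3 * B + ((n₀ + 3 + 6 * m * t : ℕ) : ℝ) + n₀ + 1 +
        4 * (16 * C * B ^ 4) * Γ + ((7 * m * t : ℕ) : ℝ) * (L₀ + 1) ≤ T * T ^ (12 * g + 17) := by
      have h7 : 4 * T ^ (12 * g + 17) ≤ T * T ^ (12 * g + 17) := by gcongr; linarith only [a4]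
      linarith only [h1, h2, h3, h4, h7]
    calc _ ≤ T * (T * T ^ (12 * g + 17)) * (T * T ^ 3) := by gcongr
      _ = _ := by ring
  · have h2 := num7_half (by linarith : 0 ≤ 1 - c) m2 7 t
    rw [← hT] at h2
    have h3 : 0 ≤ (1 - c) ^ (7 * m * t) := pow_nonneg (by linarith) _
    calc _ = 256 * C ^ 3 * B ^ 5 * Y * (1 - c) ^ (7 * m * t) / 16 := by field_simp; ring
      _ ≤ T * T ^ 5 * T * (1 - c) ^ (7 * m * t) / 16 := by gcongr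
      _ = (1 - c) ^ (7 * m * t) * T ^ 7 / 16 := by ring
      _ ≤ 1 / 16 := by gcongr
  · push_cast
    rw [← hT, hs, hg, pow_add]
  · push_cast
    rw [← hT]
    have h1 : c ^ (13 * m * t + t) ≤ c ^ (7 * m * t + (n₀ + 3 + 6 * m * t)) :=
      pow_le_pow_of_le_one c0.le c1.le (by
        have : 13 * m * t = 7 * m * t + 6 * m * t := by ring
        omega)
    have h2 : 1 ≤ c ^ (13 * m * t + t) * T ^ (r * (13 * m + 1)) := by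
      have : c ^ (13 * m * t + t) * T ^ (r * (13 * m + 1)) = (c * 2 ^ r) ^ (13 * m * t + t) := by
        rw [hT, mul_pow, ← pow_mul, ← pow_mul]; congr 2; ring
      rw [this]; exact one_le_pow₀ r1
    have h3 : 0 < c ^ (7 * m * t + (n₀ + 3 + 6 * m * t)) := by positivity
    generalize c ^ (7 * m * t + (n₀ + 3 + 6 * m * t)) = w at h1 h3
    have h4 : 1 ≤ w * T ^ (r * (13 * m + 1)) := h2.trans (by gcongr)
    have e : C * (16 * C * B ^ 4 * B ^ 2 / (T ^ E * (1 / (16 * C ^ 2 * B ^ 3) / Y) * w)) =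
        (256 * C ^ 3) * (16 * C) * B ^ 9 * Y / (16 * (T ^ E * w)) := by field_simp; ring
    rw [e, div_le_div_iff₀ (by positivity) (by norm_num), hE', pow_add]
    have h5 : (256 * C ^ 3) * (16 * C) * B ^ 9 * Y ≤ T ^ 12 :=
      calc _ ≤ T * T * T ^ 9 * T := by gcongr; linarith
        _ = _ := by ring
    have h6 : T ^ 12 * 1 ≤ T ^ 12 * (w * T ^ (r * (13 * m + 1))) := by gcongr
    linarith only [h5, h6]
  · push_cast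
    have h1 : (t : ℝ) * (2 * (2 * g + 3)) ≤ T * T := by gcongr
    have h2 : (0 : ℝ) ≤ t * (2 * g + 3) := by positivity
    calc (t : ℝ) * (2 * g + 3) * (s + n₀ + 1) ≤ t * (2 * g + 3) * (2 * s) := by gcongr
      _ = t * (2 * (2 * g + 3)) * s := by ring
      _ ≤ s * s := mul_le_mul_of_nonneg_right (by linarith only [h1, sT]) (by linarith only [sT, TT, T0])
      _ = s ^ 2 := by ring
  · calc 8 * C * Γ ≤ T * T ^ (4 * g + 5) := by gcongr; linarith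
      _ = 4 ^ (t * (2 * g + 3)) := by
        rw [hT, ← pow_succ', ← pow_mul, show (4 : ℝ) = 2 ^ 2 by norm_num, ← pow_mul]
        congr 1; ring

end Pool.Agent.P.MP_3aa27f_pr.F
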