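import Pool.Agent.P.MP_3aa27f_pr.F.Defs

/-! Proofs of the elementary numerical lemmas (the exponent in `r3` is real). -/

open MeasureTheory unitInterval SimpleGraph
open ENNReal (ofReal)
open scoped ENNReal

namespace Pool.Agent.P.MP_3aa27f_pr.F


theorem numb_lin {t y : ℝ} (ht : 0 < t) (hy : 0 ≤ y) : 1 + y ≤ (1 + 1 / t) * Real.exp (t * y) := by
  have h1 := Real.add_one_le_exp (t * y)
  have h2 : 0 < 1 / t := by positivity
  have h3 : 1 / t * (t * y) = y := by field_simp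
  have h4 := mul_nonneg ht.le hy
  nlinarith

theorem numb_boot {Λ s : ℝ} (h1 : 1 < Λ) (s0 : 0 < s) (h2 : Λ * s ^ 2 < 1) :
    ∃ δ C K : ℝ, 0 < δ ∧ δ < 1 ∧ 1 ≤ C ∧ 1 ≤ K ∧ ∀ Y : ℝ, 1 ≤ Y → ∃ n : ℕ,
      (n : ℝ) ≤ K * (1 + Real.log Y) ∧ ((n : ℝ) + 1) ^ 2 * (Λ * s) ^ n ≤ C * Y ^ (1 - δ) ∧
      Y ^ 3 / Λ ^ n ≤ C * Y ^ (1 - δ) := by
  obtain ⟨L, hL⟩ : ∃ L, L = Real.log Λ := ⟨_, rfl⟩
  have L0 : 0 < L := hL ▸ Real.log_pos h1
  have Λ0 : 0 < Λ := by linarith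
  have e0 : Real.exp L = Λ := by rw [hL, Real.exp_log Λ0]
  have h3 := Real.log_neg (by positivity) h2
  rw [Real.log_mul Λ0.ne' (by positivity), Real.log_pow, ← hL] at h3
  push_cast at h3
  obtain ⟨δ, d0, d1, d2⟩ : ∃ δ : ℝ, 0 < δ ∧ δ ≤ 1 / 2 ∧ L + Real.log s ≤ (1 / 2 - δ) * L := by
    refine ⟨min (1 / 2) (-(L + 2 * Real.log s) / (2 * L)), lt_min (by norm_num)
      (div_pos (by linarith) (by linarith)), min_le_left _ _, ?_⟩
    have := (le_div_iff₀ (by linarith : 0 < 2 * L)).1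
      (min_le_right (1 / 2) (-(L + 2 * Real.log s) / (2 * L)))
    linarith
  obtain ⟨K, hK⟩ : ∃ K, K = 3 / L + 2 := ⟨_, rfl⟩
  have K0 : 0 < 3 / L := by positivity
  obtain ⟨T, hT⟩ : ∃ T, T = K * (1 + 1 / (δ / 4)) := ⟨_, rfl⟩
  have T1 : 1 ≤ T := hT ▸ one_le_mul_of_one_le_of_one_le (by linarith)
    (le_add_of_nonneg_right (by positivity))
  have C1 : 1 ≤ T ^ 2 * Λ := one_le_mul_of_one_le_of_one_le (one_le_pow₀ T1) h1.le
  refine ⟨δ, T ^ 2 * Λ, K, d0, by linarith, C1, by linarith, fun Y hY => ?_⟩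
  obtain ⟨y, hy⟩ : ∃ y, y = Real.log Y := ⟨_, rfl⟩
  have y0 : 0 ≤ y := hy ▸ Real.log_nonneg hY
  have Y0 : 0 < Y := by linarith
  rw [Real.rpow_def_of_pos Y0, ← hy]
  have n1 := (div_le_iff₀ L0).1 (Nat.le_ceil ((2 + δ) * y / L))
  have n2 := (Nat.ceil_lt_add_one (show 0 ≤ (2 + δ) * y / L by positivity)).le
  generalize ⌈(2 + δ) * y / L⌉₊ = n at n1 n2
  have n3 : n * L ≤ (2 + δ) * y + L := by
    have := mul_le_mul_of_nonneg_right n2 L0.le
    rwa [add_mul, div_mul_cancel₀ _ L0.ne', one_mul] at this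
  have n4 : (n : ℝ) + 1 ≤ K * (1 + y) := by
    have : (2 + δ) * y / L ≤ 3 / L * y := by
      rw [div_mul_eq_mul_div]
      gcongr
      linarith
    rw [hK]
    nlinarith
  refine ⟨n, by linarith, ?_, ?_⟩
  · have a1 : (n : ℝ) + 1 ≤ T * Real.exp (δ / 4 * y) := by
      rw [hT, mul_assoc]
      exact n4.trans (mul_le_mul_of_nonneg_left (numb_lin (by positivity) y0) (by linarith))
    have a2 : (Λ * s) ^ n ≤ Λ * Real.exp (y * (1 - 3 * δ / 2)) := by
      rw [← Real.exp_log (mul_pos Λ0 s0), ← Real.exp_nat_mul, Real.log_mul Λ0.ne' s0.ne', ← hL,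
        ← e0, ← Real.exp_add]
      refine Real.exp_le_exp.2 ?_
      have b1 := mul_le_mul_of_nonneg_left d2 (Nat.cast_nonneg (α := ℝ) n)
      have b2 := mul_le_mul_of_nonneg_left n3 (show 0 ≤ 1 / 2 - δ by linarith)
      linarith [mul_nonneg (mul_pos d0 d0).le y0, mul_pos d0 L0]
    calc _ ≤ (T * Real.exp (δ / 4 * y)) ^ 2 * (Λ * Real.exp (y * (1 - 3 * δ / 2))) := by gcongr
      _ = _ := by
        rw [mul_pow, ← Real.exp_nat_mul, mul_mul_mul_comm, ← Real.exp_add]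
        congr 2
        push_cast
        ring
  · refine le_trans ?_ (le_mul_of_one_le_left (Real.exp_pos _).le C1)
    rw [← Real.exp_log Y0, ← hy, ← e0, ← Real.exp_nat_mul, ← Real.exp_nat_mul, ← Real.exp_sub]
    refine Real.exp_le_exp.2 ?_
    push_cast
    linarith

theorem numb_buf {ς ε : ℝ} (s0 : 0 < ς) (s1 : ς < 1) (ε0 : 0 < ε) :
    ∃ κ : ℝ, 1 < κ ∧ ∀ J L c : ℝ, 1 ≤ J → 0 ≤ L → 0 < c → ∃ C : ℝ, 1 ≤ C ∧ ∀ X : ℝ, 1 ≤ X →
      ∃ k : ℕ, ς ^ (k * J) * X ≤ 1 / 2 ∧ k * J ≤ C * X ^ ε ∧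
        (k * L + 2) / c * κ ^ (k * J) ≤ C * X ^ ε := by
  obtain ⟨l, hl⟩ : ∃ l, l = -Real.log ς := ⟨_, rfl⟩
  have l0 : 0 < l := by have := Real.log_neg s0 s1; linarith
  refine ⟨Real.exp (l * ε / 2), Real.one_lt_exp_iff.2 (by positivity), fun J L c hJ hL hc => ?_⟩
  obtain ⟨D, hD⟩ : ∃ D, D = (1 / l + J) * (1 + 1 / (ε / 2)) := ⟨_, rfl⟩
  have D0 : 0 < D := by rw [hD]; positivity
  obtain ⟨E, hE⟩ : ∃ E, E = (D * L + 2) / c * Real.exp (ε / 2 * (1 + l * J)) := ⟨_, rfl⟩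
  have E0 : 0 < E := by rw [hE]; positivity
  refine ⟨1 + D + E, by linarith, fun X hX => ?_⟩
  obtain ⟨x, hx⟩ : ∃ x, x = Real.log X := ⟨_, rfl⟩
  have x0 : 0 ≤ x := hx ▸ Real.log_nonneg hX
  have X0 : 0 < X := by linarith
  have J0 : 0 < J * l := by positivity
  have n1 := (div_le_iff₀ J0).1 (Nat.le_ceil ((1 + x) / (J * l)))
  have n2 := (Nat.ceil_lt_add_one (show 0 ≤ (1 + x) / (J * l) by positivity)).le
  generalize ⌈(1 + x) / (J * l)⌉₊ = k at n1 n2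
  have n3 : k * (J * l) ≤ 1 + x + J * l := by
    have := mul_le_mul_of_nonneg_right n2 J0.le
    rwa [add_mul, div_mul_cancel₀ _ J0.ne', one_mul] at this
  have n4 : k * J ≤ D * Real.exp (ε / 2 * x) := by
    rw [hD, mul_assoc]
    refine le_trans ?_ (mul_le_mul_of_nonneg_left (numb_lin (by positivity) x0) (by positivity))
    refine le_of_mul_le_mul_right ?_ l0
    have : (1 / l + J) * (1 + x) * l = (1 + J * l) * (1 + x) := by field_simp
    nlinarith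
  have e1 : 1 ≤ Real.exp (ε / 2 * x) := Real.one_le_exp (by positivity)
  have e2 : X ^ ε = Real.exp (ε / 2 * x) * Real.exp (ε / 2 * x) := by
    rw [Real.rpow_def_of_pos X0, ← hx, ← Real.exp_add]
    congr 1
    ring
  rw [e2]
  refine ⟨k, ?_, by nlinarith [mul_le_mul_of_nonneg_right e1 (zero_le_one.trans e1)], ?_⟩
  · rw [Real.rpow_def_of_pos s0, ← Real.exp_log X0, ← hx, ← Real.exp_add]
    refine (Real.exp_le_exp.2 (show _ ≤ -1 by rw [← neg_neg (Real.log ς), ← hl]; linarith)).trans ?_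
    rw [Real.exp_neg, one_div]
    exact inv_anti₀ two_pos (by linarith [Real.add_one_le_exp (1 : ℝ)])
  · have a1 : k * L + 2 ≤ (D * L + 2) * Real.exp (ε / 2 * x) := by
      have : (k : ℝ) ≤ k * J := le_mul_of_one_le_right (Nat.cast_nonneg k) hJ
      nlinarith [mul_le_mul_of_nonneg_right (this.trans n4) hL]
    have a2 : Real.exp (l * ε / 2) ^ (k * J) ≤
        Real.exp (ε / 2 * (1 + l * J)) * Real.exp (ε / 2 * x) := by
      rw [← Real.exp_mul, ← Real.exp_add]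
      exact Real.exp_le_exp.2 (by nlinarith)
    calc _ ≤ (D * L + 2) * Real.exp (ε / 2 * x) / c *
          (Real.exp (ε / 2 * (1 + l * J)) * Real.exp (ε / 2 * x)) := by gcongr
      _ = E * (Real.exp (ε / 2 * x) * Real.exp (ε / 2 * x)) := by rw [hE]; ring
      _ ≤ _ := by gcongr; linarith

theorem numb_pass1 {P : ℝ → ℕ → ℝ → Prop} {A C c₀ δ Cc : ℝ} {n₀ : ℕ} (A1 : 1 ≤ A) (C1 : 1 ≤ C)
    (c0 : 0 ≤ c₀) (δ0 : 0 < δ) (δ1 : δ < 1) (Cc1 : 1 ≤ Cc)
    (mono : ∀ h R B B', P h R B → B ≤ B' → P h R B') (r0 : ∀ h R, P h R (A ^ R))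
    (r1 : ∀ h R B, 0 ≤ h → 1 ≤ B → P (h + c₀) (R + n₀) B →
      P h R (C * Cc ^ (h + c₀ + 1) * B ^ (1 - δ))) :
    ∃ C₁, 0 ≤ C₁ ∧ ∀ h, 0 ≤ h → ∀ R, P h R (Real.exp (C₁ * (h + 1))) := by
  have lA := Real.log_nonneg A1
  have lC := Real.log_nonneg C1
  have lD := Real.log_nonneg Cc1
  obtain ⟨b, b0, hb⟩ : ∃ b, 0 ≤ b ∧ b * δ = Real.log Cc :=
    ⟨_, by positivity, div_mul_cancel₀ _ δ0.ne'⟩
  obtain ⟨a, a0, ha⟩ : ∃ a, 0 ≤ a ∧ a * δ = Real.log C + (c₀ + 1) * Real.log Cc + b * c₀ :=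
    ⟨_, by positivity, div_mul_cancel₀ _ δ0.ne'⟩
  have g0 : 0 < 1 - δ := by linarith
  have key : ∀ k : ℕ, ∀ h, 0 ≤ h → ∀ R : ℕ,
      P h R (Real.exp (a + b * h + (1 - δ) ^ k * (R + k * n₀) * Real.log A)) := by
    intro k
    induction k with
    | zero =>
      intro h h0 R
      refine mono _ _ _ _ (r0 h R) ?_
      rw [← Real.exp_log (show 0 < A ^ R by positivity), Real.log_pow]
      exact Real.exp_le_exp.2 (by simp; positivity)
    | succ k ih =>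
      intro h h0 R
      refine mono _ _ _ _ (r1 h R _ h0 (Real.one_le_exp (by positivity))
        (ih _ (by linarith) _)) ?_
      rw [← Real.exp_mul, Real.rpow_def_of_pos (by linarith), ← Real.exp_log (show 0 < C by linarith),
        ← Real.exp_add, ← Real.exp_add]
      refine Real.exp_le_exp.2 ?_
      push_cast
      rw [pow_succ]
      linarith [mul_nonneg (mul_nonneg δ0.le b0) c0, congrArg (· * h) hb]
  refine ⟨a + 1 + b, by positivity, fun h h0 R => ?_⟩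
  have t1 := tendsto_pow_atTop_nhds_zero_of_lt_one g0.le (by linarith)
  have t2 := tendsto_self_mul_const_pow_of_lt_one g0.le (by linarith)
  have t3 := ((t1.mul_const (R : ℝ)).add (t2.mul_const (n₀ : ℝ))).mul_const (Real.log A)
  simp only [zero_mul, zero_add] at t3
  obtain ⟨k, hk⟩ := (t3.eventually_le_const one_pos).exists
  exact mono _ _ _ _ (key k h h0 R) (Real.exp_le_exp.2 (by nlinarith))

theorem num5_real {P : ℝ → ℕ → ℝ → Prop} {Fb : ℝ → ℝ → ℝ → Prop} {Gb : ℝ → ℝ → Prop}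
    {A C K c₀ δ Cc : ℝ} {n₀ : ℕ} (A1 : 1 ≤ A) (C1 : 1 ≤ C) (K1 : 1 ≤ K) (c0 : 0 ≤ c₀) (δ0 : 0 < δ)
    (δ1 : δ < 1) (Cc1 : 1 ≤ Cc) (mono : ∀ h R B B', P h R B → B ≤ B' → P h R B')
    (r0 : ∀ h R, P h R (A ^ R)) (rc : ∀ m H, 0 ≤ m → Fb m H (Cc ^ (m + 1)))
    (r1 : ∀ h R B f, 0 ≤ h → 1 ≤ B → 1 ≤ f → P (h + c₀) (R + n₀) B →
      Fb (h + c₀) (K * (h + 1 + Real.log B)) f → P h R (C * f * B ^ (1 - δ)))
    (r2 : ∀ h B, 0 ≤ h → 1 ≤ B → (∀ R, P (h + 3) R B) → Gb h (C * (h + 3) ^ 2 * B ^ 2))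
    (r3 : ∀ ε : ℝ, 0 < ε → ∃ C', 1 ≤ C' ∧ ∀ H Γ m, 1 ≤ Γ → Gb H Γ → Fb m H (C' * Γ ^ ε))
    {ε : ℝ} (ε0 : 0 < ε) : ∃ C', 1 ≤ C' ∧ ∀ h, 0 ≤ h → ∀ R, P h R (C' * (h + 1) ^ ε) := by
  obtain ⟨C₁, C0, p1⟩ := numb_pass1 A1 C1 c0 δ0 δ1 Cc1 mono r0 fun h R B h0 hB hP =>
    r1 h R B _ h0 hB (Real.one_le_rpow Cc1 (by linarith)) hP (rc _ _ (by linarith))
  obtain ⟨T, hT⟩ : ∃ T, T = K * (1 + C₁ * (c₀ + 1)) + 4 := ⟨_, rfl⟩
  have T4 : 4 ≤ T := by rw [hT]; exact le_add_of_nonneg_left (by positivity)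
  obtain ⟨η, η0, η1, η2⟩ : ∃ η : ℝ, 0 < η ∧ 2 * η * T ≤ δ / 2 ∧ 2 * η * (1 + ε) ≤ δ * ε := by
    refine ⟨min (δ / (4 * T)) (δ * ε / (2 * (1 + ε))), by positivity, ?_, ?_⟩
    · have := (le_div_iff₀ (by positivity)).1 (min_le_left (δ / (4 * T)) (δ * ε / (2 * (1 + ε))))
      linarith
    · have := (le_div_iff₀ (by positivity)).1 (min_le_right (δ / (4 * T)) (δ * ε / (2 * (1 + ε))))
      linarith
  obtain ⟨C', C'1, r4⟩ := r3 η η0
  have lC := Real.log_nonneg C1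
  have lD := Real.log_nonneg C'1
  have lT := Real.log_nonneg (show 1 ≤ T by linarith)
  have lc := Real.log_nonneg (show 1 ≤ c₀ + 1 by linarith)
  obtain ⟨a, a0, ha⟩ : ∃ a, 0 ≤ a ∧ a * (δ / 2) = Real.log C + Real.log C' + η * Real.log C +
      2 * η * (1 + ε) * Real.log T + ε * Real.log (c₀ + 1) + C₁ * c₀ :=
    ⟨_, by positivity, div_mul_cancel₀ _ (by positivity)⟩
  have g0 : 0 < 1 - δ / 2 := by linarith
  have key : ∀ k : ℕ, ∀ h, 0 ≤ h → ∀ R : ℕ,
      P h R (Real.exp (a + ε * Real.log (h + 1) + (1 - δ / 2) ^ k * (C₁ * (h + 1)))) := by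
    intro k
    induction k with
    | zero =>
      intro h h0 R
      have := Real.log_nonneg (show 1 ≤ h + 1 by linarith)
      exact mono _ _ _ _ (p1 h h0 R) (Real.exp_le_exp.2 (by simp; positivity))
    | succ k ih =>
      intro h h0 R
      rw [pow_succ]
      have q0 := pow_pos g0 k
      have q1 : (1 - δ / 2) ^ k ≤ 1 := pow_le_one₀ g0.le (by linarith)
      generalize (1 - δ / 2) ^ k = q at *
      have l0 := Real.log_nonneg (show 1 ≤ h + 1 by linarith)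
      have l1 := Real.log_nonneg (show 1 ≤ h + c₀ + 1 by linarith)
      obtain ⟨x, x0, x1, x2, x3⟩ : ∃ x, 0 ≤ x ∧ x ≤ C₁ * (h + c₀ + 1) ∧
          x ≤ a + ε * Real.log (h + c₀ + 1) + q * (C₁ * (h + c₀ + 1)) ∧
          P (h + c₀) (R + n₀) (Real.exp x) := by
        rcases le_total (C₁ * (h + c₀ + 1))
          (a + ε * Real.log (h + c₀ + 1) + q * (C₁ * (h + c₀ + 1))) with e | e
        · exact ⟨_, by positivity, le_rfl, e, p1 _ (by linarith) _⟩
        · exact ⟨_, by positivity, e, le_rfl, ih _ (by linarith) _⟩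
      obtain ⟨H, hH⟩ : ∃ H, H = K * (h + 1 + x) := ⟨_, rfl⟩
      have H0 : 0 ≤ H := by rw [hH]; positivity
      have H1 : H + 3 + 1 ≤ T * (h + 1) := by
        have : h + 1 + x ≤ (1 + C₁ * (c₀ + 1)) * (h + 1) := by
          linarith [mul_nonneg C0 (mul_nonneg c0 h0)]
        have := mul_le_mul_of_nonneg_left this (zero_le_one.trans K1)
        rw [hH, hT]
        linarith
      have l2 := Real.log_nonneg (show 1 ≤ H + 3 + 1 by linarith)
      have l3 := Real.log_le_log (by linarith) H1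
      rw [Real.log_mul (by linarith) (by linarith)] at l3
      have l4 := Real.log_le_log (show 0 < H + 3 by linarith) (show H + 3 ≤ H + 3 + 1 by linarith)
      have l5 := Real.log_le_log (show 0 < h + c₀ + 1 by linarith)
        (show h + c₀ + 1 ≤ (c₀ + 1) * (h + 1) by linarith [mul_nonneg c0 h0])
      rw [Real.log_mul (by linarith) (by linarith)] at l5
      obtain ⟨u, hu⟩ : ∃ u, u = a + ε * Real.log (H + 3 + 1) + q * (C₁ * (H + 3 + 1)) := ⟨_, rfl⟩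
      have u1 : 1 ≤ Real.exp u := Real.one_le_exp (by rw [hu]; positivity)
      have G1 : 1 ≤ C * (H + 3) ^ 2 * Real.exp u ^ 2 := one_le_mul_of_one_le_of_one_le
        (one_le_mul_of_one_le_of_one_le C1 (one_le_pow₀ (by linarith))) (one_le_pow₀ u1)
      refine mono _ _ _ _ (r1 h R _ _ h0 (Real.one_le_exp x0) (one_le_mul_of_one_le_of_one_le C'1
        (Real.one_le_rpow G1 η0.le)) x3 (r4 _ _ _ G1 ?_)) ?_
      · rw [Real.log_exp, ← hH]
        exact r2 H _ H0 u1 fun R => hu ▸ ih _ (by linarith) R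
      rw [← Real.exp_mul, Real.rpow_def_of_pos (by linarith), Real.log_mul (by positivity)
        (by positivity), Real.log_mul (by linarith) (by positivity), Real.log_pow, Real.log_pow,
        Real.log_exp, ← Real.exp_log (show 0 < C by linarith),
        ← Real.exp_log (show 0 < C' by linarith), ← Real.exp_add, ← Real.exp_add, ← Real.exp_add,
        Real.log_exp]
      refine Real.exp_le_exp.2 ?_
      push_cast
      have b1 : x * (1 - δ) ≤ (a + ε * (Real.log (c₀ + 1) + Real.log (h + 1)) +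
          (q * (C₁ * (h + 1)) + C₁ * c₀)) * (1 - δ) := by
        refine mul_le_mul_of_nonneg_right (x2.trans (add_le_add (by gcongr) ?_)) (by linarith)
        linarith [mul_le_mul_of_nonneg_right q1 (mul_nonneg C0 c0)]
      have b2 : u ≤ a + ε * (Real.log T + Real.log (h + 1)) + T * (q * (C₁ * (h + 1))) := by
        rw [hu]
        refine add_le_add (by gcongr) ?_
        have := mul_le_mul_of_nonneg_left H1 (mul_nonneg q0.le C0)
        linarith
      have b3 := mul_le_mul_of_nonneg_left b2 η0.le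
      have b4 := mul_le_mul_of_nonneg_left (l4.trans l3) η0.le
      have w0 : 0 ≤ q * (C₁ * (h + 1)) := by positivity
      have b5 := mul_le_mul_of_nonneg_right η1 w0
      have b6 := mul_le_mul_of_nonneg_right η2 l0
      have b7 : 2 * η * a ≤ δ / 2 * a :=
        mul_le_mul_of_nonneg_right (by linarith [mul_le_mul_of_nonneg_left T4 η0.le]) a0
      have b8 : 0 ≤ δ * (ε * Real.log (c₀ + 1) + C₁ * c₀) := by positivity
      linarith
  refine ⟨Real.exp (a + 1), Real.one_le_exp (by linarith), fun h h0 R => ?_⟩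
  have t1 := (tendsto_pow_atTop_nhds_zero_of_lt_one g0.le (by linarith)).mul_const (C₁ * (h + 1))
  rw [zero_mul] at t1
  obtain ⟨k, hk⟩ := (t1.eventually_le_const one_pos).exists
  refine mono _ _ _ _ (key k h h0 R) ?_
  rw [Real.rpow_def_of_pos (by linarith), ← Real.exp_add]
  exact Real.exp_le_exp.2 (by linarith)

end Pool.Agent.P.MP_3aa27f_pr.F
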