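import Pool.Agent.P.MP_3aa27f_pr.F.ChN

/-! Two chains in the same configuration. -/

open MeasureTheory unitInterval SimpleGraph
open ENNReal (ofReal)
open scoped ENNReal

namespace Pool.Agent.P.MP_3aa27f_pr.F

variable {V : Type} {G : SimpleGraph V} [G.LocallyFinite] [Countable V] {S : Geo G} {p : I}
variable (C : Chain S p)

/-- the bilinear pairing of two kernels against a test function -/
noncomputable def pair_B (K K' : Ker V) (x x' : V) (φ : V → V → ℝ≥0∞) : ℝ≥0∞ :=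
  ∑' y, ∑' y', K x y * K' x' y' * φ y y'

omit [Countable V] in
theorem pair_B_swap (K K' : Ker V) (x x' : V) (φ : V → V → ℝ≥0∞) :
    pair_B K K' x x' φ = pair_B K' K x' x fun a b => φ b a := by
  unfold pair_B
  rw [ENNReal.tsum_comm]
  refine tsum_congr fun y => tsum_congr fun y' => ?_
  ring

omit [Countable V] in
theorem pair_B_left (Q K K' : Ker V) (x x' : V) (φ : V → V → ℝ≥0∞) :
    ∑' u, Q x u * pair_B K K' u x' φ = pair_B (kmul Q K) K' x x' φ := by
  unfold pair_B kmul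
  simp only [← ENNReal.tsum_mul_left, ← ENNReal.tsum_mul_right]
  rw [ENNReal.tsum_comm]
  refine tsum_congr fun y => ?_
  rw [ENNReal.tsum_comm]
  refine tsum_congr fun y' => tsum_congr fun u => ?_
  ring

omit [Countable V] in
theorem pair_B_right (Q K K' : Ker V) (x x' : V) (φ : V → V → ℝ≥0∞) :
    ∑' u, Q x' u * pair_B K K' x u φ = pair_B K (kmul Q K') x x' φ := by
  rw [pair_B_swap K (kmul Q K'), ← pair_B_left]
  exact tsum_congr fun u => by rw [pair_B_swap]

/-- the integrand -/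
noncomputable def Chain.pair_f (n₁ n₂ : ℕ) (x x' : V) (g : V → V → ℝ≥0∞) (ω : Cf V) : ℝ≥0∞ :=
  pair_B (fun a b => C.wN n₁ a b ω) (fun a b => C.wN n₂ a b ω) x x' g

theorem Chain.pair_meas (n₁ n₂ : ℕ) (x x' : V) (g : V → V → ℝ≥0∞) :
    Measurable (C.pair_f n₁ n₂ x x' g) :=
  Measurable.tsum fun y => Measurable.tsum fun y' =>
    ((C.wN_meas n₁ x y).fun_mul (C.wN_meas n₂ x' y')).mul_const _

omit [Countable V] in
theorem Chain.pair_swap (n₁ n₂ : ℕ) (x x' : V) (g : V → V → ℝ≥0∞) :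
    C.pair_f n₁ n₂ x x' g = C.pair_f n₂ n₁ x' x fun a b => g b a :=
  funext fun _ => pair_B_swap _ _ _ _ _

theorem Chain.pair_zero (n : ℕ) (x x' : V) (g : V → V → ℝ≥0∞) :
    ∫⁻ ω, C.pair_f 0 n x x' g ω ∂mu V p = pair_B (kpow C.Q 0) (kpow C.Q n) x x' g := by
  simp only [Chain.pair_f, pair_B]
  rw [lintegral_tsum fun y => (Measurable.tsum fun y' =>
    ((C.wN_meas 0 x y).fun_mul (C.wN_meas n x' y')).mul_const _).aemeasurable]
  refine tsum_congr fun y => ?_
  rw [lintegral_tsum fun y' =>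
    (((C.wN_meas 0 x y).fun_mul (C.wN_meas n x' y')).mul_const _).aemeasurable]
  refine tsum_congr fun y' => ?_
  rw [lintegral_mul_const _ ((C.wN_meas 0 x y).fun_mul (C.wN_meas n x' y')), ← C.lintegral_wN n x' y',
    ← lintegral_const_mul _ (C.wN_meas n x' y')]
  rfl

theorem Chain.pair_crude (n₁ n₂ : ℕ) (x x' : V) {g : V → V → ℝ≥0∞} {g₁ : V → ℝ≥0∞}
    (hg : ∀ y y', g y y' ≤ g₁ y) :
    ∫⁻ ω, C.pair_f n₁ n₂ x x' g ω ∂mu V p ≤ ∑' y, kpow C.Q n₁ x y * g₁ y := by
  have h1 : ∀ ω, C.pair_f n₁ n₂ x x' g ω ≤ ∑' y, C.wN n₁ x y ω * g₁ y := fun ω => by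
    refine ENNReal.tsum_le_tsum fun y => ?_
    calc ∑' y', C.wN n₁ x y ω * C.wN n₂ x' y' ω * g y y'
        ≤ ∑' y', C.wN n₁ x y ω * g₁ y * C.wN n₂ x' y' ω := by
          refine ENNReal.tsum_le_tsum fun y' => ?_
          rw [mul_right_comm]
          gcongr
          exact hg y y'
      _ ≤ C.wN n₁ x y ω * g₁ y * 1 := by
          rw [ENNReal.tsum_mul_left]
          gcongr
          exact C.wN_sum_le n₂ x' ω
      _ = _ := mul_one _
  refine (lintegral_mono h1).trans (le_of_eq ?_)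
  rw [lintegral_tsum fun y => ((C.wN_meas n₁ x y).mul_const _).aemeasurable]
  refine tsum_congr fun y => ?_
  rw [lintegral_mul_const _ (C.wN_meas n₁ x y), C.lintegral_wN]

omit [Countable V] in
theorem Chain.pair_disj {x x' : V} (hc : C.coll x x' = 0) (hl : S.l x ≤ S.l x') :
    Disjoint (S.E (S.l x) (S.l x + C.J) ∩ EIn {z | G.dist x z ≤ C.L})
      (S.E (S.l x') (S.l x' + C.J) ∩ EIn {z | G.dist x' z ≤ C.L} ∪ S.Ge (S.l x' + C.J)) := by
  have hn : ¬ (G.dist x x' ≤ 2 * C.L ∧ |S.l x - S.l x'| < C.J) := fun h => by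
    simp [Chain.coll, h] at hc
  rw [Set.disjoint_left]
  rintro e ⟨⟨_, z, hz, h2⟩, h3⟩ (⟨⟨h4, _⟩, h5⟩ | h4)
  · refine hn ⟨?_, ?_⟩
    · have a1 : G.dist x z ≤ C.L := h3 z hz
      have a2 : G.dist x' z ≤ C.L := h5 z hz
      have a3 : G.dist x x' ≤ G.dist x z + G.dist z x' := S.conn.dist_triangle
      rw [G.dist_comm (u := z)] at a3
      omega
    · have := h4 z hz
      rw [abs_lt]
      constructor <;> linarith [C.one_le_J]
  · have := h4 z hz
    linarith

theorem Chain.pair_step (n₁ n₂ : ℕ) {x x' : V} (hc : C.coll x x' = 0) (hl : S.l x ≤ S.l x')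
    (g : V → V → ℝ≥0∞) :
    ∫⁻ ω, C.pair_f (n₁ + 1) n₂ x x' g ω ∂mu V p =
      ∑' u, C.Q x u * ∫⁻ ω, C.pair_f n₁ n₂ u x' g ω ∂mu V p := by
  have h1 : ∀ ω, C.pair_f (n₁ + 1) n₂ x x' g ω = ∑' u, C.w x u ω * C.pair_f n₁ n₂ u x' g ω :=
    fun ω => (pair_B_left (fun a b => C.w a b ω) _ _ x x' g).symm
  simp only [h1]
  rw [lintegral_tsum fun u => ((C.meas x u).fun_mul (C.pair_meas n₁ n₂ u x' g)).aemeasurable]
  refine tsum_congr fun u => ?_
  by_cases hu : S.l u = S.l x + C.J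
  · refine lintegral_indep _ (C.meas x u) (C.pair_meas n₁ n₂ u x' g) (C.dep x u)
      (T' := S.Ge (S.l u) ∪ (S.E (S.l x') (S.l x' + C.J) ∩ EIn {z | G.dist x' z ≤ C.L} ∪
        S.Ge (S.l x' + C.J))) ?_ ?_
    · intro ω ω' h
      refine tsum_congr fun y => tsum_congr fun y' => ?_
      have a1 : C.wN n₁ u y ω = C.wN n₁ u y ω' := C.wN_dep n₁ u y fun e he => h e (Or.inl he)
      have a2 : C.wN n₂ x' y' ω = C.wN n₂ x' y' ω' :=
        C.wN_dep' n₂ x' y' fun e he => h e (Or.inr he)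
      simp only [a1, a2]
    · refine Set.disjoint_union_right.2 ⟨?_, C.pair_disj hc hl⟩
      exact (S.disjoint_Lt_Ge hu.ge).mono_left fun e he => he.1.2
  · have h0 : ∀ ω, C.w x u ω = 0 := fun ω => by
      by_contra h
      exact hu (C.supp x u ω h).2.2.1
    simp [Chain.Q, h0]

theorem Chain.pair_main (N : ℕ) : ∀ (n₁ n₂ : ℕ) (x x' : V) {g : V → V → ℝ≥0∞} {g₁ : V → ℝ≥0∞},
    (∀ y y', g y y' ≤ g₁ y) → n₁ + n₂ = N →
    ∫⁻ ω, C.pair_f n₁ n₂ x x' g ω ∂mu V p ≤ pair_B (kpow C.Q n₁) (kpow C.Q n₂) x x' g +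
      ∑ i ∈ Finset.range n₁, ∑ j ∈ Finset.range n₂, pair_B (kpow C.Q i) (kpow C.Q j) x x'
        fun u u' => C.coll u u' * ∑' y, kpow C.Q (n₁ - i) u y * g₁ y := by
  induction N with
  | zero =>
    intro n₁ n₂ x x' g g₁ _ hN
    obtain rfl : n₁ = 0 := by omega
    exact (C.pair_zero n₂ x x' g).le.trans le_self_add
  | succ N ih =>
    intro n₁ n₂ x x' g g₁ hg hN
    rcases n₁ with _ | n₁
    · exact (C.pair_zero n₂ x x' g).le.trans le_self_add
    rcases n₂ with _ | n₂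
    · rw [C.pair_swap, C.pair_zero, pair_B_swap (kpow C.Q (n₁ + 1))]
      exact le_self_add
    by_cases hc : C.coll x x' = 0
    · rcases le_total (S.l x) (S.l x') with hl | hl
      · rw [C.pair_step n₁ (n₂ + 1) hc hl]
        refine (ENNReal.tsum_le_tsum fun u =>
          mul_le_mul_right (ih n₁ (n₂ + 1) u x' hg (by omega)) _).trans ?_
        simp only [mul_add, ENNReal.tsum_add, Finset.mul_sum]
        rw [pair_B_left, Finset.sum_range_succ' _ n₁]
        refine add_le_add le_rfl (le_trans (le_of_eq ?_) le_self_add)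
        rw [Summable.tsum_finsetSum fun _ _ => ENNReal.summable]
        refine Finset.sum_congr rfl fun i _ => ?_
        rw [Summable.tsum_finsetSum fun _ _ => ENNReal.summable]
        refine Finset.sum_congr rfl fun j _ => ?_
        rw [pair_B_left, Nat.add_sub_add_right]
        rfl
      · rw [C.pair_swap, C.pair_step n₂ (n₁ + 1) (by rw [C.coll_comm, hc]) hl]
        simp only [← C.pair_swap (n₁ + 1) n₂ x _ g]
        refine (ENNReal.tsum_le_tsum fun u =>
          mul_le_mul_right (ih (n₁ + 1) n₂ x u hg (by omega)) _).trans ?_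
        simp only [mul_add, ENNReal.tsum_add, Finset.mul_sum]
        rw [pair_B_right]
        refine add_le_add le_rfl ?_
        rw [Summable.tsum_finsetSum fun _ _ => ENNReal.summable]
        refine Finset.sum_le_sum fun i _ => ?_
        rw [Summable.tsum_finsetSum fun _ _ => ENNReal.summable, Finset.sum_range_succ' _ n₂]
        refine le_trans (le_of_eq ?_) le_self_add
        refine Finset.sum_congr rfl fun j _ => ?_
        rw [pair_B_right]
        rfl
    · have h1 : C.coll x x' = 1 := by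
        unfold Chain.coll at hc ⊢
        split_ifs at hc ⊢ with h
        · rfl
        · exact absurd rfl hc
      refine (C.pair_crude _ _ x x' hg).trans (le_trans ?_ le_add_self)
      rw [Finset.sum_range_succ' _ n₁, Finset.sum_range_succ' _ n₂]
      refine le_trans (le_of_eq ?_) (le_add_self.trans le_add_self)
      unfold pair_B
      simp only [kpow, mul_assoc, ENNReal.tsum_mul_left, tsum_kone_mul, h1, one_mul, Nat.sub_zero]

theorem Chain.pair (n₁ n₂ : ℕ) (x x' : V) {g : V → V → ℝ≥0∞} {g₁ : V → ℝ≥0∞}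
    (hg : ∀ y y', g y y' ≤ g₁ y) :
    ∫⁻ ω, ∑' y, ∑' y', C.wN n₁ x y ω * C.wN n₂ x' y' ω * g y y' ∂mu V p ≤
      ∑' y, ∑' y', kpow C.Q n₁ x y * kpow C.Q n₂ x' y' * g y y' +
        ∑ i ∈ Finset.range n₁, ∑ j ∈ Finset.range n₂, ∑' u, ∑' u',
          kpow C.Q i x u * kpow C.Q j x' u' * C.coll u u' *
            ∑' y, kpow C.Q (n₁ - i) u y * g₁ y := by
  have := C.pair_main _ n₁ n₂ x x' hg rfl
  simp only [Chain.pair_f, pair_B, ← mul_assoc] at this
  exact this

/-- two chains of the same length started on the same level -/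
theorem Chain.pair_lev (n : ℕ) {x x' : V} (hx : S.l x = S.l x') {g : V → V → ℝ≥0∞}
    {g₁ : V → ℝ≥0∞} (hg : ∀ y y', g y y' ≤ g₁ y) :
    ∫⁻ ω, ∑' y, ∑' y', C.wN n x y ω * C.wN n x' y' ω * g y y' ∂mu V p ≤
      ∑' y, ∑' y', kpow C.Q n x y * kpow C.Q n x' y' * g y y' +
        ∑ i ∈ Finset.range n, ∑' u, ∑' u',
          kpow C.Q i x u * kpow C.Q i x' u' * C.coll u u' *
            ∑' y, kpow C.Q (n - i) u y * g₁ y := by
  refine (C.pair n n x x' hg).trans (add_le_add le_rfl (le_of_eq ?_))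
  refine Finset.sum_congr rfl fun i hi => Finset.sum_eq_single_of_mem i hi fun j _ hj => ?_
  refine ENNReal.tsum_eq_zero.2 fun u => ENNReal.tsum_eq_zero.2 fun u' => ?_
  by_contra h
  simp only [mul_eq_zero, not_or] at h
  have a1 := (C.Qn_supp h.1.1.1).2
  have a2 := (C.Qn_supp h.1.1.2).2
  have a3 := C.coll_lev h.1.2
  have a4 : |(i : ℝ) - j| * C.J < 1 * C.J := by
    have : S.l u - S.l u' = ((i : ℝ) - j) * C.J := by rw [a1, a2, hx]; ring
    rwa [this, abs_mul, abs_of_pos (by linarith [C.one_le_J] : 0 < C.J), ← one_mul C.J,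
      ← mul_assoc, mul_one] at a3
  have a5 := abs_lt.1 (lt_of_mul_lt_mul_right a4 (by linarith [C.one_le_J]))
  have a6 : (i : ℝ) < j + 1 := by linarith [a5.2]
  have a7 : (j : ℝ) < i + 1 := by linarith [a5.1]
  norm_cast at a6 a7
  omega

end Pool.Agent.P.MP_3aa27f_pr.F
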