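import Pool.Agent.P.MP_3aa27f_pr.F.Defs

/-! Finitary increasing events, Harris and BK inequalities with values in `ℝ≥0∞`. -/

open MeasureTheory unitInterval SimpleGraph
open ENNReal (ofReal)
open scoped ENNReal

namespace Pool.Agent.P.MP_3aa27f_pr.F

variable {ι : Type*} {A B : Set (ι → Bool)}

theorem PM_eq_ofReal (π : ι → I) (A : Set (ι → Bool)) : PM π A = ofReal (Pr π A) :=
  (ofReal_measureReal (measure_ne_top _ _)).symm

theorem pra_le_iff {η ω : ι → Bool} : η ≤ ω ↔ ∀ i, η i = true → ω i = true :=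
  forall_congr' fun _ => Bool.le_iff_imp

open Classical in
/-- `ω` on `S` and `false` elsewhere -/
noncomputable def pra_cut (S : Finset ι) (ω : ι → Bool) : ι → Bool :=
  fun i => if i ∈ S then ω i else false

theorem pra_cut_true {S : Finset ι} {ω : ι → Bool} {i : ι} :
    pra_cut S ω i = true ↔ i ∈ S ∧ ω i = true := by
  unfold pra_cut
  split_ifs with h <;> simp [h]

theorem pra_cut_le (S : Finset ι) (ω : ι → Bool) : pra_cut S ω ≤ ω :=
  pra_le_iff.2 fun _ h => (pra_cut_true.1 h).2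

theorem pra_cut_mono {S T : Finset ι} (h : S ⊆ T) {ω ω' : ι → Bool} (h' : ω ≤ ω') :
    pra_cut S ω ≤ pra_cut T ω' :=
  pra_le_iff.2 fun i hi => pra_cut_true.2
    ⟨h (pra_cut_true.1 hi).1, pra_le_iff.1 h' i (pra_cut_true.1 hi).2⟩

theorem pra_mk (hu : IsUpperSet A)
    (h : ∀ ω ∈ A, ∃ S : Finset ι, ∃ η ∈ A, ∀ i, η i = true → i ∈ S ∧ ω i = true) : FU A := by
  refine ⟨hu, fun ω hω => ?_⟩
  obtain ⟨S, η, hη, h'⟩ := h ω hω
  refine ⟨S, hu (?_ : η ≤ pra_cut S ω) hη⟩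
  exact pra_le_iff.2 fun i hi => pra_cut_true.2 (h' i hi)

theorem pra_wit (h : FU A) {ω : ι → Bool} (hω : ω ∈ A) : ∃ S : Finset ι, pra_cut S ω ∈ A :=
  h.2 ω hω

theorem pra_of_cut (hu : IsUpperSet A) (h : ∀ ω ∈ A, ∃ S : Finset ι, pra_cut S ω ∈ A) : FU A :=
  ⟨hu, h⟩

theorem FU.upper (h : FU A) : IsUpperSet A := h.1

theorem FU.of_loc (h : Loc A) (hu : IsUpperSet A) : FU A := by
  obtain ⟨S, hS, h⟩ := h
  lift S to Finset ι using hS
  refine pra_of_cut hu fun ω hω => ⟨S, h (fun i hi => ?_) hω⟩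
  have hi' : i ∈ S := hi
  simp [pra_cut, hi']

theorem FU_univ : FU (Set.univ : Set (ι → Bool)) := FU.of_loc loc_univ isUpperSet_univ

theorem FU_empty : FU (∅ : Set (ι → Bool)) := FU.of_loc loc_empty isUpperSet_empty

theorem FU_eval (i : ι) : FU {ω : ι → Bool | ω i = true} :=
  FU.of_loc ((dep_eval i true).loc (Set.finite_singleton i))
    fun _ _ hab h => pra_le_iff.1 hab i h

theorem FU_list (l : List ι) : FU {ω : ι → Bool | ∀ i ∈ l, ω i = true} := by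
  classical
  refine pra_of_cut (fun _ _ hab h i hi => pra_le_iff.1 hab i (h i hi)) fun ω hω =>
    ⟨l.toFinset, fun i hi => pra_cut_true.2 ⟨List.mem_toFinset.2 hi, hω i hi⟩⟩

theorem FU.inter (hA : FU A) (hB : FU B) : FU (A ∩ B) := by
  classical
  refine pra_of_cut (hA.1.inter hB.1) fun ω hω => ?_
  obtain ⟨S, hS⟩ := pra_wit hA hω.1
  obtain ⟨T, hT⟩ := pra_wit hB hω.2
  exact ⟨S ∪ T, hA.1 (pra_cut_mono Finset.subset_union_left le_rfl) hS,
    hB.1 (pra_cut_mono Finset.subset_union_right le_rfl) hT⟩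

theorem FU.union (hA : FU A) (hB : FU B) : FU (A ∪ B) := by
  refine pra_of_cut (hA.1.union hB.1) fun ω hω => ?_
  rcases hω with hω | hω
  · obtain ⟨S, hS⟩ := pra_wit hA hω
    exact ⟨S, Or.inl hS⟩
  · obtain ⟨S, hS⟩ := pra_wit hB hω
    exact ⟨S, Or.inr hS⟩

theorem FU.iUnion {κ : Sort*} {A : κ → Set (ι → Bool)} (h : ∀ k, FU (A k)) : FU (⋃ k, A k) :=
  pra_of_cut (isUpperSet_iUnion fun k => (h k).1) fun ω hω => by
    obtain ⟨k, hk⟩ := Set.mem_iUnion.1 hω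
    obtain ⟨S, hS⟩ := pra_wit (h k) hk
    exact ⟨S, Set.mem_iUnion.2 ⟨k, hS⟩⟩

theorem FU.exists {κ : Sort*} {P : κ → Prop} {A : κ → Set (ι → Bool)} (h : ∀ k, P k → FU (A k)) :
    FU {ω | ∃ k, P k ∧ ω ∈ A k} := by
  refine pra_of_cut ?_ ?_
  · rintro a b hab ⟨k, hk, ha⟩
    exact ⟨k, hk, (h k hk).1 hab ha⟩
  · rintro ω ⟨k, hk, hω⟩
    obtain ⟨S, hS⟩ := pra_wit (h k hk) hω
    exact ⟨S, k, hk, hS⟩

theorem FU.DO (hA : FU A) (hB : FU B) : FU (DO A B) := by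
  classical
  refine pra_of_cut (DO_upper A B) ?_
  rintro ω ⟨η, ζ, h1, h2, h3, h4, h5⟩
  obtain ⟨S, hS⟩ := pra_wit hA h4
  obtain ⟨T, hT⟩ := pra_wit hB h5
  exact ⟨S ∪ T, pra_cut S η, pra_cut T ζ, pra_cut_mono Finset.subset_union_left h1,
    pra_cut_mono Finset.subset_union_right h2,
    fun i hi hi' => h3 i (pra_cut_true.1 hi).2 (pra_cut_true.1 hi').2, hS, hT⟩

theorem FU.comp {ι' : Type*} (h : FU A) (φ : ι → ι') :
    FU {ω : ι' → Bool | (fun i => ω (φ i)) ∈ A} := by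
  classical
  refine pra_of_cut (fun a b hab ha => h.1 (fun i => hab (φ i)) ha) fun ω hω => ?_
  obtain ⟨S, hS⟩ := pra_wit h hω
  refine ⟨S.image φ, h.1 (pra_le_iff.2 fun i hi => ?_) hS⟩
  exact pra_cut_true.2 ⟨Finset.mem_image_of_mem φ (pra_cut_true.1 hi).1, (pra_cut_true.1 hi).2⟩

theorem FU.orMap {Λ : Type*} [Fintype Λ] (h : FU A) : FU {ω : ι × Λ → Bool | orMap ω ∈ A} := by
  refine pra_of_cut (fun a b hab ha => h.1 (pra_le_iff.2 fun i hi => ?_) ha) fun ω hω => ?_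
  · obtain ⟨l, hl⟩ := orMap_eq_true.1 hi
    exact orMap_eq_true.2 ⟨l, pra_le_iff.1 hab _ hl⟩
  · obtain ⟨S, hS⟩ := pra_wit h hω
    refine ⟨S ×ˢ Finset.univ, h.1 (pra_le_iff.2 fun i hi => ?_) hS⟩
    obtain ⟨l, hl⟩ := orMap_eq_true.1 (pra_cut_true.1 hi).2
    exact orMap_eq_true.2 ⟨l, pra_cut_true.2
      ⟨Finset.mem_product.2 ⟨(pra_cut_true.1 hi).1, Finset.mem_univ _⟩, hl⟩⟩

theorem pra_exh (ι : Type*) [Countable ι] :
    ∃ T : ℕ → Finset ι, Monotone T ∧ ∀ S : Finset ι, ∃ n, S ⊆ T n := by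
  classical
  obtain ⟨f, hf⟩ := exists_surjective_nat (Finset ι)
  refine ⟨fun n => (Finset.range (n + 1)).biUnion f, fun m n hmn => ?_, fun S => ?_⟩
  · exact Finset.biUnion_subset_biUnion_of_subset_left f
      (Finset.range_mono (Nat.succ_le_succ hmn))
  · obtain ⟨n, rfl⟩ := hf S
    exact ⟨n, Finset.subset_biUnion_of_mem f (Finset.self_mem_range_succ n)⟩

/-- a finitary increasing event is an increasing union of local increasing events -/
theorem FU.approx [Countable ι] (h : FU A) : ∃ A' : ℕ → Set (ι → Bool), Monotone A' ∧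
    (∀ n, Loc (A' n) ∧ IsUpperSet (A' n)) ∧ ⋃ n, A' n = A := by
  obtain ⟨T, hT, hS⟩ := pra_exh ι
  refine ⟨fun n => {ω | pra_cut (T n) ω ∈ A}, fun m n hmn ω hω => ?_, fun n => ⟨?_, ?_⟩, ?_⟩
  · exact h.1 (pra_cut_mono (hT hmn) le_rfl) hω
  · refine ⟨T n, (T n).finite_toSet, fun ω ω' hω hA => h.1 (pra_le_iff.2 fun i hi => ?_) hA⟩
    obtain ⟨h1, h2⟩ := pra_cut_true.1 hi
    exact pra_cut_true.2 ⟨h1, (hω i h1).symm.trans h2⟩
  · exact fun a b hab ha => h.1 (pra_cut_mono le_rfl hab) ha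
  · refine Set.Subset.antisymm (Set.iUnion_subset fun n ω hω => h.1 (pra_cut_le _ _) hω)
      fun ω hω => ?_
    obtain ⟨S, hω'⟩ := pra_wit h hω
    obtain ⟨n, hn⟩ := hS S
    exact Set.mem_iUnion.2 ⟨n, h.1 (pra_cut_mono hn le_rfl) hω'⟩

theorem FU.measurableSet [Countable ι] (h : FU A) : MeasurableSet A := by
  obtain ⟨A', -, h1, rfl⟩ := h.approx
  exact MeasurableSet.iUnion fun n => (h1 n).1.measurableSet

theorem harrisE [Countable ι] (π : ι → I) (hA : FU A) (hB : FU B) :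
    PM π A * PM π B ≤ PM π (A ∩ B) := by
  obtain ⟨A', mA, lA, rfl⟩ := hA.approx
  obtain ⟨B', mB, lB, rfl⟩ := hB.approx
  rw [mA.measure_iUnion, mB.measure_iUnion, ENNReal.iSup_mul]
  refine iSup_le fun m => ?_
  rw [ENNReal.mul_iSup]
  refine iSup_le fun n => ?_
  calc PM π (A' m) * PM π (B' n) = ofReal (Pr π (A' m) * Pr π (B' n)) := by
        rw [PM_eq_ofReal, PM_eq_ofReal, ENNReal.ofReal_mul (p := Pr π _) measureReal_nonneg]
    _ ≤ ofReal (Pr π (A' m ∩ B' n)) :=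
        ENNReal.ofReal_le_ofReal (harris_upper π (lA m).1 (lB n).1 (lA m).2 (lB n).2)
    _ = PM π (A' m ∩ B' n) := (PM_eq_ofReal _ _).symm
    _ ≤ _ := measure_mono
        (Set.inter_subset_inter (Set.subset_iUnion A' m) (Set.subset_iUnion B' n))

theorem BKE [Countable ι] (π : ι → I) (hA : FU A) (hB : FU B) :
    PM π (DO A B) ≤ PM π A * PM π B := by
  obtain ⟨A', mA, lA, rfl⟩ := hA.approx
  obtain ⟨B', mB, lB, rfl⟩ := hB.approx
  have hsub : DO (⋃ n, A' n) (⋃ n, B' n) ⊆ ⋃ n, DO (A' n) (B' n) := by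
    rintro ω ⟨η, ζ, h1, h2, h3, h4, h5⟩
    obtain ⟨m, hm⟩ := Set.mem_iUnion.1 h4
    obtain ⟨n, hn⟩ := Set.mem_iUnion.1 h5
    exact Set.mem_iUnion.2 ⟨max m n, η, ζ, h1, h2, h3, mA (le_max_left _ _) hm,
      mB (le_max_right _ _) hn⟩
  have hmono : Monotone fun n => DO (A' n) (B' n) := fun m n hmn => DO_mono (mA hmn) (mB hmn)
  refine (measure_mono hsub).trans ?_
  rw [hmono.measure_iUnion]
  refine iSup_le fun n => ?_
  calc PM π (DO (A' n) (B' n)) = ofReal (Pr π (DO (A' n) (B' n))) := PM_eq_ofReal _ _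
    _ ≤ ofReal (Pr π (A' n) * Pr π (B' n)) :=
        ENNReal.ofReal_le_ofReal (BK π (lA n).1 (lB n).1 (lA n).2 (lB n).2)
    _ = PM π (A' n) * PM π (B' n) := by
        rw [PM_eq_ofReal, PM_eq_ofReal, ENNReal.ofReal_mul (p := Pr π _) measureReal_nonneg]
    _ ≤ _ := mul_le_mul' (measure_mono (Set.subset_iUnion A' n))
        (measure_mono (Set.subset_iUnion B' n))

theorem PM_mono_p [Countable ι] {p q : I} (hpq : p ≤ q) (h : FU A) :
    PM (fun _ => p) A ≤ PM (fun _ => q) A := by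
  obtain ⟨A', mA, lA, rfl⟩ := h.approx
  rw [mA.measure_iUnion]
  refine iSup_le fun n => ?_
  calc PM (fun _ => p) (A' n) = ofReal (Pr (fun _ => p) (A' n)) := PM_eq_ofReal _ _
    _ ≤ ofReal (Pr (fun _ => q) (A' n)) :=
        ENNReal.ofReal_le_ofReal (Pr_mono_p p q hpq (lA n).1 (lA n).2)
    _ = PM (fun _ => q) (A' n) := (PM_eq_ofReal _ _).symm
    _ ≤ _ := measure_mono (Set.subset_iUnion A' n)

/-- lower semicontinuity from the left in the parameter -/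
theorem PM_lsc [Countable ι] {p : I} (h : FU A) {β : ℝ≥0∞} (hβ : β < PM (fun _ => p) A) :
    ∃ ε : ℝ, 0 < ε ∧ ∀ q : I, (p : ℝ) - ε ≤ q → β < PM (fun _ => q) A := by
  obtain ⟨A', mA, lA, hU⟩ := h.approx
  have hβ' := hβ
  rw [← hU, mA.measure_iUnion] at hβ'
  obtain ⟨n, hn⟩ := lt_iSup_iff.1 hβ'
  obtain ⟨S, hS, hD⟩ := (lA n).1
  lift S to Finset ι using hS
  have hfin : β ≠ ⊤ := hn.ne_top
  have h1 : β.toReal < Pr (fun _ => p) (A' n) :=
    (ENNReal.toReal_lt_toReal hfin (measure_ne_top _ _)).2 hn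
  have hc : (0 : ℝ) < (S.card : ℝ) + 1 := by positivity
  refine ⟨(Pr (fun _ => p) (A' n) - β.toReal) / ((S.card : ℝ) + 1),
    div_pos (sub_pos.2 h1) hc, fun q hq => ?_⟩
  rcases le_total p q with hpq | hqp
  · exact hβ.trans_le (PM_mono_p hpq h)
  · have h2 := Pr_lip q p hqp S hD
    have h3 : (p : ℝ) - q ≤ (Pr (fun _ => p) (A' n) - β.toReal) / ((S.card : ℝ) + 1) := by
      linarith
    rw [le_div_iff₀ hc] at h3
    have h4 : (0 : ℝ) ≤ (p : ℝ) - q := sub_nonneg.2 hqp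
    have h5 : β.toReal < Pr (fun _ => q) (A' n) := by
      rcases h4.eq_or_lt with h6 | h6
      · rw [← h6] at h2
        linarith
      · nlinarith
    have h6 : β < PM (fun _ => q) (A' n) :=
      (ENNReal.toReal_lt_toReal hfin (measure_ne_top _ _)).1 h5
    exact h6.trans_le (measure_mono (hU ▸ Set.subset_iUnion A' n))

end Pool.Agent.P.MP_3aa27f_pr.F
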