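import Pool.Agent.P.MP_3aa27f_pr.F.Ext

/-! The inequality `P_{p ^ γ}(A) ≤ P_p(A) ^ γ` and a strict crossing rate below the critical
parameter. -/

open MeasureTheory unitInterval SimpleGraph
open ENNReal (ofReal)
open scoped ENNReal

namespace Pool.Agent.P.MP_3aa27f_pr.F

theorem pw_real {γ p x y : ℝ} (hγ : 1 ≤ γ) (p0 : 0 ≤ p) (p1 : p ≤ 1) (y0 : 0 ≤ y) (hxy : y ≤ x) :
    (1 - p ^ γ) * y ^ γ + p ^ γ * x ^ γ ≤ ((1 - p) * y + p * x) ^ γ := by
  have hc := convexOn_rpow hγ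
  have x0 : 0 ≤ x := y0.trans hxy
  rw [sub_mul, one_mul, ← Real.mul_rpow p0 y0, ← Real.mul_rpow p0 x0]
  have a0 : 0 ≤ p * y := mul_nonneg p0 y0
  have a1 : p * y ≤ y := mul_le_of_le_one_left y0 p1
  have a2 : p * y ≤ p * x := mul_le_mul_of_nonneg_left hxy p0
  have a3 : 0 ≤ (1 - p) * y + p * x := by nlinarith
  rcases (show p * y ≤ (1 - p) * y + p * x by nlinarith).eq_or_lt with e | e
  · have e1 : p * y = y := by nlinarith
    have e2 : p * x = y := by nlinarith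
    rw [← e, e1, e2]
    simp
  · set a := p * y
    set d := (1 - p) * y + p * x with hd
    have d0 : 0 < d - a := sub_pos.2 e
    set s := (y - a) / (d - a) with hs
    have s0 : 0 ≤ s := div_nonneg (sub_nonneg.2 a1) d0.le
    have s1 : s ≤ 1 := (div_le_one d0).2 (by rw [hd]; nlinarith)
    have hs' : s * (d - a) = y - a := div_mul_cancel₀ _ d0.ne'
    have h1 := hc.2 (Set.mem_Ici.2 a0) (Set.mem_Ici.2 a3) (sub_nonneg.2 s1) s0 (by ring)
    have h2 := hc.2 (Set.mem_Ici.2 a0) (Set.mem_Ici.2 a3) s0 (sub_nonneg.2 s1) (by ring)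
    simp only [smul_eq_mul] at h1 h2
    rw [show (1 - s) * a + s * d = y by linarith] at h1
    rw [show s * a + (1 - s) * d = p * x by rw [hd] at hs' ⊢; nlinarith] at h2
    linarith

theorem pw_loc {ι : Type*} {p q : I} {γ : ℝ} (hγ : 1 ≤ γ) (h : (q : ℝ) = (p : ℝ) ^ γ)
    (J : Finset ι) : ∀ {A : Set (ι → Bool)}, Dep A J → IsUpperSet A →
      Pr (fun _ => q) A ≤ Pr (fun _ => p) A ^ γ := by
  classical
  induction J using Finset.induction_on with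
  | empty =>
    intro A hA _
    rcases Dep.empty_cases (by simpa using hA) with rfl | rfl
    · rw [Pr_empty]; exact Real.rpow_nonneg (Pr_nonneg _ _) _
    · simp
  | insert i S hi ih =>
    intro A hA hU
    have hL := hA.loc (Finset.finite_toSet _)
    rw [Finset.coe_insert] at hA
    have h0 := ih (hA.sec false) (upper_sec hU i false)
    have h1 := ih (hA.sec true) (upper_sec hU i true)
    rw [Pr_sec _ hL i, Pr_sec (fun _ => p) hL i]
    refine le_trans ?_ (pw_real hγ p.2.1 p.2.2 (Pr_nonneg _ _) (Pr_mono (sec_sub hU i)))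
    rw [← h]
    exact add_le_add (mul_le_mul_of_nonneg_left h0 (sub_nonneg.2 q.2.2))
      (mul_le_mul_of_nonneg_left h1 q.2.1)

theorem pw_FU {ι : Type*} [Countable ι] {p q : I} {γ : ℝ} (hγ : 1 ≤ γ)
    (h : (q : ℝ) = (p : ℝ) ^ γ) {A : Set (ι → Bool)} (hA : FU A) :
    Pr (fun _ => q) A ≤ Pr (fun _ => p) A ^ γ := by
  rw [← ENNReal.ofReal_le_ofReal_iff (Real.rpow_nonneg (Pr_nonneg _ _) _), ← PM_eq_ofReal]
  obtain ⟨A', mA, lA, rfl⟩ := hA.approx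
  rw [mA.measure_iUnion]
  refine iSup_le fun n => ?_
  rw [PM_eq_ofReal]
  obtain ⟨S, hS, hD⟩ := (lA n).1
  lift S to Finset ι using hS
  exact ENNReal.ofReal_le_ofReal ((pw_loc hγ h S hD (lA n).2).trans
    (Real.rpow_le_rpow (Pr_nonneg _ _) (Pr_mono (Set.subset_iUnion A' n)) (by linarith)))

variable {V : Type} {G : SimpleGraph V} [G.LocallyFinite] [Countable V] {S : Geo G} {p : I}

theorem pw_rate (Z : Side S) (p0 : 0 < (p : ℝ)) (p1 : (p : ℝ) < 1) {β : ℝ} (β0 : 0 < β)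
    (β2 : β ≤ S.b ^ (-(1 / 2) : ℝ))
    (h : ∀ r : ℕ, 1 ≤ r → (p : ℝ) ^ S.n0 * (S.PiO p 0 r).toReal ≤ β ^ r) :
    ∃ ς : ℝ, ς ≤ β ∧ Rate S p ς := by
  set g : ℕ → ℝ := fun r => (p : ℝ) ^ S.n0 * (S.PiO p 0 r).toReal with hg
  set T : Set ℝ := {t | 0 ≤ t ∧ ∀ r : ℕ, 1 ≤ r → g r ≤ t ^ r} with hT
  have β1 : β < 1 :=
    β2.trans_lt (Real.rpow_lt_one_of_one_lt_of_neg S.one_lt_b (by norm_num))
  have T1 : β ∈ T := ⟨β0.le, h⟩
  have bdd : BddBelow T := ⟨0, fun t ht => ht.1⟩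
  have cl : IsClosed T := by
    have : T = Set.Ici 0 ∩ ⋂ r : ℕ, ⋂ _ : 1 ≤ r, {t | g r ≤ t ^ r} := by
      ext t; simp [hT]
    rw [this]
    exact isClosed_Ici.inter (isClosed_iInter fun r => isClosed_iInter fun _ =>
      isClosed_le continuous_const (continuous_pow r))
  have T2 : sInf T ∈ T := cl.csInf_mem ⟨_, T1⟩ bdd
  have T3 : sInf T ≤ β := csInf_le bdd T1
  have g1 : 0 < g 1 := by
    have a1 := ratee_low S p
    have a2 : 0 < (p : ℝ) ^ S.n0 := pow_pos p0 _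
    refine mul_pos a2 (ENNReal.toReal_pos (fun h0 => ?_) (ratee_ne_top S p _))
    rw [h0, nonpos_iff_eq_zero, ENNReal.ofReal_eq_zero] at a1
    linarith
  have s0 : 0 < sInf T := by
    have := T2.2 1 le_rfl
    rw [pow_one] at this
    linarith
  refine ⟨sInf T, T3, p0, p1, s0, T3.trans_lt β1, ?_,
    S.crude p0 s0 (T3.trans β1.le) fun r hr => ?_, fun κ hκ => ?_⟩
  · rw [← ratee_sq S]
    exact mul_le_mul_of_nonneg_right (pow_le_pow_left₀ s0.le (T3.trans β2) _) (sch_b0 S).le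
  · rw [ratee_eq]
    exact ENNReal.ofReal_le_ofReal (T2.2 r hr)
  · have k0 : 0 < sInf T / κ := div_pos s0 (by linarith)
    have k1 : sInf T / κ < sInf T := div_lt_self s0 hκ
    have k2 : sInf T / κ ∉ T := fun h0 => absurd (csInf_le bdd h0) (not_le.2 k1)
    have k3 : ∃ r : ℕ, 1 ≤ r ∧ (sInf T / κ) ^ r < g r := by
      by_contra h0
      push Not at h0
      exact k2 ⟨k0.le, h0⟩
    obtain ⟨r, hr, k3⟩ := k3
    refine Z.exists_chain p0 k0 (by linarith) hr ?_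
    rw [ratee_eq]
    exact (ENNReal.ofReal_lt_ofReal_iff ((pow_pos k0 r).trans k3)).2 k3

/-- below the critical parameter the crossing rate is strictly smaller than `b ^ (-1/2)` -/
theorem pw_strict (Z : Side S) {p₁ : I} (h1 : S.InP p₁) (h2 : (p₁ : ℝ) < 1) (p0 : 0 < (p : ℝ))
    (hp : (p : ℝ) < p₁) : ∃ ς : ℝ, ς ^ 2 * S.b < 1 ∧ Rate S p ς := by
  have q0 : 0 < (p₁ : ℝ) := p0.trans hp
  have l1 : Real.log p₁ < 0 := Real.log_neg q0 h2
  have l2 : Real.log p < Real.log p₁ := Real.log_lt_log p0 hp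
  set γ := Real.log p / Real.log p₁ with hγ
  have γ1 : 1 < γ := by rw [hγ, lt_div_iff_of_neg l1]; linarith
  have e : (p : ℝ) = (p₁ : ℝ) ^ γ := by
    rw [Real.rpow_def_of_pos q0, hγ, mul_div_cancel₀ _ l1.ne, Real.exp_log p0]
  have β0 : 0 < S.b ^ (-(1 / 2) : ℝ) := Real.rpow_pos_of_pos (sch_b0 S) _
  have β1 : S.b ^ (-(1 / 2) : ℝ) < 1 := Real.rpow_lt_one_of_one_lt_of_neg S.one_lt_b (by norm_num)
  have β2 : (S.b ^ (-(1 / 2) : ℝ)) ^ γ < S.b ^ (-(1 / 2) : ℝ) :=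
    Real.rpow_lt_self_of_lt_one β0 β1 γ1
  obtain ⟨ς, hς, hR⟩ := pw_rate Z p0 (hp.trans h2) (Real.rpow_pos_of_pos β0 γ) β2.le fun r hr => by
    have a1 := h1 r hr
    rw [ratee_eq, ← ratee_pow, ENNReal.ofReal_le_ofReal_iff (pow_pos β0 r).le] at a1
    have a2 : (S.PiO p 0 r).toReal ≤ (S.PiO p₁ 0 r).toReal ^ γ := pw_FU γ1.le e Rch_FU
    have a3 : 0 ≤ (S.PiO p₁ 0 r).toReal := ENNReal.toReal_nonneg
    calc (p : ℝ) ^ S.n0 * (S.PiO p 0 r).toReal
        ≤ (p : ℝ) ^ S.n0 * (S.PiO p₁ 0 r).toReal ^ γ := by gcongr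
      _ = ((p₁ : ℝ) ^ S.n0 * (S.PiO p₁ 0 r).toReal) ^ γ := by
        rw [Real.mul_rpow (by positivity) a3, e, Real.rpow_pow_comm q0.le]
      _ ≤ ((S.b ^ (-(1 / 2) : ℝ)) ^ r) ^ γ := Real.rpow_le_rpow (by positivity) a1 (by linarith)
      _ = _ := (Real.rpow_pow_comm β0.le _ _).symm
  refine ⟨ς, ?_, hR⟩
  rw [← ratee_sq S]
  exact mul_lt_mul_of_pos_right (pow_lt_pow_left₀ (hς.trans_lt β2) hR.s0.le (by norm_num))
    (sch_b0 S)

end Pool.Agent.P.MP_3aa27f_pr.F
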