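import Pool.Agent.P.MP_3aa27f_pr.F.Pair
import Pool.Agent.P.MP_3aa27f_pr.F.Defs2

/-! Second moment of routes. -/

open MeasureTheory unitInterval SimpleGraph
open ENNReal (ofReal)
open scoped ENNReal

namespace Pool.Agent.P.MP_3aa27f_pr.F

variable {V : Type} {G : SimpleGraph V} [G.LocallyFinite] [Countable V] {S : Geo G} {p : I}
variable (C : Chain S p)

section

omit [Countable V]

/-- the kernel `A B Aᵀ` -/
noncomputable def routeaS (A B : Ker V) : Ker V :=
  fun u u' => ∑' v, ∑' v', A u v * A u' v' * B v v'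

theorem routea_eq (A B : Ker V) : routeaS A B = kmul A (kmul B (ktr A)) := by
  funext u u'
  refine tsum_congr fun v => ?_
  rw [kmul, ← ENNReal.tsum_mul_left]
  exact tsum_congr fun v' => by rw [ktr]; ring

theorem routea_norm {A B : Ker V} {a b : ℝ≥0∞} (hA : NB A a) (hB : NB B b) :
    NB (routeaS A B) (a * (b * a)) := routea_eq A B ▸ hA.mul (hB.mul hA.tr)

theorem routea_sup {A B : Ker V} {a b : ℝ≥0∞} (hA : ∀ u, ∑' v, A u v ≤ a) (hB : ∀ v v', B v v' ≤ b)
    (u u' : V) : routeaS A B u u' ≤ a * a * b :=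
  calc _ ≤ ∑' v, ∑' v', A u v * A u' v' * b :=
        ENNReal.tsum_le_tsum fun v => ENNReal.tsum_le_tsum fun v' => by gcongr; exact hB v v'
    _ = (∑' v, A u v) * (∑' v', A u' v') * b := by
        simp only [ENNReal.tsum_mul_right, ENNReal.tsum_mul_left]
    _ ≤ _ := by gcongr <;> exact hA _

theorem routea_swap (A B Y : Ker V) : ∑' u, ∑' u', routeaS A B u u' * Y u u' =
    ∑' v, ∑' v', B v v' * routeaS (ktr A) Y v v' := by
  simp only [routeaS, ktr, ← ENNReal.tsum_mul_left, ← ENNReal.tsum_mul_right]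
  calc _ = ∑' u, ∑' v, ∑' u', ∑' v', A u v * A u' v' * B v v' * Y u u' :=
        tsum_congr fun u => ENNReal.tsum_comm
    _ = ∑' v, ∑' u, ∑' v', ∑' u', A u v * A u' v' * B v v' * Y u u' :=
        ENNReal.tsum_comm.trans (tsum_congr fun v => tsum_congr fun u => ENNReal.tsum_comm)
    _ = _ := tsum_congr fun v => ENNReal.tsum_comm.trans
        (tsum_congr fun v' => tsum_congr fun u => tsum_congr fun u' => by ring)

theorem routea_tsum_sum {κ : Type} (s : Finset κ) (f : κ → V → V → ℝ≥0∞) :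
    ∑' u, ∑' u', ∑ i ∈ s, f i u u' = ∑ i ∈ s, ∑' u, ∑' u', f i u u' := by
  rw [← Summable.tsum_finsetSum fun _ _ => ENNReal.summable]
  exact tsum_congr fun u => Summable.tsum_finsetSum fun _ _ => ENNReal.summable

theorem routea_ind (T : Finset V) (f : V → ℝ≥0∞) :
    ∑' z, f z * (T : Set V).indicator 1 z = ∑ z ∈ T, f z := by
  rw [tsum_eq_sum (s := T) fun z hz => by rw [Set.indicator_of_notMem hz, mul_zero]]
  exact Finset.sum_congr rfl fun z hz => by rw [Set.indicator_of_mem hz, Pi.one_apply, mul_one]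

theorem routea_num1 {q ρ m θ D : ℝ} (q0 : 0 < q) (q1 : q ≤ 1) (ρ0 : 0 < ρ) (ρ1 : ρ ≤ 1)
    (m1 : 1 ≤ m) (hθ : ρ ≤ θ) (D1 : 1 ≤ D) {n c : ℕ} (hc : c ≤ n) :
    q ^ (n - c) * ((ρ * m) ^ n * ((ρ * m) ^ c * (D * (ρ * m) ^ c) * (ρ * m) ^ n)) ≤
      D ^ 2 * θ ^ n * (m ^ 2) ^ (2 * n) := by
  have h1 : q ^ (n - c) ≤ 1 := pow_le_one₀ q0.le q1
  have h2 : ρ ^ n ≤ θ ^ n := pow_le_pow_left₀ ρ0.le hθ n
  have h3 : ρ ^ (n + 2 * c) ≤ 1 := pow_le_one₀ ρ0.le ρ1
  have h4 : m ^ (2 * n + 2 * c) ≤ m ^ (2 * (2 * n)) := pow_le_pow_right₀ m1 (by omega)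
  have h5 : D ≤ D ^ 2 := by nlinarith
  have θ0 : 0 < θ := ρ0.trans_le hθ
  calc _ = q ^ (n - c) * (D * ρ ^ n * (ρ ^ (n + 2 * c) * m ^ (2 * n + 2 * c))) := by ring
    _ ≤ 1 * (D ^ 2 * θ ^ n * (1 * m ^ (2 * (2 * n)))) := by gcongr
    _ = _ := by ring

theorem routea_num2 {q g ρ m θ D : ℝ} (ρ0 : 0 < ρ) (m0 : 0 < m)
    (hg : q * g = m ^ 2) (hθ : ρ ≤ θ) (hθ' : 1 ≤ θ * m) (θ1 : θ ≤ 1) {n c i : ℕ}
    (hc : c ≤ n) (hi : i ≤ n) :
    q ^ (n - c) * (g ^ (n - i) * D * (D * (ρ * m) ^ (i + c) * (g ^ i * q ^ c))) ≤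
      D ^ 2 * θ ^ n * (m ^ 2) ^ (2 * n) := by
  obtain ⟨c', h1⟩ := Nat.exists_eq_add_of_le hc
  obtain ⟨i', h2⟩ := Nat.exists_eq_add_of_le hi
  have θ0 : 0 < θ := ρ0.trans_le hθ
  have e1 : q ^ (n - c) * q ^ c = q ^ n := by rw [← pow_add, Nat.sub_add_cancel hc]
  have e2 : g ^ (n - i) * g ^ i = g ^ n := by rw [← pow_add, Nat.sub_add_cancel hi]
  have e3 : (ρ * m) ^ (i + c) ≤ (θ * m) ^ (2 * n) :=
    (pow_le_pow_left₀ (by positivity) (by gcongr) _).trans (pow_le_pow_right₀ hθ' (by omega))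
  have e4 : θ ^ n ≤ 1 := pow_le_one₀ θ0.le θ1
  calc _ = D ^ 2 * (ρ * m) ^ (i + c) * ((q ^ (n - c) * q ^ c) * (g ^ (n - i) * g ^ i)) := by ring
    _ = D ^ 2 * (ρ * m) ^ (i + c) * (m ^ 2) ^ n := by rw [e1, e2, ← mul_pow q g, hg]
    _ ≤ D ^ 2 * (θ * m) ^ (2 * n) * (m ^ 2) ^ n := by gcongr
    _ = θ ^ n * (D ^ 2 * θ ^ n * (m ^ 2) ^ (2 * n)) := by ring
    _ ≤ 1 * (D ^ 2 * θ ^ n * (m ^ 2) ^ (2 * n)) := by gcongr
    _ = _ := one_mul _

theorem routea_min {z : ℝ≥0∞} {x y D : ℝ} (x0 : 0 ≤ x) (y0 : 0 ≤ y) (D1 : 1 ≤ D)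
    (h1 : z ≤ ofReal (D * x * x)) (h2 : z ≤ ofReal (y * y)) : z ≤ ofReal (D * x * y) := by
  rcases le_total x y with h | h
  · exact h1.trans (ENNReal.ofReal_le_ofReal (by gcongr))
  · refine h2.trans (ENNReal.ofReal_le_ofReal ?_)
    calc y * y ≤ 1 * x * y := by rw [one_mul]; gcongr
      _ ≤ _ := by gcongr

end

theorem routea_up (n : ℕ) {u u' : V} (h : S.l u = S.l u') :
    ∑' y, ∫⁻ ω, C.wN n u y ω * C.wN n u' y ω ∂mu V p ≤
      ∑ c ∈ Finset.range (n + 1), ofReal (C.q ^ (n - c)) * routeaS (kpow C.Q c) C.coll u u' := by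
  have h1 := C.pair_lev n h (g := kone) (g₁ := fun _ => 1) fun y y' => by
    unfold kone; split_ifs <;> simp
  have hb : ∀ y, Measurable fun ω => C.wN n u y ω * C.wN n u' y ω :=
    fun y => (C.wN_meas n u y).mul (C.wN_meas n u' y)
  rw [← lintegral_tsum fun y => (hb y).aemeasurable, Finset.sum_range_succ, add_comm]
  refine (le_of_eq (lintegral_congr fun ω => tsum_congr fun y => ?_)).trans
    (h1.trans (add_le_add ?_ (Finset.sum_le_sum fun i _ => ?_)))
  · rw [← tsum_kone_mul y fun y' => C.wN n u y ω * C.wN n u' y' ω]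
    exact tsum_congr fun y' => mul_comm _ _
  · rw [Nat.sub_self, pow_zero, ENNReal.ofReal_one, one_mul]
    refine ENNReal.tsum_le_tsum fun y => ENNReal.tsum_le_tsum fun y' => mul_le_mul_right ?_ _
    unfold kone
    split_ifs with e
    · rw [e, C.coll_self]
    · exact zero_le
  · simp only [routeaS, ← ENNReal.tsum_mul_left, mul_one]
    refine ENNReal.tsum_le_tsum fun v => ENNReal.tsum_le_tsum fun v' => ?_
    rw [ENNReal.tsum_mul_left, mul_comm]
    exact mul_le_mul_left (C.Qn_row_le _ _) _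

theorem routea_down (n : ℕ) (T : Finset V) {u u' : V} (h : S.l u = S.l u') :
    ∫⁻ ω, (∑ z ∈ T, C.wN n u z ω) * (∑ z ∈ T, C.wN n u' z ω) ∂mu V p ≤
      routeaS (kpow C.Q n) (fun z z' => (T : Set V).indicator 1 z * (T : Set V).indicator 1 z')
        u u' + ∑ i ∈ Finset.range n, routeaS (kpow C.Q i)
          (fun v v' => C.coll v v' * ∑ z ∈ T, kpow C.Q (n - i) v z) u u' := by
  have h1 := C.pair_lev n h (g₁ := (T : Set V).indicator 1)
    (g := fun z z' => (T : Set V).indicator 1 z * (T : Set V).indicator 1 z') fun y y' =>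
      mul_le_of_le_one_right' (Set.indicator_le_self' (fun _ _ => zero_le) y')
  refine (le_of_eq (lintegral_congr fun ω => ?_)).trans (h1.trans (le_of_eq ?_))
  · rw [← routea_ind, ← routea_ind, ← ENNReal.tsum_mul_right]
    refine tsum_congr fun z => ?_
    rw [← ENNReal.tsum_mul_left]
    exact tsum_congr fun z' => by ring
  · simp only [routeaS, routea_ind, mul_assoc]

theorem routea_expand (n : ℕ) (T : Finset V) :
    ∑' y, ∫⁻ ω₁, ∫⁻ ω₂, C.X n T y ω₁ ω₂ ^ 2 ∂mu V p ∂mu V p =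
      ∑' u, ∑' u', (∫⁻ ω, (∑ z ∈ T, C.wN n u z ω) * (∑ z ∈ T, C.wN n u' z ω) ∂mu V p) *
        ∑' y, ∫⁻ ω, C.wN n u y ω * C.wN n u' y ω ∂mu V p := by
  have ha : ∀ u u', Measurable fun ω => (∑ z ∈ T, C.wN n u z ω) * (∑ z ∈ T, C.wN n u' z ω) :=
    fun u u' => (Finset.measurable_sum _ fun z _ => C.wN_meas n u z).mul
      (Finset.measurable_sum _ fun z _ => C.wN_meas n u' z)
  have hb : ∀ u u' y, Measurable fun ω => C.wN n u y ω * C.wN n u' y ω :=
    fun u u' y => (C.wN_meas n u y).mul (C.wN_meas n u' y)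
  have h1 : ∀ y ω₁, ∫⁻ ω₂, C.X n T y ω₁ ω₂ ^ 2 ∂mu V p =
      ∑' u, ∑' u', (∑ z ∈ T, C.wN n u z ω₁) * (∑ z ∈ T, C.wN n u' z ω₁) *
        ∫⁻ ω, C.wN n u y ω * C.wN n u' y ω ∂mu V p := fun y ω₁ => by
    simp only [← lintegral_const_mul _ (hb _ _ _)]
    rw [tsum_congr fun u => (lintegral_tsum fun u' =>
        ((hb u u' y).const_mul _).aemeasurable).symm, ← lintegral_tsum fun u =>
        (Measurable.tsum fun u' => (hb u u' y).const_mul _).aemeasurable]
    refine lintegral_congr fun ω => ?_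
    rw [sq, Chain.X, ← ENNReal.tsum_mul_right]
    refine tsum_congr fun u => ?_
    rw [← ENNReal.tsum_mul_left]
    exact tsum_congr fun u' => by ring
  simp only [h1, ← ENNReal.tsum_mul_left]
  refine Eq.trans (tsum_congr fun y => ?_)
    (ENNReal.tsum_comm.trans (tsum_congr fun u => ENNReal.tsum_comm))
  rw [lintegral_tsum fun u => (Measurable.tsum fun u' => (ha u u').mul_const _).aemeasurable]
  refine tsum_congr fun u => ?_
  rw [lintegral_tsum fun u' => ((ha u u').mul_const _).aemeasurable]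
  exact tsum_congr fun u' => lintegral_mul_const _ (ha u u')

theorem Chain.route_sq (hM : 1 < C.q ^ 2 * S.b ^ C.J) : ∃ C₁ θ : ℝ, 1 ≤ C₁ ∧ 0 < θ ∧ θ < 1 ∧
    ∀ (n : ℕ) (t : ℝ) (T : Finset V), (∀ z ∈ T, z ∈ S.Lev t) →
      ∑' y, ∫⁻ ω₁, ∫⁻ ω₂, C.X n T y ω₁ ω₂ ^ 2 ∂mu V p ∂mu V p ≤
        ofReal (C₁ * (n + 1) ^ 2 * θ ^ n * (C.q ^ 2 * S.b ^ C.J) ^ (2 * n)) * T.card := by
  have b0 : 0 < S.b := zero_lt_one.trans S.one_lt_b
  have q0 := C.q0
  have ρ0 := C.ρ0
  set m := C.q * S.b ^ (C.J / 2) with hm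
  set g := C.q * S.b ^ C.J with hg
  set D : ℝ := ((S.D : ℝ) + 1) ^ (2 * C.L) with hD
  have m0 : 0 < m := by positivity
  have g0 : 0 < g := by positivity
  have hm2 : C.q ^ 2 * S.b ^ C.J = m ^ 2 := by
    rw [hm, mul_pow, ← Real.rpow_natCast (S.b ^ (C.J / 2)), ← Real.rpow_mul b0.le]
    norm_num
  have m1 : 1 < m := by
    rw [hm2] at hM
    nlinarith
  have D1 : 1 ≤ D := one_le_pow₀ (by linarith [(Nat.cast_nonneg S.D : (0 : ℝ) ≤ _)])
  have D0 : 0 < D := by linarith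
  have hQ : ∀ k, NB (kpow C.Q k) (ofReal ((C.ρ * m) ^ k)) := fun k => by
    rw [hm, ← mul_assoc]; exact C.Qn_norm k
  set θ := max C.ρ (1 / m) with hθ
  have θ0 : 0 < θ := ρ0.trans_le (le_max_left _ _)
  have θ1 : θ < 1 := max_lt C.ρ1 ((div_lt_one m0).2 m1)
  refine ⟨D ^ 2, θ, one_le_pow₀ D1, θ0, θ1, fun n t T hT => ?_⟩
  set W := ofReal (D ^ 2 * θ ^ n * (m ^ 2) ^ (2 * n)) * T.card with hW
  have hZ : ∀ i c, NB (routeaS (ktr (kpow C.Q i)) (routeaS (kpow C.Q c) C.coll))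
      (ofReal ((C.ρ * m) ^ i * ((C.ρ * m) ^ c * (D * (C.ρ * m) ^ c) * (C.ρ * m) ^ i))) := by
    intro i c
    rw [ENNReal.ofReal_mul (by positivity), ENNReal.ofReal_mul (by positivity),
      ENNReal.ofReal_mul (by positivity), ENNReal.ofReal_mul (by positivity)]
    exact routea_norm (hQ i).tr (routea_norm (hQ c) C.coll_norm)
  have hmain : ∀ c ≤ n, ofReal (C.q ^ (n - c)) * ∑' u, ∑' u', routeaS (kpow C.Q n)
      (fun z z' => (T : Set V).indicator 1 z * (T : Set V).indicator 1 z') u u' *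
        routeaS (kpow C.Q c) C.coll u u' ≤ W := fun c hc => by
    rw [routea_swap, tsum_congr fun v => tsum_congr fun v' => mul_right_comm _ _ _]
    refine (mul_le_mul_right ((hZ n c).ind_self T) _).trans ?_
    rw [cnt_finset, ← mul_assoc, ← ENNReal.ofReal_mul (by positivity)]
    exact mul_le_mul_left (ENNReal.ofReal_le_ofReal
      (routea_num1 q0 C.q1 ρ0 C.ρ1.le m1.le (le_max_left _ _) D1 hc)) _
  have hside : ∀ c ≤ n, ∀ i ≤ n, ofReal (C.q ^ (n - c)) * ∑' u, ∑' u', routeaS (kpow C.Q i)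
      (fun v v' => C.coll v v' * ∑ z ∈ T, kpow C.Q (n - i) v z) u u' *
        routeaS (kpow C.Q c) C.coll u u' ≤ W := fun c hc i hi => by
    have h1 : ∀ v v', routeaS (ktr (kpow C.Q i)) (routeaS (kpow C.Q c) C.coll) v v' ≤
        ofReal (D * (C.ρ * m) ^ (i + c) * (g ^ i * C.q ^ c)) := fun v v' => by
      refine routea_min (by positivity) (by positivity) D1
        (((hZ i c).le v v').trans (le_of_eq (by congr 1; ring))) ?_
      refine (routea_sup (fun u => C.Qn_col_le i u)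
        (routea_sup (C.Qn_row_le c) C.coll_le_one) v v').trans (le_of_eq ?_)
      rw [mul_one, ← ENNReal.ofReal_mul (by positivity), ← ENNReal.ofReal_mul (by positivity),
        ← ENNReal.ofReal_mul (by positivity)]
      congr 1
      ring
    have h2 : ∑' v, ∑ z ∈ T, kpow C.Q (n - i) v z ≤ ofReal (g ^ (n - i)) * T.card := by
      rw [Summable.tsum_finsetSum fun _ _ => ENNReal.summable, mul_comm, ← nsmul_eq_mul]
      exact Finset.sum_le_card_nsmul _ _ _ fun z _ => C.Qn_col_le _ z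
    rw [routea_swap]
    calc _ ≤ ofReal (C.q ^ (n - c)) * ∑' v, (∑ z ∈ T, kpow C.Q (n - i) v z) * (ofReal D *
          ofReal (D * (C.ρ * m) ^ (i + c) * (g ^ i * C.q ^ c))) := by
          refine mul_le_mul_right (ENNReal.tsum_le_tsum fun v => ?_) _
          refine (ENNReal.tsum_le_tsum fun v' => mul_le_mul_right (h1 v v') _).trans ?_
          rw [ENNReal.tsum_mul_right, ENNReal.tsum_mul_right, mul_comm (∑' _, _), mul_assoc]
          exact mul_le_mul_right (mul_le_mul_left (C.coll_row v) _) _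
      _ ≤ ofReal (C.q ^ (n - c)) * (ofReal (g ^ (n - i)) * T.card * (ofReal D *
          ofReal (D * (C.ρ * m) ^ (i + c) * (g ^ i * C.q ^ c)))) := by
          rw [ENNReal.tsum_mul_right]
          exact mul_le_mul_right (mul_le_mul_left h2 _) _
      _ = ofReal (C.q ^ (n - c) * (g ^ (n - i) * D *
          (D * (C.ρ * m) ^ (i + c) * (g ^ i * C.q ^ c)))) * T.card := by
          rw [ENNReal.ofReal_mul (p := C.q ^ (n - c)) (by positivity),
            ENNReal.ofReal_mul (p := g ^ (n - i) * D) (by positivity),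
            ENNReal.ofReal_mul (p := g ^ (n - i)) (by positivity)]
          ring
      _ ≤ W := mul_le_mul_left (ENNReal.ofReal_le_ofReal (routea_num2 ρ0 m0
          (by rw [← hm2, hg]; ring) (le_max_left _ _)
          ((div_le_iff₀ m0).1 (le_max_right _ _)) θ1.le hc hi)) _
  have hlev : ∀ u ω, ∑ z ∈ T, C.wN n u z ω ≠ 0 → S.l u = t - n * C.J := fun u ω h => by
    obtain ⟨z, hz, h1⟩ := Finset.exists_ne_zero_of_sum_ne_zero h
    have h2 := (C.wN_supp h1).2.1
    have h3 := (hT z hz).2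
    linarith
  rw [routea_expand]
  calc _ ≤ ∑' u, ∑' u', ∑ c ∈ Finset.range (n + 1), ofReal (C.q ^ (n - c)) * (routeaS (kpow C.Q n)
          (fun z z' => (T : Set V).indicator 1 z * (T : Set V).indicator 1 z') u u' *
            routeaS (kpow C.Q c) C.coll u u' + ∑ i ∈ Finset.range n, routeaS (kpow C.Q i)
          (fun v v' => C.coll v v' * ∑ z ∈ T, kpow C.Q (n - i) v z) u u' *
            routeaS (kpow C.Q c) C.coll u u') := by
        refine ENNReal.tsum_le_tsum fun u => ENNReal.tsum_le_tsum fun u' => ?_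
        by_cases h : S.l u = S.l u'
        · refine (mul_le_mul' (routea_down C n T h) (routea_up C n h)).trans (le_of_eq ?_)
          rw [Finset.mul_sum]
          refine Finset.sum_congr rfl fun c _ => ?_
          rw [← Finset.sum_mul, ← add_mul, mul_left_comm]
        · rw [lintegral_congr (g := fun _ => 0) fun ω => by
            by_contra hc
            exact h ((hlev u ω (left_ne_zero_of_mul hc)).trans
              (hlev u' ω (right_ne_zero_of_mul hc)).symm)]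
          simp
    _ ≤ ∑ _c ∈ Finset.range (n + 1), (W + ∑ _i ∈ Finset.range n, W) := by
        rw [routea_tsum_sum]
        refine Finset.sum_le_sum fun c hc => ?_
        have hc' : c ≤ n := Nat.lt_succ_iff.1 (Finset.mem_range.1 hc)
        simp only [ENNReal.tsum_mul_left, ENNReal.tsum_add]
        rw [routea_tsum_sum, mul_add, Finset.mul_sum]
        exact add_le_add (hmain c hc') (Finset.sum_le_sum fun i hi =>
          hside c hc' i (Finset.mem_range.1 hi).le)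
    _ = _ := by
        rw [hm2, show D ^ 2 * (n + 1) ^ 2 * θ ^ n * (m ^ 2) ^ (2 * n) = ((n + 1) ^ 2 : ℕ) *
          (D ^ 2 * θ ^ n * (m ^ 2) ^ (2 * n)) by push_cast; ring,
          ENNReal.ofReal_mul (Nat.cast_nonneg _), ENNReal.ofReal_natCast, mul_assoc, ← hW]
        simp only [Finset.sum_const, Finset.card_range, nsmul_eq_mul]
        push_cast
        ring

end Pool.Agent.P.MP_3aa27f_pr.F
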