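import Pool.Agent.P.MP_3aa27f_pr.F.Lev

/-! Geometry of thinning. -/

open MeasureTheory unitInterval SimpleGraph
open ENNReal (ofReal)
open scoped ENNReal

namespace Pool.Agent.P.MP_3aa27f_pr.F

variable {V : Type} {G : SimpleGraph V} [G.LocallyFinite] [Countable V] {S : Geo G} {p : I}
variable {ς : ℝ}

omit [G.LocallyFinite] [Countable V] in
theorem thina_cnt {x y : V} (w : G.Walk x y) :
    cnt {z | z ∈ w.support} ≤ ofReal ((w.length : ℝ) + 1) := by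
  classical
  have h : {z | z ∈ w.support} = (w.support.toFinset : Set V) := by ext z; simp
  have h2 : w.support.toFinset.card ≤ w.length + 1 := by
    rw [← w.length_support]; exact List.toFinset_card_le _
  rw [h, cnt_finset, ← ENNReal.ofReal_natCast]
  refine ENNReal.ofReal_le_ofReal ?_
  exact_mod_cast h2

omit [Countable V] in
theorem Geo.thin_geo (S : Geo G) (s0 : 0 < ς) (s1 : ς ≤ 1) {a t τ M M₂ : ℝ} {x v₀ v : V}
    {ω : Cf V} (M0 : 0 ≤ M) (M0' : 0 ≤ M₂) (hx : S.l x ≤ t) (ha : a ≤ t) (hτ : t + 2 ≤ τ)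
    (h0 : v₀ ∈ S.Cl a x t ω ∩ S.Top t) (w : G.Walk v₀ v) (hO : S.O v) (h1 : τ ≤ S.l v)
    (h2 : S.l v < τ + S.n0) (ht : S.l v = S.l v₀ + w.length)
    (hfirst : ∀ z ∈ w.support, S.O z → τ ≤ S.l z → z = v) (hopen : ∀ e ∈ w.edges, ω e = true)
    (hclosed : ∀ e ∈ G.edgeSet, e ∈ ETo {z | z ∈ w.support} → e ∈ S.E t (S.l v) → e ∉ w.edges →
      ω e = false) {F : Set (Sym2 V)}
    (hF : ∀ e ∈ G.edgeSet, e ∈ S.E a (S.l v) → e ∉ S.E a t ∩ ETo (S.Cl a x t ω) →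
      ¬ (e ∈ ETo {z | z ∈ w.support} ∧ e ∈ S.E t (S.l v)) → e ∈ F)
    (hB : ∀ u ∈ S.Cl a x t ω ∩ S.Top t, u ≠ v₀ → ω ∉ Rch G F u (S.Top τ))
    (hΦ : S.Phi ς t (S.Cl a x t ω) ≤ ofReal M)
    (hΦ' : S.Phi ς (S.l v) (⋃ u ∈ (S.Cl a x t ω ∩ S.Top t) \ {v₀}, Kl G F u ω) ≤ ofReal M₂) :
    ω ∈ S.Pre ς a x τ (M + (w.length + 1) + M₂) v := by
  obtain ⟨h0C, h0T⟩ := h0
  have h0T' : t ≤ S.l v₀ := h0T
  have hW : ∀ z ∈ w.support, (z = v₀ ∨ S.l v₀ + 1 ≤ S.l z) ∧ (z = v ∨ S.l z + 1 ≤ S.l v) :=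
    fun z hz => S.tight_support w ht hz
  have hC : ∀ u ∈ S.Cl a x t ω, S.l u < t + 1 := fun u hu => by
    rcases Geo.Cn_Lt (S := S) (t := t) Set.inter_subset_right hu with h | h
    · rw [h]; linarith
    · exact h.2
  have hBl : ∀ z ∈ ⋃ u ∈ (S.Cl a x t ω ∩ S.Top t) \ {v₀}, Kl G F u ω, S.l z < τ := by
    intro z hz
    simp only [Set.mem_iUnion] at hz
    obtain ⟨u, hu, hz⟩ := hz
    by_contra hc
    exact hB u hu.1 hu.2 ⟨z, not_lt.1 hc, hz⟩
  have htv : t ≤ S.l v := by linarith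
  have hsub : S.Cl a x (S.l v) ω ⊆ S.Cl a x t ω ∪ {z | z ∈ w.support} ∪
      ⋃ u ∈ (S.Cl a x t ω ∩ S.Top t) \ {v₀}, Kl G F u ω := by
    refine Kl_sub_of_closed (Or.inl (Or.inl mem_Kl_self)) ?_
    intro y hy z hyz he hω
    have heG : s(y, z) ∈ G.edgeSet := hyz
    by_cases c1 : s(y, z) ∈ S.E a t ∩ ETo (S.Cl a x t ω)
    · obtain ⟨c1, u, hu, huC⟩ := c1
      rcases Sym2.mem_iff.1 hu with rfl | rfl
      · exact Or.inl (Or.inl (Kl_step huC hyz c1 hω))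
      · exact Or.inl (Or.inl huC)
    by_cases c2 : s(y, z) ∈ ETo {z | z ∈ w.support} ∧ s(y, z) ∈ S.E t (S.l v)
    · by_cases c3 : s(y, z) ∈ w.edges
      · exact Or.inl (Or.inr (w.snd_mem_support_of_mem_edges c3))
      · have := hclosed _ heG c2.1 c2.2 c3
        rw [hω] at this
        exact absurd this (by simp)
    have hFe := hF _ heG he c1 c2
    rcases hy with (hy | hy) | hy
    · have n1 : s(y, z) ∉ S.Lt t := fun h => c1 ⟨⟨he.1, h⟩, y, Sym2.mem_mk_left _ _, hy⟩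
      rw [Geo.mem_Lt, not_or, not_lt, not_lt] at n1
      by_cases hyv : y = v₀
      · exact absurd ⟨⟨y, Sym2.mem_mk_left _ _, hyv ▸ w.start_mem_support⟩,
          Geo.mem_Ge.2 n1, he.2⟩ c2
      · refine Or.inr ?_
        simp only [Set.mem_iUnion]
        exact ⟨y, ⟨⟨hy, n1.1⟩, hyv⟩, Kl_step mem_Kl_self hyz hFe hω⟩
    · have n1 : s(y, z) ∉ S.Ge t := fun h => c2 ⟨⟨y, Sym2.mem_mk_left _ _, hy⟩, h, he.2⟩
      have hy1 := (hW y hy).1
      have hy2 : t ≤ S.l y := by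
        rcases hy1 with h | h
        · rw [h]; exact h0T'
        · linarith
      have hz : S.l z < t := by
        by_contra hc
        exact n1 (Geo.mem_Ge.2 ⟨hy2, not_lt.1 hc⟩)
      have hl := S.lip _ _ hyz.symm
      rcases hy1 with h | h
      · exact absurd ⟨⟨he.1, Geo.mem_Lt.2 (Or.inr hz)⟩, y, Sym2.mem_mk_left _ _, h ▸ h0C⟩ c1
      · linarith
    · refine Or.inr ?_
      simp only [Set.mem_iUnion] at hy ⊢
      obtain ⟨u, hu, hy⟩ := hy
      exact ⟨u, hu, Kl_step hy hyz hFe hω⟩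
  refine ⟨hO, h1, h2, ⟨?_, ?_, ?_⟩, ?_⟩
  · refine Cn_trans (Cn_mono (S.E_mono le_rfl htv) h0C) ⟨w, fun e he => ⟨?_, hopen e he⟩⟩
    exact S.tight_edges' w ht (by linarith) (by linarith) e he
  · intro u hu hl
    rcases hsub hu with (h | h) | h
    · linarith [hC u h]
    · rcases (hW u h).2 with h' | h'
      · exact h'
      · linarith
    · linarith [hBl u h]
  · refine (S.Phi_mono ς _ hsub).trans ((S.Phi_union_le ς _ _ _).trans ?_)
    have hl : (0 : ℝ) ≤ (w.length : ℝ) + 1 := by positivity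
    rw [ENNReal.ofReal_add (by linarith) M0', ENNReal.ofReal_add M0 hl]
    refine add_le_add ((S.Phi_union_le ς _ _ _).trans (add_le_add ?_ ?_)) hΦ'
    · exact (S.Phi_anti s0 s1 htv _).trans hΦ
    · refine (S.Phi_le_cnt s0 s1 fun z hz => ?_).trans (thina_cnt w)
      rcases (hW z hz).2 with h' | h'
      · rw [h']
      · linarith
  · intro u hu hOu hl
    rcases hsub hu with (h | h) | h
    · linarith [hC u h]
    · exact hfirst u h hOu hl
    · linarith [hBl u h]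

end Pool.Agent.P.MP_3aa27f_pr.F
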