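import Pool.Agent.P.MP_3aa27f_pr.F.Pw

/-! The half-tilted susceptibility is finite when the crossing rate is strictly smaller than
`b ^ (-1/2)`. -/

open MeasureTheory unitInterval SimpleGraph
open ENNReal (ofReal)
open scoped ENNReal

namespace Pool.Agent.P.MP_3aa27f_pr.F

variable {V : Type} {G : SimpleGraph V} [G.LocallyFinite] [Countable V] {S : Geo G} {p : I}
variable {ς : ℝ}

/-- the half tilt -/
noncomputable def tilt_w (S : Geo G) (x y : V) : ℝ≥0∞ := ofReal (S.b ^ ((S.l y - S.l x) / 2))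

omit [Countable V] in
theorem tilt_w_mul (x y z : V) : tilt_w S x y = tilt_w S x z * tilt_w S z y := by
  unfold tilt_w
  rw [← ENNReal.ofReal_mul (Real.rpow_pos_of_pos (sch_b0 S) _).le, ← Real.rpow_add (sch_b0 S)]
  congr 2; ring

omit [Countable V] in
theorem tilt_id (s0 : 0 < ς) (d : ℝ) :
    S.b ^ (d / 2) = ς ^ (-d) * (ς * S.b ^ (1 / 2 : ℝ)) ^ d := by
  have b0 := sch_b0 S
  rw [Real.mul_rpow s0.le (by positivity), ← mul_assoc, ← Real.rpow_add s0, neg_add_cancel,
    Real.rpow_zero, one_mul, ← Real.rpow_mul b0.le]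
  congr 1; ring

omit [Countable V] in
theorem tilt_up (s0 : 0 < ς) (θ1 : ς * S.b ^ (1 / 2 : ℝ) ≤ 1) {h B a c : ℝ} (hB : S.GB p ς h B)
    (hc : c - a ≤ h) (s : ℝ) (x : V) :
    ∑' y, (if S.l x + s ≤ S.l y then tau G p (S.E a c) x y * tilt_w S x y else 0) ≤
      ofReal B * ofReal ((ς * S.b ^ (1 / 2 : ℝ)) ^ s) := by
  have b0 := sch_b0 S
  refine le_trans ?_ (mul_le_mul_left (hB x a c hc) _)
  rw [← ENNReal.tsum_mul_right]
  refine ENNReal.tsum_le_tsum fun y => ?_
  split_ifs with hy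
  · rw [mul_assoc, ← ENNReal.ofReal_mul (by positivity), tilt_w, tilt_id s0, neg_sub]
    refine mul_le_mul_right (ENNReal.ofReal_le_ofReal (mul_le_mul_of_nonneg_left
      (Real.rpow_le_rpow_of_exponent_ge (by positivity) θ1 (by linarith)) (by positivity))) _
  · exact zero_le

theorem tilt_down (s0 : 0 < ς) (θ1 : ς * S.b ^ (1 / 2 : ℝ) ≤ 1) {m B s : ℝ} (m0 : 0 ≤ m)
    (hB : S.GB p ς (3 * m + 2) B) (hs : 0 ≤ s) (x : V) :
    ∑' y, (if S.l y + s ≤ S.l x then
        tau G p (S.E (S.l x - m - 1) (S.l x + m)) x y * tilt_w S x y else 0) ≤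
      ofReal S.CM * ofReal B * ofReal ((ς * S.b ^ (1 / 2 : ℝ)) ^ s) := by
  have b0 := sch_b0 S
  have key := S.mtp (fun y x => tau G p (S.E (S.l y + -(m + 1)) (S.l y + (2 * m + 1))) y x *
    ofReal (ς ^ (S.l y - S.l x))) (fun g hg y x => by rw [Geo.tau_rel hg, S.inv g hg])
    (ofReal B) (fun y => hB y _ _ (by linarith)) x
  refine le_trans ?_ (mul_le_mul_left key _)
  rw [← ENNReal.tsum_mul_right]
  refine ENNReal.tsum_le_tsum fun y => ?_
  split_ifs with hy
  · by_cases h2 : S.l x - m - 1 ≤ S.l y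
    · rw [mul_assoc, mul_assoc, tau_comm]
      refine mul_le_mul' (tau_mono (S.E_mono (by linarith) (by linarith))) ?_
      rw [← ENNReal.ofReal_mul (by positivity), ← ENNReal.ofReal_mul (by positivity), tilt_w]
      refine ENNReal.ofReal_le_ofReal ?_
      have e : S.b ^ ((S.l y - S.l x) / 2) =
          S.b ^ (S.l y - S.l x) * S.b ^ ((S.l x - S.l y) / 2) := by
        rw [← Real.rpow_add b0]; congr 1; ring
      rw [e, tilt_id s0, neg_sub, mul_left_comm]
      gcongr ?_ * (_ * ?_)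
      exact Real.rpow_le_rpow_of_exponent_ge (by positivity) θ1 (by linarith)
    · have : Cn G (S.E (S.l x - m - 1) (S.l x + m)) x y = ∅ :=
        Set.eq_empty_of_forall_notMem fun ω hω =>
          (Geo.Cn_Ge (S := S) (s := S.l x - m - 1) Set.inter_subset_left hω).elim
            (fun e => h2 (by rw [e]; linarith)) fun h3 => h2 h3.2
      simp [tau, this]
  · exact zero_le

theorem tilt_both (s0 : 0 < ς) (θ1 : ς * S.b ^ (1 / 2 : ℝ) ≤ 1) {m B s : ℝ} (m0 : 0 ≤ m)
    (hB : S.GB p ς (3 * m + 2) B) (hs : 0 ≤ s) (x : V) :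
    ∑' y, (if S.l x + s ≤ S.l y ∨ S.l y + s ≤ S.l x then
        tau G p (S.E (S.l x - m - 1) (S.l x + m)) x y * tilt_w S x y else 0) ≤
      2 * (ofReal S.CM * ofReal B * ofReal ((ς * S.b ^ (1 / 2 : ℝ)) ^ s)) := by
  have h1 := tilt_up s0 θ1 hB (a := S.l x - m - 1) (c := S.l x + m) (by linarith) s x
  have h2 := tilt_down s0 θ1 m0 hB hs x
  have h3 : ofReal B ≤ ofReal S.CM * ofReal B :=
    le_mul_of_one_le_left' (ENNReal.one_le_ofReal.2 S.one_le_CM)
  rw [two_mul]
  refine le_trans ?_ (add_le_add (h1.trans (mul_le_mul_left h3 _)) h2)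
  rw [← ENNReal.tsum_add]
  refine ENNReal.tsum_le_tsum fun y => ?_
  split_ifs with a b c d
  any_goals first | exact le_self_add | exact le_add_self | exact zero_le
  exact (a.elim b d).elim

omit [Countable V] in
theorem tilt_apriori (n : ℕ) (x : V) : ∑' y, tauL G p Set.univ n x y * tilt_w S x y ≤
    ofReal (((S.D : ℝ) + 1) ^ n) * ofReal (S.b ^ ((n : ℝ) / 2)) := by
  refine le_trans ?_ (mul_le_mul_left (cnt_ball_le S x n) _)
  rw [cnt, ← ENNReal.tsum_mul_right]
  refine ENNReal.tsum_le_tsum fun y => ?_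
  by_cases hy : G.dist x y ≤ n
  · rw [Set.indicator_of_mem (s := {z | G.dist x z ≤ n}) hy]
    refine mul_le_mul' tauL_le_one (ENNReal.ofReal_le_ofReal
      (Real.rpow_le_rpow_of_exponent_le S.one_lt_b.le ?_))
    have h1 := (le_abs_self _).trans (S.l_dist x y)
    have h2 : (G.dist x y : ℝ) ≤ n := by exact_mod_cast hy
    linarith
  · have : CnL G Set.univ n x y = ∅ := Set.eq_empty_of_forall_notMem fun ω hω => hy (CnL_dist hω)
    simp [tauL, this]

theorem tilt_iter {m : ℝ} {A : ℝ≥0∞}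
    (hA : ∀ x, ∑' y, tau G p (S.E (S.l x - m - 1) (S.l x + m)) x y * tilt_w S x y ≤ A)
    (hE : ∀ x, ∑' y, (if S.l x + m ≤ S.l y ∨ S.l y + m ≤ S.l x then
        tau G p (S.E (S.l x - m - 1) (S.l x + m)) x y * tilt_w S x y else 0) ≤ 1 / 2) (x : V) :
    ∑' y, tau G p Set.univ x y * tilt_w S x y ≤ 2 * A := by
  classical
  have key : ∀ (n : ℕ) x, ∑' y, tauL G p Set.univ n x y * tilt_w S x y ≤ 2 * A := fun n => by
    set χ := ⨆ x, ∑' y, tauL G p Set.univ n x y * tilt_w S x y with hχ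
    have c0 : χ ≠ ⊤ := ne_top_of_le_ne_top
      (ENNReal.mul_ne_top ENNReal.ofReal_ne_top ENNReal.ofReal_ne_top)
      (iSup_le (tilt_apriori (S := S) n))
    have c1 : ∀ x, ∑' y, tauL G p Set.univ n x y * tilt_w S x y ≤ χ := fun x =>
      le_iSup (fun x => ∑' y, tauL G p Set.univ n x y * tilt_w S x y) x
    have c2 : χ ≤ A + 1 / 2 * χ := iSup_le fun x => by
      refine (ENNReal.tsum_le_tsum fun y => mul_le_mul_left
        (exit_le {z | S.l x - m < S.l z ∧ S.l z < S.l x + m}) _).trans ?_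
      simp only [add_mul]
      rw [ENNReal.tsum_add]
      refine add_le_add (le_trans (ENNReal.tsum_le_tsum fun y => mul_le_mul_left
        ((Set.indicator_le_self _ _ y).trans (tau_mono fun e he => ?_)) _) (hA x)) ?_
      · induction e using Sym2.ind with
        | _ b c =>
          obtain ⟨h1, h2⟩ := mem_EIn.1 he.2
          exact ⟨Geo.mem_Ge.2 ⟨by linarith [h1.1], by linarith [h2.1]⟩,
            Geo.mem_Lt.2 (Or.inl (by linarith [h1.2]))⟩
      · refine le_trans ?_ (mul_le_mul_left (hE x) _)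
        simp only [← ENNReal.tsum_mul_right]
        rw [ENNReal.tsum_comm]
        refine ENNReal.tsum_le_tsum fun z => ?_
        split_ifs with hz h0 h0
        · have e : ∀ (a : ℝ≥0∞) y, a * tauL G p Set.univ n z y * tilt_w S x y =
              a * tilt_w S x z * (tauL G p Set.univ n z y * tilt_w S z y) := fun a y => by
            rw [tilt_w_mul x y z, mul_mul_mul_comm]
          simp only [e, ENNReal.tsum_mul_left]
          refine mul_le_mul' (mul_le_mul_left (measure_mono (Cn_mono' fun b c hbc he => ?_)) _)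
            (c1 z)
          obtain ⟨-, d, hd, h5, h6⟩ := he
          refine ⟨Geo.mem_Ge.2 ?_, d, hd, h6⟩
          have := S.lip b c hbc
          have := S.lip c b hbc.symm
          rcases Sym2.mem_iff.1 hd with rfl | rfl
          · exact ⟨by linarith, by linarith⟩
          · exact ⟨by linarith, by linarith⟩
        · have h1 := hz.1
          rw [Set.mem_ofPred_eq, not_and_or, not_lt, not_lt] at h1
          exact (h0 (h1.symm.imp id fun h => by linarith)).elim
        · simp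
        · simp
    intro x
    refine (c1 x).trans ?_
    have c3 : 1 / 2 * χ ≠ ⊤ := ENNReal.mul_ne_top (by norm_num) c0
    have c4 : χ = 1 / 2 * χ + 1 / 2 * χ := by
      rw [← add_mul, ENNReal.add_halves, one_mul]
    have c5 : 1 / 2 * χ ≤ A := by
      rw [← ENNReal.add_le_add_iff_right c3, ← c4]; exact c2
    rw [c4, two_mul]
    exact add_le_add c5 c5
  rw [ENNReal.tsum_eq_iSup_sum]
  refine iSup_le fun s => ?_
  simp only [tau_eq_iSup, ENNReal.iSup_mul]
  rw [ENNReal.finsetSum_iSup_of_monotone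
    (f := fun y (n : ℕ) => tauL G p Set.univ n x y * tilt_w S x y) fun y m n hmn =>
      mul_le_mul_left (tauL_mono le_rfl (by exact_mod_cast hmn)) _]
  exact iSup_le fun n => (ENNReal.sum_le_tsum s).trans (key n x)

theorem tilt_fin (hR : Rate S p ς) (hs : ς ^ 2 * S.b < 1) (x : V) :
    ∑' y, tau G p Set.univ x y * tilt_w S x y ≠ ⊤ := by
  have s0 := hR.s0
  have b0 := sch_b0 S
  have c1 := S.one_le_CM
  set θ := ς * S.b ^ (1 / 2 : ℝ) with hθ
  have θ0 : 0 < θ := by positivity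
  have θ1 : θ < 1 := by
    refine lt_of_pow_lt_pow_left₀ 2 zero_le_one ?_
    rw [hθ, mul_pow, ← Real.rpow_natCast (S.b ^ _), ← Real.rpow_mul b0.le]
    simpa using hs
  obtain ⟨C, C1, hC⟩ := hR.subpoly 1 one_pos
  obtain ⟨C₂, C2, hg⟩ := S.gob hR.s0 hR.s1 hR.sb
  have ht := (tendsto_pow_const_mul_const_pow_of_abs_lt_one 4
    (show |θ| < 1 by rwa [abs_of_pos θ0])).const_mul (S.CM * (C₂ * C ^ 2 * 9 ^ 4))
  rw [mul_zero] at ht
  obtain ⟨m, hm, m1⟩ := ((ht.eventually_lt_const (show (0 : ℝ) < 1 / 4 by norm_num)).and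
    (Filter.eventually_ge_atTop 1)).exists
  have m1' : (1 : ℝ) ≤ m := by exact_mod_cast m1
  have hG : S.GB p ς (3 * m + 2) (C₂ * C ^ 2 * 9 ^ 4 * m ^ 4) := by
    refine (hg p (3 * m + 2) _ (by linarith) ?_ (hC _ (by linarith))).mono le_rfl ?_
    · rw [Real.rpow_one]; nlinarith
    · rw [Real.rpow_one]
      calc C₂ * (3 * m + 2 + 3) ^ 2 * (C * (3 * m + 2 + 3 + 1)) ^ 2
          ≤ C₂ * (9 * m) ^ 2 * (C * (9 * m)) ^ 2 := by gcongr <;> linarith
        _ = _ := by ring
  refine ne_top_of_le_ne_top ?_ (tilt_iter (m := m)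
    (fun x => le_trans (le_of_eq ?_) (tilt_both s0 θ1.le (by linarith) hG le_rfl x))
    (fun x => (tilt_both s0 θ1.le (by linarith) hG (by linarith) x).trans ?_) x)
  · finiteness
  · refine tsum_congr fun y => (if_pos ?_).symm
    rw [add_zero, add_zero]
    exact le_total _ _
  · rw [← ENNReal.ofReal_mul (by positivity), ← ENNReal.ofReal_mul (by positivity),
      ← ENNReal.ofReal_ofNat 2, ← ENNReal.ofReal_mul (by norm_num), ← ENNReal.ofReal_one,
      ← ENNReal.ofReal_div_of_pos (by norm_num), ← hθ, Real.rpow_natCast]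
    refine ENNReal.ofReal_le_ofReal ?_
    linarith

end Pool.Agent.P.MP_3aa27f_pr.F
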