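import Pool.Agent.P.MP_3aa27f_pr.F.Tilt

/-! Tilted susceptibilities below and above the critical parameter of slab crossings. -/

open MeasureTheory unitInterval SimpleGraph
open ENNReal (ofReal)
open scoped ENNReal

namespace Pool.Agent.P.MP_3aa27f_pr.F

variable {V : Type} {G : SimpleGraph V} [G.LocallyFinite]

theorem tilth_up (S : Geo G) {m : V → ℝ} {C : ℝ} (m0 : ∀ x, 0 < m x)
    (hC : ∀ x y, S.b ^ (S.l y - S.l x) ≤ C * (m y / m x)) (x y : V) :
    m y / m x ≤ C * S.b ^ (S.l y - S.l x) := by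
  have b0 := sch_b0 S
  have h := hC y x
  have hx := m0 x
  have hy := m0 y
  rw [← neg_sub, Real.rpow_neg b0.le, ← mul_div_assoc, le_div_iff₀ hy,
    inv_mul_le_iff₀ (by positivity)] at h
  rw [div_le_iff₀ hx]
  linarith

theorem tilth_sub (S : Geo G) (Z : Side S) {m : V → ℝ} {C : ℝ} (m0 : ∀ x, 0 < m x) (C0 : 0 < C)
    (hC : ∀ x y, S.b ^ (S.l y - S.l x) ≤ C * (m y / m x)) {p₁ : I} (h1 : S.InP p₁)
    (h2 : (p₁ : ℝ) < 1) {q : I} (hq : (q : ℝ) < p₁) (x : V) :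
    ∑' y, tau G q Set.univ x y * ofReal ((m y / m x) ^ (1 / 2 : ℝ)) ≠ ⊤ := by
  have := countable_vert S.conn
  have b0 := sch_b0 S
  obtain ⟨r, r1, r2⟩ := exists_between hq
  have a5 : r ∈ I := ⟨q.2.1.trans r1.le, r2.le.trans p₁.2.2⟩
  obtain ⟨ς, hs, hR⟩ := pw_strict (p := ⟨r, a5⟩) Z h1 h2 (q.2.1.trans_lt r1) r2
  refine ne_top_of_le_ne_top (ENNReal.mul_ne_top (a := ofReal (C ^ (1 / 2 : ℝ)))
    ENNReal.ofReal_ne_top (tilt_fin hR hs x)) ?_
  rw [← ENNReal.tsum_mul_left]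
  refine ENNReal.tsum_le_tsum fun y => ?_
  rw [mul_left_comm, tilt_w, ← ENNReal.ofReal_mul (by positivity)]
  refine mul_le_mul' (PM_mono_p (show q ≤ ⟨r, a5⟩ from r1.le) Cn_FU) (ENNReal.ofReal_le_ofReal ?_)
  refine (Real.rpow_le_rpow (div_pos (m0 y) (m0 x)).le (tilth_up S m0 hC x y)
    (by norm_num)).trans_eq ?_
  rw [Real.mul_rpow C0.le (by positivity), ← Real.rpow_mul b0.le, mul_one_div]

theorem tilth_super (S : Geo G) (Z : Side S) {m : V → ℝ} {C : ℝ} (m0 : ∀ x, 0 < m x) (C0 : 0 < C)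
    (hC : ∀ x y, S.b ^ (S.l y - S.l x) ≤ C * (m y / m x)) {q : I} (hq : ¬ S.InP q) (s : ℝ) :
    ∑' y, tau G q Set.univ S.o y * ofReal ((m y / m S.o) ^ s) = ⊤ := by
  have := countable_vert S.conn
  have b0 := sch_b0 S
  obtain ⟨r0, Ch, hM⟩ := Z.exists_super hq
  obtain ⟨a, h, hx⟩ := Ch.expand r0 hM
  set lo := S.b ^ (-(|h| + 1)) / C with hlo
  set hi := C * S.b ^ (|h| + 1) with hhi
  have lo0 : 0 < lo := by positivity
  have hi0 : 0 < hi := by positivity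
  have ε0 : 0 < min (lo ^ s) (hi ^ s) := lt_min (by positivity) (by positivity)
  refine top_le_iff.1 (le_trans (le_of_eq ?_) (ENNReal.tsum_le_tsum
    (f := fun y => tau G q (S.E a (a + h)) S.o y * ofReal (min (lo ^ s) (hi ^ s))) fun y => ?_))
  · rw [ENNReal.tsum_mul_right, hx, ENNReal.top_mul (ENNReal.ofReal_pos.2 ε0).ne']
  rcases (Cn G (S.E a (a + h)) S.o y).eq_empty_or_nonempty with e | ⟨ω, hω⟩
  · simp [tau, e]
  refine mul_le_mul' (tau_mono (Set.subset_univ _)) (ENNReal.ofReal_le_ofReal ?_)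
  have k : |S.l y - S.l S.o| ≤ |h| + 1 := by
    have h0 := le_abs_self h
    have h0' := abs_nonneg h
    rcases Geo.Cn_Ge Set.inter_subset_left hω with rfl | h3
    · rw [sub_self, abs_zero]; linarith
    rcases Geo.Cn_Lt Set.inter_subset_right hω with rfl | h4
    · rw [sub_self, abs_zero]; linarith
    exact abs_le.2 ⟨by linarith [h3.2, h4.1], by linarith [h3.1, h4.2]⟩
  rcases le_total 0 s with s0 | s0
  · refine (min_le_left _ _).trans (Real.rpow_le_rpow lo0.le ?_ s0)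
    rw [hlo, div_le_iff₀' C0]
    exact le_trans (Real.rpow_le_rpow_of_exponent_le S.one_lt_b.le (abs_le.1 k).1) (hC _ _)
  · refine (min_le_right _ _).trans
      (Real.rpow_le_rpow_of_nonpos (div_pos (m0 _) (m0 _)) ?_ s0)
    exact (tilth_up S m0 hC _ _).trans (mul_le_mul_of_nonneg_left
      (Real.rpow_le_rpow_of_exponent_le S.one_lt_b.le (abs_le.1 k).2) C0.le)

omit [G.LocallyFinite] in
theorem tilth_light [Countable V] {m : V → ℝ} (m0 : ∀ x, 0 < m x) {q : I}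
    (h : ∀ x, ∑' y, tau G q Set.univ x y * ofReal ((m y / m x) ^ (1 / 2 : ℝ)) ≠ ⊤) :
    ¬ ∀ᵐ ω ∂percMeasure V q, ∃ K : (openGraph G ω).ConnectedComponent, ∃ x : V,
      ∑' y : K.supp, ofReal (m y / m x) = ∞ := by
  intro hh
  have h1 : ∀ᵐ ω ∂mu V q, ∀ x, ∑' y, (Kl G Set.univ x ω ∩ Set.univ).indicator
      (fun y => ofReal ((m y / m x) ^ (1 / 2 : ℝ))) y < ⊤ :=
    ae_all_iff.2 fun x => ae_lt_top (measurable_tsum_Kl _ _) (by
      rw [lintegral_tsum_Kl]; simpa using h x)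
  obtain ⟨ω, ⟨K, x, hK⟩, h2⟩ := (Filter.Eventually.and (f := ae (mu V q)) hh h1).exists
  obtain ⟨z, rfl⟩ := K.exists_rep
  have e : ((openGraph G ω).connectedComponentMk z).supp = Kl G Set.univ z ω ∩ Set.univ := by
    ext y
    rw [ConnectedComponent.mem_supp_iff, ConnectedComponent.eq, Set.inter_univ, reachable_comm,
      reachable_iff]
    rfl
  have h3 := h2 z
  rw [← e, ← tsum_subtype] at h3
  refine absurd hK (ne_top_of_le_ne_top (ENNReal.mul_ne_top (a := ofReal (m z / m x))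
    ENNReal.ofReal_ne_top (ENNReal.mul_ne_top h3.ne h3.ne)) ?_)
  rw [← ENNReal.tsum_mul_right, ← ENNReal.tsum_mul_left]
  refine ENNReal.tsum_le_tsum fun y => le_trans (le_of_eq ?_)
    (mul_le_mul_right (mul_le_mul_right (ENNReal.le_tsum y) _) _)
  have a1 := div_pos (m0 y) (m0 z)
  have a2 := div_pos (m0 z) (m0 x)
  rw [← ENNReal.ofReal_mul (by positivity), ← Real.rpow_add a1, add_halves, Real.rpow_one,
    ← ENNReal.ofReal_mul a2.le, mul_comm, div_mul_div_cancel₀ (m0 z).ne']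

theorem tilth_pH (S : Geo G) (Z : Side S) {m : V → ℝ} {C : ℝ} (m0 : ∀ x, 0 < m x) (C0 : 0 < C)
    (hC : ∀ x y, S.b ^ (S.l y - S.l x) ≤ C * (m y / m x)) {p₁ : I} (h1 : S.InP p₁)
    (h2 : (p₁ : ℝ) < 1) (h3 : ∀ q : I, p₁ < q → ¬ S.InP q) :
    pH G (fun u v => m v / m u) = p₁ := by
  have := countable_vert S.conn
  refine le_antisymm (ext_pH_le S Z C0 hC h2 h3) (le_csInf
    ⟨1, one_mem, ext_heavy S Z C0 hC h3 (q := 1) h2⟩ fun q ⟨hq, h⟩ => not_lt.1 fun h' => ?_)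
  exact tilth_light m0 (tilth_sub S Z m0 C0 hC h1 h2 (q := ⟨q, hq⟩) h') h

end Pool.Agent.P.MP_3aa27f_pr.F
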