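import Pool.Agent.P.MP_3aa27f_pr.F.Meas

/-! Bounds for the future of the level exploration. -/

open MeasureTheory unitInterval SimpleGraph
open ENNReal (ofReal)
open scoped ENNReal

namespace Pool.Agent.P.MP_3aa27f_pr.F

variable {V : Type} {G : SimpleGraph V} [G.LocallyFinite] [Countable V] {S : Geo G} {p : I}
variable {ς : ℝ}

theorem Geo.up_lev (S : Geo G) {a t c : ℝ} {x y : V} {A : Set (Cf V)} (hA : MeasurableSet A)
    (dA : Adp G (S.E a t) x A) (hfin : ∀ᵐ ω ∂mu V p, ω ∈ A → (S.Cl a x t ω).Finite) (ht : t ≤ c)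
    (hy : t ≤ S.l y) : mu V p (A ∩ Cn G (S.E a c) x y) ≤
      ∑' v, mu V p (A ∩ {ω | v ∈ S.Cl a x t ω ∩ S.Top t}) * tau G p (S.E a c) v y := by
  refine (expl_up hA dA hfin (S.E_mono le_rfl ht) y).trans (ENNReal.tsum_le_tsum fun v => ?_)
  refine mul_le_mul_left (measure_mono (Set.inter_subset_inter_right _ fun ω hω => ?_)) _
  refine ⟨hω.1, ?_⟩
  rcases hω.2 with rfl | ⟨u, -, h1, h2⟩
  · exact hy
  · have : s(v, u) ∉ S.Lt t := fun h => h2 ⟨h1.1, h⟩
    rw [Geo.mem_Lt, not_or, not_lt] at this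
    exact this.1

theorem Geo.up_top (S : Geo G) (s0 : 0 < ς) (s1 : ς ≤ 1) {a t c h B : ℝ} {x : V}
    {A : Set (Cf V)} (hA : MeasurableSet A) (dA : Adp G (S.E a t) x A)
    (hfin : ∀ᵐ ω ∂mu V p, ω ∈ A → (S.Cl a x t ω).Finite) (ht : t ≤ c) (hx : S.l x ≤ t)
    (hB : S.BB p ς h ⊤ B) (B1 : 1 ≤ B) (hc : c - a ≤ h) :
    ∑' y, (S.Top c).indicator (fun y => mu V p (A ∩ Cn G (S.E a c) x y)) y ≤
      ofReal (B * ς ^ (c - t - 1)) * ∫⁻ ω in A, cnt (S.Cl a x t ω ∩ S.Top t) ∂mu V p := by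
  have hm : ∀ v, MeasurableSet {ω | v ∈ S.Cl a x t ω ∩ S.Top t} := fun v =>
    cnx_meas (A := fun y => Cn G (S.E a t) x y) (fun _ => Cn_FU.measurableSet) _ v
  have e1 : ∫⁻ ω in A, cnt (S.Cl a x t ω ∩ S.Top t) ∂mu V p =
      ∑' v, mu V p (A ∩ {ω | v ∈ S.Cl a x t ω ∩ S.Top t}) := by
    refine (lintegral_tsum_ind ((mu V p).restrict A) hm 1).trans (tsum_congr fun v => ?_)
    rw [Measure.restrict_apply (hm v), Set.inter_comm, Pi.one_apply, mul_one]
  calc _ ≤ ∑' y, ∑' v, mu V p (A ∩ {ω | v ∈ S.Cl a x t ω ∩ S.Top t}) *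
        (S.Top c).indicator (tau G p (S.E a c) v) y := by
        refine ENNReal.tsum_le_tsum fun y => ?_
        by_cases hy : y ∈ S.Top c
        · simp only [Set.indicator_of_mem hy]
          exact S.up_lev hA dA hfin ht (ht.trans hy)
        · simp [hy]
    _ ≤ _ := by
        rw [ENNReal.tsum_comm, e1, ← ENNReal.tsum_mul_left]
        refine ENNReal.tsum_le_tsum fun v => ?_
        rw [ENNReal.tsum_mul_left, mul_comm]
        rcases (A ∩ {ω | v ∈ S.Cl a x t ω ∩ S.Top t}).eq_empty_or_nonempty with h | ⟨ω, hω⟩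
        · simp only [h, measure_empty, mul_zero, le_refl]
        · refine mul_le_mul_left ((hB.top s0 s1 B1 v hc).trans (ENNReal.ofReal_le_ofReal ?_)) _
          have hv : S.l v ≤ t + 1 := by
            rcases S.Cn_Lt Set.inter_subset_right hω.2.1 with rfl | h1
            · linarith
            · exact h1.2.le
          exact mul_le_mul_of_nonneg_left
            (Real.rpow_le_rpow_of_exponent_ge s0 s1 (by linarith)) (by linarith)

theorem Geo.up_sing (S : Geo G) (s0 : 0 < ς) (s1 : ς ≤ 1) {a c M : ℝ} {x v y : V}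
    {A : Set (Cf V)} (hA : MeasurableSet A) (dA : Adp G (S.E a (S.l v)) x A)
    (hs : A ⊆ S.Sing ς a x v M) (hv : S.l v ≤ c) (hy : S.l v ≤ S.l y) :
    mu V p (A ∩ Cn G (S.E a c) x y) ≤ mu V p A * tau G p (S.E a c) v y := by
  refine (S.up_lev hA dA (Filter.Eventually.of_forall fun ω hω => S.Cl_finite_of_Phi s0 s1
    (ne_top_of_le_ne_top ENNReal.ofReal_ne_top (hs hω).2.2)) hv hy).trans ?_
  rw [tsum_eq_single v]
  · exact mul_le_mul_left (measure_mono Set.inter_subset_left) _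
  · intro u hu
    have : A ∩ {ω | u ∈ S.Cl a x (S.l v) ω ∩ S.Top (S.l v)} = ∅ :=
      Set.eq_empty_of_forall_notMem fun ω hω => hu ((hs hω.1).2.1 u hω.2.1 hω.2.2)
    rw [this, measure_empty, zero_mul]

theorem Geo.low_sing (S : Geo G) (s0 : 0 < ς) (s1 : ς ≤ 1) {a c M : ℝ} {x v : V}
    {A : Set (Cf V)} (hA : MeasurableSet A) (dA : Adp G (S.E a (S.l v)) x A)
    (hs : A ⊆ S.Sing ς a x v M) (hv : S.l v ≤ c) {β : ℝ≥0∞}
    (hβ : ∀ W : Set V, S.Phi ς (S.l v) W ≤ ofReal M →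
      β ≤ rch G p (S.E a c \ (ETo W ∩ S.Lt (S.l v))) v (S.Top c)) :
    mu V p A * β ≤ mu V p (A ∩ Rch G (S.E a c) x (S.Top c)) := by
  refine expl_ge hA dA (fun ω hω => S.Cl_finite_of_Phi s0 s1
    (ne_top_of_le_ne_top ENNReal.ofReal_ne_top (hs hω).2.2)) fun ω hω => ?_
  refine ⟨Rch G (S.E a c \ (ETo (S.Cl a x (S.l v) ω) ∩ S.Lt (S.l v))) v (S.Top c),
    Rch_FU.measurableSet, Rch_dep.mono fun e he h => he.2 ⟨h.2, h.1.2⟩, hβ _ (hs hω).2.2,
    fun ω' hω' _ h => ?_⟩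
  exact Rch_trans (Cn_mono (S.E_mono le_rfl hv) (hs hω').1)
    (Rch_mono Set.sdiff_subset subset_rfl h)

/-- crossings from bad states are rare -/
theorem Geo.up_good (S : Geo G) (s0 : 0 < ς) (s1 : ς ≤ 1) {a t M₁ M : ℝ} {x : V} (M1 : 0 < M₁)
    (M0 : 0 < M) {A : Set (Cf V)} (hA : MeasurableSet A) :
    ∫⁻ ω in A, cnt (S.Cl a x t ω ∩ S.Top t) ∂mu V p ≤
      ofReal M₁ * mu V p (A ∩ S.Good ς a x t M₁ M) +
        (∫⁻ ω, cnt (S.Cl a x t ω ∩ S.Top t) ^ 2 ∂mu V p) / ofReal M₁ +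
        (∫⁻ ω, cnt (S.Cl a x t ω ∩ S.Top t) * S.Phi ς t (S.Cl a x t ω) ∂mu V p) / ofReal M := by
  have mN := S.measurable_cntTop a x t
  have mP : Measurable fun ω => S.Phi ς t (S.Cl a x t ω) := S.measurable_Phi ς t _ x
  have mNP : Measurable fun ω =>
      cnt (S.Cl a x t ω ∩ S.Top t) * S.Phi ς t (S.Cl a x t ω) := mN.mul mP
  have mG := hA.inter (S.measurableSet_Good ς a x t M₁ M)
  have p1 : ofReal M₁ ≠ 0 := (ENNReal.ofReal_pos.2 M1).ne'
  have p2 : ofReal M ≠ 0 := (ENNReal.ofReal_pos.2 M0).ne'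
  rw [← lintegral_indicator hA, div_eq_mul_inv, div_eq_mul_inv,
    ← lintegral_mul_const _ (mN.pow_const 2), ← lintegral_mul_const _ mNP,
    ← lintegral_indicator_const mG, ← lintegral_add_left (measurable_const.indicator mG),
    ← lintegral_add_right _ (mNP.mul_const _)]
  refine lintegral_mono fun ω => ?_
  by_cases hω : ω ∈ A
  · simp only [Set.indicator_of_mem hω]
    by_cases h1 : (S.Cl a x t ω ∩ S.Top t).Nonempty
    · by_cases h2 : cnt (S.Cl a x t ω ∩ S.Top t) ≤ ofReal M₁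
      · by_cases h3 : S.Phi ς t (S.Cl a x t ω) ≤ ofReal M
        · rw [Set.indicator_of_mem (show ω ∈ A ∩ S.Good ς a x t M₁ M from ⟨hω, h1, h2, h3⟩)]
          exact h2.trans (le_self_add.trans le_self_add)
        · refine le_trans ?_ le_add_self
          rw [← div_eq_mul_inv, ENNReal.le_div_iff_mul_le (Or.inl p2)
            (Or.inl ENNReal.ofReal_ne_top)]
          exact mul_le_mul_right (not_le.1 h3).le _
      · refine le_trans ?_ (le_add_self.trans le_self_add)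
        rw [← div_eq_mul_inv, ENNReal.le_div_iff_mul_le (Or.inl p1)
          (Or.inl ENNReal.ofReal_ne_top), sq]
        exact mul_le_mul_right (not_le.1 h2).le _
    · rw [Set.not_nonempty_iff_eq_empty.1 h1, cnt_empty]
      exact zero_le
  · simp only [Set.indicator_of_notMem hω]
    exact zero_le

end Pool.Agent.P.MP_3aa27f_pr.F
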